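import Pool.Agent.H78.DT.SDf

/-!
# Basic facts on `SDiff` and `pushf` (job DT-SDB)

* `euler`: differentiate `ψ.f (c • x) = c • ψ.f x` at `c = 1`.
* `adj`: differentiate `‖ψ.f z‖² = ‖z‖²`.
* `fderiv_gf`, `fderiv_fg`: chain rule for `g ∘ f = id` at `x`, and `f ∘ g = id` at `f x`
  (`g (f x) = x`).
* `pushf_dff`: `pushf ψ` maps `TS` to `TS`: `⟪ψ x, (Dg(ψ x))* v⟫ = ⟪Dg(ψ x)(ψ x), v⟫ = ⟪g (ψ x), v⟫ =
  ⟪x, v⟫ = 0` (`euler` for `ψ.symm`).  `pushf ψ.symm (pushf ψ (x,v)) = (x, (Df x)* (Dg (ψ x))* v) =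
  (x, (Dg(ψ x) Df(x))* v) = (x, v)`.  Smoothness: `fderiv_smooth`, `SmOn` toolkit (`SmOn.adjoint`,
  `SmOn.clm_apply`, `SmOn.comp_contDiffOn`); `TS E ⊆ {p | p.1 ≠ 0}`.
* `pushf_comp`: `D(χ.g ∘ ψ.g)(ψ χ x) = Dχ.g (χ x) ∘ Dψ.g (ψ χ x)`; take adjoints.
* `pushf_iso`: `(D A⁻¹)* = (A⁻¹)* = A`.
-/

open Set
open scoped ContDiff

noncomputable section

namespace DT

variable {E : Type} [NormedAddCommGroup E] [InnerProductSpace ℝ E] [FiniteDimensional ℝ E]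

theorem SDiff.diff (ψ : SDiff E) {x : E} (hx : x ≠ 0) : DifferentiableAt ℝ ψ.f x :=
  (ψ.f_smooth.contDiffAt (isOpen_compl_singleton.mem_nhds hx)).differentiableAt (by simp)

theorem SDiff.fderiv_smooth (ψ : SDiff E) : ContDiffOn ℝ ∞ (fun x => fderiv ℝ ψ.f x) {0}ᶜ :=
  ψ.f_smooth.fderiv_of_isOpen isOpen_compl_singleton (by simp)

/-- Directional derivative along a curve on the sphere. -/
theorem SDiff.hasDerivAt (ψ : SDiff E) {c : ℝ → E} {c' : E} {s : ℝ} (hc : HasDerivAt c c' s)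
    (h0 : c s ≠ 0) : HasDerivAt (fun s => ψ.f (c s)) (fderiv ℝ ψ.f (c s) c') s :=
  (ψ.diff h0).hasFDerivAt.comp_hasDerivAt s hc

theorem SDiff.euler (ψ : SDiff E) {x : E} (hx : x ≠ 0) : fderiv ℝ ψ.f x x = ψ.f x := by
  have hc : HasDerivAt (fun c : ℝ => c • x) x 1 := by
    have h := (hasDerivAt_id (1 : ℝ)).smul_const x
    rw [one_smul] at h
    exact h
  have h1 := ψ.hasDerivAt hc (by rw [one_smul]; exact hx)
  rw [one_smul] at h1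
  have h2 : HasDerivAt (fun c : ℝ => c • ψ.f x) (ψ.f x) 1 := by
    have h := (hasDerivAt_id (1 : ℝ)).smul_const (ψ.f x)
    rw [one_smul] at h
    exact h
  have h3 : (fun c : ℝ => ψ.f (c • x)) =ᶠ[nhds 1] fun c : ℝ => c • ψ.f x := by
    filter_upwards [lt_mem_nhds (zero_lt_one (α := ℝ))] with c hc
    exact ψ.f_hom c hc x
  exact h1.unique (h2.congr_of_eventuallyEq h3)

theorem SDiff.adj (ψ : SDiff E) {x : E} (hx : x ≠ 0) (v : E) :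
    inner ℝ (ψ.f x) (fderiv ℝ ψ.f x v) = inner ℝ x v := by
  have hc : HasDerivAt (fun s : ℝ => x + s • v) v 0 := by
    have h := ((hasDerivAt_id (0 : ℝ)).smul_const v).const_add x
    rw [one_smul] at h
    exact h
  have h0 : x + (0 : ℝ) • v = x := by rw [zero_smul, add_zero]
  have h1 := ψ.hasDerivAt hc (by rw [h0]; exact hx)
  rw [h0] at h1
  have h2 := h1.inner ℝ h1
  have h3 := hc.inner ℝ hc
  have h4 : (fun s : ℝ => inner ℝ (ψ.f (x + s • v)) (ψ.f (x + s • v))) =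
      fun s : ℝ => inner ℝ (x + s • v) (x + s • v) := by
    funext s
    rw [real_inner_self_eq_norm_sq, real_inner_self_eq_norm_sq, ψ.f_norm]
  rw [h4] at h2
  have h5 := h2.unique h3
  simp only [h0] at h5
  rw [real_inner_comm (ψ.f x) (fderiv ℝ ψ.f x v), real_inner_comm x v] at h5
  linarith

theorem SDiff.fderiv_gf (ψ : SDiff E) {x : E} (hx : x ≠ 0) (v : E) :
    fderiv ℝ ψ.g (ψ.f x) (fderiv ℝ ψ.f x v) = v := by
  have h1 : HasFDerivAt ψ.f (fderiv ℝ ψ.f x) x := (ψ.diff hx).hasFDerivAt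
  have h2 : HasFDerivAt ψ.g (fderiv ℝ ψ.g (ψ.f x)) (ψ.f x) :=
    (ψ.symm.diff (ψ.f_ne hx)).hasFDerivAt
  have h3 := h2.comp x h1
  have h4 : ψ.g ∘ ψ.f = id := by
    funext z
    exact ψ.gf z
  rw [h4] at h3
  have h5 := h3.unique (hasFDerivAt_id x)
  have h6 := congrArg (fun L : E →L[ℝ] E => L v) h5
  exact h6

theorem SDiff.fderiv_fg (ψ : SDiff E) {x : E} (hx : x ≠ 0) (v : E) :
    fderiv ℝ ψ.f x (fderiv ℝ ψ.g (ψ.f x) v) = v := by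
  have h := ψ.symm.fderiv_gf (ψ.f_ne hx) v
  change fderiv ℝ ψ.f (ψ.g (ψ.f x)) (fderiv ℝ ψ.g (ψ.f x) v) = v at h
  rw [ψ.gf] at h
  exact h

theorem SDb_ne {p : E × E} (hp : p ∈ TS E) : p.1 ≠ 0 := by
  have h := hp.1
  intro h0
  rw [h0, norm_zero] at h
  exact zero_ne_one h

theorem SDb_smOn (ψ : SDiff E) : SmOn (TS E) (pushf ψ) := by
  have hfst : SmOn (TS E) (fun p : E × E => p.1) := SmOn.of_contDiff contDiff_fst
  have hsnd : SmOn (TS E) (fun p : E × E => p.2) := SmOn.of_contDiff contDiff_snd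
  have h1 : SmOn (TS E) (fun p : E × E => ψ.f p.1) :=
    SmOn.comp_contDiffOn isOpen_compl_singleton ψ.f_smooth hfst (fun p hp => SDb_ne hp)
  have h2 : SmOn (TS E) (fun p : E × E => fderiv ℝ ψ.g (ψ.f p.1)) :=
    SmOn.comp_contDiffOn isOpen_compl_singleton ψ.symm.fderiv_smooth h1
      (fun p hp => ψ.f_ne (SDb_ne hp))
  exact SmOn.prodMk h1 (SmOn.clm_apply h2.adjoint hsnd)

theorem SDb_mem (ψ : SDiff E) {p : E × E} (hp : p ∈ TS E) : pushf ψ p ∈ TS E := by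
  refine ⟨?_, ?_⟩
  · change ‖ψ.f p.1‖ = 1
    rw [ψ.f_norm]
    exact hp.1
  · change inner ℝ (ψ.f p.1) (ContinuousLinearMap.adjoint (fderiv ℝ ψ.g (ψ.f p.1)) p.2) = 0
    rw [ContinuousLinearMap.adjoint_inner_right]
    have h : fderiv ℝ ψ.g (ψ.f p.1) (ψ.f p.1) = ψ.g (ψ.f p.1) :=
      ψ.symm.euler (ψ.f_ne (SDb_ne hp))
    rw [h, ψ.gf]
    exact hp.2

theorem SDb_inv (ψ : SDiff E) {p : E × E} (hp : p ∈ TS E) :
    pushf ψ.symm (pushf ψ p) = p := by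
  refine Prod.ext (ψ.gf p.1) ?_
  change ContinuousLinearMap.adjoint (fderiv ℝ ψ.f (ψ.g (ψ.f p.1)))
    (ContinuousLinearMap.adjoint (fderiv ℝ ψ.g (ψ.f p.1)) p.2) = p.2
  rw [ψ.gf]
  apply ext_inner_left ℝ
  intro w
  rw [ContinuousLinearMap.adjoint_inner_right, ContinuousLinearMap.adjoint_inner_right,
    ψ.fderiv_gf (SDb_ne hp)]

theorem pushf_dff (ψ : SDiff E) : Dff (pushf ψ) (pushf ψ.symm) :=
  ⟨SDb_smOn ψ, SDb_smOn ψ.symm, fun _ hp =>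
    ⟨SDb_mem ψ hp, SDb_mem ψ.symm hp, SDb_inv ψ hp, SDb_inv ψ.symm hp⟩⟩

theorem pushf_comp (ψ χ : SDiff E) (p : E × E) (hp : p ∈ TS E) :
    pushf (ψ.comp χ) p = pushf ψ (pushf χ p) := by
  refine Prod.ext rfl ?_
  change ContinuousLinearMap.adjoint (fderiv ℝ (fun z => χ.g (ψ.g z)) (ψ.f (χ.f p.1))) p.2 =
    ContinuousLinearMap.adjoint (fderiv ℝ ψ.g (ψ.f (χ.f p.1)))
      (ContinuousLinearMap.adjoint (fderiv ℝ χ.g (χ.f p.1)) p.2)
  have hx := SDb_ne hp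
  have h1 : HasFDerivAt ψ.g (fderiv ℝ ψ.g (ψ.f (χ.f p.1))) (ψ.f (χ.f p.1)) :=
    (ψ.symm.diff (ψ.f_ne (χ.f_ne hx))).hasFDerivAt
  have h2 : HasFDerivAt χ.g (fderiv ℝ χ.g (χ.f p.1)) (ψ.g (ψ.f (χ.f p.1))) := by
    rw [ψ.gf]
    exact (χ.symm.diff (χ.f_ne hx)).hasFDerivAt
  have h3 := (h2.comp (ψ.f (χ.f p.1)) h1).fderiv
  have h4 : fderiv ℝ (fun z => χ.g (ψ.g z)) (ψ.f (χ.f p.1)) =
      (fderiv ℝ χ.g (χ.f p.1)).comp (fderiv ℝ ψ.g (ψ.f (χ.f p.1))) := h3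
  rw [h4, ContinuousLinearMap.adjoint_comp]
  rfl

theorem pushf_iso (A : E ≃ₗᵢ[ℝ] E) (p : E × E) : pushf (SDiff.ofIso A) p = isoAct A p := by
  refine Prod.ext rfl ?_
  change ContinuousLinearMap.adjoint (fderiv ℝ (A.symm : E → E) (A p.1)) p.2 = A p.2
  have h : fderiv ℝ (A.symm : E → E) (A p.1) =
      (A.symm.toContinuousLinearEquiv : E →L[ℝ] E) :=
    A.symm.toContinuousLinearEquiv.hasFDerivAt.fderiv
  rw [h]
  apply ext_inner_left ℝ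
  intro w
  rw [ContinuousLinearMap.adjoint_inner_right]
  change inner ℝ (A.symm w) p.2 = inner ℝ w (A p.2)
  rw [← A.inner_map_map, A.apply_symm_apply]

theorem isoAct_dff (A : E ≃ₗᵢ[ℝ] E) : Dff (isoAct A) (isoAct A.symm) :=
  (pushf_dff (SDiff.ofIso A)).congr (fun p _ => (pushf_iso A p).symm)
    (fun p _ => (pushf_iso A.symm p).symm)

end DT
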