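import Pool.Agent.H78.DT.MRot
import Pool.Agent.H78.DT.SDb

/-!
# Properties of `Cm` (job DT-CMP)

Let `ψ` have no antipodal point: `ψ x ≠ -x`, so `⟪ψ x, x⟫ ≠ -1` for unit `x` (`inner_ne_of_ne`).
`Cm ψ x x = mrot (ψ x) x (ψ x) = x` (`SDiff.euler`, `mrot_self`);
`⟪x, Cm ψ x v⟫ = ⟪mrot (ψ x) x (ψ x), mrot (ψ x) x (Dψ v)⟫ = ⟪ψ x, Dψ v⟫ = ⟪x, v⟫` (`mrot_inner`,
`SDiff.adj`); `det (Cm ψ x) = det (mrot ..) det (Dψ x) > 0`; smoothness by the `SmOn` toolkit: the maps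
`x ↦ ψ.f x`, `x ↦ fderiv ℝ ψ.f x` are smooth on `{0}ᶜ`, and `mrot u w` is a smooth function of
`(u, w)` where `1 + ⟪u, w⟫ ≠ 0`.
-/

open Set Metric
open scoped ContDiff

noncomputable section

namespace DT

variable {E : Type} [NormedAddCommGroup E] [InnerProductSpace ℝ E] [FiniteDimensional ℝ E]

theorem mrot_smooth : ContDiffOn ℝ ∞ (fun q : E × E => mrot q.1 q.2)
    {q | (1 : ℝ) + inner ℝ q.1 q.2 ≠ 0} := by
  rw [contDiffOn_clm_apply]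
  intro v
  simp only [mrot_apply]
  have h1 : ContDiff ℝ ∞ (fun q : E × E => (1 : ℝ) + inner ℝ q.1 q.2) :=
    contDiff_const.add (contDiff_fst.inner ℝ contDiff_snd)
  have h2 : ContDiffOn ℝ ∞ (fun q : E × E => ((1 : ℝ) + inner ℝ q.1 q.2)⁻¹)
      {q | (1 : ℝ) + inner ℝ q.1 q.2 ≠ 0} := h1.contDiffOn.inv fun q hq => hq
  have h3 : ContDiff ℝ ∞ (fun q : E × E => (inner ℝ (q.1 + q.2) v : ℝ)) :=
    (contDiff_fst.add contDiff_snd).inner ℝ contDiff_const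
  have h4 : ContDiff ℝ ∞ (fun q : E × E => (2 * inner ℝ q.1 v : ℝ) • q.2) :=
    (contDiff_const.mul (contDiff_fst.inner ℝ contDiff_const)).smul contDiff_snd
  exact (contDiffOn_const.sub ((h2.mul h3.contDiffOn).smul
    (contDiff_fst.add contDiff_snd).contDiffOn)).add h4.contDiffOn

omit [InnerProductSpace ℝ E] [FiniteDimensional ℝ E] in
theorem CmP_ne {x : E} (hx : ‖x‖ = 1) : x ≠ 0 := by
  rintro rfl
  simp at hx

theorem Cm_self (ψ : SDiff E) (hne : ∀ x : E, ‖x‖ = 1 → ψ.f x ≠ -x) {x : E} (hx : ‖x‖ = 1) :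
    Cm ψ x x = x := by
  have h1 : ‖ψ.f x‖ = 1 := (ψ.f_norm x).trans hx
  show mrot (ψ.f x) x (fderiv ℝ ψ.f x x) = x
  rw [ψ.euler (CmP_ne hx)]
  exact mrot_self h1 hx (inner_ne_of_ne h1 hx (hne x hx))

theorem Cm_inner (ψ : SDiff E) (hne : ∀ x : E, ‖x‖ = 1 → ψ.f x ≠ -x) {x : E} (hx : ‖x‖ = 1)
    (v : E) : inner ℝ x (Cm ψ x v) = inner ℝ x v := by
  have h1 : ‖ψ.f x‖ = 1 := (ψ.f_norm x).trans hx
  have h2 := inner_ne_of_ne h1 hx (hne x hx)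
  have h3 := mrot_inner h1 hx h2 (ψ.f x) (fderiv ℝ ψ.f x v)
  rw [mrot_self h1 hx h2, ψ.adj (CmP_ne hx)] at h3
  exact h3

theorem Cm_det (ψ : SDiff E) (hne : ∀ x : E, ‖x‖ = 1 → ψ.f x ≠ -x) {x : E} (hx : ‖x‖ = 1)
    (hd : 0 < (fderiv ℝ ψ.f x).det) : 0 < (Cm ψ x).det := by
  have h1 : ‖ψ.f x‖ = 1 := (ψ.f_norm x).trans hx
  have h2 := mrot_det h1 hx (inner_ne_of_ne h1 hx (hne x hx))
  have h3 : (Cm ψ x).det = (mrot (ψ.f x) x).det * (fderiv ℝ ψ.f x).det :=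
    LinearMap.det_comp ((mrot (ψ.f x) x : E →L[ℝ] E) : E →ₗ[ℝ] E)
      ((fderiv ℝ ψ.f x : E →L[ℝ] E) : E →ₗ[ℝ] E)
  rw [h3]
  exact mul_pos h2 hd

theorem Cm_smooth (ψ : SDiff E) (hne : ∀ x : E, ‖x‖ = 1 → ψ.f x ≠ -x) :
    SmOn (sphere (0 : E) 1) (Cm ψ) := by
  have hs : sphere (0 : E) 1 ⊆ {0}ᶜ := fun x hx => CmP_ne (by simpa using hx)
  have hf : SmOn (sphere (0 : E) 1) ψ.f :=
    SmOn.of_contDiffOn isOpen_compl_singleton hs ψ.f_smooth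
  have hd : SmOn (sphere (0 : E) 1) (fun x => fderiv ℝ ψ.f x) :=
    SmOn.of_contDiffOn isOpen_compl_singleton hs ψ.fderiv_smooth
  have hO : IsOpen {q : E × E | (1 : ℝ) + inner ℝ q.1 q.2 ≠ 0} := by
    have hc : Continuous (fun q : E × E => (1 : ℝ) + inner ℝ q.1 q.2) := by fun_prop
    exact isOpen_compl_singleton.preimage hc
  have hm : SmOn (sphere (0 : E) 1) (fun x => mrot (ψ.f x) x) := by
    refine SmOn.comp_contDiffOn (K := fun q : E × E => mrot q.1 q.2)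
      (F := fun x => (ψ.f x, x)) hO mrot_smooth (hf.prodMk (SmOn.of_contDiff contDiff_id)) ?_
    intro x hx
    have hx1 : ‖x‖ = 1 := by simpa using hx
    have h1 : ‖ψ.f x‖ = 1 := (ψ.f_norm x).trans hx1
    exact MRot_ne (inner_ne_of_ne h1 hx1 (hne x hx1))
  exact hm.clm_comp hd

end DT
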