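import Mathlib

/-!
# Smoothness of parametric integrals, Hadamard's lemma, even functions (job DT-PAR)

(The file Pool/Agent/H99/EQ/R6.lean of helper99 has such a lemma for `F : E × ℝ → W` globally
smooth, `R6_cd`, `R6_hasFDerivAt`, `contDiff_param`: its proofs may be copied.)
(1) `had`: let `f : ℝ × W → Z` be smooth with `f (0, w) = 0`.  Then `f (s, w) = s • g (s, w)` with
`g` smooth.  PROOF. `g (s, w) = ∫ u in 0..1, (fderiv ℝ f (u s, w)) (1, 0)`: smooth as a
parametric integral, and `d/du f (us, w) = s • fderiv ℝ f (us, w) (1, 0)`, fundamental theorem of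
calculus.  Moreover `g (0, w)` is the derivative at `0` of `s ↦ f (s, w)`.
(2) `even_smooth`: let `f : ℝ → ℝ` be smooth and even.  Then `v ↦ f ‖v‖` is smooth on `E`.
PROOF. Show by induction on `k`: for all smooth even `f` the map `v ↦ f ‖v‖` is `C^k`.  `k = 0`:
continuous.  `k + 1`: `f'` is smooth and odd, `f' 0 = 0`, so by (1) (`W` = a point, or `had`
in one variable) `f' (t) = t f₁ (t)` with `f₁` smooth and even (`f₁` is even for `t ≠ 0` and so for
all `t` by continuity, trivial at `0`).  `v ↦ f ‖v‖` has the derivative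
`f₁ ‖v‖ • ⟪v, ·⟫` at every `v`: for `v ≠ 0` by the chain rule (`‖·‖` has derivative
`⟪v,·⟫/‖v‖`); at `v = 0`: `|f t - f 0| ≤ C t²` for `|t| ≤ 1`, so the derivative is `0`.  The derivative
is `C^k` by induction, so `f ‖·‖` is `C^{k+1}` (`contDiff_succ_iff_fderiv` or
`contDiff_succ_iff_hasFDerivAt`).
(3) `odd_quot`: if `f : ℝ → ℝ` is smooth and odd, then `f t = t h t` with `h` smooth and even.
-/

open Set MeasureTheory
open scoped ContDiff

noncomputable section

namespace DT

/-- the partial derivative with respect to the parameter -/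
def Par_pd {E W : Type*} [NormedAddCommGroup E] [NormedSpace ℝ E] [NormedAddCommGroup W]
    [NormedSpace ℝ W] (F : E × ℝ → W) (p : E × ℝ) : E →L[ℝ] W :=
  (fderiv ℝ F p).comp (ContinuousLinearMap.inl ℝ E ℝ)

theorem Par_pd_cd {E W : Type*} [NormedAddCommGroup E] [NormedSpace ℝ E] [NormedAddCommGroup W]
    [NormedSpace ℝ W] {F : E × ℝ → W} {n m : WithTop ℕ∞} (hF : ContDiff ℝ n F)
    (hmn : m + 1 ≤ n) : ContDiff ℝ m (Par_pd F) :=
  (hF.fderiv_right hmn).clm_comp contDiff_const

theorem Par_pd_has {E W : Type*} [NormedAddCommGroup E] [NormedSpace ℝ E] [NormedAddCommGroup W]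
    [NormedSpace ℝ W] {F : E × ℝ → W} (hF : Differentiable ℝ F) (x : E) (q : ℝ) :
    HasFDerivAt (fun x => F (x, q)) (Par_pd F (x, q)) x := by
  have h1 : HasFDerivAt (fun x : E => (x, q)) (ContinuousLinearMap.inl ℝ E ℝ) x :=
    hasFDerivAt_prodMk_left x q
  exact (hF (x, q)).hasFDerivAt.comp x h1

theorem Par_hasFDerivAt {E W : Type*} [NormedAddCommGroup E] [NormedSpace ℝ E]
    [FiniteDimensional ℝ E] [NormedAddCommGroup W] [NormedSpace ℝ W] {F : E × ℝ → W}
    (hF : ContDiff ℝ 1 F) (a b : ℝ) (x : E) :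
    HasFDerivAt (fun x => ∫ t in a..b, F (x, t)) (∫ t in a..b, Par_pd F (x, t)) x := by
  have hpd : Continuous (Par_pd F) := (Par_pd_cd hF (m := 0) (by simp)).continuous
  obtain ⟨C, hC⟩ := ((isCompact_closedBall x 1).prod
    (isCompact_uIcc (a := a) (b := b))).bddAbove_image hpd.norm.continuousOn
  refine intervalIntegral.hasFDerivAt_integral_of_dominated_of_fderiv_le (𝕜 := ℝ)
    (F := fun x q => F (x, q)) (F' := fun x q => Par_pd F (x, q)) (x₀ := x) (bound := fun _ => C)
    (s := Metric.closedBall x 1) (Metric.closedBall_mem_nhds x one_pos) ?_ ?_ ?_ ?_ ?_ ?_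
  · refine Filter.Eventually.of_forall fun y => ?_
    exact (hF.continuous.comp (Continuous.prodMk_right y)).aestronglyMeasurable
  · exact (hF.continuous.comp (Continuous.prodMk_right x)).intervalIntegrable a b
  · exact (hpd.comp (Continuous.prodMk_right x)).aestronglyMeasurable
  · refine Filter.Eventually.of_forall fun t ht y hy => ?_
    exact hC (Set.mem_image_of_mem _ (Set.mk_mem_prod hy (Set.uIoc_subset_uIcc ht)))
  · exact intervalIntegrable_const
  · exact Filter.Eventually.of_forall fun q _ y _ => Par_pd_has (hF.differentiable one_ne_zero) y q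

theorem Par_cd {E : Type} [NormedAddCommGroup E] [NormedSpace ℝ E] [FiniteDimensional ℝ E]
    (n : ℕ) : ∀ {W : Type} [NormedAddCommGroup W] [NormedSpace ℝ W] {F : E × ℝ → W},
      ContDiff ℝ ∞ F → ∀ a b : ℝ, ContDiff ℝ n (fun x => ∫ t in a..b, F (x, t)) := by
  induction n with
  | zero =>
    intro W _ _ F hF a b
    have h1 := fun x => Par_hasFDerivAt (hF.of_le (by simp)) a b x
    exact contDiff_zero.2 (continuous_iff_continuousAt.mpr fun x => (h1 x).continuousAt)
  | succ n ih =>
    intro W _ _ F hF a b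
    have h1 := fun x => Par_hasFDerivAt (hF.of_le (by simp)) a b x
    have h2 := ih (Par_pd_cd hF (m := ∞) (by simp)) a b
    have e : fderiv ℝ (fun x => ∫ t in a..b, F (x, t)) = fun x => ∫ t in a..b, Par_pd F (x, t) :=
      funext fun x => (h1 x).fderiv
    rw [Nat.cast_add, Nat.cast_one, contDiff_succ_iff_fderiv]
    refine ⟨fun x => (h1 x).differentiableAt, by simp, ?_⟩
    rw [e]
    exact h2

theorem had {W Z : Type} [NormedAddCommGroup W] [NormedSpace ℝ W] [FiniteDimensional ℝ W]
    [NormedAddCommGroup Z] [NormedSpace ℝ Z] [CompleteSpace Z] (f : ℝ × W → Z)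
    (hf : ContDiff ℝ ∞ f) (h0 : ∀ w, f (0, w) = 0) :
    ∃ g : ℝ × W → Z, ContDiff ℝ ∞ g ∧ (∀ s w, f (s, w) = s • g (s, w)) ∧
      ∀ w, HasDerivAt (fun s : ℝ => f (s, w)) (g (0, w)) 0 := by
  let F : (ℝ × W) × ℝ → Z := fun q => fderiv ℝ f (q.2 * q.1.1, q.1.2) (1, 0)
  have hFc : ContDiff ℝ ∞ F := by
    have h1 : ContDiff ℝ ∞ (fderiv ℝ f) := hf.fderiv_right (by simp)
    have h2 : ContDiff ℝ ∞ fun q : (ℝ × W) × ℝ => ((q.2 * q.1.1, q.1.2) : ℝ × W) := by
      fun_prop
    exact (h1.comp h2).clm_apply contDiff_const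
  let g : ℝ × W → Z := fun p => ∫ t in (0 : ℝ)..1, F (p, t)
  have hg : ContDiff ℝ ∞ g := contDiff_infty.2 fun n => Par_cd n hFc 0 1
  have hfg : ∀ s w, f (s, w) = s • g (s, w) := by
    intro s w
    have hd : ∀ t : ℝ, HasDerivAt (fun t : ℝ => f (t * s, w)) (s • F ((s, w), t)) t := by
      intro t
      have h1 : HasDerivAt (fun t : ℝ => ((t * s, w) : ℝ × W)) (s, 0) t := by
        have h2 : HasDerivAt (fun t : ℝ => t * s) s t := by
          simpa using (hasDerivAt_id t).mul_const s
        exact h2.prodMk (hasDerivAt_const t w)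
      have h3 := ((hf.differentiable (by simp)) (t * s, w)).hasFDerivAt.comp_hasDerivAt t h1
      have e : ((s, 0) : ℝ × W) = s • ((1, 0) : ℝ × W) := by simp
      rw [e, map_smul] at h3
      exact h3
    have hc : Continuous fun t => s • F ((s, w), t) :=
      continuous_const.smul (hFc.continuous.comp (Continuous.prodMk_right (s, w)))
    have h := intervalIntegral.integral_eq_sub_of_hasDerivAt (a := 0) (b := 1)
      (fun t _ => hd t) (hc.intervalIntegrable 0 1)
    rw [intervalIntegral.integral_smul] at h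
    simp only [one_mul, zero_mul, h0, sub_zero] at h
    exact h.symm
  refine ⟨g, hg, hfg, ?_⟩
  intro w
  have h1 : DifferentiableAt ℝ (fun s : ℝ => g (s, w)) 0 := by
    have h2 : Differentiable ℝ g := hg.differentiable (by simp)
    have h3 : Differentiable ℝ (fun s : ℝ => ((s, w) : ℝ × W)) := by fun_prop
    exact (h2.comp h3) 0
  have h2 : HasDerivAt (fun s : ℝ => s • g (s, w))
      ((0 : ℝ) • deriv (fun s : ℝ => g (s, w)) 0 + (1 : ℝ) • g (0, w)) 0 :=
    (hasDerivAt_id (0 : ℝ)).smul h1.hasDerivAt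
  have h3 : (fun s : ℝ => f (s, w)) = fun s : ℝ => s • g (s, w) := by
    funext s; exact hfg s w
  rw [h3]
  rw [zero_smul, one_smul, zero_add] at h2
  exact h2

theorem odd_quot (f : ℝ → ℝ) (hf : ContDiff ℝ ∞ f) (ho : ∀ t, f (-t) = -f t) :
    ∃ h : ℝ → ℝ, ContDiff ℝ ∞ h ∧ (∀ t, h (-t) = h t) ∧ ∀ t, f t = t * h t := by
  have hf0 : f 0 = 0 := by
    have := ho 0
    rw [neg_zero] at this
    linarith
  obtain ⟨g, hg, hfg, -⟩ := had (W := ℝ) (fun p : ℝ × ℝ => f p.1) (hf.comp contDiff_fst)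
    (fun _ => hf0)
  refine ⟨fun t => g (t, 0), hg.comp (by fun_prop), ?_, fun t => hfg t 0⟩
  intro t
  rcases eq_or_ne t 0 with rfl | ht
  · rw [neg_zero]
  · have h1 : f t = t * g (t, 0) := hfg t 0
    have h2 : f (-t) = (-t) * g (-t, 0) := hfg (-t) 0
    rw [ho, h1] at h2
    have h3 : t * g (-t, 0) = t * g (t, 0) := by linarith
    exact mul_left_cancel₀ ht h3

theorem Par_norm_hasFDerivAt {E : Type} [NormedAddCommGroup E] [InnerProductSpace ℝ E] {v : E}
    (hv : v ≠ 0) : HasFDerivAt (fun x : E => ‖x‖) (‖v‖⁻¹ • innerSL ℝ v) v := by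
  have h1 := (hasStrictFDerivAt_norm_sq v).hasFDerivAt.sqrt (by positivity)
  have h2 : (fun y : E => √(‖y‖ ^ 2)) = fun y : E => ‖y‖ := by
    funext y
    rw [Real.sqrt_sq (norm_nonneg y)]
  rw [h2] at h1
  convert h1 using 1
  rw [Real.sqrt_sq (norm_nonneg v)]
  ext w
  simp
  ring

theorem Par_even_aux {E : Type} [NormedAddCommGroup E] [InnerProductSpace ℝ E] (n : ℕ) :
    ∀ f : ℝ → ℝ, ContDiff ℝ ∞ f → (∀ t, f (-t) = f t) → ContDiff ℝ n fun v : E => f ‖v‖ := by
  induction n with
  | zero =>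
    intro f hf _
    exact contDiff_zero.2 (hf.continuous.comp continuous_norm)
  | succ n ih =>
    intro f hf he
    have hd : ContDiff ℝ ∞ (deriv f) := (contDiff_infty_iff_deriv.1 hf).2
    have hodd : ∀ t, deriv f (-t) = -deriv f t := by
      intro t
      have h1 : deriv (fun x => f (-x)) t = -deriv f (-t) := deriv_comp_neg f t
      have h2 : (fun x => f (-x)) = f := funext he
      rw [h2] at h1
      linarith
    obtain ⟨h, hh, heven, hq⟩ := odd_quot (deriv f) hd hodd
    have hfd : ∀ t, HasDerivAt f (deriv f t) t := fun t =>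
      (hf.differentiable (by simp) t).hasDerivAt
    rw [Nat.cast_add, Nat.cast_one, contDiff_succ_iff_hasFDerivAt]
    refine ⟨fun v => h ‖v‖ • innerSL ℝ v, ?_, ?_⟩
    · exact (ih h hh heven).smul (innerSL ℝ).contDiff
    · intro v
      rcases eq_or_ne v 0 with rfl | hv
      · have h0 : HasDerivAt f 0 0 := by
          have h1 := hfd 0
          rw [hq 0, zero_mul] at h1
          exact h1
        show HasFDerivAt (fun v : E => f ‖v‖) (h ‖(0 : E)‖ • innerSL ℝ (0 : E)) 0
        rw [map_zero, smul_zero]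
        have h2 := (hasDerivAt_iff_isLittleO.1 h0)
        rw [hasFDerivAt_iff_isLittleO]
        have h3 : Filter.Tendsto (fun v : E => ‖v‖) (nhds 0) (nhds 0) := by
          have := (continuous_norm (E := E)).tendsto 0
          rwa [norm_zero] at this
        have h4 := h2.comp_tendsto h3
        have h5 : (fun x : E => f ‖x‖ - f ‖(0 : E)‖ - (0 : E →L[ℝ] ℝ) (x - 0)) =
            (fun x' => f x' - f 0 - (x' - 0) • (0 : ℝ)) ∘ fun v : E => ‖v‖ := by
          funext x; simp
        rw [h5]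
        refine h4.trans_isBigO ?_
        refine Asymptotics.isBigO_of_le _ fun x => ?_
        simp
      · have h1 := (hfd ‖v‖).comp_hasFDerivAt v (Par_norm_hasFDerivAt hv)
        have h2 : deriv f ‖v‖ • ‖v‖⁻¹ • (innerSL ℝ v) = h ‖v‖ • innerSL ℝ v := by
          rw [smul_smul, hq]
          congr 1
          have : ‖v‖ ≠ 0 := norm_ne_zero_iff.2 hv
          field_simp
        rw [h2] at h1
        exact h1

theorem even_smooth {E : Type} [NormedAddCommGroup E] [InnerProductSpace ℝ E] (f : ℝ → ℝ)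
    (hf : ContDiff ℝ ∞ f) (he : ∀ t, f (-t) = f t) : ContDiff ℝ ∞ fun v : E => f ‖v‖ :=
  contDiff_infty.2 fun n => Par_even_aux n f hf he

end DT
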