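import Pool.Agent.H78.DT.SDb
import Pool.Agent.H78.DT.Par

/-!
# Diffeomorphisms fixing the zero section (job DT-LEMZ)

Let `Θ` be a diffeomorphism of `TS E` with inverse `Θ'`, fixing the points `(x, 0)`, and let
`B x v` be the derivative at `s = 0` of `s ↦ (Θ (x, s v)).2`.  Then `Θ` is isotopic to
`(x, v) ↦ (x, B x v)`.
PROOF.  (a) `ret (x, v) = (x/‖x‖, v - ⟪x,v⟫ x/‖x‖²)` is a smooth retraction of `{p | p.1 ≠ 0}` onto
`TS E`.
(b) Let `Θ` be smooth on `TS E`, `TS E → TS E`, `Θ (x,0) = (x,0)`.  Claim: the map `R_Θ` on `ℝ × TS E`,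
`R_Θ (s, (x,v)) = ((Θ (x, s v)).1, s⁻¹ (Θ (x, s v)).2)` for `s ≠ 0` and
`R_Θ (0, (x,v)) = (x, B x v)` is `SmOn (univ ×ˢ TS E)`.  The first component is clear
(`Θ (x, 0) = (x, 0)`).  Near a point `x₀`, `‖x₀‖ = 1`, let `κ : E → E` be smooth with `κ x = x` near `x₀` and
`κ x ≠ 0` for all `x` (`κ x = x₀ + χ(x) (x - x₀)` with a bump function `χ` supported in the ball of
radius `1/2` about `x₀`; `‖κ x - x₀‖ < 1/2`).  `f (s, (x, v)) = (Θ (ret (κ x, s v))).2` is smooth on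
`ℝ × (E × E)` (`SmOn.contDiffOn` for `Θ ∘ ret` on the open set `{p.1 ≠ 0}`) and vanishes for
`s = 0` since `ret (κ x, 0) = (κ x/‖κ x‖, 0)`.  By `had` `f (s, w) = s • g (s, w)`, `g` smooth, and
`g (0, w)` is the derivative.  For `(x, v) ∈ TS` near `x₀`, `ret (κ x, s v) = (x, s v)`, so
`g (s, (x,v)) = s⁻¹ (Θ (x, s v)).2` for `s ≠ 0` and `g (0,(x,v)) = B x v` (uniqueness of derivatives).
(c) The same for `Θ'`, with `B' x v` the derivative of `s ↦ (Θ' (x, s v)).2` at `0` (it exists by (b):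
define `B'` by `g (0, ·)`, i.e. apply (b) with `B' x v = deriv (..) 0`, differentiability from the
smoothness of `Θ' ∘ ret`).
(d) `F (t, p) = R_Θ (1 - t, p)`, `G (t, p) = R_Θ' (1 - t, p)`.  For `s = 1 - t ≠ 0`:
`R_Θ (s, ·) = m_{1/s} ∘ Θ ∘ m_s`, `m_s (x,v) = (x, s v)`, maps `TS` to `TS` and `R_Θ'(s, ·)` is its inverse.
For `s = 0` the relations `R_Θ (0, p) ∈ TS`, `R_Θ' (0, R_Θ (0,p)) = p` follow by continuity of `R_Θ`,
`R_Θ'` on `ℝ × TS` (limits `s → 0`, `TS` is closed).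
At `t = 0`: `F (0, p) = Θ p`; at `t = 1`: `F (1, (x,v)) = (x, B x v)`.
-/

open Set Metric
open scoped ContDiff

noncomputable section

namespace DT

variable {E : Type} [NormedAddCommGroup E] [InnerProductSpace ℝ E] [FiniteDimensional ℝ E]

/-- The retraction of `{p | p.1 ≠ 0}` onto `TS E`. -/
def LemZ_ret (p : E × E) : E × E :=
  (‖p.1‖⁻¹ • p.1, p.2 - ((‖p.1‖ ^ 2)⁻¹ * inner ℝ p.1 p.2) • p.1)

omit [FiniteDimensional ℝ E] in
theorem LemZ_ret_mem {p : E × E} (hp : p.1 ≠ 0) : LemZ_ret p ∈ TS E := by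
  have hn : ‖p.1‖ ≠ 0 := norm_ne_zero_iff.2 hp
  refine ⟨?_, ?_⟩
  · change ‖‖p.1‖⁻¹ • p.1‖ = 1
    rw [norm_smul, norm_inv, norm_norm, inv_mul_cancel₀ hn]
  · change inner ℝ (‖p.1‖⁻¹ • p.1) (p.2 - ((‖p.1‖ ^ 2)⁻¹ * inner ℝ p.1 p.2) • p.1) = 0
    rw [real_inner_smul_left, inner_sub_right, real_inner_smul_right, real_inner_self_eq_norm_sq]
    have h2 : (‖p.1‖ ^ 2)⁻¹ * inner ℝ p.1 p.2 * ‖p.1‖ ^ 2 = inner ℝ p.1 p.2 := by
      field_simp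
    rw [h2, sub_self, mul_zero]

omit [FiniteDimensional ℝ E] in
theorem LemZ_ret_eq {p : E × E} (hp : p ∈ TS E) : LemZ_ret p = p := by
  obtain ⟨h1, h2⟩ := hp
  unfold LemZ_ret
  rw [h1, h2, mul_zero, zero_smul, sub_zero, inv_one, one_smul]

omit [FiniteDimensional ℝ E] in
theorem LemZ_open : IsOpen {p : E × E | p.1 ≠ 0} :=
  isOpen_compl_singleton.preimage continuous_fst

omit [FiniteDimensional ℝ E] in
theorem LemZ_ret_cd : ContDiffOn ℝ ∞ (LemZ_ret (E := E)) {p | p.1 ≠ 0} := by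
  intro p hp
  apply ContDiffAt.contDiffWithinAt
  have hn : ‖p.1‖ ≠ 0 := norm_ne_zero_iff.2 hp
  have hf : ContDiffAt ℝ ∞ (fun p : E × E => p.1) p := contDiffAt_fst
  have hs : ContDiffAt ℝ ∞ (fun p : E × E => p.2) p := contDiffAt_snd
  have h1 : ContDiffAt ℝ ∞ (fun p : E × E => ‖p.1‖) p := hf.norm ℝ hp
  have h2 : ContDiffAt ℝ ∞ (fun p : E × E => ‖p.1‖⁻¹) p := h1.inv hn
  have h3 : ContDiffAt ℝ ∞ (fun p : E × E => (‖p.1‖ ^ 2)⁻¹) p := (h1.pow 2).inv (pow_ne_zero 2 hn)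
  have h4 : ContDiffAt ℝ ∞ (fun p : E × E => (inner ℝ p.1 p.2 : ℝ)) p := hf.inner ℝ hs
  exact (h2.smul hf).prodMk (hs.sub ((h3.mul h4).smul hf))

/-- The rescaled map. -/
def LemZ_R (Θ : E × E → E × E) (q : ℝ × (E × E)) : E × E :=
  open Classical in
  ((Θ (q.2.1, q.1 • q.2.2)).1,
    if q.1 = 0 then deriv (fun s : ℝ => (Θ (q.2.1, s • q.2.2)).2) 0
      else q.1⁻¹ • (Θ (q.2.1, q.1 • q.2.2)).2)

omit [FiniteDimensional ℝ E] in
theorem LemZ_scale {p : E × E} (hp : p ∈ TS E) (s : ℝ) : (p.1, s • p.2) ∈ TS E := by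
  refine ⟨hp.1, ?_⟩
  change inner ℝ p.1 (s • p.2) = 0
  rw [real_inner_smul_right, hp.2, mul_zero]

omit [FiniteDimensional ℝ E] in
theorem LemZ_kappa (x₀ : E) (h0 : ‖x₀‖ = 1) [HasContDiffBump E] : ∃ κ : E → E, ContDiff ℝ ∞ κ ∧
    (∀ x, κ x ≠ 0) ∧ ∀ x ∈ ball x₀ (1 / 4), κ x = x := by
  let χ : ContDiffBump x₀ := ⟨1 / 4, 1 / 2, by norm_num, by norm_num⟩
  refine ⟨fun x => x₀ + χ x • (x - x₀), ?_, ?_, ?_⟩
  · exact contDiff_const.add (χ.contDiff.smul (contDiff_id.sub contDiff_const))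
  · intro x hx
    have h1 : ‖χ x • (x - x₀)‖ = 1 := by
      have : χ x • (x - x₀) = -x₀ := by
        rw [eq_neg_iff_add_eq_zero, add_comm]
        exact hx
      rw [this, norm_neg, h0]
    have h2 : ‖χ x • (x - x₀)‖ ≤ 1 / 2 := by
      rw [norm_smul, Real.norm_of_nonneg χ.nonneg]
      rcases le_or_gt (1 / 2) (dist x x₀) with h | h
      · rw [χ.zero_of_le_dist h, zero_mul]
        norm_num
      · rw [dist_eq_norm] at h
        have h3 := χ.le_one (x := x)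
        have h4 := χ.nonneg (x := x)
        have h5 := norm_nonneg (x - x₀)
        nlinarith
    linarith
  · intro x hx
    have h1 : χ x = 1 := χ.one_of_mem_closedBall (ball_subset_closedBall hx)
    change x₀ + χ x • (x - x₀) = x
    rw [h1, one_smul]
    abel

theorem LemZ_smOn {Θ : E × E → E × E} (hs : SmOn (TS E) Θ)
    (h0 : ∀ x : E, ‖x‖ = 1 → Θ (x, 0) = (x, 0)) :
    SmOn (univ ×ˢ TS E) (LemZ_R Θ) := by
  refine SmOn.prodMk ?_ ?_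
  · refine SmOn.fst (SmOn.comp (K := Θ) (F := fun q : ℝ × (E × E) => (q.2.1, q.1 • q.2.2)) hs ?_ ?_)
    · exact SmOn.of_contDiff ((contDiff_fst.comp contDiff_snd).prodMk
        (contDiff_fst.smul (contDiff_snd.comp contDiff_snd)))
    · intro q hq
      exact LemZ_scale hq.2 q.1
  · rintro ⟨s₀, x₀, v₀⟩ hq0
    have hx0 : ‖x₀‖ = 1 := hq0.2.1
    obtain ⟨κ, hκ, hκ0, hκx⟩ := LemZ_kappa x₀ hx0
    have hΘr : ContDiffOn ℝ ∞ (fun p : E × E => Θ (LemZ_ret p)) {p | p.1 ≠ 0} := by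
      refine SmOn.contDiffOn LemZ_open (SmOn.comp hs
        (SmOn.of_contDiffOn LemZ_open Subset.rfl LemZ_ret_cd) ?_)
      intro p hp
      exact LemZ_ret_mem hp
    let f : ℝ × (E × E) → E := fun q => (Θ (LemZ_ret (κ q.2.1, q.1 • q.2.2))).2
    have hf : ContDiff ℝ ∞ f := by
      have h1 : ContDiff ℝ ∞ (fun q : ℝ × (E × E) => (κ q.2.1, q.1 • q.2.2)) :=
        (hκ.comp (contDiff_fst.comp contDiff_snd)).prodMk
          (contDiff_fst.smul (contDiff_snd.comp contDiff_snd))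
      have h2 := hΘr.comp_contDiff h1 (fun q => hκ0 q.2.1)
      exact contDiff_snd.comp h2
    have hf0 : ∀ w, f (0, w) = 0 := by
      intro w
      change (Θ (LemZ_ret (κ w.1, (0 : ℝ) • w.2))).2 = 0
      have h1 : LemZ_ret (κ w.1, (0 : ℝ) • w.2) = (‖κ w.1‖⁻¹ • κ w.1, 0) := by
        unfold LemZ_ret
        simp
      have h2 : ‖‖κ w.1‖⁻¹ • κ w.1‖ = 1 := by
        rw [norm_smul, norm_inv, norm_norm, inv_mul_cancel₀ (norm_ne_zero_iff.2 (hκ0 _))]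
      rw [h1, h0 _ h2]
    obtain ⟨g, hg, hfg, hd⟩ := had f hf hf0
    refine ⟨univ ×ˢ (ball x₀ (1 / 4) ×ˢ univ), g,
      isOpen_univ.prod (isOpen_ball.prod isOpen_univ), ?_, hg.contDiffOn, ?_⟩
    · exact ⟨mem_univ _, mem_ball_self (by norm_num), mem_univ _⟩
    · rintro ⟨s, x, v⟩ ⟨⟨-, hx, -⟩, ⟨-, hxv⟩⟩
      have key : ∀ r : ℝ, f (r, (x, v)) = (Θ (x, r • v)).2 := by
        intro r
        change (Θ (LemZ_ret (κ x, r • v))).2 = (Θ (x, r • v)).2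
        rw [hκx x hx, LemZ_ret_eq (LemZ_scale hxv r)]
      change g (s, (x, v)) = if s = 0 then deriv (fun r : ℝ => (Θ (x, r • v)).2) 0
        else s⁻¹ • (Θ (x, s • v)).2
      split_ifs with h
      · subst h
        have h1 := hd (x, v)
        simp only [key] at h1
        exact h1.deriv.symm
      · rw [← key, hfg, smul_smul, inv_mul_cancel₀ h, one_smul]

omit [FiniteDimensional ℝ E] in
theorem LemZ_ne {Θ Θ' : E × E → E × E} (h : Dff Θ Θ') {p : E × E} (hp : p ∈ TS E) {s : ℝ}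
    (hs : s ≠ 0) : LemZ_R Θ (s, p) ∈ TS E ∧ LemZ_R Θ' (s, LemZ_R Θ (s, p)) = p := by
  have hm := LemZ_scale hp s
  obtain ⟨h1, -, h3, -⟩ := h.2.2 _ hm
  have e1 : LemZ_R Θ (s, p) = ((Θ (p.1, s • p.2)).1, s⁻¹ • (Θ (p.1, s • p.2)).2) := by
    unfold LemZ_R
    simp [hs]
  refine ⟨?_, ?_⟩
  · rw [e1]
    exact LemZ_scale h1 s⁻¹
  · rw [e1]
    unfold LemZ_R
    simp only [hs, if_false]
    have e2 : s • s⁻¹ • (Θ (p.1, s • p.2)).2 = (Θ (p.1, s • p.2)).2 := by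
      rw [smul_smul, mul_inv_cancel₀ hs, one_smul]
    rw [e2]
    change ((Θ' (Θ (p.1, s • p.2))).1, s⁻¹ • (Θ' (Θ (p.1, s • p.2))).2) = p
    rw [h3]
    refine Prod.ext rfl ?_
    change s⁻¹ • s • p.2 = p.2
    rw [smul_smul, inv_mul_cancel₀ hs, one_smul]

omit [FiniteDimensional ℝ E] in
theorem LemZ_closed : IsClosed (TS E) := by
  have h1 : IsClosed {p : E × E | ‖p.1‖ = 1} := isClosed_eq (by fun_prop) continuous_const
  have h2 : IsClosed {p : E × E | (inner ℝ p.1 p.2 : ℝ) = 0} :=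
    isClosed_eq (continuous_fst.inner continuous_snd) continuous_const
  exact h1.inter h2

theorem LemZ_all {Θ Θ' : E × E → E × E} (h : Dff Θ Θ')
    (h0 : ∀ x : E, ‖x‖ = 1 → Θ (x, 0) = (x, 0)) (h0' : ∀ x : E, ‖x‖ = 1 → Θ' (x, 0) = (x, 0))
    {p : E × E} (hp : p ∈ TS E) (s : ℝ) :
    LemZ_R Θ (s, p) ∈ TS E ∧ LemZ_R Θ' (s, LemZ_R Θ (s, p)) = p := by
  have hc : Continuous fun s : ℝ => LemZ_R Θ (s, p) :=
    (LemZ_smOn h.1 h0).continuousOn.comp_continuous (by fun_prop) fun s => ⟨mem_univ _, hp⟩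
  have hd : Dense ({0}ᶜ : Set ℝ) := dense_compl_singleton 0
  have hm : ∀ s : ℝ, LemZ_R Θ (s, p) ∈ TS E := by
    intro s
    have hcl : IsClosed {s : ℝ | LemZ_R Θ (s, p) ∈ TS E} := LemZ_closed.preimage hc
    have hsub : ({0}ᶜ : Set ℝ) ⊆ {s : ℝ | LemZ_R Θ (s, p) ∈ TS E} :=
      fun s hs => (LemZ_ne h hp hs).1
    exact hcl.closure_subset_iff.2 hsub (hd s)
  have hc2 : Continuous fun s : ℝ => LemZ_R Θ' (s, LemZ_R Θ (s, p)) :=
    (LemZ_smOn h.2.1 h0').continuousOn.comp_continuous (continuous_id.prodMk hc)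
      fun s => ⟨mem_univ _, hm s⟩
  refine ⟨hm s, ?_⟩
  have hcl : IsClosed {s : ℝ | LemZ_R Θ' (s, LemZ_R Θ (s, p)) = p} :=
    isClosed_eq hc2 continuous_const
  have hsub : ({0}ᶜ : Set ℝ) ⊆ {s : ℝ | LemZ_R Θ' (s, LemZ_R Θ (s, p)) = p} :=
    fun s hs => (LemZ_ne h hp hs).2
  exact hcl.closure_subset_iff.2 hsub (hd s)

theorem lemZ {Θ Θ' : E × E → E × E} (h : Dff Θ Θ') (h0 : ∀ x : E, ‖x‖ = 1 → Θ (x, 0) = (x, 0))
    (B : E → E → E)
    (hB : ∀ p ∈ TS E, HasDerivAt (fun s : ℝ => (Θ (p.1, s • p.2)).2) (B p.1 p.2) 0) :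
    DIso Θ (fun p => (p.1, B p.1 p.2)) := by
  have h' : Dff Θ' Θ := ⟨h.2.1, h.1, fun p hp =>
    ⟨(h.2.2 p hp).2.1, (h.2.2 p hp).1, (h.2.2 p hp).2.2.2, (h.2.2 p hp).2.2.1⟩⟩
  have h0' : ∀ x : E, ‖x‖ = 1 → Θ' (x, 0) = (x, 0) := by
    intro x hx
    have hm : ((x, 0) : E × E) ∈ TS E := ⟨hx, inner_zero_right _⟩
    have h1 := (h.2.2 _ hm).2.2.1
    rw [h0 x hx] at h1
    exact h1
  have hcomp : ∀ {Ξ : E × E → E × E}, SmOn (univ ×ˢ TS E) (LemZ_R Ξ) →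
      SmOn (Icc (0 : ℝ) 1 ×ˢ TS E) (fun q : ℝ × (E × E) => LemZ_R Ξ (1 - q.1, q.2)) := by
    intro Ξ hΞ
    refine SmOn.comp (F := fun q : ℝ × (E × E) => (1 - q.1, q.2)) hΞ ?_ ?_
    · exact SmOn.of_contDiff ((contDiff_const.sub contDiff_fst).prodMk contDiff_snd)
    · intro q hq
      exact ⟨mem_univ _, hq.2⟩
  refine ⟨fun q => LemZ_R Θ (1 - q.1, q.2), fun q => LemZ_R Θ' (1 - q.1, q.2),
    hcomp (LemZ_smOn h.1 h0), hcomp (LemZ_smOn h.2.1 h0'), ?_, ?_, ?_⟩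
  · intro t _ p hp
    obtain ⟨a1, a2⟩ := LemZ_all h h0 h0' hp (1 - t)
    obtain ⟨b1, b2⟩ := LemZ_all h' h0' h0 hp (1 - t)
    exact ⟨a1, b1, a2, b2⟩
  · intro p _
    simp [LemZ_R]
  · intro p hp
    have h1 : Θ (p.1, 0) = (p.1, 0) := h0 p.1 hp.1
    simp only [LemZ_R, sub_self, zero_smul, if_true, h1]
    rw [(hB p hp).deriv]

end DT
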