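import Pool.Agent.H78.DT.SDf

/-!
# The swap of the configuration space of two points of the sphere (job DT-SIG)

`St p v = (‖v‖²+1)⁻¹ ((‖v‖²-1) p + 2 v)` is the inverse of the stereographic projection from `p`
(`v ⊥ p`, `‖p‖ = 1`), `Sti p q = (1 - ⟪p,q⟫)⁻¹ (q - ⟪p,q⟫ p)` is the stereographic projection.
`sig (x, v) = (q, w)` with `q = St x v`, `w = Sti q x`, explicitly with `a = ‖v‖²-1`, `N = ‖v‖²+1`:
`q = (a x + 2 v)/N`, `w = (2‖v‖² x - a v)/N`.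
* `St_norm`: `‖q‖² = (a² + 4‖v‖²)/N² = 1`; `St_inner`: `⟪p, q⟫ = a/N`, so `1 - ⟪p,q⟫ = 2/N ≠ 0`.
* `Sti_St`: `q - ⟪p,q⟫ p = 2v/N`.  `St_Sti`: `‖Sti p q‖² = (1 - s²)/(1-s)² = (1+s)/(1-s)`,
  `s = ⟪p,q⟫ ≠ 1`, `N = 2/(1-s)`, `a = 2s/(1-s)`, `St p (Sti p q) = s p + (q - s p) = q`.
  `Sti p q ⊥ p`.
* `sig_eq`: `sig (x,v) = (St x v, Sti (St x v) x)`.
* `sig_mem`, `sig_sig`: `‖w‖ = ‖v‖`, `⟪q, w⟫ = 0`, `sig (q,w) = (x,v)`: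
  `a q + 2 w = (a² x + 2 a v + 4‖v‖² x - 2 a v)/N = N x`, `2‖v‖² q - a w = N v`.
* `sig` is smooth on `E × E` (a rational function with denominator `N > 0`).
-/

open Set Metric
open scoped ContDiff

noncomputable section

namespace DT

variable {E : Type} [NormedAddCommGroup E] [InnerProductSpace ℝ E]

/-- Inverse stereographic projection. -/
def St (p v : E) : E := (‖v‖ ^ 2 + 1)⁻¹ • ((‖v‖ ^ 2 - 1) • p + (2 : ℝ) • v)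

/-- Stereographic projection from `p`. -/
def Sti (p q : E) : E := (1 - (inner ℝ p q : ℝ))⁻¹ • (q - (inner ℝ p q : ℝ) • p)

/-- The swap. -/
def sig (p : E × E) : E × E :=
  ((‖p.2‖ ^ 2 + 1)⁻¹ • ((‖p.2‖ ^ 2 - 1) • p.1 + (2 : ℝ) • p.2),
    (‖p.2‖ ^ 2 + 1)⁻¹ • ((2 * ‖p.2‖ ^ 2) • p.1 - (‖p.2‖ ^ 2 - 1) • p.2))

private theorem sig_norm_sq (a b : ℝ) {p v : E} (hp : ‖p‖ = 1) (h : (inner ℝ p v : ℝ) = 0) :
    ‖a • p + b • v‖ ^ 2 = a ^ 2 + b ^ 2 * ‖v‖ ^ 2 := by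
  rw [norm_add_sq_real, norm_smul, norm_smul, inner_smul_left, inner_smul_right, h, mul_pow,
    mul_pow, hp, Real.norm_eq_abs, Real.norm_eq_abs, sq_abs, sq_abs]
  simp

private theorem sig_inner (a b a' b' : ℝ) {p v : E} (hp : ‖p‖ = 1)
    (h : (inner ℝ p v : ℝ) = 0) :
    (inner ℝ (a • p + b • v) (a' • p + b' • v) : ℝ) = a * a' + b * b' * ‖v‖ ^ 2 := by
  have h3 : (inner ℝ v p : ℝ) = 0 := by rw [real_inner_comm]; exact h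
  rw [inner_add_left, inner_add_right, inner_add_right]
  simp only [inner_smul_left, inner_smul_right, h, h3, real_inner_self_eq_norm_sq, hp]
  simp
  ring

private theorem sig_St (p v : E) : St p v =
    ((‖v‖ ^ 2 + 1)⁻¹ * (‖v‖ ^ 2 - 1)) • p + ((‖v‖ ^ 2 + 1)⁻¹ * 2) • v := by
  unfold St
  rw [smul_add, smul_smul, smul_smul]

theorem St_norm {p v : E} (hp : ‖p‖ = 1) (h : (inner ℝ p v : ℝ) = 0) : ‖St p v‖ = 1 := by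
  have hN : ‖v‖ ^ 2 + 1 ≠ 0 := by positivity
  have h1 : ‖St p v‖ ^ 2 = 1 ^ 2 := by
    rw [sig_St, sig_norm_sq _ _ hp h]
    generalize ‖v‖ = n at *
    field_simp
    ring
  exact (sq_eq_sq₀ (norm_nonneg _) zero_le_one).1 h1

private theorem sig_St_inner {p v : E} (hp : ‖p‖ = 1) (h : (inner ℝ p v : ℝ) = 0) :
    (inner ℝ p (St p v) : ℝ) = (‖v‖ ^ 2 + 1)⁻¹ * (‖v‖ ^ 2 - 1) := by
  have h1 := sig_inner 1 0 ((‖v‖ ^ 2 + 1)⁻¹ * (‖v‖ ^ 2 - 1)) ((‖v‖ ^ 2 + 1)⁻¹ * 2) hp h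
  rw [one_smul, zero_smul, add_zero] at h1
  rw [sig_St, h1]
  ring

theorem St_inner {p v : E} (hp : ‖p‖ = 1) (h : (inner ℝ p v : ℝ) = 0) :
    1 - (inner ℝ p (St p v) : ℝ) = 2 * (‖v‖ ^ 2 + 1)⁻¹ := by
  have hN : ‖v‖ ^ 2 + 1 ≠ 0 := by positivity
  rw [sig_St_inner hp h]
  generalize ‖v‖ = n at *
  field_simp
  ring

theorem Sti_St {p v : E} (hp : ‖p‖ = 1) (h : (inner ℝ p v : ℝ) = 0) : Sti p (St p v) = v := by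
  have hN : ‖v‖ ^ 2 + 1 ≠ 0 := by positivity
  unfold Sti
  rw [St_inner hp h, sig_St_inner hp h, sig_St]
  generalize ‖v‖ = n at *
  have e1 : ((n ^ 2 + 1)⁻¹ * (n ^ 2 - 1)) • p + ((n ^ 2 + 1)⁻¹ * 2) • v
      - ((n ^ 2 + 1)⁻¹ * (n ^ 2 - 1)) • p = ((n ^ 2 + 1)⁻¹ * 2) • v := by
    rw [add_sub_cancel_left]
  rw [e1, smul_smul]
  have e2 : (2 * (n ^ 2 + 1)⁻¹)⁻¹ * ((n ^ 2 + 1)⁻¹ * 2) = 1 := by
    field_simp
  rw [e2, one_smul]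

theorem Sti_inner {p q : E} (hp : ‖p‖ = 1) : (inner ℝ p (Sti p q) : ℝ) = 0 := by
  unfold Sti
  rw [inner_smul_right, inner_sub_right, inner_smul_right, real_inner_self_eq_norm_sq, hp]
  simp

theorem St_Sti {p q : E} (hp : ‖p‖ = 1) (hq : ‖q‖ = 1) (h : q ≠ p) :
    St p (Sti p q) = q := by
  have hs : (inner ℝ p q : ℝ) ≠ 1 := by
    intro h1
    exact h ((inner_eq_one_iff_of_norm_eq_one hp hq).1 h1).symm
  have hs' : 1 - (inner ℝ p q : ℝ) ≠ 0 := fun h1 => hs (by linarith)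
  have h2 : ‖q - (inner ℝ p q : ℝ) • p‖ ^ 2 = 1 - (inner ℝ p q : ℝ) ^ 2 := by
    rw [norm_sub_sq_real, norm_smul, inner_smul_right, real_inner_comm, mul_pow, hp, hq,
      Real.norm_eq_abs, sq_abs]
    ring
  have h3 : ‖Sti p q‖ ^ 2 = (1 + (inner ℝ p q : ℝ)) / (1 - (inner ℝ p q : ℝ)) := by
    unfold Sti
    rw [norm_smul, mul_pow, h2, Real.norm_eq_abs, sq_abs]
    generalize (inner ℝ p q : ℝ) = s at *
    field_simp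
    ring
  unfold St
  rw [h3]
  unfold Sti
  generalize (inner ℝ p q : ℝ) = s at *
  have e1 : ((1 + s) / (1 - s) + 1)⁻¹ = (1 - s) / 2 := by
    have : (1 + s) / (1 - s) + 1 = 2 / (1 - s) := by
      field_simp
      ring
    rw [this, inv_div]
  have e2 : (1 + s) / (1 - s) - 1 = 2 * s / (1 - s) := by
    field_simp
    ring
  rw [e1, e2, smul_add, smul_smul, smul_smul, smul_smul, smul_sub, smul_smul]
  have e3 : (1 - s) / 2 * (2 * s / (1 - s)) = s := by field_simp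
  have e4 : (1 - s) / 2 * (2 * (1 - s)⁻¹) = 1 := by field_simp
  rw [← mul_assoc] at e4
  rw [e3]
  have e5 : (1 - s) / 2 * 2 * (1 - s)⁻¹ * s = s := by rw [e4, one_mul]
  rw [e5, e4, one_smul]
  abel

theorem sig_eq {p : E × E} (hp : p ∈ TS E) : sig p = (St p.1 p.2, Sti (St p.1 p.2) p.1) := by
  obtain ⟨h1, h2⟩ := hp
  have hN : ‖p.2‖ ^ 2 + 1 ≠ 0 := by positivity
  refine Prod.ext rfl ?_
  show (‖p.2‖ ^ 2 + 1)⁻¹ • ((2 * ‖p.2‖ ^ 2) • p.1 - (‖p.2‖ ^ 2 - 1) • p.2) =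
    Sti (St p.1 p.2) p.1
  unfold Sti
  rw [real_inner_comm, St_inner h1 h2, sig_St_inner h1 h2, sig_St]
  generalize ‖p.2‖ = n at *
  have e1 : (2 * (n ^ 2 + 1)⁻¹)⁻¹ = (n ^ 2 + 1) / 2 := by
    field_simp
  rw [e1]
  have e2 : (n ^ 2 + 1)⁻¹ * (2 * n ^ 2) =
      (n ^ 2 + 1) / 2 * (1 - (n ^ 2 + 1)⁻¹ * (n ^ 2 - 1) * ((n ^ 2 + 1)⁻¹ * (n ^ 2 - 1))) := by
    field_simp
    ring
  have e3 : (n ^ 2 + 1)⁻¹ * (n ^ 2 - 1) =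
      (n ^ 2 + 1) / 2 * ((n ^ 2 + 1)⁻¹ * (n ^ 2 - 1) * ((n ^ 2 + 1)⁻¹ * 2)) := by
    field_simp
  calc (n ^ 2 + 1)⁻¹ • ((2 * n ^ 2) • p.1 - (n ^ 2 - 1) • p.2)
      = ((n ^ 2 + 1)⁻¹ * (2 * n ^ 2)) • p.1 - ((n ^ 2 + 1)⁻¹ * (n ^ 2 - 1)) • p.2 := by
        rw [smul_sub, smul_smul, smul_smul]
    _ = ((n ^ 2 + 1) / 2 * (1 - (n ^ 2 + 1)⁻¹ * (n ^ 2 - 1) * ((n ^ 2 + 1)⁻¹ * (n ^ 2 - 1))))
          • p.1 - ((n ^ 2 + 1) / 2 * ((n ^ 2 + 1)⁻¹ * (n ^ 2 - 1) * ((n ^ 2 + 1)⁻¹ * 2)))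
          • p.2 := by rw [← e2, ← e3]
    _ = _ := by module

theorem sig_smooth : ContDiff ℝ ∞ (sig : E × E → E × E) := by
  have hn : ContDiff ℝ ∞ fun p : E × E => ‖p.2‖ ^ 2 := (contDiff_norm_sq ℝ).comp contDiff_snd
  have hN : ContDiff ℝ ∞ fun p : E × E => (‖p.2‖ ^ 2 + 1)⁻¹ :=
    (hn.add contDiff_const).inv fun p => by positivity
  have h1 : ContDiff ℝ ∞ fun p : E × E => p.1 := contDiff_fst
  have h2 : ContDiff ℝ ∞ fun p : E × E => p.2 := contDiff_snd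
  exact (hN.smul (((hn.sub contDiff_const).smul h1).add (contDiff_const.smul h2))).prodMk
    (hN.smul (((contDiff_const.mul hn).smul h1).sub ((hn.sub contDiff_const).smul h2)))

private theorem sig_snd_eq (p : E × E) : (sig p).2 =
    ((‖p.2‖ ^ 2 + 1)⁻¹ * (2 * ‖p.2‖ ^ 2)) • p.1 +
      (-((‖p.2‖ ^ 2 + 1)⁻¹ * (‖p.2‖ ^ 2 - 1))) • p.2 := by
  show (‖p.2‖ ^ 2 + 1)⁻¹ • ((2 * ‖p.2‖ ^ 2) • p.1 - (‖p.2‖ ^ 2 - 1) • p.2) = _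
  rw [smul_sub, smul_smul, smul_smul, neg_smul, sub_eq_add_neg]

private theorem sig_fst_eq (p : E × E) : (sig p).1 =
    ((‖p.2‖ ^ 2 + 1)⁻¹ * (‖p.2‖ ^ 2 - 1)) • p.1 + ((‖p.2‖ ^ 2 + 1)⁻¹ * 2) • p.2 :=
  sig_St p.1 p.2

private theorem sig_mem {p : E × E} (hp : p ∈ TS E) : sig p ∈ TS E ∧ ‖(sig p).2‖ ^ 2 = ‖p.2‖ ^ 2 := by
  obtain ⟨h1, h2⟩ := hp
  have hN : ‖p.2‖ ^ 2 + 1 ≠ 0 := by positivity
  refine ⟨⟨St_norm h1 h2, ?_⟩, ?_⟩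
  · rw [sig_fst_eq, sig_snd_eq, sig_inner _ _ _ _ h1 h2]
    ring
  · rw [sig_snd_eq, sig_norm_sq _ _ h1 h2]
    generalize ‖p.2‖ = n at *
    field_simp
    ring

private theorem sig_sig {p : E × E} (hp : p ∈ TS E) : sig (sig p) = p := by
  obtain ⟨h3, h4⟩ := sig_mem hp
  have hN : ‖p.2‖ ^ 2 + 1 ≠ 0 := by positivity
  refine Prod.ext ?_ ?_
  · rw [sig_fst_eq (sig p), h4, sig_fst_eq, sig_snd_eq]
    generalize ‖p.2‖ = n at *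
    have e1 : (n ^ 2 + 1)⁻¹ * (n ^ 2 - 1) * ((n ^ 2 + 1)⁻¹ * (n ^ 2 - 1)) +
        (n ^ 2 + 1)⁻¹ * 2 * ((n ^ 2 + 1)⁻¹ * (2 * n ^ 2)) = 1 := by
      field_simp
      ring
    calc _ = ((n ^ 2 + 1)⁻¹ * (n ^ 2 - 1) * ((n ^ 2 + 1)⁻¹ * (n ^ 2 - 1)) +
        (n ^ 2 + 1)⁻¹ * 2 * ((n ^ 2 + 1)⁻¹ * (2 * n ^ 2))) • p.1 := by module
      _ = p.1 := by rw [e1, one_smul]
  · rw [sig_snd_eq (sig p), h4, sig_fst_eq, sig_snd_eq]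
    generalize ‖p.2‖ = n at *
    have e1 : (n ^ 2 + 1)⁻¹ * (2 * n ^ 2) * ((n ^ 2 + 1)⁻¹ * 2) +
        (n ^ 2 + 1)⁻¹ * (n ^ 2 - 1) * ((n ^ 2 + 1)⁻¹ * (n ^ 2 - 1)) = 1 := by
      field_simp
      ring
    calc _ = ((n ^ 2 + 1)⁻¹ * (2 * n ^ 2) * ((n ^ 2 + 1)⁻¹ * 2) +
        (n ^ 2 + 1)⁻¹ * (n ^ 2 - 1) * ((n ^ 2 + 1)⁻¹ * (n ^ 2 - 1))) • p.2 := by module
      _ = p.2 := by rw [e1, one_smul]

theorem sig_dff : Dff (sig : E × E → E × E) sig :=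
  ⟨SmOn.of_contDiff sig_smooth, SmOn.of_contDiff sig_smooth, fun _ hp =>
    ⟨(sig_mem hp).1, (sig_mem hp).1, sig_sig hp, sig_sig hp⟩⟩

end DT
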