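import Pool.Agent.H78.DT.Aff
import Pool.Agent.H78.DT.Sig
import Pool.Agent.H78.DT.LemZ
import Pool.Agent.H78.DT.CmP

/-!
# The maps `a_{c'}` and `Θ₁` (job DT-ACMAP)

`ψ` is a diffeomorphism of the sphere with `ψ x ≠ -x` for all unit `x`, so
`1 + ⟪ψ x, x⟫ ≠ 0` (`inner_ne_of_ne`).
`cx ψ x = (1+⟪ψ x,x⟫)⁻¹ (⟪ψ x,x⟫ ψ x - x) = Sti (ψ x) (-x)`, orthogonal to `ψ x`;
`cp ψ x = (1+⟪ψ x,x⟫)⁻¹ (ψ x - ⟪ψ x,x⟫ x) = Sti (-x) (ψ x)`, orthogonal to `x`.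
`th1 ψ (x,v) = (ψ x, Dψ(x) v + cx ψ x)`, `ac ψ (x,v) = (-x, v + cp ψ x)`, with inverse
`aci ψ (y,w) = (-y, w - cp ψ (-y))`.
(1) `push_th1`: `pushf ψ ~ th1 ψ`.  PROOF. `aff_diso` with `f (t,x) = ψ x`, `g (t,x) = ψ⁻¹ x`,
`B (t,x) = (1-t) (Dψ(x)*)⁻¹ + t Dψ(x)` where `(Dψ(x)*)⁻¹ = adjoint (fderiv ψ.g (ψ.f x))`, `c (t,x) = t cx ψ x`.
`B x = ψ x` (`euler`, `adj`: `adjoint(Dg(ψ x)) x = ψ x` because `⟪adjoint(Dg(ψ x)) x, w⟫ = ⟪x, Dg(ψ x) w⟫ =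
⟪g (ψ x), Dg (ψ x) w⟫ = ⟪ψ x, w⟫`), `⟪ψ x, B v⟫ = ⟪x, v⟫` (each term), and `B v = 0`, `v ≠ 0` is impossible:
`⟪B v, Dψ v⟫ = (1-t) ⟪v, Dg(ψ x) Dψ v⟫ + t ‖Dψ v‖² = (1-t)‖v‖² + t ‖Dψ v‖² > 0`.
(2) `ac_dff`.  (3) `ac_iso`: `ac ψ ~ ((x,v) ↦ (-x, v))` by `aff_diso` with `f = g = -x`,
`B (t,x) = 1 - 2 x xᵀ` (`v ↦ v - 2⟪x,v⟫ x`), `c (t,x) = (1-t) cp ψ x`; on `TS`, `B v = v`.
(4) `sig_a0`: `p ↦ sig (-p.1, p.2)` is isotopic to the identity.  PROOF. `lemZ`: it is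
`(x,v) ↦ ((-a x + 2 v)/N, (-2‖v‖² x - a v)/N)`, fixes `(x,0)`, and the derivative at `s = 0` of
`s ↦ (-2s²‖v‖² x - (s²‖v‖² - 1) s v)/(s²‖v‖²+1)` is `v`.  `Dff`: composition of `sig` and `(x,v) ↦ (-x,v)`.
(5) `sig_ac`: `p ↦ sig (ac ψ p)` is isotopic to the identity: `DIso.mul` of `DIso.refl sig` and (3),
then (4).
(6) `sigac_th1`: `th0 = aci ψ ∘ sig ∘ th1 ψ` fixes the zero section: `th1 (x,0) = (ψ x, cx)`,
`St (ψ x) (cx) = -x` (`St_Sti`), `sig (ψ x, cx) = (-x, Sti (-x) (ψ x)) = (-x, cp ψ x)` and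
`aci ψ (-x, cp ψ x) = (x, 0)`.
-/

open Set Metric
open scoped ContDiff

noncomputable section

namespace DT

variable {E : Type} [NormedAddCommGroup E] [InnerProductSpace ℝ E] [FiniteDimensional ℝ E]

/-- `cx ψ x = Sti (ψ x) (-x)`. -/
def cx (ψ : SDiff E) (x : E) : E := Sti (ψ.f x) (-x)

/-- `cp ψ x = Sti (-x) (ψ x)`. -/
def cp (ψ : SDiff E) (x : E) : E := Sti (-x) (ψ.f x)

/-- `Θ₁`. -/
def th1 (ψ : SDiff E) (p : E × E) : E × E := (ψ.f p.1, fderiv ℝ ψ.f p.1 p.2 + cx ψ p.1)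

/-- `a_{c'}`. -/
def ac (ψ : SDiff E) (p : E × E) : E × E := (-p.1, p.2 + cp ψ p.1)

/-- The inverse of `a_{c'}`. -/
def aci (ψ : SDiff E) (p : E × E) : E × E := (-p.1, p.2 - cp ψ (-p.1))

theorem AcMap_ne {x : E} (hx : ‖x‖ = 1) : x ≠ 0 := by
  intro h
  rw [h, norm_zero] at hx
  exact zero_ne_one hx

theorem AcMap_inner (ψ : SDiff E) (hne : ∀ x : E, ‖x‖ = 1 → ψ.f x ≠ -x) {x : E}
    (hx : ‖x‖ = 1) : (inner ℝ (ψ.f x) x : ℝ) ≠ -1 :=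
  inner_ne_of_ne (by rw [ψ.f_norm]; exact hx) hx (hne x hx)

theorem AcMap_cx (ψ : SDiff E) {x : E} (hx : ‖x‖ = 1) :
    (inner ℝ (ψ.f x) (cx ψ x) : ℝ) = 0 :=
  Sti_inner (by rw [ψ.f_norm]; exact hx)

theorem AcMap_cp (ψ : SDiff E) {x : E} (hx : ‖x‖ = 1) : (inner ℝ x (cp ψ x) : ℝ) = 0 := by
  have h : (inner ℝ (-x) (Sti (-x) (ψ.f x)) : ℝ) = 0 := Sti_inner (by rw [norm_neg]; exact hx)
  rw [inner_neg_left, neg_eq_zero] at h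
  exact h

/-- smoothness of `Sti` of two smooth functions -/
theorem AcMap_sti {V : Type} [NormedAddCommGroup V] [NormedSpace ℝ V] {A : Set V} {a b : V → E}
    (ha : SmOn A a) (hb : SmOn A b) (h : ∀ p ∈ A, 1 - (inner ℝ (a p) (b p) : ℝ) ≠ 0) :
    SmOn A (fun p => Sti (a p) (b p)) := by
  have h1 : SmOn A (fun p => (inner ℝ (a p) (b p) : ℝ)) := ha.inner hb
  exact ((SmOn.const (1 : ℝ)).sub h1 |>.inv h).smul (hb.sub (h1.smul ha))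

theorem AcMap_f (ψ : SDiff E) {V : Type} [NormedAddCommGroup V] [NormedSpace ℝ V] {A : Set V}
    {a : V → E} (ha : SmOn A a) (h : ∀ p ∈ A, ‖a p‖ = 1) : SmOn A (fun p => ψ.f (a p)) :=
  SmOn.comp_contDiffOn isOpen_compl_singleton ψ.f_smooth ha fun p hp => AcMap_ne (h p hp)

theorem AcMap_cps (ψ : SDiff E) (hne : ∀ x : E, ‖x‖ = 1 → ψ.f x ≠ -x) {V : Type}
    [NormedAddCommGroup V] [NormedSpace ℝ V] {A : Set V} {a : V → E} (ha : SmOn A a)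
    (h : ∀ p ∈ A, ‖a p‖ = 1) : SmOn A (fun p => cp ψ (a p)) := by
  refine AcMap_sti ha.neg (AcMap_f ψ ha h) fun p hp => ?_
  rw [inner_neg_left, real_inner_comm]
  intro h0
  exact AcMap_inner ψ hne (h p hp) (by linarith)

theorem AcMap_cxs (ψ : SDiff E) (hne : ∀ x : E, ‖x‖ = 1 → ψ.f x ≠ -x) {V : Type}
    [NormedAddCommGroup V] [NormedSpace ℝ V] {A : Set V} {a : V → E} (ha : SmOn A a)
    (h : ∀ p ∈ A, ‖a p‖ = 1) : SmOn A (fun p => cx ψ (a p)) := by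
  refine AcMap_sti (AcMap_f ψ ha h) ha.neg fun p hp => ?_
  rw [inner_neg_right]
  intro h0
  exact AcMap_inner ψ hne (h p hp) (by linarith)

theorem AcMap_adj (ψ : SDiff E) {x : E} (hx : ‖x‖ = 1) :
    ContinuousLinearMap.adjoint (fderiv ℝ ψ.g (ψ.f x)) x = ψ.f x := by
  have hx0 := AcMap_ne hx
  apply ext_inner_right ℝ
  intro w
  rw [ContinuousLinearMap.adjoint_inner_left]
  have h := ψ.symm.adj (ψ.f_ne hx0) w
  change inner ℝ (ψ.g (ψ.f x)) (fderiv ℝ ψ.g (ψ.f x) w) = inner ℝ (ψ.f x) w at h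
  rw [ψ.gf] at h
  exact h

theorem AcMap_adj2 (ψ : SDiff E) {x : E} (hx : ‖x‖ = 1) (v : E) :
    (inner ℝ (ψ.f x) (ContinuousLinearMap.adjoint (fderiv ℝ ψ.g (ψ.f x)) v) : ℝ) =
      inner ℝ x v := by
  have hx0 := AcMap_ne hx
  rw [ContinuousLinearMap.adjoint_inner_right]
  have h : fderiv ℝ ψ.g (ψ.f x) (ψ.f x) = ψ.g (ψ.f x) := ψ.symm.euler (ψ.f_ne hx0)
  rw [h, ψ.gf]

theorem push_th1 (ψ : SDiff E) (hne : ∀ x : E, ‖x‖ = 1 → ψ.f x ≠ -x) :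
    DIso (pushf ψ) (th1 ψ) := by
  have hs : ∀ p ∈ Icc (0 : ℝ) 1 ×ˢ sphere (0 : E) 1, ‖p.2‖ = 1 := by
    rintro ⟨t, x⟩ ⟨_, hx⟩
    exact mem_sphere_zero_iff_norm.1 hx
  have h2 : SmOn (Icc (0 : ℝ) 1 ×ˢ sphere (0 : E) 1) (fun p : ℝ × E => p.2) :=
    SmOn.of_contDiff contDiff_snd
  have h1 : SmOn (Icc (0 : ℝ) 1 ×ˢ sphere (0 : E) 1) (fun p : ℝ × E => p.1) :=
    SmOn.of_contDiff contDiff_fst
  have hf : SmOn (Icc (0 : ℝ) 1 ×ˢ sphere (0 : E) 1) (fun p : ℝ × E => ψ.f p.2) :=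
    AcMap_f ψ h2 hs
  have hg : SmOn (Icc (0 : ℝ) 1 ×ˢ sphere (0 : E) 1) (fun p : ℝ × E => ψ.g p.2) :=
    AcMap_f ψ.symm h2 hs
  have hDg : SmOn (Icc (0 : ℝ) 1 ×ˢ sphere (0 : E) 1)
      (fun p : ℝ × E => fderiv ℝ ψ.g (ψ.f p.2)) :=
    SmOn.comp_contDiffOn isOpen_compl_singleton ψ.symm.fderiv_smooth hf
      fun p hp => ψ.f_ne (AcMap_ne (hs p hp))
  have hDf : SmOn (Icc (0 : ℝ) 1 ×ˢ sphere (0 : E) 1) (fun p : ℝ × E => fderiv ℝ ψ.f p.2) :=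
    SmOn.comp_contDiffOn isOpen_compl_singleton ψ.fderiv_smooth h2
      fun p hp => AcMap_ne (hs p hp)
  have hB := (((SmOn.const (1 : ℝ)).sub h1).smul hDg.adjoint).add (h1.smul hDf)
  have hc := h1.smul (AcMap_cxs ψ hne h2 hs)
  have key := aff_diso _ _ _ _ hf hg hB hc (fun t ht x hx => ⟨by rw [ψ.f_norm]; exact hx,
    by rw [ψ.g_norm]; exact hx, ψ.gf x, ψ.fg x⟩) ?_
  · refine key.congr ?_ ?_
    · rintro ⟨x, v⟩ _
      simp [pushf]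
    · rintro ⟨x, v⟩ _
      simp [th1]
  · intro t ht x hx
    have hx0 := AcMap_ne hx
    refine ⟨?_, ?_, ?_, ?_⟩
    · show (1 - t) • ContinuousLinearMap.adjoint (fderiv ℝ ψ.g (ψ.f x)) x +
        t • fderiv ℝ ψ.f x x = ψ.f x
      rw [AcMap_adj ψ hx, ψ.euler hx0, ← add_smul, sub_add_cancel, one_smul]
    · intro v hv
      show inner ℝ (ψ.f x) ((1 - t) • ContinuousLinearMap.adjoint (fderiv ℝ ψ.g (ψ.f x)) v +
        t • fderiv ℝ ψ.f x v) = (0 : ℝ)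
      rw [inner_add_right, inner_smul_right, inner_smul_right, AcMap_adj2 ψ hx, ψ.adj hx0, hv]
      ring
    · intro v hv hBv
      change (1 - t) • ContinuousLinearMap.adjoint (fderiv ℝ ψ.g (ψ.f x)) v +
        t • fderiv ℝ ψ.f x v = 0 at hBv
      have h3 : (inner ℝ ((1 - t) • ContinuousLinearMap.adjoint (fderiv ℝ ψ.g (ψ.f x)) v +
        t • fderiv ℝ ψ.f x v) (fderiv ℝ ψ.f x v) : ℝ) = 0 := by
        rw [hBv, inner_zero_left]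
      rw [inner_add_left, real_inner_smul_left, real_inner_smul_left,
        ContinuousLinearMap.adjoint_inner_left, ψ.fderiv_gf hx0, real_inner_self_eq_norm_sq,
        real_inner_self_eq_norm_sq] at h3
      by_contra hv0
      have hn : 0 < ‖v‖ ^ 2 := by
        have := norm_pos_iff.2 hv0
        positivity
      have ht1 : 0 ≤ 1 - t := by linarith [ht.2]
      have h4 : 0 ≤ (1 - t) * ‖v‖ ^ 2 := by positivity
      have h5 : 0 ≤ t * ‖fderiv ℝ ψ.f x v‖ ^ 2 := mul_nonneg ht.1 (by positivity)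
      have h6 : (1 - t) * ‖v‖ ^ 2 = 0 := by linarith
      have h7 : 1 - t = 0 := by
        rcases mul_eq_zero.1 h6 with h | h
        · exact h
        · exact absurd h hn.ne'
      have h8 : t = 1 := by linarith
      have h9 : ‖fderiv ℝ ψ.f x v‖ ^ 2 = 0 := by
        rw [h8] at h3
        linarith
      have h10 : fderiv ℝ ψ.f x v = 0 := by
        rw [← norm_eq_zero]
        exact pow_eq_zero_iff (by norm_num) |>.1 h9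
      have h11 := ψ.fderiv_gf hx0 v
      rw [h10, map_zero] at h11
      exact hv0 h11.symm
    · show inner ℝ (ψ.f x) (t • cx ψ x) = (0 : ℝ)
      rw [inner_smul_right, AcMap_cx ψ hx, mul_zero]

theorem ac_dff (ψ : SDiff E) (hne : ∀ x : E, ‖x‖ = 1 → ψ.f x ≠ -x) : Dff (ac ψ) (aci ψ) := by
  have h1 : SmOn (TS E) (fun p : E × E => p.1) := SmOn.of_contDiff contDiff_fst
  have h2 : SmOn (TS E) (fun p : E × E => p.2) := SmOn.of_contDiff contDiff_snd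
  have hs : ∀ p ∈ TS E, ‖p.1‖ = 1 := fun p hp => hp.1
  refine ⟨h1.neg.prodMk (h2.add (AcMap_cps ψ hne h1 hs)),
    h1.neg.prodMk (h2.sub (AcMap_cps ψ hne h1.neg fun p hp => by rw [norm_neg]; exact hp.1)), ?_⟩
  rintro ⟨x, v⟩ ⟨hx, hv⟩
  have hx' : ‖x‖ = 1 := hx
  have hv' : (inner ℝ x v : ℝ) = 0 := hv
  have hnx : ‖-x‖ = 1 := by rw [norm_neg]; exact hx
  refine ⟨⟨hnx, ?_⟩, ⟨hnx, ?_⟩, ?_, ?_⟩
  · show inner ℝ (-x) (v + cp ψ x) = (0 : ℝ)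
    rw [inner_neg_left, inner_add_right, hv', AcMap_cp ψ hx']
    ring
  · show inner ℝ (-x) (v - cp ψ (-x)) = (0 : ℝ)
    have h3 := AcMap_cp ψ hnx
    rw [inner_sub_right, h3, inner_neg_left, hv']
    ring
  · show (- -x, v + cp ψ x - cp ψ (- -x)) = (x, v)
    rw [neg_neg, add_sub_cancel_right]
  · show (- -x, v - cp ψ (-x) + cp ψ (-x)) = (x, v)
    rw [neg_neg, sub_add_cancel]

theorem ac_iso (ψ : SDiff E) (hne : ∀ x : E, ‖x‖ = 1 → ψ.f x ≠ -x) :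
    DIso (ac ψ) (fun p => (-p.1, p.2)) := by
  have hs : ∀ p ∈ Icc (0 : ℝ) 1 ×ˢ sphere (0 : E) 1, ‖p.2‖ = 1 := by
    rintro ⟨t, x⟩ ⟨_, hx⟩
    exact mem_sphere_zero_iff_norm.1 hx
  have h2 : SmOn (Icc (0 : ℝ) 1 ×ˢ sphere (0 : E) 1) (fun p : ℝ × E => p.2) :=
    SmOn.of_contDiff contDiff_snd
  have h1 : SmOn (Icc (0 : ℝ) 1 ×ˢ sphere (0 : E) 1) (fun p : ℝ × E => p.1) :=
    SmOn.of_contDiff contDiff_fst
  have hB : SmOn (Icc (0 : ℝ) 1 ×ˢ sphere (0 : E) 1) (fun p : ℝ × E =>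
      ContinuousLinearMap.id ℝ E - (2 : ℝ) • (innerSL ℝ p.2).smulRight p.2) := by
    refine SmOn.of_contDiff ?_
    have h3 : ContDiff ℝ ∞ (fun p : ℝ × E => innerSL ℝ p.2) :=
      (innerSL ℝ (E := E)).contDiff.comp contDiff_snd
    exact contDiff_const.sub ((h3.smulRight contDiff_snd).const_smul (2 : ℝ))
  have hc := ((SmOn.const (1 : ℝ)).sub h1).smul (AcMap_cps ψ hne h2 hs)
  have hBv : ∀ x v : E, (ContinuousLinearMap.id ℝ E -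
      (2 : ℝ) • (innerSL ℝ x).smulRight x) v = v - (2 * inner ℝ x v) • x := by
    intro x v
    simp [smul_smul]
  have key := aff_diso _ _ _ _ h2.neg h2.neg hB hc (fun t ht x hx => ⟨by rw [norm_neg]; exact hx,
    by rw [norm_neg]; exact hx, neg_neg x, neg_neg x⟩) ?_
  · refine key.congr ?_ ?_
    · rintro ⟨x, v⟩ ⟨_, hv⟩
      have hv' : (inner ℝ x v : ℝ) = 0 := hv
      show (-x, v + cp ψ x) = (-x, (ContinuousLinearMap.id ℝ E -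
        (2 : ℝ) • (innerSL ℝ x).smulRight x) v + (1 - (0 : ℝ)) • cp ψ x)
      rw [hBv, hv', sub_zero, one_smul, mul_zero, zero_smul, sub_zero]
    · rintro ⟨x, v⟩ ⟨_, hv⟩
      have hv' : (inner ℝ x v : ℝ) = 0 := hv
      show (-x, v) = (-x, (ContinuousLinearMap.id ℝ E -
        (2 : ℝ) • (innerSL ℝ x).smulRight x) v + (1 - (1 : ℝ)) • cp ψ x)
      rw [hBv, hv', sub_self, zero_smul, mul_zero, zero_smul, sub_zero, add_zero]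
  · intro t ht x hx
    refine ⟨?_, ?_, ?_, ?_⟩
    · show (ContinuousLinearMap.id ℝ E - (2 : ℝ) • (innerSL ℝ x).smulRight x) x = -x
      rw [hBv, real_inner_self_eq_norm_sq, hx]
      module
    · intro v hv
      show inner ℝ (-x) ((ContinuousLinearMap.id ℝ E -
        (2 : ℝ) • (innerSL ℝ x).smulRight x) v) = (0 : ℝ)
      rw [hBv, hv, mul_zero, zero_smul, sub_zero, inner_neg_left, hv, neg_zero]
    · intro v hv hz
      change (ContinuousLinearMap.id ℝ E - (2 : ℝ) • (innerSL ℝ x).smulRight x) v = 0 at hz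
      rw [hBv, hv, mul_zero, zero_smul, sub_zero] at hz
      exact hz
    · show inner ℝ (-x) ((1 - t) • cp ψ x) = (0 : ℝ)
      rw [inner_smul_right, inner_neg_left, AcMap_cp ψ hx, neg_zero, mul_zero]

theorem AcMap_neg : Dff (fun p : E × E => (-p.1, p.2)) (fun p => (-p.1, p.2)) := by
  have h1 : SmOn (TS E) (fun p : E × E => p.1) := SmOn.of_contDiff contDiff_fst
  have h2 : SmOn (TS E) (fun p : E × E => p.2) := SmOn.of_contDiff contDiff_snd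
  have hm : ∀ p ∈ TS E, ((-p.1, p.2) : E × E) ∈ TS E := by
    rintro ⟨x, v⟩ ⟨hx, hv⟩
    have hx' : ‖x‖ = 1 := hx
    have hv' : (inner ℝ x v : ℝ) = 0 := hv
    refine ⟨?_, ?_⟩
    · show ‖-x‖ = 1
      rw [norm_neg, hx']
    · show inner ℝ (-x) v = (0 : ℝ)
      rw [inner_neg_left, hv', neg_zero]
  refine ⟨h1.neg.prodMk h2, h1.neg.prodMk h2, fun p hp => ⟨hm p hp, hm p hp, ?_, ?_⟩⟩
  · show (- -p.1, p.2) = p
    rw [neg_neg]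
  · show (- -p.1, p.2) = p
    rw [neg_neg]

theorem sig_a0 : DIso (fun p : E × E => sig (-p.1, p.2)) (fun p => p) := by
  have hd : Dff (fun p : E × E => sig (-p.1, p.2)) (fun p => (-(sig p).1, (sig p).2)) :=
    sig_dff.comp AcMap_neg
  refine lemZ hd ?_ (fun _ v => v) ?_
  · intro x _
    simp [sig]
  · rintro ⟨x, v⟩ _
    show HasDerivAt (fun s : ℝ => (sig (-x, s • v)).2) v 0
    have h1 : (fun s : ℝ => (sig (-x, s • v)).2) = fun s : ℝ =>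
        ((s ^ 2 * ‖v‖ ^ 2 + 1)⁻¹ * (-(2 * (s ^ 2 * ‖v‖ ^ 2)))) • x +
        ((s ^ 2 * ‖v‖ ^ 2 + 1)⁻¹ * (-(s ^ 2 * ‖v‖ ^ 2 - 1) * s)) • v := by
      funext s
      have h2 : ‖s • v‖ ^ 2 = s ^ 2 * ‖v‖ ^ 2 := by
        rw [norm_smul, mul_pow, Real.norm_eq_abs, sq_abs]
      show (‖s • v‖ ^ 2 + 1)⁻¹ • ((2 * ‖s • v‖ ^ 2) • (-x) - (‖s • v‖ ^ 2 - 1) • (s • v)) = _
      rw [h2]
      module
    rw [h1]
    have h3 : HasDerivAt (fun s : ℝ => s ^ 2 * ‖v‖ ^ 2) 0 0 := by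
      have := (hasDerivAt_pow 2 (0 : ℝ)).mul_const (‖v‖ ^ 2)
      simpa using this
    have h4 : HasDerivAt (fun s : ℝ => (s ^ 2 * ‖v‖ ^ 2 + 1)⁻¹) 0 0 :=
      ((h3.add_const (1 : ℝ)).inv (by norm_num)).congr_deriv (by norm_num)
    have h5 : HasDerivAt (fun s : ℝ =>
        (s ^ 2 * ‖v‖ ^ 2 + 1)⁻¹ * (-(2 * (s ^ 2 * ‖v‖ ^ 2)))) 0 0 :=
      (h4.mul ((h3.const_mul 2).neg)).congr_deriv (by norm_num)
    have h6 : HasDerivAt (fun s : ℝ =>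
        (s ^ 2 * ‖v‖ ^ 2 + 1)⁻¹ * (-(s ^ 2 * ‖v‖ ^ 2 - 1) * s)) 1 0 :=
      (h4.mul (((h3.sub_const (1 : ℝ)).neg).mul (hasDerivAt_id (0 : ℝ)))).congr_deriv
        (by norm_num)
    have h7 := (h5.smul_const x).add (h6.smul_const v)
    rw [zero_smul, zero_add, one_smul] at h7
    exact h7

theorem sig_ac (ψ : SDiff E) (hne : ∀ x : E, ‖x‖ = 1 → ψ.f x ≠ -x) :
    DIso (fun p : E × E => sig (ac ψ p)) (fun p => p) :=
  (DIso.mul (DIso.refl sig_dff) (ac_iso ψ hne)).trans sig_a0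

theorem sigac_th1 (ψ : SDiff E) (hne : ∀ x : E, ‖x‖ = 1 → ψ.f x ≠ -x) (x : E) (hx : ‖x‖ = 1) :
    aci ψ (sig (th1 ψ (x, 0))) = (x, 0) := by
  have hψ : ‖ψ.f x‖ = 1 := by rw [ψ.f_norm]; exact hx
  have h1 : th1 ψ (x, 0) = (ψ.f x, cx ψ x) := by
    show (ψ.f x, fderiv ℝ ψ.f x 0 + cx ψ x) = (ψ.f x, cx ψ x)
    rw [map_zero, zero_add]
  have h2 : ((ψ.f x, cx ψ x) : E × E) ∈ TS E := ⟨hψ, AcMap_cx ψ hx⟩
  have h3 : St (ψ.f x) (cx ψ x) = -x :=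
    St_Sti hψ (by rw [norm_neg]; exact hx) (fun h => hne x hx h.symm)
  rw [h1, sig_eq h2]
  show aci ψ (St (ψ.f x) (cx ψ x), Sti (St (ψ.f x) (cx ψ x)) (ψ.f x)) = (x, 0)
  rw [h3]
  show (- -x, cp ψ x - cp ψ (- -x)) = (x, 0)
  rw [neg_neg, sub_self]

end DT
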