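import Pool.Agent.H78.DT.SDf

/-!
# Affine isotopies (job DT-AFF)

Paths of diffeomorphisms of the form `(x, v) ↦ (f_t x, B_t(x) v + c_t(x))`.
PROOF. `B = B (t,x)` maps `x` to `f (t,x)` and `xᗮ` to `f(t,x)ᗮ` injectively, so `B` is injective:
`v = a x + w`, `w ⊥ x`, `B v = a f(t,x) + B w` with `B w ⊥ f(t,x)`, so `B v = 0` implies `a = 0` and
`B w = 0`, `w = 0`; `E` is finite dimensional so `B` is a unit, and its inverse maps
`f(t,x)ᗮ` to `xᗮ` (`w' ⊥ f(t,x)`, `B⁻¹ w' = a x + w`, `w' = a f(t,x) + B w`, so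
`a = ⟪f, w'⟫ = 0`).
`F (t,(x,v)) = (f (t,x), B (t,x) v + c (t,x))`,
`G (t,(y,w)) = (g (t,y), (B (t, g (t,y)))⁻¹ (w - c (t, g (t,y))))` (`Ring.inverse`,
`SmOn.clm_inverse`).  Smoothness by the `SmOn` toolkit (compositions of maps of
`Icc 0 1 ×ˢ TS E` to `Icc 0 1 ×ˢ sphere 0 1`).
`aff_dff` is the special case without `t` (take constant families).
-/

open Set Metric
open scoped ContDiff

noncomputable section

namespace DT

variable {E : Type} [NormedAddCommGroup E] [InnerProductSpace ℝ E] [FiniteDimensional ℝ E]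

theorem Aff_dec {f : E → E} {B : E →L[ℝ] E} {x : E} (hx : ‖x‖ = 1) (hf : ‖f x‖ = 1)
    (h1 : B x = f x) (h2 : ∀ v, inner ℝ x v = 0 → inner ℝ (f x) (B v) = 0) (v : E) :
    inner ℝ (f x) (B v) = inner ℝ x v := by
  have hxx : inner ℝ x x = (1 : ℝ) := by rw [real_inner_self_eq_norm_sq, hx]; norm_num
  have hff : inner ℝ (f x) (f x) = (1 : ℝ) := by rw [real_inner_self_eq_norm_sq, hf]; norm_num
  have h3 : inner ℝ x (v - (inner ℝ x v : ℝ) • x) = (0 : ℝ) := by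
    rw [inner_sub_right, inner_smul_right, hxx]
    ring
  have h4 := h2 _ h3
  rw [map_sub, map_smul, inner_sub_right, inner_smul_right, h1, hff] at h4
  linarith

theorem Aff_unit {f : E → E} {B : E →L[ℝ] E} {x : E} (hx : ‖x‖ = 1) (hf : ‖f x‖ = 1)
    (h1 : B x = f x) (h2 : ∀ v, inner ℝ x v = 0 → inner ℝ (f x) (B v) = 0)
    (h3 : ∀ v, inner ℝ x v = 0 → B v = 0 → v = 0) : IsUnit B := by
  haveI : CompleteSpace E := FiniteDimensional.complete ℝ E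
  have hinj : Function.Injective B := by
    rw [injective_iff_map_eq_zero]
    intro v hv
    have h4 := Aff_dec hx hf h1 h2 v
    rw [hv, inner_zero_right] at h4
    exact h3 v h4.symm hv
  rw [ContinuousLinearMap.isUnit_iff_bijective]
  exact ⟨hinj, LinearMap.surjective_of_injective (f := (B : E →ₗ[ℝ] E)) hinj⟩

theorem Aff_inv_apply {B : E →L[ℝ] E} (h : IsUnit B) (v : E) : Ring.inverse B (B v) = v := by
  have := Ring.inverse_mul_cancel B h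
  exact congrArg (fun L : E →L[ℝ] E => L v) this

theorem Aff_apply_inv {B : E →L[ℝ] E} (h : IsUnit B) (v : E) : B (Ring.inverse B v) = v := by
  have := Ring.mul_inverse_cancel B h
  exact congrArg (fun L : E →L[ℝ] E => L v) this

theorem aff_diso (f g : ℝ × E → E) (B : ℝ × E → E →L[ℝ] E) (c : ℝ × E → E)
    (hf : SmOn (Icc (0 : ℝ) 1 ×ˢ sphere (0 : E) 1) f)
    (hg : SmOn (Icc (0 : ℝ) 1 ×ˢ sphere (0 : E) 1) g)
    (hB : SmOn (Icc (0 : ℝ) 1 ×ˢ sphere (0 : E) 1) B)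
    (hc : SmOn (Icc (0 : ℝ) 1 ×ˢ sphere (0 : E) 1) c)
    (hfg : ∀ t ∈ Icc (0 : ℝ) 1, ∀ x : E, ‖x‖ = 1 →
      ‖f (t, x)‖ = 1 ∧ ‖g (t, x)‖ = 1 ∧ g (t, f (t, x)) = x ∧ f (t, g (t, x)) = x)
    (hBx : ∀ t ∈ Icc (0 : ℝ) 1, ∀ x : E, ‖x‖ = 1 → B (t, x) x = f (t, x) ∧
      (∀ v, inner ℝ x v = 0 → inner ℝ (f (t, x)) (B (t, x) v) = 0) ∧
      (∀ v, inner ℝ x v = 0 → B (t, x) v = 0 → v = 0) ∧ inner ℝ (f (t, x)) (c (t, x)) = 0) :
    DIso (fun p => (f (0, p.1), B (0, p.1) p.2 + c (0, p.1)))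
      (fun p => (f (1, p.1), B (1, p.1) p.2 + c (1, p.1))) := by
  haveI : CompleteSpace E := FiniteDimensional.complete ℝ E
  have hu : ∀ t ∈ Icc (0 : ℝ) 1, ∀ x : E, ‖x‖ = 1 → IsUnit (B (t, x)) := fun t ht x hx =>
    Aff_unit (f := fun x => f (t, x)) hx (hfg t ht x hx).1 (hBx t ht x hx).1
      (hBx t ht x hx).2.1 (hBx t ht x hx).2.2.1
  have hdec : ∀ t ∈ Icc (0 : ℝ) 1, ∀ x : E, ‖x‖ = 1 → ∀ v,
      inner ℝ (f (t, x)) (B (t, x) v) = (inner ℝ x v : ℝ) := fun t ht x hx v =>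
    Aff_dec (f := fun x => f (t, x)) hx (hfg t ht x hx).1 (hBx t ht x hx).1
      (hBx t ht x hx).2.1 v
  -- the projection to the base
  have hq : SmOn (Icc (0 : ℝ) 1 ×ˢ TS E) (fun p : ℝ × (E × E) => (p.1, p.2.1)) :=
    SmOn.of_contDiff (by fun_prop)
  have hqm : ∀ p ∈ Icc (0 : ℝ) 1 ×ˢ TS E, ((p.1, p.2.1) : ℝ × E) ∈
      Icc (0 : ℝ) 1 ×ˢ sphere (0 : E) 1 := by
    rintro ⟨t, x, v⟩ ⟨ht, hp⟩
    exact ⟨ht, by simpa using hp.1⟩
  have h22 : SmOn (Icc (0 : ℝ) 1 ×ˢ TS E) (fun p : ℝ × (E × E) => p.2.2) :=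
    SmOn.of_contDiff (by fun_prop)
  have hF : SmOn (Icc (0 : ℝ) 1 ×ˢ TS E) (fun p : ℝ × (E × E) =>
      (f (p.1, p.2.1), B (p.1, p.2.1) p.2.2 + c (p.1, p.2.1))) :=
    (hf.comp hq hqm).prodMk (((hB.comp hq hqm).clm_apply h22).add (hc.comp hq hqm))
  have hg' := hg.comp hq hqm
  have h1 : SmOn (Icc (0 : ℝ) 1 ×ˢ TS E) (fun p : ℝ × (E × E) => p.1) :=
    SmOn.of_contDiff (by fun_prop)
  have hr : SmOn (Icc (0 : ℝ) 1 ×ˢ TS E) (fun p : ℝ × (E × E) => (p.1, g (p.1, p.2.1))) :=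
    h1.prodMk hg'
  have hrm : ∀ p ∈ Icc (0 : ℝ) 1 ×ˢ TS E, ((p.1, g (p.1, p.2.1)) : ℝ × E) ∈
      Icc (0 : ℝ) 1 ×ˢ sphere (0 : E) 1 := by
    rintro ⟨t, x, v⟩ ⟨ht, hp⟩
    refine ⟨ht, ?_⟩
    rw [mem_sphere_zero_iff_norm]
    exact (hfg t ht x hp.1).2.1
  have hBr : SmOn (Icc (0 : ℝ) 1 ×ˢ TS E) (fun p : ℝ × (E × E) =>
      Ring.inverse (B (p.1, g (p.1, p.2.1)))) := by
    refine (hB.comp hr hrm).clm_inverse ?_
    rintro ⟨t, x, v⟩ ⟨ht, hp⟩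
    exact hu t ht _ (hfg t ht x hp.1).2.1
  have hG : SmOn (Icc (0 : ℝ) 1 ×ˢ TS E) (fun p : ℝ × (E × E) =>
      (g (p.1, p.2.1), Ring.inverse (B (p.1, g (p.1, p.2.1)))
        (p.2.2 - c (p.1, g (p.1, p.2.1))))) :=
    hg'.prodMk (hBr.clm_apply (h22.sub (hc.comp hr hrm)))
  refine ⟨_, _, hF, hG, ?_, fun p _ => rfl, fun p _ => rfl⟩
  rintro t ht ⟨x, v⟩ ⟨hx, hv⟩
  have hx' : ‖x‖ = 1 := hx
  have hv' : inner ℝ x v = (0 : ℝ) := hv
  obtain ⟨nf, ng, gf, fg⟩ := hfg t ht x hx'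
  obtain ⟨b1, b2, b3, b4⟩ := hBx t ht x hx'
  obtain ⟨c1, c2, c3, c4⟩ := hBx t ht _ ng
  have hug := hu t ht _ ng
  refine ⟨⟨nf, ?_⟩, ⟨ng, ?_⟩, ?_, ?_⟩
  · show inner ℝ (f (t, x)) (B (t, x) v + c (t, x)) = (0 : ℝ)
    rw [inner_add_right, b2 v hv', b4, add_zero]
  · show inner ℝ (g (t, x)) (Ring.inverse (B (t, g (t, x))) (v - c (t, g (t, x)))) = (0 : ℝ)
    rw [← hdec t ht _ ng, Aff_apply_inv hug, inner_sub_right, c4, fg, hv', sub_zero]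
  · show (g (t, f (t, x)), Ring.inverse (B (t, g (t, f (t, x))))
      (B (t, x) v + c (t, x) - c (t, g (t, f (t, x))))) = (x, v)
    rw [gf, add_sub_cancel_right, Aff_inv_apply (hu t ht x hx')]
  · show (f (t, g (t, x)), B (t, g (t, x)) (Ring.inverse (B (t, g (t, x)))
      (v - c (t, g (t, x)))) + c (t, g (t, x))) = (x, v)
    rw [fg, Aff_apply_inv hug, sub_add_cancel]

end DT
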