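import Pool.Agent.H78.DT.Basic

/-!
# Square roots near the identity (job DT-SQ)

PROOF. Use the Banach algebra norm on matrices (local instances
`Matrix.linftyOpNormedRing`, `Matrix.linftyOpNormedAlgebra`; its topology is the product
topology, definitionally or by `Matrix.linftyOpNorm...`; the matrix space is complete).
Let `U = {N | ‖N - 1‖ < 1/4}` and for `N ∈ U`, `ε = N - 1`, iterate `y₀ = 0`,
`y_{j+1} = (ε - y_j²)/2`. By induction `‖y_j‖ ≤ 1/4`
(`‖y_{j+1}‖ ≤ (1/4 + 1/16)/2 ≤ 1/4`) and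
`‖y_{j+1} - y_j‖ ≤ (‖y_j‖ + ‖y_{j-1}‖)/2 * ‖y_j - y_{j-1}‖ ≤ (1/4) ‖y_j - y_{j-1}‖`,
so `y_j` converges uniformly on `U` (geometric rate), the limit `y(N)` is continuous on `U`
(uniform limit of polynomials in `N`), `‖y‖ ≤ 1/4`, `2y + y² = ε`, i.e. `(1 + y)² = N`.
Put `sq N = 1 + y(N)`.  It is a unit because `‖y‖ < 1` (or because `N` is a unit:
`‖N - 1‖ < 1`, and `sq N * sq N = N`).  `sq 1 = 1` since all `y_j = 0`.
Every `y_j` is a polynomial in `N`, hence: if `Y` commutes with `N` it commutes with `y_j`,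
hence (limit) with `sq N`; if `Nᵀ Q = Q N` then `(N^k)ᵀ Q = Q N^k` and so
`y_jᵀ Q = Q y_j` (prove it directly by induction on `j`: if `yᵀ Q = Q y` then
`(y²)ᵀ Q = yᵀ yᵀ Q = yᵀ Q y = Q y²`); if `N v = v` then `ε v = 0`, `y_j v = 0`,
so `sq N v = v`.  All the properties are closed, so they pass to the limit.
-/

open Matrix Set unitInterval Topology

noncomputable section

namespace DT

/-- the iteration for the square root -/
def sqIt {A : Type*} [Ring A] [Module ℝ A] (N : A) : ℕ → A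
  | 0 => 0
  | n + 1 => (1 / 2 : ℝ) • ((N - 1) - sqIt N n * sqIt N n)

section banach

variable {A : Type*} [NormedRing A] [NormedAlgebra ℝ A]

theorem sqIt_norm (N : A) (hN : ‖N - 1‖ < 1 / 4) (n : ℕ) : ‖sqIt N n‖ ≤ 1 / 4 := by
  induction n with
  | zero => simp [sqIt]
  | succ n ih =>
    have h1 : ‖sqIt N n * sqIt N n‖ ≤ 1 / 4 * (1 / 4) :=
      (norm_mul_le _ _).trans (mul_le_mul ih ih (norm_nonneg _) (by norm_num))
    have h2 := norm_sub_le (N - 1) (sqIt N n * sqIt N n)
    show ‖(1 / 2 : ℝ) • ((N - 1) - sqIt N n * sqIt N n)‖ ≤ 1 / 4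
    rw [norm_smul, Real.norm_of_nonneg (by norm_num : (0 : ℝ) ≤ 1 / 2)]
    linarith

theorem sqIt_diff (N : A) (hN : ‖N - 1‖ < 1 / 4) (n : ℕ) :
    ‖sqIt N (n + 1) - sqIt N n‖ ≤ (1 / 4 : ℝ) ^ n := by
  induction n with
  | zero =>
    show ‖(1 / 2 : ℝ) • ((N - 1) - sqIt N 0 * sqIt N 0) - 0‖ ≤ _
    rw [show sqIt N 0 = 0 from rfl, mul_zero, sub_zero, sub_zero, norm_smul,
      Real.norm_of_nonneg (by norm_num : (0 : ℝ) ≤ 1 / 2), pow_zero]
    linarith
  | succ n ih =>
    have e : sqIt N (n + 2) - sqIt N (n + 1) =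
        (1 / 2 : ℝ) • (-((sqIt N (n + 1) - sqIt N n) * sqIt N (n + 1) +
          sqIt N n * (sqIt N (n + 1) - sqIt N n))) := by
      have e1 : sqIt N (n + 2) = (1 / 2 : ℝ) • ((N - 1) - sqIt N (n + 1) * sqIt N (n + 1)) := rfl
      have e2 : sqIt N (n + 1) = (1 / 2 : ℝ) • ((N - 1) - sqIt N n * sqIt N n) := rfl
      generalize sqIt N (n + 2) = a at *
      generalize hb : sqIt N (n + 1) = b at *
      generalize sqIt N n = c at *
      rw [e1]
      nth_rewrite 3 [e2]
      rw [← smul_sub]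
      congr 1
      noncomm_ring
    show ‖sqIt N (n + 2) - sqIt N (n + 1)‖ ≤ _
    rw [e, norm_smul, Real.norm_of_nonneg (by norm_num : (0 : ℝ) ≤ 1 / 2), norm_neg]
    have b1 := sqIt_norm N hN (n + 1)
    have b2 := sqIt_norm N hN n
    have h1 : ‖(sqIt N (n + 1) - sqIt N n) * sqIt N (n + 1)‖ ≤ (1 / 4 : ℝ) ^ n * (1 / 4) :=
      (norm_mul_le _ _).trans (mul_le_mul ih b1 (norm_nonneg _) (by positivity))
    have h2 : ‖sqIt N n * (sqIt N (n + 1) - sqIt N n)‖ ≤ 1 / 4 * (1 / 4 : ℝ) ^ n :=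
      (norm_mul_le _ _).trans (mul_le_mul b2 ih (norm_nonneg _) (by norm_num))
    have h3 := norm_add_le ((sqIt N (n + 1) - sqIt N n) * sqIt N (n + 1))
      (sqIt N n * (sqIt N (n + 1) - sqIt N n))
    rw [pow_succ]
    linarith

theorem sqIt_cont (n : ℕ) : Continuous fun N : A => sqIt N n := by
  induction n with
  | zero => exact continuous_const
  | succ n ih =>
    show Continuous fun N : A => (1 / 2 : ℝ) • ((N - 1) - sqIt N n * sqIt N n)
    exact ((continuous_id.sub continuous_const).sub (ih.mul ih)).const_smul _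

theorem sqIt_limit [CompleteSpace A] : ∃ Y : A → A,
    ContinuousOn Y {N | ‖N - 1‖ < 1 / 4} ∧ ∀ N : A, ‖N - 1‖ < 1 / 4 →
      Filter.Tendsto (fun n => sqIt N n) Filter.atTop (𝓝 (Y N)) ∧ ‖Y N‖ ≤ 1 / 4 ∧
        (1 + Y N) * (1 + Y N) = N := by
  have hs : Summable fun n : ℕ => (1 / 4 : ℝ) ^ n :=
    summable_geometric_of_lt_one (by norm_num) (by norm_num)
  refine ⟨fun N => ∑' n, (sqIt N (n + 1) - sqIt N n), ?_, ?_⟩
  · exact continuousOn_tsum (fun n => ((sqIt_cont (n + 1)).sub (sqIt_cont n)).continuousOn) hs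
      fun n N hN => sqIt_diff N hN n
  · intro N hN
    have h1 : Summable fun n => (sqIt N (n + 1) - sqIt N n) :=
      Summable.of_norm_bounded hs fun n => sqIt_diff N hN n
    have h2 := h1.hasSum.tendsto_sum_nat
    have h3 : (fun n => ∑ i ∈ Finset.range n, (sqIt N (i + 1) - sqIt N i)) =
        fun n => sqIt N n := by
      funext n
      rw [Finset.sum_range_sub]
      show sqIt N n - 0 = _
      rw [sub_zero]
    rw [h3] at h2
    refine ⟨h2, le_of_tendsto h2.norm (Filter.Eventually.of_forall fun n => sqIt_norm N hN n), ?_⟩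
    show (1 + ∑' n, (sqIt N (n + 1) - sqIt N n)) * (1 + ∑' n, (sqIt N (n + 1) - sqIt N n)) = N
    generalize ∑' n, (sqIt N (n + 1) - sqIt N n) = y at *
    have h4 : Filter.Tendsto (fun n => sqIt N (n + 1)) Filter.atTop (𝓝 y) :=
      h2.comp (Filter.tendsto_add_atTop_nat 1)
    have h5 : Filter.Tendsto (fun n => sqIt N (n + 1)) Filter.atTop
        (𝓝 ((1 / 2 : ℝ) • ((N - 1) - y * y))) :=
      (tendsto_const_nhds.sub (h2.mul h2)).const_smul (1 / 2 : ℝ)
    have h6 := tendsto_nhds_unique h4 h5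
    have h7 : (2 : ℝ) • y = (N - 1) - y * y := by
      nth_rewrite 1 [h6]
      rw [smul_smul]
      norm_num
    have h8 : (1 + y) * (1 + y) = 1 + (2 : ℝ) • y + y * y := by
      rw [two_smul]
      noncomm_ring
    rw [h8, h7]
    abel

end banach

theorem exists_sqrt (ι : Type) [Fintype ι] [DecidableEq ι] :
    ∃ (U : Set (Matrix ι ι ℝ)) (sq : Matrix ι ι ℝ → Matrix ι ι ℝ), IsOpen U ∧
      (1 : Matrix ι ι ℝ) ∈ U ∧ ContinuousOn sq U ∧ sq 1 = 1 ∧
      ∀ N ∈ U, sq N * sq N = N ∧ IsUnit (sq N) ∧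
        (∀ Y : Matrix ι ι ℝ, Y * N = N * Y → Y * sq N = sq N * Y) ∧
        (∀ Q : Matrix ι ι ℝ, Nᵀ * Q = Q * N → (sq N)ᵀ * Q = Q * sq N) ∧
        (∀ v : ι → ℝ, N *ᵥ v = v → sq N *ᵥ v = v) := by
  let _ : NormedRing (Matrix ι ι ℝ) := Matrix.linftyOpNormedRing
  let _ : NormedAlgebra ℝ (Matrix ι ι ℝ) := Matrix.linftyOpNormedAlgebra
  have _ : CompleteSpace (Matrix ι ι ℝ) := inferInstance
  obtain ⟨Y, hYc, hY⟩ := sqIt_limit (A := Matrix ι ι ℝ)
  refine ⟨{N | ‖N - 1‖ < 1 / 4}, fun N => 1 + Y N, ?_, ?_, ?_, ?_, ?_⟩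
  · exact isOpen_lt (continuous_id.sub continuous_const).norm continuous_const
  · show ‖(1 : Matrix ι ι ℝ) - 1‖ < 1 / 4
    rw [sub_self, norm_zero]
    norm_num
  · exact continuousOn_const.add hYc
  · have h1 : ‖(1 : Matrix ι ι ℝ) - 1‖ < 1 / 4 := by
      rw [sub_self, norm_zero]
      norm_num
    have h2 : ∀ n, sqIt (1 : Matrix ι ι ℝ) n = 0 := by
      intro n
      induction n with
      | zero => rfl
      | succ n ih =>
        show (1 / 2 : ℝ) • (((1 : Matrix ι ι ℝ) - 1) - sqIt 1 n * sqIt 1 n) = 0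
        rw [ih, sub_self, mul_zero, sub_zero, smul_zero]
    have h3 := (hY 1 h1).1
    simp only [h2] at h3
    have h4 : Y 1 = 0 := tendsto_nhds_unique h3 tendsto_const_nhds
    show 1 + Y 1 = 1
    rw [h4, add_zero]
  · intro N hN
    obtain ⟨h1, h2, h3⟩ := hY N hN
    refine ⟨h3, ?_, ?_, ?_, ?_⟩
    · have h4 : ‖-Y N‖ < 1 := by
        rw [norm_neg]
        exact lt_of_le_of_lt h2 (by norm_num)
      have h5 := (Units.oneSub (-Y N) h4).isUnit
      rwa [Units.val_oneSub, sub_neg_eq_add] at h5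
    · intro Z hZ
      have h4 : ∀ n, Z * sqIt N n = sqIt N n * Z := by
        intro n
        induction n with
        | zero =>
          show Z * (0 : Matrix ι ι ℝ) = 0 * Z
          rw [mul_zero, zero_mul]
        | succ n ih =>
          show Z * ((1 / 2 : ℝ) • ((N - 1) - sqIt N n * sqIt N n)) =
            ((1 / 2 : ℝ) • ((N - 1) - sqIt N n * sqIt N n)) * Z
          rw [mul_smul_comm, smul_mul_assoc, mul_sub, sub_mul, mul_sub, sub_mul, hZ, mul_one,
            one_mul, ← mul_assoc, ih, mul_assoc, ih, mul_assoc]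
      have h5 : Z * Y N = Y N * Z :=
        tendsto_nhds_unique (tendsto_const_nhds.mul h1)
          ((h1.mul tendsto_const_nhds).congr fun n => (h4 n).symm)
      show Z * (1 + Y N) = (1 + Y N) * Z
      rw [mul_add, add_mul, h5, mul_one, one_mul]
    · intro Q hQ
      have h4 : ∀ n, (sqIt N n)ᵀ * Q = Q * sqIt N n := by
        intro n
        induction n with
        | zero =>
          show ((0 : Matrix ι ι ℝ))ᵀ * Q = Q * 0
          rw [Matrix.transpose_zero, zero_mul, mul_zero]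
        | succ n ih =>
          show ((1 / 2 : ℝ) • ((N - 1) - sqIt N n * sqIt N n))ᵀ * Q =
            Q * ((1 / 2 : ℝ) • ((N - 1) - sqIt N n * sqIt N n))
          rw [Matrix.transpose_smul, Matrix.transpose_sub, Matrix.transpose_sub,
            Matrix.transpose_one, Matrix.transpose_mul, mul_smul_comm, smul_mul_assoc, mul_sub,
            sub_mul, mul_sub, sub_mul, hQ, mul_one, one_mul, mul_assoc, ih, ← mul_assoc, ih,
            mul_assoc]
      have h5 : (Y N)ᵀ * Q = Q * Y N := by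
        have h6 : Filter.Tendsto (fun n => (sqIt N n)ᵀ * Q) Filter.atTop (𝓝 ((Y N)ᵀ * Q)) := by
          have hc : Continuous fun M : Matrix ι ι ℝ => Mᵀ * Q := by
            exact (Continuous.matrix_transpose continuous_id).matrix_mul continuous_const
          exact (hc.tendsto (Y N)).comp h1
        exact tendsto_nhds_unique h6
          ((tendsto_const_nhds.mul h1).congr fun n => (h4 n).symm)
      show (1 + Y N)ᵀ * Q = Q * (1 + Y N)
      rw [Matrix.transpose_add, Matrix.transpose_one, mul_add, add_mul, h5, mul_one, one_mul]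
    · intro v hv
      have h4 : ∀ n, sqIt N n *ᵥ v = 0 := by
        intro n
        induction n with
        | zero =>
          show (0 : Matrix ι ι ℝ) *ᵥ v = 0
          rw [Matrix.zero_mulVec]
        | succ n ih =>
          show ((1 / 2 : ℝ) • ((N - 1) - sqIt N n * sqIt N n)) *ᵥ v = 0
          rw [Matrix.smul_mulVec, Matrix.sub_mulVec, Matrix.sub_mulVec, Matrix.one_mulVec, hv,
            ← Matrix.mulVec_mulVec, ih, Matrix.mulVec_zero, sub_self, sub_zero, smul_zero]
      have h5 : Y N *ᵥ v = 0 := by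
        have hc : Continuous fun M : Matrix ι ι ℝ => M *ᵥ v :=
          continuous_id.matrix_mulVec continuous_const
        have h6 : Filter.Tendsto (fun n => sqIt N n *ᵥ v) Filter.atTop (𝓝 (Y N *ᵥ v)) :=
          (hc.tendsto (Y N)).comp h1
        simp only [h4] at h6
        exact (tendsto_nhds_unique h6 tendsto_const_nhds)
      show (1 + Y N) *ᵥ v = v
      rw [Matrix.add_mulVec, Matrix.one_mulVec, h5, add_zero]

end DT
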