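import Pool.Agent.H78.DT.Basic
import Pool.Agent.H78.DT.Sq

/-!
# Lifting square roots along a path (job DT-SRL)

`M (u, x)` is a continuous family of invertible matrices, commuting for fixed `x`.  There is a
continuous family `R (u, x)` with `R (0, x) = 1` and `R (u, x)² = M (0, x)⁻¹ M (u, x)`, lying in
the double commutant, etc.

PROOF. Let `(U, sq)` be as in `exists_sqrt ι`.  As `X` is compact and
`(u, v, x) ↦ M(u,x)⁻¹ M(v,x)` is continuous and `= 1` for `u = v`, there is `n ≥ 1` with
`M(u,x)⁻¹ M(v,x) ∈ U` whenever `|u - v| ≤ 1/n`.  With `c_j(u) = min u (j/n)` put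
`N_j(u,x) = M(c_j(u),x)⁻¹ M(c_{j+1}(u),x)` and `R(u,x) = ∏_{j<n} sq (N_j(u,x))`
(in increasing order, say).  All `N_j(u,x)` (fixed `x`) commute with each other and with all
`M(v,x)`; by the commutation property of `sq` (used twice) the `sq N_j` commute pairwise and with
all `M(v, x)`.  So `R² = ∏ N_j = M(0)⁻¹ M(u)`.
* If `Y` commutes with all `M(u,x)` then with all `N_j`, hence with `R`.
* If `M(u)ᵀ Q = Q M(u)` for all `u` then `N_jᵀ Q = M_{j+1}ᵀ M_j⁻ᵀ Q = M_{j+1}ᵀ Q M_j⁻¹ =
  Q M_{j+1} M_j⁻¹ = Q N_j`, so `(sq N_j)ᵀ Q = Q sq N_j`, and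
  `Rᵀ Q = (∏ sq N_j)ᵀ Q = (reversed product of transposes) Q = Q (reversed product) = Q R` since
  the factors commute.
* If `M(u) v = M(0) v` for all `u` then `N_j v = M_j⁻¹ M_{j+1} v = M_j⁻¹ M_j v = v`, so `R v = v`.
* If `M(u) = M(0)` for all `u`, `N_j = 1`, `sq 1 = 1`, `R = 1`.
* Positive definiteness: if all `M(u,x)` are symmetric (fixed `x`), then `R(u,x)` is symmetric
  (take `Q = 1`), invertible, continuous in `u`, and `R(0,x) = 1`.  The set of `u ∈ I` with
  `R(u,x)` positive definite contains `0`, is open (positive definite matrices are open among the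
  symmetric ones: e.g. `min` of `wᵀRw` on the unit sphere is continuous and positive), and closed
  (a limit is positive semidefinite, and an invertible positive semidefinite symmetric matrix is
  positive definite); `I` is connected.
-/

open Matrix Set unitInterval Topology

noncomputable section

namespace DT

section srl_aux

variable {ι X : Type} [Fintype ι] [DecidableEq ι] [TopologicalSpace X]

theorem srl_cont_inv {Z : Type*} [TopologicalSpace Z] {f : Z → Matrix ι ι ℝ} (hf : Continuous f)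
    (hU : ∀ z, IsUnit (f z)) : Continuous fun z => (f z)⁻¹ := by
  have h1 : ∀ z, (f z).det ≠ 0 := fun z =>
    ((Matrix.isUnit_iff_isUnit_det _).1 (hU z)).ne_zero
  have h2 : (fun z => (f z)⁻¹) = fun z => ((f z).det)⁻¹ • (f z).adjugate := by
    funext z
    rw [Matrix.inv_def, Ring.inverse_eq_inv']
  rw [h2]
  exact (hf.matrix_det.inv₀ h1).smul hf.matrix_adjugate

/-- positive definiteness along a path of invertible symmetric matrices -/
theorem srl_posDef {f : I → Matrix ι ι ℝ} (hf : Continuous f) (hU : ∀ u, IsUnit (f u))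
    (hs : ∀ u, (f u)ᵀ = f u) (h0 : (f 0).PosDef) (u : I) : (f u).PosDef := by
  have hH : ∀ u, (f u).IsHermitian := fun u =>
    Matrix.isHermitian_iff_isSymm.2 (hs u)
  have hpsd : ∀ u, (f u).PosDef ↔ (f u).PosSemidef := fun u =>
    ⟨fun h => h.posSemidef, fun h => h.posDef_iff_isUnit.2 (hU u)⟩
  have hclosed : IsClosed {u | (f u).PosDef} := by
    have h1 : {u | (f u).PosDef} = ⋂ w : ι → ℝ, {u | 0 ≤ w ⬝ᵥ (f u *ᵥ w)} := by
      ext u
      simp only [mem_ofPred_eq, mem_iInter]
      rw [hpsd, Matrix.posSemidef_iff_dotProduct_mulVec]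
      constructor
      · intro h w
        have := h.2 w
        rwa [star_trivial] at this
      · intro h
        refine ⟨hH u, fun w => ?_⟩
        rw [star_trivial]
        exact h w
    rw [h1]
    refine isClosed_iInter fun w => ?_
    have hc : Continuous fun u => w ⬝ᵥ (f u *ᵥ w) :=
      continuous_const.dotProduct (hf.matrix_mulVec continuous_const)
    exact isClosed_le continuous_const hc
  have hopen : IsOpen {u | (f u).PosDef} := by
    rw [← isClosed_compl_iff]
    have hK : IsCompact {p : I × (ι → ℝ) | p.2 ∈ Metric.sphere (0 : ι → ℝ) 1 ∧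
        p.2 ⬝ᵥ (f p.1 *ᵥ p.2) ≤ 0} := by
      have h1 : IsCompact ((univ : Set I) ×ˢ Metric.sphere (0 : ι → ℝ) 1) :=
        isCompact_univ.prod (isCompact_sphere _ _)
      refine h1.of_isClosed_subset ?_ ?_
      · have hc : Continuous fun p : I × (ι → ℝ) => p.2 ⬝ᵥ (f p.1 *ᵥ p.2) :=
          continuous_snd.dotProduct ((hf.comp continuous_fst).matrix_mulVec continuous_snd)
        exact (Metric.isClosed_sphere.preimage continuous_snd).inter
          (isClosed_le hc continuous_const)
      · intro p hp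
        exact ⟨mem_univ _, hp.1⟩
    have h2 := (hK.image continuous_fst).isClosed
    convert h2 using 1
    ext u
    simp only [mem_compl_iff, mem_ofPred_eq, mem_image, Prod.exists, exists_and_right,
      exists_eq_right]
    rw [Matrix.posDef_iff_dotProduct_mulVec]
    constructor
    · intro h
      push Not at h
      obtain ⟨w, hw0, hw⟩ := h (hH u)
      have hn : 0 < ‖w‖ := norm_pos_iff.2 hw0
      refine ⟨‖w‖⁻¹ • w, ?_, ?_⟩
      · rw [mem_sphere_zero_iff_norm, norm_smul, norm_inv, norm_norm]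
        exact inv_mul_cancel₀ hn.ne'
      · rw [Matrix.mulVec_smul, smul_dotProduct, dotProduct_smul, star_trivial] at *
        have h3 : 0 < ‖w‖⁻¹ := inv_pos.2 hn
        rw [smul_eq_mul, smul_eq_mul]
        exact mul_nonpos_of_nonneg_of_nonpos h3.le (mul_nonpos_of_nonneg_of_nonpos h3.le hw)
    · rintro ⟨w, hw1, hw2⟩ h
      have hw0 : w ≠ 0 := by
        intro h3
        rw [h3, mem_sphere_zero_iff_norm, norm_zero] at hw1
        exact zero_ne_one hw1
      have h4 := h.2 hw0
      rw [star_trivial] at h4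
      exact absurd h4 (not_lt.2 hw2)
  have huniv := IsClopen.eq_univ ⟨hclosed, hopen⟩ ⟨0, h0⟩
  have : u ∈ {u | (f u).PosDef} := by
    rw [huniv]
    exact mem_univ u
  exact this

/-- the truncation of the time parameter -/
def srl_c (n j : ℕ) (u : I) : I :=
  ⟨min (u : ℝ) ((j : ℝ) / n), le_min u.2.1 (by positivity), (min_le_left _ _).trans u.2.2⟩

theorem srl_c_cont (n j : ℕ) : Continuous (srl_c n j) := by
  unfold srl_c
  exact Continuous.subtype_mk (continuous_subtype_val.min continuous_const) _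

theorem srl_c_zero (n : ℕ) (u : I) : srl_c n 0 u = 0 := by
  apply Subtype.ext
  change min (u : ℝ) (((0 : ℕ) : ℝ) / n) = 0
  rw [Nat.cast_zero, zero_div]
  exact min_eq_right u.2.1

theorem srl_c_at_zero (n j : ℕ) : srl_c n j 0 = 0 := by
  apply Subtype.ext
  change min ((0 : I) : ℝ) ((j : ℝ) / n) = 0
  exact min_eq_left (by positivity)

theorem srl_c_top {n : ℕ} (hn : 0 < n) (u : I) : srl_c n n u = u := by
  apply Subtype.ext
  change min (u : ℝ) ((n : ℝ) / n) = u
  rw [div_self (by positivity)]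
  exact min_eq_left u.2.2

theorem srl_c_dist (n j : ℕ) (u : I) : dist (srl_c n j u) (srl_c n (j + 1) u) ≤ 1 / n := by
  rw [Subtype.dist_eq, Real.dist_eq]
  change |min (u : ℝ) ((j : ℝ) / n) - min (u : ℝ) (((j + 1 : ℕ) : ℝ) / n)| ≤ 1 / n
  refine (abs_min_sub_min_le_max _ _ _ _).trans ?_
  rw [sub_self, abs_zero]
  refine max_le (by positivity) ?_
  rw [← sub_div]
  push_cast
  rw [show (j : ℝ) - (j + 1) = -1 by ring, abs_div, abs_neg, abs_one, Nat.abs_cast]

/-- a uniform size of the steps -/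
theorem srl_step [CompactSpace X] (M : I × X → Matrix ι ι ℝ) (hM : Continuous M)
    (hU : ∀ p, IsUnit (M p)) {U : Set (Matrix ι ι ℝ)} (hUo : IsOpen U) (h1U : 1 ∈ U) :
    ∃ n : ℕ, 0 < n ∧ ∀ u v x, dist u v ≤ 1 / (n : ℝ) → (M (u, x))⁻¹ * M (v, x) ∈ U := by
  have hG : Continuous fun q : (I × I) × X => (M (q.1.1, q.2))⁻¹ * M (q.1.2, q.2) := by
    have h1 : Continuous fun q : (I × I) × X => M (q.1.1, q.2) := hM.comp (by fun_prop)
    have h2 : Continuous fun q : (I × I) × X => M (q.1.2, q.2) := hM.comp (by fun_prop)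
    exact (srl_cont_inv h1 fun q => hU _).matrix_mul h2
  have hK : IsCompact ((fun q : (I × I) × X => (M (q.1.1, q.2))⁻¹ * M (q.1.2, q.2)) ⁻¹' Uᶜ) :=
    (hUo.isClosed_compl.preimage hG).isCompact
  rcases Set.eq_empty_or_nonempty
    ((fun q : (I × I) × X => (M (q.1.1, q.2))⁻¹ * M (q.1.2, q.2)) ⁻¹' Uᶜ) with he | hne
  · refine ⟨1, one_pos, fun u v x _ => ?_⟩
    by_contra hc
    have : ((u, v), x) ∈ ((fun q : (I × I) × X =>
        (M (q.1.1, q.2))⁻¹ * M (q.1.2, q.2)) ⁻¹' Uᶜ) := hc
    rw [he] at this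
    exact this
  · have hd : Continuous fun q : (I × I) × X => dist q.1.1 q.1.2 := by fun_prop
    obtain ⟨q, hq, hmin⟩ := hK.exists_isMinOn hne hd.continuousOn
    have hpos : 0 < dist q.1.1 q.1.2 := by
      rw [dist_pos]
      intro h
      apply hq
      change (M (q.1.1, q.2))⁻¹ * M (q.1.2, q.2) ∈ U
      rw [← h, Matrix.nonsing_inv_mul _ ((Matrix.isUnit_iff_isUnit_det _).1 (hU _))]
      exact h1U
    obtain ⟨n, hn⟩ := exists_nat_one_div_lt hpos
    refine ⟨n + 1, Nat.succ_pos _, fun u v x huv => ?_⟩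
    by_contra hc
    have h3 := hmin (show ((u, v), x) ∈ ((fun q : (I × I) × X =>
        (M (q.1.1, q.2))⁻¹ * M (q.1.2, q.2)) ⁻¹' Uᶜ) from hc)
    simp only [mem_ofPred_eq] at h3
    push_cast at huv
    linarith

end srl_aux

theorem sqrt_lift {ι X : Type} [Fintype ι] [DecidableEq ι] [TopologicalSpace X]
    [CompactSpace X] (M : I × X → Matrix ι ι ℝ) (hM : Continuous M) (hU : ∀ p, IsUnit (M p))
    (hcomm : ∀ u v x, M (u, x) * M (v, x) = M (v, x) * M (u, x)) :
    ∃ R : I × X → Matrix ι ι ℝ, Continuous R ∧ (∀ x, R (0, x) = 1) ∧ (∀ p, IsUnit (R p)) ∧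
      (∀ u x, M (0, x) * (R (u, x) * R (u, x)) = M (u, x)) ∧
      (∀ x (Y : Matrix ι ι ℝ), (∀ u, Y * M (u, x) = M (u, x) * Y) →
        ∀ u, Y * R (u, x) = R (u, x) * Y) ∧
      (∀ x (Q : Matrix ι ι ℝ), (∀ u, (M (u, x))ᵀ * Q = Q * M (u, x)) →
        ∀ u, (R (u, x))ᵀ * Q = Q * R (u, x)) ∧
      (∀ x (v : ι → ℝ), (∀ u, M (u, x) *ᵥ v = M (0, x) *ᵥ v) → ∀ u, R (u, x) *ᵥ v = v) ∧
      (∀ x, (∀ u, M (u, x) = M (0, x)) → ∀ u, R (u, x) = 1) ∧
      (∀ x, (∀ u, (M (u, x))ᵀ = M (u, x)) → ∀ u, (R (u, x)).PosDef) := by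
  obtain ⟨U, sq, hUo, h1U, hsqc, hsq1, hsq⟩ := exists_sqrt ι
  obtain ⟨n, hn0, hn⟩ := srl_step M hM hU hUo h1U
  have hdet : ∀ p, IsUnit (M p).det := fun p => (Matrix.isUnit_iff_isUnit_det _).1 (hU p)
  -- the factors
  obtain ⟨N, hN⟩ : ∃ N : ℕ → I × X → Matrix ι ι ℝ, ∀ j p,
      N j p = (M (srl_c n j p.1, p.2))⁻¹ * M (srl_c n (j + 1) p.1, p.2) :=
    ⟨fun j p => (M (srl_c n j p.1, p.2))⁻¹ * M (srl_c n (j + 1) p.1, p.2), fun _ _ => rfl⟩
  have hMc : ∀ j, Continuous fun p : I × X => M (srl_c n j p.1, p.2) := fun j =>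
    hM.comp (((srl_c_cont n j).comp continuous_fst).prodMk continuous_snd)
  have hNc : ∀ j, Continuous (N j) := by
    intro j
    have h1 : N j = fun p => (M (srl_c n j p.1, p.2))⁻¹ * M (srl_c n (j + 1) p.1, p.2) :=
      funext fun p => hN j p
    rw [h1]
    exact (srl_cont_inv (hMc j) fun _ => hU _).matrix_mul (hMc (j + 1))
  have hNU : ∀ j p, N j p ∈ U := by
    intro j p
    rw [hN]
    exact hn _ _ _ (srl_c_dist n j p.1)
  have hNmul : ∀ j p, M (srl_c n j p.1, p.2) * N j p = M (srl_c n (j + 1) p.1, p.2) := by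
    intro j p
    rw [hN, ← mul_assoc, Matrix.mul_nonsing_inv _ (hdet _), one_mul]
  -- matrices commuting with everything commute with the factors
  have hNcomm : ∀ j x (Y : Matrix ι ι ℝ), (∀ u, Y * M (u, x) = M (u, x) * Y) →
      ∀ u, Y * N j (u, x) = N j (u, x) * Y := by
    intro j x Y hY u
    rw [hN]
    have h1 : Y * (M (srl_c n j u, x))⁻¹ = (M (srl_c n j u, x))⁻¹ * Y := by
      have h2 := hY (srl_c n j u)
      calc Y * (M (srl_c n j u, x))⁻¹
          = (M (srl_c n j u, x))⁻¹ * (M (srl_c n j u, x) * Y) * (M (srl_c n j u, x))⁻¹ := by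
            rw [← mul_assoc, Matrix.nonsing_inv_mul _ (hdet _), one_mul]
        _ = (M (srl_c n j u, x))⁻¹ * Y * (M (srl_c n j u, x) * (M (srl_c n j u, x))⁻¹) := by
            rw [← h2]
            simp only [mul_assoc]
        _ = (M (srl_c n j u, x))⁻¹ * Y := by
            rw [Matrix.mul_nonsing_inv _ (hdet _), mul_one]
    change Y * ((M (srl_c n j u, x))⁻¹ * M (srl_c n (j + 1) u, x))
      = (M (srl_c n j u, x))⁻¹ * M (srl_c n (j + 1) u, x) * Y
    rw [← mul_assoc, h1, mul_assoc, hY, mul_assoc]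
  -- the products
  obtain ⟨R, hR0, hRs⟩ : ∃ R : ℕ → I × X → Matrix ι ι ℝ, (∀ p, R 0 p = 1) ∧
      ∀ j p, R (j + 1) p = R j p * sq (N j p) :=
    ⟨fun j p => Nat.rec 1 (fun j A => A * sq (N j p)) j, fun _ => rfl, fun _ _ => rfl⟩
  have hcomR : ∀ j x (Y : Matrix ι ι ℝ), (∀ u, Y * M (u, x) = M (u, x) * Y) →
      ∀ u, Y * R j (u, x) = R j (u, x) * Y := by
    intro j x Y hY u
    induction j with
    | zero => rw [hR0, mul_one, one_mul]
    | succ j ih =>
      have h1 := (hsq _ (hNU j (u, x))).2.2.1 Y (hNcomm j x Y hY u)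
      rw [hRs, ← mul_assoc, ih, mul_assoc, h1, mul_assoc]
  have hRN : ∀ j i x u, R j (u, x) * N i (u, x) = N i (u, x) * R j (u, x) := by
    intro j i x u
    refine hNcomm i x _ (fun v => ?_) u
    exact (hcomR j x (M (v, x)) (fun w => hcomm v w x) u).symm
  have hRsq : ∀ j i x u, R j (u, x) * sq (N i (u, x)) = sq (N i (u, x)) * R j (u, x) :=
    fun j i x u => (hsq _ (hNU i (u, x))).2.2.1 _ (hRN j i x u)
  have hRQ : ∀ j x (Q : Matrix ι ι ℝ), (∀ u, (M (u, x))ᵀ * Q = Q * M (u, x)) →
      ∀ u, (R j (u, x))ᵀ * Q = Q * R j (u, x) := by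
    intro j x Q hQ u
    induction j with
    | zero => rw [hR0, transpose_one, one_mul, mul_one]
    | succ j ih =>
      have hNQ : (N j (u, x))ᵀ * Q = Q * N j (u, x) := by
        rw [hN]
        change ((M (srl_c n j u, x))⁻¹ * M (srl_c n (j + 1) u, x))ᵀ * Q
          = Q * ((M (srl_c n j u, x))⁻¹ * M (srl_c n (j + 1) u, x))
        have h2 : ((M (srl_c n j u, x))⁻¹)ᵀ * Q = Q * (M (srl_c n j u, x))⁻¹ := by
          have h3 := hQ (srl_c n j u)
          have hdt : IsUnit ((M (srl_c n j u, x))ᵀ).det := by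
            rw [det_transpose]
            exact hdet _
          calc ((M (srl_c n j u, x))⁻¹)ᵀ * Q
              = ((M (srl_c n j u, x))⁻¹)ᵀ * (Q * M (srl_c n j u, x))
                * (M (srl_c n j u, x))⁻¹ := by
                rw [mul_assoc, mul_assoc Q, Matrix.mul_nonsing_inv _ (hdet _), mul_one]
            _ = Q * (M (srl_c n j u, x))⁻¹ := by
                rw [← h3, ← mul_assoc, transpose_nonsing_inv, Matrix.nonsing_inv_mul _ hdt,
                  one_mul]
        have h4 : (M (srl_c n j u, x))⁻¹ * M (srl_c n (j + 1) u, x)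
            = M (srl_c n (j + 1) u, x) * (M (srl_c n j u, x))⁻¹ := by
          have h5 := hcomm (srl_c n j u) (srl_c n (j + 1) u) x
          calc (M (srl_c n j u, x))⁻¹ * M (srl_c n (j + 1) u, x)
              = (M (srl_c n j u, x))⁻¹ * (M (srl_c n (j + 1) u, x) * M (srl_c n j u, x))
                * (M (srl_c n j u, x))⁻¹ := by
                rw [mul_assoc, mul_assoc (M (srl_c n (j + 1) u, x)),
                  Matrix.mul_nonsing_inv _ (hdet _), mul_one]
            _ = M (srl_c n (j + 1) u, x) * (M (srl_c n j u, x))⁻¹ := by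
                rw [← h5, ← mul_assoc, Matrix.nonsing_inv_mul _ (hdet _), one_mul]
        rw [h4, transpose_mul, mul_assoc, hQ, ← mul_assoc, h2, mul_assoc, ← h4]
      have h1 := (hsq _ (hNU j (u, x))).2.2.2.1 Q hNQ
      rw [hRs, transpose_mul, mul_assoc, ih, ← mul_assoc, h1, mul_assoc, ← hRsq]
  have hRunit : ∀ j p, IsUnit (R j p) := by
    intro j p
    induction j with
    | zero => rw [hR0]; exact isUnit_one
    | succ j ih => rw [hRs]; exact ih.mul (hsq _ (hNU j p)).2.1
  have hRcont : ∀ j, Continuous (R j) := by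
    intro j
    induction j with
    | zero =>
      have h1 : R 0 = fun _ => 1 := funext hR0
      rw [h1]
      exact continuous_const
    | succ j ih =>
      have h1 : R (j + 1) = fun p => R j p * sq (N j p) := funext (hRs j)
      rw [h1]
      exact ih.matrix_mul (hsqc.comp_continuous (hNc j) (hNU j))
  have hRzero : ∀ j x, R j (0, x) = 1 := by
    intro j x
    induction j with
    | zero => exact hR0 _
    | succ j ih =>
      have h1 : N j (0, x) = 1 := by
        rw [hN]
        change (M (srl_c n j 0, x))⁻¹ * M (srl_c n (j + 1) 0, x) = 1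
        rw [srl_c_at_zero, srl_c_at_zero, Matrix.nonsing_inv_mul _ (hdet _)]
      rw [hRs, ih, h1, hsq1, mul_one]
  have hRR : ∀ j u x, M (0, x) * (R j (u, x) * R j (u, x)) = M (srl_c n j u, x) := by
    intro j u x
    induction j with
    | zero => rw [hR0, mul_one, mul_one, srl_c_zero]
    | succ j ih =>
      have h1 : R (j + 1) (u, x) * R (j + 1) (u, x)
          = R j (u, x) * R j (u, x) * N j (u, x) := by
        rw [hRs]
        calc R j (u, x) * sq (N j (u, x)) * (R j (u, x) * sq (N j (u, x)))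
            = R j (u, x) * (sq (N j (u, x)) * R j (u, x)) * sq (N j (u, x)) := by
              simp only [mul_assoc]
          _ = R j (u, x) * R j (u, x) * (sq (N j (u, x)) * sq (N j (u, x))) := by
              rw [← hRsq]
              simp only [mul_assoc]
          _ = R j (u, x) * R j (u, x) * N j (u, x) := by
              rw [(hsq _ (hNU j (u, x))).1]
      rw [h1, ← mul_assoc, ih]
      exact hNmul j (u, x)
  refine ⟨R n, hRcont n, hRzero n, hRunit n, ?_, hcomR n, hRQ n, ?_, ?_, ?_⟩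
  · intro u x
    rw [hRR, srl_c_top hn0]
  · intro x v hv u
    have key : ∀ j, R j (u, x) *ᵥ v = v := by
      intro j
      induction j with
      | zero => rw [hR0, one_mulVec]
      | succ j ih =>
        have h1 : N j (u, x) *ᵥ v = v := by
          rw [hN]
          change ((M (srl_c n j u, x))⁻¹ * M (srl_c n (j + 1) u, x)) *ᵥ v = v
          rw [← mulVec_mulVec, hv, ← hv (srl_c n j u), mulVec_mulVec,
            Matrix.nonsing_inv_mul _ (hdet _), one_mulVec]
        rw [hRs, ← mulVec_mulVec, (hsq _ (hNU j (u, x))).2.2.2.2 v h1, ih]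
    exact key n
  · intro x hx u
    have key : ∀ j, R j (u, x) = 1 := by
      intro j
      induction j with
      | zero => exact hR0 _
      | succ j ih =>
        have h1 : N j (u, x) = 1 := by
          rw [hN]
          change (M (srl_c n j u, x))⁻¹ * M (srl_c n (j + 1) u, x) = 1
          rw [hx, hx (srl_c n (j + 1) u), Matrix.nonsing_inv_mul _ (hdet _)]
        rw [hRs, ih, h1, hsq1, mul_one]
    exact key n
  · intro x hx u
    have hsym : ∀ v, (R n (v, x))ᵀ = R n (v, x) := by
      intro v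
      have h1 := hRQ n x 1 (fun w => by rw [mul_one, one_mul]; exact hx w) v
      rwa [mul_one, one_mul] at h1
    refine srl_posDef (f := fun v => R n (v, x)) ((hRcont n).comp (by fun_prop))
      (fun v => hRunit n _) hsym ?_ u
    change (R n (0, x)).PosDef
    rw [hRzero]
    exact Matrix.PosDef.one

end DT
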