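import Pool.Agent.H78.DT.Bott0
import Pool.Agent.H78.DT.Srl

/-!
# Retraction of `SymX` onto `Grad`, and polar decomposition (job DT-SGN)

(1) `exists_sign`: PROOF. Apply `sqrt_lift` to `M (u, x) = (1-u) S(x)² + u • 1`.  It is positive
definite (`S(x)` symmetric invertible, so `S²` is positive definite; `S² = Sᵀ S`), in particular
invertible, and symmetric; the `M (u, x)` commute for fixed `x`.  `M (0, x) = S²`, `M (1, x) = 1`.
Put `H (u, x) = S(x) R(u, x)`.  `R` commutes with `S` (property with `Y = S`) and is symmetric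
(`Q = 1`), so `H` is symmetric: `(S R)ᵀ = R S = S R`.  `S e_i = - e_i S` implies that `e_i`
commutes with `S²`, hence with all `M`, hence with `R`; so `H` anticommutes with `e_i`.
`H² = S² R² = M (u, x)`, so `H` is a unit and `H (1, x)² = 1`.  If `S(x)² = 1` then `M = 1`
for all `u` and `R = 1`, so `H (u, x) = S(x)`.

(2) `exists_polar`: PROOF. Apply `sqrt_lift` to `M (u, x) = (1-u) C(x)ᵀC(x) + u • 1`, positive
definite; `M (0, x) = CᵀC =: Q`, `R (u, x)² = Q⁻¹ M (u, x)`, `R` symmetric, commutes with `Q`.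
`H (u, x) = C(x) R (u, x)` is invertible, `H (0, x) = C(x)`, and
`H(1)ᵀ H(1) = R Q R = Q R² = 1`.  If `CᵀC = 1` then `M = 1`, `R = 1`.  If `C v = v` and `Cᵀ v = v`
then `Q v = v`, `M (u, x) v = v = M (0, x) v`, so `R v = v`, `H v = C R v = v`, and
`Hᵀ v = R Cᵀ v = v`.
-/

open Matrix Set unitInterval Topology

noncomputable section

namespace DT

variable {ε ι X : Type} [Fintype ι] [DecidableEq ι] [TopologicalSpace X] [CompactSpace X]

omit [DecidableEq ι] in
theorem Sgn_posDef_tt (C : Matrix ι ι ℝ) [DecidableEq ι] (hC : IsUnit C) : (Cᵀ * C).PosDef := by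
  have h := PosDef.conjTranspose_mul_self C (mulVec_injective_of_isUnit hC)
  rwa [conjTranspose_eq_transpose_of_trivial] at h

theorem Sgn_posDef_seg (Q : Matrix ι ι ℝ) (hQ : Q.PosDef) (u : I) :
    ((1 - (u : ℝ)) • Q + (u : ℝ) • (1 : Matrix ι ι ℝ)).PosDef := by
  have h0 := u.2.1
  have h1 := u.2.2
  refine PosDef.of_dotProduct_mulVec_pos ?_ ?_
  · have hq : Qᴴ = Q := hQ.1
    unfold IsHermitian
    rw [conjTranspose_add, conjTranspose_smul, conjTranspose_smul, hq, conjTranspose_one]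
    simp
  · intro x hx
    have a1 : 0 < star x ⬝ᵥ (Q *ᵥ x) := hQ.dotProduct_mulVec_pos hx
    have a2 : 0 < star x ⬝ᵥ ((1 : Matrix ι ι ℝ) *ᵥ x) :=
      (PosDef.one (n := ι) (R := ℝ)).dotProduct_mulVec_pos hx
    rw [add_mulVec, dotProduct_add, smul_mulVec, smul_mulVec, dotProduct_smul, dotProduct_smul,
      smul_eq_mul, smul_eq_mul]
    rcases eq_or_lt_of_le h0 with h | h
    · rw [← h]; simpa using a1
    · have : 0 ≤ (1 - (u : ℝ)) * (star x ⬝ᵥ (Q *ᵥ x)) := mul_nonneg (by linarith) a1.le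
      have := mul_pos h a2
      linarith

/-- The common part: the path `M (u, x) = (1-u) Q(x) + u`. -/
theorem Sgn_lift (Q : X → Matrix ι ι ℝ) (hQc : Continuous Q) (hQ : ∀ x, (Q x).PosDef) :
    ∃ R : I × X → Matrix ι ι ℝ, Continuous R ∧ (∀ x, R (0, x) = 1) ∧ (∀ p, IsUnit (R p)) ∧
      (∀ p, (R p)ᵀ = R p) ∧
      (∀ x, Q x * (R (1, x) * R (1, x)) = 1) ∧
      (∀ x (Y : Matrix ι ι ℝ), Y * Q x = Q x * Y → ∀ u, Y * R (u, x) = R (u, x) * Y) ∧
      (∀ x (v : ι → ℝ), Q x *ᵥ v = v → ∀ u, R (u, x) *ᵥ v = v) ∧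
      (∀ x, Q x = 1 → ∀ u, R (u, x) = 1) := by
  have hQt : ∀ x, (Q x)ᵀ = Q x := fun x => by
    have h : (Q x)ᴴ = Q x := (hQ x).1
    rwa [conjTranspose_eq_transpose_of_trivial] at h
  obtain ⟨R, hR, hR0, hRU, hRsq, hRcomm, hRsym, hRvec, hRone, -⟩ :=
    sqrt_lift (fun p : I × X => (1 - (p.1 : ℝ)) • Q p.2 + (p.1 : ℝ) • (1 : Matrix ι ι ℝ))
      (by
        have h1 : Continuous fun p : I × X => Q p.2 := hQc.comp continuous_snd
        have h2 : Continuous fun p : I × X => (p.1 : ℝ) := by fun_prop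
        exact ((continuous_const.sub h2).smul h1).add (h2.smul continuous_const))
      (fun p => (Sgn_posDef_seg (Q p.2) (hQ p.2) p.1).isUnit)
      (fun u v x => by
        simp only [add_mul, mul_add, smul_mul_assoc, mul_smul_comm, one_mul, mul_one, smul_smul,
          smul_add]
        module)
  refine ⟨R, hR, hR0, hRU, ?_, ?_, ?_, ?_, ?_⟩
  · rintro ⟨u, x⟩
    have h := hRsym x 1 (fun u => by
      rw [mul_one, one_mul, transpose_add, transpose_smul, transpose_smul, transpose_one, hQt]) u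
    rwa [mul_one, one_mul] at h
  · intro x
    have h := hRsq 1 x
    simpa using h
  · intro x Y hY u
    refine hRcomm x Y (fun u => ?_) u
    simp only [add_mul, mul_add, smul_mul_assoc, mul_smul_comm, one_mul, mul_one, hY]
  · intro x v hv u
    refine hRvec x v (fun u => ?_) u
    simp only [add_mulVec, smul_mulVec, hv, one_mulVec]
    simp
    module
  · intro x hx u
    refine hRone x (fun u => ?_) u
    simp only [hx]
    simp
    module

theorem exists_sign (e : ε → Matrix ι ι ℝ) (S : X → Matrix ι ι ℝ) (hS : Continuous S)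
    (hX : ∀ x, S x ∈ SymX e) :
    ∃ H : I × X → Matrix ι ι ℝ, Continuous H ∧ (∀ x, H (0, x) = S x) ∧
      (∀ p, H p ∈ SymX e) ∧ (∀ x, H (1, x) ∈ Grad e) ∧
      ∀ x, S x ∈ Grad e → ∀ u, H (u, x) = S x := by
  have hSt : ∀ x, (S x)ᵀ = S x := fun x => (hX x).1.1
  have hSe : ∀ x i, S x * e i = -(e i * S x) := fun x => (hX x).1.2
  have hSU : ∀ x, IsUnit (S x) := fun x => (hX x).2
  obtain ⟨R, hR, hR0, hRU, hRt, hR1, hRcomm, hRvec, hRone⟩ :=
    Sgn_lift (fun x => S x * S x) (hS.matrix_mul hS) (fun x => by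
      have h := Sgn_posDef_tt (S x) (hSU x)
      rwa [hSt] at h)
  have hSR : ∀ u x, S x * R (u, x) = R (u, x) * S x := fun u x =>
    hRcomm x (S x) (by simp only [Matrix.mul_assoc]) u
  have heR : ∀ u x i, e i * R (u, x) = R (u, x) * e i := fun u x i => by
    refine hRcomm x (e i) ?_ u
    have h1 : e i * S x = -(S x * e i) := by rw [hSe, neg_neg]
    calc e i * (S x * S x) = (e i * S x) * S x := (Matrix.mul_assoc _ _ _).symm
      _ = -(S x * (e i * S x)) := by
        rw [show e i * S x * S x = -(S x * e i) * S x by rw [← h1], neg_mul, Matrix.mul_assoc]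
      _ = S x * (S x * e i) := by rw [h1, mul_neg, neg_neg]
      _ = (S x * S x) * e i := (Matrix.mul_assoc _ _ _).symm
  have hL : ∀ u x, S x * R (u, x) ∈ SymL e := fun u x => by
    refine ⟨?_, fun i => ?_⟩
    · rw [transpose_mul, hRt, hSt, hSR]
    · rw [Matrix.mul_assoc, ← heR, ← Matrix.mul_assoc, hSe, neg_mul, Matrix.mul_assoc]
  refine ⟨fun p => S p.2 * R p, (hS.comp continuous_snd).matrix_mul hR, ?_, ?_, ?_, ?_⟩
  · intro x
    simp only [hR0, mul_one]
  · rintro ⟨u, x⟩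
    exact ⟨hL u x, (hSU x).mul (hRU _)⟩
  · intro x
    refine ⟨hL 1 x, ?_⟩
    have h := hR1 x
    calc S x * R (1, x) * (S x * R (1, x)) = S x * (R (1, x) * S x) * R (1, x) := by
          simp only [Matrix.mul_assoc]
      _ = S x * (S x * R (1, x)) * R (1, x) := by rw [hSR]
      _ = S x * S x * (R (1, x) * R (1, x)) := by simp only [Matrix.mul_assoc]
      _ = 1 := h
  · intro x hx u
    have h := hRone x hx.2 u
    simp only [h, mul_one]

theorem exists_polar (C : X → Matrix ι ι ℝ) (hC : Continuous C) (hU : ∀ x, IsUnit (C x)) :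
    ∃ H : I × X → Matrix ι ι ℝ, Continuous H ∧ (∀ x, H (0, x) = C x) ∧
      (∀ p, IsUnit (H p)) ∧ (∀ x, (H (1, x))ᵀ * H (1, x) = 1) ∧
      (∀ x, (C x)ᵀ * C x = 1 → ∀ u, H (u, x) = C x) ∧
      ∀ x (v : ι → ℝ), C x *ᵥ v = v → (C x)ᵀ *ᵥ v = v →
        ∀ u, H (u, x) *ᵥ v = v ∧ (H (u, x))ᵀ *ᵥ v = v := by
  obtain ⟨R, hR, hR0, hRU, hRt, hR1, hRcomm, hRvec, hRone⟩ :=
    Sgn_lift (fun x => (C x)ᵀ * C x) (hC.matrix_transpose.matrix_mul hC)
      (fun x => Sgn_posDef_tt (C x) (hU x))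
  refine ⟨fun p => C p.2 * R p, (hC.comp continuous_snd).matrix_mul hR, ?_, ?_, ?_, ?_, ?_⟩
  · intro x
    simp only [hR0, mul_one]
  · rintro ⟨u, x⟩
    exact (hU x).mul (hRU _)
  · intro x
    have h := hR1 x
    have hc : (C x)ᵀ * C x * R (1, x) = R (1, x) * ((C x)ᵀ * C x) := hRcomm x _ rfl 1
    calc (C x * R (1, x))ᵀ * (C x * R (1, x))
        = (R (1, x) * ((C x)ᵀ * C x)) * R (1, x) := by
          rw [transpose_mul, hRt]; simp only [Matrix.mul_assoc]
      _ = (C x)ᵀ * C x * (R (1, x) * R (1, x)) := by rw [← hc]; simp only [Matrix.mul_assoc]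
      _ = 1 := h
  · intro x hx u
    have h := hRone x hx u
    simp only [h, mul_one]
  · intro x v hv hv' u
    have h : R (u, x) *ᵥ v = v := hRvec x v (by rw [← mulVec_mulVec, hv, hv']) u
    refine ⟨?_, ?_⟩
    · show (C x * R (u, x)) *ᵥ v = v
      rw [← mulVec_mulVec, h, hv]
    · show (C x * R (u, x))ᵀ *ᵥ v = v
      rw [transpose_mul, ← mulVec_mulVec, hv', hRt, h]

end DT
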