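import Pool.Agent.H78.DT.Basic
import Pool.Agent.H78.DT.Sgn

/-!
# Connectedness of `GL⁺` and `SO`, retraction of homotopies (job DT-GLPATH)

(1) `glp_path`: a real matrix with positive determinant can be joined to `1` by a path of
matrices with positive determinant.
PROOF. `Matrix.Pivot.exists_list_transvec_mul_diagonal_mul_list_transvec`:
`M = L₁ ⋯ L_a D L'₁ ⋯ L'_b` with transvections `L` and `D` diagonal, `det D = det M > 0`.  Scaling
the off-diagonal entry of every transvection joins `M` to `D` with constant determinant.  Scaling
the absolute values joins `D` to a diagonal matrix with entries `±1` and product `1`; the number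
of `-1` is even; pair them: for two indices `i ≠ j`, the matrix `diag(-1,-1)` on `{i, j}` is
`exp(πJ)`, joined to `1` by rotations in the `(i, j)` plane.  (Induct on the number of `-1`: if
`d i = d j = -1`, `i ≠ j`, then `D = D' * Rot_{ij}(π)`, `D'` has two fewer `-1`.)
(2) `so_path`: the same for `SOs`: take the path of (1) and apply `exists_polar` (`X = I`) to it:
`C (t)` path from `M` to `1` in `GLp`; `H (1, t)` is orthogonal, `H (1, t) = C (t)` for `t = 0, 1`
(both orthogonal).  Its determinant is `±1`, continuous in `t` on the connected `I`, `1` at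
`t = 1`.
(3) `retract`: if `X` is compact and `f, g : X → SOs` are homotopic through matrices of positive
determinant, they are homotopic through `SOs`.  PROOF. Apply `exists_polar` on `I × X` to the
homotopy `C`; `H (1, ·)` is orthogonal and equal to `C` at the ends; its determinant is `±1` and
positive: `det H (u, p)` never vanishes and is `det C > 0` at `u = 0`, so positive for all `u`.
(4) `hin_const`: two constant maps `X → SOs` are homotopic.
-/

open Matrix Set unitInterval Topology

noncomputable section

namespace DT

variable {ι X : Type} [Fintype ι] [DecidableEq ι] [TopologicalSpace X]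

/-- `M` can be joined to `1` in `GLp` -/
private def GlPathP (M : Matrix ι ι ℝ) : Prop :=
  ∃ γ : I → Matrix ι ι ℝ, Continuous γ ∧ γ 0 = M ∧ γ 1 = 1 ∧ ∀ t, γ t ∈ GLp ι

private theorem GlPath_mul {A B : Matrix ι ι ℝ} (hA : GlPathP A) (hB : GlPathP B) :
    GlPathP (A * B) := by
  obtain ⟨γ, hc, h0, h1, hp⟩ := hA
  obtain ⟨γ', hc', h0', h1', hp'⟩ := hB
  refine ⟨fun t => γ t * γ' t, hc.matrix_mul hc', by beta_reduce; rw [h0, h0'],
    by beta_reduce; rw [h1, h1', mul_one], fun t => ?_⟩
  change 0 < (γ t * γ' t).det
  rw [det_mul]
  exact mul_pos (hp t) (hp' t)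

private theorem GlPath_transv {i j : ι} (h : i ≠ j) (c : ℝ) :
    GlPathP (transvection i j c) := by
  refine ⟨fun t => transvection i j ((1 - (t : ℝ)) * c), ?_, by simp, by simp, fun t => ?_⟩
  · unfold transvection
    refine continuous_const.add (continuous_matrix fun a b => ?_)
    by_cases hab : i = a ∧ j = b
    · obtain ⟨rfl, rfl⟩ := hab
      simp only [single_apply_same]
      fun_prop
    · have : ∀ t : I, single i j ((1 - (t : ℝ)) * c) a b = 0 := fun t => by
        rw [single_apply, if_neg hab]
      simp_rw [this]
      exact continuous_const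
  · change 0 < (transvection i j ((1 - (t : ℝ)) * c)).det
    rw [det_transvection_of_ne i j h]
    exact one_pos

private theorem GlPath_pos {D : ι → ℝ} (h : ∀ i, 0 < D i) : GlPathP (diagonal D) := by
  refine ⟨fun t => diagonal fun i => (1 - (t : ℝ)) * D i + t, ?_, by simp, by simp, fun t => ?_⟩
  · refine Continuous.matrix_diagonal (continuous_pi fun i => ?_)
    fun_prop
  · change 0 < (diagonal fun i => (1 - (t : ℝ)) * D i + t).det
    rw [det_diagonal]
    refine Finset.prod_pos fun i _ => ?_
    have h0 := t.2.1
    have h1 := t.2.2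
    have h2 := h i
    rcases eq_or_lt_of_le h0 with h3 | h3
    · rw [← h3]
      simpa using h2
    · have : 0 ≤ (1 - (t : ℝ)) * D i := mul_nonneg (by linarith) h2.le
      linarith

private theorem GlPath_neg {i j : ι} (h : i ≠ j) :
    GlPathP (diagonal fun k : ι => if k = i ∨ k = j then (-1 : ℝ) else 1) := by
  have h1 : GlPathP (transvection i j (1 : ℝ) * transvection j i (-1) * transvection i j 1) :=
    GlPath_mul (GlPath_mul (GlPath_transv h _) (GlPath_transv h.symm _)) (GlPath_transv h _)
  have h2 := GlPath_mul h1 h1
  have e1 : transvection i j (1 : ℝ) * transvection j i (-1) * transvection i j 1 =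
      1 - single i i 1 - single j j 1 + single i j 1 - single j i 1 := by
    unfold transvection
    have e0 : single j i (-1 : ℝ) = -single j i 1 := by
      ext a b
      rw [Matrix.neg_apply, single_apply, single_apply]
      split_ifs <;> simp
    have a1 : single i j (1 : ℝ) * single j i 1 = single i i 1 := by simp
    have a2 : single j i (1 : ℝ) * single i j 1 = single j j 1 := by simp
    have a3 : single i j (1 : ℝ) * single i j 1 = 0 := by simp [h.symm]
    have a4 : single i i (1 : ℝ) * single i j 1 = single i j 1 := by simp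
    rw [e0]
    calc (1 + single i j 1) * (1 + -single j i 1) * (1 + single i j (1 : ℝ))
        = 1 + single i j 1 + single i j 1 + single i j 1 * single i j 1 - single j i 1 -
          single j i 1 * single i j 1 - single i j 1 * single j i 1 -
          (single i j 1 * single j i 1) * single i j 1 := by noncomm_ring
      _ = _ := by
        rw [a1, a2, a3, a4]
        abel
  have e2 : (1 - single i i 1 - single j j 1 + single i j 1 - single j i 1) *
      (1 - single i i 1 - single j j 1 + single i j 1 - single j i (1 : ℝ)) =
      diagonal fun k : ι => if k = i ∨ k = j then (-1 : ℝ) else 1 := by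
    have b1 : single i i (1 : ℝ) * single i i 1 = single i i 1 := by simp
    have b2 : single j j (1 : ℝ) * single j j 1 = single j j 1 := by simp
    have b3 : single i i (1 : ℝ) * single j j 1 = 0 := by simp [h]
    have b4 : single j j (1 : ℝ) * single i i 1 = 0 := by simp [h.symm]
    have b5 : single i i (1 : ℝ) * single i j 1 = single i j 1 := by simp
    have b6 : single i j (1 : ℝ) * single i i 1 = 0 := by simp [h.symm]
    have b7 : single j j (1 : ℝ) * single i j 1 = 0 := by simp [h.symm]
    have b8 : single i j (1 : ℝ) * single j j 1 = single i j 1 := by simp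
    have b9 : single i i (1 : ℝ) * single j i 1 = 0 := by simp [h]
    have c1 : single j i (1 : ℝ) * single i i 1 = single j i 1 := by simp
    have c2 : single j j (1 : ℝ) * single j i 1 = single j i 1 := by simp
    have c3 : single j i (1 : ℝ) * single j j 1 = 0 := by simp [h]
    have c4 : single i j (1 : ℝ) * single j i 1 = single i i 1 := by simp
    have c5 : single j i (1 : ℝ) * single i j 1 = single j j 1 := by simp
    have c6 : single i j (1 : ℝ) * single i j 1 = 0 := by simp [h.symm]
    have c7 : single j i (1 : ℝ) * single j i 1 = 0 := by simp [h]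
    simp only [mul_add, add_mul, mul_sub, sub_mul, mul_one, one_mul, b1, b2, b3, b4, b5, b6, b7,
      b8, b9, c1, c2, c3, c4, c5, c6, c7]
    ext a b
    simp only [Matrix.add_apply, Matrix.sub_apply, Matrix.zero_apply, one_apply, single_apply,
      diagonal_apply]
    by_cases hab : a = b
    · subst hab
      by_cases hai : a = i
      · subst hai
        simp [h, h.symm]
        try norm_num
      · by_cases haj : a = j
        · subst haj
          simp [h, h.symm]
          try norm_num
        · have hai' : ¬ i = a := fun h => hai h.symm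
          have haj' : ¬ j = a := fun h => haj h.symm
          simp [hai, haj, hai', haj']
    · by_cases hai : i = a
      · subst hai
        by_cases hbj : j = b
        · subst hbj
          simp [h, h.symm]
        · simp [hab, hbj, h.symm]
      · by_cases haj : j = a
        · subst haj
          by_cases hbi : i = b
          · subst hbi
            simp [h, h.symm]
          · simp [hab, hbi, h]
        · simp [hab, hai, haj]
  rw [e1, e2] at h2
  exact h2

private theorem GlPath_diag (n : ℕ) : ∀ D : ι → ℝ, (Finset.univ.filter fun i => D i < 0).card = n →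
    0 < ∏ i, D i → GlPathP (diagonal D) := by
  induction n using Nat.strong_induction_on with
  | _ n ih =>
    intro D hn hD
    have hne : ∀ i, D i ≠ 0 := fun i h => by
      rw [Finset.prod_eq_zero (Finset.mem_univ i) h] at hD
      exact lt_irrefl _ hD
    by_cases hneg : ∃ i, D i < 0
    · obtain ⟨i, hi⟩ := hneg
      have h2 : ∃ j, j ≠ i ∧ D j < 0 := by
        by_contra hcon
        push Not at hcon
        rw [← Finset.mul_prod_erase Finset.univ D (Finset.mem_univ i)] at hD
        have : 0 ≤ ∏ x ∈ Finset.univ.erase i, D x :=
          Finset.prod_nonneg fun j hj => hcon j (Finset.ne_of_mem_erase hj)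
        nlinarith
      obtain ⟨j, hji, hj⟩ := h2
      let N : ι → ℝ := fun k => if k = i ∨ k = j then (-1 : ℝ) else 1
      have hN : ∀ k, N k * N k = 1 := by
        intro k
        simp only [N]
        split_ifs <;> norm_num
      have e1 : diagonal D = diagonal (fun k => D k * N k) * diagonal N := by
        rw [diagonal_mul_diagonal]
        congr 1
        ext k
        rw [mul_assoc, hN, mul_one]
      rw [e1]
      refine GlPath_mul (ih _ ?_ (fun k => D k * N k) rfl ?_) (GlPath_neg hji.symm)
      · rw [← hn]
        refine Finset.card_lt_card ?_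
        rw [Finset.ssubset_iff_of_subset]
        · refine ⟨i, by simpa using hi, ?_⟩
          simp only [Finset.mem_filter, Finset.mem_univ, true_and, not_lt]
          simp only [N, true_or, if_true]
          linarith
        · intro k hk
          simp only [Finset.mem_filter, Finset.mem_univ, true_and] at hk ⊢
          by_cases hki : k = i ∨ k = j
          · rcases hki with rfl | rfl
            · exact hi
            · exact hj
          · simp only [N, if_neg hki, mul_one] at hk
            exact hk
      · rw [Finset.prod_mul_distrib]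
        have : ∏ k, N k = 1 := by
          rw [← Finset.mul_prod_erase Finset.univ N (Finset.mem_univ i),
            ← Finset.mul_prod_erase (Finset.univ.erase i) N
              (Finset.mem_erase.2 ⟨hji, Finset.mem_univ j⟩)]
          have h3 : ∏ x ∈ (Finset.univ.erase i).erase j, N x = 1 := by
            refine Finset.prod_eq_one fun k hk => ?_
            have hkj := Finset.ne_of_mem_erase hk
            have hki := Finset.ne_of_mem_erase (Finset.mem_of_mem_erase hk)
            simp [N, hkj, hki]
          rw [h3]
          simp [N]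
        rw [this, mul_one]
        exact hD
    · push Not at hneg
      exact GlPath_pos fun i => lt_of_le_of_ne (hneg i) (hne i).symm

theorem glp_path (M : Matrix ι ι ℝ) (hM : M ∈ GLp ι) :
    ∃ γ : I → Matrix ι ι ℝ, Continuous γ ∧ γ 0 = M ∧ γ 1 = 1 ∧ ∀ t, γ t ∈ GLp ι := by
  refine diagonal_transvection_induction GlPathP M ?_ ?_ ?_
  · intro D hD
    refine GlPath_diag _ D rfl ?_
    rw [det_diagonal] at hD
    rw [hD]
    exact hM
  · rintro ⟨i, j, hij, c⟩
    exact GlPath_transv hij c
  · intro A B hA hB
    exact GlPath_mul hA hB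

private theorem GlPath_ivt {f : I → ℝ} (hf : Continuous f) (h : ∀ t, f t ≠ 0) (h0 : 0 < f 0) :
    0 < f 1 := by
  by_contra hcon
  push Not at hcon
  obtain ⟨t, ht⟩ := mem_range_of_exists_le_of_exists_ge hf ⟨1, hcon⟩ ⟨0, h0.le⟩
  exact h t ht

private theorem GlPath_so {H : I → Matrix ι ι ℝ} (hH : Continuous H) (hU : ∀ u, IsUnit (H u))
    (h0 : 0 < (H 0).det) (h1 : (H 1)ᵀ * H 1 = 1) : H 1 ∈ SOs ι := by
  refine ⟨h1, ?_⟩
  have hp : 0 < (H 1).det := GlPath_ivt (f := fun u => (H u).det) hH.matrix_det
    (fun u => ((Matrix.isUnit_iff_isUnit_det _).1 (hU u)).ne_zero) h0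
  have h2 := congrArg Matrix.det h1
  rw [det_mul, det_transpose, det_one] at h2
  nlinarith

theorem so_path (M : Matrix ι ι ℝ) (hM : M ∈ SOs ι) :
    ∃ γ : I → Matrix ι ι ℝ, Continuous γ ∧ γ 0 = M ∧ γ 1 = 1 ∧ ∀ t, γ t ∈ SOs ι := by
  obtain ⟨γ, hc, h0, h1, hp⟩ := glp_path M (by
    change 0 < M.det
    rw [hM.2]
    exact one_pos)
  obtain ⟨H, hH, hH0, hHU, hH1, hHo, -⟩ := exists_polar γ hc (fun t => by
    rw [Matrix.isUnit_iff_isUnit_det, isUnit_iff_ne_zero]
    exact (hp t).ne')
  refine ⟨fun t => H (1, t), hH.comp (by fun_prop), ?_, ?_, fun t => ?_⟩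
  · rw [← h0]
    exact hHo 0 (by rw [h0]; exact hM.1) 1
  · rw [← h1]
    exact hHo 1 (by rw [h1]; simp) 1
  · refine GlPath_so (H := fun u => H (u, t)) (hH.comp (by fun_prop)) (fun u => hHU _) ?_ (hH1 t)
    rw [hH0]
    exact hp t

theorem retract [CompactSpace X] (f g : X → Matrix ι ι ℝ) (hf : ∀ x, f x ∈ SOs ι)
    (hg : ∀ x, g x ∈ SOs ι) (h : HIn (GLp ι) f g) : HIn (SOs ι) f g := by
  obtain ⟨C, hC, hCp, hC0, hC1⟩ := h
  obtain ⟨H, hH, hH0, hHU, hH1, hHo, -⟩ := exists_polar (X := I × X) C hC (fun p => by
    rw [Matrix.isUnit_iff_isUnit_det, isUnit_iff_ne_zero]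
    exact (hCp p.1 p.2).ne')
  refine ⟨fun p => H (1, p), hH.comp (by fun_prop), fun u x => ?_, fun x => ?_, fun x => ?_⟩
  · refine GlPath_so (H := fun v => H (v, (u, x))) (hH.comp (by fun_prop)) (fun v => hHU _) ?_
      (hH1 (u, x))
    rw [hH0]
    exact hCp u x
  · rw [← hC0 x]
    exact hHo (0, x) (by rw [hC0]; exact (hf x).1) 1
  · rw [← hC1 x]
    exact hHo (1, x) (by rw [hC1]; exact (hg x).1) 1

theorem hin_const (M : Matrix ι ι ℝ) (hM : M ∈ SOs ι) :
    HIn (SOs ι) (fun _ : X => M) (fun _ => 1) := by
  obtain ⟨γ, hc, h0, h1, hp⟩ := so_path M hM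
  exact ⟨fun p => γ p.1, hc.comp continuous_fst, fun u _ => hp u, fun _ => h0, fun _ => h1⟩

end DT
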