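import Pool.Agent.H78.DT.StHDef
import Pool.Agent.H78.DT.GlPath

/-!
# Products of Clifford generators; the case `n = 2 mod 4` (job DT-CLPROD)

(1) `clprod`: PROOF by induction on `n`, `ω_{n+1} = ω_n * J_n` (last generator), with
`s_n = (-1)^(n(n+1)/2)`: `ω_{n+1}² = ω_n J_n ω_n J_n = (-1)^n ω_n² J_n² = (-1)^{n+1} s_n` and
`s_{n+1} = s_n (-1)^{n+1}`; `ω_{n+1}ᵀ = J_nᵀ ω_nᵀ = -s_n J_n ω_n = -s_n (-1)^n ω_n J_n`;
`ω_{n+1} J_i = (-1)^n J_i ω_{n+1}` for `i ≤ n` (for `i < n`: `ω_n J_n J_i = -ω_n J_i J_n =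
-(-1)^{n-1} J_i ω_n J_n`; for `i = n`: `ω_n J_n J_n = (-1)^n J_n ω_n J_n`), using
'`Z` anticommutes with `J_0..J_{n-1}` implies `Z ω_n = (-1)^n ω_n Z`'.
(2) `clJ_mem`: `clJ J v` for `v ∈ US` is in `SOs`: `clJᵀ clJ = (v₀² + ∑ vᵢ²) = 1` (cross terms
cancel), so the determinant is `±1`; the sphere `Sp n` is path connected for `n ≥ 1` (join `v` to
`(1,0,..,0)` on the sphere), the determinant is continuous, and `clJ J (1,0,..) = 1`.
(3) `case2`: `n = 2 mod 4` (so `n ≥ 2`): `ω` of (1) has `ωᵀ = -ω`, `ω² = -1` (`s_n = -1`),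
anticommutes with all `J_i` (`(-1)^{n-1} = -1`).  `N_u(v) = (1-u) clJ J v + u ω` satisfies
`NᵀN = ((1-u)² + u²) 1` (cross terms: `clJᵀ ω + ωᵀ clJ = v₀ω - ∑vᵢJᵢω - v₀ω - ∑vᵢωJᵢ = 0`).
Divide by `√((1-u)² + u²)`: a homotopy through orthogonal matrices from `clJ J` to `ω`; the
determinant is `1` (connectedness in `u`).  `ω ∈ SOs` and by `hin_const` it is homotopic to `1`.
-/

open Matrix Set unitInterval Topology

set_option linter.unusedSectionVars false

noncomputable section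

namespace DT

variable {ι : Type} [Fintype ι] [DecidableEq ι]

theorem ClProd_exp (n : ℕ) : (n + 1) * (n + 1 + 1) / 2 = n * (n + 1) / 2 + (n + 1) := by
  have h : (n + 1) * (n + 1 + 1) = n * (n + 1) + 2 * (n + 1) := by ring
  rw [h, Nat.add_mul_div_left _ _ (by norm_num : 0 < 2)]

theorem clprod (n : ℕ) (J : Fin n → Matrix ι ι ℝ) (hJ : CliffJ J) :
    ∃ ω : Matrix ι ι ℝ, ωᵀ = ((-1 : ℝ) ^ (n * (n + 1) / 2)) • ω ∧
      ω * ω = ((-1 : ℝ) ^ (n * (n + 1) / 2)) • 1 ∧
      (∀ i, ω * J i = ((-1 : ℝ) ^ (n + 1)) • (J i * ω)) ∧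
      (∀ Z : Matrix ι ι ℝ, (∀ i, Z * J i = -(J i * Z)) → Z * ω = ((-1 : ℝ) ^ n) • (ω * Z)) ∧
      (∀ Z : Matrix ι ι ℝ, (∀ i, Z * J i = J i * Z) → Z * ω = ω * Z) := by
  induction n with
  | zero =>
    refine ⟨1, by simp, by simp, fun i => i.elim0, fun Z _ => by simp, fun Z _ => by simp⟩
  | succ n ih =>
    have hJ' : CliffJ (fun i : Fin n => J i.castSucc) :=
      ⟨fun i => hJ.1 _, fun i j hij => hJ.2 _ _ (fun h => hij (Fin.castSucc_injective n h))⟩
    obtain ⟨w, h1, h2, h3, h4, h5⟩ := ih _ hJ'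
    set K := J (Fin.last n) with hK
    have hKK : K * K = -1 := (hJ.1 _).2
    have hKT : Kᵀ = -K := (hJ.1 _).1
    have hne : ∀ i : Fin n, i.castSucc ≠ Fin.last n := fun i => (Fin.castSucc_lt_last i).ne
    have hKw : K * w = ((-1 : ℝ) ^ n) • (w * K) :=
      h4 K (fun i => hJ.2 _ _ (hne i).symm)
    rw [ClProd_exp]
    have hs : ((-1 : ℝ) ^ n) * (-1) ^ n = 1 := by rw [← mul_pow]; norm_num
    refine ⟨w * K, ?_, ?_, ?_, ?_, ?_⟩
    · rw [transpose_mul, h1, hKT, mul_smul_comm, neg_mul, hKw, pow_add, pow_succ, smul_neg,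
        smul_smul, mul_neg_one, mul_neg, neg_smul]
    · calc w * K * (w * K) = w * (K * w) * K := by simp only [Matrix.mul_assoc]
        _ = w * (((-1 : ℝ) ^ n) • (w * K)) * K := by rw [hKw]
        _ = ((-1 : ℝ) ^ n) • ((w * w) * (K * K)) := by
            rw [mul_smul_comm, smul_mul_assoc]
            simp only [Matrix.mul_assoc]
        _ = _ := by
            rw [h2, hKK, smul_mul_assoc, one_mul, smul_smul, smul_neg, pow_add, pow_succ,
              ← neg_smul]
            congr 1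
            ring
    · intro i
      refine Fin.lastCases ?_ (fun j => ?_) i
      · rw [← hK]
        calc w * K * K = ((-1 : ℝ) ^ n * (-1) ^ n) • (w * K * K) := by rw [hs, one_smul]
          _ = ((-1 : ℝ) ^ n) • ((((-1 : ℝ) ^ n) • (w * K)) * K) := by
              rw [smul_mul_assoc, smul_smul]
          _ = ((-1 : ℝ) ^ n) • (K * (w * K)) := by rw [← hKw, Matrix.mul_assoc]
          _ = _ := by
              congr 1
              ring
      · have e1 : K * J j.castSucc = -(J j.castSucc * K) := hJ.2 _ _ (hne j).symm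
        calc w * K * J j.castSucc = w * (K * J j.castSucc) := Matrix.mul_assoc _ _ _
          _ = -(w * J j.castSucc * K) := by rw [e1, mul_neg, Matrix.mul_assoc]
          _ = -((((-1 : ℝ) ^ (n + 1)) • (J j.castSucc * w)) * K) := by rw [← h3 j]
          _ = _ := by
              rw [smul_mul_assoc, Matrix.mul_assoc, ← neg_smul]
              congr 1
              ring
    · intro Z hZ
      calc Z * (w * K) = (Z * w) * K := (Matrix.mul_assoc _ _ _).symm
        _ = (((-1 : ℝ) ^ n) • (w * Z)) * K := by rw [h4 Z (fun i => hZ _)]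
        _ = ((-1 : ℝ) ^ n) • (w * (Z * K)) := by rw [smul_mul_assoc, Matrix.mul_assoc]
        _ = ((-1 : ℝ) ^ n) • (w * (-(K * Z))) := by rw [hZ (Fin.last n)]
        _ = _ := by
            rw [mul_neg, smul_neg, ← neg_smul, Matrix.mul_assoc]
            congr 1
            ring
    · intro Z hZ
      calc Z * (w * K) = (Z * w) * K := (Matrix.mul_assoc _ _ _).symm
        _ = (w * Z) * K := by rw [h5 Z (fun i => hZ _)]
        _ = w * (Z * K) := Matrix.mul_assoc _ _ _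
        _ = w * (K * Z) := by rw [hZ (Fin.last n)]
        _ = _ := (Matrix.mul_assoc _ _ _).symm

theorem ClProd_ivt {f : ℝ → ℝ} (hf : Continuous f) (h : ∀ t, f t * f t = 1) (h0 : f 0 = 1)
    (t : ℝ) : f t = 1 := by
  rcases mul_self_eq_one_iff.1 (h t) with h1 | h1
  · exact h1
  · exfalso
    obtain ⟨s, hs⟩ := mem_range_of_exists_le_of_exists_ge hf (c := 0)
      ⟨t, by rw [h1]; norm_num⟩ ⟨0, by rw [h0]; norm_num⟩
    have := h s
    rw [hs] at this
    norm_num at this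

theorem ClProd_orth {A B : Matrix ι ι ℝ} (hA : Aᵀ * A = 1) (hB : Bᵀ * B = 1)
    (hAB : Aᵀ * B + Bᵀ * A = 0) (c s : ℝ) (hcs : c ^ 2 + s ^ 2 = 1) :
    (c • A + s • B)ᵀ * (c • A + s • B) = 1 := by
  have e : (c • A + s • B)ᵀ * (c • A + s • B) =
      (c ^ 2) • (Aᵀ * A) + (c * s) • (Aᵀ * B + Bᵀ * A) + (s ^ 2) • (Bᵀ * B) := by
    rw [transpose_add, transpose_smul, transpose_smul]
    simp only [add_mul, mul_add, smul_mul_assoc, mul_smul_comm, smul_smul, smul_add]
    rw [mul_comm s c, ← sq, ← sq]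
    abel
  rw [e, hA, hB, hAB, smul_zero, add_zero, ← add_smul, hcs, one_smul]

theorem ClProd_rot {A B : Matrix ι ι ℝ} (hA : A ∈ SOs ι) (hB : Bᵀ * B = 1)
    (hAB : Aᵀ * B + Bᵀ * A = 0) (t : ℝ) : Real.cos t • A + Real.sin t • B ∈ SOs ι := by
  have h1 : ∀ t : ℝ, (Real.cos t • A + Real.sin t • B)ᵀ * (Real.cos t • A + Real.sin t • B) = 1 :=
    fun t => ClProd_orth hA.1 hB hAB _ _ (Real.cos_sq_add_sin_sq t)
  refine ⟨h1 t, ?_⟩
  refine ClProd_ivt (f := fun t => (Real.cos t • A + Real.sin t • B).det) ?_ ?_ ?_ t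
  · refine Continuous.matrix_det ?_
    exact (Real.continuous_cos.smul continuous_const).add
      (Real.continuous_sin.smul continuous_const)
  · intro t
    have h2 := congrArg Matrix.det (h1 t)
    rwa [det_mul, det_transpose, det_one] at h2
  · show (Real.cos 0 • A + Real.sin 0 • B).det = 1
    rw [Real.cos_zero, Real.sin_zero, one_smul, zero_smul, add_zero]
    exact hA.2

theorem ClProd_one_mem : (1 : Matrix ι ι ℝ) ∈ SOs ι := ⟨by simp, by simp⟩

theorem ClProd_cpx {U : Matrix ι ι ℝ} (h1 : Uᵀ = -U) (h2 : U * U = -1) :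
    Uᵀ * U = 1 ∧ (1 : Matrix ι ι ℝ)ᵀ * U + Uᵀ * 1 = 0 := by
  constructor
  · rw [h1, neg_mul, h2, neg_neg]
  · rw [transpose_one, one_mul, mul_one, h1, add_neg_cancel]

/-- the imaginary part -/
def ClProdS {n : ℕ} (J : Fin n → Matrix ι ι ℝ) (w : Fin n → ℝ) : Matrix ι ι ℝ :=
  ∑ i, w i • J i

theorem ClProdS_T {n : ℕ} {J : Fin n → Matrix ι ι ℝ} (hJ : CliffJ J) (w : Fin n → ℝ) :
    (ClProdS J w)ᵀ = -ClProdS J w := by
  unfold ClProdS
  rw [transpose_sum, ← Finset.sum_neg_distrib]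
  refine Finset.sum_congr rfl fun i _ => ?_
  rw [transpose_smul, (hJ.1 i).1, smul_neg]

theorem ClProdS_sq {n : ℕ} {J : Fin n → Matrix ι ι ℝ} (hJ : CliffJ J) (w : Fin n → ℝ) :
    ClProdS J w * ClProdS J w = (-∑ i, w i ^ 2) • 1 := by
  have h1 : ClProdS J w * ClProdS J w = ∑ i, ∑ j, (w i * w j) • (J i * J j) := by
    unfold ClProdS
    rw [Finset.sum_mul]
    refine Finset.sum_congr rfl fun i _ => ?_
    rw [Finset.mul_sum]
    refine Finset.sum_congr rfl fun j _ => ?_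
    rw [smul_mul_assoc, mul_smul_comm, smul_smul]
  have h2 : ClProdS J w * ClProdS J w = ∑ i, ∑ j, (w i * w j) • (J j * J i) := by
    rw [h1, Finset.sum_comm]
    refine Finset.sum_congr rfl fun i _ => Finset.sum_congr rfl fun j _ => ?_
    rw [mul_comm]
  have h3 : ClProdS J w * ClProdS J w + ClProdS J w * ClProdS J w =
      (-∑ i, w i ^ 2) • (1 : Matrix ι ι ℝ) + (-∑ i, w i ^ 2) • 1 := by
    nth_rw 1 [h1]
    nth_rw 1 [h2]
    rw [← Finset.sum_add_distrib]
    have h4 : ∀ i, (∑ j, (w i * w j) • (J i * J j) + ∑ j, (w i * w j) • (J j * J i)) =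
        (-(w i ^ 2)) • (1 : Matrix ι ι ℝ) + (-(w i ^ 2)) • 1 := by
      intro i
      rw [← Finset.sum_add_distrib, Finset.sum_eq_single i]
      · rw [(hJ.1 i).2, smul_neg, ← neg_smul, sq]
      · intro j _ hji
        rw [← smul_add, hJ.2 i j hji.symm, neg_add_cancel, smul_zero]
      · intro h
        exact absurd (Finset.mem_univ i) h
    simp only [h4]
    rw [Finset.sum_add_distrib, ← Finset.sum_smul, Finset.sum_neg_distrib]
  have h5 : (2 : ℝ) • (ClProdS J w * ClProdS J w) =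
      (2 : ℝ) • ((-∑ i, w i ^ 2) • (1 : Matrix ι ι ℝ)) := by
    rw [two_smul, two_smul]
    exact h3
  exact smul_right_injective _ (two_ne_zero (α := ℝ)) h5

theorem ClProd_clJ {n : ℕ} (J : Fin n → Matrix ι ι ℝ) (v : Fin (n + 1) → ℝ) :
    clJ J v = v 0 • 1 + ClProdS J (fun i => v i.succ) := rfl

theorem ClProdS_smul {n : ℕ} (J : Fin n → Matrix ι ι ℝ) (c : ℝ) (w : Fin n → ℝ) :
    ClProdS J (fun i => c * w i) = c • ClProdS J w := by
  unfold ClProdS
  rw [Finset.smul_sum]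
  exact Finset.sum_congr rfl fun i _ => (smul_smul _ _ _).symm

theorem clJ_mem (n : ℕ) (hn : 1 ≤ n) (J : Fin n → Matrix ι ι ℝ) (hJ : CliffJ J)
    (v : Fin (n + 1) → ℝ) (hv : v ∈ US (Fin (n + 1))) : clJ J v ∈ SOs ι := by
  have hv1 : v 0 ^ 2 + ∑ i : Fin n, v i.succ ^ 2 = 1 := by
    have h : v ⬝ᵥ v = 1 := hv
    rw [dotProduct, Fin.sum_univ_succ] at h
    simpa only [sq] using h
  have hv0 : -1 ≤ v 0 ∧ v 0 ≤ 1 := by
    have h : v 0 ^ 2 ≤ 1 := by
      have : 0 ≤ ∑ i : Fin n, v i.succ ^ 2 := Finset.sum_nonneg fun i _ => sq_nonneg _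
      linarith
    exact abs_le.1 ((sq_le_one_iff_abs_le_one _).1 h)
  obtain ⟨t, u, hu, hc, hs⟩ : ∃ (t : ℝ) (u : Fin n → ℝ), ∑ i, u i ^ 2 = 1 ∧
      Real.cos t = v 0 ∧ ∀ i, v i.succ = Real.sin t * u i := by
    by_cases h0 : Real.sin (Real.arccos (v 0)) = 0
    · refine ⟨Real.arccos (v 0), Pi.single ⟨0, hn⟩ 1, ?_, Real.cos_arccos hv0.1 hv0.2, ?_⟩
      · rw [Finset.sum_eq_single ⟨0, hn⟩]
        · rw [Pi.single_eq_same, one_pow]
        · intro j _ hj
          rw [Pi.single_eq_of_ne hj]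
          norm_num
        · intro h
          exact absurd (Finset.mem_univ _) h
      · have h2 := Real.sin_sq_add_cos_sq (Real.arccos (v 0))
        rw [h0, Real.cos_arccos hv0.1 hv0.2] at h2
        have h3 : ∑ i : Fin n, v i.succ ^ 2 = 0 := by linarith
        intro i
        have h4 := (Finset.sum_eq_zero_iff_of_nonneg (fun i _ => sq_nonneg (v i.succ))).1 h3 i
          (Finset.mem_univ i)
        rw [h0, zero_mul]
        exact pow_eq_zero_iff (two_ne_zero) |>.1 h4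
    · refine ⟨Real.arccos (v 0), fun i => v i.succ / Real.sin (Real.arccos (v 0)), ?_,
        Real.cos_arccos hv0.1 hv0.2, ?_⟩
      · simp only [div_pow]
        rw [← Finset.sum_div]
        have h2 := Real.sin_sq_add_cos_sq (Real.arccos (v 0))
        rw [Real.cos_arccos hv0.1 hv0.2] at h2
        rw [div_eq_one_iff_eq (pow_ne_zero 2 h0)]
        linarith
      · intro i
        field_simp
  have hU1 : (ClProdS J u)ᵀ = -ClProdS J u := ClProdS_T hJ u
  have hU2 : ClProdS J u * ClProdS J u = -1 := by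
    rw [ClProdS_sq hJ u, hu, neg_smul, one_smul]
  have h := ClProd_rot (ClProd_one_mem (ι := ι)) (ClProd_cpx hU1 hU2).1 (ClProd_cpx hU1 hU2).2 t
  rw [ClProd_clJ, ← hc, show (fun i : Fin n => v i.succ) = fun i => Real.sin t * u i from
    funext hs, ClProdS_smul]
  exact h

theorem ClProd_clJ_cont {n : ℕ} (J : Fin n → Matrix ι ι ℝ) :
    Continuous fun v : Fin (n + 1) → ℝ => clJ J v := by
  unfold clJ
  fun_prop

theorem case2 (n : ℕ) (hn : n % 4 = 2) (J : Fin n → Matrix ι ι ℝ) (hJ : CliffJ J) :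
    HIn (SOs ι) (fun x : Sp n => clJ J x.1) (fun _ => 1) := by
  obtain ⟨k, rfl⟩ : ∃ k, n = 4 * k + 2 := ⟨n / 4, by omega⟩
  obtain ⟨w, h1, h2, h3, -, -⟩ := clprod _ J hJ
  have hs : (-1 : ℝ) ^ ((4 * k + 2) * (4 * k + 2 + 1) / 2) = -1 := by
    have : (4 * k + 2) * (4 * k + 2 + 1) / 2 = 2 * (4 * k * k + 5 * k + 1) + 1 := by
      have : (4 * k + 2) * (4 * k + 2 + 1) = 2 * (2 * (4 * k * k + 5 * k + 1) + 1) := by ring
      rw [this, Nat.mul_div_cancel_left _ (by norm_num : 0 < 2)]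
    rw [this, pow_succ, pow_mul]
    norm_num
  have hs2 : (-1 : ℝ) ^ (4 * k + 2 + 1) = -1 := by
    rw [show 4 * k + 2 + 1 = 2 * (2 * k + 1) + 1 by ring, pow_succ, pow_mul]
    norm_num
  rw [hs, neg_one_smul] at h1 h2
  simp only [hs2, neg_one_smul] at h3
  have hcp := ClProd_cpx h1 h2
  have hwS : ∀ u, w * ClProdS J u = -(ClProdS J u * w) := by
    intro u
    unfold ClProdS
    rw [Finset.mul_sum, Finset.sum_mul, ← Finset.sum_neg_distrib]
    refine Finset.sum_congr rfl fun i _ => ?_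
    rw [mul_smul_comm, smul_mul_assoc, h3 i, smul_neg]
  have hcross : ∀ v : Fin (4 * k + 2 + 1) → ℝ, (clJ J v)ᵀ * w + wᵀ * clJ J v = 0 := by
    intro v
    rw [ClProd_clJ, transpose_add, transpose_smul, transpose_one, ClProdS_T hJ, h1]
    rw [add_mul, mul_add, neg_mul, neg_mul, neg_mul, hwS, smul_mul_assoc, one_mul,
      mul_smul_comm, mul_one]
    abel
  have hH : HIn (SOs ι) (fun x : Sp (4 * k + 2) => clJ J x.1) (fun _ => w) := by
    refine ⟨fun p => Real.cos (Real.pi / 2 * (p.1 : ℝ)) • clJ J p.2.1 +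
      Real.sin (Real.pi / 2 * (p.1 : ℝ)) • w, ?_, ?_, ?_, ?_⟩
    · have hc : Continuous fun p : I × Sp (4 * k + 2) => clJ J p.2.1 :=
        (ClProd_clJ_cont J).comp (continuous_subtype_val.comp continuous_snd)
      have hp : Continuous fun p : I × Sp (4 * k + 2) => Real.pi / 2 * (p.1 : ℝ) :=
        continuous_const.mul (continuous_subtype_val.comp continuous_fst)
      exact ((Real.continuous_cos.comp hp).smul hc).add
        ((Real.continuous_sin.comp hp).smul continuous_const)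
    · intro u x
      exact ClProd_rot (clJ_mem _ (by omega) J hJ x.1 x.2) hcp.1 (hcross x.1) _
    · intro x
      simp
    · intro x
      simp
  have hw : w ∈ SOs ι := by
    have h := ClProd_rot (ClProd_one_mem (ι := ι)) hcp.1 hcp.2 (Real.pi / 2)
    simpa using h
  exact hH.trans (hin_const w hw)

end DT
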