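import Pool.Agent.H78.DT.AntiT
import Pool.Agent.H78.DT.ClProd

/-!
# An orthogonal matrix anticommuting with the generators, `n = 1 mod 4` (job DT-ANTI)

`n = 2k + 1`, `k` even (`n = 4m+1`, `k = 2m`), generators `J_0, .., J_{2k}`.
(0) `sign_prod`: if `T * J i = s i • (J i * T)` for all `i : Fin m` (`s i : ℝ`), then
`T * (List.ofFn J).prod = (∏ i, s i) • ((List.ofFn J).prod * T)` (induction on `m`).
(1) Let `P = J_0 J_1 ⋯ J_{2k-1}` (`(List.ofFn fun i : Fin (2k) => J i.castSucc).prod` or `J (Fin.castLE ..)`) and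
`L = J_{2k}`, `ω = P L`.  Each `J_i`, `i < 2k`, commutes with `2k - 1 + ...`: by (0) with `T = J_i` and
signs `-1` for the factors `≠ i` and `1` for the factor `i`: `J_i P = (-1)^(2k-1) P J_i = -P J_i`; and
`L P = (-1)^(2k) P L = P L`.  `Pᵀ P = 1` (product of orthogonal matrices), `P² = 1` as `k` is even
(e.g. prove `(J_0⋯J_{m-1})² = (-1)^(m(m+1)/2)` by induction: `(P' J)² = P' J P' J = (-1)^m P'² J² `), so
`Pᵀ = P`.  Hence `ω² = P L P L = P² L² = -1`, `ωᵀ = Lᵀ Pᵀ = -L P = -P L = -ω`, and `ω J_i = P L J_i = -P J_i L =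
J_i P L = J_i ω` (`i < 2k`), `ω L = P L L = L P L = L ω`.
(2) `anti_T k` applied to `ω` and `J_0..J_{2k-1}`: `T` orthogonal, `T ω = -ω T`,
`T J_i = (-1)^(i+1) J_i T`, `i < 2k`.  By (0) `T P = (∏_{i<2k} (-1)^(i+1)) P T = (-1)^k P T = P T`.  So
`P T L = T P L = T ω = -ω T = -P L T` and `T L = -L T` (`P` invertible).
(3) Let `Q = J_1 J_3 ⋯ J_{2k-1}` (product of the `k` generators with odd index `< 2k`).  By (0):
`J_i Q = (-1)^(k-1) Q J_i = -Q J_i` for `i` odd (one of the factors is `J_i` itself) and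
`J_i Q = (-1)^k Q J_i = Q J_i` for `i` even, and `L Q = Q L`.  `Q` is orthogonal.
(4) `Z = T Q`: `Z J_i = T Q J_i = ± T J_i Q`: `i` odd: `Q J_i = -J_i Q`, `T J_i = J_i T`, so `Z J_i = -J_i Z`;
`i` even `< 2k`: `Q J_i = J_i Q`, `T J_i = -J_i T`: `Z J_i = -J_i Z`; `L`: `Q L = L Q`, `T L = -L T`.
`Zᵀ Z = Qᵀ Tᵀ T Q = 1`.
`case1`: with `Z` as above let `K = [[0, -Zᵀ],[Z, 0]]`: `Kᵀ = -K`, `K² = -1`, and `K` anticommutes
with `J_i ⊕ J_i` (`Zᵀ J_i = -J_i Zᵀ` by transposing).  As in `case2` (ClProd.lean), with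
`X v = clJ J v ⊕ clJ J v`, `N_u (v) = (1-u) X v + u K` satisfies `NᵀN = ((1-u)² + u²) 1`, so dividing by
the square root gives a homotopy through orthogonal matrices from `X` to `K`; determinants are
`1` (continuity in `u`, `clJ_mem`, `det X = (det clJ)² = 1`); `K ∈ SOs` is homotopic to `1` (`hin_const`).
-/

open Matrix Set unitInterval Topology

noncomputable section

namespace DT

theorem Anti_prod {ι : Type} [Fintype ι] [DecidableEq ι] (m : ℕ) (J : Fin m → Matrix ι ι ℝ)
    (hJ : CliffJ J) : ∃ P : Matrix ι ι ℝ, Pᵀ * P = 1 ∧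
      P * P = ((-1 : ℝ) ^ (m * (m + 1) / 2)) • 1 ∧
      ∀ (T : Matrix ι ι ℝ) (s : Fin m → ℝ), (∀ i, T * J i = s i • (J i * T)) →
        T * P = (∏ i, s i) • (P * T) := by
  induction m with
  | zero =>
    exact ⟨1, by simp, by simp, fun T s _ => by simp⟩
  | succ m ih =>
    have hJ' : CliffJ (fun i : Fin m => J i.castSucc) :=
      ⟨fun i => hJ.1 _, fun i j hij => hJ.2 _ _ (fun h => hij (Fin.castSucc_injective m h))⟩
    obtain ⟨P, h1, h2, h3⟩ := ih _ hJ'
    set K := J (Fin.last m) with hK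
    have hKK : K * K = -1 := (hJ.1 _).2
    have hKT : Kᵀ = -K := (hJ.1 _).1
    have hne : ∀ i : Fin m, i.castSucc ≠ Fin.last m := fun i => (Fin.castSucc_lt_last i).ne
    have hKP : K * P = ((-1 : ℝ) ^ m) • (P * K) := by
      have h := h3 K (fun _ => -1) (fun i => by
        rw [neg_one_smul]
        exact hJ.2 _ _ (hne i).symm)
      rwa [Finset.prod_const, Finset.card_univ, Fintype.card_fin] at h
    refine ⟨P * K, ?_, ?_, ?_⟩
    · calc (P * K)ᵀ * (P * K) = Kᵀ * (Pᵀ * P) * K := by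
            rw [transpose_mul]
            simp only [Matrix.mul_assoc]
        _ = 1 := by rw [h1, mul_one, hKT, neg_mul, hKK, neg_neg]
    · rw [ClProd_exp]
      calc P * K * (P * K) = P * (K * P) * K := by simp only [Matrix.mul_assoc]
        _ = P * (((-1 : ℝ) ^ m) • (P * K)) * K := by rw [hKP]
        _ = ((-1 : ℝ) ^ m) • ((P * P) * (K * K)) := by
            rw [mul_smul_comm, smul_mul_assoc]
            simp only [Matrix.mul_assoc]
        _ = _ := by
            rw [h2, hKK, smul_mul_assoc, one_mul, smul_smul, smul_neg, pow_add, pow_succ,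
              ← neg_smul]
            congr 1
            ring
    · intro T s hT
      calc T * (P * K) = (T * P) * K := (Matrix.mul_assoc _ _ _).symm
        _ = ((∏ i : Fin m, s i.castSucc) • (P * T)) * K := by
            rw [h3 T (fun i => s i.castSucc) (fun i => hT _)]
        _ = (∏ i : Fin m, s i.castSucc) • (P * (T * K)) := by
            rw [smul_mul_assoc, Matrix.mul_assoc]
        _ = (∏ i : Fin m, s i.castSucc) • (P * (s (Fin.last m) • (K * T))) := by
            rw [hT (Fin.last m)]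
        _ = _ := by
            rw [mul_smul_comm, smul_smul, Fin.prod_univ_castSucc, Matrix.mul_assoc]

theorem Anti_signs (k : ℕ) (hk : Even k) :
    (∏ i : Fin (2 * k), ((-1 : ℝ) ^ (i.val + 1))) = 1 := by
  have h : ∀ k : ℕ, ∏ i ∈ Finset.range (2 * k), ((-1 : ℝ) ^ (i + 1)) = (-1) ^ k := by
    intro k
    induction k with
    | zero => simp
    | succ k ih =>
      rw [show 2 * (k + 1) = 2 * k + 1 + 1 by ring, Finset.prod_range_succ,
        Finset.prod_range_succ, ih]
      have e1 : (-1 : ℝ) ^ (2 * k + 1) = -1 := by rw [pow_succ, pow_mul]; norm_num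
      have e2 : (-1 : ℝ) ^ (2 * k + 1 + 1) = 1 := by rw [pow_succ, e1]; norm_num
      rw [e1, e2, pow_succ]
      ring
  rw [Fin.prod_univ_eq_prod_range (fun i => ((-1 : ℝ) ^ (i + 1))) (2 * k), h]
  exact hk.neg_one_pow

/-- the sign of the exchange with a product of generators containing the given one -/
theorem Anti_one {m : ℕ} (j : Fin m) :
    (∏ i : Fin m, (if i = j then (1 : ℝ) else -1)) = (-1) ^ (m - 1) := by
  rw [← Finset.mul_prod_erase Finset.univ _ (Finset.mem_univ j), if_pos rfl, one_mul]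
  rw [Finset.prod_congr rfl (g := fun _ => (-1 : ℝ)) (fun i hi => by
    rw [if_neg (Finset.ne_of_mem_erase hi)])]
  rw [Finset.prod_const, Finset.card_erase_of_mem (Finset.mem_univ j), Finset.card_univ,
    Fintype.card_fin]

theorem Anti_main {ι : Type} [Fintype ι] [DecidableEq ι] (k : ℕ) (hk : Even k)
    (J : Fin (2 * k + 1) → Matrix ι ι ℝ) (hJ : CliffJ J) :
    ∃ Z : Matrix ι ι ℝ, Zᵀ * Z = 1 ∧ ∀ i, Z * J i = -(J i * Z) := by
  have hJ' : CliffJ (fun i : Fin (2 * k) => J i.castSucc) :=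
    ⟨fun i => hJ.1 _, fun i j hij => hJ.2 _ _ (fun h => hij (Fin.castSucc_injective _ h))⟩
  obtain ⟨P, hP1, hP2, hP3⟩ := Anti_prod (2 * k) _ hJ'
  set L := J (Fin.last (2 * k)) with hL
  have hLL : L * L = -1 := (hJ.1 _).2
  have hLT : Lᵀ = -L := (hJ.1 _).1
  have hne : ∀ i : Fin (2 * k), i.castSucc ≠ Fin.last (2 * k) :=
    fun i => (Fin.castSucc_lt_last i).ne
  have hLJ : ∀ i : Fin (2 * k), L * J i.castSucc = -(J i.castSucc * L) :=
    fun i => hJ.2 _ _ (hne i).symm
  have hPP : P * P = 1 := by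
    rw [hP2]
    obtain ⟨r, hr⟩ := hk
    have : 2 * k * (2 * k + 1) / 2 = 2 * (r * (2 * k + 1)) := by
      rw [show 2 * k * (2 * k + 1) = 2 * (k * (2 * k + 1)) by ring,
        Nat.mul_div_cancel_left _ (by norm_num : 0 < 2)]
      nth_rw 1 [hr]
      ring
    rw [this, pow_mul]
    norm_num
  have hPT : Pᵀ = P := by
    calc Pᵀ = Pᵀ * (P * P) := by rw [hPP, mul_one]
      _ = P := by rw [← Matrix.mul_assoc, hP1, one_mul]
  have hLP : L * P = P * L := by
    have h := hP3 L (fun _ => -1) (fun i => by rw [neg_one_smul]; exact hLJ i)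
    rw [Finset.prod_const, Finset.card_univ, Fintype.card_fin, pow_mul] at h
    simpa using h
  have hJP : ∀ i : Fin (2 * k), J i.castSucc * P = -(P * J i.castSucc) := by
    intro i
    have h := hP3 (J i.castSucc) (fun j => if j = i then 1 else -1) (fun j => by
      by_cases hj : j = i
      · rw [if_pos hj, one_smul, hj]
      · rw [if_neg hj, neg_one_smul]
        exact hJ'.2 _ _ (fun h => hj h.symm))
    rw [Anti_one, Odd.neg_one_pow, neg_one_smul] at h
    · exact h
    · have := i.2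
      exact ⟨k - 1, by omega⟩
  have hw : IsCpx (P * L) := by
    constructor
    · rw [transpose_mul, hPT, hLT, neg_mul, hLP]
    · calc P * L * (P * L) = P * (L * P) * L := by simp only [Matrix.mul_assoc]
        _ = (P * P) * (L * L) := by
            rw [hLP]
            simp only [Matrix.mul_assoc]
        _ = -1 := by rw [hPP, hLL, one_mul]
  have hwJ : ∀ i : Fin (2 * k), P * L * J i.castSucc = J i.castSucc * (P * L) := by
    intro i
    calc P * L * J i.castSucc = P * (L * J i.castSucc) := Matrix.mul_assoc _ _ _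
      _ = -(P * J i.castSucc) * L := by rw [hLJ, mul_neg, neg_mul, Matrix.mul_assoc]
      _ = J i.castSucc * (P * L) := by rw [← hJP, Matrix.mul_assoc]
  obtain ⟨T, hT1, hT2, hT3⟩ := anti_T k (P * L) (fun i : Fin (2 * k) => J i.castSucc) hw hJ' hwJ
  have hTP : T * P = P * T := by
    have h := hP3 T (fun i => (-1) ^ (i.val + 1)) hT3
    rwa [Anti_signs k hk, one_smul] at h
  have hTL : T * L = -(L * T) := by
    have h1 : P * (T * L) = P * (-(L * T)) := by
      calc P * (T * L) = (P * T) * L := (Matrix.mul_assoc _ _ _).symm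
        _ = T * (P * L) := by rw [← hTP, Matrix.mul_assoc]
        _ = -(P * L * T) := hT2
        _ = P * (-(L * T)) := by rw [mul_neg, Matrix.mul_assoc]
    calc T * L = (P * P) * (T * L) := by rw [hPP, one_mul]
      _ = P * (P * (T * L)) := Matrix.mul_assoc _ _ _
      _ = P * (P * (-(L * T))) := by rw [h1]
      _ = (P * P) * (-(L * T)) := (Matrix.mul_assoc _ _ _).symm
      _ = -(L * T) := by rw [hPP, one_mul]
  -- the product of the generators with odd index
  have hodd : ∀ j : Fin k, 2 * j.val + 1 < 2 * k := fun j => by have := j.2; omega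
  have hJ'' : CliffJ (fun j : Fin k => J (Fin.castSucc ⟨2 * j.val + 1, hodd j⟩)) := by
    refine ⟨fun j => hJ.1 _, fun i j hij => hJ.2 _ _ (fun h => hij ?_)⟩
    have h1 := congrArg Fin.val h
    simp only [Fin.val_castSucc] at h1
    exact Fin.ext (by omega)
  obtain ⟨Q, hQ1, -, hQ3⟩ := Anti_prod k _ hJ''
  have hQL : Q * L = L * Q := by
    have h := hQ3 L (fun _ => -1) (fun i => by rw [neg_one_smul]; exact hLJ _)
    rw [Finset.prod_const, Finset.card_univ, Fintype.card_fin, hk.neg_one_pow, one_smul] at h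
    exact h.symm
  have hQe : ∀ i : Fin (2 * k), Even i.val → Q * J i.castSucc = J i.castSucc * Q := by
    intro i hi
    have h := hQ3 (J i.castSucc) (fun _ => -1) (fun j => by
      rw [neg_one_smul]
      refine hJ'.2 _ _ (fun h => ?_)
      rw [h] at hi
      obtain ⟨r, hr⟩ := hi
      simp only at hr
      omega)
    rw [Finset.prod_const, Finset.card_univ, Fintype.card_fin, hk.neg_one_pow, one_smul] at h
    exact h.symm
  have hQo : ∀ i : Fin (2 * k), ¬ Even i.val → Q * J i.castSucc = -(J i.castSucc * Q) := by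
    intro i hi
    obtain ⟨r, hr⟩ := Nat.not_even_iff_odd.1 hi
    have hrk : r < k := by have := i.2; omega
    have hi' : i = ⟨2 * r + 1, by omega⟩ := Fin.ext hr
    have h := hQ3 (J i.castSucc) (fun j => if j = ⟨r, hrk⟩ then 1 else -1) (fun j => by
      by_cases hj : j = ⟨r, hrk⟩
      · rw [if_pos hj, one_smul, hi', hj]
      · rw [if_neg hj, neg_one_smul]
        refine hJ'.2 _ _ (fun h => hj ?_)
        have h1 := congrArg Fin.val h
        simp only at h1
        exact Fin.ext (by simp only; omega))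
    rw [Anti_one, Odd.neg_one_pow, neg_one_smul] at h
    · rw [h, neg_neg]
    · obtain ⟨t, ht⟩ := hk
      exact ⟨t - 1, by omega⟩
  refine ⟨T * Q, ?_, fun i => ?_⟩
  · calc (T * Q)ᵀ * (T * Q) = Qᵀ * (Tᵀ * T) * Q := by
          rw [transpose_mul]
          simp only [Matrix.mul_assoc]
      _ = 1 := by rw [hT1, mul_one, hQ1]
  · refine Fin.lastCases ?_ (fun i => ?_) i
    · rw [← hL]
      calc T * Q * L = T * (Q * L) := Matrix.mul_assoc _ _ _
        _ = (T * L) * Q := by rw [hQL, Matrix.mul_assoc]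
        _ = _ := by rw [hTL, neg_mul, Matrix.mul_assoc]
    · have h3 := hT3 i
      by_cases hi : Even i.val
      · have hs : (-1 : ℝ) ^ (i.val + 1) = -1 := (hi.add_one).neg_one_pow
        simp only [hs, neg_one_smul] at h3
        calc T * Q * J i.castSucc = T * (Q * J i.castSucc) := Matrix.mul_assoc _ _ _
          _ = (T * J i.castSucc) * Q := by rw [hQe i hi, Matrix.mul_assoc]
          _ = _ := by rw [h3, neg_mul, Matrix.mul_assoc]
      · have hs : (-1 : ℝ) ^ (i.val + 1) = 1 :=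
          (Nat.not_even_iff_odd.1 hi).add_one.neg_one_pow
        simp only [hs, one_smul] at h3
        calc T * Q * J i.castSucc = T * (Q * J i.castSucc) := Matrix.mul_assoc _ _ _
          _ = -((T * J i.castSucc) * Q) := by rw [hQo i hi, mul_neg, Matrix.mul_assoc]
          _ = _ := by rw [h3, Matrix.mul_assoc]

theorem exists_anti {ι : Type} [Fintype ι] [DecidableEq ι] (n : ℕ) (hn : n % 4 = 1)
    (J : Fin n → Matrix ι ι ℝ) (hJ : CliffJ J) :
    ∃ Z : Matrix ι ι ℝ, Zᵀ * Z = 1 ∧ ∀ i, Z * J i = -(J i * Z) := by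
  obtain ⟨m, rfl⟩ : ∃ m, n = 2 * (2 * m) + 1 := ⟨n / 4, by omega⟩
  exact Anti_main (2 * m) (even_two_mul m) J hJ

/-- the homotopy to a constant, given an anticommuting complex structure -/
theorem Anti_htpy {ι : Type} [Fintype ι] [DecidableEq ι] (n : ℕ) (hn : 1 ≤ n)
    (J : Fin n → Matrix ι ι ℝ) (hJ : CliffJ J) (w : Matrix ι ι ℝ) (h1 : wᵀ = -w)
    (h2 : w * w = -1) (h3 : ∀ i, w * J i = -(J i * w)) :
    HIn (SOs ι) (fun x : Sp n => clJ J x.1) (fun _ => 1) := by
  have hcp := ClProd_cpx h1 h2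
  have hwS : ∀ u, w * ClProdS J u = -(ClProdS J u * w) := by
    intro u
    unfold ClProdS
    rw [Finset.mul_sum, Finset.sum_mul, ← Finset.sum_neg_distrib]
    refine Finset.sum_congr rfl fun i _ => ?_
    rw [mul_smul_comm, smul_mul_assoc, h3 i, smul_neg]
  have hcross : ∀ v : Fin (n + 1) → ℝ, (clJ J v)ᵀ * w + wᵀ * clJ J v = 0 := by
    intro v
    rw [ClProd_clJ, transpose_add, transpose_smul, transpose_one, ClProdS_T hJ, h1]
    rw [add_mul, mul_add, neg_mul, neg_mul, neg_mul, hwS, smul_mul_assoc, one_mul,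
      mul_smul_comm, mul_one]
    abel
  have hH : HIn (SOs ι) (fun x : Sp n => clJ J x.1) (fun _ => w) := by
    refine ⟨fun p => Real.cos (Real.pi / 2 * (p.1 : ℝ)) • clJ J p.2.1 +
      Real.sin (Real.pi / 2 * (p.1 : ℝ)) • w, ?_, ?_, ?_, ?_⟩
    · have hc : Continuous fun p : I × Sp n => clJ J p.2.1 :=
        (ClProd_clJ_cont J).comp (continuous_subtype_val.comp continuous_snd)
      have hp : Continuous fun p : I × Sp n => Real.pi / 2 * (p.1 : ℝ) :=
        continuous_const.mul (continuous_subtype_val.comp continuous_fst)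
      exact ((Real.continuous_cos.comp hp).smul hc).add
        ((Real.continuous_sin.comp hp).smul continuous_const)
    · intro u x
      exact ClProd_rot (clJ_mem _ hn J hJ x.1 x.2) hcp.1 (hcross x.1) _
    · intro x
      simp
    · intro x
      simp
  have hw : w ∈ SOs ι := by
    have h := ClProd_rot (ClProd_one_mem (ι := ι)) hcp.1 hcp.2 (Real.pi / 2)
    simpa using h
  exact hH.trans (hin_const w hw)

theorem Anti_blk {ι : Type} [Fintype ι] [DecidableEq ι] {n : ℕ} (J : Fin n → Matrix ι ι ℝ)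
    (v : Fin (n + 1) → ℝ) :
    clJ (fun i => fromBlocks (J i) 0 0 (J i)) v = fromBlocks (clJ J v) 0 0 (clJ J v) := by
  unfold clJ
  have h : ∀ (s : Finset (Fin n)), (∑ i ∈ s, v i.succ • fromBlocks (J i) 0 0 (J i)) =
      fromBlocks (∑ i ∈ s, v i.succ • J i) 0 0 (∑ i ∈ s, v i.succ • J i) := by
    intro s
    induction s using Finset.cons_induction with
    | empty => simp [fromBlocks_zero]
    | cons a s ha ih =>
      rw [Finset.sum_cons, Finset.sum_cons, ih, fromBlocks_smul, fromBlocks_add]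
      simp
  rw [h, ← fromBlocks_one, fromBlocks_smul, fromBlocks_add]
  simp

theorem case1 {ι : Type} [Fintype ι] [DecidableEq ι] (n : ℕ) (hn : n % 4 = 1)
    (J : Fin n → Matrix ι ι ℝ) (hJ : CliffJ J) :
    HIn (SOs (ι ⊕ ι)) (fun x : Sp n => fromBlocks (clJ J x.1) 0 0 (clJ J x.1))
      (fun _ => 1) := by
  obtain ⟨Z, hZ1, hZ2⟩ := exists_anti n hn J hJ
  have hZ3 : Z * Zᵀ = 1 := mul_eq_one_comm.1 hZ1
  have hZ4 : ∀ i, Zᵀ * J i = -(J i * Zᵀ) := by
    intro i
    have h := congrArg transpose (hZ2 i)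
    rw [transpose_mul, transpose_neg, transpose_mul, (hJ.1 i).1, neg_mul, mul_neg, neg_neg] at h
    exact h.symm
  have hJ2 : CliffJ (fun i => fromBlocks (J i) 0 0 (J i)) := by
    refine ⟨fun i => ⟨?_, ?_⟩, fun i j hij => ?_⟩
    · rw [fromBlocks_transpose, (hJ.1 i).1, fromBlocks_neg]
      simp
    · rw [fromBlocks_multiply, (hJ.1 i).2]
      simp [← fromBlocks_one, fromBlocks_neg]
    · rw [fromBlocks_multiply, fromBlocks_multiply, fromBlocks_neg]
      simp [hJ.2 i j hij]
  have key := Anti_htpy n (by omega) _ hJ2 (fromBlocks 0 (-Zᵀ) Z 0) ?_ ?_ ?_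
  · simpa only [Anti_blk] using key
  · rw [fromBlocks_transpose, fromBlocks_neg]
    simp
  · rw [fromBlocks_multiply]
    simp [hZ1, hZ3, ← fromBlocks_one, fromBlocks_neg]
  · intro i
    rw [fromBlocks_multiply, fromBlocks_multiply, fromBlocks_neg]
    simp [hZ2 i, hZ4 i]

end DT
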