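import Pool.Agent.H78.DT.Bott0

/-!
# Normal form of a symmetric involution with an anticommuting invertible matrix (DT-INVNF)

PROOF. (work in `EuclideanSpace ℝ ι`, or with the projections `(1 ± e)/2`).  The space is the
orthogonal sum of the eigenspaces `E_±` of `e` (`e` symmetric, `e² = 1`).  `S e = -e S` so `S`
maps `E_+` into `E_-` and `E_-` into `E_+`, injectively; so `dim E_+ = dim E_- = r`.
(1) Take orthonormal bases `v_1..v_r` of `E_+` and `w_1..w_r` of `E_-` and let `Q` be the matrix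
with columns `v_1..v_r, w_1..w_r`.  (2) If moreover `c ∈ Grad e`, take `w_j = c v_j` (orthonormal
in `E_-` because `c` is orthogonal; a basis by dimension count): `Qᵀ c Q = [[0,1],[1,0]]`.
-/

open Matrix Set unitInterval Topology

noncomputable section

namespace DT

theorem InvNf_diag {ι : Type} [Fintype ι] [DecidableEq ι] (e : Matrix ι ι ℝ)
    (h1 : eᵀ = e) (h2 : e * e = 1) (S : Matrix ι ι ℝ) (hS : IsUnit S) (hSe : S * e = -(e * S)) :
    ∃ (U : Matrix ι ι ℝ) (d : ι → ℝ), U * Uᵀ = 1 ∧ Uᵀ * U = 1 ∧ Uᵀ * e * U = diagonal d ∧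
      (∀ i, d i = 1 ∨ d i = -1) ∧ ∑ i, d i = 0 := by
  have hH : e.IsHermitian := by
    unfold Matrix.IsHermitian
    rw [conjTranspose_eq_transpose_of_trivial, h1]
  have hst : (star (hH.eigenvectorUnitary : Matrix ι ι ℝ)) =
      (hH.eigenvectorUnitary : Matrix ι ι ℝ)ᵀ := by
    rw [star_eq_conjTranspose, conjTranspose_eq_transpose_of_trivial]
  have hU1 : (hH.eigenvectorUnitary : Matrix ι ι ℝ) * (hH.eigenvectorUnitary : Matrix ι ι ℝ)ᵀ = 1 := by
    rw [← hst]; exact Unitary.coe_mul_star_self _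
  have hU2 : (hH.eigenvectorUnitary : Matrix ι ι ℝ)ᵀ * (hH.eigenvectorUnitary : Matrix ι ι ℝ) = 1 := by
    rw [← hst]; exact Unitary.coe_star_mul_self _
  have hsp : e = (hH.eigenvectorUnitary : Matrix ι ι ℝ) * diagonal hH.eigenvalues *
      (hH.eigenvectorUnitary : Matrix ι ι ℝ)ᵀ := by
    have := hH.spectral_theorem
    rw [Unitary.conjStarAlgAut_apply, hst] at this
    exact this
  have hdiag : (hH.eigenvectorUnitary : Matrix ι ι ℝ)ᵀ * e * (hH.eigenvectorUnitary : Matrix ι ι ℝ)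
      = diagonal hH.eigenvalues := by
    generalize (hH.eigenvectorUnitary : Matrix ι ι ℝ) = U at *
    generalize diagonal hH.eigenvalues = D at *
    calc Uᵀ * e * U = Uᵀ * (U * D * Uᵀ) * U := by rw [← hsp]
      _ = (Uᵀ * U) * D * (Uᵀ * U) := by simp only [Matrix.mul_assoc]
      _ = D := by rw [hU2, Matrix.one_mul, Matrix.mul_one]
  refine ⟨(hH.eigenvectorUnitary : Matrix ι ι ℝ), hH.eigenvalues, hU1, hU2, hdiag, ?_, ?_⟩
  · intro i
    have hsq : diagonal hH.eigenvalues * diagonal hH.eigenvalues = (1 : Matrix ι ι ℝ) := by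
      rw [← hdiag]
      generalize (hH.eigenvectorUnitary : Matrix ι ι ℝ) = U at *
      calc Uᵀ * e * U * (Uᵀ * e * U) = Uᵀ * e * (U * Uᵀ) * e * U := by
            simp only [Matrix.mul_assoc]
        _ = Uᵀ * (e * e) * U := by rw [hU1, Matrix.mul_one]; simp only [Matrix.mul_assoc]
        _ = 1 := by rw [h2, Matrix.mul_one, hU2]
    have := congrFun (congrFun hsq i) i
    rw [diagonal_mul_diagonal, diagonal_apply_eq, one_apply_eq] at this
    rcases mul_self_eq_one_iff.mp this with h | h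
    · exact Or.inl h
    · exact Or.inr h
  · have ht : e.trace = 0 := by
      obtain ⟨T, hT⟩ := hS.exists_right_inv
      have hT' : T * S = 1 := mul_eq_one_comm.mp hT
      have h3 : e.trace = (S * e * T).trace := by
        rw [Matrix.trace_mul_comm, ← Matrix.mul_assoc, hT', Matrix.one_mul]
      rw [hSe, Matrix.neg_mul, Matrix.mul_assoc, hT, Matrix.mul_one, Matrix.trace_neg] at h3
      linarith
    have h4 := hH.trace_eq_sum_eigenvalues
    rw [ht] at h4
    simpa using h4.symm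

theorem InvNf_equiv {ι : Type} [Fintype ι] [DecidableEq ι] (d : ι → ℝ)
    (hd : ∀ i, d i = 1 ∨ d i = -1) (hs : ∑ i, d i = 0) :
    ∃ (r : ℕ) (f : Fin r ⊕ Fin r ≃ ι), (∀ j, d (f (Sum.inl j)) = 1) ∧
      ∀ j, d (f (Sum.inr j)) = -1 := by
  classical
  have hc : Fintype.card {i // d i = 1} = Fintype.card {i // ¬ d i = 1} := by
    have h1 : ∑ i, d i = ∑ i, ((if d i = 1 then (1 : ℝ) else 0) - if ¬ d i = 1 then (1 : ℝ) else 0) := by
      apply Finset.sum_congr rfl
      intro i _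
      rcases hd i with h | h
      · simp [h]
      · rw [h]; norm_num
    rw [Finset.sum_sub_distrib, Finset.sum_boole, Finset.sum_boole, hs] at h1
    rw [Fintype.card_subtype, Fintype.card_subtype]
    have h2 : ((Finset.univ.filter fun i => d i = 1).card : ℝ) =
        ((Finset.univ.filter fun i => ¬ d i = 1).card : ℝ) := by linarith
    exact_mod_cast h2
  let f1 : Fin (Fintype.card {i // d i = 1}) ≃ {i // d i = 1} := (Fintype.equivFin _).symm
  let f2 : Fin (Fintype.card {i // d i = 1}) ≃ {i // ¬ d i = 1} :=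
    (finCongr hc).trans (Fintype.equivFin _).symm
  refine ⟨_, (Equiv.sumCongr f1 f2).trans (Equiv.sumCompl fun i => d i = 1), ?_, ?_⟩
  · intro j
    exact (f1 j).2
  · intro j
    rcases hd ((f2 j) : ι) with h | h
    · exact absurd h (f2 j).2
    · exact h

theorem inv_nf {ι : Type} [Fintype ι] [DecidableEq ι] (e : Unit → Matrix ι ι ℝ)
    (he : ClSys e) (S : Matrix ι ι ℝ) (hS : S ∈ SymX e) :
    ∃ (r : ℕ) (Q : Matrix ι (Fin r ⊕ Fin r) ℝ), Q * Qᵀ = 1 ∧ Qᵀ * Q = 1 ∧
      Qᵀ * e () * Q = fromBlocks 1 0 0 (-1) := by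
  obtain ⟨U, d, hU1, hU2, hD, hd, hs⟩ := InvNf_diag (e ()) (he.1 ()).1 (he.1 ()).2 S hS.2
    (hS.1.2 ())
  obtain ⟨r, f, hf1, hf2⟩ := InvNf_equiv d hd hs
  refine ⟨r, U.submatrix id f, ?_, ?_, ?_⟩
  · rw [transpose_submatrix, submatrix_mul_equiv, hU1, submatrix_id_id]
  · rw [transpose_submatrix, ← submatrix_mul _ _ _ _ _ Function.bijective_id, hU2]
    ext i j
    simp [one_apply]
  · have h1 : (U.submatrix id f)ᵀ * e () * U.submatrix id f = (Uᵀ * e () * U).submatrix f f := by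
      rw [transpose_submatrix]
      ext i j
      simp [Matrix.mul_apply]
    rw [h1, hD]
    ext i j
    rcases i with i | i <;> rcases j with j | j
    · by_cases h : i = j
      · subst h; simp [hf1]
      · have : f (Sum.inl i) ≠ f (Sum.inl j) := fun h' => h (Sum.inl_injective (f.injective h'))
        simp [diagonal_apply_ne _ this, one_apply_ne h]
    · have : f (Sum.inl i) ≠ f (Sum.inr j) := fun h' => by simpa using f.injective h'
      simp
    · have : f (Sum.inr i) ≠ f (Sum.inl j) := fun h' => by simpa using f.injective h'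
      simp [diagonal_apply_ne _ this]
    · by_cases h : i = j
      · subst h; simp [hf2]
      · have : f (Sum.inr i) ≠ f (Sum.inr j) := fun h' => h (Sum.inr_injective (f.injective h'))
        simp [diagonal_apply_ne _ this, one_apply_ne h]

theorem inv_nf' {ι : Type} [Fintype ι] [DecidableEq ι] (e : Unit → Matrix ι ι ℝ)
    (he : ClSys e) (c : Matrix ι ι ℝ) (hc : c ∈ Grad e) :
    ∃ (r : ℕ) (Q : Matrix ι (Fin r ⊕ Fin r) ℝ), Q * Qᵀ = 1 ∧ Qᵀ * Q = 1 ∧
      Qᵀ * e () * Q = fromBlocks 1 0 0 (-1) ∧ Qᵀ * c * Q = fromBlocks 0 1 1 0 := by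
  obtain ⟨r, Q, hQ1, hQ2, hQe⟩ := inv_nf e he c (Grad_subset_SymX e hc)
  have hcT : cᵀ = c := hc.1.1
  have hce : c * e () = -(e () * c) := hc.1.2 ()
  have hcc : c * c = 1 := hc.2
  have heT : (e ())ᵀ = e () := (he.1 ()).1
  obtain ⟨P, hP⟩ : ∃ P : Matrix ι (Fin r) ℝ, P = Q * (fromRows 1 0 : Matrix (Fin r ⊕ Fin r) (Fin r) ℝ) := ⟨_, rfl⟩
  have hPP : Pᵀ * P = 1 := by
    rw [hP, transpose_mul, Matrix.mul_assoc, ← Matrix.mul_assoc Qᵀ, hQ2, Matrix.one_mul,
      transpose_fromRows, fromCols_mul_fromRows]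
    simp
  have heP : e () * P = P := by
    have h1 : e () * Q = Q * (fromBlocks 1 0 0 (-1) : Matrix (Fin r ⊕ Fin r) (Fin r ⊕ Fin r) ℝ) := by
      rw [← hQe]
      calc e () * Q = (Q * Qᵀ) * e () * Q := by rw [hQ1, Matrix.one_mul]
        _ = _ := by simp only [Matrix.mul_assoc]
    rw [hP, ← Matrix.mul_assoc, h1, Matrix.mul_assoc]
    congr 1
    rw [fromBlocks_mul_fromRows]
    simp
  have hPe : Pᵀ * e () = Pᵀ := by
    have := congrArg transpose heP
    rwa [transpose_mul, heT] at this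
  have hPcP : Pᵀ * c * P = 0 := by
    have h1 : Pᵀ * c * P = -(Pᵀ * c * P) := by
      calc Pᵀ * c * P = Pᵀ * c * (e () * P) := by rw [heP]
        _ = Pᵀ * (c * e ()) * P := by simp only [Matrix.mul_assoc]
        _ = -((Pᵀ * e ()) * c * P) := by
            rw [hce]; simp only [Matrix.mul_neg, Matrix.neg_mul, Matrix.mul_assoc]
        _ = _ := by rw [hPe]
    have h2 : (2 : ℝ) • (Pᵀ * c * P) = 0 := by
      rw [two_smul]
      nth_rewrite 2 [h1]
      exact add_neg_cancel _
    exact (smul_eq_zero.mp h2).resolve_left two_ne_zero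
  have hT : (fromCols P (c * P))ᵀ = fromRows Pᵀ (Pᵀ * c) := by
    rw [transpose_fromCols, transpose_mul, hcT]
  have hccP : c * (c * P) = P := by rw [← Matrix.mul_assoc, hcc, Matrix.one_mul]
  have hecP : e () * (c * P) = -(c * P) := by
    rw [← Matrix.mul_assoc]
    have : e () * c = -(c * e ()) := by rw [hce, neg_neg]
    rw [this, Matrix.neg_mul, Matrix.mul_assoc, heP]
  have h2 : (fromCols P (c * P))ᵀ * fromCols P (c * P) = 1 := by
    rw [hT, fromRows_mul_fromCols, ← Matrix.mul_assoc, hPcP, Matrix.mul_assoc Pᵀ c (c * P), hccP,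
      hPP, fromBlocks_one]
  have hcard : Fintype.card (Fin r ⊕ Fin r) = Fintype.card ι := by
    have ha := Matrix.rank_mul_le_left Qᵀ Q
    have hb := Matrix.rank_mul_le_left Q Qᵀ
    rw [hQ2, Matrix.rank_one] at ha
    rw [hQ1, Matrix.rank_one] at hb
    exact le_antisymm (ha.trans (Matrix.rank_le_card_width _))
      (hb.trans (Matrix.rank_le_card_width _))
  refine ⟨r, fromCols P (c * P), (Matrix.mul_eq_one_comm_of_card_eq _ _ _ hcard).mp h2, h2, ?_, ?_⟩
  · rw [hT, Matrix.mul_assoc, mul_fromCols, heP, hecP, fromRows_mul_fromCols, hPP, Matrix.mul_neg,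
      ← Matrix.mul_assoc, hPcP, Matrix.mul_neg, Matrix.mul_assoc Pᵀ c (c * P), hccP, hPP, neg_zero]
  · rw [hT, Matrix.mul_assoc, mul_fromCols, hccP, fromRows_mul_fromCols, hPP,
      ← Matrix.mul_assoc, hPcP, Matrix.mul_assoc Pᵀ c (c * P), hccP, hPP]

end DT
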