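import Pool.Agent.H78.DT.CpxConn
import Pool.Agent.H78.DT.InvNf

/-!
# Antilinear maps with prescribed signs (job DT-ANTIT)

PROOF by induction on `k`.
`k = 0`: by `cpx_card`, `cpx_std`: `ω = P * cpxJ r * Pᵀ`, `cpxJ r = fromBlocks 0 (-1) 1 0`; take
`T = P * fromBlocks 1 0 0 (-1) * Pᵀ`: `fromBlocks 1 0 0 (-1) * cpxJ = - cpxJ * fromBlocks 1 0 0 (-1)`.
Step `k → k + 1`: `J : Fin (2 (k+1))`.  Let `a = ω J₀ J₁`.  As `ω` commutes with all `J_i` and
`ω² = -1`, `(J₀J₁)² = -1`: `a² = 1`; `aᵀ = J₁ᵀ J₀ᵀ ωᵀ = -J₁J₀ω = J₀J₁ω = a`; `a` commutes with `ω` and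
with `J_i`, `i ≥ 2`, and anticommutes with `J₀`, `J₁`.  `c = J₀ a` is symmetric (`(J₀a)ᵀ = a J₀ᵀ = -aJ₀ = J₀a`),
`c² = J₀aJ₀a = -J₀J₀aa = 1`, `c a = J₀`, `a c = a J₀ a = -J₀`.  So `inv_nf'` applies to `e () = a`
and `c`: `Qᵀ a Q = [[1,0],[0,-1]]`, `Qᵀ c Q = [[0,1],[1,0]]`, so `Qᵀ J₀ Q = Qᵀ c a Q = [[0,-1],[1,0]]`.
The matrix `Qᵀ ω Q` commutes with both, so it is `[[ω',0],[0,ω']]`; for `i ≥ 2` `Qᵀ J_i Q` commutes with
`[[1,0],[0,-1]]` and anticommutes with `[[0,-1],[1,0]]`, so it is `[[J',0],[0,-J']]`, `J' = J'_{i-2}`.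
`ω'` is a complex structure, the `J'` are anticommuting complex structures commuting with
`ω'`.  By induction there is `T'` for them; put `T = Q [[T',0],[0,-T']] Qᵀ`.  Then (compute in blocks):
`T ω = -ω T`; `T J₀ = -J₀ T`; `T a = a T`; `J₁ = J₀ ω a` (since `ω a = ω² J₀J₁ = -J₀J₁`, `J₀ ω a = -J₀J₀J₁ = J₁`),
so `T J₁ = T J₀ ω a = J₀ ω T a = J₀ ω a T = J₁ T`;
and for `i ≥ 2`: `T J_i = ± J_i T` with the sign of `T' J'_{i-2} = ± J'_{i-2} T'`, `(-1)^(i-2+1) = (-1)^(i+1)`.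
-/

open Matrix Set unitInterval Topology

set_option linter.unusedSimpArgs false

noncomputable section

namespace DT

theorem AntiT_block_diag {r : ℕ} (M : Matrix (Fin r ⊕ Fin r) (Fin r ⊕ Fin r) ℝ)
    (h : M * fromBlocks 1 0 0 (-1) = fromBlocks 1 0 0 (-1) * M) :
    ∃ A D : Matrix (Fin r) (Fin r) ℝ, M = fromBlocks A 0 0 D := by
  obtain ⟨A, B, C, D, rfl⟩ : ∃ A B C D, M = fromBlocks A B C D :=
    ⟨_, _, _, _, (fromBlocks_toBlocks M).symm⟩
  rw [fromBlocks_multiply, fromBlocks_multiply, fromBlocks_inj] at h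
  simp only [Matrix.mul_one, Matrix.mul_zero, add_zero, Matrix.mul_neg, zero_add, Matrix.one_mul,
    Matrix.zero_mul, Matrix.neg_mul] at h
  obtain ⟨-, hB, hC, -⟩ := h
  have hB0 : B = 0 := by
    ext i j
    have := congrFun (congrFun hB i) j
    simp only [Matrix.neg_apply, Matrix.zero_apply] at this ⊢
    linarith
  have hC0 : C = 0 := by
    ext i j
    have := congrFun (congrFun hC i) j
    simp only [Matrix.neg_apply, Matrix.zero_apply] at this ⊢
    linarith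
  exact ⟨A, D, by rw [hB0, hC0]⟩

theorem AntiT_zero {ι : Type} [Fintype ι] [DecidableEq ι] (ω : Matrix ι ι ℝ) (hω : IsCpx ω) :
    ∃ T : Matrix ι ι ℝ, Tᵀ * T = 1 ∧ T * ω = -(ω * T) := by
  obtain ⟨r, hr⟩ := cpx_card ω hω
  obtain ⟨P, p1, p2, p3⟩ := cpx_std ω hω r hr
  obtain ⟨E, hE⟩ : ∃ E : Matrix (Fin r ⊕ Fin r) (Fin r ⊕ Fin r) ℝ, E = fromBlocks 1 0 0 (-1) :=
    ⟨_, rfl⟩
  have hET : Eᵀ = E := by
    rw [hE, fromBlocks_transpose]
    simp
  have hEE : E * E = 1 := by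
    rw [hE, fromBlocks_multiply]
    simp
  have hEJ : E * cpxJ r = -(cpxJ r * E) := by
    rw [hE]
    unfold cpxJ
    rw [fromBlocks_multiply, fromBlocks_multiply, fromBlocks_neg]
    simp
  refine ⟨P * E * Pᵀ, ?_, ?_⟩
  · have h1 : (P * E * Pᵀ)ᵀ = P * E * Pᵀ := by
      rw [transpose_mul, transpose_mul, transpose_transpose, hET]
      simp only [Matrix.mul_assoc]
    rw [h1]
    calc P * E * Pᵀ * (P * E * Pᵀ) = P * (E * (Pᵀ * P) * E) * Pᵀ := by
          simp only [Matrix.mul_assoc]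
      _ = 1 := by
          rw [p2, Matrix.mul_one, hEE, Matrix.mul_one, p1]
  · rw [p3]
    calc P * E * Pᵀ * (P * cpxJ r * Pᵀ) = P * (E * (Pᵀ * P) * cpxJ r) * Pᵀ := by
          simp only [Matrix.mul_assoc]
      _ = P * (-(cpxJ r * (Pᵀ * P) * E)) * Pᵀ := by
          rw [p2, Matrix.mul_one, Matrix.mul_one, hEJ]
      _ = _ := by
          simp only [Matrix.mul_assoc, Matrix.neg_mul, Matrix.mul_neg]

/-- Algebra of `a = ω J₀ J₁`, `c = J₀ a`. -/
theorem AntiT_alg {ι : Type} [Fintype ι] [DecidableEq ι] (w x y : Matrix ι ι ℝ)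
    (hw : wᵀ = -w ∧ w * w = -1) (hx : xᵀ = -x ∧ x * x = -1) (hy : yᵀ = -y ∧ y * y = -1)
    (hxy : x * y = -(y * x)) (hwx : w * x = x * w) (hwy : w * y = y * w) :
    ((w * (x * y))ᵀ = w * (x * y) ∧ (w * (x * y)) * (w * (x * y)) = 1) ∧
    ((x * (w * (x * y)))ᵀ = x * (w * (x * y)) ∧ (x * (w * (x * y))) * (x * (w * (x * y))) = 1) ∧
    (x * (w * (x * y))) * (w * (x * y)) = -((w * (x * y)) * (x * (w * (x * y)))) ∧
    (x * (w * (x * y))) * (w * (x * y)) = x ∧
    w * (w * (x * y)) = (w * (x * y)) * w ∧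
    y = x * (w * (w * (x * y))) := by
  have hyx : y * x = -(x * y) := by rw [hxy, neg_neg]
  have e1 : ∀ z, w * (w * z) = -z := fun z => by rw [← Matrix.mul_assoc, hw.2]; simp
  have e2 : ∀ z, x * (x * z) = -z := fun z => by rw [← Matrix.mul_assoc, hx.2]; simp
  have e3 : ∀ z, y * (y * z) = -z := fun z => by rw [← Matrix.mul_assoc, hy.2]; simp
  have e4 : ∀ z, y * (x * z) = -(x * (y * z)) := fun z => by
    rw [← Matrix.mul_assoc, hyx, Matrix.neg_mul, Matrix.mul_assoc]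
  have e5 : ∀ z, x * (w * z) = w * (x * z) := fun z => by
    rw [← Matrix.mul_assoc, ← hwx, Matrix.mul_assoc]
  have e6 : ∀ z, y * (w * z) = w * (y * z) := fun z => by
    rw [← Matrix.mul_assoc, ← hwy, Matrix.mul_assoc]
  have hxw : x * w = w * x := hwx.symm
  have hyw : y * w = w * y := hwy.symm
  refine ⟨⟨?_, ?_⟩, ⟨?_, ?_⟩, ?_, ?_, ?_, ?_⟩
  · rw [transpose_mul, transpose_mul, hw.1, hx.1, hy.1]
    simp only [Matrix.mul_assoc, Matrix.neg_mul, Matrix.mul_neg, neg_neg, hyx, hxw, hyw, e5, e6, e4]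
  · simp only [Matrix.mul_assoc, Matrix.neg_mul, Matrix.mul_neg, neg_neg, e1, e2, e3, e4, e5, e6,
      hyx, hxw, hyw, hx.2, hy.2, hw.2, Matrix.mul_one]
  · rw [transpose_mul, transpose_mul, transpose_mul, hw.1, hx.1, hy.1]
    simp only [Matrix.mul_assoc, Matrix.neg_mul, Matrix.mul_neg, neg_neg, e1, e2, e3, e4, e5, e6,
      hyx, hxw, hyw, hx.2, hy.2, hw.2, Matrix.mul_one]
  · simp only [Matrix.mul_assoc, Matrix.neg_mul, Matrix.mul_neg, neg_neg, e1, e2, e3, e4, e5, e6,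
      hyx, hxw, hyw, hx.2, hy.2, hw.2, Matrix.mul_one]
  · simp only [Matrix.mul_assoc, Matrix.neg_mul, Matrix.mul_neg, neg_neg, e1, e2, e3, e4, e5, e6,
      hyx, hxw, hyw, hx.2, hy.2, hw.2, Matrix.mul_one]
  · simp only [Matrix.mul_assoc, Matrix.neg_mul, Matrix.mul_neg, neg_neg, e1, e2, e3, e4, e5, e6,
      hyx, hxw, hyw, hx.2, hy.2, hw.2, Matrix.mul_one]
  · simp only [Matrix.mul_assoc, Matrix.neg_mul, Matrix.mul_neg, neg_neg, e1, e2, e3, e4, e5, e6,
      hyx, hxw, hyw, hx.2, hy.2, hw.2, Matrix.mul_one]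
  · simp only [Matrix.mul_assoc, Matrix.neg_mul, Matrix.mul_neg, neg_neg, e1, e2, e3, e4, e5, e6,
      hyx, hxw, hyw, hx.2, hy.2, hw.2, Matrix.mul_one]

theorem AntiT_comm {ι : Type} [Fintype ι] [DecidableEq ι] (w x y z : Matrix ι ι ℝ)
    (hwz : w * z = z * w) (hxz : x * z = -(z * x)) (hyz : y * z = -(z * y)) :
    z * (w * (x * y)) = (w * (x * y)) * z := by
  calc z * (w * (x * y)) = (z * w) * (x * y) := by simp only [Matrix.mul_assoc]
    _ = w * ((z * x) * y) := by rw [← hwz]; simp only [Matrix.mul_assoc]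
    _ = w * (-(x * (z * y))) := by
        rw [show z * x = -(x * z) by rw [hxz, neg_neg]]; simp only [Matrix.mul_assoc, Matrix.neg_mul]
    _ = _ := by
        rw [show z * y = -(y * z) by rw [hyz, neg_neg]]
        simp only [Matrix.mul_assoc, Matrix.mul_neg, neg_neg]

theorem anti_T (k : ℕ) : ∀ {ι : Type} [Fintype ι] [DecidableEq ι] (ω : Matrix ι ι ℝ)
    (J : Fin (2 * k) → Matrix ι ι ℝ), IsCpx ω → CliffJ J → (∀ i, ω * J i = J i * ω) →
    ∃ T : Matrix ι ι ℝ, Tᵀ * T = 1 ∧ T * ω = -(ω * T) ∧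
      ∀ i : Fin (2 * k), T * J i = ((-1 : ℝ) ^ (i.val + 1)) • (J i * T) := by
  induction k with
  | zero =>
    intro ι _ _ ω J hω _ _
    obtain ⟨T, h1, h2⟩ := AntiT_zero ω hω
    exact ⟨T, h1, h2, fun i => absurd i.isLt (by simp)⟩
  | succ k ih =>
    intro ι _ _ ω J hω hJ hc
    have l0 : 0 < 2 * (k + 1) := by omega
    have l1 : 1 < 2 * (k + 1) := by omega
    let j0 : Fin (2 * (k + 1)) := ⟨0, l0⟩
    let j1 : Fin (2 * (k + 1)) := ⟨1, l1⟩
    let sh : Fin (2 * k) → Fin (2 * (k + 1)) := fun i => ⟨i.val + 2, by have := i.isLt; omega⟩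
    have hj01 : j0 ≠ j1 := by simp [j0, j1]
    have hs0 : ∀ i, j0 ≠ sh i := by intro i; simp [j0, sh, Fin.ext_iff]
    have hs1 : ∀ i, j1 ≠ sh i := by intro i; simp [j1, sh, Fin.ext_iff]
    have hssh : ∀ i i', i ≠ i' → sh i ≠ sh i' := by
      intro i i' h h'
      apply h
      simp only [sh, Fin.mk.injEq] at h'
      exact Fin.ext (by omega)
    obtain ⟨⟨aT, aa⟩, ⟨cT, cc⟩, cae, cax, waw, yeq⟩ := AntiT_alg ω (J j0) (J j1) hω (hJ.1 j0)
      (hJ.1 j1) (hJ.2 _ _ hj01) (hc j0) (hc j1)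
    have hia : ∀ i, J (sh i) * (ω * (J j0 * J j1)) = (ω * (J j0 * J j1)) * J (sh i) := fun i =>
      AntiT_comm ω (J j0) (J j1) (J (sh i)) (hc _) (hJ.2 _ _ (hs0 i)) (hJ.2 _ _ (hs1 i))
    generalize ha : ω * (J j0 * J j1) = a at aT aa cT cc cae cax waw yeq hia
    obtain ⟨r, Q, q1, q2, qa, qc⟩ := inv_nf' (fun _ : Unit => a)
      ⟨fun _ => ⟨aT, aa⟩, fun i j h => absurd (Subsingleton.elim i j) h⟩ (J j0 * a)
      ⟨⟨cT, fun _ => cae⟩, cc⟩
    -- conjugation
    have hmul : ∀ M N : Matrix (Fin r ⊕ Fin r) (Fin r ⊕ Fin r) ℝ,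
        (Q * M * Qᵀ) * (Q * N * Qᵀ) = Q * (M * N) * Qᵀ := by
      intro M N
      calc (Q * M * Qᵀ) * (Q * N * Qᵀ) = Q * (M * (Qᵀ * Q) * N) * Qᵀ := by
            simp only [Matrix.mul_assoc]
        _ = _ := by rw [q2, Matrix.mul_one]
    have hmul' : ∀ M N : Matrix ι ι ℝ,
        (Qᵀ * M * Q) * (Qᵀ * N * Q) = Qᵀ * (M * N) * Q := by
      intro M N
      calc (Qᵀ * M * Q) * (Qᵀ * N * Q) = Qᵀ * (M * (Q * Qᵀ) * N) * Q := by
            simp only [Matrix.mul_assoc]
        _ = _ := by rw [q1, Matrix.mul_one]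
    have hback : ∀ (M : Matrix ι ι ℝ) (N : Matrix (Fin r ⊕ Fin r) (Fin r ⊕ Fin r) ℝ),
        Qᵀ * M * Q = N → M = Q * N * Qᵀ := by
      intro M N h
      rw [← h]
      calc M = (Q * Qᵀ) * M * (Q * Qᵀ) := by rw [q1, Matrix.one_mul, Matrix.mul_one]
        _ = _ := by simp only [Matrix.mul_assoc]
    have hinj : ∀ M N : Matrix ι ι ℝ, M = N → Qᵀ * M * Q = Qᵀ * N * Q := fun M N h => by rw [h]
    -- J0
    have qx : Qᵀ * J j0 * Q = fromBlocks 0 (-1) 1 0 := by
      rw [← cax, ← hmul', qc, qa, fromBlocks_multiply]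
      simp
    -- ω
    have hωa : (Qᵀ * ω * Q) * fromBlocks 1 0 0 (-1) = fromBlocks 1 0 0 (-1) * (Qᵀ * ω * Q) := by
      rw [← qa, hmul', hmul', waw]
    obtain ⟨A, D, hAD⟩ := AntiT_block_diag _ hωa
    have hωx : (Qᵀ * ω * Q) * (Qᵀ * J j0 * Q) = (Qᵀ * J j0 * Q) * (Qᵀ * ω * Q) := by
      rw [hmul', hmul', hc]
    rw [hAD, qx, fromBlocks_multiply, fromBlocks_multiply, fromBlocks_inj] at hωx
    simp only [Matrix.mul_one, Matrix.mul_zero, add_zero, Matrix.mul_neg, zero_add, Matrix.one_mul,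
      Matrix.zero_mul, Matrix.neg_mul, true_and, and_true] at hωx
    have hDA : D = A := hωx.2.1
    subst hDA
    have hωT : (Qᵀ * ω * Q)ᵀ = -(Qᵀ * ω * Q) := by
      rw [transpose_mul, transpose_mul, transpose_transpose, hω.1]
      simp only [Matrix.mul_assoc, Matrix.neg_mul, Matrix.mul_neg]
    have hωω : (Qᵀ * ω * Q) * (Qᵀ * ω * Q) = -1 := by
      rw [hmul', hω.2]
      simp [q2]
    have hCpx : IsCpx D := by
      rw [hAD, fromBlocks_transpose, fromBlocks_neg, fromBlocks_inj] at hωT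
      rw [hAD, fromBlocks_multiply, ← fromBlocks_one, fromBlocks_neg, fromBlocks_inj] at hωω
      refine ⟨hωT.1, ?_⟩
      have := hωω.1
      simpa using this
    -- the other Jᵢ
    have hJi : ∀ i, ∃ A' : Matrix (Fin r) (Fin r) ℝ, Qᵀ * J (sh i) * Q = fromBlocks A' 0 0 (-A') := by
      intro i
      have h1 : (Qᵀ * J (sh i) * Q) * fromBlocks 1 0 0 (-1) =
          fromBlocks 1 0 0 (-1) * (Qᵀ * J (sh i) * Q) := by
        rw [← qa, hmul', hmul', hia]
      obtain ⟨A', D', h2⟩ := AntiT_block_diag _ h1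
      have h3 : (Qᵀ * J j0 * Q) * (Qᵀ * J (sh i) * Q) =
          -((Qᵀ * J (sh i) * Q) * (Qᵀ * J j0 * Q)) := by
        rw [hmul', hmul', hJ.2 _ _ (hs0 i)]
        simp only [Matrix.neg_mul, Matrix.mul_neg]
      rw [h2, qx, fromBlocks_multiply, fromBlocks_multiply, fromBlocks_neg, fromBlocks_inj] at h3
      simp only [Matrix.mul_one, Matrix.mul_zero, add_zero, Matrix.mul_neg, zero_add,
        Matrix.one_mul, Matrix.zero_mul, Matrix.neg_mul, neg_neg, neg_zero, true_and,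
        and_true] at h3
      refine ⟨A', ?_⟩
      rw [h2, h3.2, neg_neg]
    choose J' hJ' using hJi
    have hJ'C : CliffJ J' := by
      constructor
      · intro i
        have h1 : (Qᵀ * J (sh i) * Q)ᵀ = -(Qᵀ * J (sh i) * Q) := by
          rw [transpose_mul, transpose_mul, transpose_transpose, (hJ.1 (sh i)).1]
          simp only [Matrix.mul_assoc, Matrix.neg_mul, Matrix.mul_neg]
        have h2 : (Qᵀ * J (sh i) * Q) * (Qᵀ * J (sh i) * Q) = -1 := by
          rw [hmul', (hJ.1 (sh i)).2]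
          simp [q2]
        rw [hJ', fromBlocks_transpose, fromBlocks_neg, fromBlocks_inj] at h1
        rw [hJ', fromBlocks_multiply, ← fromBlocks_one, fromBlocks_neg, fromBlocks_inj] at h2
        refine ⟨h1.1, ?_⟩
        simpa using h2.1
      · intro i j hij
        have h1 : (Qᵀ * J (sh i) * Q) * (Qᵀ * J (sh j) * Q) =
            -((Qᵀ * J (sh j) * Q) * (Qᵀ * J (sh i) * Q)) := by
          rw [hmul', hmul', hJ.2 _ _ (hssh i j hij)]
          simp only [Matrix.neg_mul, Matrix.mul_neg]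
        rw [hJ', hJ', fromBlocks_multiply, fromBlocks_multiply, fromBlocks_neg,
          fromBlocks_inj] at h1
        simpa using h1.1
    have hJ'c : ∀ i, D * J' i = J' i * D := by
      intro i
      have h1 : (Qᵀ * ω * Q) * (Qᵀ * J (sh i) * Q) = (Qᵀ * J (sh i) * Q) * (Qᵀ * ω * Q) := by
        rw [hmul', hmul', hc]
      rw [hJ', hAD, fromBlocks_multiply, fromBlocks_multiply, fromBlocks_inj] at h1
      simpa using h1.1
    obtain ⟨T', t1, t2, t3⟩ := ih D J' hCpx hJ'C hJ'c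
    have bω := hback _ _ hAD
    have bx := hback _ _ qx
    have ba := hback _ _ qa
    have bJ := fun i => hback _ _ (hJ' i)
    let B : Matrix (Fin r ⊕ Fin r) (Fin r ⊕ Fin r) ℝ := fromBlocks T' 0 0 (-T')
    have hTω : (Q * B * Qᵀ) * ω = -(ω * (Q * B * Qᵀ)) := by
      rw [bω, hmul, hmul, ← Matrix.neg_mul, ← Matrix.mul_neg]
      congr 2
      simp only [B]
      rw [fromBlocks_multiply, fromBlocks_multiply, fromBlocks_neg]
      simp [t2]
    have hTx : (Q * B * Qᵀ) * J j0 = -(J j0 * (Q * B * Qᵀ)) := by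
      rw [bx, hmul, hmul, ← Matrix.neg_mul, ← Matrix.mul_neg]
      congr 2
      simp only [B]
      rw [fromBlocks_multiply, fromBlocks_multiply, fromBlocks_neg]
      simp
    have hTa : (Q * B * Qᵀ) * a = a * (Q * B * Qᵀ) := by
      rw [ba, hmul, hmul]
      congr 2
      simp only [B]
      rw [fromBlocks_multiply, fromBlocks_multiply]
      simp
    refine ⟨Q * B * Qᵀ, ?_, hTω, ?_⟩
    · have h1 : (Q * B * Qᵀ)ᵀ = Q * Bᵀ * Qᵀ := by
        rw [transpose_mul, transpose_mul, transpose_transpose]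
        simp only [Matrix.mul_assoc]
      rw [h1, hmul]
      have h2 : Bᵀ * B = 1 := by
        simp only [B]
        rw [fromBlocks_transpose, fromBlocks_multiply]
        simp [t1]
      rw [h2, Matrix.mul_one, q1]
    · intro i
      by_cases hi0 : i.val = 0
      · have : i = j0 := Fin.ext hi0
        subst this
        rw [hTx]
        simp [j0]
      · by_cases hi1 : i.val = 1
        · have : i = j1 := Fin.ext hi1
          subst this
          have h1 : (Q * B * Qᵀ) * J j1 = J j1 * (Q * B * Qᵀ) := by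
            rw [yeq]
            calc (Q * B * Qᵀ) * (J j0 * (ω * a))
                = ((Q * B * Qᵀ) * J j0) * (ω * a) := by simp only [Matrix.mul_assoc]
              _ = -(J j0 * (((Q * B * Qᵀ) * ω) * a)) := by
                  rw [hTx]; simp only [Matrix.mul_assoc, Matrix.neg_mul]
              _ = J j0 * (ω * ((Q * B * Qᵀ) * a)) := by
                  rw [hTω]; simp only [Matrix.mul_assoc, Matrix.neg_mul, Matrix.mul_neg, neg_neg]
              _ = _ := by rw [hTa]; simp only [Matrix.mul_assoc]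
          rw [h1]
          simp [j1]
        · have hi := i.isLt
          have : i = sh ⟨i.val - 2, by omega⟩ := by
            apply Fin.ext
            simp only [sh]
            omega
          rw [this]
          generalize (⟨i.val - 2, by omega⟩ : Fin (2 * k)) = i'
          have hsgn : ((-1 : ℝ)) ^ ((sh i').val + 1) = (-1) ^ (i'.val + 1) := by
            simp only [sh]
            rw [show i'.val + 2 + 1 = (i'.val + 1) + 2 by ring, pow_add]
            norm_num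
          rw [hsgn, bJ, hmul, hmul]
          have h5 : B * fromBlocks (J' i') 0 0 (-J' i') =
              ((-1 : ℝ) ^ (i'.val + 1)) • (fromBlocks (J' i') 0 0 (-J' i') * B) := by
            simp only [B]
            rw [fromBlocks_multiply, fromBlocks_multiply, fromBlocks_smul]
            simp [t3]
          rw [h5]
          simp only [Matrix.mul_smul, Matrix.smul_mul]

end DT
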