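import Pool.Agent.H78.DT.Bott0

/-!
# Approximation by odd trigonometric polynomials (job DT-APX)

PROOF. Let `T` be the circle (`Circle`, or the subtype `{z : ℝ × ℝ | z.1² + z.2² = 1}`; compact
Hausdorff) and extend `A` to a continuous odd function `Â : T × Y → Matrix`:
`Â((cos πt, sin πt), y) = A(t, y)` and `Â((-cos πt, -sin πt), y) = -A(t, y)`, `t ∈ I`
(well defined and continuous since `A (1, y) = - A (0, y)`: two closed sets (upper and lower
closed half circles) on which it is given by continuous formulas, `t = arccos(z.1)/π`; they agree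
on the intersection `{(±1, 0)}`).
Stone-Weierstrass (`ContinuousMap.subalgebra_topologicalClosure_eq_top_of_separatesPoints`) for
the real subalgebra `𝒜` of `C(T × Y, ℝ)` of all finite sums of functions
`z.1^a * z.2^b * g(y)`, `g ∈ C(Y, ℝ)`: it separates points (`Y` compact Hausdorff).
Approximate every entry `Â_ij` within `δ` by `a_ij ∈ 𝒜` and replace `a_ij` by its odd part
`(a_ij(z, y) - a_ij(-z, y))/2`, which still approximates within `δ` since `Â_ij` is odd, and is a
finite sum of monomials `z.1^a z.2^b g(y)` with `a + b` odd.  On `z = (cos πt, sin πt)` every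
such monomial is an odd trigonometric polynomial in the sense of `Trig univ m` for every
`m ≥ (a+b-1)/2`: by induction on `a + b` (if `a + b = 1` it is `lin`; if `a ≥ 2` it is
`c² (c^{a-2}s^b g)` plus `s² · 0`, if `b ≥ 2` similarly); `Trig L` is increasing in `m`
(`F = c²F + s²F`) and stable under sums.
Finally let `Π` be a linear projection of `Matrix ι ι ℝ` onto the linear subspace `SymL e`
(exists, continuous as the space is finite dimensional); `P = Π (a_ij)` is
`Trig (SymL e) m` and `|A - P| ≤ ‖Π‖ |A - a|` is as small as we like.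
Choose `δ` so small that the segment from `A(p)` to `P(p)` consists of invertible matrices for
all `p` (compactness of `I × Y`: `A(p)` runs in a compact subset of the open set of
invertible matrices, which therefore has a positive distance to the complement).
The straight line homotopy `(1-u) A + u P` has values in `SymX e` and satisfies
`(1, y) = -(0, y)`, because `Trig` functions satisfy `F (1, y) = - F (0, y)`.
-/

open Matrix Set unitInterval Topology

noncomputable section

namespace DT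

section ApxAux

variable {Y V : Type} [TopologicalSpace Y] [TopologicalSpace V] [AddCommGroup V] [Module ℝ V]
  {L : Set V}

/-- cosine on the interval -/
private def apxC (t : I) : ℝ := Real.cos (Real.pi * (t : ℝ))

/-- sine on the interval -/
private def apxS (t : I) : ℝ := Real.sin (Real.pi * (t : ℝ))

private theorem apx_sq (t : I) : apxS t ^ 2 + apxC t ^ 2 = 1 := Real.sin_sq_add_cos_sq _

private theorem apx_contC : Continuous apxC := by unfold apxC; fun_prop

private theorem apx_contS : Continuous apxS := by unfold apxS; fun_prop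

private theorem apx_c0 : apxC 0 = 1 := by simp [apxC]

private theorem apx_s0 : apxS 0 = 0 := by simp [apxS]

private theorem apx_c1 : apxC 1 = -1 := by simp [apxC]

private theorem apx_s1 : apxS 1 = 0 := by simp [apxS]

private theorem apx_zero (h0 : (0 : V) ∈ L) (m : ℕ) : Trig (Y := Y) L m (fun _ => 0) := by
  induction m with
  | zero =>
    exact ⟨fun _ => 0, fun _ => 0, continuous_const, continuous_const, fun _ => h0, fun _ => h0,
      fun p => by simp [lin]⟩
  | succ m ih => exact ⟨_, _, ih, ih, fun p => by simp⟩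

private theorem apx_succ {m : ℕ} {F : I × Y → V} (h : Trig L m F) : Trig L (m + 1) F := by
  refine ⟨F, F, h, h, fun p => ?_⟩
  rw [← add_smul, Real.cos_sq_add_sin_sq, one_smul]

private theorem apx_le {m m' : ℕ} (hm : m ≤ m') {F : I × Y → V} (h : Trig L m F) :
    Trig L m' F := by
  induction m', hm using Nat.le_induction with
  | base => exact h
  | succ k _ ih => exact apx_succ ih

private theorem apx_congr {m : ℕ} {F G : I × Y → V} (h : Trig L m F) (hFG : ∀ p, F p = G p) :
    Trig L m G := by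
  rw [← funext hFG]
  exact h

private theorem apx_add [ContinuousAdd V] (hL : ∀ x ∈ L, ∀ y ∈ L, x + y ∈ L) (m : ℕ) :
    ∀ {F G : I × Y → V}, Trig L m F → Trig L m G → Trig L m (fun p => F p + G p) := by
  induction m with
  | zero =>
    rintro F G ⟨a, b, ha, hb, haL, hbL, hF⟩ ⟨a', b', ha', hb', haL', hbL', hG⟩
    refine ⟨fun y => a y + a' y, fun y => b y + b' y, ha.add ha', hb.add hb',
      fun y => hL _ (haL y) _ (haL' y), fun y => hL _ (hbL y) _ (hbL' y), fun p => ?_⟩
    beta_reduce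
    rw [hF, hG, lin, lin, lin, smul_add, smul_add]
    abel
  | succ m ih =>
    rintro F G ⟨A, B, hA, hB, hF⟩ ⟨A', B', hA', hB', hG⟩
    refine ⟨_, _, ih hA hA', ih hB hB', fun p => ?_⟩
    beta_reduce
    rw [hF, hG, smul_add, smul_add]
    abel

private theorem apx_vec [ContinuousSMul ℝ V] {v : V} (hL : ∀ r : ℝ, r • v ∈ L) (m : ℕ) :
    ∀ {F : I × Y → ℝ}, Trig (univ : Set ℝ) m F → Trig L m (fun p => F p • v) := by
  induction m with
  | zero =>
    rintro F ⟨a, b, ha, hb, -, -, hF⟩
    refine ⟨fun y => a y • v, fun y => b y • v, ha.smul continuous_const,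
      hb.smul continuous_const, fun y => hL _, fun y => hL _, fun p => ?_⟩
    beta_reduce
    rw [hF, lin, lin, add_smul, smul_assoc, smul_assoc]
  | succ m ih =>
    rintro F ⟨A, B, hA, hB, hF⟩
    refine ⟨_, _, ih hA, ih hB, fun p => ?_⟩
    beta_reduce
    rw [hF, add_smul, smul_assoc, smul_assoc]

private theorem apx_cont [ContinuousAdd V] [ContinuousSMul ℝ V] (m : ℕ) :
    ∀ {F : I × Y → V}, Trig L m F → Continuous F := by
  induction m with
  | zero =>
    rintro F ⟨a, b, ha, hb, -, -, hF⟩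
    have : F = fun p => lin (a p.2) (b p.2) (p.1 : ℝ) := funext hF
    rw [this]
    unfold lin
    fun_prop
  | succ m ih =>
    rintro F ⟨A, B, hA, hB, hF⟩
    have h1 := ih hA
    have h2 := ih hB
    rw [funext hF]
    fun_prop

private theorem apx_odd (m : ℕ) : ∀ {F : I × Y → V}, Trig L m F → ∀ y, F (1, y) = -F (0, y) := by
  induction m with
  | zero =>
    rintro F ⟨a, b, ha, hb, -, -, hF⟩ y
    rw [hF, hF]
    simp [lin]
  | succ m ih =>
    rintro F ⟨A, B, hA, hB, hF⟩ y
    have h1 := ih hA y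
    rw [hF, hF]
    simp [h1]

private theorem apx_sum [ContinuousAdd V] (h0 : (0 : V) ∈ L)
    (hL : ∀ x ∈ L, ∀ y ∈ L, x + y ∈ L) {κ : Type} (s : Finset κ) {F : κ → I × Y → V}
    (h : ∀ k, ∃ m, Trig L m (F k)) : ∃ m, Trig L m (fun p => ∑ k ∈ s, F k p) := by
  classical
  induction s using Finset.induction_on with
  | empty => exact ⟨0, by simpa using apx_zero (Y := Y) h0 0⟩
  | insert a s ha ih =>
    obtain ⟨m, hm⟩ := ih
    obtain ⟨m', hm'⟩ := h a
    refine ⟨max m m', ?_⟩
    simp_rw [Finset.sum_insert ha]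
    exact apx_add hL _ (apx_le (le_max_right _ _) hm') (apx_le (le_max_left _ _) hm)

/-- multiplication by `E` maps odd polynomials to odd polynomials -/
private def ApxM (E : I × Y → ℝ) : Prop :=
  ∀ (m : ℕ) (F : I × Y → ℝ), Trig (univ : Set ℝ) m F →
    ∃ m', Trig (univ : Set ℝ) m' (fun p => E p * F p)

private theorem apxM_Y {g : Y → ℝ} (hg : Continuous g) : ApxM (Y := Y) (fun p => g p.2) := by
  intro m
  induction m with
  | zero =>
    rintro F ⟨a, b, ha, hb, -, -, hF⟩
    refine ⟨0, fun y => g y * a y, fun y => g y * b y, hg.mul ha, hg.mul hb, fun _ => mem_univ _,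
      fun _ => mem_univ _, fun p => ?_⟩
    beta_reduce
    rw [hF, lin, lin]
    simp only [smul_eq_mul]
    ring
  | succ m ih =>
    rintro F ⟨A, B, hA, hB, hF⟩
    obtain ⟨m1, h1⟩ := ih A hA
    obtain ⟨m2, h2⟩ := ih B hB
    refine ⟨max m1 m2 + 1, _, _, apx_le (le_max_left _ _) h1, apx_le (le_max_right _ _) h2,
      fun p => ?_⟩
    beta_reduce
    rw [hF]
    simp only [smul_eq_mul]
    ring

private theorem apxM_cc : ApxM (Y := Y) (fun p => apxC p.1 ^ 2) := by
  intro m F hF
  refine ⟨m + 1, F, fun _ => 0, hF, apx_zero (mem_univ _) m, fun p => ?_⟩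
  simp [apxC]

private theorem apxM_cs : ApxM (Y := Y) (fun p => apxC p.1 * apxS p.1) := by
  intro m
  induction m with
  | zero =>
    rintro F ⟨a, b, ha, hb, -, -, hF⟩
    refine ⟨1, fun p => lin 0 (a p.2) (p.1 : ℝ), fun p => lin (b p.2) 0 (p.1 : ℝ),
      ⟨fun _ => 0, a, continuous_const, ha, fun _ => mem_univ _, fun _ => mem_univ _, fun p => rfl⟩,
      ⟨b, fun _ => 0, hb, continuous_const, fun _ => mem_univ _, fun _ => mem_univ _, fun p => rfl⟩,
      fun p => ?_⟩
    beta_reduce
    rw [hF]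
    simp only [lin, apxC, apxS, smul_eq_mul]
    ring
  | succ m ih =>
    rintro F ⟨A, B, hA, hB, hF⟩
    obtain ⟨m1, h1⟩ := ih A hA
    obtain ⟨m2, h2⟩ := ih B hB
    refine ⟨max m1 m2 + 1, _, _, apx_le (le_max_left _ _) h1, apx_le (le_max_right _ _) h2,
      fun p => ?_⟩
    beta_reduce
    rw [hF]
    simp only [smul_eq_mul]
    ring

private theorem apxM_add {E E' : I × Y → ℝ} (h : ApxM E) (h' : ApxM E') :
    ApxM (fun p => E p + E' p) := by
  intro m F hF
  obtain ⟨m1, h1⟩ := h m F hF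
  obtain ⟨m2, h2⟩ := h' m F hF
  refine ⟨max m1 m2, apx_congr (apx_add (fun _ _ _ _ => mem_univ _) _
    (apx_le (le_max_left _ _) h1) (apx_le (le_max_right _ _) h2)) fun p => ?_⟩
  ring

private theorem apxM_mul {E E' : I × Y → ℝ} (h : ApxM E) (h' : ApxM E') :
    ApxM (fun p => E p * E' p) := by
  intro m F hF
  obtain ⟨m1, h1⟩ := h' m F hF
  obtain ⟨m2, h2⟩ := h m1 _ h1
  exact ⟨m2, apx_congr h2 fun p => by ring⟩

/-- the coordinates -/
private def apxQ (p : I × Y) : ℝ × ℝ × Y := (apxC p.1 ^ 2, apxC p.1 * apxS p.1, p.2)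

private theorem apx_contQ : Continuous (apxQ (Y := Y)) := by
  have := apx_contC
  have := apx_contS
  unfold apxQ
  fun_prop

private theorem apx_fib {B : I × Y → ℝ} (hB : ∀ y, B (1, y) = B (0, y)) {p p' : I × Y}
    (h : apxQ p = apxQ p') : B p = B p' := by
  obtain ⟨t, y⟩ := p
  obtain ⟨t', y'⟩ := p'
  simp only [apxQ, Prod.mk.injEq] at h
  obtain ⟨h1, h2, rfl⟩ := h
  have h3 : Real.cos (Real.pi * (t : ℝ) - Real.pi * (t' : ℝ)) ^ 2 = 1 := by
    rw [Real.cos_sub]
    have e1 := apx_sq t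
    have e2 := apx_sq t'
    change (apxC t * apxC t' + apxS t * apxS t') ^ 2 = 1
    have e3 : (apxC t * apxC t' + apxS t * apxS t') ^ 2 =
        apxC t ^ 2 * apxC t' ^ 2 + 2 * (apxC t * apxS t) * (apxC t' * apxS t') +
          apxS t ^ 2 * apxS t' ^ 2 := by ring
    have e4 : (apxC t' * apxS t') * (apxC t' * apxS t') = apxC t' ^ 2 * apxS t' ^ 2 := by ring
    rw [e3, h2, mul_assoc 2, e4, h1]
    have e5 : apxS t ^ 2 = apxS t' ^ 2 := by linarith
    rw [e5]
    have e6 : apxS t' ^ 2 = 1 - apxC t' ^ 2 := by linarith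
    rw [e6]
    ring
  have h4 : Real.sin (Real.pi * (t : ℝ) - Real.pi * (t' : ℝ)) = 0 := by
    have := Real.sin_sq_add_cos_sq (Real.pi * (t : ℝ) - Real.pi * (t' : ℝ))
    rw [h3] at this
    exact pow_eq_zero_iff (n := 2) (by norm_num) |>.1 (by linarith)
  obtain ⟨n, hn⟩ := Real.sin_eq_zero_iff.1 h4
  have h5 : (t : ℝ) - t' = n := by
    have hp := Real.pi_pos
    have : Real.pi * ((t : ℝ) - t' - n) = 0 := by linarith
    rcases mul_eq_zero.1 this with h | h
    · exact absurd h hp.ne'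
    · linarith
  have ht0 := t.2.1
  have ht1 := t.2.2
  have ht0' := t'.2.1
  have ht1' := t'.2.2
  have hn1 : (-2 : ℝ) < n := by linarith
  have hn2 : (n : ℝ) < 2 := by linarith
  have hn1' : (-2 : ℤ) < n := by exact_mod_cast hn1
  have hn2' : n < (2 : ℤ) := by exact_mod_cast hn2
  have hn3 : n = -1 ∨ n = 0 ∨ n = 1 := by omega
  rcases hn3 with rfl | rfl | rfl
  · have e0 : t = 0 := Subtype.ext (by push_cast at h5; change (t : ℝ) = 0; linarith)
    have e1 : t' = 1 := Subtype.ext (by push_cast at h5; change (t' : ℝ) = 1; linarith)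
    rw [e0, e1, hB]
  · have e0 : t = t' := Subtype.ext (by push_cast at h5; linarith)
    rw [e0]
  · have e0 : t = 1 := Subtype.ext (by push_cast at h5; change (t : ℝ) = 1; linarith)
    have e1 : t' = 0 := Subtype.ext (by push_cast at h5; change (t' : ℝ) = 0; linarith)
    rw [e0, e1, hB]

variable [CompactSpace Y] [T2Space Y]

private theorem apx_even {B : I × Y → ℝ} (hc : Continuous B) (hB : ∀ y, B (1, y) = B (0, y))
    {δ : ℝ} (hδ : 0 < δ) : ∃ E : I × Y → ℝ, ApxM E ∧ ∀ p, |E p - B p| < δ := by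
  let Q : I × Y → range (apxQ (Y := Y)) := rangeFactorization apxQ
  have hQc : Continuous Q := apx_contQ.subtype_mk _
  haveI : CompactSpace (range (apxQ (Y := Y))) :=
    isCompact_iff_compactSpace.1 (isCompact_range apx_contQ)
  have hQs : Function.Surjective Q := rangeFactorization_surjective
  have hQ : Topology.IsQuotientMap Q := hQc.isClosedMap.isQuotientMap hQc hQs
  let f : C(range (apxQ (Y := Y)), ℝ) := hQ.lift (f := ⟨Q, hQc⟩) ⟨B, hc⟩ (by
    intro p p' h
    exact apx_fib hB (congrArg Subtype.val h))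
  have hf : ∀ p, f (Q p) = B p := by
    intro p
    have := hQ.lift_comp (f := ⟨Q, hQc⟩) ⟨B, hc⟩ (by
      intro p p' h
      exact apx_fib hB (congrArg Subtype.val h))
    exact congrArg (fun g : C(I × Y, ℝ) => g p) this
  let E1 : C(range (apxQ (Y := Y)), ℝ) := ⟨fun z => z.1.1, by fun_prop⟩
  let E2 : C(range (apxQ (Y := Y)), ℝ) := ⟨fun z => z.1.2.1, by fun_prop⟩
  let G : C(Y, ℝ) → C(range (apxQ (Y := Y)), ℝ) := fun g => ⟨fun z => g z.1.2.2, by fun_prop⟩
  let 𝒜 : Subalgebra ℝ C(range (apxQ (Y := Y)), ℝ) := Algebra.adjoin ℝ ({E1, E2} ∪ range G)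
  have hsep : 𝒜.SeparatesPoints := by
    rintro ⟨⟨x1, x2, y⟩, hx⟩ ⟨⟨x1', x2', y'⟩, hx'⟩ hne
    by_cases h1 : x1 = x1'
    · by_cases h2 : x2 = x2'
      · have hy : y ≠ y' := by
          intro hy
          subst h1 h2 hy
          exact hne rfl
        obtain ⟨g, hg0, hg1, -⟩ := exists_continuous_zero_one_of_isClosed
          (isClosed_singleton (x := y)) (isClosed_singleton (x := y'))
          (Set.disjoint_singleton.2 hy)
        refine ⟨_, ⟨G g, Algebra.subset_adjoin (Or.inr ⟨g, rfl⟩), rfl⟩, ?_⟩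
        change g y ≠ g y'
        rw [hg0 rfl, hg1 rfl]
        simp
      · exact ⟨_, ⟨E2, Algebra.subset_adjoin (Or.inl (Or.inr rfl)), rfl⟩, h2⟩
    · exact ⟨_, ⟨E1, Algebra.subset_adjoin (Or.inl (Or.inl rfl)), rfl⟩, h1⟩
  obtain ⟨⟨g, hg⟩, hgf⟩ := ContinuousMap.exists_mem_subalgebra_near_continuous_of_separatesPoints
    𝒜 hsep f f.continuous δ hδ
  refine ⟨fun p => g (Q p), ?_, fun p => ?_⟩
  · clear hgf
    induction hg using Algebra.adjoin_induction with
    | mem x hx =>
      rcases hx with (rfl | rfl) | ⟨g, rfl⟩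
      · exact apxM_cc
      · exact apxM_cs
      · exact apxM_Y g.continuous
    | algebraMap r => exact apxM_Y (g := fun _ => r) continuous_const
    | add x y _ _ hx hy => exact apxM_add hx hy
    | mul x y _ _ hx hy => exact apxM_mul hx hy
  · have := hgf (Q p)
    rw [hf, Real.norm_eq_abs] at this
    exact this

private theorem apx_scalar {α : I × Y → ℝ} (hc : Continuous α) (hα : ∀ y, α (1, y) = -α (0, y))
    {δ : ℝ} (hδ : 0 < δ) :
    ∃ (m : ℕ) (P : I × Y → ℝ), Trig (univ : Set ℝ) m P ∧ ∀ p, |P p - α p| < δ := by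
  have hC : Continuous fun p : I × Y => apxC p.1 := apx_contC.comp continuous_fst
  have hS : Continuous fun p : I × Y => apxS p.1 := apx_contS.comp continuous_fst
  obtain ⟨E1, h1, h1'⟩ := apx_even (B := fun p => apxC p.1 * α p) (hC.mul hc) (by
    intro y
    simp only [apx_c0, apx_c1, hα]
    ring) (half_pos hδ)
  obtain ⟨E2, h2, h2'⟩ := apx_even (B := fun p => apxS p.1 * α p) (hS.mul hc) (by
    intro y
    simp only [apx_s0, apx_s1]
    ring) (half_pos hδ)
  obtain ⟨m1, t1⟩ := h1 0 (fun p => lin 1 0 (p.1 : ℝ)) ⟨fun _ => 1, fun _ => 0, continuous_const,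
    continuous_const, fun _ => mem_univ _, fun _ => mem_univ _, fun p => rfl⟩
  obtain ⟨m2, t2⟩ := h2 0 (fun p => lin 0 1 (p.1 : ℝ)) ⟨fun _ => 0, fun _ => 1, continuous_const,
    continuous_const, fun _ => mem_univ _, fun _ => mem_univ _, fun p => rfl⟩
  refine ⟨max m1 m2, _, apx_add (fun _ _ _ _ => mem_univ _) _
    (apx_le (le_max_left _ _) t1) (apx_le (le_max_right _ _) t2), fun p => ?_⟩
  have e1 : E1 p * lin 1 0 (p.1 : ℝ) + E2 p * lin 0 1 (p.1 : ℝ) - α p =
      apxC p.1 * (E1 p - apxC p.1 * α p) + apxS p.1 * (E2 p - apxS p.1 * α p) := by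
    have e2 := apx_sq p.1
    have e3 : α p = (apxS p.1 ^ 2 + apxC p.1 ^ 2) * α p := by rw [e2, one_mul]
    have e4 : lin (1 : ℝ) 0 (p.1 : ℝ) = apxC p.1 := by simp [lin, apxC]
    have e5 : lin (0 : ℝ) 1 (p.1 : ℝ) = apxS p.1 := by simp [lin, apxS]
    rw [e4, e5]
    conv_lhs => rw [e3]
    ring
  rw [e1]
  have hc1 : |apxC p.1| ≤ 1 := Real.abs_cos_le_one _
  have hs1 : |apxS p.1| ≤ 1 := Real.abs_sin_le_one _
  have g1 := h1' p
  have g2 := h2' p
  calc |apxC p.1 * (E1 p - apxC p.1 * α p) + apxS p.1 * (E2 p - apxS p.1 * α p)|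
      ≤ |apxC p.1| * |E1 p - apxC p.1 * α p| + |apxS p.1| * |E2 p - apxS p.1 * α p| := by
        rw [← abs_mul, ← abs_mul]
        exact abs_add_le _ _
    _ ≤ 1 * |E1 p - apxC p.1 * α p| + 1 * |E2 p - apxS p.1 * α p| := by
        gcongr
    _ < δ := by linarith

end ApxAux

theorem apx {ε ι Y : Type} [Fintype ι] [DecidableEq ι] [TopologicalSpace Y] [CompactSpace Y]
    [T2Space Y] (e : ε → Matrix ι ι ℝ) (A : I × Y → Matrix ι ι ℝ) (hA : Continuous A)
    (hodd : OddF e A) :
    ∃ (m : ℕ) (P : I × Y → Matrix ι ι ℝ), Trig (SymL e) m P ∧ HP (OddF e) A P := by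
  classical
  let U : Submodule ℝ (Matrix ι ι ℝ) :=
    { carrier := SymL e
      add_mem' := by
        rintro x y ⟨hx, hx'⟩ ⟨hy, hy'⟩
        refine ⟨by rw [transpose_add, hx, hy], fun i => ?_⟩
        rw [add_mul, mul_add, hx', hy']
        abel
      zero_mem' := ⟨by simp, fun i => by simp⟩
      smul_mem' := by
        rintro r x ⟨hx, hx'⟩
        refine ⟨by rw [transpose_smul, hx], fun i => ?_⟩
        rw [smul_mul_assoc, mul_smul_comm, hx', smul_neg] }
  have hU : ∀ x, x ∈ U ↔ x ∈ SymL e := fun x => Iff.rfl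
  let b := Module.finBasis ℝ U
  let d := Module.finrank ℝ U
  have hAU : ∀ p, A p ∈ U := fun p => (hodd.1 p).1
  let α : Fin d → I × Y → ℝ := fun k p => b.repr ⟨A p, hAU p⟩ k
  have hαc : ∀ k, Continuous (α k) := by
    intro k
    have h1 : Continuous fun x : U => b.repr x k :=
      LinearMap.continuous_of_finiteDimensional (b.coord k)
    exact h1.comp (hA.subtype_mk hAU)
  have hαo : ∀ k y, α k (1, y) = -α k (0, y) := by
    intro k y
    have h1 : (⟨A (1, y), hAU (1, y)⟩ : U) = -⟨A (0, y), hAU (0, y)⟩ :=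
      Subtype.ext (hodd.2 y)
    change b.repr _ k = -(b.repr _ k)
    rw [h1, map_neg]
    rfl
  have hαs : ∀ p, A p = ∑ k, α k p • (b k : Matrix ι ι ℝ) := by
    intro p
    have h1 := b.sum_repr ⟨A p, hAU p⟩
    have h2 := congrArg (Subtype.val) h1
    have h3 : A p = ((∑ i, (b.repr ⟨A p, hAU p⟩) i • b i : U) : Matrix ι ι ℝ) := h2.symm
    rw [h3, Submodule.coe_sum]
    rfl
  -- the tube
  let Ψ : (I × Y) × (Fin d → ℝ) → Matrix ι ι ℝ := fun z =>
    A z.1 + ∑ k, z.2 k • (b k : Matrix ι ι ℝ)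
  have hΨ : Continuous Ψ := by
    have : Continuous fun z : (I × Y) × (Fin d → ℝ) => A z.1 := hA.comp continuous_fst
    refine this.add (continuous_finsetSum _ fun k _ => ?_)
    exact ((continuous_apply k).comp continuous_snd).smul continuous_const
  let O : Set ((I × Y) × (Fin d → ℝ)) := {z | (Ψ z).det ≠ 0}
  have hO : IsOpen O := isOpen_ne_fun hΨ.matrix_det continuous_const
  have hO0 : (univ : Set (I × Y)) ×ˢ ({0} : Set (Fin d → ℝ)) ⊆ O := by
    rintro ⟨p, x⟩ ⟨-, hx⟩
    have hx' : x = 0 := hx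
    subst hx'
    change (A p + ∑ k, (0 : Fin d → ℝ) k • (b k : Matrix ι ι ℝ)).det ≠ 0
    simp only [Pi.zero_apply, zero_smul, Finset.sum_const_zero, add_zero]
    exact ((Matrix.isUnit_iff_isUnit_det _).1 (hodd.1 p).2).ne_zero
  obtain ⟨u, v, -, hv, hu', hv', huv⟩ := generalized_tube_lemma isCompact_univ
    (isCompact_singleton (x := (0 : Fin d → ℝ))) hO hO0
  obtain ⟨δ, hδ, hδv⟩ := Metric.isOpen_iff.1 hv 0 (hv' rfl)
  choose m P hP hPα using fun k => apx_scalar (hαc k) (hαo k) hδ
  have hL0 : (0 : Matrix ι ι ℝ) ∈ SymL e := U.zero_mem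
  have hLa : ∀ x ∈ SymL e, ∀ y ∈ SymL e, x + y ∈ SymL e := fun x hx y hy =>
    U.add_mem (x := x) (y := y) hx hy
  obtain ⟨M, hM⟩ := apx_sum (Y := Y) (L := SymL e) hL0 hLa Finset.univ
    (F := fun k p => P k p • (b k : Matrix ι ι ℝ))
    (fun k => ⟨m k, apx_vec (fun r => U.smul_mem r (b k).2) _ (hP k)⟩)
  have hPc := apx_cont M hM
  refine ⟨M, _, hM, fun z => A z.2 + (z.1 : ℝ) • (∑ k, P k z.2 • (b k : Matrix ι ι ℝ) - A z.2),
    ?_, ?_, ?_, ?_⟩
  · have h1 : Continuous fun z : I × (I × Y) => A z.2 := hA.comp continuous_snd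
    have h2 : Continuous fun z : I × (I × Y) => ∑ k, P k z.2 • (b k : Matrix ι ι ℝ) :=
      hPc.comp continuous_snd
    have h3 : Continuous fun z : I × (I × Y) => (z.1 : ℝ) := by fun_prop
    exact h1.add (h3.smul (h2.sub h1))
  · intro r
    have hr0 : (0 : ℝ) ≤ r := r.2.1
    have hr1 : (r : ℝ) ≤ 1 := r.2.2
    refine ⟨fun p => ⟨?_, ?_⟩, fun y => ?_⟩
    · rw [← hU]
      refine U.add_mem (hAU p) (U.smul_mem _ (U.sub_mem (U.sum_mem fun k _ => ?_) (hAU p)))
      exact U.smul_mem _ (b k).2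
    · rw [Matrix.isUnit_iff_isUnit_det, isUnit_iff_ne_zero]
      have h1 : A p + (r : ℝ) • (∑ k, P k p • (b k : Matrix ι ι ℝ) - A p) =
          Ψ (p, fun k => (r : ℝ) * (P k p - α k p)) := by
        change _ = A p + ∑ k, ((r : ℝ) * (P k p - α k p)) • (b k : Matrix ι ι ℝ)
        congr 1
        conv_lhs => rw [hαs p]
        rw [← Finset.sum_sub_distrib, Finset.smul_sum]
        refine Finset.sum_congr rfl fun k _ => ?_
        rw [← sub_smul, smul_smul]
      beta_reduce
      rw [h1]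
      refine huv (a := (p, fun k => (r : ℝ) * (P k p - α k p))) ⟨hu' trivial, hδv ?_⟩
      rw [Metric.mem_ball, dist_zero_right, pi_norm_lt_iff hδ]
      intro k
      rw [Real.norm_eq_abs, abs_mul, abs_of_nonneg hr0]
      calc (r : ℝ) * |P k p - α k p| ≤ 1 * |P k p - α k p| :=
            mul_le_mul_of_nonneg_right hr1 (abs_nonneg _)
        _ < δ := by rw [one_mul]; exact hPα k p
    · have h1 := apx_odd M hM y
      have h2 := hodd.2 y
      simp only at h1 ⊢
      rw [h1, h2]
      module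
  · intro p
    simp
  · intro p
    simp

end DT
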