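import Pool.Agent.H78.DT.Dil
import Pool.Agent.H78.DT.SDb

/-!
# Avoiding antipodal coincidences (job DT-AVOID)

Let `ψ p = p`, `⟪Dψ(p) v, v⟫ > 0` for `v ≠ 0`.  There is `l > 0` such that `χ = δ_l ψ δ_l⁻¹` satisfies
`χ x ≠ -x` for all unit `x`.
PROOF. (a) `χ x = -x` with `z = δ_l⁻¹ x` means `ψ z = δ_l⁻¹ (- δ_l z) = δ_μ (-z)`, `μ = l⁻²`:
`δ_l⁻¹ (-δ_l z) = δ_{1/l²} (-z)`: with `ρ = 1`, `a = 1 + s`, `b = 1 - s` (`s = ⟪p,z⟫`, see Dil.lean):
`δ_l z = ((a - l²b) p + 2l z̄)/(a + l²b)`, `-z` has `a, b` exchanged: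
`δ_μ (-z) = ((b - μ²a) p - 2μ z̄)/(b + μ²a)`, where `z̄ = z - s p`.  It suffices to check
`δ_l (δ_μ (-z)) = -δ_l z`, i.e. by `dilf_mul` `δ_{lμ} (-z) = δ_{1/l} (-z) = - δ_l z`:
`δ_{1/l} (-z) = ((b - a/l²) p - (2/l) z̄)/(b + a/l²) = ((l²b - a) p - 2 l z̄)/(l²b + a) = -δ_l z`.  OK.
(b) Near `p`: there is an open neighbourhood `N` of `p` with `⟪ψ z - ⟪p, ψ z⟫ p, z̄⟫ > 0` for
unit `z ∈ N`, `z ≠ p`:
let `D = Dψ(p)`; by compactness `⟪D v, v⟫ ≥ κ ‖v‖²`, `κ > 0`.  For a unit `z` near `p` (`s > 0`)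
use homogeneity: `z = s (p + w)` with `w = z̄/s ⊥ p`, `ψ z = s ψ (p + w)`,
`ψ (p + w) = p + D w + R (w)`, `‖R w‖ ≤ (κ/2) ‖w‖` for small `w`.  So
`⟪ψ z, z̄⟫ = s² ⟪ψ (p+w), w⟫ = s² (⟪D w, w⟫ + ⟪R w, w⟫) ≥ s² (κ/2) ‖w‖² > 0` for `w ≠ 0` (`p ⊥ w`).
If `ψ z = δ_μ (-z)`, `z ∈ N`, `z ≠ p`, then `⟪ψ z, z̄⟫ = -2μ ‖z̄‖²/(b + μ²a) < 0`, a contradiction.
`z = p`: `ψ p = p ≠ -p = δ_μ (-p)`.
(c) Away from `p`: on the compact set `K = {z | ‖z‖ = 1, z ∉ N}` `⟪p, ψ z⟫ < 1` (`ψ z ≠ p` as `ψ` is injective on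
the sphere), so `⟪p, ψ z⟫ ≤ 1 - η`, and `b = 1 - s ≥ η'` on `K`, `η, η' > 0`.
`⟪p, δ_μ (-z)⟫ = (b - μ²a)/(b + μ²a) = 1 - 2μ²a/(b + μ²a) ≥ 1 - 4μ²/η' > 1 - η` for small `μ`.
So `ψ z ≠ δ_μ (-z)` for `z ∈ K`.
-/

open Set
open scoped ContDiff

noncomputable section

namespace DT

variable {E : Type} [NormedAddCommGroup E] [InnerProductSpace ℝ E] [FiniteDimensional ℝ E]

/-- `dilf` on minus a unit vector. -/
theorem avoid_neg {p z : E} (hz : ‖z‖ = 1) (m : ℝ) :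
    dilf p m (-z) = ((1 - inner ℝ p z) + m ^ 2 * (1 + inner ℝ p z))⁻¹ •
      (((1 - inner ℝ p z) - m ^ 2 * (1 + inner ℝ p z)) • p -
        (2 * m) • (z - (inner ℝ p z : ℝ) • p)) := by
  unfold dilf
  rw [norm_neg, hz, inner_neg_right, one_mul, sub_neg_eq_add, ← sub_eq_add_neg]
  congr 1
  module

theorem avoid_inv {p z : E} (hp : ‖p‖ = 1) (hz : ‖z‖ = 1) {l : ℝ} (hl : 0 < l) :
    dilf p l⁻¹ (-z) = - dilf p l z := by
  have hz0 : z ≠ 0 := by
    rw [← norm_ne_zero_iff, hz]; exact one_ne_zero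
  have hd := dilf_denom hp hz0 hl
  rw [hz] at hd
  rw [avoid_neg hz]
  unfold dilf
  rw [hz, one_mul]
  set s : ℝ := inner ℝ p z with hs
  have e1 : ((1 - s) + l⁻¹ ^ 2 * (1 + s))⁻¹ = l ^ 2 * ((1 + s) + l ^ 2 * (1 - s))⁻¹ := by
    have h2 : (1 - s) + l⁻¹ ^ 2 * (1 + s) ≠ 0 := by
      have : (1 - s) + l⁻¹ ^ 2 * (1 + s) = l⁻¹ ^ 2 * ((1 + s) + l ^ 2 * (1 - s)) := by
        field_simp
        ring
      rw [this]
      positivity
    have h3 := hd.ne'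
    rw [inv_eq_iff_eq_inv, mul_inv, inv_inv]
    field_simp
    ring
  rw [e1, mul_comm, mul_smul, ← smul_neg]
  congr 1
  rw [smul_sub, smul_smul, smul_smul]
  have e2 : l ^ 2 * (1 - s - l⁻¹ ^ 2 * (1 + s)) = l ^ 2 * (1 - s) - (1 + s) := by
    field_simp
  have e3 : l ^ 2 * (2 * l⁻¹) = 2 * l := by
    field_simp
  rw [e2, e3]
  module

theorem avoid_red (ψ : SDiff E) {p : E} (hp : ‖p‖ = 1) {l : ℝ} (hl : 0 < l) {x : E}
    (hx : ‖x‖ = 1)
    (h : ((dilS p hp l hl).comp (ψ.comp (dilS p hp l hl).symm)).f x = -x) :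
    ∃ z : E, ‖z‖ = 1 ∧ ψ.f z = dilf p (l⁻¹ ^ 2) (-z) := by
  have hl' := inv_pos.2 hl
  have h1 : dilf p l (ψ.f (dilf p l⁻¹ x)) = -x := h
  set z := dilf p l⁻¹ x with hz
  have hz1 : ‖z‖ = 1 := by rw [hz, dilf_norm hp hl', hx]
  have hxz : dilf p l z = x := by
    rw [hz, dilf_mul hp hl' hl, mul_inv_cancel₀ hl.ne', dilf_one hp]
  refine ⟨z, hz1, ?_⟩
  have h2 : dilf p l (dilf p (l⁻¹ ^ 2) (-z)) = -x := by
    rw [dilf_mul hp (by positivity) hl]
    have : l * l⁻¹ ^ 2 = l⁻¹ := by field_simp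
    rw [this, avoid_inv hp hz1 hl, hxz]
  have h3 := congrArg (dilf p l⁻¹) (h1.trans h2.symm)
  rwa [dilf_mul hp hl hl', dilf_mul hp hl hl', inv_mul_cancel₀ hl.ne', dilf_one hp,
    dilf_one hp] at h3

theorem avoid_kappa (D : E →L[ℝ] E) (hpos : ∀ v : E, v ≠ 0 → 0 < inner ℝ (D v) v) :
    ∃ κ : ℝ, 0 < κ ∧ ∀ v : E, κ * ‖v‖ ^ 2 ≤ inner ℝ (D v) v := by
  by_cases hne : (Metric.sphere (0 : E) 1).Nonempty
  · have hc : IsCompact (Metric.sphere (0 : E) 1) := isCompact_sphere 0 1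
    obtain ⟨v0, hv0, hmin⟩ := hc.exists_isMinOn hne
      (f := fun v => inner ℝ (D v) v) (by fun_prop)
    have hv0' : ‖v0‖ = 1 := by simpa using hv0
    have hv00 : v0 ≠ 0 := by rw [← norm_ne_zero_iff, hv0']; exact one_ne_zero
    refine ⟨inner ℝ (D v0) v0, hpos v0 hv00, fun v => ?_⟩
    by_cases hv : v = 0
    · subst hv; simp
    · have hn : 0 < ‖v‖ := norm_pos_iff.2 hv
      have h1 : (‖v‖⁻¹ • v) ∈ Metric.sphere (0 : E) 1 := by
        rw [mem_sphere_zero_iff_norm, norm_smul, norm_inv, norm_norm, inv_mul_cancel₀ hn.ne']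
      have h2 : inner ℝ (D v0) v0 ≤ inner ℝ (D (‖v‖⁻¹ • v)) (‖v‖⁻¹ • v) := hmin h1
      rw [map_smul, inner_smul_left, inner_smul_right] at h2
      simp only [conj_trivial] at h2
      have h3 := mul_le_mul_of_nonneg_right h2 (sq_nonneg ‖v‖)
      calc inner ℝ (D v0) v0 * ‖v‖ ^ 2 ≤ ‖v‖⁻¹ * (‖v‖⁻¹ * inner ℝ (D v) v) * ‖v‖ ^ 2 := h3
        _ = inner ℝ (D v) v := by field_simp
  · refine ⟨1, one_pos, fun v => ?_⟩
    by_cases hv : v = 0
    · subst hv; simp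
    · exfalso
      apply hne
      have hn : 0 < ‖v‖ := norm_pos_iff.2 hv
      exact ⟨‖v‖⁻¹ • v, by
        rw [mem_sphere_zero_iff_norm, norm_smul, norm_inv, norm_norm, inv_mul_cancel₀ hn.ne']⟩

/-- The estimate near `p`. -/
theorem avoid_near (ψ : SDiff E) (p : E) (hp : ‖p‖ = 1) (hfix : ψ.f p = p)
    (hpos : ∀ v : E, v ≠ 0 → 0 < inner ℝ (fderiv ℝ ψ.f p v) v) :
    ∃ δ : ℝ, 0 < δ ∧ δ ≤ 1 / 2 ∧ ∀ z : E, ‖z‖ = 1 → 1 - inner ℝ p z < δ → z ≠ p →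
      0 < inner ℝ (ψ.f z) (z - (inner ℝ p z : ℝ) • p) := by
  have hp0 : p ≠ 0 := by rw [← norm_ne_zero_iff, hp]; exact one_ne_zero
  obtain ⟨κ, hκ, hκv⟩ := avoid_kappa (fderiv ℝ ψ.f p) hpos
  have hd : HasFDerivAt ψ.f (fderiv ℝ ψ.f p) p := (ψ.diff hp0).hasFDerivAt
  rw [hasFDerivAt_iff_isLittleO_nhds_zero] at hd
  have hb := hd.bound (show 0 < κ / 2 by positivity)
  rw [Metric.eventually_nhds_iff] at hb
  obtain ⟨r, hr, hb⟩ := hb
  refine ⟨min (1 / 2) (r ^ 2 / 9), by positivity, min_le_left _ _, fun z hz hs hzp => ?_⟩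
  set s : ℝ := inner ℝ p z with hsdef
  have hs1 : 1 - s < 1 / 2 := lt_of_lt_of_le hs (min_le_left _ _)
  have hs2 : 1 - s < r ^ 2 / 9 := lt_of_lt_of_le hs (min_le_right _ _)
  have hs0 : 0 < s := by linarith
  have hsle : s ≤ 1 := by
    have := real_inner_le_norm p z
    rwa [hp, hz, one_mul] at this
  set w : E := s⁻¹ • (z - s • p) with hw
  have hpp : inner ℝ p p = (1 : ℝ) := by rw [real_inner_self_eq_norm_sq, hp]; norm_num
  have hzz : inner ℝ z z = (1 : ℝ) := by rw [real_inner_self_eq_norm_sq, hz]; norm_num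
  have hzw : z = s • (p + w) := by
    rw [hw, smul_add, smul_smul, mul_inv_cancel₀ hs0.ne', one_smul]
    abel
  have hzb : z - s • p = s • w := by
    rw [hw, smul_smul, mul_inv_cancel₀ hs0.ne', one_smul]
  have hpw : inner ℝ p w = (0 : ℝ) := by
    rw [hw, inner_smul_right, inner_sub_right, inner_smul_right, hpp, ← hsdef]
    ring
  have hnb : ‖z - s • p‖ ^ 2 = 1 - s ^ 2 := by
    rw [← real_inner_self_eq_norm_sq, inner_sub_left, inner_sub_right, inner_sub_right,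
      inner_smul_left, inner_smul_left, inner_smul_right, inner_smul_right, hpp, hzz,
      real_inner_comm p z, ← hsdef]
    simp only [conj_trivial]
    ring
  have hwn : ‖w‖ ^ 2 * s ^ 2 = 1 - s ^ 2 := by
    rw [← hnb]
    conv_rhs => rw [hzb, norm_smul, Real.norm_of_nonneg hs0.le]
    ring
  have hwr : ‖w‖ < r := by
    have h1 : ‖w‖ ^ 2 < r ^ 2 := by
      have h4 : 1 / 4 ≤ s ^ 2 := by nlinarith
      have h5 : ‖w‖ ^ 2 * (1 / 4) ≤ ‖w‖ ^ 2 * s ^ 2 :=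
        mul_le_mul_of_nonneg_left h4 (sq_nonneg _)
      have h6 : 1 - s ^ 2 ≤ 2 * (1 - s) := by nlinarith
      nlinarith
    exact lt_of_pow_lt_pow_left₀ 2 hr.le h1
  have hw0 : w ≠ 0 := by
    intro h0
    rw [h0, add_zero] at hzw
    have : ‖z‖ = s := by rw [hzw, norm_smul, hp, mul_one, Real.norm_of_nonneg hs0.le]
    rw [hz] at this
    rw [← this, one_smul] at hzw
    exact hzp hzw
  have hbw := hb (y := w) (by rwa [dist_zero_right])
  rw [hfix] at hbw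
  set R : E := ψ.f (p + w) - p - fderiv ℝ ψ.f p w with hR
  have hψ : ψ.f (p + w) = p + fderiv ℝ ψ.f p w + R := by rw [hR]; abel
  rw [hzb]
  have hψz : ψ.f z = s • ψ.f (p + w) := by
    conv_lhs => rw [hzw]
    exact ψ.f_hom s hs0 _
  rw [hψz, inner_smul_left, inner_smul_right, hψ, inner_add_left, inner_add_left, hpw, zero_add]
  simp only [conj_trivial]
  have h7 := hκv w
  have h8 : |inner ℝ R w| ≤ ‖R‖ * ‖w‖ := abs_real_inner_le_norm R w
  have h9 : ‖R‖ * ‖w‖ ≤ κ / 2 * ‖w‖ * ‖w‖ :=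
    mul_le_mul_of_nonneg_right hbw (norm_nonneg _)
  have h10 := neg_abs_le (inner ℝ R w : ℝ)
  have hwp : 0 < ‖w‖ := norm_pos_iff.2 hw0
  have h11 : 0 < κ / 2 * ‖w‖ ^ 2 := by positivity
  have h12 : 0 < inner ℝ (fderiv ℝ ψ.f p w) w + inner ℝ R w := by nlinarith
  positivity

/-- The estimate away from `p`. -/
theorem avoid_far (ψ : SDiff E) (p : E) (hp : ‖p‖ = 1) (hfix : ψ.f p = p) {δ : ℝ} (hδ : 0 < δ) :
    ∃ η : ℝ, 0 < η ∧ ∀ z : E, ‖z‖ = 1 → δ ≤ 1 - inner ℝ p z → inner ℝ p (ψ.f z) ≤ 1 - η := by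
  set K : Set E := {z | ‖z‖ = 1 ∧ δ ≤ 1 - inner ℝ p z} with hK
  have hKc : IsCompact K := by
    have h1 : K = Metric.sphere (0 : E) 1 ∩ {z | δ ≤ 1 - inner ℝ p z} := by
      ext z
      simp [hK]
    rw [h1]
    refine (isCompact_sphere 0 1).inter_right ?_
    exact isClosed_le continuous_const (by fun_prop)
  by_cases hne : K.Nonempty
  · have hcont : ContinuousOn (fun z => (inner ℝ p (ψ.f z) : ℝ)) K := by
      have h2 : ContinuousOn ψ.f K := ψ.f_smooth.continuousOn.mono (by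
        intro z hz
        rw [mem_compl_singleton_iff, ← norm_ne_zero_iff, hz.1]
        exact one_ne_zero)
      exact continuousOn_const.inner h2
    obtain ⟨z0, hz0, hmax⟩ := hKc.exists_isMaxOn hne hcont
    refine ⟨1 - inner ℝ p (ψ.f z0), ?_, fun z hz1 hz2 => ?_⟩
    · have hψ1 : ‖ψ.f z0‖ = 1 := by rw [ψ.f_norm]; exact hz0.1
      have hle : inner ℝ p (ψ.f z0) ≤ (1 : ℝ) := by
        have := real_inner_le_norm p (ψ.f z0)
        rwa [hp, hψ1, one_mul] at this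
      rcases lt_or_eq_of_le hle with h | h
      · linarith
      · exfalso
        rw [inner_eq_one_iff_of_norm_eq_one hp hψ1] at h
        have h3 : z0 = p := by
          rw [← ψ.gf z0, ← h]
          conv_lhs => rw [← hfix]
          exact ψ.gf p
        have h4 := hz0.2
        rw [h3, real_inner_self_eq_norm_sq, hp] at h4
        linarith
    · have h5 : inner ℝ p (ψ.f z) ≤ inner ℝ p (ψ.f z0) := hmax ⟨hz1, hz2⟩
      linarith
  · refine ⟨1, one_pos, fun z hz1 hz2 => ?_⟩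
    exact absurd ⟨z, hz1, hz2⟩ hne

theorem dil_avoid (ψ : SDiff E) (p : E) (hp : ‖p‖ = 1) (hfix : ψ.f p = p)
    (hpos : ∀ v : E, v ≠ 0 → 0 < inner ℝ (fderiv ℝ ψ.f p v) v) :
    ∃ (l : ℝ) (hl : 0 < l), ∀ x : E, ‖x‖ = 1 →
      ((dilS p hp l hl).comp (ψ.comp (dilS p hp l hl).symm)).f x ≠ -x := by
  obtain ⟨δ, hδ, hδ2, hnear⟩ := avoid_near ψ p hp hfix hpos
  obtain ⟨η, hη, hfar⟩ := avoid_far ψ p hp hfix hδ
  set l : ℝ := 1 + 8 / (δ * η) with hldef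
  have hc : 0 < 8 / (δ * η) := by positivity
  have hl : 0 < l := by positivity
  refine ⟨l, hl, fun x hx h => ?_⟩
  obtain ⟨z, hz, hψz⟩ := avoid_red ψ hp hl hx h
  have hpp : inner ℝ p p = (1 : ℝ) := by rw [real_inner_self_eq_norm_sq, hp]; norm_num
  have hzz : inner ℝ z z = (1 : ℝ) := by rw [real_inner_self_eq_norm_sq, hz]; norm_num
  have hp0 : p ≠ 0 := by rw [← norm_ne_zero_iff, hp]; exact one_ne_zero
  have hz0 : z ≠ 0 := by rw [← norm_ne_zero_iff, hz]; exact one_ne_zero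
  set m : ℝ := l⁻¹ ^ 2 with hm
  have hm0 : 0 < m := by positivity
  rw [avoid_neg hz] at hψz
  set s : ℝ := inner ℝ p z with hs
  have hden : 0 < (1 - s) + m ^ 2 * (1 + s) := by
    have h1 := dilf_denom hp (neg_ne_zero.2 hz0) hm0
    rwa [norm_neg, hz, inner_neg_right, sub_neg_eq_add, ← sub_eq_add_neg] at h1
  have hsle : s ≤ 1 := by
    have := real_inner_le_norm p z
    rwa [hp, hz, one_mul] at this
  have hpz : inner ℝ p (z - s • p) = (0 : ℝ) := by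
    rw [inner_sub_right, inner_smul_right, hpp, ← hs]
    ring
  rcases lt_or_ge (1 - s) δ with hcase | hcase
  · by_cases hzp : z = p
    · have hs1 : s = 1 := by rw [hs, hzp, hpp]
      rw [hs1, hzp, hfix] at hψz
      have h2 : p = -p := by
        conv_lhs => rw [hψz]
        rw [one_smul, sub_self, zero_add, zero_sub, sub_self, smul_zero, sub_zero, smul_smul,
          mul_neg, inv_mul_cancel₀ (by positivity), neg_one_smul]
      have h3 : (2 : ℝ) • p = 0 := by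
        rw [two_smul]
        nth_rw 2 [h2]
        exact add_neg_cancel p
      rw [smul_eq_zero] at h3
      rcases h3 with h3 | h3
      · norm_num at h3
      · exact hp0 h3
    · have h4 := hnear z hz hcase hzp
      rw [hψz, inner_smul_left, inner_sub_left, inner_smul_left, ← hs, hpz, inner_smul_left] at h4
      simp only [conj_trivial, mul_zero, zero_sub] at h4
      have h5 : (0 : ℝ) ≤ inner ℝ (z - s • p) (z - s • p) := real_inner_self_nonneg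
      have h6 : 0 < ((1 - s) + m ^ 2 * (1 + s))⁻¹ := inv_pos.2 hden
      have h7 : 0 ≤ ((1 - s) + m ^ 2 * (1 + s))⁻¹ * (2 * m * inner ℝ (z - s • p) (z - s • p)) := by
        positivity
      linarith
  · have h4 := hfar z hz hcase
    rw [hψz, inner_smul_right, inner_sub_right, inner_smul_right, inner_smul_right, hpp, hpz,
      mul_one, mul_zero, sub_zero] at h4
    have h5 : (1 - s) - m ^ 2 * (1 + s) ≤ (1 - η) * ((1 - s) + m ^ 2 * (1 + s)) := by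
      rw [inv_mul_le_iff₀ hden] at h4
      linarith
    -- `η (1 - s) ≤ m² (1 + s) (2 - η)`
    have hm2 : m ^ 2 ≤ δ * η / 8 := by
      have hl1 : 1 ≤ l := by linarith
      have hl8 : 8 / (δ * η) ≤ l := by linarith
      have h6 : l ≤ l ^ 4 := le_self_pow₀ hl1 (by norm_num)
      have h7 : 8 / (δ * η) ≤ l ^ 4 := hl8.trans h6
      have h8 : m ^ 2 = (l ^ 4)⁻¹ := by rw [hm]; field_simp
      rw [h8, inv_le_comm₀ (by positivity) (by positivity)]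
      have h9 : (δ * η / 8)⁻¹ = 8 / (δ * η) := by field_simp
      rw [h9]
      exact h7
    have h10 : 0 ≤ m ^ 2 := sq_nonneg m
    have h11 : η * δ ≤ η * (1 - s) := mul_le_mul_of_nonneg_left hcase hη.le
    have h12 : m ^ 2 * (1 + s) ≤ m ^ 2 * 2 := mul_le_mul_of_nonneg_left (by linarith) h10
    have hs_ge : -1 ≤ s := by
      have := neg_le_of_abs_le (abs_real_inner_le_norm p z)
      rwa [hp, hz, one_mul] at this
    have h13 : 0 ≤ m ^ 2 * (1 + s) := mul_nonneg h10 (by linarith)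
    have h14 : 0 ≤ η * (m ^ 2 * (1 + s)) := mul_nonneg hη.le h13
    have h15 : 0 < η * δ := mul_pos hη hδ
    nlinarith

end DT
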