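import Mathlib

/-!
# Basic notions for MP_3c9ef3_gt (reparametrised Dehn twists)

* `HP P f g`: `f` and `g` are homotopic through maps satisfying `P`
  (continuous homotopy `H : I × X → Y`, every stage `H (u, ·)` satisfies `P`).
* `HIn A f g`: homotopic through maps with values in `A`.
* `HRel A S f g`: the same, and constant on `S`.
* `US κ`: the unit sphere of `κ → ℝ` (for the dot product), `Sp k`: the `k`-sphere.
* `SOs ι`, `GLp ι`: the special orthogonal matrices, the matrices of positive determinant.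
-/

open Matrix Set unitInterval Topology

noncomputable section

namespace DT

section homotopy

variable {X Y Z : Type*} [TopologicalSpace X] [TopologicalSpace Y] [TopologicalSpace Z]

/-- Homotopic through maps satisfying `P`. -/
def HP (P : (X → Y) → Prop) (f g : X → Y) : Prop :=
  ∃ H : I × X → Y, Continuous H ∧ (∀ u : I, P fun x => H (u, x)) ∧
    (∀ x, H (0, x) = f x) ∧ ∀ x, H (1, x) = g x

theorem HP.left {P : (X → Y) → Prop} {f g : X → Y} (h : HP P f g) : Continuous f ∧ P f := by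
  obtain ⟨H, hc, hP, h0, -⟩ := h
  have : f = fun x => H (0, x) := by ext x; exact (h0 x).symm
  rw [this]
  exact ⟨hc.comp (by fun_prop), hP 0⟩

theorem HP.right {P : (X → Y) → Prop} {f g : X → Y} (h : HP P f g) : Continuous g ∧ P g := by
  obtain ⟨H, hc, hP, -, h1⟩ := h
  have : g = fun x => H (1, x) := by ext x; exact (h1 x).symm
  rw [this]
  exact ⟨hc.comp (by fun_prop), hP 1⟩

theorem HP.refl {P : (X → Y) → Prop} {f : X → Y} (hf : Continuous f) (hP : P f) : HP P f f :=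
  ⟨fun p => f p.2, hf.comp continuous_snd, fun _ => hP, fun _ => rfl, fun _ => rfl⟩

theorem HP.symm {P : (X → Y) → Prop} {f g : X → Y} (h : HP P f g) : HP P g f := by
  obtain ⟨H, hc, hP, h0, h1⟩ := h
  refine ⟨fun p => H (unitInterval.symm p.1, p.2), hc.comp (by fun_prop), fun u => hP (unitInterval.symm u), ?_, ?_⟩
  · intro x; simpa using h1 x
  · intro x; simpa using h0 x

theorem HP.trans {P : (X → Y) → Prop} {f g h : X → Y} (h1 : HP P f g) (h2 : HP P g h) :
    HP P f h := by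
  have hf := h1.left
  have hg := h1.right
  have hh := h2.right
  obtain ⟨H, hc, hP, h10, h11⟩ := h1
  obtain ⟨K, kc, kP, k10, k11⟩ := h2
  let F : ContinuousMap.HomotopyWith (⟨f, hf.1⟩ : C(X, Y)) ⟨g, hg.1⟩ (fun q => P q) :=
    { toFun := H
      continuous_toFun := hc
      map_zero_left := h10
      map_one_left := h11
      prop' := fun u => hP u }
  let G : ContinuousMap.HomotopyWith (⟨g, hg.1⟩ : C(X, Y)) ⟨h, hh.1⟩ (fun q => P q) :=
    { toFun := K
      continuous_toFun := kc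
      map_zero_left := k10
      map_one_left := k11
      prop' := fun u => kP u }
  let T := F.trans G
  exact ⟨fun p => T p, T.continuous, fun u => T.prop u, fun x => T.apply_zero x,
    fun x => T.apply_one x⟩

theorem HP.mono {P Q : (X → Y) → Prop} {f g : X → Y} (h : HP P f g) (hPQ : ∀ q, P q → Q q) :
    HP Q f g := by
  obtain ⟨H, hc, hP, h0, h1⟩ := h
  exact ⟨H, hc, fun u => hPQ _ (hP u), h0, h1⟩

/-- Post-composition with a continuous family `Φ (x, ·)`. -/
theorem HP.map {P : (X → Y) → Prop} {Q : (X → Z) → Prop} {f g : X → Y} (h : HP P f g)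
    (Φ : X × Y → Z) (hΦ : Continuous Φ)
    (hPQ : ∀ q : X → Y, P q → Q fun x => Φ (x, q x)) :
    HP Q (fun x => Φ (x, f x)) (fun x => Φ (x, g x)) := by
  obtain ⟨H, hc, hP, h0, h1⟩ := h
  refine ⟨fun p => Φ (p.2, H p), hΦ.comp (by fun_prop), fun u => hPQ _ (hP u), ?_, ?_⟩
  · intro x; simp [h0 x]
  · intro x; simp [h1 x]

/-- Pre-composition. -/
theorem HP.comp {P : (X → Y) → Prop} {Q : (Z → Y) → Prop} {f g : X → Y} (h : HP P f g)
    (φ : Z → X) (hφ : Continuous φ) (hPQ : ∀ q : X → Y, P q → Q fun z => q (φ z)) :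
    HP Q (fun z => f (φ z)) (fun z => g (φ z)) := by
  obtain ⟨H, hc, hP, h0, h1⟩ := h
  refine ⟨fun p => H (p.1, φ p.2), hc.comp (by fun_prop), fun u => hPQ _ (hP u), ?_, ?_⟩
  · intro x; simp [h0 (φ x)]
  · intro x; simp [h1 (φ x)]

/-- Homotopic through maps with values in `A`. -/
def HIn (A : Set Y) (f g : X → Y) : Prop := HP (fun q => ∀ x, q x ∈ A) f g

/-- Homotopic through maps with values in `A`, relative to `S`. -/
def HRel (A : Set Y) (S : Set X) (f g : X → Y) : Prop :=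
  HP (fun q => (∀ x, q x ∈ A) ∧ ∀ x ∈ S, q x = f x) f g

variable {A : Set Y} {B : Set Z} {S : Set X} {f g h : X → Y}

theorem HIn.refl (hf : Continuous f) (hA : ∀ x, f x ∈ A) : HIn A f f := HP.refl hf hA

theorem HIn.symm (h : HIn A f g) : HIn A g f := HP.symm h

theorem HIn.trans (h1 : HIn A f g) (h2 : HIn A g h) : HIn A f h := HP.trans h1 h2

theorem HIn.continuous_left (h : HIn A f g) : Continuous f := h.left.1
theorem HIn.continuous_right (h : HIn A f g) : Continuous g := h.right.1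
theorem HIn.mem_left (h : HIn A f g) (x : X) : f x ∈ A := h.left.2 x
theorem HIn.mem_right (h : HIn A f g) (x : X) : g x ∈ A := h.right.2 x

/-- Post-composition of a homotopy with a continuous family of maps carrying `A` to `B`. -/
theorem HIn.map (h : HIn A f g) (Φ : X × Y → Z) (hΦ : Continuous Φ)
    (hAB : ∀ x, ∀ y ∈ A, Φ (x, y) ∈ B) :
    HIn B (fun x => Φ (x, f x)) (fun x => Φ (x, g x)) :=
  HP.map h Φ hΦ (fun _ hq x => hAB x _ (hq x))

theorem HIn.map' (h : HIn A f g) (Φ : Y → Z) (hΦ : Continuous Φ)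
    (hAB : ∀ y ∈ A, Φ y ∈ B) :
    HIn B (fun x => Φ (f x)) (fun x => Φ (g x)) :=
  h.map (fun p => Φ p.2) (hΦ.comp continuous_snd) (fun _ y hy => hAB y hy)

theorem HIn.comp {W : Type*} [TopologicalSpace W] (h : HIn A f g) (φ : W → X)
    (hφ : Continuous φ) : HIn A (fun w => f (φ w)) (fun w => g (φ w)) :=
  HP.comp h φ hφ (fun _ hq w => hq (φ w))

theorem HIn.mono {A' : Set Y} (h : HIn A f g) (hA : A ⊆ A') : HIn A' f g :=
  HP.mono h (fun _ hq x => hA (hq x))

/-- Pointwise combination of two homotopies. -/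
theorem HIn.map₂ {W : Type*} [TopologicalSpace W] {C : Set W} {f' g' : X → Z}
    (h : HIn A f g) (h' : HIn B f' g') (Φ : Y → Z → W)
    (hΦ : Continuous fun p : Y × Z => Φ p.1 p.2)
    (hABC : ∀ y ∈ A, ∀ z ∈ B, Φ y z ∈ C) :
    HIn C (fun x => Φ (f x) (f' x)) (fun x => Φ (g x) (g' x)) := by
  obtain ⟨H, hc, hP, h0, h1⟩ := h
  obtain ⟨K, kc, kP, k0, k1⟩ := h'
  refine ⟨fun p => Φ (H p) (K p), hΦ.comp (hc.prodMk kc), fun u x => hABC _ (hP u x) _ (kP u x),
    ?_, ?_⟩
  · intro x; simp only [h0, k0]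
  · intro x; simp only [h1, k1]

theorem HRel.hIn (h : HRel A S f g) : HIn A f g := HP.mono h (fun _ hq => hq.1)

theorem HRel.eqOn (h : HRel A S f g) {x : X} (hx : x ∈ S) : g x = f x := h.right.2.2 x hx

theorem HRel.refl (hf : Continuous f) (hA : ∀ x, f x ∈ A) : HRel A S f f :=
  HP.refl hf ⟨hA, fun _ _ => rfl⟩

theorem HRel.symm (h : HRel A S f g) : HRel A S g f :=
  HP.symm (HP.mono h (fun _ hq => ⟨hq.1, fun x hx => (hq.2 x hx).trans (h.eqOn hx).symm⟩))

theorem HRel.trans (h1 : HRel A S f g) (h2 : HRel A S g h) : HRel A S f h :=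
  HP.trans h1 (HP.mono h2 (fun _ hq => ⟨hq.1, fun x hx => (hq.2 x hx).trans (h1.eqOn hx)⟩))

theorem HRel.comp {W : Type*} [TopologicalSpace W] (h : HRel A S f g) (φ : W → X)
    (hφ : Continuous φ) {T : Set W} (hT : ∀ w ∈ T, φ w ∈ S) :
    HRel A T (fun w => f (φ w)) (fun w => g (φ w)) :=
  HP.comp h φ hφ (fun _ hq => ⟨fun w => hq.1 (φ w), fun w hw => hq.2 _ (hT w hw)⟩)

end homotopy

/-- The unit sphere of `κ → ℝ`, for the Euclidean norm. -/
def US (κ : Type*) [Fintype κ] : Set (κ → ℝ) := {v | v ⬝ᵥ v = 1}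

/-- The `k`-sphere. -/
abbrev Sp (k : ℕ) : Type := ↥(US (Fin (k + 1)))

/-- The special orthogonal matrices. -/
def SOs (ι : Type*) [Fintype ι] [DecidableEq ι] : Set (Matrix ι ι ℝ) :=
  {M | Mᵀ * M = 1 ∧ M.det = 1}

/-- The orthogonal matrices. -/
def OOs (ι : Type*) [Fintype ι] [DecidableEq ι] : Set (Matrix ι ι ℝ) := {M | Mᵀ * M = 1}

/-- The matrices of positive determinant. -/
def GLp (ι : Type*) [Fintype ι] [DecidableEq ι] : Set (Matrix ι ι ℝ) := {M | 0 < M.det}

/-- The Euclidean norm of a vector. -/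
def nr {κ : Type*} [Fintype κ] (v : κ → ℝ) : ℝ := Real.sqrt (v ⬝ᵥ v)

/-- The suspension coordinate: `(cos πt, sin πt · y)`. -/
def sv {k : ℕ} (t : ℝ) (y : Fin k → ℝ) : Fin (k + 1) → ℝ :=
  Fin.cons (Real.cos (Real.pi * t)) (Real.sin (Real.pi * t) • y)

theorem sv_mem {k : ℕ} (t : ℝ) {y : Fin k → ℝ} (hy : y ∈ US (Fin k)) :
    sv t y ∈ US (Fin (k + 1)) := by
  have h : y ⬝ᵥ y = 1 := hy
  unfold US sv
  simp only [mem_ofPred_eq, dotProduct, Fin.sum_univ_succ, Fin.cons_zero, Fin.cons_succ,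
    Pi.smul_apply, smul_eq_mul]
  have : ∑ i, Real.sin (Real.pi * t) * y i * (Real.sin (Real.pi * t) * y i)
      = Real.sin (Real.pi * t) ^ 2 * (y ⬝ᵥ y) := by
    rw [dotProduct, Finset.mul_sum]; exact Finset.sum_congr rfl fun i _ => by ring
  rw [this, h]
  nlinarith [Real.sin_sq_add_cos_sq (Real.pi * t)]

/-- The map `I × Sᵏ → Sᵏ⁺¹`. -/
def susp {k : ℕ} (p : I × Sp k) : Sp (k + 1) := ⟨sv (p.1 : ℝ) p.2.1, sv_mem _ p.2.2⟩

/-- Normalisation of a nonzero vector. -/
def nrm {κ : Type*} [Fintype κ] (v : κ → ℝ) : κ → ℝ := (nr v)⁻¹ • v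

/-- The cone (positively homogeneous extension) of a map `P × Sᵏ → V`:
`cone g (p, v) = |v| g (p, v/|v|)` and `0` for `v = 0`. -/
def cone {k : ℕ} {P V : Type*} [AddCommGroup V] [Module ℝ V] (g : P × Sp k → V)
    (q : P × (Fin (k + 1) → ℝ)) : V :=
  open Classical in
  if h : (nrm q.2) ∈ US (Fin (k + 1)) then nr q.2 • g (q.1, ⟨nrm q.2, h⟩) else 0

/-- The fibrewise suspension of a map `P × Sᵏ → Sᵏ`:
`(x₀, x') ↦ (x₀, |x'| g (x'/|x'|))`. -/
def suspF {k : ℕ} {P : Type*} (g : P × Sp k → (Fin (k + 1) → ℝ)) (q : P × Sp (k + 1)) :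
    Fin (k + 2) → ℝ :=
  Fin.cons (q.2.1 0) (cone g (q.1, Fin.tail q.2.1))

/-- The positive pole. -/
def north (k : ℕ) : Fin (k + 1) → ℝ := Fin.cons 1 0

end DT
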