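import Pool.Agent.H78.DT.Basic
import Pool.Agent.H78.DT.Aff

/-!
# Smoothing of paths of vertical bundle maps (job DT-BETA)

`VE L`: `L x` (for unit `x`) has positive determinant, fixes `x`, and `⟪x, L x v⟫ = ⟪x, v⟫`.
`beta_smooth`: if `b` is smooth on the unit sphere and homotopic to the identity through
continuous families with `VE`, then `(x, v) ↦ (x, b x v)` is smoothly isotopic to the identity.
PROOF. Let `S` be the unit sphere, `H : I × S → (E →L[ℝ] E)` the homotopy.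
(1) The image of `H` is compact and contained in the open set `{det > 0}`, so there is `ε > 0` with:
`‖M - H (t,x)‖ < ε` implies `0 < det M`.
(2) By Stone-Weierstrass (on the compact `I × S`, the subalgebra of restrictions of `C^∞` functions
`ℝ × E → ℝ` separates points; componentwise in a basis of `E →L[ℝ] E`) there is a `C^∞` map
`P : ℝ × E → (E →L[ℝ] E)` with `‖P (t,x) - H (t,x)‖ < ε` on `I × S`.  (LowDim.lean has a `C^1` version to copy.)
(3) `Π_x v = v - ⟪x,v⟫ x`, `‖Π_x‖ ≤ 1` (`‖x‖ = 1`), `N (t,x) = Π_x P (t,x) Π_x + x xᵀ`,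
i.e. `N (t,x) v = Π_x (P (t,x) (Π_x v)) + ⟪x,v⟫ x`: a smooth function of `(t,x)`.
`H = Π_x H Π_x + x xᵀ`: `H v = H (Π_x v) + ⟪x,v⟫ x` and `⟪x, H Π_x v⟫ = ⟪x, Π_x v⟫ = 0`.  So
`‖N - H‖ = ‖Π_x (P - H) Π_x‖ < ε` and `det N (t,x) > 0`; `N x = x`, `⟪x, N v⟫ = ⟪x, v⟫`.
(4) Three applications of `aff_diso` with `f (t,x) = g (t,x) = x`, `c = 0` (`B v = 0 → v = 0` because
`det B ≠ 0`), and `DIso.trans`, `DIso.congr`: `B (t,x) = (1-t) b x + t N (0,x)` (within `ε` of
`H (0,x) = b x`), `B (t,x) = N (t,x)`, and `B (t,x) = (1-t) N (1,x) + t id` (within `ε` of `H (1,x) = id`).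
-/

open Set Metric unitInterval
open scoped ContDiff

noncomputable section

namespace DT

/-- Families of linear maps on the unit sphere, fixing `x`, preserving its orthogonal
complement, with positive determinant. -/
def VE {E : Type} [NormedAddCommGroup E] [InnerProductSpace ℝ E]
    (L : sphere (0 : E) 1 → E →L[ℝ] E) : Prop :=
  ∀ x : sphere (0 : E) 1, 0 < (L x).det ∧ L x (x : E) = (x : E) ∧
    ∀ v, inner ℝ (x : E) (L x v) = inner ℝ (x : E) v

/-- The restrictions of smooth functions along `j`. -/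
def Beta_alg {X V : Type} [TopologicalSpace X] [NormedAddCommGroup V] [NormedSpace ℝ V]
    (j : X → V) : Subalgebra ℝ C(X, ℝ) where
  carrier := {φ | ∃ F : V → ℝ, ContDiff ℝ ∞ F ∧ ∀ x, φ x = F (j x)}
  mul_mem' := by
    rintro a b ⟨F, hF, h1⟩ ⟨G, hG, h2⟩
    exact ⟨fun v => F v * G v, hF.mul hG, fun x => by rw [ContinuousMap.mul_apply, h1, h2]⟩
  add_mem' := by
    rintro a b ⟨F, hF, h1⟩ ⟨G, hG, h2⟩
    exact ⟨fun v => F v + G v, hF.add hG, fun x => by rw [ContinuousMap.add_apply, h1, h2]⟩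
  algebraMap_mem' r := ⟨fun _ => r, contDiff_const, fun x => rfl⟩

theorem Beta_approx1 {X V : Type} [TopologicalSpace X] [CompactSpace X]
    [NormedAddCommGroup V] [NormedSpace ℝ V] (j : X → V) (hj : Continuous j)
    (hinj : Function.Injective j) (f : X → ℝ) (hf : Continuous f) (ε : ℝ) (hε : 0 < ε) :
    ∃ F : V → ℝ, ContDiff ℝ ∞ F ∧ ∀ x, |F (j x) - f x| < ε := by
  have hsep : (Beta_alg j).SeparatesPoints := by
    intro x y hxy
    obtain ⟨φ, hφ⟩ := SeparatingDual.exists_separating_of_ne (R := ℝ) (hinj.ne hxy)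
    refine ⟨fun z => φ (j z), ⟨⟨fun z => φ (j z), φ.continuous.comp hj⟩, ?_, rfl⟩, hφ⟩
    exact ⟨φ, φ.contDiff, fun _ => rfl⟩
  obtain ⟨⟨g, F, hF, hg⟩, hg2⟩ :=
    ContinuousMap.exists_mem_subalgebra_near_continuous_of_separatesPoints (Beta_alg j) hsep f hf
      ε hε
  refine ⟨F, hF, fun x => ?_⟩
  have := hg2 x
  rw [Real.norm_eq_abs] at this
  rw [← hg x]
  exact this

theorem Beta_approx {X V W : Type} [TopologicalSpace X] [CompactSpace X]
    [NormedAddCommGroup V] [NormedSpace ℝ V] [NormedAddCommGroup W] [NormedSpace ℝ W]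
    [FiniteDimensional ℝ W] (j : X → V) (hj : Continuous j)
    (hinj : Function.Injective j) (f : X → W) (hf : Continuous f) (ε : ℝ) (hε : 0 < ε) :
    ∃ F : V → W, ContDiff ℝ ∞ F ∧ ∀ x, ‖F (j x) - f x‖ < ε := by
  let φ : W ≃L[ℝ] (Fin (Module.finrank ℝ W) → ℝ) := (Module.finBasis ℝ W).equivFunL
  let ψ : (Fin (Module.finrank ℝ W) → ℝ) →L[ℝ] W := φ.symm
  have hδ : 0 < ε / (‖ψ‖ + 1) := by positivity
  choose F hF hF2 using fun i => Beta_approx1 j hj hinj (fun x => φ (f x) i)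
    ((continuous_apply i).comp (φ.continuous.comp hf)) _ hδ
  refine ⟨fun v => ψ (fun i => F i v), ψ.contDiff.comp (contDiff_pi.2 hF), fun x => ?_⟩
  have h1 : ψ (fun i => F i (j x)) - f x = ψ ((fun i => F i (j x)) - φ (f x)) := by
    rw [map_sub]
    congr 1
    exact (φ.symm_apply_apply (f x)).symm
  have h2 : ‖(fun i => F i (j x)) - φ (f x)‖ ≤ ε / (‖ψ‖ + 1) := by
    rw [pi_norm_le_iff_of_nonneg hδ.le]
    intro i
    exact (hF2 i x).le
  rw [h1]
  calc ‖ψ ((fun i => F i (j x)) - φ (f x))‖ ≤ ‖ψ‖ * ‖(fun i => F i (j x)) - φ (f x)‖ :=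
        ψ.le_opNorm _
    _ ≤ ‖ψ‖ * (ε / (‖ψ‖ + 1)) := mul_le_mul_of_nonneg_left h2 (norm_nonneg _)
    _ < ε := by
        rw [← mul_div_assoc, div_lt_iff₀ (by positivity)]
        nlinarith [norm_nonneg ψ]

section

variable {E : Type} [NormedAddCommGroup E] [InnerProductSpace ℝ E]

/-- The orthogonal projection along `x`. -/
def Beta_pi (x : E) : E →L[ℝ] E := ContinuousLinearMap.id ℝ E - (innerSL ℝ x).smulRight x

theorem Beta_pi_apply (x v : E) : Beta_pi x v = v - (inner ℝ x v : ℝ) • x := by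
  simp [Beta_pi]

theorem Beta_pi_norm {x : E} (hx : ‖x‖ = 1) : ‖Beta_pi x‖ ≤ 1 := by
  refine ContinuousLinearMap.opNorm_le_bound _ zero_le_one fun v => ?_
  rw [one_mul, Beta_pi_apply]
  refine le_of_sq_le_sq ?_ (norm_nonneg _)
  rw [@norm_sub_sq_real, inner_smul_right, norm_smul, hx, mul_one, real_inner_comm x v,
    Real.norm_eq_abs, sq_abs]
  nlinarith [sq_nonneg (inner ℝ x v : ℝ)]

/-- The corrected family. -/
def Beta_N (P : ℝ × E → E →L[ℝ] E) (q : ℝ × E) : E →L[ℝ] E :=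
  (Beta_pi q.2).comp ((P q).comp (Beta_pi q.2)) + (innerSL ℝ q.2).smulRight q.2

theorem Beta_N_apply (P : ℝ × E → E →L[ℝ] E) (q : ℝ × E) (v : E) :
    Beta_N P q v = (P q (v - (inner ℝ q.2 v : ℝ) • q.2)
      - (inner ℝ q.2 (P q (v - (inner ℝ q.2 v : ℝ) • q.2)) : ℝ) • q.2)
      + (inner ℝ q.2 v : ℝ) • q.2 := by
  unfold Beta_N
  rw [add_apply, ContinuousLinearMap.comp_apply,
    ContinuousLinearMap.comp_apply, Beta_pi_apply, Beta_pi_apply]
  simp

theorem Beta_N_contDiff [FiniteDimensional ℝ E] {P : ℝ × E → E →L[ℝ] E}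
    (hP : ContDiff ℝ ∞ P) : ContDiff ℝ ∞ (Beta_N P) := by
  rw [contDiff_clm_apply_iff]
  intro v
  simp only [Beta_N_apply]
  have h2 : ContDiff ℝ ∞ (fun q : ℝ × E => q.2) := contDiff_snd
  have h3 : ContDiff ℝ ∞ (fun q : ℝ × E => (inner ℝ q.2 v : ℝ)) := h2.inner ℝ contDiff_const
  have h4 : ContDiff ℝ ∞ (fun q : ℝ × E => P q (v - (inner ℝ q.2 v : ℝ) • q.2)) :=
    hP.clm_apply (contDiff_const.sub (h3.smul h2))
  exact (h4.sub ((h2.inner ℝ h4).smul h2)).add (h3.smul h2)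

theorem Beta_inner_self {x : E} (hx : ‖x‖ = 1) : (inner ℝ x x : ℝ) = 1 := by
  rw [real_inner_self_eq_norm_sq, hx]
  norm_num

theorem Beta_N_self (P : ℝ × E → E →L[ℝ] E) (t : ℝ) {x : E} (hx : ‖x‖ = 1) :
    Beta_N P (t, x) x = x := by
  rw [Beta_N_apply]
  simp only [Beta_inner_self hx, one_smul, sub_self, map_zero, inner_zero_right, zero_smul,
    zero_add]

theorem Beta_N_inner (P : ℝ × E → E →L[ℝ] E) (t : ℝ) {x : E} (hx : ‖x‖ = 1) (v : E) :
    (inner ℝ x (Beta_N P (t, x) v) : ℝ) = inner ℝ x v := by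
  rw [Beta_N_apply]
  simp only [inner_add_right, inner_sub_right, inner_smul_right, Beta_inner_self hx, mul_one,
    sub_self, zero_add]

theorem Beta_N_sub {P : ℝ × E → E →L[ℝ] E} {t : ℝ} {x : E} (hx : ‖x‖ = 1) {L : E →L[ℝ] E}
    (h1 : L x = x) (h2 : ∀ v, (inner ℝ x (L v) : ℝ) = inner ℝ x v) {ε : ℝ}
    (h : ‖P (t, x) - L‖ < ε) : ‖Beta_N P (t, x) - L‖ < ε := by
  have e : Beta_N P (t, x) - L = (Beta_pi x).comp ((P (t, x) - L).comp (Beta_pi x)) := by
    ext v
    rw [sub_apply, Beta_N_apply, ContinuousLinearMap.comp_apply,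
      ContinuousLinearMap.comp_apply, Beta_pi_apply, Beta_pi_apply,
      sub_apply, inner_sub_right, h2, inner_sub_right, inner_smul_right,
      Beta_inner_self hx, mul_one, sub_self, sub_zero, map_sub L, map_smul, h1]
    abel
  rw [e]
  have h3 := Beta_pi_norm hx
  calc ‖(Beta_pi x).comp ((P (t, x) - L).comp (Beta_pi x))‖
      ≤ ‖Beta_pi x‖ * (‖P (t, x) - L‖ * ‖Beta_pi x‖) :=
        (ContinuousLinearMap.opNorm_comp_le _ _).trans
          (mul_le_mul_of_nonneg_left (ContinuousLinearMap.opNorm_comp_le _ _) (norm_nonneg _))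
    _ ≤ 1 * (‖P (t, x) - L‖ * 1) := by
        refine mul_le_mul h3 ?_ (by positivity) zero_le_one
        exact mul_le_mul_of_nonneg_left h3 (norm_nonneg _)
    _ < ε := by rw [one_mul, mul_one]; exact h

theorem Beta_diso [FiniteDimensional ℝ E] (B : ℝ × E → E →L[ℝ] E)
    (hB : SmOn (Icc (0 : ℝ) 1 ×ˢ sphere (0 : E) 1) B)
    (h : ∀ t ∈ Icc (0 : ℝ) 1, ∀ x : E, ‖x‖ = 1 → 0 < (B (t, x)).det ∧ B (t, x) x = x ∧
      ∀ v, (inner ℝ x (B (t, x) v) : ℝ) = inner ℝ x v) :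
    DIso (fun p => (p.1, B (0, p.1) p.2)) (fun p => (p.1, B (1, p.1) p.2)) := by
  have h1 := aff_diso (fun q : ℝ × E => q.2) (fun q => q.2) B (fun _ => 0)
    (SmOn.of_contDiff contDiff_snd) (SmOn.of_contDiff contDiff_snd) hB (SmOn.const 0)
    (fun t _ x hx => ⟨hx, hx, rfl, rfl⟩) ?_
  · refine h1.congr (fun p _ => ?_) (fun p _ => ?_)
    · show (p.1, B (0, p.1) p.2) = (p.1, B (0, p.1) p.2 + 0)
      rw [add_zero]
    · show (p.1, B (1, p.1) p.2) = (p.1, B (1, p.1) p.2 + 0)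
      rw [add_zero]
  · intro t ht x hx
    obtain ⟨a1, a2, a3⟩ := h t ht x hx
    refine ⟨a2, fun v hv => ?_, fun v _ hv => ?_, inner_zero_right _⟩
    · show (inner ℝ x (B (t, x) v) : ℝ) = 0
      rw [a3, hv]
    · by_contra hne
      have h2 : LinearMap.ker (B (t, x) : E →ₗ[ℝ] E) = ⊥ := by
        rw [← LinearMap.isUnit_iff_ker_eq_bot, LinearMap.isUnit_iff_isUnit_det]
        exact isUnit_iff_ne_zero.2 a1.ne'
      have h6 : v ∈ LinearMap.ker (B (t, x) : E →ₗ[ℝ] E) := hv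
      rw [h2, Submodule.mem_bot] at h6
      exact hne h6

end

theorem beta_smooth {E : Type} [NormedAddCommGroup E] [InnerProductSpace ℝ E]
    [FiniteDimensional ℝ E] (b : E → E →L[ℝ] E) (hb : SmOn (sphere (0 : E) 1) b)
    (h : HP (VE (E := E)) (fun x => b x) (fun _ => ContinuousLinearMap.id ℝ E)) :
    DIso (fun p => (p.1, b p.1 p.2)) (fun p => p) := by
  have : ProperSpace E := FiniteDimensional.proper_real E
  obtain ⟨H, hHc, hHV, hH0, hH1⟩ := h
  have hK : IsCompact (range H) := isCompact_range hHc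
  have hO : IsOpen {M : E →L[ℝ] E | 0 < M.det} :=
    isOpen_lt continuous_const ContinuousLinearMap.continuous_det
  have hKO : range H ⊆ {M : E →L[ℝ] E | 0 < M.det} := by
    rintro _ ⟨⟨u, x⟩, rfl⟩
    exact (hHV u x).1
  obtain ⟨ε, hε, hth⟩ := hK.exists_thickening_subset_open hO hKO
  have hdet : ∀ (u : I) (x : sphere (0 : E) 1) (M : E →L[ℝ] E), ‖M - H (u, x)‖ < ε →
      0 < M.det := by
    intro u x M hM
    refine hth ?_
    rw [mem_thickening_iff]
    exact ⟨H (u, x), ⟨_, rfl⟩, by rwa [dist_eq_norm]⟩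
  obtain ⟨P, hP, hPH⟩ := Beta_approx (fun p : I × sphere (0 : E) 1 => ((p.1 : ℝ), (p.2 : E)))
    (by fun_prop) (by
      rintro ⟨u, x⟩ ⟨u', x'⟩ h
      obtain ⟨h1, h2⟩ := Prod.ext_iff.1 h
      exact Prod.ext (Subtype.ext h1) (Subtype.ext h2)) H hHc ε hε
  have hN : ∀ (u : I) (x : sphere (0 : E) 1), ‖Beta_N P ((u : ℝ), (x : E)) - H (u, x)‖ < ε := by
    intro u x
    obtain ⟨a1, a2, a3⟩ := hHV u x
    exact Beta_N_sub (by simp) a2 a3 (hPH (u, x))
  have hNc := Beta_N_contDiff hP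
  have hNs : ∀ t : ℝ, SmOn (Icc (0 : ℝ) 1 ×ˢ sphere (0 : E) 1)
      (fun q : ℝ × E => Beta_N P (t, q.2)) := fun t =>
    SmOn.of_contDiff (hNc.comp (contDiff_const.prodMk contDiff_snd))
  have hmem : ∀ {x : E}, ‖x‖ = 1 → x ∈ sphere (0 : E) 1 := fun hx => by
    rw [mem_sphere_zero_iff_norm]; exact hx
  have hb' : SmOn (Icc (0 : ℝ) 1 ×ˢ sphere (0 : E) 1) (fun q : ℝ × E => b q.2) :=
    hb.comp (SmOn.of_contDiff contDiff_snd) (fun q hq => hq.2)
  have ht1 : SmOn (Icc (0 : ℝ) 1 ×ˢ sphere (0 : E) 1) (fun q : ℝ × E => q.1) :=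
    SmOn.of_contDiff contDiff_fst
  have ht2 : SmOn (Icc (0 : ℝ) 1 ×ˢ sphere (0 : E) 1) (fun q : ℝ × E => 1 - q.1) :=
    SmOn.of_contDiff (contDiff_const.sub contDiff_fst)
  have key : ∀ (u : I) (x : sphere (0 : E) 1) (L M : E →L[ℝ] E) (t : ℝ), t ∈ Icc (0 : ℝ) 1 →
      ‖L - H (u, x)‖ < ε → ‖M - H (u, x)‖ < ε →
      ‖((1 - t) • L + t • M) - H (u, x)‖ < ε := by
    intro u x L M t ht hL hM
    have e : ((1 - t) • L + t • M) - H (u, x)
        = (1 - t) • (L - H (u, x)) + t • (M - H (u, x)) := by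
      rw [smul_sub, smul_sub, sub_smul, sub_smul, one_smul, one_smul]
      abel
    rw [e]
    refine (norm_add_le _ _).trans_lt ?_
    rw [norm_smul, norm_smul, Real.norm_of_nonneg ht.1, Real.norm_of_nonneg (by linarith [ht.2])]
    rcases eq_or_lt_of_le ht.1 with h0 | h0
    · rw [← h0]
      simpa using hL
    · nlinarith [ht.2, ht.1]
  have s1 : DIso (fun p : E × E => (p.1, b p.1 p.2)) (fun p => (p.1, Beta_N P (0, p.1) p.2)) := by
    have h1 := Beta_diso (fun q : ℝ × E => (1 - q.1) • b q.2 + q.1 • Beta_N P (0, q.2))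
      ((ht2.smul hb').add (ht1.smul (hNs 0))) ?_
    · refine h1.congr (fun p _ => ?_) (fun p _ => ?_)
      · simp
      · simp
    · intro t ht x hx
      have e0 : H (0, ⟨x, hmem hx⟩) = b x := hH0 ⟨x, hmem hx⟩
      have a2 : H (0, ⟨x, hmem hx⟩) x = x := (hHV 0 ⟨x, hmem hx⟩).2.1
      have a3 : ∀ v, (inner ℝ x (H (0, ⟨x, hmem hx⟩) v) : ℝ) = inner ℝ x v :=
        (hHV 0 ⟨x, hmem hx⟩).2.2
      have h3 := hN 0 ⟨x, hmem hx⟩
      simp only [Icc.coe_zero] at h3
      rw [e0] at a2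
      refine ⟨?_, ?_, fun v => ?_⟩
      · refine hdet 0 ⟨x, hmem hx⟩ _ (key 0 ⟨x, hmem hx⟩ _ _ t ht ?_ h3)
        rw [e0, sub_self, norm_zero]
        exact hε
      · show ((1 - t) • b x + t • Beta_N P (0, x)) x = x
        rw [add_apply, smul_apply,
          smul_apply, Beta_N_self P 0 hx, a2, ← add_smul]
        simp
      · show (inner ℝ x (((1 - t) • b x + t • Beta_N P (0, x)) v) : ℝ) = inner ℝ x v
        have a3' := a3 v
        rw [e0] at a3'
        rw [add_apply, smul_apply,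
          smul_apply, inner_add_right, inner_smul_right, inner_smul_right,
          Beta_N_inner P 0 hx, a3']
        ring
  have s2 : DIso (fun p : E × E => (p.1, Beta_N P (0, p.1) p.2))
      (fun p => (p.1, Beta_N P (1, p.1) p.2)) := by
    refine Beta_diso (Beta_N P) (SmOn.of_contDiff hNc) ?_
    intro t ht x hx
    exact ⟨hdet ⟨t, ht⟩ ⟨x, hmem hx⟩ _ (hN ⟨t, ht⟩ ⟨x, hmem hx⟩), Beta_N_self P t hx,
      Beta_N_inner P t hx⟩
  have s3 : DIso (fun p : E × E => (p.1, Beta_N P (1, p.1) p.2)) (fun p => p) := by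
    have h1 := Beta_diso (fun q : ℝ × E => (1 - q.1) • Beta_N P (1, q.2)
      + q.1 • ContinuousLinearMap.id ℝ E)
      ((ht2.smul (hNs 1)).add (ht1.smul (SmOn.const _))) ?_
    · refine h1.congr (fun p _ => ?_) (fun p _ => ?_)
      · simp
      · simp
    · intro t ht x hx
      have e1 : H (1, ⟨x, hmem hx⟩) = ContinuousLinearMap.id ℝ E := hH1 ⟨x, hmem hx⟩
      have h3 := hN 1 ⟨x, hmem hx⟩
      simp only [Icc.coe_one] at h3
      refine ⟨?_, ?_, fun v => ?_⟩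
      · refine hdet 1 ⟨x, hmem hx⟩ _ (key 1 ⟨x, hmem hx⟩ _ _ t ht h3 ?_)
        rw [e1, sub_self, norm_zero]
        exact hε
      · show ((1 - t) • Beta_N P (1, x) + t • ContinuousLinearMap.id ℝ E) x = x
        rw [add_apply, smul_apply,
          smul_apply, Beta_N_self P 1 hx, ContinuousLinearMap.id_apply,
          ← add_smul]
        simp
      · show (inner ℝ x (((1 - t) • Beta_N P (1, x) + t • ContinuousLinearMap.id ℝ E) v) : ℝ)
          = inner ℝ x v
        rw [add_apply, smul_apply,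
          smul_apply, inner_add_right, inner_smul_right, inner_smul_right,
          Beta_N_inner P 1 hx, ContinuousLinearMap.id_apply]
        ring
  exact (s1.trans s2).trans s3

end DT
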