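import Pool.Agent.H78.DT.Basic

/-!
# Definitions for the real Bott periodicity part (MP_3c9ef3_gt)

`e : ε → Matrix ι ι ℝ` is a family of matrices (generators).

* `SymL e`: symmetric matrices anticommuting with all `e i`;
* `SymX e`: the invertible ones; `Grad e`: the ones of square `1`;
* `ClSys e`: symmetric involutions, pairwise anticommuting;
* `OddF e A`: `A : I × Y → Matrix ι ι ℝ` has values in `SymX e` and `A (1, y) = - A (0, y)`;
* `lin a b t = cos πt • a + sin πt • b`;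
* `Trig L m F`: `F` is an odd trigonometric polynomial of degree `2m+1` in `πt`, with
  continuous coefficients `Y → L`;
* `blk3`: 3 x 3 block matrices; `e3`, `StF`, `hyp`: see the files `St1`, `St2`.
-/

open Matrix Set unitInterval Topology

set_option linter.unusedSectionVars false

noncomputable section

namespace DT

variable {ε ι ι' : Type} [Fintype ι] [DecidableEq ι] [Fintype ι'] [DecidableEq ι']

/-- Symmetric matrices anticommuting with all `e i`. -/
def SymL (e : ε → Matrix ι ι ℝ) : Set (Matrix ι ι ℝ) :=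
  {S | Sᵀ = S ∧ ∀ i, S * e i = -(e i * S)}

/-- Invertible symmetric matrices anticommuting with all `e i`. -/
def SymX (e : ε → Matrix ι ι ℝ) : Set (Matrix ι ι ℝ) := {S | S ∈ SymL e ∧ IsUnit S}

/-- Symmetric involutions anticommuting with all `e i`. -/
def Grad (e : ε → Matrix ι ι ℝ) : Set (Matrix ι ι ℝ) := {S | S ∈ SymL e ∧ S * S = 1}

theorem Grad_subset_SymX (e : ε → Matrix ι ι ℝ) : Grad e ⊆ SymX e := fun S hS =>
  ⟨hS.1, ⟨⟨S, S, hS.2, hS.2⟩, rfl⟩⟩

/-- A Clifford system: pairwise anticommuting symmetric involutions. -/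
def ClSys (e : ε → Matrix ι ι ℝ) : Prop :=
  (∀ i, (e i)ᵀ = e i ∧ e i * e i = 1) ∧ ∀ i j, i ≠ j → e i * e j = -(e j * e i)

/-- Direct sum of two families of generators. -/
def esum (e : ε → Matrix ι ι ℝ) (e' : ε → Matrix ι' ι' ℝ) : ε → Matrix (ι ⊕ ι') (ι ⊕ ι') ℝ :=
  fun i => fromBlocks (e i) 0 0 (e' i)

/-- Adding one generator. -/
def addg (e : ε → Matrix ι ι ℝ) (c : Matrix ι ι ℝ) : ε ⊕ Unit → Matrix ι ι ℝ :=
  Sum.elim e (fun _ => c)

/-- `cos πt • a + sin πt • b`. -/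
def lin {V : Type*} [AddCommGroup V] [Module ℝ V] (a b : V) (t : ℝ) : V :=
  Real.cos (Real.pi * t) • a + Real.sin (Real.pi * t) • b

/-- Odd families. -/
def OddF {Y : Type} (e : ε → Matrix ι ι ℝ) (A : I × Y → Matrix ι ι ℝ) : Prop :=
  (∀ p, A p ∈ SymX e) ∧ ∀ y, A (1, y) = - A (0, y)

/-- Odd trigonometric polynomials of degree `2m+1` with continuous coefficients in `L`. -/
def Trig {Y V : Type} [TopologicalSpace Y] [TopologicalSpace V] [AddCommGroup V] [Module ℝ V]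
    (L : Set V) : ℕ → (I × Y → V) → Prop
  | 0, F => ∃ a b : Y → V, Continuous a ∧ Continuous b ∧ (∀ y, a y ∈ L) ∧ (∀ y, b y ∈ L) ∧
      ∀ p, F p = lin (a p.2) (b p.2) (p.1 : ℝ)
  | m + 1, F => ∃ A B : I × Y → V, Trig L m A ∧ Trig L m B ∧
      ∀ p, F p = Real.cos (Real.pi * (p.1 : ℝ)) ^ 2 • A p
        + Real.sin (Real.pi * (p.1 : ℝ)) ^ 2 • B p

/-- 3 x 3 block matrices, rows `(a b c)`, `(d m f)`, `(g h i)`. -/
def blk3 (a b c d m f g h i : Matrix ι ι ℝ) : Matrix (ι ⊕ (ι ⊕ ι)) (ι ⊕ (ι ⊕ ι)) ℝ :=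
  fromBlocks a (fromCols b c) (fromRows d g) (fromBlocks m f h i)

/-- The generators `e ⊕ (-e) ⊕ e`. -/
def e3 (e : ε → Matrix ι ι ℝ) : ε → Matrix (ι ⊕ (ι ⊕ ι)) (ι ⊕ (ι ⊕ ι)) ℝ :=
  fun i => fromBlocks (e i) 0 0 (fromBlocks (-(e i)) 0 0 (e i))

/-- The linear hyperbolic family `[[0, exp(πtK)], [exp(πtK)ᵀ, 0]]`, for `K² = -1`. -/
def hyp (K : Matrix ι ι ℝ) (t : ℝ) : Matrix (ι ⊕ ι) (ι ⊕ ι) ℝ :=
  fromBlocks 0 (lin 1 K t) (lin 1 K t)ᵀ 0

/-- The stabilisation `A ↦ [[c²A, -s, csA], [-s, 0, c], [csA, c, s²A]]`,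
`c = cos πt`, `s = sin πt`. -/
def StF (A : Matrix ι ι ℝ) (t : ℝ) : Matrix (ι ⊕ (ι ⊕ ι)) (ι ⊕ (ι ⊕ ι)) ℝ :=
  blk3 ((Real.cos (Real.pi * t) ^ 2) • A) (-(Real.sin (Real.pi * t) • 1))
      ((Real.cos (Real.pi * t) * Real.sin (Real.pi * t)) • A)
    (-(Real.sin (Real.pi * t) • 1)) 0 (Real.cos (Real.pi * t) • 1)
    ((Real.cos (Real.pi * t) * Real.sin (Real.pi * t)) • A) (Real.cos (Real.pi * t) • 1)
      ((Real.sin (Real.pi * t) ^ 2) • A)

/-- A complex structure `K` compatible with the generators `e` and the gradation `c`. -/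
def Cpx (e : ε → Matrix ι ι ℝ) (c K : Matrix ι ι ℝ) : Prop :=
  Kᵀ = -K ∧ K * K = -1 ∧ K * c = c * K ∧ ∀ i, K * e i = e i * K

/-- The cone of a map `Sᵏ → V` (no parameter). -/
def cone1 {k : ℕ} {V : Type*} [AddCommGroup V] [Module ℝ V] (G : Sp k → V)
    (v : Fin (k + 1) → ℝ) : V :=
  cone (fun q : Unit × Sp k => G q.2) ((), v)

/-- The Clifford sum `∑ vᵢ • cᵢ`. -/
def csum {k : ℕ} (c : Fin (k + 1) → Matrix ι ι ℝ) (v : Fin (k + 1) → ℝ) : Matrix ι ι ℝ :=
  ∑ i, v i • c i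

theorem blk3_mul (a b c d m f g h i a' b' c' d' m' f' g' h' i' : Matrix ι ι ℝ) :
    blk3 a b c d m f g h i * blk3 a' b' c' d' m' f' g' h' i' =
      blk3 (a * a' + b * d' + c * g') (a * b' + b * m' + c * h') (a * c' + b * f' + c * i')
        (d * a' + m * d' + f * g') (d * b' + m * m' + f * h') (d * c' + m * f' + f * i')
        (g * a' + h * d' + i * g') (g * b' + h * m' + i * h') (g * c' + h * f' + i * i') := by
  ext x y
  rcases x with x | x | x <;> rcases y with y | y | y <;>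
    simp [blk3, Matrix.mul_apply, Fintype.sum_sum_type, Matrix.add_apply, add_assoc]

theorem blk3_transpose (a b c d m f g h i : Matrix ι ι ℝ) :
    (blk3 a b c d m f g h i)ᵀ = blk3 aᵀ dᵀ gᵀ bᵀ mᵀ hᵀ cᵀ fᵀ iᵀ := by
  ext x y
  rcases x with x | x | x <;> rcases y with y | y | y <;> simp [blk3]

theorem blk3_add (a b c d m f g h i a' b' c' d' m' f' g' h' i' : Matrix ι ι ℝ) :
    blk3 a b c d m f g h i + blk3 a' b' c' d' m' f' g' h' i' =
      blk3 (a + a') (b + b') (c + c') (d + d') (m + m') (f + f') (g + g') (h + h') (i + i') := by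
  ext x y
  rcases x with x | x | x <;> rcases y with y | y | y <;> simp [blk3]

theorem blk3_smul (r : ℝ) (a b c d m f g h i : Matrix ι ι ℝ) :
    r • blk3 a b c d m f g h i =
      blk3 (r • a) (r • b) (r • c) (r • d) (r • m) (r • f) (r • g) (r • h) (r • i) := by
  ext x y
  rcases x with x | x | x <;> rcases y with y | y | y <;> simp [blk3]

theorem blk3_neg (a b c d m f g h i : Matrix ι ι ℝ) :
    -blk3 a b c d m f g h i = blk3 (-a) (-b) (-c) (-d) (-m) (-f) (-g) (-h) (-i) := by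
  ext x y
  rcases x with x | x | x <;> rcases y with y | y | y <;> simp [blk3]

theorem blk3_one : (1 : Matrix (ι ⊕ (ι ⊕ ι)) (ι ⊕ (ι ⊕ ι)) ℝ) = blk3 1 0 0 0 1 0 0 0 1 := by
  ext x y
  rcases x with x | x | x <;> rcases y with y | y | y <;> simp [blk3, Matrix.one_apply]

theorem e3_eq (e : ε → Matrix ι ι ℝ) (i : ε) :
    e3 e i = blk3 (e i) 0 0 0 (-(e i)) 0 0 0 (e i) := by
  ext x y
  rcases x with x | x | x <;> rcases y with y | y | y <;> simp [blk3, e3]

theorem fromBlocks_blk3 (a b c d m : Matrix ι ι ℝ) :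
    fromBlocks a 0 0 (fromBlocks b c d m) = blk3 a 0 0 0 b c 0 d m := by
  ext x y
  rcases x with x | x | x <;> rcases y with y | y | y <;> simp [blk3]

theorem continuous_blk3 {X : Type*} [TopologicalSpace X]
    {a b c d m f g h i : X → Matrix ι ι ℝ} (ha : Continuous a) (hb : Continuous b)
    (hc : Continuous c) (hd : Continuous d) (hm : Continuous m) (hf : Continuous f)
    (hg : Continuous g) (hh : Continuous h) (hi : Continuous i) :
    Continuous fun x => blk3 (a x) (b x) (c x) (d x) (m x) (f x) (g x) (h x) (i x) := by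
  refine continuous_matrix ?_
  intro x y
  rcases x with x | x | x <;> rcases y with y | y | y <;>
    simp only [blk3, fromBlocks_apply₁₁, fromBlocks_apply₁₂, fromBlocks_apply₂₁,
      fromBlocks_apply₂₂, fromCols_apply_inl, fromCols_apply_inr, fromRows_apply_inl,
      fromRows_apply_inr] <;> fun_prop

end DT
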