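import Pool.Agent.H78.DT.Bott0

/-!
# Cones, suspension coordinates, descent (job DT-CONE)

* `susp_surj`: every point of `Sᵏ⁺¹` is `susp (t, y)`: for `x = (x₀, x')`, `t = arccos(x₀)/π`,
  `sin πt = √(1-x₀²) = |x'|`, `y = x'/|x'|` (any `y` if `x' = 0`).
* `descend`: the map `id × susp : Q × (I × Sᵏ) → Q × Sᵏ⁺¹` is surjective, continuous and closed
  (`susp` is a continuous map from a compact space to a Hausdorff space, hence proper:
  `Continuous.isProperMap`; products of proper maps are proper `IsProperMap.prodMap`; proper maps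
  are closed), hence a quotient map; a continuous function constant on its fibres descends
  (`IsQuotientMap.lift` / `continuous_iff`).  `susp (t,y) = susp (t',y')` iff `t = t'` and
  (`y = y'` or `t ∈ {0,1}`): compare first coordinates (`cos` is injective on `[0,π]`), then
  `sin πt > 0` for `0 < t < 1`.
* `continuous_cone`: at `(p, v)` with `v ≠ 0`: near it `nrm` is continuous (into the sphere) and
  `cone g = nr v • g (p, nrm v)`.  At `(p, 0)`: `cone g (p, 0) = 0` (`nr 0 = 0`); `g` is bounded on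
  `W × Sᵏ` for a neighbourhood `W` of `p` (tube lemma, `Sᵏ` compact), so
  `‖cone g (p', v)‖ ≤ C nr v → 0`.
* `cone_smul`, `cone_unit`, `cone_sv`: formulas: for `t ∈ [0,1]`,
  `Fin.tail (sv t y) = sin(πt) • y`, `cone g (p, r • y) = r • g (p, y)` for `r ≥ 0`, `y ∈ Sᵏ`.
-/

open Matrix Set unitInterval Topology

noncomputable section

namespace DT

theorem cone_dot_nonneg {κ : Type*} [Fintype κ] (v : κ → ℝ) : 0 ≤ v ⬝ᵥ v :=
  Finset.sum_nonneg fun _ _ => mul_self_nonneg _

theorem nr_smul {κ : Type*} [Fintype κ] (r : ℝ) (v : κ → ℝ) : nr (r • v) = |r| * nr v := by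
  unfold nr
  rw [smul_dotProduct, dotProduct_smul, smul_eq_mul, smul_eq_mul, ← mul_assoc, ← pow_two,
    Real.sqrt_mul (sq_nonneg r), Real.sqrt_sq_eq_abs]

theorem nr_eq_one {κ : Type*} [Fintype κ] {v : κ → ℝ} (hv : v ∈ US κ) : nr v = 1 := by
  have h : v ⬝ᵥ v = 1 := hv
  unfold nr
  rw [h, Real.sqrt_one]

theorem cone_nr_sq {κ : Type*} [Fintype κ] (v : κ → ℝ) : nr v ^ 2 = v ⬝ᵥ v :=
  Real.sq_sqrt (cone_dot_nonneg v)

theorem cone_nr_pos {κ : Type*} [Fintype κ] {v : κ → ℝ} (hv : v ≠ 0) : 0 < nr v := by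
  unfold nr
  apply Real.sqrt_pos.2
  rcases (cone_dot_nonneg v).lt_or_eq with h | h
  · exact h
  · exact absurd (dotProduct_self_eq_zero.1 h.symm) hv

theorem nrm_mem {κ : Type*} [Fintype κ] {v : κ → ℝ} (hv : v ≠ 0) : nrm v ∈ US κ := by
  have h := cone_nr_pos hv
  have h2 := cone_nr_sq v
  change (nr v)⁻¹ • v ⬝ᵥ (nr v)⁻¹ • v = 1
  rw [smul_dotProduct, dotProduct_smul, smul_eq_mul, smul_eq_mul, ← h2]
  field_simp

theorem nr_nonneg {κ : Type*} [Fintype κ] (v : κ → ℝ) : 0 ≤ nr v := Real.sqrt_nonneg _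

theorem cone_nr_zero {κ : Type*} [Fintype κ] : nr (0 : κ → ℝ) = 0 := by
  unfold nr
  simp

theorem nr_smul_nrm {κ : Type*} [Fintype κ] (v : κ → ℝ) : nr v • nrm v = v := by
  by_cases hv : v = 0
  · subst hv
    rw [cone_nr_zero, zero_smul]
  · have h := cone_nr_pos hv
    unfold nrm
    rw [smul_smul, mul_inv_cancel₀ h.ne', one_smul]

theorem continuous_nr {κ : Type*} [Fintype κ] : Continuous (nr : (κ → ℝ) → ℝ) := by
  unfold nr
  have : Continuous fun v : κ → ℝ => v ⬝ᵥ v := by
    unfold dotProduct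
    fun_prop
  exact Real.continuous_sqrt.comp this

instance compactSpace_Sp (k : ℕ) : CompactSpace (Sp k) := by
  have hc : Continuous fun v : Fin (k + 1) → ℝ => v ⬝ᵥ v := by
    unfold dotProduct
    fun_prop
  have h1 : IsClosed (US (Fin (k + 1))) := isClosed_singleton.preimage hc
  have h2 : Bornology.IsBounded (US (Fin (k + 1))) := by
    apply (Metric.isBounded_closedBall (x := (0 : Fin (k + 1) → ℝ)) (r := 1)).subset
    intro v hv
    have hv' : v ⬝ᵥ v = 1 := hv
    rw [mem_closedBall_zero_iff, pi_norm_le_iff_of_nonneg zero_le_one]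
    intro i
    have h3 : v i * v i ≤ v ⬝ᵥ v :=
      Finset.single_le_sum (f := fun i => v i * v i) (fun j _ => mul_self_nonneg _)
        (Finset.mem_univ i)
    rw [hv'] at h3
    rw [Real.norm_eq_abs]
    exact abs_le_one_iff_mul_self_le_one.2 h3
  exact isCompact_iff_compactSpace.1 (Metric.isCompact_of_isClosed_isBounded h1 h2)

theorem susp_continuous {k : ℕ} : Continuous (susp : I × Sp k → Sp (k + 1)) := by
  refine Continuous.subtype_mk ?_ _
  refine continuous_pi fun i => ?_
  refine Fin.cases ?_ (fun j => ?_) i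
  · simp only [sv, Fin.cons_zero]
    fun_prop
  · simp only [sv, Fin.cons_succ, Pi.smul_apply, smul_eq_mul]
    have h1 : Continuous fun x : I × Sp k => x.2.1 j :=
      (continuous_apply j).comp (continuous_subtype_val.comp continuous_snd)
    have h2 : Continuous fun x : I × Sp k => Real.sin (Real.pi * (x.1 : ℝ)) := by fun_prop
    exact h2.mul h1

theorem cone_north_mem (k : ℕ) : north k ∈ US (Fin (k + 1)) := by
  unfold US north
  simp [dotProduct, Fin.sum_univ_succ]

theorem cone_dot_tail {k : ℕ} (x : Fin (k + 2) → ℝ) :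
    x ⬝ᵥ x = x 0 * x 0 + Fin.tail x ⬝ᵥ Fin.tail x := by
  unfold dotProduct
  rw [Fin.sum_univ_succ]
  rfl

theorem susp_surj {k : ℕ} (x : Sp (k + 1)) : ∃ p : I × Sp k, susp p = x := by
  obtain ⟨x, hx⟩ := x
  have hx1 : x ⬝ᵥ x = 1 := hx
  rw [cone_dot_tail] at hx1
  have hx2 := cone_nr_sq (Fin.tail x)
  have h0 : x 0 ^ 2 ≤ 1 := by nlinarith [sq_nonneg (nr (Fin.tail x))]
  have h1 : -1 ≤ x 0 := by nlinarith
  have h2 : x 0 ≤ 1 := by nlinarith
  have hpi := Real.pi_pos
  have ht0 : 0 ≤ Real.arccos (x 0) / Real.pi := div_nonneg (Real.arccos_nonneg _) hpi.le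
  have ht1 : Real.arccos (x 0) / Real.pi ≤ 1 := by
    rw [div_le_one hpi]
    exact Real.arccos_le_pi _
  have hpt : Real.pi * (Real.arccos (x 0) / Real.pi) = Real.arccos (x 0) := by
    field_simp
  have hcos : Real.cos (Real.pi * (Real.arccos (x 0) / Real.pi)) = x 0 := by
    rw [hpt, Real.cos_arccos h1 h2]
  have hsin : Real.sin (Real.pi * (Real.arccos (x 0) / Real.pi)) = nr (Fin.tail x) := by
    rw [hpt, Real.sin_arccos]
    unfold nr
    congr 1
    rw [← hx1]
    ring
  obtain ⟨y, hy⟩ : ∃ y : Sp k, nr (Fin.tail x) • y.1 = Fin.tail x := by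
    by_cases hv : Fin.tail x = 0
    · refine ⟨⟨north k, cone_north_mem k⟩, ?_⟩
      rw [hv, cone_nr_zero, zero_smul]
    · exact ⟨⟨nrm (Fin.tail x), nrm_mem hv⟩, nr_smul_nrm _⟩
  refine ⟨(⟨Real.arccos (x 0) / Real.pi, ht0, ht1⟩, y), ?_⟩
  apply Subtype.ext
  change sv (Real.arccos (x 0) / Real.pi) y.1 = x
  unfold sv
  rw [hcos, hsin, hy]
  exact Fin.cons_self_tail x

theorem cone_susp_inj {k : ℕ} {p p' : I × Sp k} (h : susp p = susp p') :
    p.1 = p'.1 ∧ (p.1 = 0 ∨ p.1 = 1 ∨ p.2 = p'.2) := by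
  obtain ⟨t, y⟩ := p
  obtain ⟨t', y'⟩ := p'
  have h' : sv (t : ℝ) y.1 = sv (t' : ℝ) y'.1 := congrArg Subtype.val h
  unfold sv at h'
  have hpi := Real.pi_pos
  have hc : Real.cos (Real.pi * t) = Real.cos (Real.pi * t') := by
    have := congrFun h' 0
    simpa using this
  have ht : (t : ℝ) = t' := by
    have h1 : Real.pi * (t : ℝ) ∈ Icc 0 Real.pi :=
      ⟨mul_nonneg hpi.le t.2.1, by nlinarith [t.2.2]⟩
    have h2 : Real.pi * (t' : ℝ) ∈ Icc 0 Real.pi :=
      ⟨mul_nonneg hpi.le t'.2.1, by nlinarith [t'.2.2]⟩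
    have := Real.injOn_cos h1 h2 hc
    exact mul_left_cancel₀ hpi.ne' this
  have ht' : t = t' := Subtype.ext ht
  refine ⟨ht', ?_⟩
  subst ht'
  by_cases h0 : t = 0
  · exact Or.inl h0
  by_cases h1 : t = 1
  · exact Or.inr (Or.inl h1)
  refine Or.inr (Or.inr ?_)
  have hs : 0 < Real.sin (Real.pi * (t : ℝ)) := by
    apply Real.sin_pos_of_pos_of_lt_pi
    · have : (0 : ℝ) < t := lt_of_le_of_ne t.2.1 fun h => h0 (Subtype.ext h.symm)
      positivity
    · have : (t : ℝ) < 1 := lt_of_le_of_ne t.2.2 fun h => h1 (Subtype.ext h)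
      nlinarith
  apply Subtype.ext
  ext j
  have h3 := congrFun h' j.succ
  simp only [Fin.cons_succ, Pi.smul_apply, smul_eq_mul] at h3
  exact mul_left_cancel₀ hs.ne' h3

theorem descend {k : ℕ} {Q V : Type*} [TopologicalSpace Q] [TopologicalSpace V]
    (H : Q × (I × Sp k) → V) (hH : Continuous H)
    (h0 : ∀ q y y', H (q, (0, y)) = H (q, (0, y')))
    (h1 : ∀ q y y', H (q, (1, y)) = H (q, (1, y'))) :
    ∃ H' : Q × Sp (k + 1) → V, Continuous H' ∧ ∀ q p, H' (q, susp p) = H (q, p) := by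
  have hprop : IsProperMap (Prod.map (id : Q → Q) (susp : I × Sp k → Sp (k + 1))) :=
    isProperMap_id.prodMap susp_continuous.isProperMap
  have hsurj : Function.Surjective (Prod.map (id : Q → Q) (susp : I × Sp k → Sp (k + 1))) :=
    Function.surjective_id.prodMap susp_surj
  have hq := hprop.isClosedMap.isQuotientMap hprop.continuous hsurj
  have hfib : ∀ q p p', susp p = susp p' → H (q, p) = H (q, p') := by
    intro q p p' h
    obtain ⟨ht, h2⟩ := cone_susp_inj h
    obtain ⟨t, y⟩ := p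
    obtain ⟨t', y'⟩ := p'
    simp only at ht h2
    subst ht
    rcases h2 with h2 | h2 | h2
    · subst h2
      exact h0 q y y'
    · subst h2
      exact h1 q y y'
    · subst h2
      rfl
  have key : ∀ q p, H (Function.surjInv hsurj (q, susp p)) = H (q, p) := by
    intro q p
    have hs := Function.surjInv_eq hsurj (q, susp p)
    generalize Function.surjInv hsurj (q, susp p) = z at hs
    obtain ⟨q', p'⟩ := z
    simp only [Prod.map_apply, id, Prod.mk.injEq] at hs
    obtain ⟨h3, h4⟩ := hs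
    subst h3
    exact hfib _ _ _ h4
  refine ⟨fun z => H (Function.surjInv hsurj z), ?_, key⟩
  rw [hq.continuous_iff]
  have : (fun z => H (Function.surjInv hsurj z)) ∘
      (Prod.map (id : Q → Q) (susp : I × Sp k → Sp (k + 1))) = H := by
    ext z
    exact key z.1 z.2
  rw [this]
  exact hH

theorem cone_zero {k : ℕ} {P V : Type*} [AddCommGroup V] [Module ℝ V]
    (g : P × Sp k → V) (p : P) : cone g (p, (0 : Fin (k + 1) → ℝ)) = 0 := by
  unfold cone
  split_ifs with h
  · rw [cone_nr_zero, zero_smul]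
  · rfl

theorem cone_smul_unit {k : ℕ} {P V : Type*} [AddCommGroup V] [Module ℝ V]
    (g : P × Sp k → V) (p : P) {r : ℝ} (hr : 0 ≤ r) (y : Sp k) :
    cone g (p, r • y.1) = r • g (p, y) := by
  rcases hr.eq_or_lt with h | h
  · rw [← h, zero_smul, zero_smul]
    exact cone_zero g p
  · have h1 : nr (r • y.1) = r := by
      rw [nr_smul, nr_eq_one y.2, mul_one, abs_of_pos h]
    have h2 : nrm (r • y.1) = y.1 := by
      unfold nrm
      rw [h1, smul_smul, inv_mul_cancel₀ h.ne', one_smul]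
    have h3 : nrm (r • y.1) ∈ US (Fin (k + 1)) := by
      rw [h2]
      exact y.2
    unfold cone
    rw [dif_pos h3]
    simp only
    rw [h1]
    congr 3
    exact Subtype.ext h2

theorem cone_eq_of_ne {k : ℕ} {P V : Type*} [AddCommGroup V] [Module ℝ V]
    (g : P × Sp k → V) (p : P) {v : Fin (k + 1) → ℝ} (hv : v ≠ 0) :
    cone g (p, v) = nr v • g (p, ⟨nrm v, nrm_mem hv⟩) := by
  unfold cone
  exact dif_pos (nrm_mem hv)

theorem cone_smul {k : ℕ} {P V : Type*} [AddCommGroup V] [Module ℝ V]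
    (g : P × Sp k → V) (p : P) {r : ℝ} (hr : 0 ≤ r) (v : Fin (k + 1) → ℝ) :
    cone g (p, r • v) = r • cone g (p, v) := by
  by_cases hv : v = 0
  · rw [hv, smul_zero, cone_zero, smul_zero]
  · have e : r • v = (r * nr v) • nrm v := by
      rw [mul_smul, nr_smul_nrm]
    have h := cone_smul_unit g p (mul_nonneg hr (nr_nonneg v)) ⟨nrm v, nrm_mem hv⟩
    rw [cone_eq_of_ne g p hv, e, smul_smul]
    exact h

theorem cone_tail_susp {k : ℕ} (q : I × Sp k) :
    Fin.tail (susp q).1 = Real.sin (Real.pi * (q.1 : ℝ)) • q.2.1 := by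
  unfold susp sv
  simp only [Fin.tail_cons]

theorem cone_sin_nonneg (t : I) : 0 ≤ Real.sin (Real.pi * (t : ℝ)) := by
  have hpi := Real.pi_pos
  apply Real.sin_nonneg_of_nonneg_of_le_pi
  · exact mul_nonneg hpi.le t.2.1
  · nlinarith [t.2.2]

theorem cone_susp {k : ℕ} {P V : Type*} [AddCommGroup V] [Module ℝ V]
    (g : P × Sp k → V) (p : P) (q : I × Sp k) :
    cone g (p, Fin.tail (susp q).1) = Real.sin (Real.pi * (q.1 : ℝ)) • g (p, q.2) := by
  rw [cone_tail_susp]
  exact cone_smul_unit g p (cone_sin_nonneg q.1) q.2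

theorem continuous_cone {k : ℕ} {P V : Type*} [TopologicalSpace P] [NormedAddCommGroup V]
    [NormedSpace ℝ V] (g : P × Sp k → V) (hg : Continuous g) : Continuous (cone g) := by
  rw [continuous_iff_continuousAt]
  rintro ⟨p, v⟩
  by_cases hv : v = 0
  · subst hv
    -- bound near `p`
    obtain ⟨C, hC⟩ := (isCompact_univ (X := Sp k)).exists_bound_of_continuousOn
      (f := fun y => g (p, y)) (by fun_prop)
    have hopen : IsOpen {q : P × Sp k | ‖g q‖ < C + 1} :=
      isOpen_lt (continuous_norm.comp hg) continuous_const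
    have hsub : ({p} : Set P) ×ˢ (univ : Set (Sp k)) ⊆ {q : P × Sp k | ‖g q‖ < C + 1} := by
      rintro ⟨p', y⟩ ⟨h1, -⟩
      simp only [mem_singleton_iff] at h1
      subst h1
      have := hC y (mem_univ y)
      simp only [mem_ofPred_eq]
      linarith
    obtain ⟨W, T, hW, -, hpW, hT, hWT⟩ :=
      generalized_tube_lemma isCompact_singleton isCompact_univ hopen hsub
    have hpW' : p ∈ W := hpW rfl
    have hb : ∀ q : P × (Fin (k + 1) → ℝ), q.1 ∈ W → ‖cone g q‖ ≤ (C + 1) * nr q.2 := by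
      rintro ⟨p', w⟩ hq
      by_cases hw : w = 0
      · subst hw
        rw [cone_zero, norm_zero, cone_nr_zero, mul_zero]
      · rw [cone_eq_of_ne g p' hw, norm_smul, Real.norm_eq_abs, abs_of_nonneg (nr_nonneg _),
          mul_comm]
        apply mul_le_mul_of_nonneg_right _ (nr_nonneg _)
        have : (p', (⟨nrm w, nrm_mem hw⟩ : Sp k)) ∈ W ×ˢ T := ⟨hq, hT (mem_univ _)⟩
        exact (hWT this).le
    unfold ContinuousAt
    rw [cone_zero]
    refine squeeze_zero_norm' (a := fun q : P × (Fin (k + 1) → ℝ) => (C + 1) * nr q.2) ?_ ?_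
    · have : ∀ᶠ q : P × (Fin (k + 1) → ℝ) in 𝓝 (p, 0), q.1 ∈ W :=
        continuous_fst.continuousAt.eventually (hW.mem_nhds hpW')
      filter_upwards [this] with q hq using hb q hq
    · have : Continuous fun q : P × (Fin (k + 1) → ℝ) => (C + 1) * nr q.2 :=
        continuous_const.mul (continuous_nr.comp continuous_snd)
      have h2 := this.tendsto (p, (0 : Fin (k + 1) → ℝ))
      simp only [cone_nr_zero, mul_zero] at h2
      exact h2
  · have hU : IsOpen {q : P × (Fin (k + 1) → ℝ) | q.2 ≠ 0} :=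
      isOpen_ne.preimage continuous_snd
    have hc : ContinuousOn (cone g) {q : P × (Fin (k + 1) → ℝ) | q.2 ≠ 0} := by
      rw [continuousOn_iff_continuous_domRestrict]
      have e : ({q : P × (Fin (k + 1) → ℝ) | q.2 ≠ 0}).domRestrict (cone g) =
          fun q => nr q.1.2 • g (q.1.1, ⟨nrm q.1.2, nrm_mem q.2⟩) := by
        ext q
        exact cone_eq_of_ne g q.1.1 q.2
      rw [e]
      have h1 : Continuous fun q : {q : P × (Fin (k + 1) → ℝ) | q.2 ≠ 0} => nr q.1.2 :=
        continuous_nr.comp (continuous_snd.comp continuous_subtype_val)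
      have h2 : Continuous fun q : {q : P × (Fin (k + 1) → ℝ) | q.2 ≠ 0} =>
          (⟨nrm q.1.2, nrm_mem q.2⟩ : Sp k) := by
        refine Continuous.subtype_mk ?_ _
        unfold nrm
        exact (h1.inv₀ fun q => (cone_nr_pos q.2).ne').smul
          (continuous_snd.comp continuous_subtype_val)
      exact h1.smul (hg.comp ((continuous_fst.comp continuous_subtype_val).prodMk h2))
    exact hc.continuousAt (hU.mem_nhds hv)

/-- The same for matrix-valued maps (no norm on matrices needed). -/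
theorem continuous_cone_mat {k : ℕ} {P ι κ : Type*} [TopologicalSpace P] [Finite ι] [Finite κ]
    (g : P × Sp k → Matrix ι κ ℝ) (hg : Continuous g) : Continuous (cone g) := by
  refine continuous_matrix fun i j => ?_
  have e : (fun q => cone g q i j) = cone (fun q => g q i j) := by
    ext ⟨p, v⟩
    by_cases hv : v = 0
    · subst hv
      rw [cone_zero, cone_zero]
      rfl
    · rw [cone_eq_of_ne _ p hv, cone_eq_of_ne _ p hv]
      rfl
  rw [e]
  exact continuous_cone _ (hg.matrix_elem i j)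

theorem suspF_susp {k : ℕ} {P : Type*} (g : P × Sp k → (Fin (k + 1) → ℝ)) (p : P)
    (q : I × Sp k) : suspF g (p, susp q) = sv (q.1 : ℝ) (g (p, q.2)) := by
  unfold suspF
  simp only
  rw [cone_susp]
  rfl

theorem continuous_suspF {k : ℕ} {P : Type*} [TopologicalSpace P]
    (g : P × Sp k → (Fin (k + 1) → ℝ)) (hg : Continuous g) : Continuous (suspF g) := by
  have h1 := continuous_cone g hg
  have h2 : Continuous fun q : P × Sp (k + 1) => (q.1, Fin.tail q.2.1) := by
    refine continuous_fst.prodMk (continuous_pi fun i => ?_)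
    exact (continuous_apply i.succ).comp (continuous_subtype_val.comp continuous_snd)
  have h3 := h1.comp h2
  refine continuous_pi fun i => ?_
  refine Fin.cases ?_ (fun j => ?_) i
  · simp only [suspF, Fin.cons_zero]
    exact (continuous_apply 0).comp (continuous_subtype_val.comp continuous_snd)
  · simp only [suspF, Fin.cons_succ]
    exact (continuous_apply j).comp h3

theorem suspF_mem {k : ℕ} {P : Type*} (g : P × Sp k → (Fin (k + 1) → ℝ))
    (hg : ∀ p, g p ∈ US (Fin (k + 1))) (q : P × Sp (k + 1)) :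
    suspF g q ∈ US (Fin (k + 2)) := by
  obtain ⟨p, x⟩ := q
  obtain ⟨q', rfl⟩ := susp_surj x
  rw [suspF_susp]
  exact sv_mem _ (hg _)

end DT
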