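import Pool.Agent.H78.DT.StHDef
import Pool.Agent.H78.DT.GlPath
import Pool.Agent.H78.DT.Cone

/-!
# Commutator suspensions (job DT-CS)

`IsCpx K`: `K` is skew with `K² = -1`; then `lin 1 K t = exp(πtK)` is a path in `SOs` from `1` to
`-1` (`(lin 1 K t)ᵀ (lin 1 K t) = cos² + sin² = 1`, determinant `±1`, continuous in `t`, `1` at
`t = 0`), with `lin 1 K s * lin 1 K t = lin 1 K (s+t)`.
`IsCS g K F`: `F : Sp (k+1) → Matrix` is continuous and
`F (susp (t, y)) = g y * exp(πtK) * (g y)ᵀ * exp(πtK)ᵀ`.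

* `cs_exists`: at `t = 0` and `t = 1` the commutator is `1` (`exp(0) = 1`, `exp(πK) = -1`), so it
  descends to the sphere (`descend` with `Q = Unit`).
* `cs_mem`: `F` has values in `SOs` if `g` has (use `susp_surj`).
* `cs_hin`: a homotopy `g_u` gives `(u, (t, y)) ↦ [g_u y, exp(πtK)]`, descend with `Q = I`.
* `cs_K`: a path `K_u` of complex structures: `(u, (t, y)) ↦ [g y, exp(πtK_u)]`, descend.
* `cs_stb`: `[g ⊕ 1, u ⊕ u'] = [g, u] ⊕ [1, u'] = [g, u] ⊕ 1`.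
* `cs_conj`: conjugation by an orthogonal matrix.
* `cs_sq`: if `K'` is a complex structure anticommuting with `K`, then `F² ~ 1`.
PROOF. Let `u_t = exp(πtK)`.  Homotopy `s ∈ I`: `[g, u_{a_s(t)}] [g, u_{b_s(t)}]` with
`a_s(t) = min ((1+s)t) 1`, `b_s(t) = max ((1+s)t - s) 0`; at `s = 0` it is `F²`; at `t = 0, 1` it
is `1` (`a_s, b_s ∈ {0,1}`), so it descends.  At `s = 1`: for `t ≤ 1/2`, `b = 0`, for `t ≥ 1/2`,
`a = 1`, `u_a = -1` central; in both cases the product equals `[g, w(t)]`,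
`w(t) = u_a u_b = exp(π(a+b)K) = exp(2πtK)` (`a + b = 2t`).  Then
`w_v(t) = exp(πtK) exp(πtK_v)`, `K_v = cos v K + sin v K'`, `v ∈ [0, π]` (`K_v² = -1`, `K_v` skew):
`w_v(0) = 1`, `w_v(1) = (-1)(-1) = 1`, `w_0 = w`, `w_π(t) = exp(πtK)exp(-πtK) = 1`.  So
`[g, w_v(t)]` descends to a homotopy to `[g, 1] = 1`.  All values are in `SOs`.
-/

open Matrix Set unitInterval Topology

set_option linter.unusedSectionVars false

noncomputable section

namespace DT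

variable {ι κ : Type} [Fintype ι] [DecidableEq ι] [Fintype κ] [DecidableEq κ] {k : ℕ}

/-- A skew complex structure. -/
def IsCpx (K : Matrix ι ι ℝ) : Prop := Kᵀ = -K ∧ K * K = -1

/-- `F` is the commutator suspension of `g` along `exp(πtK)`. -/
def IsCS (g : Sp k → Matrix ι ι ℝ) (K : Matrix ι ι ℝ) (F : Sp (k + 1) → Matrix ι ι ℝ) : Prop :=
  Continuous F ∧ ∀ (t : I) (y : Sp k), F (susp (t, y)) =
    g y * lin 1 K (t : ℝ) * (g y)ᵀ * (lin 1 K (t : ℝ))ᵀ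

theorem CS_T {K : Matrix ι ι ℝ} (hK : Kᵀ = -K) (t : ℝ) : (lin 1 K t)ᵀ = lin 1 K (-t) := by
  unfold lin
  rw [transpose_add, transpose_smul, transpose_smul, hK, transpose_one, mul_neg, Real.cos_neg,
    Real.sin_neg, smul_neg, neg_smul]

theorem CS_zero (K : Matrix ι ι ℝ) : lin 1 K 0 = 1 := by
  unfold lin
  rw [mul_zero, Real.cos_zero, Real.sin_zero, one_smul, zero_smul, add_zero]

theorem CS_one (K : Matrix ι ι ℝ) : lin 1 K 1 = -1 := by
  unfold lin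
  rw [mul_one, Real.cos_pi, Real.sin_pi, neg_smul, one_smul, zero_smul, add_zero]

theorem CS_mul {K : Matrix ι ι ℝ} (hK : K * K = -1) (s t : ℝ) :
    lin 1 K s * lin 1 K t = lin 1 K (s + t) := by
  unfold lin
  rw [mul_add Real.pi, Real.cos_add, Real.sin_add]
  simp only [add_mul, mul_add, smul_mul_smul, mul_one, one_mul, hK, smul_neg, sub_smul, add_smul]
  abel

theorem CS_cont {X : Type} [TopologicalSpace X] {K : X → Matrix ι ι ℝ} {t : X → ℝ}
    (hK : Continuous K) (ht : Continuous t) : Continuous fun x => lin 1 (K x) (t x) := by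
  unfold lin
  fun_prop

theorem CS_so_mul {A B : Matrix ι ι ℝ} (hA : A ∈ SOs ι) (hB : B ∈ SOs ι) : A * B ∈ SOs ι := by
  refine ⟨?_, ?_⟩
  · rw [transpose_mul, mul_assoc, ← mul_assoc Aᵀ, hA.1, one_mul, hB.1]
  · rw [det_mul, hA.2, hB.2, one_mul]

theorem CS_so_inv {A : Matrix ι ι ℝ} (hA : A ∈ SOs ι) : A * Aᵀ = 1 := mul_eq_one_comm.1 hA.1

theorem CS_so_T {A : Matrix ι ι ℝ} (hA : A ∈ SOs ι) : Aᵀ ∈ SOs ι := by
  refine ⟨?_, ?_⟩
  · rw [transpose_transpose]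
    exact CS_so_inv hA
  · rw [det_transpose, hA.2]

theorem CS_so_one : (1 : Matrix ι ι ℝ) ∈ SOs ι := ⟨by rw [transpose_one, one_mul], det_one⟩

theorem lin_mem {K : Matrix ι ι ℝ} (hK : IsCpx K) (t : ℝ) : lin 1 K t ∈ SOs ι := by
  have h1 : ∀ t, (lin 1 K t)ᵀ * lin 1 K t = 1 := by
    intro t
    rw [CS_T hK.1, CS_mul hK.2, neg_add_cancel, CS_zero]
  refine ⟨h1 t, ?_⟩
  have h2 : lin 1 K t = lin 1 K (t / 2) * lin 1 K (t / 2) := by
    rw [CS_mul hK.2, add_halves]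
  have h3 := congrArg Matrix.det (h1 (t / 2))
  rw [det_mul, det_transpose, det_one] at h3
  rw [h2, det_mul, h3]

theorem lin_mul {K : Matrix ι ι ℝ} (hK : IsCpx K) (s t : ℝ) :
    lin 1 K s * lin 1 K t = lin 1 K (s + t) := by
  exact CS_mul hK.2 s t

/-- the commutator -/
def CS_c (g u : Matrix ι ι ℝ) : Matrix ι ι ℝ := g * u * gᵀ * uᵀ

theorem CS_c_mem {g u : Matrix ι ι ℝ} (hg : g ∈ SOs ι) (hu : u ∈ SOs ι) : CS_c g u ∈ SOs ι :=
  CS_so_mul (CS_so_mul (CS_so_mul hg hu) (CS_so_T hg)) (CS_so_T hu)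

theorem CS_c_one {g : Matrix ι ι ℝ} (hg : g ∈ SOs ι) : CS_c g 1 = 1 := by
  unfold CS_c
  rw [mul_one, transpose_one, mul_one, CS_so_inv hg]

theorem CS_c_neg (g u : Matrix ι ι ℝ) : CS_c g (-u) = CS_c g u := by
  unfold CS_c
  rw [transpose_neg, mul_neg, mul_neg, neg_mul, neg_mul, neg_neg]

theorem CS_c_neg_one {g : Matrix ι ι ℝ} (hg : g ∈ SOs ι) : CS_c g (-1) = 1 := by
  rw [CS_c_neg, CS_c_one hg]

theorem CS_c_cont {X : Type} [TopologicalSpace X] {g u : X → Matrix ι ι ℝ}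
    (hg : Continuous g) (hu : Continuous u) : Continuous fun x => CS_c (g x) (u x) := by
  unfold CS_c
  exact ((hg.matrix_mul hu).matrix_mul hg.matrix_transpose).matrix_mul hu.matrix_transpose

/-- the general homotopy -/
theorem CS_hom {G : I × Sp k → Matrix ι ι ℝ} (hG : Continuous G) (hGm : ∀ p, G p ∈ SOs ι)
    {K : I → Matrix ι ι ℝ} (hKc : Continuous K) (hK : ∀ u, IsCpx (K u))
    {F F' : Sp (k + 1) → Matrix ι ι ℝ} (hF : IsCS (fun y => G (0, y)) (K 0) F)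
    (hF' : IsCS (fun y => G (1, y)) (K 1) F') : HIn (SOs ι) F F' := by
  obtain ⟨H', hH', he⟩ := descend (Q := I) (V := Matrix ι ι ℝ)
    (fun p : I × (I × Sp k) => CS_c (G (p.1, p.2.2)) (lin 1 (K p.1) (p.2.1 : ℝ)))
    (CS_c_cont (hG.comp (by fun_prop)) (CS_cont (hKc.comp continuous_fst) (by fun_prop)))
    (by
      intro u y y'
      show CS_c (G (u, y)) (lin 1 (K u) ((0 : I) : ℝ)) = CS_c (G (u, y')) (lin 1 (K u) ((0 : I) : ℝ))
      rw [Set.Icc.coe_zero, CS_zero, CS_c_one (hGm _), CS_c_one (hGm _)])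
    (by
      intro u y y'
      show CS_c (G (u, y)) (lin 1 (K u) ((1 : I) : ℝ)) = CS_c (G (u, y')) (lin 1 (K u) ((1 : I) : ℝ))
      rw [Set.Icc.coe_one, CS_one, CS_c_neg_one (hGm _), CS_c_neg_one (hGm _)])
  refine ⟨H', hH', fun u x => ?_, fun x => ?_, fun x => ?_⟩
  · obtain ⟨p, rfl⟩ := susp_surj x
    show H' (u, susp p) ∈ SOs ι
    rw [he]
    exact CS_c_mem (hGm _) (lin_mem (hK _) _)
  · obtain ⟨⟨t, y⟩, rfl⟩ := susp_surj x
    rw [he, hF.2]
    rfl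
  · obtain ⟨⟨t, y⟩, rfl⟩ := susp_surj x
    rw [he, hF'.2]
    rfl

theorem cs_exists (g : Sp k → Matrix ι ι ℝ) (hg : Continuous g) (hS : ∀ y, g y ∈ SOs ι)
    (K : Matrix ι ι ℝ) (hK : IsCpx K) :
    ∃ F : Sp (k + 1) → Matrix ι ι ℝ, IsCS g K F ∧ ∀ x, F x ∈ SOs ι := by
  obtain ⟨H', hH', he⟩ := descend (Q := Unit) (V := Matrix ι ι ℝ)
    (fun p : Unit × (I × Sp k) => CS_c (g p.2.2) (lin 1 K (p.2.1 : ℝ)))
    (CS_c_cont (hg.comp (by fun_prop)) (CS_cont continuous_const (by fun_prop)))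
    (by
      intro u y y'
      show CS_c (g y) (lin 1 K ((0 : I) : ℝ)) = CS_c (g y') (lin 1 K ((0 : I) : ℝ))
      rw [Set.Icc.coe_zero, CS_zero, CS_c_one (hS _), CS_c_one (hS _)])
    (by
      intro u y y'
      show CS_c (g y) (lin 1 K ((1 : I) : ℝ)) = CS_c (g y') (lin 1 K ((1 : I) : ℝ))
      rw [Set.Icc.coe_one, CS_one, CS_c_neg_one (hS _), CS_c_neg_one (hS _)])
  refine ⟨fun x => H' ((), x), ⟨hH'.comp (by fun_prop), fun t y => he () (t, y)⟩, fun x => ?_⟩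
  obtain ⟨p, rfl⟩ := susp_surj x
  show H' ((), susp p) ∈ SOs ι
  rw [he]
  exact CS_c_mem (hS _) (lin_mem hK _)

theorem cs_mem {g : Sp k → Matrix ι ι ℝ} (hS : ∀ y, g y ∈ SOs ι)
    {K : Matrix ι ι ℝ} (hK : IsCpx K) {F : Sp (k + 1) → Matrix ι ι ℝ} (hF : IsCS g K F)
    (x : Sp (k + 1)) : F x ∈ SOs ι := by
  obtain ⟨⟨t, y⟩, rfl⟩ := susp_surj x
  rw [hF.2]
  exact CS_c_mem (hS _) (lin_mem hK _)

theorem cs_hin {g g' : Sp k → Matrix ι ι ℝ} (h : HIn (SOs ι) g g') {K : Matrix ι ι ℝ}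
    (hK : IsCpx K) {F F' : Sp (k + 1) → Matrix ι ι ℝ} (hF : IsCS g K F) (hF' : IsCS g' K F') :
    HIn (SOs ι) F F' := by
  obtain ⟨G, hG, hGm, h0, h1⟩ := h
  have e0 : (fun y => G (0, y)) = g := funext h0
  have e1 : (fun y => G (1, y)) = g' := funext h1
  refine CS_hom hG (fun p => hGm p.1 p.2) (K := fun _ => K) continuous_const (fun _ => hK) ?_ ?_
  · rw [e0]
    exact hF
  · rw [e1]
    exact hF'

theorem cs_K {g : Sp k → Matrix ι ι ℝ} (hg : Continuous g) (hS : ∀ y, g y ∈ SOs ι)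
    (K : I → Matrix ι ι ℝ) (hKc : Continuous K) (hK : ∀ u, IsCpx (K u))
    {F F' : Sp (k + 1) → Matrix ι ι ℝ} (hF : IsCS g (K 0) F) (hF' : IsCS g (K 1) F') :
    HIn (SOs ι) F F' := by
  exact CS_hom (G := fun p => g p.2) (hg.comp continuous_snd) (fun p => hS p.2) hKc hK hF hF'

theorem cs_stb {g : Sp k → Matrix ι ι ℝ} {K : Matrix ι ι ℝ}
    {F : Sp (k + 1) → Matrix ι ι ℝ} (hF : IsCS g K F) {K' : Matrix κ κ ℝ} (hK' : IsCpx K') :
    IsCS (fun y => stb κ (g y)) (fromBlocks K 0 0 K') (fun x => stb κ (F x)) := by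
  refine ⟨?_, fun t y => ?_⟩
  · unfold stb
    exact hF.1.matrix_fromBlocks continuous_const continuous_const continuous_const
  · have h1 : lin 1 (fromBlocks K 0 0 K') (t : ℝ) =
        fromBlocks (lin 1 K (t : ℝ)) 0 0 (lin 1 K' (t : ℝ)) := by
      unfold lin
      rw [← fromBlocks_one, fromBlocks_smul, fromBlocks_smul, fromBlocks_add]
      simp only [smul_zero, add_zero]
    show stb κ (F (susp (t, y))) = stb κ (g y) * lin 1 (fromBlocks K 0 0 K') (t : ℝ) *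
      (stb κ (g y))ᵀ * (lin 1 (fromBlocks K 0 0 K') (t : ℝ))ᵀ
    rw [h1, hF.2]
    unfold stb
    rw [fromBlocks_transpose, fromBlocks_transpose, fromBlocks_multiply, fromBlocks_multiply,
      fromBlocks_multiply]
    simp only [Matrix.mul_zero, Matrix.zero_mul, add_zero, zero_add, transpose_zero, transpose_one,
      Matrix.mul_one, Matrix.one_mul, CS_so_inv (lin_mem hK' _)]

theorem cs_conj {g : Sp k → Matrix ι ι ℝ} {K : Matrix ι ι ℝ}
    {F : Sp (k + 1) → Matrix ι ι ℝ} (hF : IsCS g K F) (Q : Matrix κ ι ℝ) (h1 : Q * Qᵀ = 1)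
    (h2 : Qᵀ * Q = 1) :
    IsCS (fun y => Q * g y * Qᵀ) (Q * K * Qᵀ) (fun x => Q * F x * Qᵀ) := by
  refine ⟨(continuous_const.matrix_mul hF.1).matrix_mul continuous_const, fun t y => ?_⟩
  have e1 : lin 1 (Q * K * Qᵀ) (t : ℝ) = Q * lin 1 K (t : ℝ) * Qᵀ := by
    unfold lin
    rw [Matrix.mul_add, Matrix.add_mul, Matrix.mul_smul, Matrix.mul_smul, Matrix.smul_mul,
      Matrix.smul_mul, Matrix.mul_one, h1]
  have e2 : ∀ {μ : Type} (M : Matrix ι μ ℝ), Qᵀ * (Q * M) = M := by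
    intro μ M
    rw [← Matrix.mul_assoc, h2, Matrix.one_mul]
  show Q * F (susp (t, y)) * Qᵀ = Q * g y * Qᵀ * lin 1 (Q * K * Qᵀ) (t : ℝ) *
      (Q * g y * Qᵀ)ᵀ * (lin 1 (Q * K * Qᵀ) (t : ℝ))ᵀ
  rw [e1, hF.2]
  simp only [transpose_mul, transpose_transpose, Matrix.mul_assoc, e2]

theorem cs_sq {g : Sp k → Matrix ι ι ℝ} (hg : Continuous g) (hS : ∀ y, g y ∈ SOs ι)
    {K K' : Matrix ι ι ℝ} (hK : IsCpx K) (hK' : IsCpx K') (hKK : K * K' = -(K' * K))
    {F : Sp (k + 1) → Matrix ι ι ℝ} (hF : IsCS g K F) :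
    HIn (SOs ι) (fun x => F x * F x) (fun _ => 1) := by
  -- first homotopy
  obtain ⟨H1, hH1, he1⟩ := descend (Q := I) (V := Matrix ι ι ℝ)
    (fun p : I × (I × Sp k) =>
      CS_c (g p.2.2) (lin 1 K (min ((1 + (p.1 : ℝ)) * (p.2.1 : ℝ)) 1)) *
      CS_c (g p.2.2) (lin 1 K (max ((1 + (p.1 : ℝ)) * (p.2.1 : ℝ) - (p.1 : ℝ)) 0)))
    ((CS_c_cont (hg.comp (by fun_prop)) (CS_cont continuous_const (by fun_prop))).matrix_mul
      (CS_c_cont (hg.comp (by fun_prop)) (CS_cont continuous_const (by fun_prop))))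
    (by
      intro u y y'
      have e1 : min ((1 + (u : ℝ)) * ((0 : I) : ℝ)) 1 = 0 := by
        rw [Set.Icc.coe_zero, mul_zero]
        exact min_eq_left zero_le_one
      have e2 : max ((1 + (u : ℝ)) * ((0 : I) : ℝ) - (u : ℝ)) 0 = 0 := by
        rw [Set.Icc.coe_zero, mul_zero, zero_sub]
        exact max_eq_right (by linarith [u.2.1])
      show CS_c (g y) (lin 1 K (min ((1 + (u : ℝ)) * ((0 : I) : ℝ)) 1)) *
        CS_c (g y) (lin 1 K (max ((1 + (u : ℝ)) * ((0 : I) : ℝ) - (u : ℝ)) 0)) =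
        CS_c (g y') (lin 1 K (min ((1 + (u : ℝ)) * ((0 : I) : ℝ)) 1)) *
        CS_c (g y') (lin 1 K (max ((1 + (u : ℝ)) * ((0 : I) : ℝ) - (u : ℝ)) 0))
      rw [e1, e2, CS_zero, CS_c_one (hS _), CS_c_one (hS _)])
    (by
      intro u y y'
      have e1 : min ((1 + (u : ℝ)) * ((1 : I) : ℝ)) 1 = 1 := by
        rw [Set.Icc.coe_one, mul_one]
        exact min_eq_right (by linarith [u.2.1])
      have e2 : max ((1 + (u : ℝ)) * ((1 : I) : ℝ) - (u : ℝ)) 0 = 1 := by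
        rw [Set.Icc.coe_one, mul_one, add_sub_cancel_right]
        exact max_eq_left zero_le_one
      show CS_c (g y) (lin 1 K (min ((1 + (u : ℝ)) * ((1 : I) : ℝ)) 1)) *
        CS_c (g y) (lin 1 K (max ((1 + (u : ℝ)) * ((1 : I) : ℝ) - (u : ℝ)) 0)) =
        CS_c (g y') (lin 1 K (min ((1 + (u : ℝ)) * ((1 : I) : ℝ)) 1)) *
        CS_c (g y') (lin 1 K (max ((1 + (u : ℝ)) * ((1 : I) : ℝ) - (u : ℝ)) 0))
      rw [e1, e2, CS_one, CS_c_neg_one (hS _), CS_c_neg_one (hS _)])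
  -- second homotopy
  obtain ⟨Kv, hKv⟩ : ∃ Kv : I → Matrix ι ι ℝ, Kv = fun v : I =>
    Real.cos (Real.pi * (v : ℝ)) • K + Real.sin (Real.pi * (v : ℝ)) • K' := ⟨_, rfl⟩
  have hKvc : Continuous Kv := by
    rw [hKv]
    fun_prop
  have hKv0 : Kv 0 = K := by
    rw [hKv]
    simp
  have hKv1 : Kv 1 = -K := by
    rw [hKv]
    simp
  have hKvx : ∀ v, IsCpx (Kv v) := by
    intro v
    rw [hKv]
    refine ⟨?_, ?_⟩
    · show (Real.cos (Real.pi * (v : ℝ)) • K + Real.sin (Real.pi * (v : ℝ)) • K')ᵀ = _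
      rw [transpose_add, transpose_smul, transpose_smul, hK.1, hK'.1, smul_neg, smul_neg, neg_add]
    · show (Real.cos (Real.pi * (v : ℝ)) • K + Real.sin (Real.pi * (v : ℝ)) • K') *
        (Real.cos (Real.pi * (v : ℝ)) • K + Real.sin (Real.pi * (v : ℝ)) • K') = -1
      simp only [add_mul, mul_add, smul_mul_smul, hK.2, hK'.2, hKK, smul_neg]
      have h1 : Real.cos (Real.pi * (v : ℝ)) * Real.cos (Real.pi * (v : ℝ)) +
          Real.sin (Real.pi * (v : ℝ)) * Real.sin (Real.pi * (v : ℝ)) = 1 := by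
        have := Real.sin_sq_add_cos_sq (Real.pi * (v : ℝ))
        linarith
      have h2 : (1 : Matrix ι ι ℝ) = (Real.cos (Real.pi * (v : ℝ)) * Real.cos (Real.pi * (v : ℝ))) •
          (1 : Matrix ι ι ℝ) + (Real.sin (Real.pi * (v : ℝ)) * Real.sin (Real.pi * (v : ℝ))) •
          (1 : Matrix ι ι ℝ) := by
        rw [← add_smul, h1, one_smul]
      conv_rhs => rw [h2]
      rw [mul_comm (Real.sin (Real.pi * (v : ℝ))) (Real.cos (Real.pi * (v : ℝ)))]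
      abel
  obtain ⟨H2, hH2, he2⟩ := descend (Q := I) (V := Matrix ι ι ℝ)
    (fun p : I × (I × Sp k) =>
      CS_c (g p.2.2) (lin 1 K (p.2.1 : ℝ) * lin 1 (Kv p.1) (p.2.1 : ℝ)))
    (CS_c_cont (hg.comp (by fun_prop)) ((CS_cont continuous_const (by fun_prop)).matrix_mul
      (CS_cont (hKvc.comp continuous_fst) (by fun_prop))))
    (by
      intro u y y'
      show CS_c (g y) (lin 1 K ((0 : I) : ℝ) * lin 1 (Kv u) ((0 : I) : ℝ)) =
        CS_c (g y') (lin 1 K ((0 : I) : ℝ) * lin 1 (Kv u) ((0 : I) : ℝ))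
      rw [Set.Icc.coe_zero, CS_zero, CS_zero, one_mul, CS_c_one (hS _), CS_c_one (hS _)])
    (by
      intro u y y'
      show CS_c (g y) (lin 1 K ((1 : I) : ℝ) * lin 1 (Kv u) ((1 : I) : ℝ)) =
        CS_c (g y') (lin 1 K ((1 : I) : ℝ) * lin 1 (Kv u) ((1 : I) : ℝ))
      rw [Set.Icc.coe_one, CS_one, CS_one, neg_mul_neg, one_mul, CS_c_one (hS _),
        CS_c_one (hS _)])
  have hmid : ∀ x, H1 (1, x) = H2 (0, x) := by
    intro x
    obtain ⟨⟨t, y⟩, rfl⟩ := susp_surj x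
    rw [he1, he2]
    show CS_c (g y) (lin 1 K (min ((1 + ((1 : I) : ℝ)) * (t : ℝ)) 1)) *
        CS_c (g y) (lin 1 K (max ((1 + ((1 : I) : ℝ)) * (t : ℝ) - ((1 : I) : ℝ)) 0)) =
        CS_c (g y) (lin 1 K (t : ℝ) * lin 1 (Kv 0) (t : ℝ))
    rw [hKv0, CS_mul hK.2, Set.Icc.coe_one]
    rcases le_total ((t : ℝ) + t) 1 with h | h
    · rw [min_eq_left (by linarith), max_eq_right (by linarith), CS_zero, CS_c_one (hS _), mul_one]
      have : (1 + 1) * (t : ℝ) = t + t := by ring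
      rw [this]
    · rw [min_eq_right (by linarith), max_eq_left (by linarith), CS_one, CS_c_neg_one (hS _),
        one_mul, ← CS_c_neg (g y) (lin 1 K ((t : ℝ) + t))]
      have : (1 + 1) * (t : ℝ) - 1 = (t + t) + (-1) := by ring
      have h3 : lin 1 K (-1) = -1 := by
        rw [← CS_T hK.1, CS_one, transpose_neg, transpose_one]
      rw [this, ← CS_mul hK.2, h3, mul_neg, mul_one]
  have k1 : HIn (SOs ι) (fun x => F x * F x) (fun x => H1 (1, x)) := by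
    refine ⟨H1, hH1, fun u x => ?_, fun x => ?_, fun x => rfl⟩
    · obtain ⟨p, rfl⟩ := susp_surj x
      show H1 (u, susp p) ∈ SOs ι
      rw [he1]
      exact CS_so_mul (CS_c_mem (hS _) (lin_mem hK _)) (CS_c_mem (hS _) (lin_mem hK _))
    · obtain ⟨⟨t, y⟩, rfl⟩ := susp_surj x
      have h4 : F (susp (t, y)) = CS_c (g y) (lin 1 K (t : ℝ)) := hF.2 t y
      show H1 (0, susp (t, y)) = F (susp (t, y)) * F (susp (t, y))
      rw [he1, h4]
      show CS_c (g y) (lin 1 K (min ((1 + ((0 : I) : ℝ)) * (t : ℝ)) 1)) *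
        CS_c (g y) (lin 1 K (max ((1 + ((0 : I) : ℝ)) * (t : ℝ) - ((0 : I) : ℝ)) 0)) =
        CS_c (g y) (lin 1 K (t : ℝ)) * CS_c (g y) (lin 1 K (t : ℝ))
      rw [Set.Icc.coe_zero, add_zero, one_mul, sub_zero, min_eq_left t.2.2, max_eq_left t.2.1]
  have k2 : HIn (SOs ι) (fun x => H2 (0, x)) (fun _ => 1) := by
    refine ⟨H2, hH2, fun u x => ?_, fun x => rfl, fun x => ?_⟩
    · obtain ⟨p, rfl⟩ := susp_surj x
      show H2 (u, susp p) ∈ SOs ι
      rw [he2]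
      exact CS_c_mem (hS _) (CS_so_mul (lin_mem hK _) (lin_mem (hKvx _) _))
    · obtain ⟨⟨t, y⟩, rfl⟩ := susp_surj x
      rw [he2]
      show CS_c (g y) (lin 1 K (t : ℝ) * lin 1 (Kv 1) (t : ℝ)) = 1
      have h3 : lin 1 (-K) (t : ℝ) = (lin 1 K (t : ℝ))ᵀ := by
        rw [CS_T hK.1]
        unfold lin
        rw [mul_neg, Real.cos_neg, Real.sin_neg, smul_neg, neg_smul]
      rw [hKv1, h3, CS_so_inv (lin_mem hK _), CS_c_one (hS _)]
  have e3 : (fun x => H1 (1, x)) = fun x => H2 (0, x) := funext hmid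
  rw [e3] at k1
  exact k1.trans k2

end DT
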