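import Pool.Agent.H78.DT.CS

/-!
# Complex structures (job DT-CPX)

(1) `cpx_nf`: if `K, L` are complex structures (skew, square `-1`) on index types of the same
cardinality, there is an orthogonal `Q` with `Q K Qᵀ = L`.  PROOF. It is enough to show that every
complex structure `K` on `ι` admits an orthonormal basis `v_1, K v_1, v_2, K v_2, ...` (so
`K = Q₁ (standard) Q₁ᵀ`): induct on the dimension (choose a unit vector `v_1`; `K v_1 ⟂ v_1` as
`K` is skew, `|K v_1| = |v_1|`; the orthogonal complement of `{v_1, K v_1}` is `K`-stable), or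
take a maximal orthonormal family of the form `v_1, K v_1, ..., v_r, K v_r`.  In particular the
cardinality of `ι` is even, and conversely complex structures exist if it is even (`cpx_even`).
(2) `cpx_conn`: PROOF. `card ι` and `card (ι ⊕ β)` are even, so `card β` is even; let `L₀` be a
complex structure on `β`.  By (1) `K = Q (Kι ⊕ L₀) Qᵀ`, `Q` orthogonal on `ι ⊕ β`.  If
`det Q = -1`, let `ρ` be the reflection of `β` in one coordinate (`β` nonempty),
`L = ρ L₀ ρ`, `Q' = Q (1 ⊕ ρ)`; otherwise `L = L₀`, `Q' = Q`.  `K = Q' (Kι ⊕ L) Q'ᵀ`,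
`Q' ∈ SOs`; with a path `Q'_u` from `Q'` to `1` in `SOs` (`so_path`), `Q'_u (Kι ⊕ L) Q'_uᵀ` is the
desired path.
(3) `quat_exists`: for `n = 0 mod 4` there are two anticommuting complex structures on `Fin n`:
on `ℝ⁴ = Fin 4 → ℝ` the left multiplications by `i` and `j`; take direct sums
(`Fin n ≃ Fin 4 × Fin (n/4)`, Kronecker product with `1`).
-/

open Matrix Set unitInterval Topology

noncomputable section

namespace DT

theorem cpx_reindex {ι κ : Type} [Fintype ι] [DecidableEq ι] [Fintype κ] [DecidableEq κ]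
    (e : κ ≃ ι) {K : Matrix ι ι ℝ} (hK : IsCpx K) : IsCpx (K.submatrix e e) := by
  constructor
  · rw [transpose_submatrix, hK.1]
    rfl
  · rw [submatrix_mul_equiv, hK.2]
    ext i j
    simp [Matrix.one_apply]

/-- the standard complex structure -/
def cpxJ (r : ℕ) : Matrix (Fin r ⊕ Fin r) (Fin r ⊕ Fin r) ℝ := fromBlocks 0 (-1) 1 0

theorem cpxJ_cpx (r : ℕ) : IsCpx (cpxJ r) := by
  unfold cpxJ
  constructor
  · rw [fromBlocks_transpose, fromBlocks_neg]
    simp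
  · rw [fromBlocks_multiply, ← fromBlocks_one, fromBlocks_neg]
    simp

theorem cpxK_cpx (α : Type) [Fintype α] [DecidableEq α] :
    IsCpx (fromBlocks 0 (-1) 1 0 : Matrix (α ⊕ α) (α ⊕ α) ℝ) := by
  constructor
  · rw [fromBlocks_transpose, fromBlocks_neg]
    simp
  · rw [fromBlocks_multiply, ← fromBlocks_one, fromBlocks_neg]
    simp

theorem cpx_fam {ι : Type} [Fintype ι] [DecidableEq ι] (K : Matrix ι ι ℝ) (hK : IsCpx K)
    (r : ℕ) : 2 * r ≤ Fintype.card ι → ∃ v : Fin r → (ι → ℝ),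
      (∀ a b, v a ⬝ᵥ v b = if a = b then 1 else 0) ∧ ∀ a b, v a ⬝ᵥ (K *ᵥ v b) = 0 := by
  have hskew : ∀ x y : ι → ℝ, x ⬝ᵥ (K *ᵥ y) = - (y ⬝ᵥ (K *ᵥ x)) := by
    intro x y
    rw [dotProduct_mulVec, ← mulVec_transpose, hK.1, neg_mulVec, neg_dotProduct,
      dotProduct_comm]
  have hself : ∀ x : ι → ℝ, x ⬝ᵥ (K *ᵥ x) = 0 := by
    intro x
    have := hskew x x
    linarith
  induction r with
  | zero => intro _; exact ⟨fun a => a.elim0, fun a => a.elim0, fun a => a.elim0⟩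
  | succ r ih =>
    intro hr
    obtain ⟨v, h1, h2⟩ := ih (by omega)
    let F : (ι → ℝ) →ₗ[ℝ] (Fin r ⊕ Fin r → ℝ) :=
      { toFun := fun w => Sum.elim (fun a => v a ⬝ᵥ w) (fun a => (K *ᵥ v a) ⬝ᵥ w)
        map_add' := by
          intro x y
          ext (a | a) <;> simp [dotProduct_add]
        map_smul' := by
          intro c x
          ext (a | a) <;> simp [dotProduct_smul] }
    have hker : LinearMap.ker F ≠ ⊥ := by
      apply LinearMap.ker_ne_bot_of_finrank_lt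
      rw [Module.finrank_fintype_fun_eq_card, Module.finrank_fintype_fun_eq_card]
      simp only [Fintype.card_sum, Fintype.card_fin]
      omega
    obtain ⟨w, hw, hw0⟩ := (Submodule.ne_bot_iff _).1 hker
    have hw1 : ∀ a, v a ⬝ᵥ w = 0 := fun a => congrFun (LinearMap.mem_ker.1 hw) (Sum.inl a)
    have hw2 : ∀ a, (K *ᵥ v a) ⬝ᵥ w = 0 := fun a =>
      congrFun (LinearMap.mem_ker.1 hw) (Sum.inr a)
    have hww : 0 < w ⬝ᵥ w := by
      rcases (dotProduct_self_eq_zero (v := w)).not.2 hw0 with h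
      have h0 : 0 ≤ w ⬝ᵥ w := by
        rw [dotProduct]
        exact Finset.sum_nonneg fun i _ => mul_self_nonneg _
      exact lt_of_le_of_ne h0 (Ne.symm h)
    let u : ι → ℝ := (Real.sqrt (w ⬝ᵥ w))⁻¹ • w
    have huu : u ⬝ᵥ u = 1 := by
      simp only [u]
      rw [smul_dotProduct, dotProduct_smul, smul_eq_mul, smul_eq_mul, ← mul_assoc, ← mul_inv,
        Real.mul_self_sqrt hww.le, inv_mul_cancel₀ hww.ne']
    have hu1 : ∀ a, v a ⬝ᵥ u = 0 := by
      intro a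
      simp only [u]
      rw [dotProduct_smul, hw1, smul_zero]
    have hu2 : ∀ a, u ⬝ᵥ (K *ᵥ v a) = 0 := by
      intro a
      simp only [u]
      rw [smul_dotProduct, dotProduct_comm w (K *ᵥ v a), hw2, smul_zero]
    refine ⟨Fin.snoc v u, ?_, ?_⟩
    · intro a b
      refine Fin.lastCases ?_ (fun a => ?_) a
      · refine Fin.lastCases ?_ (fun b => ?_) b
        · simp [huu]
        · simp only [Fin.snoc_last, Fin.snoc_castSucc]
          rw [dotProduct_comm, hu1, if_neg (Fin.castSucc_lt_last b).ne']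
      · refine Fin.lastCases ?_ (fun b => ?_) b
        · simp only [Fin.snoc_last, Fin.snoc_castSucc]
          rw [hu1, if_neg (Fin.castSucc_lt_last a).ne]
        · simp only [Fin.snoc_castSucc]
          rw [h1]
          simp
    · intro a b
      refine Fin.lastCases ?_ (fun a => ?_) a
      · refine Fin.lastCases ?_ (fun b => ?_) b
        · simp only [Fin.snoc_last]
          exact hself u
        · simp only [Fin.snoc_last, Fin.snoc_castSucc]
          exact hu2 b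
      · refine Fin.lastCases ?_ (fun b => ?_) b
        · simp only [Fin.snoc_last, Fin.snoc_castSucc]
          rw [hskew, hu2, neg_zero]
        · simp only [Fin.snoc_castSucc]
          exact h2 a b

theorem cpx_std {ι : Type} [Fintype ι] [DecidableEq ι] (K : Matrix ι ι ℝ) (hK : IsCpx K)
    (r : ℕ) (hr : Fintype.card ι = r + r) : ∃ P : Matrix ι (Fin r ⊕ Fin r) ℝ,
      P * Pᵀ = 1 ∧ Pᵀ * P = 1 ∧ K = P * cpxJ r * Pᵀ := by
  obtain ⟨v, h1, h2⟩ := cpx_fam K hK r (by omega)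
  have hskew : ∀ x y : ι → ℝ, (K *ᵥ x) ⬝ᵥ y = - (x ⬝ᵥ (K *ᵥ y)) := by
    intro x y
    rw [dotProduct_mulVec, ← mulVec_transpose, hK.1, neg_mulVec, neg_dotProduct, neg_neg]
  have hKK : ∀ x : ι → ℝ, K *ᵥ (K *ᵥ x) = - x := by
    intro x
    rw [mulVec_mulVec, hK.2, neg_mulVec, one_mulVec]
  let P : Matrix ι (Fin r ⊕ Fin r) ℝ := Matrix.of fun i s =>
    Sum.elim (fun a => v a i) (fun a => (K *ᵥ v a) i) s
  have hP : Pᵀ * P = 1 := by
    ext s t
    rw [mul_apply']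
    rcases s with a | a <;> rcases t with b | b
    · have : (Pᵀ (Sum.inl a)) ⬝ᵥ (fun j => P j (Sum.inl b)) = v a ⬝ᵥ v b := rfl
      rw [this, h1]
      simp [Matrix.one_apply]
    · have : (Pᵀ (Sum.inl a)) ⬝ᵥ (fun j => P j (Sum.inr b)) = v a ⬝ᵥ (K *ᵥ v b) := rfl
      rw [this, h2]
      simp
    · have : (Pᵀ (Sum.inr a)) ⬝ᵥ (fun j => P j (Sum.inl b)) = (K *ᵥ v a) ⬝ᵥ v b := rfl
      rw [this, dotProduct_comm, h2]
      simp
    · have : (Pᵀ (Sum.inr a)) ⬝ᵥ (fun j => P j (Sum.inr b)) = (K *ᵥ v a) ⬝ᵥ (K *ᵥ v b) := rfl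
      rw [this, hskew, hKK, dotProduct_neg, neg_neg, h1]
      simp [Matrix.one_apply]
  have e : ι ≃ Fin r ⊕ Fin r := Fintype.equivOfCardEq (by simp [hr])
  have hP2 : P * Pᵀ = 1 := (Matrix.mul_eq_one_comm_of_equiv e.symm).1 hP
  refine ⟨P, hP2, hP, ?_⟩
  have hKP : K * P = P * cpxJ r := by
    ext i s
    rcases s with a | a
    · have l : (K * P) i (Sum.inl a) = (K *ᵥ v a) i := rfl
      have rr : (P * cpxJ r) i (Sum.inl a) = (K *ᵥ v a) i := by
        rw [mul_apply, Fintype.sum_sum_type]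
        simp [cpxJ, P, Matrix.one_apply]
      rw [l, rr]
    · have l : (K * P) i (Sum.inr a) = (K *ᵥ (K *ᵥ v a)) i := rfl
      have rr : (P * cpxJ r) i (Sum.inr a) = - v a i := by
        rw [mul_apply, Fintype.sum_sum_type]
        simp [cpxJ, P, Matrix.one_apply]
      rw [l, rr, hKK]
      rfl
  rw [← hKP, Matrix.mul_assoc, hP2, Matrix.mul_one]

theorem cpx_card {ι : Type} [Fintype ι] [DecidableEq ι] (K : Matrix ι ι ℝ) (hK : IsCpx K) :
    Even (Fintype.card ι) := by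
  have h : K.det * K.det = (-1) ^ Fintype.card ι := by
    rw [← det_mul, hK.2, det_neg, det_one, mul_one]
  rcases Nat.even_or_odd (Fintype.card ι) with h1 | h1
  · exact h1
  · rw [h1.neg_one_pow] at h
    nlinarith [mul_self_nonneg K.det]

theorem cpx_nf {ι κ : Type} [Fintype ι] [DecidableEq ι] [Fintype κ] [DecidableEq κ]
    (hcard : Fintype.card ι = Fintype.card κ) (K : Matrix ι ι ℝ) (L : Matrix κ κ ℝ)
    (hK : IsCpx K) (hL : IsCpx L) :
    ∃ Q : Matrix κ ι ℝ, Q * Qᵀ = 1 ∧ Qᵀ * Q = 1 ∧ Q * K * Qᵀ = L := by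
  obtain ⟨r, hr⟩ := cpx_card K hK
  obtain ⟨P, p1, p2, p3⟩ := cpx_std K hK r hr
  obtain ⟨R, r1, r2, r3⟩ := cpx_std L hL r (hcard ▸ hr)
  refine ⟨R * Pᵀ, ?_, ?_, ?_⟩
  · rw [transpose_mul, transpose_transpose, Matrix.mul_assoc, ← Matrix.mul_assoc Pᵀ, p2,
      Matrix.one_mul, r1]
  · rw [transpose_mul, transpose_transpose, Matrix.mul_assoc, ← Matrix.mul_assoc Rᵀ, r2,
      Matrix.one_mul, p1]
  · rw [transpose_mul, transpose_transpose, p3, r3]
    have e1 : R * Pᵀ * (P * cpxJ r * Pᵀ) * (P * Rᵀ) =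
        R * (Pᵀ * P) * cpxJ r * (Pᵀ * P) * Rᵀ := by
      simp only [Matrix.mul_assoc]
    rw [e1, p2, Matrix.mul_one, Matrix.mul_one]

theorem cpx_even {ι : Type} [Fintype ι] [DecidableEq ι] :
    (∃ K : Matrix ι ι ℝ, IsCpx K) ↔ Even (Fintype.card ι) := by
  constructor
  · rintro ⟨K, hK⟩
    exact cpx_card K hK
  · rintro ⟨r, hr⟩
    have e : ι ≃ Fin r ⊕ Fin r := Fintype.equivOfCardEq (by simp [hr])
    exact ⟨_, cpx_reindex e (cpxJ_cpx r)⟩

theorem cpx_blocks {ι β : Type} [Fintype ι] [DecidableEq ι] [Fintype β] [DecidableEq β]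
    {K : Matrix ι ι ℝ} {L : Matrix β β ℝ} (hK : IsCpx K) (hL : IsCpx L) :
    IsCpx (fromBlocks K 0 0 L) := by
  constructor
  · rw [fromBlocks_transpose, fromBlocks_neg, hK.1, hL.1]
    simp
  · rw [fromBlocks_multiply, ← fromBlocks_one, fromBlocks_neg]
    simp [hK.2, hL.2]

theorem cpx_conj {ι κ : Type} [Fintype ι] [DecidableEq ι] [Fintype κ] [DecidableEq κ]
    {K : Matrix ι ι ℝ} (hK : IsCpx K) {Q : Matrix κ ι ℝ} (h1 : Q * Qᵀ = 1)
    (h2 : Qᵀ * Q = 1) : IsCpx (Q * K * Qᵀ) := by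
  constructor
  · rw [transpose_mul, transpose_mul, transpose_transpose, hK.1, Matrix.neg_mul,
      Matrix.mul_neg, Matrix.mul_assoc]
  · have e1 : Q * K * Qᵀ * (Q * K * Qᵀ) = Q * (K * (Qᵀ * Q) * K) * Qᵀ := by
      simp only [Matrix.mul_assoc]
    rw [e1, h2, Matrix.mul_one, hK.2, Matrix.mul_neg, Matrix.neg_mul, Matrix.mul_one, h1]

theorem cpx_conn_aux {ι β : Type} [Fintype ι] [DecidableEq ι] [Fintype β] [DecidableEq β]
    (K : Matrix (ι ⊕ β) (ι ⊕ β) ℝ) (Kι : Matrix ι ι ℝ)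
    (hKι : IsCpx Kι) (L : Matrix β β ℝ) (hL : IsCpx L) (Q : Matrix (ι ⊕ β) (ι ⊕ β) ℝ)
    (hQ : Q ∈ SOs (ι ⊕ β)) (hKQ : K = Qᵀ * fromBlocks Kι 0 0 L * Q) :
    ∃ (γ : I → Matrix (ι ⊕ β) (ι ⊕ β) ℝ), Continuous γ ∧
      (∀ u, IsCpx (γ u)) ∧ γ 0 = K ∧ γ 1 = fromBlocks Kι 0 0 L := by
  obtain ⟨q, hc, h0, h1, hq⟩ := so_path Q hQ
  refine ⟨fun u => (q u)ᵀ * fromBlocks Kι 0 0 L * q u, ?_, ?_, ?_, ?_⟩
  · exact (hc.matrix_transpose.matrix_mul continuous_const).matrix_mul hc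
  · intro u
    have a1 : (q u)ᵀ * q u = 1 := (hq u).1
    have a2 : q u * (q u)ᵀ = 1 := mul_eq_one_comm.1 a1
    have := cpx_conj (cpx_blocks hKι hL) (Q := (q u)ᵀ) (by rw [transpose_transpose, a1])
      (by rw [transpose_transpose, a2])
    rwa [transpose_transpose] at this
  · simp only [h0]
    exact hKQ.symm
  · simp [h1]

theorem cpx_conn {ι β : Type} [Fintype ι] [DecidableEq ι] [Fintype β] [DecidableEq β]
    [Nonempty β] (K : Matrix (ι ⊕ β) (ι ⊕ β) ℝ) (hK : IsCpx K) (Kι : Matrix ι ι ℝ)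
    (hKι : IsCpx Kι) :
    ∃ (L : Matrix β β ℝ) (γ : I → Matrix (ι ⊕ β) (ι ⊕ β) ℝ), IsCpx L ∧ Continuous γ ∧
      (∀ u, IsCpx (γ u)) ∧ γ 0 = K ∧ γ 1 = fromBlocks Kι 0 0 L := by
  have hβ : Even (Fintype.card β) := by
    have e1 := cpx_card K hK
    rw [Fintype.card_sum, Nat.even_add] at e1
    exact e1.1 (cpx_card Kι hKι)
  obtain ⟨L₀, hL₀⟩ := cpx_even.2 hβ
  obtain ⟨Q, q1, q2, q3⟩ := cpx_nf rfl K (fromBlocks Kι 0 0 L₀) hK (cpx_blocks hKι hL₀)
  have hKQ : K = Qᵀ * fromBlocks Kι 0 0 L₀ * Q := by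
    rw [← q3]
    have e1 : Qᵀ * (Q * K * Qᵀ) * Q = (Qᵀ * Q) * K * (Qᵀ * Q) := by
      simp only [Matrix.mul_assoc]
    rw [e1, q2, Matrix.one_mul, Matrix.mul_one]
  have hdet : Q.det * Q.det = 1 := by
    have := congrArg Matrix.det q2
    rwa [det_mul, det_transpose, det_one] at this
  rcases mul_self_eq_one_iff.1 hdet with hd | hd
  · obtain ⟨γ, hγ⟩ := cpx_conn_aux K Kι hKι L₀ hL₀ Q ⟨q2, hd⟩ hKQ
    exact ⟨L₀, γ, hL₀, hγ⟩
  · obtain ⟨b0⟩ := ‹Nonempty β›
    let ρ : Matrix β β ℝ := diagonal (fun b => if b = b0 then -1 else 1)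
    have hρt : ρᵀ = ρ := diagonal_transpose _
    have hρ : ρ * ρ = 1 := by
      simp only [ρ]
      rw [diagonal_mul_diagonal, ← diagonal_one]
      congr 1
      funext b
      by_cases hb : b = b0 <;> simp [hb]
    have hρd : ρ.det = -1 := by
      simp only [ρ]
      rw [det_diagonal, Finset.prod_ite_eq' Finset.univ b0 (fun _ => (-1 : ℝ))]
      simp
    have hL : IsCpx (ρ * L₀ * ρᵀ) := cpx_conj hL₀ (by rw [hρt, hρ]) (by rw [hρt, hρ])
    let S : Matrix (ι ⊕ β) (ι ⊕ β) ℝ := fromBlocks 1 0 0 ρ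
    have hSt : Sᵀ = S := by
      simp only [S]
      rw [fromBlocks_transpose, hρt]
      simp
    have hS : S * S = 1 := by
      simp only [S]
      rw [fromBlocks_multiply]
      simp [hρ]
    have hSd : S.det = -1 := by
      simp only [S]
      rw [det_fromBlocks_zero₂₁, det_one, hρd, one_mul]
    have hSL : S * fromBlocks Kι 0 0 (ρ * L₀ * ρᵀ) * S = fromBlocks Kι 0 0 L₀ := by
      simp only [S]
      rw [fromBlocks_multiply, fromBlocks_multiply]
      have e1 : ρ * (ρ * L₀ * ρᵀ) * ρ = L₀ := by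
        rw [hρt]
        have : ρ * (ρ * L₀ * ρ) * ρ = (ρ * ρ) * L₀ * (ρ * ρ) := by
          simp only [Matrix.mul_assoc]
        rw [this, hρ, Matrix.one_mul, Matrix.mul_one]
      simp [e1]
    obtain ⟨γ, hγ⟩ := cpx_conn_aux K Kι hKι (ρ * L₀ * ρᵀ) hL (S * Q) (by
      constructor
      · rw [transpose_mul, hSt, Matrix.mul_assoc, ← Matrix.mul_assoc S, hS, Matrix.one_mul, q2]
      · rw [det_mul, hSd, hd]
        norm_num) (by
      rw [transpose_mul, hSt, hKQ, ← hSL]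
      simp only [Matrix.mul_assoc])
    exact ⟨_, γ, hL, hγ⟩

theorem quat_exists (n : ℕ) (hn : n % 4 = 0) :
    ∃ K K' : Matrix (Fin n) (Fin n) ℝ, IsCpx K ∧ IsCpx K' ∧ K * K' = -(K' * K) := by
  obtain ⟨m, hm⟩ : ∃ m, n = 4 * m := ⟨n / 4, by omega⟩
  have hJ := cpxJ_cpx m
  let A := Fin m ⊕ Fin m
  let K : Matrix (A ⊕ A) (A ⊕ A) ℝ := fromBlocks 0 (-1) 1 0
  let K' : Matrix (A ⊕ A) (A ⊕ A) ℝ := fromBlocks (cpxJ m) 0 0 (-(cpxJ m))
  have hK : IsCpx K := cpxK_cpx A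
  have hJ' : IsCpx (-(cpxJ m)) := by
    constructor
    · rw [transpose_neg, hJ.1]
    · rw [Matrix.neg_mul, Matrix.mul_neg, neg_neg, hJ.2]
  have hK' : IsCpx K' := cpx_blocks hJ hJ'
  have hKK : K * K' = -(K' * K) := by
    simp only [K, K']
    rw [fromBlocks_multiply, fromBlocks_multiply, fromBlocks_neg]
    simp
  have e : Fin n ≃ A ⊕ A := Fintype.equivOfCardEq (by simp [A, hm]; ring)
  refine ⟨K.submatrix e e, K'.submatrix e e, cpx_reindex e hK, cpx_reindex e hK', ?_⟩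
  rw [submatrix_mul_equiv, submatrix_mul_equiv, hKK]
  rfl

end DT
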