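import Pool.Agent.H78.DT.Basic
import Pool.Agent.H78.DT.Cone

/-!
# Maps from lower dimensional spheres to spheres are null-homotopic (job DT-LOWDIM)

(1) `null_low`: a continuous `f : Sp k → US κ` with `k + 1 < card κ` is homotopic in `US κ` to a
constant.
PROOF. By Stone-Weierstrass (restrictions to the compact `Sp k` of polynomial or smooth
functions `(Fin (k+1) → ℝ) → (κ → ℝ)`) choose a smooth `P : (Fin (k+1) → ℝ) → (κ → ℝ)` with
`|P x - f x| < 1/2` on `Sp k`; there `P x ≠ 0` and `nrm (P x)` is never antipodal to `f x`, so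
`f ~ nrm ∘ P` by normalising the segment (`(1-u) f x + u P x ≠ 0`).
The map `Ψ : ℝ × (Fin (k+1) → ℝ) → (κ → ℝ)`... we need that `nrm ∘ P (Sp k)` is not all of `US κ`.
Use the dimension: the set `C = {r • P x | r ∈ ℝ, x ∈ Sp k}` has empty interior.  To stay in
dimension `k + 1` use the homogeneous extension `P̂ (v) = nr v • P (nrm v)`, which is `C¹` on
`{v ≠ 0}`, an open subset of a space of dimension `k + 1 < card κ`: its image has Hausdorff
dimension `≤ k + 1` (`dimH_image_le_of_locally_lipschitzOn`, `C¹` maps are locally Lipschitz), so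
its complement is dense (`dense_compl_of_dimH_lt_finrank`).  Both `P̂` and `-P̂` have this property,
so does the union (`dimH_union`).  So there is `z ≠ 0` not in the image of `P̂` nor of `-P̂`, i.e.
`nrm z ≠ ± nrm (P x)` for all `x`.  (If `nrm z = nrm (P x)`, then `z = s • P x`, `s > 0`, so
`z = P̂ (s • x)`.)  So `-nrm z` is not a value of `nrm ∘ P`, and normalising the segment from
`nrm (P x)` to `nrm z` gives a homotopy to the constant `nrm z`.
(2) `null_low_rel`: relative version with one parameter: `h : I × Sp n → US κ` continuous,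
`n + 2 < card κ`, `h (0, x) = h (1, x) = e` for all `x` (`e` a fixed unit vector).  Then
`HRel (US κ) {p | p.1 = 0 ∨ p.1 = 1} h (fun _ => e)`.
PROOF. Approximate `h` by a smooth `P : ℝ × (Fin (n+1) → ℝ) → (κ → ℝ)`, `|P - h| < 1/4` on
`I × Sp n`.  Let `χ : ℝ → [0,1]` be smooth, `χ (0) = χ (1) = 0`, and
`χ (t) = 1` unless `|h(t,x) - e| < 1/4` for all `x` (possible by uniform continuity: `χ = 1` outside
small neighbourhoods of `0` and `1`).  `P' (t,v) = (1 - χ(t)) e + χ(t) P(t,v)`: smooth,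
`|P' - h| < 1/2` on `I × Sp n`, `P' = e` for `t = 0, 1`.  So
`h ~ nrm P'` relative to the ends (normalised segment; at the ends both are `e`).  The map
`(t, v) ↦ nr v • P' (t, nrm v)` is `C¹` on `ℝ × {v ≠ 0}`, dimension `n + 2 < card κ`, so as in (1)
(use both `±`, and also avoid `± e`: the set `{r e}` has dimension `1 < card κ`) there is a unit
vector `z ≠ ±e` with `±z` not values of `nrm P'`.  `nrm P'` avoids `-z`.  In `US κ` minus
`-z` contract: first use the homotopy `nrm ((1-u) q + u z)` for all points `q = nrm P' (t,x)`; it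
is not relative to the ends, since it moves `e` along the arc `δ_u = nrm ((1-u) e + u z)`.
Instead use stereographic coordinates from `-z`: the homeomorphism
`σ : US κ \ {-z} → zᗮ`, `σ (q) = (q - (q⬝z) z)/(1 + q⬝z)`, and the straight line
`σ⁻¹ ((1-u) σ(q) + u σ(e))`, constant for `q = e`.  `σ⁻¹ (w) = (2w + (1 - w⬝w) z)/(1 + w⬝w)`.
-/

open Matrix Set unitInterval Topology

noncomputable section

namespace DT

/-! ### Smooth approximation -/

/-- The restrictions of `C¹` functions along `j`. -/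
def lowDim_alg {X E : Type*} [TopologicalSpace X] [NormedAddCommGroup E] [NormedSpace ℝ E]
    (j : X → E) : Subalgebra ℝ C(X, ℝ) where
  carrier := {φ | ∃ F : E → ℝ, ContDiff ℝ 1 F ∧ ∀ x, φ x = F (j x)}
  mul_mem' := by
    rintro a b ⟨F, hF, h1⟩ ⟨G, hG, h2⟩
    exact ⟨fun v => F v * G v, hF.mul hG, fun x => by rw [ContinuousMap.mul_apply, h1, h2]⟩
  add_mem' := by
    rintro a b ⟨F, hF, h1⟩ ⟨G, hG, h2⟩
    exact ⟨fun v => F v + G v, hF.add hG, fun x => by rw [ContinuousMap.add_apply, h1, h2]⟩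
  algebraMap_mem' r := ⟨fun _ => r, contDiff_const, fun x => rfl⟩

theorem lowDim_approx1 {X E : Type*} [TopologicalSpace X] [CompactSpace X]
    [NormedAddCommGroup E] [NormedSpace ℝ E] (j : X → E) (hj : Continuous j)
    (hinj : Function.Injective j) (f : X → ℝ) (hf : Continuous f) (ε : ℝ) (hε : 0 < ε) :
    ∃ F : E → ℝ, ContDiff ℝ 1 F ∧ ∀ x, |F (j x) - f x| < ε := by
  have hsep : (lowDim_alg j).SeparatesPoints := by
    intro x y hxy
    obtain ⟨φ, hφ⟩ := SeparatingDual.exists_separating_of_ne (R := ℝ) (hinj.ne hxy)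
    refine ⟨fun z => φ (j z), ⟨⟨fun z => φ (j z), φ.continuous.comp hj⟩, ?_, rfl⟩, hφ⟩
    exact ⟨φ, φ.contDiff, fun _ => rfl⟩
  obtain ⟨⟨g, F, hF, hg⟩, hg2⟩ :=
    ContinuousMap.exists_mem_subalgebra_near_continuous_of_separatesPoints (lowDim_alg j) hsep f hf
      ε hε
  refine ⟨F, hF, fun x => ?_⟩
  have := hg2 x
  rw [Real.norm_eq_abs] at this
  rw [← hg x]
  exact this

theorem lowDim_nr_lt {κ : Type} [Fintype κ] (v : κ → ℝ) {ε : ℝ} (hε : 0 < ε)
    (h : ∀ i, |v i| < ε / (Fintype.card κ + 1)) : nr v < ε := by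
  unfold nr
  rw [Real.sqrt_lt' hε]
  have hc : (0 : ℝ) ≤ Fintype.card κ := Nat.cast_nonneg _
  have h1 : v ⬝ᵥ v ≤ ∑ _i : κ, (ε / (Fintype.card κ + 1)) ^ 2 := by
    apply Finset.sum_le_sum
    intro i _
    have := h i
    rw [← pow_two, ← sq_abs]
    exact pow_le_pow_left₀ (abs_nonneg _) this.le 2
  refine h1.trans_lt ?_
  rw [Finset.sum_const, Finset.card_univ, nsmul_eq_mul, div_pow, ← mul_div_assoc,
    div_lt_iff₀ (by positivity)]
  have h2 : 0 < ε ^ 2 := by positivity
  nlinarith [mul_nonneg h2.le hc, mul_nonneg h2.le (mul_nonneg hc hc)]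

theorem lowDim_approx {X E : Type*} [TopologicalSpace X] [CompactSpace X]
    [NormedAddCommGroup E] [NormedSpace ℝ E] {κ : Type} [Fintype κ]
    (j : X → E) (hj : Continuous j)
    (hinj : Function.Injective j) (f : X → (κ → ℝ)) (hf : Continuous f) (ε : ℝ) (hε : 0 < ε) :
    ∃ F : E → (κ → ℝ), ContDiff ℝ 1 F ∧ ∀ x, nr (F (j x) - f x) < ε := by
  have hc : (0 : ℝ) ≤ Fintype.card κ := Nat.cast_nonneg _
  have hδ : 0 < ε / (Fintype.card κ + 1) := by positivity
  choose F hF hF2 using fun i : κ => lowDim_approx1 j hj hinj (fun x => f x i)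
    ((continuous_apply i).comp hf) _ hδ
  refine ⟨fun v i => F i v, contDiff_pi.2 hF, fun x => lowDim_nr_lt _ hε fun i => ?_⟩
  exact hF2 i x

/-! ### Normalised segments -/

theorem lowDim_continuous_nrm {X : Type*} [TopologicalSpace X] {κ : Type} [Fintype κ]
    {f : X → (κ → ℝ)} (hf : Continuous f) (h0 : ∀ x, f x ≠ 0) : Continuous fun x => nrm (f x) := by
  unfold nrm
  exact ((continuous_nr.comp hf).inv₀ fun x => (cone_nr_pos (h0 x)).ne').smul hf

theorem lowDim_nrm_self {κ : Type} [Fintype κ] {v : κ → ℝ} (hv : v ∈ US κ) : nrm v = v := by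
  unfold nrm
  rw [nr_eq_one hv, inv_one, one_smul]

theorem lowDim_seg_ne {κ : Type} [Fintype κ] {f P : κ → ℝ} (hf : f ∈ US κ) (h : nr (P - f) < 1)
    {u : ℝ} (hu0 : 0 ≤ u) (hu1 : u ≤ 1) : f + u • (P - f) ≠ 0 := by
  intro h0
  have h1 : f = (-u) • (P - f) := by
    rw [neg_smul]
    exact eq_neg_of_add_eq_zero_left h0
  have h2 : nr f = u * nr (P - f) := by
    conv_lhs => rw [h1]
    rw [nr_smul, abs_neg, abs_of_nonneg hu0]
  rw [nr_eq_one hf] at h2
  have h3 := nr_nonneg (P - f)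
  nlinarith

theorem lowDim_segment {X : Type*} [TopologicalSpace X] {κ : Type} [Fintype κ] (S : Set X)
    (f q : X → (κ → ℝ)) (hf : Continuous f) (hq : Continuous q) (hU : ∀ x, f x ∈ US κ)
    (h : ∀ x, nr (q x - f x) < 1) (hS : ∀ x ∈ S, q x = f x) :
    HRel (US κ) S f (fun x => nrm (q x)) := by
  have hne : ∀ p : I × X, f p.2 + (p.1 : ℝ) • (q p.2 - f p.2) ≠ 0 :=
    fun p => lowDim_seg_ne (hU p.2) (h p.2) p.1.2.1 p.1.2.2
  refine ⟨fun p => nrm (f p.2 + (p.1 : ℝ) • (q p.2 - f p.2)), ?_, ?_, ?_, ?_⟩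
  · apply lowDim_continuous_nrm _ hne
    have h1 : Continuous fun p : I × X => f p.2 := hf.comp continuous_snd
    have h2 : Continuous fun p : I × X => q p.2 := hq.comp continuous_snd
    have h3 : Continuous fun p : I × X => (p.1 : ℝ) := continuous_subtype_val.comp continuous_fst
    exact h1.add (h3.smul (h2.sub h1))
  · intro u
    refine ⟨fun x => nrm_mem (hne (u, x)), fun x hx => ?_⟩
    simp only
    rw [hS x hx, sub_self, smul_zero, add_zero]
    exact lowDim_nrm_self (hU x)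
  · intro x
    simp only [Icc.coe_zero, zero_smul, add_zero]
    exact lowDim_nrm_self (hU x)
  · intro x
    simp only [Icc.coe_one, one_smul, add_sub_cancel]

/-! ### Contraction of a punctured sphere, fixing a point -/

theorem lowDim_dot_ne {κ : Type} [Fintype κ] {q z : κ → ℝ} (hq : q ∈ US κ) (hz : z ∈ US κ)
    (h : q ≠ -z) : 1 + q ⬝ᵥ z ≠ 0 := by
  intro h0
  apply h
  have hq' : q ⬝ᵥ q = 1 := hq
  have hz' : z ⬝ᵥ z = 1 := hz
  have h1 : (q + z) ⬝ᵥ (q + z) = 0 := by
    rw [add_dotProduct, dotProduct_add, dotProduct_add, hq', hz', dotProduct_comm z q]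
    linarith
  exact eq_neg_of_add_eq_zero_left (dotProduct_self_eq_zero.1 h1)

/-- Central projection from `-z` to the tangent hyperplane at `z`. -/
def lowDim_tau {κ : Type} [Fintype κ] (z q : κ → ℝ) : κ → ℝ := (1 + q ⬝ᵥ z)⁻¹ • (q + z)

/-- The inverse of `lowDim_tau`. -/
def lowDim_rho {κ : Type} [Fintype κ] (z v : κ → ℝ) : κ → ℝ := (2 / (v ⬝ᵥ v)) • v - z

theorem lowDim_tau_dot {κ : Type} [Fintype κ] {q z : κ → ℝ} (hz : z ∈ US κ)
    (h : 1 + q ⬝ᵥ z ≠ 0) : lowDim_tau z q ⬝ᵥ z = 1 := by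
  have hz' : z ⬝ᵥ z = 1 := hz
  unfold lowDim_tau
  rw [smul_dotProduct, add_dotProduct, hz', smul_eq_mul]
  field_simp
  ring

theorem lowDim_rho_mem {κ : Type} [Fintype κ] {v z : κ → ℝ} (hz : z ∈ US κ)
    (h : v ⬝ᵥ z = 1) : lowDim_rho z v ∈ US κ := by
  have hz' : z ⬝ᵥ z = 1 := hz
  have hv : v ⬝ᵥ v ≠ 0 := by
    intro h0
    rw [dotProduct_self_eq_zero] at h0
    rw [h0, zero_dotProduct] at h
    exact zero_ne_one h
  change lowDim_rho z v ⬝ᵥ lowDim_rho z v = 1
  unfold lowDim_rho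
  rw [sub_dotProduct, dotProduct_sub, dotProduct_sub, smul_dotProduct, dotProduct_smul,
    smul_dotProduct, dotProduct_smul, dotProduct_comm z v, h, hz']
  simp only [smul_eq_mul]
  field_simp
  ring

theorem lowDim_rho_tau {κ : Type} [Fintype κ] {q z : κ → ℝ} (hq : q ∈ US κ) (hz : z ∈ US κ)
    (h : 1 + q ⬝ᵥ z ≠ 0) : lowDim_rho z (lowDim_tau z q) = q := by
  have hq' : q ⬝ᵥ q = 1 := hq
  have hz' : z ⬝ᵥ z = 1 := hz
  have h1 : lowDim_tau z q ⬝ᵥ lowDim_tau z q = 2 / (1 + q ⬝ᵥ z) := by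
    unfold lowDim_tau
    rw [smul_dotProduct, dotProduct_smul, add_dotProduct, dotProduct_add, dotProduct_add, hq', hz',
      dotProduct_comm z q]
    simp only [smul_eq_mul]
    field_simp
    ring
  unfold lowDim_rho
  rw [h1]
  unfold lowDim_tau
  rw [smul_smul]
  have h2 : 2 / (2 / (1 + q ⬝ᵥ z)) * (1 + q ⬝ᵥ z)⁻¹ = 1 := by
    field_simp
  rw [h2, one_smul, add_sub_cancel_right]

theorem lowDim_contract {X : Type*} [TopologicalSpace X] {κ : Type} [Fintype κ] (S : Set X)
    (q : X → (κ → ℝ)) (hq : Continuous q) (hU : ∀ x, q x ∈ US κ) (z e : κ → ℝ) (hz : z ∈ US κ)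
    (he : e ∈ US κ) (hez : e ≠ -z) (h : ∀ x, q x ≠ -z) (hS : ∀ x ∈ S, q x = e) :
    HRel (US κ) S q (fun _ => e) := by
  have hq1 : ∀ x, 1 + q x ⬝ᵥ z ≠ 0 := fun x => lowDim_dot_ne (hU x) hz (h x)
  have he1 : 1 + e ⬝ᵥ z ≠ 0 := lowDim_dot_ne he hz hez
  have hdot : ∀ p : I × X, ((1 - (p.1 : ℝ)) • lowDim_tau z (q p.2)
      + (p.1 : ℝ) • lowDim_tau z e) ⬝ᵥ z = 1 := by
    intro p
    rw [add_dotProduct, smul_dotProduct, smul_dotProduct, lowDim_tau_dot hz (hq1 _),
      lowDim_tau_dot hz he1]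
    simp only [smul_eq_mul]
    ring
  have hne : ∀ p : I × X, ((1 - (p.1 : ℝ)) • lowDim_tau z (q p.2)
      + (p.1 : ℝ) • lowDim_tau z e) ⬝ᵥ ((1 - (p.1 : ℝ)) • lowDim_tau z (q p.2)
      + (p.1 : ℝ) • lowDim_tau z e) ≠ 0 := by
    intro p h0
    rw [dotProduct_self_eq_zero] at h0
    have := hdot p
    rw [h0, zero_dotProduct] at this
    exact zero_ne_one this
  refine ⟨fun p => lowDim_rho z ((1 - (p.1 : ℝ)) • lowDim_tau z (q p.2)
      + (p.1 : ℝ) • lowDim_tau z e), ?_, ?_, ?_, ?_⟩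
  · have hcd : ∀ {Y : Type _} [TopologicalSpace Y] (a b : Y → (κ → ℝ)), Continuous a →
        Continuous b → Continuous fun y => a y ⬝ᵥ b y := by
      intro Y _ a b ha hb
      unfold dotProduct
      exact continuous_finsetSum _ fun i _ =>
        ((continuous_apply i).comp ha).mul ((continuous_apply i).comp hb)
    have h1 : Continuous fun p : I × X => q p.2 := hq.comp continuous_snd
    have h3 : Continuous fun p : I × X => (p.1 : ℝ) := continuous_subtype_val.comp continuous_fst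
    have h4 : Continuous fun p : I × X => lowDim_tau z (q p.2) := by
      unfold lowDim_tau
      refine Continuous.smul (Continuous.inv₀ (continuous_const.add ?_) fun p => hq1 p.2)
        (h1.add continuous_const)
      exact hcd _ _ h1 continuous_const
    have h5 : Continuous fun p : I × X => (1 - (p.1 : ℝ)) • lowDim_tau z (q p.2)
      + (p.1 : ℝ) • lowDim_tau z e :=
      ((continuous_const.sub h3).smul h4).add (h3.smul continuous_const)
    unfold lowDim_rho
    exact ((continuous_const.div (hcd _ _ h5 h5) hne).smul h5).sub continuous_const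
  · intro u
    refine ⟨fun x => lowDim_rho_mem hz (hdot (u, x)), fun x hx => ?_⟩
    simp only
    rw [hS x hx, ← add_smul, sub_add_cancel, one_smul]
    exact lowDim_rho_tau he hz he1
  · intro x
    simp only [Icc.coe_zero, sub_zero, one_smul, zero_smul, add_zero]
    exact lowDim_rho_tau (hU x) hz (hq1 x)
  · intro x
    simp only [Icc.coe_one, sub_self, one_smul, zero_smul, zero_add]
    exact lowDim_rho_tau he hz he1

/-! ### Avoiding a point -/

theorem lowDim_avoid {X E : Type*} [NormedAddCommGroup E] [NormedSpace ℝ E]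
    [FiniteDimensional ℝ E] {κ : Type} [Fintype κ]
    (hE : Module.finrank ℝ E < Fintype.card κ) (h1 : 1 < Fintype.card κ) (U : Set E)
    (g : E → (κ → ℝ)) (hg : ∀ v ∈ U, ContDiffAt ℝ 1 g v) (q : X → (κ → ℝ))
    (hq0 : ∀ x, q x ≠ 0)
    (hq : ∀ x, ∀ r : ℝ, 0 < r → r • q x ∈ g '' U) (e : κ → ℝ) :
    ∃ w ∈ US κ, w ≠ e ∧ ∀ x, nrm (q x) ≠ w := by
  have hd1 : dimH (g '' U) < (Module.finrank ℝ (κ → ℝ) : ENNReal) := by
    have a1 : dimH (g '' U) ≤ dimH U := by
      apply dimH_image_le_of_locally_lipschitzOn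
      intro v hv
      obtain ⟨K, t, ht, hK⟩ := (hg v hv).exists_lipschitzOnWith
      exact ⟨K, t, mem_nhdsWithin_of_mem_nhds ht, hK⟩
    have a2 : dimH U ≤ (Module.finrank ℝ E : ENNReal) := by
      rw [← Real.dimH_univ_eq_finrank E]
      exact dimH_mono (subset_univ _)
    refine (a1.trans a2).trans_lt ?_
    rw [Module.finrank_fintype_fun_eq_card]
    exact_mod_cast hE
  have hd2 : dimH (range fun r : ℝ => r • e) < (Module.finrank ℝ (κ → ℝ) : ENNReal) := by
    have a1 : ContDiff ℝ 1 (fun r : ℝ => r • e) := contDiff_id.smul contDiff_const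
    refine a1.dimH_range_le.trans_lt ?_
    rw [Module.finrank_fintype_fun_eq_card, Module.finrank_self]
    exact_mod_cast h1
  have hd : dimH (g '' U ∪ range fun r : ℝ => r • e) < (Module.finrank ℝ (κ → ℝ) : ENNReal) := by
    rw [dimH_union]
    exact max_lt hd1 hd2
  obtain ⟨w0, hw0⟩ := (dense_compl_of_dimH_lt_finrank hd).nonempty
  rw [mem_compl_iff, mem_union, not_or] at hw0
  obtain ⟨b1, b2⟩ := hw0
  have hw : w0 ≠ 0 := by
    rintro rfl
    exact b2 ⟨0, zero_smul _ _⟩
  have hpos := cone_nr_pos hw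
  refine ⟨nrm w0, nrm_mem hw, ?_, ?_⟩
  · intro h
    apply b2
    refine ⟨nr w0, ?_⟩
    simp only
    rw [← h]
    exact nr_smul_nrm w0
  · intro x h
    apply b1
    have h2 := cone_nr_pos (hq0 x)
    have h3 : w0 = (nr w0 * (nr (q x))⁻¹) • q x := by
      rw [mul_smul]
      have : (nr (q x))⁻¹ • q x = nrm w0 := h
      rw [this]
      exact (nr_smul_nrm w0).symm
    rw [h3]
    exact hq x _ (by positivity)

/-! ### The main step -/

theorem lowDim_main {X W : Type*} [TopologicalSpace X] [NormedAddCommGroup W] [NormedSpace ℝ W]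
    [FiniteDimensional ℝ W] {κ : Type} [Fintype κ] (n : ℕ)
    (hE : Module.finrank ℝ W + (n + 1) < Fintype.card κ) (j1 : X → W) (hj1 : Continuous j1)
    (j2 : X → Sp n) (hj2 : Continuous j2) (S : Set X) (h : X → (κ → ℝ)) (hh : Continuous h)
    (hU : ∀ x, h x ∈ US κ) (F : W × (Fin (n + 1) → ℝ) → (κ → ℝ)) (hF : ContDiff ℝ 1 F)
    (hclose : ∀ x, nr (F (j1 x, (j2 x).1) - h x) < 1) (e : κ → ℝ) (he : e ∈ US κ)
    (hSh : ∀ x ∈ S, h x = e) (hSF : ∀ x ∈ S, F (j1 x, (j2 x).1) = e) :
    HRel (US κ) S h (fun _ => e) := by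
  set q : X → (κ → ℝ) := fun x => F (j1 x, (j2 x).1) with hqdef
  have hqc : Continuous q :=
    hF.continuous.comp (hj1.prodMk (continuous_subtype_val.comp hj2))
  have hq0 : ∀ x, q x ≠ 0 := by
    intro x
    have := lowDim_seg_ne (hU x) (hclose x) zero_le_one le_rfl
    rwa [one_smul, add_sub_cancel] at this
  have step1 : HRel (US κ) S h (fun x => nrm (q x)) :=
    lowDim_segment S h q hh hqc hU hclose fun x hx => (hSF x hx).trans (hSh x hx).symm
  have hqe : ∀ x ∈ S, nrm (q x) = e := by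
    intro x hx
    have : q x = e := hSF x hx
    rw [this]
    exact lowDim_nrm_self he
  obtain ⟨w, hw, hwe, hwq⟩ := lowDim_avoid (X := X) (E := W × (Fin (n + 1) → ℝ)) (κ := κ)
    (by rw [Module.finrank_prod, Module.finrank_fin_fun]; exact hE) (by omega)
    {p | p.2 ≠ 0} (fun p => nr p.2 • F (p.1, nrm p.2))
    (by
      intro p hp
      have hp' : p.2 ≠ 0 := hp
      have c0 : ContDiffAt ℝ 1 (fun p : W × (Fin (n + 1) → ℝ) => p.2 ⬝ᵥ p.2) p := by
        unfold dotProduct
        fun_prop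
      have c1 : ContDiffAt ℝ 1 (fun p : W × (Fin (n + 1) → ℝ) => nr p.2) p := by
        unfold nr
        refine c0.sqrt ?_
        intro h0
        exact hp' (dotProduct_self_eq_zero.1 h0)
      have c2 : ContDiffAt ℝ 1 (fun p : W × (Fin (n + 1) → ℝ) => nrm p.2) p := by
        unfold nrm
        exact (c1.inv (cone_nr_pos hp').ne').smul contDiffAt_snd
      exact c1.smul (hF.contDiffAt.comp p (contDiffAt_fst.prodMk c2)))
    q hq0
    (by
      intro x r hr
      have hy := (j2 x).2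
      have e1 : nr (r • (j2 x).1) = r := by
        rw [nr_smul, nr_eq_one hy, mul_one, abs_of_pos hr]
      have e2 : nrm (r • (j2 x).1) = (j2 x).1 := by
        unfold nrm
        rw [e1, smul_smul, inv_mul_cancel₀ hr.ne', one_smul]
      refine ⟨(j1 x, r • (j2 x).1), ?_, ?_⟩
      · intro h0
        have h0' : r • (j2 x).1 = 0 := h0
        rw [h0', cone_nr_zero] at e1
        exact hr.ne e1
      · simp only
        rw [e1, e2])
    e
  have hww : -w ∈ US κ := by
    have : w ⬝ᵥ w = 1 := hw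
    change -w ⬝ᵥ -w = 1
    rw [neg_dotProduct_neg, this]
  have step2 : HRel (US κ) S (fun x => nrm (q x)) (fun _ => e) :=
    lowDim_contract S (fun x => nrm (q x)) (lowDim_continuous_nrm hqc hq0)
      (fun x => nrm_mem (hq0 x)) (-w) e hww he (by rw [neg_neg]; exact hwe.symm)
      (by intro x; rw [neg_neg]; exact hwq x) hqe
  exact step1.trans step2

theorem null_low {κ : Type} [Fintype κ] [DecidableEq κ] (k : ℕ)
    (hk : k + 1 < Fintype.card κ) (f : Sp k → (κ → ℝ)) (hf : Continuous f)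
    (hU : ∀ x, f x ∈ US κ) (e : κ → ℝ) (he : e ∈ US κ) :
    HIn (US κ) f (fun _ => e) := by
  obtain ⟨F, hF, hF2⟩ := lowDim_approx (fun x : Sp k => x.1) continuous_subtype_val
    Subtype.val_injective f hf 1 one_pos
  refine (lowDim_main (X := Sp k) (W := Fin 0 → ℝ) k
    (by rw [Module.finrank_fin_fun, zero_add]; exact hk)
    (fun _ => 0) continuous_const (fun x => x) continuous_id ∅ f hf hU (fun p => F p.2)
    (hF.comp contDiff_snd) hF2 e he (by intro x hx; exact absurd hx (Set.notMem_empty x))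
    (by intro x hx; exact absurd hx (Set.notMem_empty x))).hIn

theorem lowDim_convex {κ : Type} [Fintype κ] (a b c : κ → ℝ) {ε χ : ℝ} (h0 : 0 ≤ χ) (h1 : χ ≤ 1)
    (ha : χ = 1 ∨ nr (a - c) < ε) (hb : nr (b - c) < ε) :
    nr (((1 - χ) • a + χ • b) - c) < ε := by
  have htri : ∀ v w : κ → ℝ, nr (v + w) ≤ nr v + nr w := by
    intro v w
    have key : (v + w) ⬝ᵥ (v + w) ≤ (nr v + nr w) ^ 2 := by
      have hv := cone_nr_sq v
      have hw := cone_nr_sq w
      have hcs : v ⬝ᵥ w ≤ nr v * nr w := by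
        have := Finset.sum_mul_sq_le_sq_mul_sq Finset.univ v w
        have h3 : (v ⬝ᵥ w) ^ 2 ≤ (nr v * nr w) ^ 2 := by
          rw [mul_pow, hv, hw]
          unfold dotProduct
          simpa only [pow_two] using this
        exact (abs_le_of_sq_le_sq' h3 (mul_nonneg (nr_nonneg v) (nr_nonneg w))).2
      rw [add_dotProduct, dotProduct_add, dotProduct_add, ← hv, ← hw, dotProduct_comm w v]
      nlinarith
    unfold nr at key ⊢
    exact Real.sqrt_le_iff.2 ⟨add_nonneg (Real.sqrt_nonneg _) (Real.sqrt_nonneg _), key⟩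
  have e1 : ((1 - χ) • a + χ • b) - c = (1 - χ) • (a - c) + χ • (b - c) := by
    rw [smul_sub, smul_sub, sub_smul, sub_smul, one_smul, one_smul]
    abel
  rw [e1]
  refine (htri _ _).trans_lt ?_
  rw [nr_smul, nr_smul, abs_of_nonneg h0, abs_of_nonneg (sub_nonneg.2 h1)]
  rcases ha with ha | ha
  · rw [ha, sub_self, zero_mul, zero_add, one_mul]
    exact hb
  · rcases h0.eq_or_lt with h2 | h2
    · rw [← h2]
      simpa using ha
    · nlinarith [mul_lt_mul_of_pos_left hb h2, mul_le_mul_of_nonneg_left ha.le (sub_nonneg.2 h1)]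

theorem null_low_rel {κ : Type} [Fintype κ] [DecidableEq κ] (n : ℕ)
    (hn : n + 2 < Fintype.card κ) (h : I × Sp n → (κ → ℝ)) (hh : Continuous h)
    (hU : ∀ p, h p ∈ US κ) (e : κ → ℝ) (he : e ∈ US κ) (h0 : ∀ x, h (0, x) = e)
    (h1 : ∀ x, h (1, x) = e) :
    HRel (US κ) {p : I × Sp n | p.1 = 0 ∨ p.1 = 1} h (fun _ => e) := by
  -- uniform closeness near the ends
  obtain ⟨δ, hδ, hend⟩ : ∃ δ : ℝ, 0 < δ ∧ ∀ (t : I) (x : Sp n), ((t : ℝ) < δ ∨ 1 - δ < (t : ℝ)) →
      nr (e - h (t, x)) < 1 := by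
    have hopen : IsOpen {p : I × Sp n | nr (e - h p) < 1} :=
      isOpen_lt (continuous_nr.comp (continuous_const.sub hh)) continuous_const
    have hzero : nr (e - e) < 1 := by
      rw [sub_self, cone_nr_zero]
      exact one_pos
    have key : ∀ s : I, (∀ x, h (s, x) = e) → ∃ δ : ℝ, 0 < δ ∧ ∀ (t : I) (x : Sp n),
        |(t : ℝ) - s| < δ → nr (e - h (t, x)) < 1 := by
      intro s hs
      have hsub : ({s} : Set I) ×ˢ (univ : Set (Sp n)) ⊆ {p : I × Sp n | nr (e - h p) < 1} := by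
        rintro ⟨t, y⟩ ⟨a1, -⟩
        simp only [mem_singleton_iff] at a1
        subst a1
        simp only [mem_ofPred_eq]
        rw [hs y]
        exact hzero
      obtain ⟨V, T, hV, -, hsV, hT, hVT⟩ :=
        generalized_tube_lemma isCompact_singleton isCompact_univ hopen hsub
      obtain ⟨δ, hδ, hball⟩ := Metric.isOpen_iff.1 hV s (hsV rfl)
      refine ⟨δ, hδ, fun t x ht => ?_⟩
      have m1 : t ∈ V := hball (by
        rw [Metric.mem_ball, Subtype.dist_eq, Real.dist_eq]
        exact ht)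
      have m2 : (t, x) ∈ V ×ˢ T := ⟨m1, hT (mem_univ _)⟩
      exact hVT m2
    obtain ⟨δ0, hδ0, hk0⟩ := key 0 h0
    obtain ⟨δ1, hδ1, hk1⟩ := key 1 h1
    refine ⟨min δ0 δ1, lt_min hδ0 hδ1, fun t x ht => ?_⟩
    have t0 := t.2.1
    have t1 := t.2.2
    rcases ht with ht | ht
    · apply hk0
      rw [Icc.coe_zero, sub_zero, abs_of_nonneg t0]
      exact ht.trans_le (min_le_left _ _)
    · apply hk1
      rw [Icc.coe_one, abs_of_nonpos (by linarith)]
      have := min_le_right δ0 δ1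
      linarith
  obtain ⟨P, hP, hP2⟩ := lowDim_approx (E := ℝ × (Fin (n + 1) → ℝ))
    (fun p : I × Sp n => ((p.1 : ℝ), p.2.1))
    ((continuous_subtype_val.comp continuous_fst).prodMk
      (continuous_subtype_val.comp continuous_snd))
    (by
      rintro ⟨t, x⟩ ⟨t', x'⟩ hp
      simp only [Prod.mk.injEq] at hp
      rw [Prod.mk.injEq]
      exact ⟨Subtype.ext hp.1, Subtype.ext hp.2⟩) h hh 1 one_pos
  set χ : ℝ → ℝ := fun t => Real.smoothTransition (t / δ) * Real.smoothTransition ((1 - t) / δ)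
    with hχ
  have hχs : ContDiff ℝ 1 χ := by
    apply ContDiff.mul
    · exact Real.smoothTransition.contDiff.comp (contDiff_id.div_const δ)
    · exact Real.smoothTransition.contDiff.comp ((contDiff_const.sub contDiff_id).div_const δ)
  have hχ0 : ∀ t, 0 ≤ χ t := fun t =>
    mul_nonneg (Real.smoothTransition.nonneg _) (Real.smoothTransition.nonneg _)
  have hχ1 : ∀ t, χ t ≤ 1 := fun t =>
    mul_le_one₀ (Real.smoothTransition.le_one _) (Real.smoothTransition.nonneg _)
      (Real.smoothTransition.le_one _)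
  have hχend0 : χ 0 = 0 := by
    simp only [hχ]
    rw [zero_div, Real.smoothTransition.zero_of_nonpos le_rfl, zero_mul]
  have hχend1 : χ 1 = 0 := by
    simp only [hχ]
    rw [sub_self, zero_div, Real.smoothTransition.zero_of_nonpos le_rfl, mul_zero]
  have hχmid : ∀ t, δ ≤ t → t ≤ 1 - δ → χ t = 1 := by
    intro t a1 a2
    simp only [hχ]
    rw [Real.smoothTransition.one_of_one_le ((one_le_div hδ).2 a1),
      Real.smoothTransition.one_of_one_le ((one_le_div hδ).2 (by linarith)), mul_one]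
  refine lowDim_main (X := I × Sp n) (W := ℝ) n
    (by rw [Module.finrank_self]; omega)
    (fun p => (p.1 : ℝ)) (continuous_subtype_val.comp continuous_fst)
    (fun p => p.2) continuous_snd _ h hh hU
    (fun p => (1 - χ p.1) • e + χ p.1 • P p) ?_ ?_ e he ?_ ?_
  · have c1 : ContDiff ℝ 1 (fun p : ℝ × (Fin (n + 1) → ℝ) => χ p.1) := hχs.comp contDiff_fst
    exact ((contDiff_const.sub c1).smul contDiff_const).add (c1.smul hP)
  · intro p
    apply lowDim_convex _ _ _ (hχ0 _) (hχ1 _)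
    · by_cases hm : δ ≤ (p.1 : ℝ) ∧ (p.1 : ℝ) ≤ 1 - δ
      · exact Or.inl (hχmid _ hm.1 hm.2)
      · right
        apply hend p.1 p.2
        rw [not_and_or, not_le, not_le] at hm
        exact hm
    · exact hP2 p
  · rintro ⟨t, x⟩ (ht | ht)
    · have ht' : t = 0 := ht
      rw [ht']
      exact h0 x
    · have ht' : t = 1 := ht
      rw [ht']
      exact h1 x
  · rintro ⟨t, x⟩ (ht | ht)
    · have ht' : t = 0 := ht
      subst ht'
      simp only [Icc.coe_zero, hχend0, sub_zero, one_smul, zero_smul, add_zero]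
    · have ht' : t = 1 := ht
      subst ht'
      simp only [Icc.coe_one, hχend1, sub_zero, one_smul, zero_smul, add_zero]

end DT
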