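import Pool.Agent.H78.DT.Basic

/-!
# Minimal rotations, transport of vectors along homotopies (job DT-ROT)

For unit vectors `u, v` with `u ⬝ v ≠ -1` let
`rotm u v = 1 - (u+v)(u+v)ᵀ/(1 + u⬝v) + 2 v uᵀ`, the rotation in the plane of `u, v` taking `u`
to `v`: `rotm u v *ᵥ w = w - ((u+v)⬝w/(1+u⬝v)) (u+v) + 2 (u⬝w) v`.
(`Matrix.vecMulVec`.)

* `rotm_mem`: it is orthogonal with determinant `1`.  PROOF: orthogonality is a direct
  computation (or: `rotm u v = refl (u+v) ∘ refl u` up to order: with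
  `ρ_a = 1 - 2 a aᵀ/(a⬝a)`, `rotm u v = ρ_{u+v} ρ_u`:
  `ρ_u w = w - 2(u⬝w)u`; `ρ_{u+v} ρ_u w = ρ_u w - 2 ((u+v)⬝ρ_u w)/(2(1+u⬝v)) (u+v)` and
  `(u+v)⬝ρ_u w = (u+v)⬝w - 2(u⬝w)(1 + u⬝v)`, giving
  `w - 2(u⬝w)u - ((u+v)⬝w/(1+u⬝v))(u+v) + 2(u⬝w)(u+v)`, which is the formula).  The determinant
  of a reflection is `-1` (`Matrix.det_one_add_mul_comm`-type lemma:
  `det (1 - 2aaᵀ/(a⬝a)) = 1 - 2 = -1`).
* `rotm_apply`: `rotm u v *ᵥ u = v`; `rotm_self`: `rotm u u = 1`.
* `continuous`: `rotm` is continuous on `{(u,v) | u⬝v ≠ -1}`.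
* `transport`: PROOF. `h : I × X → (κ → ℝ)` continuous, unit vectors, `X` compact.  By uniform
  continuity there is `n ≥ 1` with `h(s,x) ⬝ h(s',x) > 0` if `|s - s'| ≤ 1/n` (the function
  `(s, s', x) ↦ h(s,x)⬝h(s',x)` is `1` on the compact diagonal).  Let `c_j(s) = min s (j/n)`,
  `A (s, x) = rotm (h(c_{n-1}(s),x)) (h(c_n(s),x)) ⋯ rotm (h(c_0(s),x)) (h(c_1(s),x))`, a product
  of `n` factors, `c_0 = 0`, `c_n(s) = s`.  Continuous, in `SOs`, `A (0,x) = 1`
  (`rotm u u = 1`), `A (s,x) h(0,x) = h(s,x)` by telescoping, and `A (s,x) = 1` if `h(·,x)` is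
  constant.
-/

open Matrix Set unitInterval Topology

noncomputable section

namespace DT

/-- Reflection in the hyperplane orthogonal to the unit vector `a`. -/
def refl {κ : Type} [Fintype κ] [DecidableEq κ] (a : κ → ℝ) : Matrix κ κ ℝ :=
  1 - (2 : ℝ) • vecMulVec a a

/-- The minimal rotation taking the unit vector `u` to the unit vector `v`. -/
def rotm {κ : Type} [Fintype κ] [DecidableEq κ] (u v : κ → ℝ) : Matrix κ κ ℝ :=
  1 - (1 + u ⬝ᵥ v)⁻¹ • vecMulVec (u + v) (u + v) + (2 : ℝ) • vecMulVec v u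

variable {κ : Type} [Fintype κ] [DecidableEq κ]

theorem refl_mul_self {a : κ → ℝ} (ha : a ∈ US κ) : refl a * refl a = 1 := by
  have h : a ⬝ᵥ a = 1 := ha
  have h2 : vecMulVec a a * vecMulVec a a = vecMulVec a a := by
    rw [vecMulVec_mul_vecMulVec, h]
    simp
  have h3 : refl a * refl a =
      1 - (4 : ℝ) • vecMulVec a a + (4 : ℝ) • (vecMulVec a a * vecMulVec a a) := by
    unfold refl
    simp only [mul_sub, sub_mul, mul_one, one_mul, smul_mul_assoc, mul_smul_comm]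
    module
  rw [h3, h2]
  module

theorem refl_transpose (a : κ → ℝ) : (refl a)ᵀ = refl a := by
  unfold refl
  rw [transpose_sub, transpose_smul, transpose_vecMulVec, transpose_one]

theorem refl_det {a : κ → ℝ} (ha : a ∈ US κ) : (refl a).det = -1 := by
  have h : a ⬝ᵥ a = 1 := ha
  have e : refl a = 1 + replicateCol Unit (-(2 : ℝ) • a) * replicateRow Unit a := by
    unfold refl
    rw [← vecMulVec_eq, smul_vecMulVec, neg_smul, sub_eq_add_neg]
  rw [e, det_one_add_replicateCol_mul_replicateRow, dotProduct_smul, h]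
  norm_num

theorem refl_mulVec (a w : κ → ℝ) : refl a *ᵥ w = w - (2 * (a ⬝ᵥ w)) • a := by
  unfold refl
  rw [sub_mulVec, one_mulVec, smul_mulVec, vecMulVec_mulVec]
  ext i
  simp
  ring

/-- `1 + u ⬝ v` is positive -/
theorem rotm_pos {u v : κ → ℝ} (hu : u ∈ US κ) (hv : v ∈ US κ) (h : u ⬝ᵥ v ≠ -1) :
    0 < 1 + u ⬝ᵥ v := by
  have h1 : u ⬝ᵥ u = 1 := hu
  have h2 : v ⬝ᵥ v = 1 := hv
  have h3 : 0 ≤ (u + v) ⬝ᵥ (u + v) := by
    rw [dotProduct]
    exact Finset.sum_nonneg fun i _ => mul_self_nonneg _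
  rw [add_dotProduct, dotProduct_add, dotProduct_add, h1, h2, dotProduct_comm v u] at h3
  have h4 : 0 ≤ 1 + u ⬝ᵥ v := by linarith
  rcases h4.lt_or_eq with h5 | h5
  · exact h5
  · exact absurd (by linarith) h

/-- the second reflection -/
def rotmA (u v : κ → ℝ) : κ → ℝ := (Real.sqrt (2 * (1 + u ⬝ᵥ v)))⁻¹ • (u + v)

theorem rotmA_mem {u v : κ → ℝ} (hu : u ∈ US κ) (hv : v ∈ US κ) (h : u ⬝ᵥ v ≠ -1) :
    rotmA u v ∈ US κ := by
  have hp := rotm_pos hu hv h
  have h1 : u ⬝ᵥ u = 1 := hu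
  have h2 : v ⬝ᵥ v = 1 := hv
  change rotmA u v ⬝ᵥ rotmA u v = 1
  unfold rotmA
  rw [smul_dotProduct, dotProduct_smul, add_dotProduct, dotProduct_add, dotProduct_add, h1, h2,
    dotProduct_comm v u, smul_eq_mul, smul_eq_mul, ← mul_assoc, ← mul_inv,
    Real.mul_self_sqrt (by positivity)]
  field_simp
  ring

theorem rotm_eq {u v : κ → ℝ} (hu : u ∈ US κ) (hv : v ∈ US κ) (h : u ⬝ᵥ v ≠ -1) :
    rotm u v = refl (rotmA u v) * refl u := by
  have hp := rotm_pos hu hv h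
  have h1 : u ⬝ᵥ u = 1 := hu
  have h2 : v ⬝ᵥ v = 1 := hv
  have e1 : refl (rotmA u v) = 1 - (1 + u ⬝ᵥ v)⁻¹ • vecMulVec (u + v) (u + v) := by
    unfold refl rotmA
    rw [smul_vecMulVec, vecMulVec_smul, smul_smul, smul_smul]
    have e3 : 2 * ((Real.sqrt (2 * (1 + u ⬝ᵥ v)))⁻¹ * (Real.sqrt (2 * (1 + u ⬝ᵥ v)))⁻¹) =
        (1 + u ⬝ᵥ v)⁻¹ := by
      rw [← mul_inv, Real.mul_self_sqrt (by positivity), mul_inv, ← mul_assoc]
      norm_num
    rw [mul_assoc, e3]
  have e2 : (1 + u ⬝ᵥ v)⁻¹ • (vecMulVec (u + v) (u + v) * vecMulVec u u) =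
      vecMulVec u u + vecMulVec v u := by
    rw [vecMulVec_mul_vecMulVec, add_dotProduct, h1, dotProduct_comm v u, vecMulVec_smul,
      smul_smul, inv_mul_cancel₀ hp.ne', one_smul, add_vecMulVec]
  have e3 : (1 - (1 + u ⬝ᵥ v)⁻¹ • vecMulVec (u + v) (u + v)) * refl u =
      1 - (1 + u ⬝ᵥ v)⁻¹ • vecMulVec (u + v) (u + v) - (2 : ℝ) • vecMulVec u u +
      (2 : ℝ) • ((1 + u ⬝ᵥ v)⁻¹ • (vecMulVec (u + v) (u + v) * vecMulVec u u)) := by
    unfold refl
    simp only [mul_sub, sub_mul, mul_one, one_mul, smul_mul_assoc, mul_smul_comm]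
    module
  rw [e1, e3, e2]
  unfold rotm
  module

theorem rotm_mem {u v : κ → ℝ} (hu : u ∈ US κ) (hv : v ∈ US κ) (h : u ⬝ᵥ v ≠ -1) :
    rotm u v ∈ SOs κ := by
  rw [rotm_eq hu hv h]
  constructor
  · rw [transpose_mul, refl_transpose, refl_transpose, mul_assoc, ← mul_assoc (refl (rotmA u v)),
      refl_mul_self (rotmA_mem hu hv h), one_mul, refl_mul_self hu]
  · rw [det_mul, refl_det (rotmA_mem hu hv h), refl_det hu]
    norm_num

theorem rotm_mulVec {u v : κ → ℝ} (hu : u ∈ US κ) (hv : v ∈ US κ) (h : u ⬝ᵥ v ≠ -1) :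
    rotm u v *ᵥ u = v := by
  have hp := rotm_pos hu hv h
  have h1 : u ⬝ᵥ u = 1 := hu
  unfold rotm
  rw [add_mulVec, sub_mulVec, one_mulVec, smul_mulVec, smul_mulVec, vecMulVec_mulVec,
    vecMulVec_mulVec, add_dotProduct, h1, dotProduct_comm v u]
  ext i
  simp
  field_simp
  ring

theorem rotm_self {u : κ → ℝ} (hu : u ∈ US κ) : rotm u u = 1 := by
  have h1 : u ⬝ᵥ u = 1 := hu
  unfold rotm
  rw [h1]
  ext i j
  simp [vecMulVec_apply]
  ring

theorem rotm_continuousOn : ContinuousOn (fun p : (κ → ℝ) × (κ → ℝ) => rotm p.1 p.2)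
    {p | p.1 ⬝ᵥ p.2 ≠ -1} := by
  have h1 : Continuous (fun p : (κ → ℝ) × (κ → ℝ) => p.1 ⬝ᵥ p.2) := by
    unfold dotProduct
    fun_prop
  have h2 : ContinuousOn (fun p : (κ → ℝ) × (κ → ℝ) => (1 + p.1 ⬝ᵥ p.2)⁻¹)
      {p | p.1 ⬝ᵥ p.2 ≠ -1} := by
    apply ContinuousOn.inv₀
    · exact (continuous_const.add h1).continuousOn
    · intro p hp hh
      apply hp
      linarith
  have h3 : Continuous (fun p : (κ → ℝ) × (κ → ℝ) => vecMulVec (p.1 + p.2) (p.1 + p.2)) := by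
    refine continuous_matrix fun i j => ?_
    simp only [vecMulVec_apply]
    fun_prop
  have h4 : Continuous (fun p : (κ → ℝ) × (κ → ℝ) => vecMulVec p.2 p.1) := by
    refine continuous_matrix fun i j => ?_
    simp only [vecMulVec_apply]
    fun_prop
  unfold rotm
  exact (continuousOn_const.sub (h2.smul h3.continuousOn)).add
    (h4.const_smul (2 : ℝ)).continuousOn

/-- the cut off parameter -/
def rotC (r : ℝ) (hr : 0 ≤ r) (s : I) : I :=
  ⟨min (s : ℝ) r, ⟨le_min s.2.1 hr, (min_le_left _ _).trans s.2.2⟩⟩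

theorem rotC_cont (r : ℝ) (hr : 0 ≤ r) : Continuous (rotC r hr) := by
  unfold rotC
  refine Continuous.subtype_mk ?_ _
  fun_prop

theorem rotC_dist (r r' : ℝ) (hr : 0 ≤ r) (hr' : 0 ≤ r') (s : I) :
    dist (rotC r hr s) (rotC r' hr' s) ≤ |r - r'| := by
  rw [Subtype.dist_eq, Real.dist_eq]
  unfold rotC
  simp only
  refine (abs_min_sub_min_le_max _ _ _ _).trans ?_
  simp

theorem transport {X : Type} [TopologicalSpace X] [CompactSpace X] (h : I × X → (κ → ℝ))
    (hc : Continuous h) (hU : ∀ p, h p ∈ US κ) :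
    ∃ A : I × X → Matrix κ κ ℝ, Continuous A ∧ (∀ p, A p ∈ SOs κ) ∧ (∀ x, A (0, x) = 1) ∧
      (∀ s x, A (s, x) *ᵥ h (0, x) = h (s, x)) ∧
      ∀ x, (∀ s, h (s, x) = h (0, x)) → ∀ s, A (s, x) = 1 := by
  -- uniform continuity
  let φ : C((I × I) × X, ℝ) := ⟨fun q => h (q.1.1, q.2) ⬝ᵥ h (q.1.2, q.2), by
    unfold dotProduct
    fun_prop⟩
  have hu : UniformContinuous (fun q : I × I => φ.curry q) :=
    CompactSpace.uniformContinuous_of_continuous φ.curry.continuous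
  rw [Metric.uniformContinuous_iff] at hu
  obtain ⟨δ, hδ, hd⟩ := hu 1 one_pos
  have hpos : ∀ s s' : I, dist s s' < δ → ∀ x, h (s, x) ⬝ᵥ h (s', x) ≠ -1 := by
    intro s s' hs x hh
    have h1 : dist ((s, s') : I × I) (s, s) < δ := by
      rw [Prod.dist_eq]
      simp only [dist_self]
      rw [dist_comm s' s]
      exact max_lt hδ hs
    have h2 := hd h1
    have h3 : dist (φ.curry (s, s') x) (φ.curry (s, s) x) < 1 :=
      lt_of_le_of_lt (ContinuousMap.dist_apply_le_dist x) h2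
    have h4 : φ.curry (s, s') x = -1 := hh
    have h5 : φ.curry (s, s) x = 1 := hU (s, x)
    rw [h4, h5] at h3
    norm_num [Real.dist_eq] at h3
  obtain ⟨N, hN⟩ := exists_nat_one_div_lt hδ
  -- the steps
  have hstep : ∀ j : ℕ, ∃ A : I × X → Matrix κ κ ℝ, Continuous A ∧ (∀ p, A p ∈ SOs κ) ∧
      (∀ x, A (0, x) = 1) ∧
      (∀ s x, A (s, x) *ᵥ h (0, x) = h (rotC (j / (N + 1 : ℝ)) (by positivity) s, x)) ∧
      ∀ x, (∀ s, h (s, x) = h (0, x)) → ∀ s, A (s, x) = 1 := by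
    intro j
    induction j with
    | zero =>
      refine ⟨fun _ => 1, continuous_const, fun p => ⟨by simp, by simp⟩, fun _ => rfl, ?_,
        fun _ _ _ => rfl⟩
      intro s x
      rw [one_mulVec]
      congr 2
      apply Subtype.ext
      simp only [rotC, Nat.cast_zero, zero_div]
      exact (min_eq_right s.2.1).symm
    | succ j ih =>
      obtain ⟨A, hA, hS, h0, hm, hk⟩ := ih
      have hj : (0 : ℝ) ≤ j / (N + 1 : ℝ) := by positivity
      have hj' : (0 : ℝ) ≤ ((j + 1 : ℕ) : ℝ) / (N + 1 : ℝ) := by positivity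
      have hne : ∀ p : I × X, h (rotC _ hj p.1, p.2) ⬝ᵥ h (rotC _ hj' p.1, p.2) ≠ -1 := by
        intro p
        apply hpos
        refine lt_of_le_of_lt (rotC_dist _ _ _ _ _) ?_
        have : (j / (N + 1 : ℝ)) - ((j + 1 : ℕ) : ℝ) / (N + 1 : ℝ) = - (1 / (N + 1 : ℝ)) := by
          push_cast
          field_simp
          ring
        rw [this, abs_neg, abs_of_pos (by positivity)]
        exact hN
      refine ⟨fun p => rotm (h (rotC _ hj p.1, p.2)) (h (rotC _ hj' p.1, p.2)) * A p,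
        ?_, ?_, ?_, ?_, ?_⟩
      · refine Continuous.mul ?_ hA
        have hc1 : Continuous (fun p : I × X =>
            ((h (rotC _ hj p.1, p.2), h (rotC _ hj' p.1, p.2)) : (κ → ℝ) × (κ → ℝ))) := by
          refine Continuous.prodMk ?_ ?_
          · exact hc.comp (((rotC_cont _ hj).comp continuous_fst).prodMk continuous_snd)
          · exact hc.comp (((rotC_cont _ hj').comp continuous_fst).prodMk continuous_snd)
        exact rotm_continuousOn.comp_continuous hc1 hne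
      · intro p
        obtain ⟨r1, r2⟩ := rotm_mem (hU _) (hU _) (hne p)
        obtain ⟨a1, a2⟩ := hS p
        constructor
        · rw [transpose_mul, mul_assoc, ← mul_assoc _ (rotm _ _) (A p), r1, one_mul, a1]
        · rw [det_mul, r2, a2, one_mul]
      · intro x
        have e1 : rotC _ hj (0 : I) = 0 := by
          apply Subtype.ext
          simp [rotC, hj]
        have e2 : rotC _ hj' (0 : I) = 0 := by
          apply Subtype.ext
          simp only [rotC, Icc.coe_zero]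
          exact min_eq_left hj'
        simp only [e1, e2]
        rw [rotm_self (hU _), h0, one_mul]
      · intro s x
        rw [← mulVec_mulVec, hm, rotm_mulVec (hU _) (hU _) (hne (s, x))]
      · intro x hx s
        simp only
        rw [hx (rotC _ hj s), hx (rotC _ hj' s), rotm_self (hU _), hk x hx, one_mul]
  obtain ⟨A, hA, hS, h0, hm, hk⟩ := hstep (N + 1)
  refine ⟨A, hA, hS, h0, ?_, hk⟩
  intro s x
  rw [hm]
  congr 2
  apply Subtype.ext
  have h1 : ((N + 1 : ℕ) : ℝ) / (N + 1 : ℝ) = 1 := by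
    push_cast
    field_simp
  simp only [rotC]
  rw [h1]
  exact min_eq_left s.2.2

end DT
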