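import Pool.Agent.H78.DT.StHDef
import Pool.Agent.H78.DT.Rot
import Pool.Agent.H78.DT.LowDim
import Pool.Agent.H78.DT.GlPath

/-!
# Destabilisation (job DT-DESON)

Let `e = Sum.elim 0 1 : ι ⊕ Unit → ℝ` (the last unit vector).  A matrix `M ∈ SOs (ι ⊕ Unit)` with
`M *ᵥ e = e` is `stb Unit M'` with `M' = M.toBlocks₁₁ ∈ SOs ι` (its last column is `e`, and its last
row too since `Mᵀ e = Mᵀ M e = e`).

(1) `onto_step`: `f : Sp k → SOs (ι ⊕ Unit)` with `k < card ι` is homotopic to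
`stb Unit g`.  PROOF. `x ↦ f x *ᵥ e` is a map `Sp k → US (ι ⊕ Unit)`, `k + 1 < card ι + 1`, so by
`null_low` there is a homotopy `z (u, x)` to the constant `e`.  By `transport`
(`κ = ι ⊕ Unit`, `X = Sp k`) `A (u,x) z(0,x) = z(u,x)`.  `A (u,x) f x` is a homotopy in `SOs` from
`f` to `A(1,x) f(x)`, which maps `e` to `A(1,x) z(0,x) = z(1,x) = e`.
(2) `destab_onto`: induction on `card β` (write `β ≃ Fin s` and `Fin (s+1) ≃ Fin s ⊕ Unit`):
`f : Sp k → SOs (Fin (k+1) ⊕ β)` is homotopic to `stb β g`, `g : Sp k → SOs (Fin (k+1))`; the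
condition `k < card (Fin (k+1) ⊕ Fin s)` holds at every step.
(3) `inj_step`: `f : Sp n → SOs ι`, `n + 1 < card ι`, `HIn (SOs (ι ⊕ Unit)) (stb Unit f) 1`
implies `HIn (SOs ι) f 1`.  PROOF. Let `H (t, x)` be the homotopy, `h (t,x) = H (t,x) *ᵥ e`,
`h = e` for `t = 0, 1`.  By `null_low_rel` (`n + 2 < card ι + 1`) there is a homotopy `z (u,(t,x))`
from `h` to the constant `e`, relative to `t = 0, 1`.  By `transport` with
`X = I × Sp n`: `A (u,(t,x))`, equal to `1` if `t = 0, 1`.  `H' (t,x) = A(1,(t,x)) H(t,x)` fixes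
`e`, so it is `stb Unit (H'' (t,x))`, and `H''` is a homotopy from `f` to `1`.
(4) `destab`: `f : Sp n → SOs (Fin (n+1))`,
`HIn (SOs (Fin (n+1) ⊕ Fin r)) (stb (Fin r) f) 1` implies the same for `Unit` in place of
`Fin r`.  Induction on `r`: `r = 0`: `f ~ 1` already (reindex) and stabilise.  `r = 1`:
`Fin 1 ≃ Unit`.  `r + 2`: `Fin (n+1) ⊕ Fin (r+2) ≃ (Fin (n+1) ⊕ Fin (r+1)) ⊕ Unit` and
`n + 1 < n + 1 + r + 1`, use (3).
-/

open Matrix Set unitInterval Topology

noncomputable section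

namespace DT

section aux

variable {ι κ κ' α β γ δ : Type} [Fintype ι] [DecidableEq ι] [Fintype κ] [DecidableEq κ]
  [Fintype κ'] [DecidableEq κ'] [Fintype α] [DecidableEq α] [Fintype β] [DecidableEq β]
  [Fintype γ] [DecidableEq γ] [Fintype δ] [DecidableEq δ]

set_option linter.unusedSectionVars false

theorem DesOn_mul {A B : Matrix ι ι ℝ} (hA : A ∈ SOs ι) (hB : B ∈ SOs ι) : A * B ∈ SOs ι := by
  refine ⟨?_, ?_⟩
  · rw [transpose_mul, mul_assoc, ← mul_assoc Aᵀ, hA.1, one_mul, hB.1]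
  · rw [det_mul, hA.2, hB.2, one_mul]

theorem DesOn_stb {M : Matrix ι ι ℝ} : stb α M ∈ SOs (ι ⊕ α) ↔ M ∈ SOs ι := by
  unfold SOs stb
  simp only [mem_ofPred_eq, det_fromBlocks_zero₂₁, det_one, mul_one, fromBlocks_transpose,
    transpose_zero, transpose_one, fromBlocks_multiply, Matrix.mul_zero, Matrix.zero_mul,
    Matrix.mul_one, Matrix.one_mul, add_zero, zero_add]
  constructor
  · rintro ⟨h1, h2⟩
    rw [← fromBlocks_one, fromBlocks_inj] at h1
    exact ⟨h1.1, h2⟩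
  · rintro ⟨h1, h2⟩
    rw [h1, fromBlocks_one]
    exact ⟨rfl, h2⟩

theorem DesOn_sub (σ' : κ' ≃ κ) {M : Matrix κ κ ℝ} (h : M ∈ SOs κ) :
    M.submatrix σ' σ' ∈ SOs κ' := by
  refine ⟨?_, ?_⟩
  · rw [transpose_submatrix, submatrix_mul_equiv, h.1, submatrix_one_equiv]
  · rw [det_submatrix_equiv_self, h.2]

theorem DesOn_assoc (τ : β ⊕ γ ≃ δ) (M : Matrix α α ℝ) :
    (stb δ M).submatrix ((Equiv.sumAssoc α β γ).trans ((Equiv.refl α).sumCongr τ))
      ((Equiv.sumAssoc α β γ).trans ((Equiv.refl α).sumCongr τ)) = stb γ (stb β M) := by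
  ext x y
  rcases x with (x | x) | x <;> rcases y with (y | y) | y <;>
    simp [stb, one_apply]

theorem DesOn_assoc_symm (τ : β ⊕ γ ≃ δ) (M : Matrix α α ℝ) :
    (stb γ (stb β M)).submatrix ((Equiv.sumAssoc α β γ).trans ((Equiv.refl α).sumCongr τ)).symm
      ((Equiv.sumAssoc α β γ).trans ((Equiv.refl α).sumCongr τ)).symm = stb δ M := by
  rw [← DesOn_assoc τ M, submatrix_submatrix, Equiv.self_comp_symm, submatrix_id_id]

theorem DesOn_congr (τ : β ≃ δ) (M : Matrix α α ℝ) :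
    (stb δ M).submatrix ((Equiv.refl α).sumCongr τ) ((Equiv.refl α).sumCongr τ) = stb β M := by
  ext x y
  rcases x with x | x <;> rcases y with y | y <;> simp [stb, one_apply]

theorem DesOn_us {M : Matrix κ κ ℝ} (h : M ∈ SOs κ) {v : κ → ℝ} (hv : v ∈ US κ) :
    M *ᵥ v ∈ US κ := by
  show M *ᵥ v ⬝ᵥ M *ᵥ v = 1
  rw [dotProduct_mulVec, vecMul_mulVec, h.1, vecMul_one]
  exact hv

theorem DesOn_fix {M : Matrix (ι ⊕ Unit) (ι ⊕ Unit) ℝ} (h : M ∈ SOs (ι ⊕ Unit))
    (he : M *ᵥ (Sum.elim (fun _ => 0) (fun _ => 1)) = Sum.elim (fun _ => 0) (fun _ => 1)) :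
    M = stb Unit M.toBlocks₁₁ ∧ M.toBlocks₁₁ ∈ SOs ι := by
  have he' : Mᵀ *ᵥ (Sum.elim (fun _ => 0) (fun _ => 1)) =
      Sum.elim (fun _ => 0) (fun _ => 1) := by
    conv_lhs => rw [← he]
    rw [mulVec_mulVec, h.1, one_mulVec]
  have hc : ∀ x, M x (Sum.inr ()) = (Sum.elim (fun _ => 0) (fun _ => 1) : ι ⊕ Unit → ℝ) x := by
    intro x
    rw [← congrFun he x]
    simp [mulVec, dotProduct]
  have hr : ∀ x, M (Sum.inr ()) x = (Sum.elim (fun _ => 0) (fun _ => 1) : ι ⊕ Unit → ℝ) x := by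
    intro x
    rw [← congrFun he' x]
    simp [mulVec, dotProduct]
  have h1 : M = stb Unit M.toBlocks₁₁ := by
    ext x y
    rcases x with x | x
    · rcases y with y | y
      · rfl
      · exact (hc (Sum.inl x)).trans (by simp [stb])
    · rcases y with y | y
      · exact (hr (Sum.inl y)).trans (by simp [stb])
      · exact (hr (Sum.inr y)).trans (by simp [stb])
  refine ⟨h1, ?_⟩
  rw [h1] at h
  exact DesOn_stb.mp h

theorem DesOn_e_mem : (Sum.elim (fun _ => 0) (fun _ => 1) : ι ⊕ Unit → ℝ) ∈ US (ι ⊕ Unit) := by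
  show _ ⬝ᵥ _ = _
  simp [dotProduct]

theorem DesOn_stb_e (M : Matrix ι ι ℝ) :
    stb Unit M *ᵥ (Sum.elim (fun _ => 0) (fun _ => 1)) = Sum.elim (fun _ => 0) (fun _ => 1) := by
  ext x
  rcases x with x | x <;> simp [stb, mulVec, dotProduct]

theorem DesOn_stb_cont (α : Type) [Fintype α] [DecidableEq α] :
    Continuous fun M : Matrix ι ι ℝ => stb α M := by
  unfold stb
  exact continuous_id.matrix_fromBlocks continuous_const continuous_const continuous_const

theorem DesOn_tb_cont : Continuous fun M : Matrix (ι ⊕ α) (ι ⊕ α) ℝ => M.toBlocks₁₁ :=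
  continuous_matrix fun i j => (continuous_apply (Sum.inl j)).comp (continuous_apply (Sum.inl i))

theorem DesOn_sub_cont (σ' : κ' → κ) : Continuous fun M : Matrix κ κ ℝ => M.submatrix σ' σ' :=
  continuous_id.matrix_submatrix _ _

end aux

theorem onto_step {ι : Type} [Fintype ι] [DecidableEq ι] (k : ℕ) (hk : k < Fintype.card ι)
    (f : Sp k → Matrix (ι ⊕ Unit) (ι ⊕ Unit) ℝ) (hf : Continuous f)
    (hS : ∀ x, f x ∈ SOs (ι ⊕ Unit)) :
    ∃ g : Sp k → Matrix ι ι ℝ, Continuous g ∧ (∀ x, g x ∈ SOs ι) ∧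
      HIn (SOs (ι ⊕ Unit)) f (fun x => stb Unit (g x)) := by
  obtain ⟨H, hH, hHU, hH0, hH1⟩ := null_low (κ := ι ⊕ Unit) k (by simpa using hk)
    (fun x => f x *ᵥ (Sum.elim (fun _ => 0) (fun _ => 1)))
    (hf.matrix_mulVec continuous_const) (fun x => DesOn_us (hS x) DesOn_e_mem)
    (Sum.elim (fun _ => 0) (fun _ => 1)) DesOn_e_mem
  obtain ⟨A, hA, hAS, hA0, hAt, -⟩ := transport H hH (fun p => hHU p.1 p.2)
  replace hH0 : ∀ x, H (0, x) = f x *ᵥ (Sum.elim (fun _ => 0) (fun _ => 1)) := hH0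
  replace hH1 : ∀ x, H (1, x) = Sum.elim (fun _ => 0) (fun _ => 1) := hH1
  have hg : ∀ x, A (1, x) * f x ∈ SOs (ι ⊕ Unit) := fun x => DesOn_mul (hAS _) (hS x)
  have hfix : ∀ x, (A (1, x) * f x) *ᵥ (Sum.elim (fun _ => 0) (fun _ => 1)) =
      Sum.elim (fun _ => 0) (fun _ => 1) := by
    intro x
    rw [← mulVec_mulVec, ← hH0 x, hAt, hH1]
  have hA1 : Continuous fun x => A (1, x) * f x :=
    (hA.comp (by fun_prop)).matrix_mul hf
  refine ⟨fun x => (A (1, x) * f x).toBlocks₁₁, DesOn_tb_cont.comp hA1,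
    fun x => (DesOn_fix (hg x) (hfix x)).2,
    fun p => A p * f p.2, hA.matrix_mul (hf.comp continuous_snd), ?_, ?_, ?_⟩
  · exact fun u x => DesOn_mul (hAS _) (hS x)
  · intro x
    simp only [hA0, one_mul]
  · intro x
    exact (DesOn_fix (hg x) (hfix x)).1

theorem DesOn_fin (k s : ℕ) (f : Sp k → Matrix (Fin (k + 1) ⊕ Fin s) (Fin (k + 1) ⊕ Fin s) ℝ)
    (hf : Continuous f) (hS : ∀ x, f x ∈ SOs (Fin (k + 1) ⊕ Fin s)) :
    ∃ g : Sp k → Matrix (Fin (k + 1)) (Fin (k + 1)) ℝ, Continuous g ∧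
      (∀ x, g x ∈ SOs (Fin (k + 1))) ∧
      HIn (SOs (Fin (k + 1) ⊕ Fin s)) f (fun x => stb (Fin s) (g x)) := by
  induction s with
  | zero =>
    have h1 : ∀ x, f x = stb (Fin 0) (f x).toBlocks₁₁ := by
      intro x
      ext a b
      rcases a with a | a
      · rcases b with b | b
        · rfl
        · exact b.elim0
      · exact a.elim0
    refine ⟨fun x => (f x).toBlocks₁₁, DesOn_tb_cont.comp hf, fun x => ?_, ?_⟩
    · have h2 := hS x
      rw [h1 x] at h2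
      exact DesOn_stb.mp h2
    · have h3 : (fun x => stb (Fin 0) (f x).toBlocks₁₁) = f := funext fun x => (h1 x).symm
      rw [h3]
      exact HIn.refl hf hS
  | succ s ih =>
    let τ : Fin s ⊕ Unit ≃ Fin (s + 1) :=
      ((Equiv.refl (Fin s)).sumCongr finOneEquiv.symm).trans finSumFinEquiv
    let ρ := (Equiv.sumAssoc (Fin (k + 1)) (Fin s) Unit).trans
      ((Equiv.refl (Fin (k + 1))).sumCongr τ)
    obtain ⟨g1, hg1, hg1S, hg1H⟩ := onto_step (ι := Fin (k + 1) ⊕ Fin s) k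
      (by simp only [Fintype.card_sum, Fintype.card_fin]; omega)
      (fun x => (f x).submatrix ρ ρ) ((DesOn_sub_cont ρ).comp hf)
      (fun x => DesOn_sub ρ (hS x))
    obtain ⟨g, hg, hgS, hgH⟩ := ih g1 hg1 hg1S
    refine ⟨g, hg, hgS, ?_⟩
    have h1 : HIn (SOs ((Fin (k + 1) ⊕ Fin s) ⊕ Unit)) (fun x => stb Unit (g1 x))
        (fun x => stb Unit (stb (Fin s) (g x))) :=
      HIn.map' hgH (fun M => stb Unit M) (DesOn_stb_cont Unit) (fun M hM => DesOn_stb.mpr hM)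
    have h2 := HIn.map' (hg1H.trans h1) (B := SOs (Fin (k + 1) ⊕ Fin (s + 1)))
      (fun M => M.submatrix ρ.symm ρ.symm)
      (DesOn_sub_cont _) (fun M hM => DesOn_sub _ hM)
    have e1 : (fun x => ((f x).submatrix ρ ρ).submatrix ρ.symm ρ.symm) = f := by
      funext x
      rw [submatrix_submatrix]
      simp
    have e2 : (fun x => (stb Unit (stb (Fin s) (g x))).submatrix ρ.symm ρ.symm) =
        fun x => stb (Fin (s + 1)) (g x) := funext fun x => DesOn_assoc_symm τ (g x)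
    rw [e1, e2] at h2
    exact h2

theorem destab_onto {β : Type} [Fintype β] [DecidableEq β] (k : ℕ)
    (f : Sp k → Matrix (Fin (k + 1) ⊕ β) (Fin (k + 1) ⊕ β) ℝ) (hf : Continuous f)
    (hS : ∀ x, f x ∈ SOs (Fin (k + 1) ⊕ β)) :
    ∃ g : Sp k → Matrix (Fin (k + 1)) (Fin (k + 1)) ℝ, Continuous g ∧
      (∀ x, g x ∈ SOs (Fin (k + 1))) ∧
      HIn (SOs (Fin (k + 1) ⊕ β)) f (fun x => stb β (g x)) := by
  let τ : β ≃ Fin (Fintype.card β) := Fintype.equivFin β
  let ρ := (Equiv.refl (Fin (k + 1))).sumCongr τ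
  obtain ⟨g, hg, hgS, hgH⟩ := DesOn_fin k (Fintype.card β)
    (fun x => (f x).submatrix ρ.symm ρ.symm) ((DesOn_sub_cont _).comp hf)
    (fun x => DesOn_sub _ (hS x))
  refine ⟨g, hg, hgS, ?_⟩
  have h2 := HIn.map' hgH (B := SOs (Fin (k + 1) ⊕ β)) (fun M => M.submatrix ρ ρ)
    (DesOn_sub_cont _) (fun M hM => DesOn_sub _ hM)
  have e1 : (fun x => ((f x).submatrix ρ.symm ρ.symm).submatrix ρ ρ) = f := by
    funext x
    rw [submatrix_submatrix]
    simp
  have e2 : (fun x => (stb (Fin (Fintype.card β)) (g x)).submatrix ρ ρ) =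
      fun x => stb β (g x) := funext fun x => DesOn_congr τ (g x)
  rw [e1, e2] at h2
  exact h2

theorem inj_step {ι : Type} [Fintype ι] [DecidableEq ι] (n : ℕ)
    (hn : n + 1 < Fintype.card ι) (f : Sp n → Matrix ι ι ℝ)
    (h : HIn (SOs (ι ⊕ Unit)) (fun x => stb Unit (f x)) (fun _ => 1)) :
    HIn (SOs ι) f (fun _ => 1) := by
  obtain ⟨H, hH, hHS, hH0, hH1⟩ := h
  have h01 : stb Unit (1 : Matrix ι ι ℝ) = 1 := fromBlocks_one
  have hn' : n + 2 < Fintype.card (ι ⊕ Unit) := by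
    rw [Fintype.card_sum, Fintype.card_unit]
    omega
  have hh := null_low_rel (κ := ι ⊕ Unit) n hn'
    (fun p => H p *ᵥ (Sum.elim (fun _ => 0) (fun _ => 1)))
    (hH.matrix_mulVec continuous_const) (fun p => DesOn_us (hHS p.1 p.2) DesOn_e_mem)
    (Sum.elim (fun _ => 0) (fun _ => 1)) DesOn_e_mem
    (fun x => by rw [hH0]; exact DesOn_stb_e _)
    (fun x => by rw [hH1]; exact one_mulVec _)
  obtain ⟨Z, hZ, hZU, hZ0, hZ1⟩ := hh
  obtain ⟨A, hA, hAS, hA0, hAt, hAc⟩ := transport (X := I × Sp n) Z hZ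
    (fun p => (hZU p.1).1 p.2)
  replace hH0 : ∀ x, H (0, x) = stb Unit (f x) := hH0
  replace hH1 : ∀ x, H (1, x) = 1 := hH1
  replace hZ0 : ∀ p, Z (0, p) = H p *ᵥ (Sum.elim (fun _ => 0) (fun _ => 1)) := hZ0
  replace hZ1 : ∀ p, Z (1, p) = Sum.elim (fun _ => 0) (fun _ => 1) := hZ1
  replace hZU : ∀ (u : I) (p : I × Sp n), (p.1 = 0 ∨ p.1 = 1) →
    Z (u, p) = H p *ᵥ (Sum.elim (fun _ => 0) (fun _ => 1)) := fun u p hp => (hZU u).2 p hp
  have hg : ∀ p : I × Sp n, A (1, p) * H p ∈ SOs (ι ⊕ Unit) :=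
    fun p => DesOn_mul (hAS _) (hHS p.1 p.2)
  have hfix : ∀ p : I × Sp n, (A (1, p) * H p) *ᵥ (Sum.elim (fun _ => 0) (fun _ => 1)) =
      Sum.elim (fun _ => 0) (fun _ => 1) := by
    intro p
    rw [← mulVec_mulVec, ← hZ0 p, hAt, hZ1]
  have hend : ∀ p : I × Sp n, (p.1 = 0 ∨ p.1 = 1) → A (1, p) = 1 := by
    intro p hp
    refine hAc p (fun s => ?_) 1
    rw [hZU s p hp, hZU 0 p hp]
  have hA1 : Continuous fun p : I × Sp n => A (1, p) * H p :=
    (hA.comp (by fun_prop)).matrix_mul hH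
  refine ⟨fun p => (A (1, p) * H p).toBlocks₁₁, DesOn_tb_cont.comp hA1, ?_, ?_, ?_⟩
  · exact fun u x => (DesOn_fix (hg (u, x)) (hfix (u, x))).2
  · intro x
    show (A (1, (0, x)) * H (0, x)).toBlocks₁₁ = f x
    rw [hend (0, x) (Or.inl rfl), one_mul, hH0]
    simp [stb]
  · intro x
    show (A (1, (1, x)) * H (1, x)).toBlocks₁₁ = 1
    rw [hend (1, x) (Or.inr rfl), one_mul, hH1, ← fromBlocks_one, toBlocks_fromBlocks₁₁]

theorem destab (n r : ℕ) (f : Sp n → Matrix (Fin (n + 1)) (Fin (n + 1)) ℝ)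
    (h : HIn (SOs (Fin (n + 1) ⊕ Fin r)) (fun x => stb (Fin r) (f x)) (fun _ => 1)) :
    HIn (SOs (Fin (n + 1) ⊕ Unit)) (fun x => stb Unit (f x)) (fun _ => 1) := by
  have hone : ∀ (κ κ' : Type) [Fintype κ] [DecidableEq κ] [Fintype κ'] [DecidableEq κ'],
      stb κ' (1 : Matrix κ κ ℝ) = 1 := fun κ κ' _ _ _ _ => fromBlocks_one
  induction r with
  | zero =>
    have h2 := HIn.map' h (B := SOs (Fin (n + 1) ⊕ Unit)) (fun M => stb Unit M.toBlocks₁₁)
      ((DesOn_stb_cont Unit).comp DesOn_tb_cont) (by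
        intro M hM
        refine DesOn_stb.mpr ?_
        have h1 : M = stb (Fin 0) M.toBlocks₁₁ := by
          ext a b
          rcases a with a | a
          · rcases b with b | b
            · rfl
            · exact b.elim0
          · exact a.elim0
        rw [h1] at hM
        exact DesOn_stb.mp hM)
    have e1 : (fun x => stb Unit (stb (Fin 0) (f x)).toBlocks₁₁) = fun x => stb Unit (f x) := by
      funext x
      simp [stb]
    have e2 : (fun _ : Sp n => stb Unit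
        (1 : Matrix (Fin (n + 1) ⊕ Fin 0) (Fin (n + 1) ⊕ Fin 0) ℝ).toBlocks₁₁) =
        fun _ => 1 := by
      funext x
      rw [← fromBlocks_one, toBlocks_fromBlocks₁₁]
      exact fromBlocks_one
    rw [e1, e2] at h2
    exact h2
  | succ r ih =>
    rcases Nat.eq_zero_or_pos r with hr | hr
    · subst hr
      let τ : Unit ≃ Fin 1 := finOneEquiv.symm
      let ρ := (Equiv.refl (Fin (n + 1))).sumCongr τ
      have h2 := HIn.map' h (B := SOs (Fin (n + 1) ⊕ Unit)) (fun M => M.submatrix ρ ρ)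
        (DesOn_sub_cont _) (fun M hM => DesOn_sub _ hM)
      have e1 : (fun x => (stb (Fin (0 + 1)) (f x)).submatrix ρ ρ) = fun x => stb Unit (f x) :=
        funext fun x => DesOn_congr τ (f x)
      have e2 : (fun _ : Sp n => (1 : Matrix (Fin (n + 1) ⊕ Fin (0 + 1))
          (Fin (n + 1) ⊕ Fin (0 + 1)) ℝ).submatrix ρ ρ) = fun _ => 1 :=
        funext fun x => submatrix_one_equiv _
      rw [e1, e2] at h2
      exact h2
    · refine ih ?_
      refine inj_step n ?_ _ ?_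
      · simp only [Fintype.card_sum, Fintype.card_fin]
        omega
      · let τ : Fin r ⊕ Unit ≃ Fin (r + 1) :=
          ((Equiv.refl (Fin r)).sumCongr finOneEquiv.symm).trans finSumFinEquiv
        let ρ := (Equiv.sumAssoc (Fin (n + 1)) (Fin r) Unit).trans
          ((Equiv.refl (Fin (n + 1))).sumCongr τ)
        have h2 := HIn.map' h (B := SOs ((Fin (n + 1) ⊕ Fin r) ⊕ Unit))
          (fun M => M.submatrix ρ ρ) (DesOn_sub_cont _) (fun M hM => DesOn_sub _ hM)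
        have e1 : (fun x => (stb (Fin (r + 1)) (f x)).submatrix ρ ρ) =
            fun x => stb Unit (stb (Fin r) (f x)) := funext fun x => DesOn_assoc τ (f x)
        have e2 : (fun _ : Sp n => (1 : Matrix (Fin (n + 1) ⊕ Fin (r + 1))
            (Fin (n + 1) ⊕ Fin (r + 1)) ℝ).submatrix ρ ρ) = fun _ => 1 :=
          funext fun x => submatrix_one_equiv _
        rw [e1, e2] at h2
        exact h2

end DT
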