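import Pool.Agent.H78.DT.StHDef
import Pool.Agent.H78.DT.GlPath

/-!
# Properties of stable homotopy `StH` (job DT-STH)

* `of_hin`: take `α = β = Empty` (or `Unit`), `Q = 1`.
* `symm`: conjugate the homotopy by `Qᵀ` (`det (Qᵀ M Q) = det M` for rectangular orthogonal `Q`:
  `det (Q M Qᵀ) = det (M Qᵀ Q) = det M` by `Matrix.det_mul_comm`-type lemmas
  (`Matrix.det_comm'` / choose a bijection)) and use `HP.symm`.
* `trans`: from `Q (f ⊕ 1_α) Qᵀ ~ g ⊕ 1_β` over `κ ⊕ β` and `Q' (g ⊕ 1_γ) Q'ᵀ ~ h ⊕ 1_δ` over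
  `μ ⊕ δ`: stabilise the first by `γ`, the second by `β`: over `(κ ⊕ β) ⊕ γ ≃ (κ ⊕ γ) ⊕ β`
  (permutation matrix), conclude over `(μ ⊕ δ) ⊕ β ≃ μ ⊕ (δ ⊕ β)`, with
  `ι ⊕ (α ⊕ γ) ≃ (ι ⊕ α) ⊕ γ`.
* `conj`: `StH f (Q f Qᵀ)`: `Q f Qᵀ` is itself of this form (`α = β = Empty`, matrix `Q ⊕ 1`).
* `mul_const`: `Z ∈ SOs ι`: `Z f ~ f` by `so_path`.
* `stb_right`: `StH f (f ⊕ 1_γ)`: `α = γ`, `β = Empty` up to the obvious bijection.
* `mul`: the same `α, β, Q` work for pointwise squares: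
  `Q (f² ⊕ 1) Qᵀ = (Q (f ⊕ 1) Qᵀ)²`; square the homotopy.
* `unstable`: let `Q : (ι ⊕ β) × (ι ⊕ α)` be orthogonal; then `card α = card β`; let
  `P` be the permutation matrix of a bijection `ι ⊕ α ≃ ι ⊕ β` which is the identity on `ι`;
  `Q = Q₀ P` with `Q₀` orthogonal on `ι ⊕ β`, and `P (f ⊕ 1_α) Pᵀ = f ⊕ 1_β`.  So
  `Q₀ (f ⊕ 1) Q₀ᵀ ~ g ⊕ 1` over `ι ⊕ β`.  Stabilise by one more coordinate:
  `(Q₀ ⊕ ε)(f ⊕ 1 ⊕ 1)(Q₀ ⊕ ε)ᵀ ~ g ⊕ 1 ⊕ 1` with `ε = det Q₀ = ±1`, so `Q₀ ⊕ ε` is in `SOs`;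
  by `so_path` it can be removed.  So `f ⊕ 1 ~ g ⊕ 1` over `ι ⊕ (β ⊕ Unit)`, and
  `β ⊕ Unit ≃ Fin r`.  For larger `r'`, stabilise further.
* `sq_stb`: `f² ⊕ 1 ~ f ⊕ f`: with the rotation
  `R_u = [[cos, -sin], [sin, cos]]` (angle `πu/2`) in `SOs (ι ⊕ ι)`:
  `(f ⊕ 1) R_u (f ⊕ 1) R_uᵀ` is `f² ⊕ 1` at `u = 0` and `(f ⊕ 1)(1 ⊕ f) = f ⊕ f` at `u = 1`.
-/

open Matrix Set unitInterval Topology

set_option linter.unusedSectionVars false

noncomputable section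

namespace DT

variable {X ι κ μ : Type} [TopologicalSpace X] [Fintype ι] [DecidableEq ι] [Fintype κ]
  [DecidableEq κ] [Fintype μ] [DecidableEq μ]

theorem StHB_stb_mul {α : Type} [Fintype α] [DecidableEq α] (M N : Matrix ι ι ℝ) :
    stb α M * stb α N = stb α (M * N) := by
  unfold stb
  rw [fromBlocks_multiply]
  simp

theorem StHB_cont_stb {α : Type} [Fintype α] [DecidableEq α] :
    Continuous (stb α : Matrix ι ι ℝ → Matrix (ι ⊕ α) (ι ⊕ α) ℝ) := by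
  unfold stb
  exact Continuous.matrix_fromBlocks continuous_id continuous_const continuous_const
    continuous_const

theorem stb_mem {α : Type} [Fintype α] [DecidableEq α] {M : Matrix ι ι ℝ} (hM : M ∈ SOs ι) :
    stb α M ∈ SOs (ι ⊕ α) := by
  refine ⟨?_, ?_⟩
  · have h : (stb α M)ᵀ = stb α Mᵀ := by
      unfold stb
      rw [fromBlocks_transpose]
      simp
    rw [h, StHB_stb_mul, hM.1]
    unfold stb
    exact fromBlocks_one
  · unfold stb
    rw [det_fromBlocks_zero₂₁, hM.2, det_one, one_mul]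

/-- conjugation by a rectangular orthogonal matrix -/
theorem StHB_cj_mem {Q : Matrix κ ι ℝ} (h1 : Q * Qᵀ = 1) (h2 : Qᵀ * Q = 1) {M : Matrix ι ι ℝ}
    (hM : M ∈ SOs ι) : Q * M * Qᵀ ∈ SOs κ := by
  refine ⟨?_, ?_⟩
  · have e : (Q * M * Qᵀ)ᵀ * (Q * M * Qᵀ) = Q * (Mᵀ * ((Qᵀ * Q) * (M * Qᵀ))) := by
      rw [transpose_mul, transpose_mul, transpose_transpose]
      simp only [Matrix.mul_assoc]
    rw [e, h2, Matrix.one_mul, ← Matrix.mul_assoc Mᵀ, hM.1, Matrix.one_mul, h1]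
  · rw [det_conj_of_mul_eq_one h1 h2, hM.2]

theorem StHB_cont_cj (Q : Matrix κ ι ℝ) :
    Continuous fun M : Matrix ι ι ℝ => Q * M * Qᵀ := by
  fun_prop

/-- related by an orthogonal conjugation and a homotopy -/
def StHB_Rl (f : X → Matrix ι ι ℝ) (g : X → Matrix κ κ ℝ) : Prop :=
  ∃ Q : Matrix κ ι ℝ, Q * Qᵀ = 1 ∧ Qᵀ * Q = 1 ∧ HIn (SOs κ) (fun x => Q * f x * Qᵀ) g

theorem StHB_Rl_of_hin {f g : X → Matrix ι ι ℝ} (h : HIn (SOs ι) f g) : StHB_Rl f g := by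
  refine ⟨1, by simp, by simp, ?_⟩
  simpa using h

theorem StHB_Rl_symm {f : X → Matrix ι ι ℝ} {g : X → Matrix κ κ ℝ} (h : StHB_Rl f g) :
    StHB_Rl g f := by
  obtain ⟨Q, h1, h2, h⟩ := h
  refine ⟨Qᵀ, by rw [transpose_transpose, h2], by rw [transpose_transpose, h1], ?_⟩
  have h3 := h.map' (fun M => Qᵀ * M * Qᵀᵀ) (StHB_cont_cj Qᵀ) (B := SOs ι)
    (fun M hM => StHB_cj_mem (by rw [transpose_transpose, h2]) (by rw [transpose_transpose, h1])
      hM)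
  have h4 : (fun x => Qᵀ * (Q * f x * Qᵀ) * Qᵀᵀ) = f := by
    funext x
    have e : Qᵀ * (Q * f x * Qᵀ) * Qᵀᵀ = (Qᵀ * Q) * f x * (Qᵀ * Q) := by
      rw [transpose_transpose]
      simp only [Matrix.mul_assoc]
    rw [e, h2, Matrix.one_mul, Matrix.mul_one]
  rw [h4] at h3
  exact h3.symm

theorem StHB_Rl_trans {f : X → Matrix ι ι ℝ} {g : X → Matrix κ κ ℝ} {k : X → Matrix μ μ ℝ}
    (h : StHB_Rl f g) (h' : StHB_Rl g k) : StHB_Rl f k := by
  obtain ⟨Q, h1, h2, h⟩ := h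
  obtain ⟨P, k1, k2, k⟩ := h'
  refine ⟨P * Q, ?_, ?_, ?_⟩
  · rw [transpose_mul, Matrix.mul_assoc, ← Matrix.mul_assoc Q, h1, Matrix.one_mul, k1]
  · rw [transpose_mul, Matrix.mul_assoc, ← Matrix.mul_assoc Pᵀ, k2, Matrix.one_mul, h2]
  · have h3 := h.map' (fun M => P * M * Pᵀ) (StHB_cont_cj P) (B := SOs μ)
      (fun M hM => StHB_cj_mem k1 k2 hM)
    have h4 : (fun x => P * Q * f x * (P * Q)ᵀ) = fun x => P * (Q * f x * Qᵀ) * Pᵀ := by
      funext x
      rw [transpose_mul]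
      simp only [Matrix.mul_assoc]
    rw [h4]
    exact h3.trans k

theorem StHB_Rl_conj {f : X → Matrix ι ι ℝ} (hf : Continuous f) (hS : ∀ x, f x ∈ SOs ι)
    (Q : Matrix κ ι ℝ) (h1 : Q * Qᵀ = 1) (h2 : Qᵀ * Q = 1) :
    StHB_Rl f (fun x => Q * f x * Qᵀ) :=
  ⟨Q, h1, h2, HIn.refl ((StHB_cont_cj Q).comp hf) fun x => StHB_cj_mem h1 h2 (hS x)⟩

theorem StHB_Rl_stb {f : X → Matrix ι ι ℝ} {g : X → Matrix κ κ ℝ} (h : StHB_Rl f g)
    (γ : Type) [Fintype γ] [DecidableEq γ] :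
    StHB_Rl (fun x => stb γ (f x)) (fun x => stb γ (g x)) := by
  obtain ⟨Q, h1, h2, h⟩ := h
  refine ⟨fromBlocks Q 0 0 1, ?_, ?_, ?_⟩
  · rw [fromBlocks_transpose, fromBlocks_multiply]
    simp [h1]
  · rw [fromBlocks_transpose, fromBlocks_multiply]
    simp [h2]
  · have h3 := h.map' (stb γ) StHB_cont_stb (B := SOs (κ ⊕ γ)) (fun M hM => stb_mem hM)
    have h4 : (fun x => fromBlocks Q 0 0 (1 : Matrix γ γ ℝ) * stb γ (f x) *
        (fromBlocks Q 0 0 (1 : Matrix γ γ ℝ))ᵀ) = fun x => stb γ (Q * f x * Qᵀ) := by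
      funext x
      unfold stb
      rw [fromBlocks_transpose, fromBlocks_multiply, fromBlocks_multiply]
      simp
    rw [h4]
    exact h3

/-- the permutation matrix of a bijection -/
def StHB_pm (e : ι ≃ κ) : Matrix κ ι ℝ := (1 : Matrix κ κ ℝ).submatrix id e

theorem StHB_pm_T (e : ι ≃ κ) : (StHB_pm e)ᵀ = (1 : Matrix κ κ ℝ).submatrix e id := by
  unfold StHB_pm
  rw [transpose_submatrix, transpose_one]

theorem StHB_pm_conj (e : ι ≃ κ) (M : Matrix ι ι ℝ) :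
    StHB_pm e * M * (StHB_pm e)ᵀ = M.submatrix e.symm e.symm := by
  have h1 : M = (M.submatrix e.symm e.symm).submatrix e e := by
    simp
  rw [StHB_pm_T]
  conv_lhs => rw [h1]
  unfold StHB_pm
  rw [submatrix_mul_equiv, submatrix_mul_equiv, Matrix.one_mul, Matrix.mul_one]
  simp

theorem StHB_pm_1 (e : ι ≃ κ) : StHB_pm e * (StHB_pm e)ᵀ = 1 := by
  rw [StHB_pm_T]
  unfold StHB_pm
  rw [submatrix_mul_equiv, Matrix.one_mul]
  simp

theorem StHB_pm_2 (e : ι ≃ κ) : (StHB_pm e)ᵀ * StHB_pm e = 1 := by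
  rw [StHB_pm_T]
  unfold StHB_pm
  have h := submatrix_mul_equiv (1 : Matrix κ κ ℝ) (1 : Matrix κ κ ℝ) (e : ι → κ)
    (Equiv.refl κ) (e : ι → κ)
  rw [Equiv.coe_refl] at h
  rw [h, Matrix.one_mul]
  simp

theorem StHB_Rl_sub {f : X → Matrix ι ι ℝ} (hf : Continuous f) (hS : ∀ x, f x ∈ SOs ι)
    (e : ι ≃ κ) : StHB_Rl f (fun x => (f x).submatrix e.symm e.symm) := by
  have h := StHB_Rl_conj hf hS (StHB_pm e) (StHB_pm_1 e) (StHB_pm_2 e)
  simp only [StHB_pm_conj] at h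
  exact h

theorem StHB_assoc (α γ : Type) [Fintype α] [DecidableEq α] [Fintype γ] [DecidableEq γ]
    (M : Matrix ι ι ℝ) : (stb γ (stb α M)).submatrix (Equiv.sumAssoc ι α γ).symm
      (Equiv.sumAssoc ι α γ).symm = stb (α ⊕ γ) M := by
  ext x y
  rcases x with x | x | x <;> rcases y with y | y | y <;>
    simp [stb, Matrix.one_apply]

theorem StHB_StH {f : X → Matrix ι ι ℝ} {g : X → Matrix κ κ ℝ} : StH f g ↔
    ∃ (α β : Type) (_ : Fintype α) (_ : DecidableEq α) (_ : Fintype β) (_ : DecidableEq β),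
      StHB_Rl (fun x => stb α (f x)) (fun x => stb β (g x)) := by
  constructor
  · rintro ⟨α, β, i1, i2, i3, i4, Q, h⟩
    exact ⟨α, β, i1, i2, i3, i4, Q, h⟩
  · rintro ⟨α, β, i1, i2, i3, i4, Q, h⟩
    exact ⟨α, β, i1, i2, i3, i4, Q, h⟩

theorem StHB_StH_of_Rl {f : X → Matrix ι ι ℝ} {g : X → Matrix κ κ ℝ} (h : StHB_Rl f g) :
    StH f g :=
  StHB_StH.2 ⟨Empty, Empty, inferInstance, inferInstance, inferInstance, inferInstance,
    StHB_Rl_stb h Empty⟩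

theorem StH.of_hin {f g : X → Matrix ι ι ℝ} (h : HIn (SOs ι) f g) : StH f g :=
  StHB_StH_of_Rl (StHB_Rl_of_hin h)

theorem StH.symm {f : X → Matrix ι ι ℝ} {g : X → Matrix κ κ ℝ} (h : StH f g) : StH g f := by
  obtain ⟨α, β, i1, i2, i3, i4, h⟩ := StHB_StH.1 h
  exact StHB_StH.2 ⟨β, α, i3, i4, i1, i2, StHB_Rl_symm h⟩

/-- `stb` detects continuity and membership -/
theorem StHB_of_stb {α : Type} [Fintype α] [DecidableEq α] {f : X → Matrix ι ι ℝ}
    (hc : Continuous fun x => stb α (f x)) (hS : ∀ x, stb α (f x) ∈ SOs (ι ⊕ α)) :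
    Continuous f ∧ ∀ x, f x ∈ SOs ι := by
  constructor
  · have h : f = fun x => (stb α (f x)).submatrix Sum.inl Sum.inl := by
      funext x
      ext i j
      simp [stb]
    rw [h]
    exact hc.matrix_submatrix _ _
  · intro x
    obtain ⟨h1, h2⟩ := hS x
    refine ⟨?_, ?_⟩
    · unfold stb at h1
      rw [fromBlocks_transpose, fromBlocks_multiply, ← fromBlocks_one, fromBlocks_inj] at h1
      simpa using h1.1
    · unfold stb at h2
      rw [det_fromBlocks_zero₂₁, det_one, mul_one] at h2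
      exact h2

theorem StHB_Rl_right {f : X → Matrix ι ι ℝ} {g : X → Matrix κ κ ℝ} (h : StHB_Rl f g) :
    Continuous g ∧ ∀ x, g x ∈ SOs κ := by
  obtain ⟨Q, -, -, h⟩ := h
  exact ⟨h.continuous_right, h.mem_right⟩

theorem StHB_Rl_left {f : X → Matrix ι ι ℝ} {g : X → Matrix κ κ ℝ} (h : StHB_Rl f g) :
    Continuous f ∧ ∀ x, f x ∈ SOs ι := StHB_Rl_right (StHB_Rl_symm h)

theorem StHB_Rl_assoc (α γ : Type) [Fintype α] [DecidableEq α] [Fintype γ] [DecidableEq γ]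
    {f : X → Matrix ι ι ℝ} (hf : Continuous f) (hS : ∀ x, f x ∈ SOs ι) :
    StHB_Rl (fun x => stb γ (stb α (f x))) (fun x => stb (α ⊕ γ) (f x)) := by
  have h := StHB_Rl_sub (f := fun x => stb γ (stb α (f x)))
    (StHB_cont_stb.comp (StHB_cont_stb.comp hf)) (fun x => stb_mem (stb_mem (hS x)))
    (Equiv.sumAssoc ι α γ)
  simp only [StHB_assoc] at h
  exact h

theorem StHB_Rl_comm (α γ : Type) [Fintype α] [DecidableEq α] [Fintype γ] [DecidableEq γ]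
    {f : X → Matrix ι ι ℝ} (hf : Continuous f) (hS : ∀ x, f x ∈ SOs ι) :
    StHB_Rl (fun x => stb (α ⊕ γ) (f x)) (fun x => stb (γ ⊕ α) (f x)) := by
  have h := StHB_Rl_sub (f := fun x => stb (α ⊕ γ) (f x)) (StHB_cont_stb.comp hf)
    (fun x => stb_mem (hS x)) (Equiv.sumCongr (Equiv.refl ι) (Equiv.sumComm α γ))
  have h2 : ∀ x, (stb (α ⊕ γ) (f x)).submatrix
      (Equiv.sumCongr (Equiv.refl ι) (Equiv.sumComm α γ)).symm
      (Equiv.sumCongr (Equiv.refl ι) (Equiv.sumComm α γ)).symm = stb (γ ⊕ α) (f x) := by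
    intro x
    ext i j
    rcases i with i | i | i <;> rcases j with j | j | j <;>
      simp [stb, Matrix.one_apply]
  simp only [h2] at h
  exact h

theorem StH.trans {f : X → Matrix ι ι ℝ} {g : X → Matrix κ κ ℝ} {k : X → Matrix μ μ ℝ}
    (h : StH f g) (h' : StH g k) : StH f k := by
  obtain ⟨α, β, i1, i2, i3, i4, h⟩ := StHB_StH.1 h
  obtain ⟨γ, δ, j1, j2, j3, j4, h'⟩ := StHB_StH.1 h'
  have hf := StHB_of_stb (StHB_Rl_left h).1 (StHB_Rl_left h).2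
  have hg := StHB_of_stb (StHB_Rl_right h).1 (StHB_Rl_right h).2
  have hk := StHB_of_stb (StHB_Rl_right h').1 (StHB_Rl_right h').2
  refine StHB_StH.2 ⟨α ⊕ γ, δ ⊕ β, inferInstance, inferInstance, inferInstance, inferInstance,
    ?_⟩
  refine StHB_Rl_trans (StHB_Rl_symm (StHB_Rl_assoc α γ hf.1 hf.2)) ?_
  refine StHB_Rl_trans (StHB_Rl_stb h γ) ?_
  refine StHB_Rl_trans (StHB_Rl_assoc β γ hg.1 hg.2) ?_
  refine StHB_Rl_trans (StHB_Rl_comm β γ hg.1 hg.2) ?_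
  refine StHB_Rl_trans (StHB_Rl_symm (StHB_Rl_assoc γ β hg.1 hg.2)) ?_
  exact StHB_Rl_trans (StHB_Rl_stb h' β) (StHB_Rl_assoc δ β hk.1 hk.2)

theorem StH.conj {f : X → Matrix ι ι ℝ} (hf : Continuous f) (hS : ∀ x, f x ∈ SOs ι)
    (Q : Matrix κ ι ℝ) (h1 : Q * Qᵀ = 1) (h2 : Qᵀ * Q = 1) :
    StH f (fun x => Q * f x * Qᵀ) :=
  StHB_StH_of_Rl (StHB_Rl_conj hf hS Q h1 h2)

theorem StHB_so_mul {M N : Matrix ι ι ℝ} (hM : M ∈ SOs ι) (hN : N ∈ SOs ι) : M * N ∈ SOs ι := by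
  refine ⟨?_, by rw [det_mul, hM.2, hN.2, one_mul]⟩
  rw [transpose_mul, Matrix.mul_assoc, ← Matrix.mul_assoc Mᵀ, hM.1, Matrix.one_mul, hN.1]

theorem StH.mul_const {f : X → Matrix ι ι ℝ} (hf : Continuous f) (hS : ∀ x, f x ∈ SOs ι)
    (Z : Matrix ι ι ℝ) (hZ : Z ∈ SOs ι) : StH f (fun x => Z * f x) := by
  have h := HIn.map₂ (hin_const (X := X) Z hZ) (HIn.refl hf hS) (fun M N => M * N)
    (by fun_prop) (fun M hM N hN => StHB_so_mul hM hN)
  simp only [Matrix.one_mul] at h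
  exact StH.of_hin h.symm

theorem StH.stb_right {f : X → Matrix ι ι ℝ} (hf : Continuous f) (hS : ∀ x, f x ∈ SOs ι)
    (γ : Type) [Fintype γ] [DecidableEq γ] : StH f (fun x => stb γ (f x)) :=
  StHB_StH.2 ⟨γ ⊕ Empty, Empty, inferInstance, inferInstance, inferInstance, inferInstance,
    StHB_Rl_symm (StHB_Rl_assoc γ Empty hf hS)⟩

theorem StH.sq {f : X → Matrix ι ι ℝ} {g : X → Matrix κ κ ℝ} (h : StH f g) :
    StH (fun x => f x * f x) (fun x => g x * g x) := by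
  obtain ⟨α, β, i1, i2, i3, i4, Q, h1, h2, h⟩ := h
  refine ⟨α, β, i1, i2, i3, i4, Q, h1, h2, ?_⟩
  have h3 := h.map' (fun M => M * M) (by fun_prop) (B := SOs (κ ⊕ β))
    (fun M hM => StHB_so_mul hM hM)
  have h4 : (fun x => Q * stb α (f x) * Qᵀ * (Q * stb α (f x) * Qᵀ)) =
      fun x => Q * stb α (f x * f x) * Qᵀ := by
    funext x
    rw [← StHB_stb_mul]
    calc Q * stb α (f x) * Qᵀ * (Q * stb α (f x) * Qᵀ)
        = Q * stb α (f x) * (Qᵀ * Q) * stb α (f x) * Qᵀ := by simp only [Matrix.mul_assoc]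
      _ = _ := by
        rw [h2, Matrix.mul_one]
        simp only [Matrix.mul_assoc]
  simp only [StHB_stb_mul] at h3
  rw [h4] at h3
  exact h3

theorem StHB_sub_mem {M : Matrix ι ι ℝ} (hM : M ∈ SOs ι) (e : κ ≃ ι) :
    M.submatrix e e ∈ SOs κ := by
  refine ⟨?_, by rw [det_submatrix_equiv_self, hM.2]⟩
  rw [transpose_submatrix, submatrix_mul_equiv, hM.1]
  simp

/-- removing the conjugation after one more stabilisation -/
theorem StHB_unconj {f g : X → Matrix ι ι ℝ} (hf : Continuous f) (hS : ∀ x, f x ∈ SOs ι)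
    (Q : Matrix ι ι ℝ) (h1 : Q * Qᵀ = 1) (h2 : Qᵀ * Q = 1)
    (h : HIn (SOs ι) (fun x => Q * f x * Qᵀ) g) (s : ℕ) :
    HIn (SOs (ι ⊕ Fin (s + 1))) (fun x => stb (Fin (s + 1)) (f x))
      (fun x => stb (Fin (s + 1)) (g x)) := by
  have hd : Q.det * Q.det = 1 := by
    have := congrArg Matrix.det h1
    rwa [det_mul, det_transpose, det_one] at this
  set D : Matrix (Fin (s + 1)) (Fin (s + 1)) ℝ :=
    diagonal fun i => if i = 0 then Q.det else 1 with hD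
  have hDT : Dᵀ = D := diagonal_transpose _
  have hDD : D * D = 1 := by
    rw [hD, diagonal_mul_diagonal, ← diagonal_one]
    congr 1
    funext i
    by_cases hi : i = 0
    · simp [hi, hd]
    · simp [hi]
  have hDdet : D.det = Q.det := by
    rw [hD, det_diagonal, Fin.prod_univ_succ]
    simp
  have hW : fromBlocks Q 0 0 D ∈ SOs (ι ⊕ Fin (s + 1)) := by
    refine ⟨?_, ?_⟩
    · rw [fromBlocks_transpose, fromBlocks_multiply, hDT, hDD, ← fromBlocks_one]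
      simp [h2]
    · rw [det_fromBlocks_zero₂₁, hDdet, hd]
  have hF : HIn (SOs (ι ⊕ Fin (s + 1))) (fun x => stb (Fin (s + 1)) (f x))
      (fun x => stb (Fin (s + 1)) (f x)) := HIn.refl (StHB_cont_stb.comp hf)
        fun x => stb_mem (hS x)
  have h3 := HIn.map₂ (hin_const (X := X) _ hW) hF (fun M N => M * N * Mᵀ)
    (by fun_prop) (C := SOs (ι ⊕ Fin (s + 1)))
    (fun M hM N hN => StHB_cj_mem (mul_eq_one_comm.1 hM.1) hM.1 hN)
  simp only [Matrix.one_mul, transpose_one, Matrix.mul_one] at h3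
  have h4 := h.map' (stb (Fin (s + 1))) StHB_cont_stb (B := SOs (ι ⊕ Fin (s + 1)))
    (fun M hM => stb_mem hM)
  have h5 : (fun x => fromBlocks Q 0 0 D * stb (Fin (s + 1)) (f x) * (fromBlocks Q 0 0 D)ᵀ) =
      fun x => stb (Fin (s + 1)) (Q * f x * Qᵀ) := by
    funext x
    unfold stb
    rw [fromBlocks_transpose, fromBlocks_multiply, fromBlocks_multiply, hDT]
    simp [hDD]
  rw [h5] at h3
  exact h3.symm.trans h4

theorem StH.unstable {f g : X → Matrix ι ι ℝ} (h : StH f g) :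
    ∃ r₀ : ℕ, ∀ r ≥ r₀, HIn (SOs (ι ⊕ Fin r)) (fun x => stb (Fin r) (f x))
      (fun x => stb (Fin r) (g x)) := by
  have h0 := StHB_StH.1 h
  obtain ⟨α', β', j1, j2, j3, j4, h0⟩ := h0
  have hf := StHB_of_stb (StHB_Rl_left h0).1 (StHB_Rl_left h0).2
  obtain ⟨α, β, i1, i2, i3, i4, Q, h1, h2, h⟩ := h
  have hcard : Fintype.card α = Fintype.card β := by
    have h3 : Matrix.trace (Q * Qᵀ) = Matrix.trace (Qᵀ * Q) := Matrix.trace_mul_comm _ _
    rw [h1, h2, Matrix.trace_one, Matrix.trace_one, Fintype.card_sum, Fintype.card_sum] at h3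
    have h4 : Fintype.card ι + Fintype.card β = Fintype.card ι + Fintype.card α := by
      exact_mod_cast h3
    omega
  obtain ⟨sg⟩ : Nonempty (α ≃ β) := ⟨Fintype.equivOfCardEq hcard⟩
  set e : ι ⊕ α ≃ ι ⊕ β := Equiv.sumCongr (Equiv.refl ι) sg with he
  have hP : ∀ M : Matrix ι ι ℝ, StHB_pm e * stb α M * (StHB_pm e)ᵀ = stb β M := by
    intro M
    rw [StHB_pm_conj]
    ext i j
    rcases i with i | i <;> rcases j with j | j <;>
      simp [stb, he, Matrix.one_apply]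
  set Q₀ : Matrix (ι ⊕ β) (ι ⊕ β) ℝ := Q * (StHB_pm e)ᵀ with hQ₀
  have q1 : Q₀ * Q₀ᵀ = 1 := by
    rw [hQ₀, transpose_mul, transpose_transpose, Matrix.mul_assoc, ← Matrix.mul_assoc _ _ Qᵀ,
      StHB_pm_2, Matrix.one_mul, h1]
  have q2 : Q₀ᵀ * Q₀ = 1 := mul_eq_one_comm.1 q1
  have h3 : (fun x => Q * stb α (f x) * Qᵀ) = fun x => Q₀ * stb β (f x) * Q₀ᵀ := by
    funext x
    rw [← hP, hQ₀, transpose_mul, transpose_transpose]
    calc Q * stb α (f x) * Qᵀ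
        = Q * (((StHB_pm e)ᵀ * StHB_pm e) * (stb α (f x) * (((StHB_pm e)ᵀ * StHB_pm e) * Qᵀ))) := by
          rw [StHB_pm_2, Matrix.one_mul, Matrix.one_mul, Matrix.mul_assoc]
      _ = _ := by simp only [Matrix.mul_assoc]
  rw [h3] at h
  refine ⟨Fintype.card β + 1, fun r hr => ?_⟩
  obtain ⟨s, hs⟩ : ∃ s, r = Fintype.card β + (s + 1) := ⟨r - Fintype.card β - 1, by omega⟩
  have h5 := StHB_unconj (StHB_cont_stb.comp hf.1) (fun x => stb_mem (hf.2 x)) Q₀ q1 q2 h s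
  have hτ : Nonempty (Fin r ≃ β ⊕ Fin (s + 1)) := by
    refine ⟨Fintype.equivOfCardEq ?_⟩
    rw [Fintype.card_fin, Fintype.card_sum, Fintype.card_fin, hs]
  obtain ⟨τ⟩ := hτ
  set ρ : ι ⊕ Fin r ≃ (ι ⊕ β) ⊕ Fin (s + 1) :=
    (Equiv.sumCongr (Equiv.refl ι) τ).trans (Equiv.sumAssoc ι β (Fin (s + 1))).symm with hρ
  have h6 := h5.map' (fun M => M.submatrix ρ ρ) (continuous_id.matrix_submatrix _ _)
    (B := SOs (ι ⊕ Fin r)) (fun M hM => StHB_sub_mem hM ρ)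
  have h7 : ∀ M : Matrix ι ι ℝ,
      (stb (Fin (s + 1)) (stb β M)).submatrix ρ ρ = stb (Fin r) M := by
    intro M
    have h8 : (stb (Fin (s + 1)) (stb β M)).submatrix ρ ρ =
        (stb (β ⊕ Fin (s + 1)) M).submatrix (Equiv.sumCongr (Equiv.refl ι) τ)
          (Equiv.sumCongr (Equiv.refl ι) τ) := by
      rw [← StHB_assoc, submatrix_submatrix]
      rfl
    rw [h8]
    ext i j
    rcases i with i | i <;> rcases j with j | j <;>
      simp [stb, Matrix.one_apply]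
  simp only [Function.comp_apply, h7] at h6
  exact h6

/-- rotation of the two copies -/
def StHB_rot (ι : Type) [Fintype ι] [DecidableEq ι] (u : ℝ) : Matrix (ι ⊕ ι) (ι ⊕ ι) ℝ :=
  fromBlocks (Real.cos (Real.pi * u / 2) • 1) (-(Real.sin (Real.pi * u / 2) • 1))
    (Real.sin (Real.pi * u / 2) • 1) (Real.cos (Real.pi * u / 2) • 1)

theorem StHB_rot_1 (u : ℝ) : StHB_rot ι u * (StHB_rot ι u)ᵀ = 1 := by
  unfold StHB_rot
  rw [fromBlocks_transpose, fromBlocks_multiply, ← fromBlocks_one]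
  have h := Real.sin_sq_add_cos_sq (Real.pi * u / 2)
  congr 1
  · ext i j
    by_cases hij : i = j
    · subst hij
      simp
      nlinarith
    · simp [hij]
  · ext i j
    by_cases hij : i = j
    · subst hij
      simp
      ring
    · simp [hij]
  · ext i j
    by_cases hij : i = j
    · subst hij
      simp
      ring
    · simp [hij]
  · ext i j
    by_cases hij : i = j
    · subst hij
      simp
      nlinarith
    · simp [hij]

theorem StHB_rot_cont : Continuous (StHB_rot ι) := by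
  unfold StHB_rot
  refine Continuous.matrix_fromBlocks ?_ ?_ ?_ ?_
  · fun_prop
  · fun_prop
  · fun_prop
  · fun_prop

theorem sq_stb {f : X → Matrix ι ι ℝ} (hf : Continuous f) (hS : ∀ x, f x ∈ SOs ι) :
    HIn (SOs (ι ⊕ ι)) (fun x => stb ι (f x * f x)) (fun x => fromBlocks (f x) 0 0 (f x)) := by
  refine ⟨fun p => stb ι (f p.2) * (StHB_rot ι (p.1 : ℝ) * stb ι (f p.2) *
    (StHB_rot ι (p.1 : ℝ))ᵀ), ?_, ?_, ?_, ?_⟩
  · have h1 : Continuous fun p : I × X => stb ι (f p.2) :=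
      StHB_cont_stb.comp (hf.comp continuous_snd)
    have h2 : Continuous fun p : I × X => StHB_rot ι (p.1 : ℝ) :=
      StHB_rot_cont.comp (continuous_subtype_val.comp continuous_fst)
    exact h1.matrix_mul ((h2.matrix_mul h1).matrix_mul h2.matrix_transpose)
  · intro u x
    refine StHB_so_mul (stb_mem (hS x)) (StHB_cj_mem (StHB_rot_1 _)
      (mul_eq_one_comm.1 (StHB_rot_1 _)) (stb_mem (hS x)))
  · intro x
    have h : StHB_rot ι ((0 : I) : ℝ) = 1 := by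
      unfold StHB_rot
      rw [← fromBlocks_one]
      simp
    simp only
    rw [h, transpose_one, Matrix.one_mul, Matrix.mul_one, StHB_stb_mul]
  · intro x
    have h : StHB_rot ι ((1 : I) : ℝ) = fromBlocks 0 (-1) 1 0 := by
      unfold StHB_rot
      simp
    simp only
    rw [h, fromBlocks_transpose]
    unfold stb
    rw [fromBlocks_multiply, fromBlocks_multiply, fromBlocks_multiply]
    simp

end DT
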