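import Pool.Agent.H78.DT.ClSplit
import Pool.Agent.H78.DT.CpxConn
import Pool.Agent.H78.DT.StHB
import Pool.Agent.H78.DT.DesOn

/-!
# The case `n = 0 mod 4` (job DT-CASE0)

PROOF. `n = k+1`, `n = 0 mod 4`, `n ≥ 4`.  By `cl_split`: `p, Q, A`.  `clJ J` has values in `SOs`
(`clJ_mem`), `(J last)ᵀ ∈ SOs` (it is a complex structure, `lin_mem` at `t = 1/2` for
`-(J last)`), so `StH (clJ J) ((J last)ᵀ clJ J)` (`StH.mul_const`) and by `StH.conj` with `Qᵀ`:
`StH (clJ J) f_G`, `f_G (x) = [[csum A x', -x₀], [x₀, (csum A x')ᵀ]]`, `G y = csum A y`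
(`csum A` is linear so `cone1 G = csum A`: `nr v • csum A (nrm v) = csum A v`).
`G` has values in `SOs (Fin p)`: `Gᵀ G = 1`, determinant `±1`, `Sp k` connected (`k ≥ 3`),
`G (0,..,0,1) = A last = 1`.
By `cs_exists` choose `F₁` with `IsCS (stb G) (fromBlocks 0 1 (-1) 0) F₁`; `csplit_cs`:
`f_G ~ F₁`.  Let `r = n + 2` (even), `K_r` a complex structure on `Fin r` (`cpx_even`).
`StH F₁ (stb (Fin r) F₁)`, and `cs_stb`:
`IsCS (stb (Fin r) (stb G)) (K₁ ⊕ K_r) (stb (Fin r) F₁)`.  The index type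
`(Fin p ⊕ Fin p) ⊕ Fin r` has `2p + n + 2` elements; choose a bijection with
`Fin (k+1) ⊕ Fin (2p + 2)` and let `P` be its permutation matrix (orthogonal);
conjugating by `P` (`cs_conj`, `StH.conj`): `StH (clJ J) F₂`, `IsCS g₂ K₂ F₂` over
`Fin (k+1) ⊕ Fin (2p+2)`, `g₂ : Sp k → SOs`, `K₂` a complex structure.
By `destab_onto` there is `g : Sp k → SOs (Fin (k+1))` with `g₂ ~ stb g`; by `quat_exists (k+1)`
there are anticommuting complex structures `Kn, Kn'` on `Fin (k+1)`; by `cpx_conn` a path from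
`K₂` to `Kn ⊕ L`.  Let `IsCS g Kn F₃` (`cs_exists`), so
`IsCS (stb g) (Kn ⊕ L) (stb F₃)`.  `cs_hin`, `cs_K` (choose intermediate maps by `cs_exists`):
`F₂ ~ stb F₃`; and `StH F₃ (stb F₃)`.  So `StH (clJ J) F₃`, and `F₃² ~ 1` by `cs_sq`.
-/

open Matrix Set unitInterval Topology

noncomputable section

namespace DT

theorem case0_cpx_transpose {ι : Type} [Fintype ι] [DecidableEq ι] {K : Matrix ι ι ℝ}
    (h : IsCpx K) : IsCpx Kᵀ := by
  refine ⟨?_, ?_⟩
  · rw [h.1, transpose_neg, h.1]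
  · rw [h.1, neg_mul_neg, h.2]

theorem case0_cpx_mem {ι : Type} [Fintype ι] [DecidableEq ι] {K : Matrix ι ι ℝ}
    (h : IsCpx K) : K ∈ SOs ι := by
  have h1 := lin_mem h (1 / 2)
  have h2 : lin 1 K (1 / 2 : ℝ) = K := by
    unfold lin
    have h3 : Real.pi * (1 / 2) = Real.pi / 2 := by ring
    rw [h3, Real.cos_pi_div_two, Real.sin_pi_div_two, zero_smul, zero_add, one_smul]
  rwa [h2] at h1

theorem case0_cpx_sum {ι κ : Type} [Fintype ι] [DecidableEq ι] [Fintype κ] [DecidableEq κ]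
    {K : Matrix ι ι ℝ} {K' : Matrix κ κ ℝ} (h : IsCpx K) (h' : IsCpx K') :
    IsCpx (fromBlocks K 0 0 K') := by
  refine ⟨?_, ?_⟩
  · rw [fromBlocks_transpose, h.1, h'.1, fromBlocks_neg]
    simp
  · rw [fromBlocks_multiply, h.2, h'.2, ← fromBlocks_one, fromBlocks_neg]
    simp

theorem case0_cpx_conj {ι κ : Type} [Fintype ι] [DecidableEq ι] [Fintype κ] [DecidableEq κ]
    {K : Matrix ι ι ℝ} (h : IsCpx K) (Q : Matrix κ ι ℝ) (h1 : Q * Qᵀ = 1) (h2 : Qᵀ * Q = 1) :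
    IsCpx (Q * K * Qᵀ) := by
  refine ⟨?_, ?_⟩
  · rw [transpose_mul, transpose_mul, transpose_transpose, h.1, Matrix.neg_mul, Matrix.mul_neg,
      Matrix.mul_assoc]
  · have : Q * K * Qᵀ * (Q * K * Qᵀ) = Q * (K * (Qᵀ * Q) * K) * Qᵀ := by
      simp only [Matrix.mul_assoc]
    rw [this, h2, Matrix.mul_one, h.2, Matrix.mul_neg, Matrix.mul_one, Matrix.neg_mul, h1]

theorem case0_cpx_std (κ : Type) [Fintype κ] [DecidableEq κ] :
    IsCpx (fromBlocks 0 1 (-1) 0 : Matrix (κ ⊕ κ) (κ ⊕ κ) ℝ) := by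
  refine ⟨?_, ?_⟩
  · rw [fromBlocks_transpose, fromBlocks_neg]
    simp
  · rw [fromBlocks_multiply, ← fromBlocks_one, fromBlocks_neg]
    simp

theorem case0_conj_mem {ι κ : Type} [Fintype ι] [DecidableEq ι] [Fintype κ] [DecidableEq κ]
    {M : Matrix ι ι ℝ} (h : M ∈ SOs ι) (Q : Matrix κ ι ℝ) (h1 : Q * Qᵀ = 1)
    (h2 : Qᵀ * Q = 1) : Q * M * Qᵀ ∈ SOs κ := by
  refine ⟨?_, ?_⟩
  · have : (Q * M * Qᵀ)ᵀ * (Q * M * Qᵀ) = Q * (Mᵀ * (Qᵀ * Q) * M) * Qᵀ := by
      rw [transpose_mul, transpose_mul, transpose_transpose]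
      simp only [Matrix.mul_assoc]
    rw [this, h2, Matrix.mul_one, h.1, Matrix.mul_one, h1]
  · rw [Matrix.det_conj_of_mul_eq_one h1 h2, h.2]

theorem case0_perm {ι κ : Type} [Fintype ι] [DecidableEq ι] [Fintype κ] [DecidableEq κ]
    (h : Fintype.card ι = Fintype.card κ) :
    ∃ P : Matrix κ ι ℝ, P * Pᵀ = 1 ∧ Pᵀ * P = 1 := by
  let e : ι ≃ κ := Fintype.equivOfCardEq h
  refine ⟨(1 : Matrix κ κ ℝ).submatrix id e, ?_, ?_⟩
  · rw [transpose_submatrix, transpose_one, submatrix_mul_equiv, Matrix.mul_one, submatrix_id_id]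
  · rw [transpose_submatrix, transpose_one]
    have h3 := submatrix_mul_equiv (1 : Matrix κ κ ℝ) (1 : Matrix κ κ ℝ) e (Equiv.refl κ) e
    have h4 : (1 : Matrix κ κ ℝ).submatrix e id * (1 : Matrix κ κ ℝ).submatrix id e =
        (1 * 1 : Matrix κ κ ℝ).submatrix e e := h3
    rw [h4, Matrix.mul_one, submatrix_one_equiv]

theorem case0_csum_cont {ι : Type} [Fintype ι] [DecidableEq ι] {k : ℕ}
    (A : Fin (k + 1) → Matrix ι ι ℝ) : Continuous fun v : Fin (k + 1) → ℝ => csum A v := by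
  unfold csum
  fun_prop

theorem case0_csum_smul {ι : Type} [Fintype ι] [DecidableEq ι] {k : ℕ}
    (A : Fin (k + 1) → Matrix ι ι ℝ) (r : ℝ) (v : Fin (k + 1) → ℝ) :
    csum A (r • v) = r • csum A v := by
  unfold csum
  rw [Finset.smul_sum]
  refine Finset.sum_congr rfl fun i _ => ?_
  rw [Pi.smul_apply, smul_eq_mul, mul_smul]

theorem case0_csum_mem {ι : Type} [Fintype ι] [DecidableEq ι] {k : ℕ} (hk : 1 ≤ k)
    (A : Fin (k + 1) → Matrix ι ι ℝ) (hA1 : A (Fin.last k) = 1)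
    (hA : ∀ v : Fin (k + 1) → ℝ, (csum A v)ᵀ * csum A v = (v ⬝ᵥ v) • 1)
    (v : Fin (k + 1) → ℝ) (hv : v ∈ US (Fin (k + 1))) : csum A v ∈ SOs ι := by
  have hv1 : v ⬝ᵥ v = 1 := hv
  have h1 : (csum A v)ᵀ * csum A v = 1 := by rw [hA, hv1, one_smul]
  refine ⟨h1, ?_⟩
  have h2 := congrArg Matrix.det h1
  rw [det_mul, det_transpose, det_one] at h2
  have hne : ∀ w : Fin (k + 1) → ℝ, w ≠ 0 → (csum A w).det ≠ 0 := by
    intro w hw h0
    have h3 := congrArg Matrix.det (hA w)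
    rw [det_mul, det_transpose, h0, mul_zero, det_smul, det_one, mul_one] at h3
    have h4 : w ⬝ᵥ w = 0 := by
      by_contra h5
      exact pow_ne_zero _ h5 h3.symm
    exact hw (dotProduct_self_eq_zero.1 h4)
  have hpos : 0 < (csum A v).det := by
    by_contra hcon
    push Not at hcon
    have hr : 1 < Module.rank ℝ (Fin (k + 1) → ℝ) := by
      rw [rank_fun', Fintype.card_fin]
      exact_mod_cast (by omega : 1 < k + 1)
    have hc : IsPreconnected ({(0 : Fin (k + 1) → ℝ)}ᶜ : Set (Fin (k + 1) → ℝ)) :=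
      (isPathConnected_compl_singleton_of_one_lt_rank hr 0).isConnected.isPreconnected
    have he : (Pi.single (Fin.last k) 1 : Fin (k + 1) → ℝ) ∈
        ({(0 : Fin (k + 1) → ℝ)}ᶜ : Set (Fin (k + 1) → ℝ)) := by
      intro h
      have h6 := congrFun (h : (Pi.single (Fin.last k) 1 : Fin (k + 1) → ℝ) = 0) (Fin.last k)
      rw [Pi.single_eq_same] at h6
      exact one_ne_zero h6
    have hv0 : v ∈ ({(0 : Fin (k + 1) → ℝ)}ᶜ : Set (Fin (k + 1) → ℝ)) := by
      intro h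
      have h6 : v = 0 := h
      rw [h6, zero_dotProduct] at hv1
      exact zero_ne_one hv1
    have hcont : ContinuousOn (fun w : Fin (k + 1) → ℝ => (csum A w).det)
        ({(0 : Fin (k + 1) → ℝ)}ᶜ : Set (Fin (k + 1) → ℝ)) :=
      (case0_csum_cont A).matrix_det.continuousOn
    have hE : (csum A (Pi.single (Fin.last k) 1)).det = 1 := by
      have : csum A (Pi.single (Fin.last k) 1) = 1 := by
        unfold csum
        rw [Finset.sum_eq_single (Fin.last k)]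
        · rw [Pi.single_eq_same, one_smul, hA1]
        · intro b _ hb
          rw [Pi.single_eq_of_ne hb, zero_smul]
        · intro h
          exact absurd (Finset.mem_univ _) h
      rw [this, det_one]
    have hI := hc.intermediate_value hv0 he hcont
    have h0 : (0 : ℝ) ∈ Icc ((csum A v).det) ((csum A (Pi.single (Fin.last k) 1)).det) := by
      rw [hE]
      exact ⟨hcon, zero_le_one⟩
    obtain ⟨w, hw, hw0⟩ := hI h0
    exact hne w hw hw0
  nlinarith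

theorem case0_cone1 {ι : Type} [Fintype ι] [DecidableEq ι] {k : ℕ}
    (A : Fin (k + 1) → Matrix ι ι ℝ) (v : Fin (k + 1) → ℝ) :
    cone1 (fun y : Sp k => csum A y.1) v = csum A v := by
  unfold cone1
  by_cases hv : v = 0
  · rw [hv, cone_zero]
    have := case0_csum_smul A 0 0
    rw [zero_smul, zero_smul] at this
    exact this.symm
  · rw [cone_eq_of_ne _ _ hv, ← case0_csum_smul, nr_smul_nrm]

theorem case0_stb_cont {X ι α : Type} [TopologicalSpace X] [Fintype ι] [DecidableEq ι] [Fintype α]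
    [DecidableEq α] {f : X → Matrix ι ι ℝ} (hf : Continuous f) :
    Continuous fun x => stb α (f x) := by
  unfold stb
  exact hf.matrix_fromBlocks continuous_const continuous_const continuous_const

theorem case0_clJ_cont {ι : Type} [Fintype ι] [DecidableEq ι] {n : ℕ}
    (J : Fin n → Matrix ι ι ℝ) : Continuous fun x : Sp n => clJ J x.1 := by
  unfold clJ
  have h : ∀ i : Fin (n + 1), Continuous fun x : Sp n => x.1 i := fun i =>
    (continuous_apply i).comp continuous_subtype_val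
  exact ((h 0).smul continuous_const).add
    (continuous_finsetSum _ fun i _ => (h i.succ).smul continuous_const)

theorem case0 (k : ℕ) (hk : (k + 1) % 4 = 0) {p : ℕ}
    (J : Fin (k + 1) → Matrix (Fin p) (Fin p) ℝ) (hJ : CliffJ J) :
    ∃ g : Sp (k + 1) → Matrix (Fin (k + 1)) (Fin (k + 1)) ℝ, Continuous g ∧
      (∀ x, g x ∈ SOs (Fin (k + 1))) ∧
      HIn (SOs (Fin (k + 1))) (fun x => g x * g x) (fun _ => 1) ∧
      StH (fun x : Sp (k + 1) => clJ J x.1) g := by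
  obtain ⟨q, Q, A, hQ1, hQ2, hA1, hAs, hAf⟩ := cl_split k hk J hJ
  have hk1 : 1 ≤ k := by omega
  have hcl : ∀ x : Sp (k + 1), clJ J x.1 ∈ SOs (Fin p) := fun x =>
    clJ_mem (k + 1) (by omega) J hJ x.1 x.2
  have hclc : Continuous fun x : Sp (k + 1) => clJ J x.1 := case0_clJ_cont J
  have hL : (J (Fin.last k))ᵀ ∈ SOs (Fin p) :=
    case0_cpx_mem (case0_cpx_transpose (hJ.1 (Fin.last k)))
  have s1 := StH.mul_const hclc hcl _ hL
  have s2 := StH.conj (f := fun x : Sp (k + 1) => (J (Fin.last k))ᵀ * clJ J x.1)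
    (continuous_const.mul hclc) (fun x => by
      refine ⟨?_, ?_⟩
      · rw [transpose_mul, Matrix.mul_assoc, ← Matrix.mul_assoc _ _ (clJ J x.1), hL.1,
          Matrix.one_mul, (hcl x).1]
      · rw [det_mul, hL.2, (hcl x).2, mul_one]) Qᵀ (by rw [transpose_transpose, hQ2])
    (by rw [transpose_transpose, hQ1])
  set G : Sp k → Matrix (Fin q) (Fin q) ℝ := fun y => csum A y.1 with hGdef
  have hG : Continuous G := (case0_csum_cont A).comp continuous_subtype_val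
  have hGS : ∀ y, G y ∈ SOs (Fin q) := fun y => case0_csum_mem hk1 A hA1 hAs y.1 y.2
  obtain ⟨F₁, hF1, hF1S⟩ := cs_exists (fun y => stb (Fin q) (G y)) (case0_stb_cont hG)
    (fun y => stb_mem (hGS y)) _ (case0_cpx_std (Fin q))
  have s3 := StH.of_hin (csplit_cs k G hG hGS F₁ hF1)
  have e1 : (fun x : Sp (k + 1) => Qᵀ * ((J (Fin.last k))ᵀ * clJ J x.1) * Qᵀᵀ) =
      fun x : Sp (k + 1) => fromBlocks (cone1 G (Fin.tail x.1)) (-(x.1 0 • 1)) (x.1 0 • 1)
        (cone1 G (Fin.tail x.1))ᵀ := by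
    funext x
    rw [transpose_transpose, hAf, hGdef, case0_cone1]
  rw [e1] at s2
  have s4 : StH (fun x : Sp (k + 1) => clJ J x.1) F₁ := (s1.trans s2).trans s3
  obtain ⟨Kr, hKr⟩ : ∃ K : Matrix (Fin (k + 3)) (Fin (k + 3)) ℝ, IsCpx K :=
    cpx_even.2 (by rw [Fintype.card_fin, Nat.even_iff]; omega)
  have s5 := s4.trans (StH.stb_right hF1.1 hF1S (Fin (k + 3)))
  have c1 := cs_stb hF1 hKr
  obtain ⟨P, hP1, hP2⟩ := case0_perm (ι := (Fin q ⊕ Fin q) ⊕ Fin (k + 3))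
    (κ := Fin (k + 1) ⊕ Fin (2 * q + 2)) (by
      simp only [Fintype.card_sum, Fintype.card_fin]
      omega)
  have c2 := cs_conj c1 P hP1 hP2
  have s6 := s5.trans (StH.conj (case0_stb_cont hF1.1) (fun x => stb_mem (hF1S x)) P hP1 hP2)
  obtain ⟨K₂, hK₂def⟩ : ∃ K₂ : Matrix (Fin (k + 1) ⊕ Fin (2 * q + 2))
      (Fin (k + 1) ⊕ Fin (2 * q + 2)) ℝ, P * (fromBlocks (fromBlocks 0 1 (-1) 0) 0 0 Kr :
      Matrix ((Fin q ⊕ Fin q) ⊕ Fin (k + 3)) ((Fin q ⊕ Fin q) ⊕ Fin (k + 3)) ℝ) * Pᵀ = K₂ :=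
    ⟨_, rfl⟩
  have hK₂ : IsCpx K₂ := by
    rw [← hK₂def]
    exact case0_cpx_conj (case0_cpx_sum (case0_cpx_std (Fin q)) hKr) P hP1 hP2
  rw [hK₂def] at c2
  obtain ⟨g, hgc, hgS, hgH⟩ := destab_onto k
    (fun y => P * stb (Fin (k + 3)) (stb (Fin q) (G y)) * Pᵀ)
    ((continuous_const.matrix_mul (case0_stb_cont (case0_stb_cont hG))).matrix_mul
      continuous_const)
    (fun y => case0_conj_mem (stb_mem (stb_mem (hGS y))) P hP1 hP2)
  obtain ⟨Kn, Kn', hKn, hKn', hKK⟩ := quat_exists (k + 1) hk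
  obtain ⟨L', γ, hL', hγc, hγ, hγ0, hγ1⟩ := cpx_conn K₂ hK₂ Kn hKn
  obtain ⟨F₃, hF3, hF3S⟩ := cs_exists g hgc hgS Kn hKn
  have hF3' := cs_stb hF3 hL'
  obtain ⟨F₄, hF4, hF4S⟩ := cs_exists (fun y => stb (Fin (2 * q + 2)) (g y))
    (case0_stb_cont hgc) (fun y => stb_mem (hgS y)) K₂ hK₂
  have t1 := cs_hin hgH hK₂ c2 hF4
  have t2 := cs_K (case0_stb_cont hgc) (fun y => stb_mem (hgS y)) γ hγc hγ
    (by rw [hγ0]; exact hF4) (by rw [hγ1]; exact hF3')
  exact ⟨F₃, hF3.1, hF3S, cs_sq hgc hgS hKn hKn' hKK hF3,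
    (s6.trans (StH.of_hin (t1.trans t2))).trans
      (StH.stb_right hF3.1 hF3S (Fin (2 * q + 2))).symm⟩

end DT
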