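import Pool.Agent.H78.DT.ClProd
import Pool.Agent.H78.DT.CS

/-!
# Clifford maps for `n = 0 mod 4` are commutator suspensions (job DT-CLSPLIT)

(1) `cl_split`.  `n = k+1`, `n = 0 mod 4`.  PROOF. Let `L = J (last)`, `J'_i = -L J_i` for
`i < k` (`i : Fin k`, `J (castSucc i)`), `J'' = -L`.  Since the `J`s are anticommuting skew complex
structures: `J'_i` and `J''` are `k + 1` pairwise anticommuting skew complex structures
(`(L J_i)ᵀ = J_i L = -L J_i`; `L J_i L J_i = -L² J_i² = -1`; `J'_i J'_j = L J_i L J_j =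
-L² J_i J_j = J_i J_j`; `L (L J_i) + (L J_i) L = -J_i + J_i = 0`), and
`Lᵀ clJ J v = -L (v₀ + ∑_{i<k} v_{i+1} J_i + v_{k+1} L)
 = v₀ J'' + ∑_{i<k} v_{i+1} J'_i + v_{k+1}`.
Let `ω` be as in `clprod k J'` (`k = 3 mod 4`): `s_k = (-1)^(k(k+1)/2) = 1`, so `ωᵀ = ω`,
`ω² = 1`, `ω` commutes with the `J'_i` (`(-1)^{k+1} = 1`) and anticommutes with `J''`
(`(-1)^k = -1`).  Let `W = ker (ω - 1)`, `p = dim W`, and let the columns of `V : ι × Fin p` be an
orthonormal basis of `W`; `J'' W = ker (ω + 1)`, and `Q = [V, J'' V]` (matrix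
`ι × (Fin p ⊕ Fin p)`) is orthogonal.  With `I_i = Vᵀ J'_i V` one gets
`Qᵀ J'_i Q = I_i ⊕ (-I_i)`, `Qᵀ J'' Q = [[0, -1], [1, 0]]`.
Put `A_i = I_i` (`i < k`), `A_k = 1`; `I_i` skew, anticommuting complex structures, so
`(csum A v)ᵀ csum A v = (v ⬝ᵥ v) 1`, and
`Qᵀ (Lᵀ clJ J v) Q = [[csum A (tail v), -v₀], [v₀, (csum A (tail v))ᵀ]]`.
(2) `csplit_cs`.  For `G : Sp k → SOs κ` let `f (x) = [[Ĝ(x'), -x₀], [x₀, Ĝ(x')ᵀ]]`, `Ĝ = cone1 G`,
`x = (x₀, x')`.  PROOF. For `x = susp (t, y)`, `θ = πt`: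
`f = [[sin θ G, -cos θ], [cos θ, sin θ Gᵀ]] = (G ⊕ 1) R (1 ⊕ Gᵀ)`,
`R = [[sin θ, -cos θ], [cos θ, sin θ]] = R' J`, `J = [[0,-1],[1,0]]`,
`R' = exp(-θJ) = [[cos θ, sin θ], [-sin θ, cos θ]] = lin 1 [[0,1],[-1,0]] t`.  As
`J (1 ⊕ Gᵀ) = (Gᵀ ⊕ 1) J`: `f = (G ⊕ 1) R' (G ⊕ 1)ᵀ J = [G ⊕ 1, R'] R' J = F (x) * R(x)` with
`R(x) = [[nr x', -x₀], [x₀, nr x']]`, continuous with values in `SOs (κ ⊕ κ)` (it is a rotation
by an angle, `nr x'² + x₀² = 1`).  `R ~ 1` by
`R_u = [[c, -s], [s, c]]`, `s = u x₀`, `c = √(1 - u²x₀²)`.  Hence `f = F R ~ F`.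
-/

open Matrix Set unitInterval Topology

noncomputable section

namespace DT

set_option linter.deprecated false
set_option linter.unusedSectionVars false
set_option linter.unusedSimpArgs false

section aux

variable {ι κ : Type} [Fintype ι] [DecidableEq ι] [Fintype κ] [DecidableEq κ]

private theorem ClSplit_basis (P : Matrix ι ι ℝ) (hT : Pᵀ = P) (hP : P * P = P) :
    ∃ (p : ℕ) (V : Matrix ι (Fin p) ℝ), Vᵀ * V = 1 ∧ V * Vᵀ = P := by
  let W : Submodule ℝ (EuclideanSpace ℝ ι) := LinearMap.range (Matrix.toEuclideanLin P)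
  obtain ⟨b⟩ : Nonempty (OrthonormalBasis (Fin (Module.finrank ℝ W)) ℝ W) :=
    ⟨stdOrthonormalBasis ℝ W⟩
  generalize Module.finrank ℝ W = p at b
  let v : Fin p → EuclideanSpace ℝ ι := fun j => (b j : EuclideanSpace ℝ ι)
  have hv : ∀ j, v j ∈ W := fun j => (b j).2
  have hon : ∀ i j, inner ℝ (v i) (v j) = if i = j then (1 : ℝ) else 0 := by
    intro i j
    have h := (orthonormal_iff_ite.1 b.orthonormal) i j
    rw [← h, Submodule.coe_inner]
  have hsum : ∀ x ∈ W, ∑ i, inner ℝ (v i) x • v i = x := by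
    intro x hx
    have h4 := b.sum_repr' (⟨x, hx⟩ : W)
    have h5 := congrArg (fun z : W => (z : EuclideanSpace ℝ ι)) h4
    simp only [AddSubmonoidClass.coe_finsetSum, Submodule.coe_smul, Submodule.coe_inner] at h5
    exact h5
  clear_value v
  clear b
  have hinner : ∀ x y : EuclideanSpace ℝ ι, inner ℝ x y = ∑ a, x a * y a := by
    intro x y
    rw [PiLp.inner_apply]
    refine Finset.sum_congr rfl fun a _ => ?_
    simp only [RCLike.inner_apply, conj_trivial]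
    rw [mul_comm]
  have hPx : ∀ x ∈ W, Matrix.toEuclideanLin P x = x := by
    rintro x ⟨y, rfl⟩
    rw [Matrix.toEuclideanLin_apply, Matrix.toEuclideanLin_apply]
    simp only [Matrix.mulVec_mulVec, hP]
  let V : Matrix ι (Fin p) ℝ := Matrix.of fun i j => v j i
  have h1 : Vᵀ * V = 1 := by
    ext i j
    rw [Matrix.one_apply, ← hon, hinner]
    rfl
  have h2 : P * V = V := by
    ext i j
    have h4 := congrArg (fun z : EuclideanSpace ℝ ι => z i) (hPx _ (hv j))
    simp only [Matrix.toEuclideanLin_apply] at h4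
    exact h4
  have h3 : V * (Vᵀ * P) = P := by
    ext i j
    have hmem : Matrix.toEuclideanLin P (EuclideanSpace.single j (1 : ℝ)) ∈ W :=
      ⟨_, rfl⟩
    have h5 := congrArg (fun z : EuclideanSpace ℝ ι => z i) (hsum _ hmem)
    have h6 : ∀ a, (Matrix.toEuclideanLin P (EuclideanSpace.single j (1 : ℝ)) :
        EuclideanSpace ℝ ι) a = P a j := by
      intro a
      simp [Matrix.toEuclideanLin_apply]
    simp only [h6, hinner] at h5
    rw [← h5, Matrix.mul_apply]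
    simp only [WithLp.ofLp_sum, Finset.sum_apply, WithLp.ofLp_smul, Pi.smul_apply, smul_eq_mul]
    refine Finset.sum_congr rfl fun a _ => ?_
    rw [mul_comm]
    rfl
  refine ⟨_, V, h1, ?_⟩
  have h4 := congrArg Matrix.transpose h3
  rw [transpose_mul, transpose_mul, transpose_transpose, hT, h2] at h4
  exact h4

private theorem clSplit_sq {m : ℕ} (A : Fin m → Matrix κ κ ℝ)
    (h : ∀ i j, (A i)ᵀ * A j + (A j)ᵀ * A i = if i = j then (2 : ℝ) • (1 : Matrix κ κ ℝ) else 0)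
    (v : Fin m → ℝ) :
    (∑ i, v i • A i)ᵀ * (∑ i, v i • A i) = (v ⬝ᵥ v) • 1 := by
  have e1 : (∑ i, v i • A i)ᵀ * (∑ i, v i • A i) = ∑ i, ∑ j, (v i * v j) • ((A i)ᵀ * A j) := by
    rw [Matrix.transpose_sum, Finset.sum_mul]
    refine Finset.sum_congr rfl fun i _ => ?_
    rw [Finset.mul_sum]
    refine Finset.sum_congr rfl fun j _ => ?_
    rw [transpose_smul, smul_mul_assoc, mul_smul_comm, smul_smul]
  have e2 : (∑ i, v i • A i)ᵀ * (∑ i, v i • A i) = ∑ i, ∑ j, (v i * v j) • ((A j)ᵀ * A i) := by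
    rw [e1, Finset.sum_comm]
    refine Finset.sum_congr rfl fun i _ => Finset.sum_congr rfl fun j _ => ?_
    rw [mul_comm (v j)]
  have e3 : (2 : ℝ) • ((∑ i, v i • A i)ᵀ * (∑ i, v i • A i))
      = (2 : ℝ) • ((v ⬝ᵥ v) • (1 : Matrix κ κ ℝ)) := by
    rw [two_smul]
    nth_rewrite 1 [e1]
    rw [e2, ← Finset.sum_add_distrib]
    have e4 : ∀ i, (∑ j, (v i * v j) • ((A i)ᵀ * A j) + ∑ j, (v i * v j) • ((A j)ᵀ * A i))
        = (v i * v i) • ((2 : ℝ) • (1 : Matrix κ κ ℝ)) := by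
      intro i
      rw [← Finset.sum_add_distrib, Finset.sum_eq_single i]
      · rw [← smul_add, h, if_pos rfl]
      · intro j _ hj
        rw [← smul_add, h, if_neg hj.symm, smul_zero]
      · intro h'
        exact absurd (Finset.mem_univ i) h'
    rw [Finset.sum_congr rfl fun i _ => e4 i, ← Finset.sum_smul, smul_comm]
    rfl
  exact smul_right_injective _ (two_ne_zero' ℝ) e3

private theorem clSplit_so_mul {A B : Matrix κ κ ℝ} (hA : A ∈ SOs κ) (hB : B ∈ SOs κ) :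
    A * B ∈ SOs κ := by
  refine ⟨?_, ?_⟩
  · rw [transpose_mul, Matrix.mul_assoc, ← Matrix.mul_assoc Aᵀ, hA.1, Matrix.one_mul, hB.1]
  · rw [Matrix.det_mul, hA.2, hB.2, one_mul]

end aux

theorem cl_split {ι : Type} [Fintype ι] [DecidableEq ι] (k : ℕ) (hk : (k + 1) % 4 = 0)
    (J : Fin (k + 1) → Matrix ι ι ℝ) (hJ : CliffJ J) :
    ∃ (p : ℕ) (Q : Matrix ι (Fin p ⊕ Fin p) ℝ) (A : Fin (k + 1) → Matrix (Fin p) (Fin p) ℝ),
      Q * Qᵀ = 1 ∧ Qᵀ * Q = 1 ∧ A (Fin.last k) = 1 ∧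
      (∀ v : Fin (k + 1) → ℝ, (csum A v)ᵀ * csum A v = (v ⬝ᵥ v) • 1) ∧
      ∀ v : Fin (k + 2) → ℝ, Qᵀ * ((J (Fin.last k))ᵀ * clJ J v) * Q =
        fromBlocks (csum A (Fin.tail v)) (-(v 0 • 1)) (v 0 • 1) (csum A (Fin.tail v))ᵀ := by
  obtain ⟨m, hm⟩ : ∃ m, k + 1 = 4 * m := ⟨(k + 1) / 4, by omega⟩
  have hs1 : (-1 : ℝ) ^ (k * (k + 1) / 2) = 1 := by
    have : k * (k + 1) / 2 = 2 * (k * m) := by
      rw [hm, show k * (4 * m) = 2 * (2 * (k * m)) by ring]
      simp
    rw [this, pow_mul]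
    norm_num
  have hs2 : (-1 : ℝ) ^ (k + 1) = 1 := by
    rw [hm, pow_mul]
    norm_num
  have hs3 : (-1 : ℝ) ^ k = -1 := by
    rw [pow_succ] at hs2
    linarith
  obtain ⟨hJ1, hJ2⟩ := hJ
  set L := J (Fin.last k) with hL
  have hLT : Lᵀ = -L := (hJ1 _).1
  have hLL : L * L = -1 := (hJ1 _).2
  have hLJ : ∀ i : Fin k, J (Fin.castSucc i) * L = -(L * J (Fin.castSucc i)) := fun i =>
    hJ2 _ _ (Fin.castSucc_lt_last i).ne
  -- the new generators
  set J' : Fin k → Matrix ι ι ℝ := fun i => -(L * J (Fin.castSucc i)) with hJ'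
  set N : Matrix ι ι ℝ := -L with hN
  have hNT : Nᵀ = -N := by rw [hN, transpose_neg, hLT]
  have hNN : N * N = -1 := by rw [hN, neg_mul_neg, hLL]
  have hJ'T : ∀ i, (J' i)ᵀ = -J' i := by
    intro i
    simp only [hJ']
    rw [transpose_neg, transpose_mul, hLT, (hJ1 _).1, neg_mul_neg, hLJ, neg_neg]
  have hprod : ∀ i j : Fin k, J' i * J' j = J (Fin.castSucc i) * J (Fin.castSucc j) := by
    intro i j
    simp only [hJ']
    rw [neg_mul_neg]
    calc L * J (Fin.castSucc i) * (L * J (Fin.castSucc j))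
        = L * (J (Fin.castSucc i) * L) * J (Fin.castSucc j) := by simp only [Matrix.mul_assoc]
      _ = -(L * L * J (Fin.castSucc i) * J (Fin.castSucc j)) := by
          rw [hLJ]
          simp only [Matrix.mul_neg, Matrix.neg_mul, Matrix.mul_assoc]
      _ = J (Fin.castSucc i) * J (Fin.castSucc j) := by
          rw [hLL]
          simp only [Matrix.neg_mul, Matrix.one_mul, neg_neg]
  have hJ'J' : ∀ i, J' i * J' i = -1 := fun i => by rw [hprod, (hJ1 _).2]
  have hanti : ∀ i j : Fin k, i ≠ j → J' i * J' j = -(J' j * J' i) := by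
    intro i j hij
    rw [hprod, hprod]
    exact hJ2 _ _ (fun h => hij (Fin.castSucc_injective k h))
  have hNJ : ∀ i, N * J' i = -(J' i * N) := by
    intro i
    have h1 : N * J' i = -J (Fin.castSucc i) := by
      simp only [hJ', hN]
      rw [neg_mul_neg, ← Matrix.mul_assoc, hLL, Matrix.neg_mul, Matrix.one_mul]
    have h2 : J' i * N = J (Fin.castSucc i) := by
      simp only [hJ', hN]
      rw [neg_mul_neg, Matrix.mul_assoc, hLJ, Matrix.mul_neg, ← Matrix.mul_assoc, hLL,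
        Matrix.neg_mul, Matrix.one_mul, neg_neg]
    rw [h1, h2]
  have hCl : CliffJ J' := ⟨fun i => ⟨hJ'T i, hJ'J' i⟩, hanti⟩
  clear_value J' N
  obtain ⟨ω, w1, w2, w3, w4, -⟩ := clprod k J' hCl
  rw [hs1, one_smul] at w1 w2
  simp only [hs2, one_smul] at w3
  have hNω : N * ω = -(ω * N) := by
    have := w4 N hNJ
    rw [hs3, neg_smul, one_smul] at this
    exact this
  clear w4
  -- the projection
  set P : Matrix ι ι ℝ := (1 / 2 : ℝ) • (1 + ω) with hPdef
  have hPT : Pᵀ = P := by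
    rw [hPdef, transpose_smul, transpose_add, transpose_one, w1]
  have hωP : ω * P = P := by
    rw [hPdef, mul_smul_comm, mul_add, w2, mul_one, add_comm]
  have hPP : P * P = P := by
    nth_rewrite 1 [hPdef]
    rw [smul_mul_assoc, add_mul, one_mul, hωP, ← two_smul ℝ P, smul_smul]
    norm_num
  obtain ⟨p, V, v1, v2⟩ := ClSplit_basis P hPT hPP
  have hPV : P * V = V := by rw [← v2, Matrix.mul_assoc, v1, Matrix.mul_one]
  have hωV : ω * V = V := by
    nth_rewrite 1 [← hPV]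
    rw [← Matrix.mul_assoc, hωP, hPV]
  have hVω : Vᵀ * ω = Vᵀ := by
    have := congrArg Matrix.transpose hωV
    rw [transpose_mul, w1] at this
    exact this
  have hVP : Vᵀ * P = Vᵀ := by
    have := congrArg Matrix.transpose hPV
    rw [transpose_mul, hPT] at this
    exact this
  have hz : ∀ M : Matrix ι ι ℝ, M * ω = -(ω * M) → Vᵀ * M * V = 0 := by
    intro M hM
    have h1 : Vᵀ * M * V = -(Vᵀ * M * V) := by
      calc Vᵀ * M * V = Vᵀ * (M * ω) * V := by
            rw [Matrix.mul_assoc, Matrix.mul_assoc, Matrix.mul_assoc, hωV]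
        _ = -(Vᵀ * ω * M * V) := by
            rw [hM]
            simp only [Matrix.mul_neg, Matrix.neg_mul, Matrix.mul_assoc]
        _ = -(Vᵀ * M * V) := by rw [hVω]
    have h2 : (2 : ℝ) • (Vᵀ * M * V) = 0 := by
      rw [two_smul]
      nth_rewrite 1 [h1]
      rw [neg_add_cancel]
    exact (smul_eq_zero.1 h2).resolve_left two_ne_zero
  have hNVT : (N * V)ᵀ = -(Vᵀ * N) := by
    rw [transpose_mul, hNT, Matrix.mul_neg]
  have z1 : Vᵀ * N * V = 0 := hz N hNω
  have z2 : ∀ i, Vᵀ * (J' i * N) * V = 0 := by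
    intro i
    apply hz
    rw [Matrix.mul_assoc, hNω, Matrix.mul_neg, ← Matrix.mul_assoc, ← w3 i, Matrix.mul_assoc]
  set Q : Matrix ι (Fin p ⊕ Fin p) ℝ := fromCols V (N * V) with hQdef
  have hQT : Qᵀ = fromRows Vᵀ (N * V)ᵀ := transpose_fromCols _ _
  have hQ : ∀ M : Matrix ι ι ℝ, Qᵀ * M * Q = fromBlocks (Vᵀ * M * V) (Vᵀ * M * (N * V))
      ((N * V)ᵀ * M * V) ((N * V)ᵀ * M * (N * V)) := by
    intro M
    rw [hQT, fromRows_mul, hQdef, fromRows_mul_fromCols]
  have q1 : Qᵀ * Q = 1 := by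
    have h := hQ 1
    rw [Matrix.mul_one] at h
    rw [h, ← fromBlocks_one]
    congr 1
    · rw [Matrix.mul_one, v1]
    · rw [Matrix.mul_one, ← Matrix.mul_assoc, z1]
    · rw [Matrix.mul_one, hNVT, Matrix.neg_mul, z1, neg_zero]
    · rw [Matrix.mul_one, hNVT, Matrix.neg_mul, Matrix.mul_assoc, ← Matrix.mul_assoc N, hNN,
        Matrix.neg_mul, Matrix.one_mul, Matrix.mul_neg, neg_neg, v1]
  have q2 : Q * Qᵀ = 1 := by
    rw [hQT, hQdef, fromCols_mul_fromRows, transpose_mul, v2]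
    have h1 : N * V * (Vᵀ * Nᵀ) = N * P * Nᵀ := by
      rw [← v2]
      simp only [Matrix.mul_assoc]
    have h2 : N * P = ((1 / 2 : ℝ) • (1 - ω)) * N := by
      rw [hPdef, mul_smul_comm, mul_add, mul_one, hNω, smul_mul_assoc, sub_mul, one_mul,
        sub_eq_add_neg]
    rw [h1, h2, Matrix.mul_assoc, hNT, Matrix.mul_neg, hNN, neg_neg, Matrix.mul_one, hPdef,
      ← smul_add]
    have h3 : (1 : Matrix ι ι ℝ) + ω + (1 - ω) = (2 : ℝ) • 1 := by
      rw [two_smul]
      abel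
    rw [h3, smul_smul]
    norm_num
  -- the blocks
  have bJ : ∀ i, Qᵀ * J' i * Q = fromBlocks (Vᵀ * J' i * V) 0 0 (Vᵀ * J' i * V)ᵀ := by
    intro i
    rw [hQ]
    congr 1
    · rw [Matrix.mul_assoc, ← Matrix.mul_assoc (J' i), ← Matrix.mul_assoc, z2]
    · have h1 : (N * V)ᵀ * J' i * V = Vᵀ * (J' i * N) * V := by
        rw [hNVT, Matrix.neg_mul, Matrix.mul_assoc Vᵀ, hNJ, Matrix.mul_neg, neg_neg]
      rw [h1, z2]
    · have h1 : (N * V)ᵀ * J' i * (N * V) = -(Vᵀ * (N * J' i * N) * V) := by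
        rw [hNVT]
        simp only [Matrix.neg_mul, Matrix.mul_assoc]
      have h2 : N * J' i * N = J' i := by
        rw [hNJ, Matrix.neg_mul, Matrix.mul_assoc, hNN, Matrix.mul_neg, Matrix.mul_one, neg_neg]
      rw [h1, h2, transpose_mul, transpose_mul, transpose_transpose, hJ'T, Matrix.neg_mul,
        Matrix.mul_neg, Matrix.mul_assoc]
  have bN : Qᵀ * N * Q = fromBlocks 0 (-1) 1 0 := by
    rw [hQ]
    have h1 : N * (N * V) = -V := by
      rw [← Matrix.mul_assoc, hNN, Matrix.neg_mul, Matrix.one_mul]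
    congr 1
    · rw [Matrix.mul_assoc, h1, Matrix.mul_neg, v1]
    · rw [hNVT, Matrix.neg_mul, Matrix.neg_mul, Matrix.mul_assoc, Matrix.mul_assoc, h1,
        Matrix.mul_neg, neg_neg, v1]
    · rw [hNVT, Matrix.neg_mul, Matrix.neg_mul, Matrix.mul_assoc, Matrix.mul_assoc, h1,
        Matrix.mul_neg, Matrix.mul_neg, neg_neg, ← Matrix.mul_assoc, z1]
  -- the final family
  set A : Fin (k + 1) → Matrix (Fin p) (Fin p) ℝ :=
    Fin.snoc (α := fun _ => Matrix (Fin p) (Fin p) ℝ) (fun i => Vᵀ * J' i * V) 1 with hA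
  have hAc : ∀ i : Fin k, A (Fin.castSucc i) = Vᵀ * J' i * V := fun i => by
    simp only [hA, Fin.snoc_castSucc]
  have hAl : A (Fin.last k) = 1 := by simp only [hA, Fin.snoc_last]
  have hAT : ∀ i : Fin k, (A (Fin.castSucc i))ᵀ = -A (Fin.castSucc i) := by
    intro i
    rw [hAc, transpose_mul, transpose_mul, transpose_transpose, hJ'T, Matrix.neg_mul,
      Matrix.mul_neg, Matrix.mul_assoc]
  have hAA : ∀ i j : Fin k, A (Fin.castSucc i) * A (Fin.castSucc j) =
      Vᵀ * (J' i * J' j) * V := by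
    intro i j
    rw [hAc, hAc]
    have h1 : J' i * P = P * J' i := by
      rw [hPdef, mul_smul_comm, smul_mul_assoc, mul_add, add_mul, mul_one, one_mul, w3 i]
    calc Vᵀ * J' i * V * (Vᵀ * J' j * V) = Vᵀ * (J' i * (V * Vᵀ)) * J' j * V := by
          simp only [Matrix.mul_assoc]
      _ = Vᵀ * P * J' i * J' j * V := by
          rw [v2, h1]
          simp only [Matrix.mul_assoc]
      _ = Vᵀ * (J' i * J' j) * V := by
          rw [hVP]
          simp only [Matrix.mul_assoc]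
  refine ⟨p, Q, A, q2, q1, hAl, fun v => ?_, fun v => ?_⟩
  · refine clSplit_sq A (fun i j => ?_) v
    refine Fin.lastCases ?_ (fun i' => ?_) i <;> refine Fin.lastCases ?_ (fun j' => ?_) j
    · rw [if_pos rfl, hAl, transpose_one, Matrix.one_mul, two_smul]
    · rw [if_neg (Fin.castSucc_lt_last j').ne', hAl, transpose_one, Matrix.one_mul,
        Matrix.mul_one, hAT, add_neg_cancel]
    · rw [if_neg (Fin.castSucc_lt_last i').ne, hAl, transpose_one, Matrix.one_mul,
        Matrix.mul_one, hAT, neg_add_cancel]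
    · rw [hAT, hAT, Matrix.neg_mul, Matrix.neg_mul, hAA, hAA]
      by_cases hij : i' = j'
      · subst hij
        rw [if_pos rfl, hJ'J', Matrix.mul_neg, Matrix.neg_mul, Matrix.mul_one, v1, neg_neg,
          two_smul]
      · rw [if_neg (fun h => hij (Fin.castSucc_injective k h)), hanti i' j' hij]
        simp only [Matrix.mul_neg, Matrix.neg_mul, neg_neg]
        rw [add_neg_cancel]
  · have h1 : (L)ᵀ * clJ J v = v 0 • N + ∑ i : Fin k, v (Fin.castSucc i).succ • J' i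
        + v (Fin.last k).succ • 1 := by
      have hNL : N * L = 1 := by rw [hN, neg_mul, hLL, neg_neg]
      have hNJc : ∀ i, N * J (Fin.castSucc i) = J' i := fun i => by rw [hN, hJ', neg_mul]
      unfold clJ
      rw [Fin.sum_univ_castSucc, hLT, ← hL, mul_add, mul_add, mul_smul_comm, mul_smul_comm,
        mul_one, Finset.mul_sum, hNL, ← add_assoc]
      congr 2
      refine Finset.sum_congr rfl fun i _ => ?_
      rw [mul_smul_comm, hNJc]
    have h2 : csum A (Fin.tail v) = ∑ i : Fin k, v (Fin.castSucc i).succ • (Vᵀ * J' i * V)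
        + v (Fin.last k).succ • 1 := by
      unfold csum
      rw [Fin.sum_univ_castSucc, hAl]
      congr 1
      refine Finset.sum_congr rfl fun i _ => ?_
      rw [hAc]
      rfl
    have h3 : ∑ i : Fin k, v (Fin.castSucc i).succ •
        fromBlocks (Vᵀ * J' i * V) 0 0 (Vᵀ * J' i * V)ᵀ =
        fromBlocks (∑ i : Fin k, v (Fin.castSucc i).succ • (Vᵀ * J' i * V)) 0 0
          (∑ i : Fin k, v (Fin.castSucc i).succ • (Vᵀ * J' i * V))ᵀ := by
      ext x y
      rcases x with x | x <;> rcases y with y | y <;>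
        simp [Matrix.sum_apply, fromBlocks_smul, Matrix.transpose_sum]
    rw [h1, h2, Matrix.mul_add, Matrix.mul_add, Matrix.add_mul, Matrix.add_mul, Matrix.mul_smul,
      Matrix.smul_mul, bN, Matrix.mul_smul, Matrix.smul_mul, Matrix.mul_one, q1, Matrix.mul_sum,
      Matrix.sum_mul]
    have h4 : ∑ i : Fin k, Qᵀ * v (Fin.castSucc i).succ • J' i * Q = ∑ i : Fin k,
        v (Fin.castSucc i).succ • fromBlocks (Vᵀ * J' i * V) 0 0 (Vᵀ * J' i * V)ᵀ := by
      refine Finset.sum_congr rfl fun i _ => ?_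
      rw [Matrix.mul_smul, Matrix.smul_mul, bJ]
    rw [h4, h3, ← fromBlocks_one, fromBlocks_smul, fromBlocks_smul, fromBlocks_add,
      fromBlocks_add, transpose_add, transpose_smul, transpose_one]
    simp

theorem csplit_cs {κ : Type} [Fintype κ] [DecidableEq κ] (k : ℕ) (G : Sp k → Matrix κ κ ℝ)
    (hG : Continuous G) (hS : ∀ y, G y ∈ SOs κ) (F : Sp (k + 1) → Matrix (κ ⊕ κ) (κ ⊕ κ) ℝ)
    (hF : IsCS (fun y => stb κ (G y)) (fromBlocks 0 1 (-1) 0) F) :
    HIn (SOs (κ ⊕ κ)) (fun x : Sp (k + 1) => fromBlocks (cone1 G (Fin.tail x.1))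
      (-(x.1 0 • 1)) (x.1 0 • 1) (cone1 G (Fin.tail x.1))ᵀ) F := by
  have hK : IsCpx (fromBlocks 0 1 (-1) 0 : Matrix (κ ⊕ κ) (κ ⊕ κ) ℝ) := by
    refine ⟨?_, ?_⟩
    · rw [fromBlocks_transpose, fromBlocks_neg]
      simp
    · rw [fromBlocks_multiply, ← fromBlocks_one, fromBlocks_neg]
      simp
  have hK' : IsCpx (fromBlocks 0 (-1) 1 0 : Matrix (κ ⊕ κ) (κ ⊕ κ) ℝ) := by
    refine ⟨?_, ?_⟩
    · rw [fromBlocks_transpose, fromBlocks_neg]
      simp
    · rw [fromBlocks_multiply, ← fromBlocks_one, fromBlocks_neg]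
      simp
  have hstb : ∀ y, stb κ (G y) ∈ SOs (κ ⊕ κ) := by
    intro y
    refine ⟨?_, ?_⟩
    · unfold stb
      rw [fromBlocks_transpose, fromBlocks_multiply, ← fromBlocks_one]
      simp [(hS y).1]
    · unfold stb
      rw [Matrix.det_fromBlocks_zero₂₁, (hS y).2, Matrix.det_one, one_mul]
  have hFm : ∀ x, F x ∈ SOs (κ ⊕ κ) := fun x => cs_mem hstb hK hF x
  have hlin : Continuous fun t : ℝ => lin (1 : Matrix (κ ⊕ κ) (κ ⊕ κ) ℝ)
      (fromBlocks 0 (-1) 1 0) t := by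
    unfold lin
    fun_prop
  refine ⟨fun q => F q.2 * lin 1 (fromBlocks 0 (-1) 1 0)
    (Real.arcsin ((1 - (q.1 : ℝ)) * q.2.1 0) / Real.pi), ?_, ?_, ?_, ?_⟩
  · refine (hF.1.comp continuous_snd).matrix_mul (hlin.comp ?_)
    refine Continuous.div_const (Real.continuous_arcsin.comp ?_) _
    refine (continuous_const.sub (continuous_subtype_val.comp continuous_fst)).mul ?_
    exact (continuous_apply 0).comp (continuous_subtype_val.comp continuous_snd)
  · intro u x
    exact clSplit_so_mul (hFm x) (lin_mem hK' _)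
  · intro x
    obtain ⟨⟨t, y⟩, rfl⟩ := susp_surj x
    show F (susp (t, y)) * lin 1 (fromBlocks 0 (-1) 1 0)
      (Real.arcsin ((1 - ((0 : I) : ℝ)) * (susp (t, y)).1 0) / Real.pi) =
        fromBlocks (cone1 G (Fin.tail (susp (t, y)).1)) (-((susp (t, y)).1 0 • 1))
          ((susp (t, y)).1 0 • 1) (cone1 G (Fin.tail (susp (t, y)).1))ᵀ
    have hx0 : (susp (t, y)).1 0 = Real.cos (Real.pi * (t : ℝ)) := rfl
    have hs : 0 ≤ Real.sin (Real.pi * (t : ℝ)) := cone_sin_nonneg t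
    have hc1 : cone1 G (Fin.tail (susp (t, y)).1) = Real.sin (Real.pi * (t : ℝ)) • G y := by
      unfold cone1
      exact cone_susp (fun q : Unit × Sp k => G q.2) () (t, y)
    have hpi : Real.pi * (Real.arcsin (Real.cos (Real.pi * (t : ℝ))) / Real.pi)
        = Real.arcsin (Real.cos (Real.pi * (t : ℝ))) := by
      field_simp
    have hsq : √(1 - Real.cos (Real.pi * (t : ℝ)) ^ 2) = Real.sin (Real.pi * (t : ℝ)) := by
      rw [← Real.sin_sq, Real.sqrt_sq hs]
    rw [hF.2, hx0, hc1]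
    have hu0 : (1 - ((0 : I) : ℝ)) = 1 := by simp
    rw [hu0, one_mul]
    unfold lin stb
    rw [hpi, Real.sin_arcsin (Real.neg_one_le_cos _) (Real.cos_le_one _), Real.cos_arcsin, hsq]
    have hGG : G y * (G y)ᵀ = 1 := mul_eq_one_comm.1 (hS y).1
    have hcs := Real.sin_sq_add_cos_sq (Real.pi * (t : ℝ))
    generalize Real.sin (Real.pi * (t : ℝ)) = s at *
    generalize Real.cos (Real.pi * (t : ℝ)) = c at *
    have e1 : (c • (1 : Matrix (κ ⊕ κ) (κ ⊕ κ) ℝ) + s • fromBlocks 0 1 (-1) 0)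
        = fromBlocks (c • 1) (s • 1) (-(s • 1)) (c • 1) := by
      rw [← fromBlocks_one, fromBlocks_smul, fromBlocks_smul, fromBlocks_add]
      simp
    have e2 : (s • (1 : Matrix (κ ⊕ κ) (κ ⊕ κ) ℝ) + c • fromBlocks 0 (-1) 1 0)
        = fromBlocks (s • 1) (-(c • 1)) (c • 1) (s • 1) := by
      rw [← fromBlocks_one, fromBlocks_smul, fromBlocks_smul, fromBlocks_add]
      simp
    rw [e1, e2]
    simp only [fromBlocks_transpose, fromBlocks_multiply, transpose_smul, transpose_neg,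
      transpose_one, transpose_zero, Matrix.mul_one, Matrix.one_mul, Matrix.mul_zero,
      Matrix.zero_mul, add_zero, zero_add, Matrix.mul_smul, Matrix.smul_mul, Matrix.mul_neg,
      Matrix.neg_mul, hGG, smul_smul, smul_neg, neg_smul, neg_neg]
    simp only [smul_zero, neg_zero, add_zero, zero_add, Matrix.smul_mul, hGG, Matrix.neg_mul,
      Matrix.one_mul]
    congr 1
    · calc _ = (s * (s ^ 2 + c ^ 2)) • G y := by module
        _ = s • G y := by rw [hcs, mul_one]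
    · calc _ = -((c * (s ^ 2 + c ^ 2)) • (1 : Matrix κ κ ℝ)) := by module
        _ = -(c • (1 : Matrix κ κ ℝ)) := by rw [hcs, mul_one]
    · calc _ = (c * (s ^ 2 + c ^ 2)) • (1 : Matrix κ κ ℝ) := by module
        _ = c • (1 : Matrix κ κ ℝ) := by rw [hcs, mul_one]
    · calc _ = (s * (s ^ 2 + c ^ 2)) • (G y)ᵀ := by module
        _ = s • (G y)ᵀ := by rw [hcs, mul_one]
  · intro x
    show F x * lin 1 (fromBlocks 0 (-1) 1 0)
      (Real.arcsin ((1 - ((1 : I) : ℝ)) * x.1 0) / Real.pi) = _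
    have hu1 : (1 - ((1 : I) : ℝ)) = 0 := by simp
    rw [hu1, zero_mul, Real.arcsin_zero, zero_div]
    unfold lin
    simp

end DT
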