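import Pool.Agent.H78.DT.Cone

/-!
# The polynomial maps `(x, b) ↦ (x, b^k)` and `y ↦ 2 y₀ y - |y|² N` (job DT-PK)

`pk k m (x, b) = (x, b^k)`, `x ∈ ℝᵐ`, `b ∈ ℂ` (the last two coordinates).  `gq y = 2 y₀ y - (y⬝y) N`.
(1) `pk` is smooth (induction on `m`; polynomial), `|pk (x,b)|² = |x|² + |b|^(2k)`; so it vanishes
only at `0` (`k ≥ 1`), and if `|x|² + |b|² ≥ 1` then `|x|² ≥ 1/2` or `|b|² ≥ 1/2`, so `|pk|² ≥ (1/2)^k`.
(2) Jacobian matrix of `pk k m`: block matrix `1 ⊕ [[Re c, -Im c],[Im c, Re c]]`, `c = k b^(k-1)`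
(induction on `m`: define it recursively by `Fin.cons`, `HasFDerivAt`; `Matrix.det_succ_row_zero` or
`fromBlocks`), its determinant is `|c|² ≥ 0`, `> 0` if `b ≠ 0`.
(3) `gq`: `nr (gq y) = (nr y)²`: `|gq y|² = 4y₀²|y|² - 4 y₀² |y|² + |y|⁴`.  Its derivative at `y` is
`w ↦ 2 (y₀ w + w₀ y - (y⬝w) N) = 2 A w`, `⟪A w, w⟫ = y₀ |w|²`.  The dimension `m + 2` is even.
If `y₀ > 0`, `det A > 0`: `(1-t) A + t` is injective for `t ∈ [0,1]` (`⟪·w, w⟫ > 0`), so its determinant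
does not vanish, intermediate value theorem.  If `y₀ < 0`, `det A = (-1)^(m+2) det (-A) = det (-A) > 0`.
If `y₀ = 0`: there is `w ≠ 0` with `w ⊥ y`, `w ⊥ N` (dimension `m + 2 ≥ 3`), `A w = 0`, `det A = 0`.
(4) `P = gq ∘ pk k m`: chain rule `det DP(x) = det Dgq(pk x) det Dpk(x)`.
The last property: given `r > 0`, let `c = √(r/2) > 0`, `b = c^(1/k)` (real), `x = (c, 0,..,0)`: `pk (x,b) =
(c, 0, .., 0, c, 0)`, `|pk|² = 2c² = r`, `nr (P (x,b)) = |pk|² = r`, `y₀ = c > 0`, `b ≠ 0`.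
(`m ≥ 1`, so the coordinate `0` is not one of the last two.)
-/

open Matrix Set unitInterval Topology
open scoped ContDiff

noncomputable section

namespace DT

/-- The map `(x, b) ↦ (x, b^k)`, `b` = the last two coordinates. -/
def pk (k : ℕ) : (m : ℕ) → (Fin (m + 2) → ℝ) → (Fin (m + 2) → ℝ)
  | 0 => fun v => ![((⟨v 0, v 1⟩ : ℂ) ^ k).re, ((⟨v 0, v 1⟩ : ℂ) ^ k).im]
  | m + 1 => fun v => Fin.cons (v 0) (pk k m (Fin.tail v))

/-- `y ↦ 2 y₀ y - |y|² N`. -/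
def gq {N : ℕ} (y : Fin (N + 1) → ℝ) : Fin (N + 1) → ℝ := (2 * y 0) • y - (y ⬝ᵥ y) • north N

theorem Pk_north_dot {N : ℕ} (y : Fin (N + 1) → ℝ) : north N ⬝ᵥ y = y 0 := by
  unfold north
  simp [dotProduct, Fin.sum_univ_succ]

theorem Pk_dot_north {N : ℕ} (y : Fin (N + 1) → ℝ) : y ⬝ᵥ north N = y 0 := by
  rw [dotProduct_comm, Pk_north_dot]

theorem Pk_north_zero (N : ℕ) : north N 0 = 1 := rfl

theorem Pk_gq_dot {N : ℕ} (y : Fin (N + 1) → ℝ) : gq y ⬝ᵥ gq y = (y ⬝ᵥ y) ^ 2 := by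
  unfold gq
  rw [sub_dotProduct, dotProduct_sub, dotProduct_sub, smul_dotProduct, smul_dotProduct,
    smul_dotProduct, smul_dotProduct, dotProduct_smul, dotProduct_smul, dotProduct_smul,
    dotProduct_smul, Pk_dot_north, Pk_north_dot, Pk_north_dot, Pk_north_zero]
  simp only [smul_eq_mul]
  ring

theorem gq_nr {N : ℕ} (y : Fin (N + 1) → ℝ) : nr (gq y) = nr y ^ 2 := by
  rw [cone_nr_sq]
  unfold nr
  rw [Pk_gq_dot, Real.sqrt_sq (cone_dot_nonneg y)]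

theorem gq_smul {N : ℕ} (c : ℝ) (y : Fin (N + 1) → ℝ) : gq (c • y) = c ^ 2 • gq y := by
  unfold gq
  rw [smul_dotProduct, dotProduct_smul, Pi.smul_apply]
  simp only [smul_eq_mul, smul_sub, smul_smul]
  congr 2 <;> ring

theorem pk_ne (k m : ℕ) (hk : 1 ≤ k) (v : Fin (m + 2) → ℝ) (hv : v ≠ 0) : pk k m v ≠ 0 := by
  induction m with
  | zero =>
    intro h
    apply hv
    have h0 : ((⟨v 0, v 1⟩ : ℂ) ^ k).re = 0 := congrFun h 0
    have h1 : ((⟨v 0, v 1⟩ : ℂ) ^ k).im = 0 := congrFun h 1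
    have h2 : (⟨v 0, v 1⟩ : ℂ) ^ k = 0 := Complex.ext h0 h1
    have h3 : (⟨v 0, v 1⟩ : ℂ) = 0 := pow_eq_zero_iff (by omega) |>.1 h2
    have h4 : v 0 = 0 := congrArg Complex.re h3
    have h5 : v 1 = 0 := congrArg Complex.im h3
    ext j
    fin_cases j
    · exact h4
    · exact h5
  | succ m ih =>
    intro h
    apply hv
    have h0 : v 0 = 0 := congrFun h 0
    have h1 : pk k m (Fin.tail v) = 0 := by
      ext j
      exact congrFun h j.succ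
    have h2 : Fin.tail v = 0 := by
      by_contra h3
      exact ih _ h3 h1
    ext j
    refine Fin.cases h0 (fun j => ?_) j
    exact congrFun h2 j

theorem Pk_cx_smooth {X : Type*} [NormedAddCommGroup X] [NormedSpace ℝ X] {f g : X → ℝ}
    (hf : ContDiff ℝ ∞ f) (hg : ContDiff ℝ ∞ g) :
    ContDiff ℝ ∞ (fun x => (⟨f x, g x⟩ : ℂ)) := by
  have e : (fun x => (⟨f x, g x⟩ : ℂ)) = fun x => (f x : ℂ) + (g x : ℂ) * Complex.I := by
    funext x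
    exact Complex.mk_eq_add_mul_I _ _
  rw [e]
  exact (Complex.ofRealCLM.contDiff.comp hf).add
    ((Complex.ofRealCLM.contDiff.comp hg).mul contDiff_const)

theorem pk_smooth (k m : ℕ) : ContDiff ℝ ∞ (pk k m) := by
  induction m with
  | zero =>
    have h0 : ContDiff ℝ ∞ (fun v : Fin 2 → ℝ => (⟨v 0, v 1⟩ : ℂ) ^ k) :=
      (Pk_cx_smooth (contDiff_apply ℝ ℝ 0) (contDiff_apply ℝ ℝ 1)).pow k
    rw [contDiff_pi]
    intro j
    fin_cases j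
    · exact Complex.reCLM.contDiff.comp h0
    · exact Complex.imCLM.contDiff.comp h0
  | succ m ih =>
    rw [contDiff_pi]
    intro j
    refine Fin.cases ?_ (fun j => ?_) j
    · exact contDiff_apply ℝ ℝ 0
    · have h1 : ContDiff ℝ ∞ (fun v : Fin (m + 3) → ℝ => (Fin.tail v : Fin (m + 2) → ℝ)) := by
        rw [contDiff_pi]
        intro i
        exact contDiff_apply ℝ ℝ i.succ
      exact (contDiff_pi.1 (ih.comp h1)) j

theorem Pk_dot (k : ℕ) : ∀ (m : ℕ) (v : Fin (m + 2) → ℝ), ∃ a b : ℝ, 0 ≤ a ∧ 0 ≤ b ∧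
    v ⬝ᵥ v = a + b ∧ pk k m v ⬝ᵥ pk k m v = a + b ^ k
  | 0, v => by
    refine ⟨0, Complex.normSq ⟨v 0, v 1⟩, le_rfl, Complex.normSq_nonneg _, ?_, ?_⟩
    · simp [dotProduct, Fin.sum_univ_two, Complex.normSq_apply]
    · rw [← map_pow]
      simp [pk, dotProduct, Fin.sum_univ_two, Complex.normSq_apply]
  | m + 1, v => by
    obtain ⟨a, b, ha, hb, h1, h2⟩ := Pk_dot k m (Fin.tail v)
    refine ⟨v 0 * v 0 + a, b, add_nonneg (mul_self_nonneg _) ha, hb, ?_, ?_⟩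
    · have h3 := cone_dot_tail (k := m + 1) v
      rw [h3]
      linarith
    · have h3 := cone_dot_tail (k := m + 1) (pk k (m + 1) v)
      rw [h3]
      show v 0 * v 0 + pk k m (Fin.tail v) ⬝ᵥ pk k m (Fin.tail v) = _
      rw [h2]
      ring

/-! ### Derivatives -/

theorem Pk_line {X Y : Type*} [NormedAddCommGroup X] [NormedSpace ℝ X] [NormedAddCommGroup Y]
    [NormedSpace ℝ Y] {f : X → Y} {x h : X} {d : Y} (hf : DifferentiableAt ℝ f x)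
    (hd : HasDerivAt (fun t : ℝ => f (x + t • h)) d 0) : fderiv ℝ f x h = d := by
  have h1 : HasLineDerivAt ℝ f (fderiv ℝ f x h) x h := hf.hasFDerivAt.hasLineDerivAt h
  exact HasDerivAt.unique h1 hd

theorem Pk_gq_smooth {N : ℕ} : ContDiff ℝ ∞ (gq : (Fin (N + 1) → ℝ) → (Fin (N + 1) → ℝ)) := by
  unfold gq
  have h0 : ContDiff ℝ ∞ (fun y : Fin (N + 1) → ℝ => y 0) := contDiff_apply ℝ ℝ 0
  have h1 : ContDiff ℝ ∞ (fun y : Fin (N + 1) → ℝ => y ⬝ᵥ y) := by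
    unfold dotProduct
    exact ContDiff.sum fun i _ => (contDiff_apply ℝ ℝ i).mul (contDiff_apply ℝ ℝ i)
  exact ((contDiff_const.mul h0).smul contDiff_id).sub (h1.smul contDiff_const)

theorem Pk_gq_fderiv {N : ℕ} (y h : Fin (N + 1) → ℝ) : fderiv ℝ gq y h =
    (2 * y 0) • h + (2 * h 0) • y - (2 * (y ⬝ᵥ h)) • north N := by
  apply Pk_line (Pk_gq_smooth.differentiable (by simp) y)
  have e : (fun t : ℝ => gq (y + t • h)) = fun t : ℝ =>
      gq y + t • ((2 * y 0) • h + (2 * h 0) • y - (2 * (y ⬝ᵥ h)) • north N) +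
        t ^ 2 • gq h := by
    funext t
    unfold gq
    rw [add_dotProduct, dotProduct_add, dotProduct_add, smul_dotProduct, smul_dotProduct,
      dotProduct_smul, dotProduct_smul, dotProduct_comm h y]
    simp only [Pi.add_apply, Pi.smul_apply, smul_eq_mul]
    module
  rw [e]
  have h1 : HasDerivAt (fun t : ℝ => gq y +
      t • ((2 * y 0) • h + (2 * h 0) • y - (2 * (y ⬝ᵥ h)) • north N) + t ^ 2 • gq h)
      (0 + (1 : ℝ) • ((2 * y 0) • h + (2 * h 0) • y - (2 * (y ⬝ᵥ h)) • north N) +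
        ((2 : ℕ) * (0 : ℝ) ^ (2 - 1)) • gq h) 0 :=
    ((hasDerivAt_const (0 : ℝ) (gq y)).add
      ((hasDerivAt_id (0 : ℝ)).smul_const _)).add ((hasDerivAt_pow 2 (0 : ℝ)).smul_const _)
  refine h1.congr_deriv ?_
  simp

/-- The matrix of the derivative of `gq`. -/
def PkA {N : ℕ} (y : Fin (N + 1) → ℝ) : Matrix (Fin (N + 1)) (Fin (N + 1)) ℝ :=
  (2 : ℝ) • ((y 0) • (1 : Matrix (Fin (N + 1)) (Fin (N + 1)) ℝ) +
    (Matrix.of fun i j => (![y i, -(north N i)] : Fin 2 → ℝ) j) *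
      (Matrix.of fun i j => (![north N j, y j] : Fin 2 → ℝ) i))

theorem Pk_gq_det {N : ℕ} (y : Fin (N + 1) → ℝ) :
    (fderiv ℝ gq y).det = (PkA y).det := by
  have h : ((fderiv ℝ gq y : (Fin (N + 1) → ℝ) →L[ℝ] (Fin (N + 1) → ℝ)) :
      (Fin (N + 1) → ℝ) →ₗ[ℝ] (Fin (N + 1) → ℝ)) = Matrix.toLin' (PkA y) := by
    refine LinearMap.ext fun h => ?_
    show fderiv ℝ gq y h = Matrix.toLin' (PkA y) h
    rw [Pk_gq_fderiv, Matrix.toLin'_apply]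
    unfold PkA
    ext i
    rw [Matrix.smul_mulVec, Matrix.add_mulVec, Matrix.smul_mulVec, Matrix.one_mulVec]
    have h1 : (((Matrix.of fun i j => (![y i, -(north N i)] : Fin 2 → ℝ) j) *
      (Matrix.of fun i j => (![north N j, y j] : Fin 2 → ℝ) i)) *ᵥ h) i =
        y i * h 0 - north N i * (y ⬝ᵥ h) := by
      rw [← Matrix.mulVec_mulVec]
      have h2 : (Matrix.of fun (i : Fin 2) j => (![north N j, y j] : Fin 2 → ℝ) i) *ᵥ h =
          ![h 0, y ⬝ᵥ h] := by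
        ext l
        fin_cases l
        · show north N ⬝ᵥ h = h 0
          exact Pk_north_dot h
        · rfl
      rw [h2]
      simp only [Matrix.mulVec, dotProduct, Fin.sum_univ_two, Matrix.of_apply,
        Matrix.cons_val_zero, Matrix.cons_val_one]
      ring
    simp only [Pi.smul_apply, Pi.add_apply, Pi.sub_apply, smul_eq_mul, h1]
    ring
  show LinearMap.det ((fderiv ℝ gq y : (Fin (N + 1) → ℝ) →L[ℝ] (Fin (N + 1) → ℝ)) :
      (Fin (N + 1) → ℝ) →ₗ[ℝ] (Fin (N + 1) → ℝ)) = _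
  rw [h, LinearMap.det_toLin']

theorem Pk_A_det {m : ℕ} {y : Fin (m + 2) → ℝ} (hy : y 0 ≠ 0) :
    (PkA y).det = 2 ^ (m + 2) * (y 0 ^ m * (y ⬝ᵥ y)) := by
  unfold PkA
  rw [Matrix.det_smul, Fintype.card_fin]
  congr 1
  have e : (y 0) • (1 : Matrix (Fin (m + 2)) (Fin (m + 2)) ℝ) +
      (Matrix.of fun i j => (![y i, -(north (m + 1) i)] : Fin 2 → ℝ) j) *
      (Matrix.of fun i j => (![north (m + 1) j, y j] : Fin 2 → ℝ) i) =
      (y 0) • (1 + ((y 0)⁻¹ • (Matrix.of fun i j => (![y i, -(north (m + 1) i)] : Fin 2 → ℝ) j)) *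
      (Matrix.of fun i j => (![north (m + 1) j, y j] : Fin 2 → ℝ) i)) := by
    rw [smul_add, Matrix.smul_mul, smul_smul, mul_inv_cancel₀ hy, one_smul]
  rw [e, Matrix.det_smul, Fintype.card_fin, Matrix.det_one_add_mul_comm, Matrix.mul_smul]
  have h2 : (Matrix.of fun (i : Fin 2) j => (![north (m + 1) j, y j] : Fin 2 → ℝ) i) *
      (Matrix.of fun i j => (![y i, -(north (m + 1) i)] : Fin 2 → ℝ) j) =
      !![y 0, -1; y ⬝ᵥ y, -(y 0)] := by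
    ext a b
    fin_cases a <;> fin_cases b
    · show north (m + 1) ⬝ᵥ y = y 0
      exact Pk_north_dot y
    · show north (m + 1) ⬝ᵥ (fun i => -(north (m + 1) i)) = -1
      have : (fun i => -(north (m + 1) i)) = -north (m + 1) := rfl
      rw [this, dotProduct_neg, Pk_north_dot, Pk_north_zero]
    · rfl
    · show y ⬝ᵥ (fun i => -(north (m + 1) i)) = -(y 0)
      have : (fun i => -(north (m + 1) i)) = -north (m + 1) := rfl
      rw [this, dotProduct_neg, Pk_dot_north]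
  rw [h2, Matrix.det_fin_two]
  simp only [Matrix.add_apply, Matrix.smul_apply, Matrix.one_apply_eq, Matrix.of_apply,
    Matrix.cons_val_zero, Matrix.cons_val_one, smul_eq_mul]
  rw [Matrix.one_apply_ne (by decide), Matrix.one_apply_ne (by decide)]
  rw [pow_add]
  field_simp
  ring

theorem Pk_A_smooth {m : ℕ} (y : Fin (m + 2) → ℝ) :
    Continuous (fun t : ℝ => (PkA (y + t • north (m + 1))).det) := by
  refine Continuous.matrix_det ?_
  unfold PkA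
  refine continuous_matrix fun i j => ?_
  simp only [Matrix.smul_apply, Matrix.add_apply, Matrix.mul_apply, Fin.sum_univ_two,
    Matrix.of_apply, Matrix.cons_val_zero, Matrix.cons_val_one, Pi.add_apply, Pi.smul_apply,
    smul_eq_mul]
  fun_prop

theorem Pk_A_nonneg {m : ℕ} (he : m % 2 = 0) (y : Fin (m + 2) → ℝ) : 0 ≤ (PkA y).det := by
  have hev : Even m := Nat.even_iff.2 he
  have h1 : ∀ z : Fin (m + 2) → ℝ, z 0 ≠ 0 → 0 ≤ (PkA z).det := by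
    intro z hz
    rw [Pk_A_det hz]
    have := hev.pow_nonneg (z 0)
    have := cone_dot_nonneg z
    positivity
  by_cases hy : y 0 = 0
  · have hc := (Pk_A_smooth y).continuousAt (x := 0)
    have hc' : Filter.Tendsto (fun t : ℝ => (PkA (y + t • north (m + 1))).det) (𝓝[≠] 0)
        (𝓝 ((PkA (y + (0 : ℝ) • north (m + 1))).det)) := hc.tendsto.mono_left nhdsWithin_le_nhds
    rw [zero_smul, add_zero] at hc'
    refine ge_of_tendsto hc' ?_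
    filter_upwards [self_mem_nhdsWithin] with t ht
    apply h1
    show y 0 + t * north (m + 1) 0 ≠ 0
    rw [hy, Pk_north_zero, zero_add, mul_one]
    exact ht
  · exact h1 y hy

theorem Pk_A_pos {m : ℕ} {y : Fin (m + 2) → ℝ} (hy : 0 < y 0) : 0 < (PkA y).det := by
  rw [Pk_A_det hy.ne']
  have h1 : 0 < y ⬝ᵥ y := by
    have h2 := cone_dot_tail (k := m) y
    rw [h2]
    have := cone_dot_nonneg (Fin.tail y)
    positivity
  positivity

theorem Pk_zero_fderiv (k : ℕ) (v w : Fin 2 → ℝ) : fderiv ℝ (pk k 0) v w =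
    ![(((k : ℂ) * (⟨v 0, v 1⟩ : ℂ) ^ (k - 1)) * ⟨w 0, w 1⟩).re,
      (((k : ℂ) * (⟨v 0, v 1⟩ : ℂ) ^ (k - 1)) * ⟨w 0, w 1⟩).im] := by
  apply Pk_line ((pk_smooth k 0).differentiable (by simp) v)
  have h1 : HasDerivAt (fun t : ℝ => (⟨(v + t • w) 0, (v + t • w) 1⟩ : ℂ)) (⟨w 0, w 1⟩ : ℂ) 0 := by
    have e : (fun t : ℝ => (⟨(v + t • w) 0, (v + t • w) 1⟩ : ℂ)) = fun t : ℝ =>
        (⟨v 0, v 1⟩ : ℂ) + t • (⟨w 0, w 1⟩ : ℂ) := by
      funext t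
      apply Complex.ext <;> simp
    rw [e]
    have h2 := ((hasDerivAt_id (0 : ℝ)).smul_const (⟨w 0, w 1⟩ : ℂ)).const_add (⟨v 0, v 1⟩ : ℂ)
    refine h2.congr_deriv ?_
    simp
  have h2 := h1.pow k
  have h3 : HasDerivAt (fun t : ℝ => (⟨(v + t • w) 0, (v + t • w) 1⟩ : ℂ) ^ k)
      (((k : ℂ) * (⟨v 0, v 1⟩ : ℂ) ^ (k - 1)) * ⟨w 0, w 1⟩) 0 := by
    refine h2.congr_deriv ?_
    simp
  rw [hasDerivAt_pi]
  intro j
  fin_cases j
  · exact Complex.reCLM.hasFDerivAt.comp_hasDerivAt (0 : ℝ) h3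
  · exact Complex.imCLM.hasFDerivAt.comp_hasDerivAt (0 : ℝ) h3

theorem Pk_zero_det (k : ℕ) (v : Fin 2 → ℝ) : (fderiv ℝ (pk k 0) v).det =
    Complex.normSq ((k : ℂ) * (⟨v 0, v 1⟩ : ℂ) ^ (k - 1)) := by
  show LinearMap.det ((fderiv ℝ (pk k 0) v : (Fin 2 → ℝ) →L[ℝ] (Fin 2 → ℝ)) :
      (Fin 2 → ℝ) →ₗ[ℝ] (Fin 2 → ℝ)) = _
  have h0 : fderiv ℝ (pk k 0) v (Pi.single 0 1) =
      ![((k : ℂ) * (⟨v 0, v 1⟩ : ℂ) ^ (k - 1)).re, ((k : ℂ) * (⟨v 0, v 1⟩ : ℂ) ^ (k - 1)).im] := by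
    rw [Pk_zero_fderiv]
    simp
  have h1 : fderiv ℝ (pk k 0) v (Pi.single 1 1) =
      ![-((k : ℂ) * (⟨v 0, v 1⟩ : ℂ) ^ (k - 1)).im, ((k : ℂ) * (⟨v 0, v 1⟩ : ℂ) ^ (k - 1)).re] := by
    rw [Pk_zero_fderiv]
    simp
  have h2 : ((fderiv ℝ (pk k 0) v : (Fin 2 → ℝ) →L[ℝ] (Fin 2 → ℝ)) :
      (Fin 2 → ℝ) →ₗ[ℝ] (Fin 2 → ℝ)).toMatrix' =
      !![((k : ℂ) * (⟨v 0, v 1⟩ : ℂ) ^ (k - 1)).re, -((k : ℂ) * (⟨v 0, v 1⟩ : ℂ) ^ (k - 1)).im;
        ((k : ℂ) * (⟨v 0, v 1⟩ : ℂ) ^ (k - 1)).im, ((k : ℂ) * (⟨v 0, v 1⟩ : ℂ) ^ (k - 1)).re] := by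
    ext i j
    rw [LinearMap.toMatrix'_apply]
    fin_cases j
    · show fderiv ℝ (pk k 0) v (Pi.single 0 1) i = _
      rw [h0]
      fin_cases i <;> rfl
    · show fderiv ℝ (pk k 0) v (Pi.single 1 1) i = _
      rw [h1]
      fin_cases i <;> rfl
  rw [← LinearMap.det_toMatrix', h2, Matrix.det_fin_two, Complex.normSq_apply]
  simp only [Matrix.of_apply, Matrix.cons_val_zero, Matrix.cons_val_one]
  ring

theorem Pk_succ_det (k m : ℕ) (v : Fin (m + 3) → ℝ) :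
    (fderiv ℝ (pk k (m + 1)) v).det = (fderiv ℝ (pk k m) (Fin.tail v)).det := by
  let e : (ℝ × (Fin (m + 2) → ℝ)) ≃L[ℝ] (Fin (m + 3) → ℝ) :=
    Fin.consEquivL ℝ (fun _ : Fin (m + 3) => ℝ)
  have hD := ((pk_smooth k m).differentiable (by simp) (Fin.tail v)).hasFDerivAt
  have h1 : HasFDerivAt (fun q : ℝ × (Fin (m + 2) → ℝ) => (q.1, pk k m q.2))
      ((ContinuousLinearMap.id ℝ ℝ).prodMap (fderiv ℝ (pk k m) (Fin.tail v))) (e.symm v) :=
    HasFDerivAt.prodMap (e.symm v) (hasFDerivAt_id _) hD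
  have h2 := (e.hasFDerivAt (x := (fun q : ℝ × (Fin (m + 2) → ℝ) => (q.1, pk k m q.2))
    (e.symm v))).comp (e.symm v) h1
  have h3 := h2.comp v (e.symm.hasFDerivAt (x := v))
  have h4 : (fun w => ((e : _ → _) ∘ (fun q : ℝ × (Fin (m + 2) → ℝ) => (q.1, pk k m q.2)))
      (e.symm w)) = pk k (m + 1) := rfl
  have h5 : HasFDerivAt (pk k (m + 1)) _ v := h3
  rw [h5.fderiv]
  have h6 := LinearMap.det_conj
    (((ContinuousLinearMap.id ℝ ℝ).prodMap (fderiv ℝ (pk k m) (Fin.tail v)) :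
      ℝ × (Fin (m + 2) → ℝ) →L[ℝ] ℝ × (Fin (m + 2) → ℝ)) :
      ℝ × (Fin (m + 2) → ℝ) →ₗ[ℝ] ℝ × (Fin (m + 2) → ℝ)) e.toLinearEquiv
  have h7 := LinearMap.det_prodMap (LinearMap.id : ℝ →ₗ[ℝ] ℝ)
    ((fderiv ℝ (pk k m) (Fin.tail v) : (Fin (m + 2) → ℝ) →L[ℝ] (Fin (m + 2) → ℝ)) :
      (Fin (m + 2) → ℝ) →ₗ[ℝ] (Fin (m + 2) → ℝ))
  rw [LinearMap.det_id, one_mul] at h7
  exact h6.trans h7

theorem Pk_det_nonneg (k : ℕ) : ∀ (m : ℕ) (v : Fin (m + 2) → ℝ), 0 ≤ (fderiv ℝ (pk k m) v).det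
  | 0, v => by
    rw [Pk_zero_det]
    exact Complex.normSq_nonneg _
  | m + 1, v => by
    rw [Pk_succ_det]
    exact Pk_det_nonneg k m _

theorem Pk_find (k : ℕ) (hk : 1 ≤ k) (c : ℝ) (hc : 0 < c) : ∀ m : ℕ, ∃ v : Fin (m + 2) → ℝ,
    pk k m v ⬝ᵥ pk k m v = c ^ 2 ∧ 0 < (fderiv ℝ (pk k m) v).det
  | 0 => by
    have hb : 0 < c ^ (1 / (k : ℝ)) := Real.rpow_pos_of_pos hc _
    have hbk : (c ^ (1 / (k : ℝ))) ^ k = c := by
      rw [← Real.rpow_natCast, ← Real.rpow_mul hc.le]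
      have : 1 / (k : ℝ) * k = 1 := by
        have : (k : ℝ) ≠ 0 := by positivity
        field_simp
      rw [this, Real.rpow_one]
    refine ⟨![c ^ (1 / (k : ℝ)), 0], ?_, ?_⟩
    · obtain ⟨a, b, ha, hb', h1, h2⟩ := Pk_dot k 0 ![c ^ (1 / (k : ℝ)), 0]
      have h3 : pk k 0 ![c ^ (1 / (k : ℝ)), 0] = ![c, 0] := by
        have h4 : (⟨c ^ (1 / (k : ℝ)), 0⟩ : ℂ) ^ k = (c : ℂ) := by
          have h5 : (⟨c ^ (1 / (k : ℝ)), 0⟩ : ℂ) = ((c ^ (1 / (k : ℝ)) : ℝ) : ℂ) := rfl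
          rw [h5, ← Complex.ofReal_pow, hbk]
        show ![((⟨c ^ (1 / (k : ℝ)), 0⟩ : ℂ) ^ k).re, ((⟨c ^ (1 / (k : ℝ)), 0⟩ : ℂ) ^ k).im] = _
        rw [h4]
        rfl
      rw [h3]
      simp [dotProduct, Fin.sum_univ_two]
      ring
    · rw [Pk_zero_det, Complex.normSq_pos]
      have h5 : (⟨(![c ^ (1 / (k : ℝ)), 0] : Fin 2 → ℝ) 0,
          (![c ^ (1 / (k : ℝ)), 0] : Fin 2 → ℝ) 1⟩ : ℂ) = ((c ^ (1 / (k : ℝ)) : ℝ) : ℂ) := rfl
      rw [h5]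
      refine mul_ne_zero (by exact_mod_cast (by omega : k ≠ 0)) (pow_ne_zero _ ?_)
      exact_mod_cast hb.ne'
  | m + 1 => by
    obtain ⟨v, h1, h2⟩ := Pk_find k hk c hc m
    refine ⟨Fin.cons 0 v, ?_, ?_⟩
    · have h3 := cone_dot_tail (k := m + 1) (pk k (m + 1) (Fin.cons 0 v))
      rw [h3]
      show (0 : ℝ) * 0 + pk k m v ⬝ᵥ pk k m v = _
      rw [h1]
      ring
    · rw [Pk_succ_det]
      exact h2

theorem Pk_comp_det (k m : ℕ) (x : Fin (m + 2) → ℝ) :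
    (fderiv ℝ (fun v => gq (pk k m v)) x).det =
      (PkA (pk k m x)).det * (fderiv ℝ (pk k m) x).det := by
  have h1 : fderiv ℝ (fun v => gq (pk k m v)) x =
      (fderiv ℝ gq (pk k m x)).comp (fderiv ℝ (pk k m) x) :=
    fderiv_comp x (Pk_gq_smooth.differentiable (by simp) _)
      ((pk_smooth k m).differentiable (by simp) x)
  rw [h1, ← Pk_gq_det]
  exact LinearMap.det_comp _ _

theorem pk_spec (k m : ℕ) (hk : 1 ≤ k) (hm : 1 ≤ m) (he : m % 2 = 0) :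
    ContDiff ℝ ∞ (fun v => gq (pk k m v)) ∧ (∀ x, x ≠ 0 → gq (pk k m x) ≠ 0) ∧
      (∃ ε > 0, ∀ x, 1 ≤ nr x → ε ≤ nr (gq (pk k m x))) ∧
      (∀ x, 0 ≤ (fderiv ℝ (fun v => gq (pk k m v)) x).det) ∧
      ∀ r > 0, ∃ x, nr (gq (pk k m x)) = r ∧ 0 < (fderiv ℝ (fun v => gq (pk k m v)) x).det := by
  refine ⟨Pk_gq_smooth.comp (pk_smooth k m), ?_, ⟨(1 / 2) ^ k, by positivity, ?_⟩, ?_, ?_⟩
  · intro x hx h
    have h1 := gq_nr (pk k m x)
    have h2 := cone_nr_pos (pk_ne k m hk x hx)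
    rw [h, cone_nr_zero] at h1
    exact absurd h1.symm (by positivity)
  · intro x hx
    rw [gq_nr, cone_nr_sq]
    obtain ⟨a, b, ha, hb, h1, h2⟩ := Pk_dot k m x
    rw [h2]
    have h3 : 1 ≤ a + b := by
      rw [← h1, ← cone_nr_sq]
      exact one_le_pow₀ hx
    have h4 : (1 / 2 : ℝ) ^ k ≤ 1 / 2 := by
      calc (1 / 2 : ℝ) ^ k ≤ (1 / 2 : ℝ) ^ 1 := pow_le_pow_of_le_one (by norm_num) (by norm_num) hk
        _ = 1 / 2 := pow_one _
    rcases le_or_gt (1 / 2) a with h | h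
    · have : 0 ≤ b ^ k := by positivity
      linarith
    · have h5 : (1 / 2 : ℝ) ^ k ≤ b ^ k := pow_le_pow_left₀ (by norm_num) (by linarith) k
      linarith
  · intro x
    rw [Pk_comp_det]
    exact mul_nonneg (Pk_A_nonneg he _) (Pk_det_nonneg k m x)
  · intro r hr
    obtain ⟨m, rfl⟩ : ∃ m', m = m' + 1 := ⟨m - 1, by omega⟩
    have hc : 0 < Real.sqrt (r / 2) := Real.sqrt_pos.2 (by positivity)
    obtain ⟨v, h1, h2⟩ := Pk_find k hk (Real.sqrt (r / 2)) hc m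
    have e : pk k (m + 1) (Fin.cons (Real.sqrt (r / 2)) v) =
        Fin.cons (Real.sqrt (r / 2)) (pk k m v) := rfl
    refine ⟨Fin.cons (Real.sqrt (r / 2)) v, ?_, ?_⟩
    · rw [gq_nr, cone_nr_sq, e]
      have h3 := cone_dot_tail (k := m + 1)
        (Fin.cons (Real.sqrt (r / 2)) (pk k m v) : Fin (m + 3) → ℝ)
      rw [h3]
      show Real.sqrt (r / 2) * Real.sqrt (r / 2) + pk k m v ⬝ᵥ pk k m v = r
      rw [h1, Real.sq_sqrt (by positivity), Real.mul_self_sqrt (by positivity)]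
      ring
    · rw [Pk_comp_det]
      refine mul_pos (Pk_A_pos ?_) ?_
      · rw [e]
        exact hc
      · rw [Pk_succ_det]
        exact h2

end DT
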