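import Pool.Agent.H78.DT.Cone

/-!
# Maps from the circle to the circle; lifts of maps to the circle (job DT-S1CLS)

(1) `lift_I`: `X` compact, `F : I × X → S¹` continuous, `a₀ : X → ℝ` continuous with
`F (0, x) = (cos a₀(x), sin a₀(x))`.  Then there is a continuous `a : I × X → ℝ` with
`a (0, x) = a₀ x`, `F p = (cos a(p), sin a(p))`, and `a (s, x) = a₀ x` for all `s` if
`F (·, x)` is constant.
PROOF. Write `F` as a unit complex number `Φ (s,x)`.  By uniform continuity (compactness) there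
is `N ≥ 1` with `‖Φ (s,x) - Φ (s',x)‖ < 1` for `|s - s'| ≤ 1/N`, so that
`Φ (s',x) * conj (Φ (s,x))` has positive real part and `Complex.arg` is continuous there.
With `c_j (s) = min s (j/N)`, `a (s,x) = a₀ x + ∑_{j<N} arg (Φ (c_{j+1} s, x) conj Φ (c_j s, x))`.
`exp (i a)` telescopes to `Φ (s, x)`.
(Or use a covering space lemma of Mathlib if convenient.)
(2) `s1_cls`: every map `Sp 1 → S¹` is homotopic to some `z ↦ z^k`.  PROOF.  Consider
`F (s, ()) = f (cos 2πs, sin 2πs)` and lift it (`X = Unit`) to `a`; `a 1 - a 0 = 2πk`.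
The homotopy `K (u, s) = (1-u) a(s) + u (2πks)` satisfies
`K (u, 1) - K (u, 0) = 2πk`, so `(cos K, sin K)` descends to `I × Sp 1` (the map
`s ↦ (cos 2πs, sin 2πs)` is a quotient map `I → Sp 1`, and `I × I → I × Sp 1` is one too:
continuous surjection from a compact space to a Hausdorff space, closed map).
(3) `circ_lift2`: a map `Sp 2 → S¹` has a lift to `ℝ`.  PROOF. `F (t, y) = c (susp (t, y))`,
`t ∈ I`, `y ∈ Sp 1`.  `F (0, y)` does not depend on `y`, so lift by (1) with constant `a₀`.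
`F (1, y)` does not depend on `y` either, so `a (1, y)` has values in a coset of `2πℤ`; `Sp 1` is
connected (image of `I` under `s ↦ (cos 2πs, sin 2πs)`), so `a (1, y)` is constant.
So `a` descends to `Sp 2` (`descend` in Cone.lean, or the quotient map argument).
-/

open Matrix Set unitInterval Topology

noncomputable section

namespace DT

/-- The map `z ↦ z^k` of the circle. -/
def zk (k : ℤ) (x : Fin 2 → ℝ) : Fin 2 → ℝ :=
  ![((⟨x 0, x 1⟩ : ℂ) ^ k).re, ((⟨x 0, x 1⟩ : ℂ) ^ k).im]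

theorem S1cls_mem_iff (v : Fin 2 → ℝ) : v ∈ US (Fin 2) ↔ v 0 * v 0 + v 1 * v 1 = 1 := by
  unfold US
  rw [mem_ofPred_eq, dotProduct, Fin.sum_univ_two]

theorem S1cls_cs_mem (θ : ℝ) : (![Real.cos θ, Real.sin θ] : Fin 2 → ℝ) ∈ US (Fin 2) := by
  rw [S1cls_mem_iff]
  simp only [Matrix.cons_val_zero, Matrix.cons_val_one]
  nlinarith [Real.sin_sq_add_cos_sq θ]

theorem zk_mem (k : ℤ) {x : Fin 2 → ℝ} (hx : x ∈ US (Fin 2)) : zk k x ∈ US (Fin 2) := by
  rw [S1cls_mem_iff] at hx ⊢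
  unfold zk
  simp only [Matrix.cons_val_zero, Matrix.cons_val_one]
  rw [← Complex.normSq_apply, map_zpow₀, Complex.normSq_apply]
  simp only
  rw [hx, _root_.one_zpow]

theorem S1cls_mk_continuous {Z : Type*} [TopologicalSpace Z] {f g : Z → ℝ} (hf : Continuous f)
    (hg : Continuous g) : Continuous fun z => (⟨f z, g z⟩ : ℂ) := by
  have : (fun z => (⟨f z, g z⟩ : ℂ)) = fun z => (f z : ℂ) + (g z : ℂ) * Complex.I := by
    funext z
    apply Complex.ext <;> simp
  rw [this]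
  fun_prop

theorem S1cls_coord (j : Fin 2) : Continuous fun x : Sp 1 => x.1 j :=
  (continuous_apply j).comp continuous_subtype_val

theorem zk_continuous (k : ℤ) : Continuous fun x : Sp 1 => zk k x.1 := by
  have h1 : Continuous fun x : Sp 1 => (⟨x.1 0, x.1 1⟩ : ℂ) :=
    S1cls_mk_continuous (S1cls_coord 0) (S1cls_coord 1)
  have h2 : Continuous fun x : Sp 1 => (⟨x.1 0, x.1 1⟩ : ℂ) ^ k := by
    refine h1.zpow₀ k fun x => Or.inl ?_
    intro h0
    have hx := (S1cls_mem_iff x.1).1 x.2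
    have e0 : x.1 0 = 0 := congrArg Complex.re h0
    have e1 : x.1 1 = 0 := congrArg Complex.im h0
    rw [e0, e1] at hx
    norm_num at hx
  refine continuous_pi fun j => ?_
  fin_cases j
  · exact Complex.continuous_re.comp h2
  · exact Complex.continuous_im.comp h2

theorem S1cls_norm {v : Fin 2 → ℝ} (hv : v ∈ US (Fin 2)) : ‖(⟨v 0, v 1⟩ : ℂ)‖ = 1 := by
  rw [S1cls_mem_iff] at hv
  rw [Complex.norm_def, Complex.normSq_apply]
  simp only
  rw [hv, Real.sqrt_one]

/-- a unit vector as a point of `Circle` -/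
def S1cls_ci (v : Fin 2 → ℝ) (hv : v ∈ US (Fin 2)) : Circle :=
  ⟨⟨v 0, v 1⟩, mem_sphere_zero_iff_norm.2 (S1cls_norm hv)⟩

theorem S1cls_exp_re (θ : ℝ) : ((Circle.exp θ : Circle) : ℂ).re = Real.cos θ := by
  rw [Circle.coe_exp, Complex.exp_ofReal_mul_I_re]

theorem S1cls_exp_im (θ : ℝ) : ((Circle.exp θ : Circle) : ℂ).im = Real.sin θ := by
  rw [Circle.coe_exp, Complex.exp_ofReal_mul_I_im]

theorem S1cls_ci_eq {v : Fin 2 → ℝ} (hv : v ∈ US (Fin 2)) (θ : ℝ) :
    S1cls_ci v hv = Circle.exp θ ↔ v 0 = Real.cos θ ∧ v 1 = Real.sin θ := by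
  constructor
  · intro h
    have h1 : ((S1cls_ci v hv : Circle) : ℂ) = ((Circle.exp θ : Circle) : ℂ) := by rw [h]
    constructor
    · rw [← S1cls_exp_re, ← h1]
      rfl
    · rw [← S1cls_exp_im, ← h1]
      rfl
  · rintro ⟨h0, h1⟩
    apply Circle.ext
    apply Complex.ext
    · rw [S1cls_exp_re, ← h0]
      rfl
    · rw [S1cls_exp_im, ← h1]
      rfl

theorem S1cls_angle {v : Fin 2 → ℝ} (hv : v ∈ US (Fin 2)) :
    ∃ θ, v 0 = Real.cos θ ∧ v 1 = Real.sin θ := by
  obtain ⟨θ, hθ⟩ := Circle.exp_surjective (S1cls_ci v hv)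
  exact ⟨θ, (S1cls_ci_eq hv θ).1 hθ.symm⟩

theorem lift_I {X : Type} [TopologicalSpace X] [CompactSpace X] (F : I × X → (Fin 2 → ℝ))
    (hF : Continuous F) (hU : ∀ p, F p ∈ US (Fin 2)) (a₀ : X → ℝ) (ha : Continuous a₀)
    (h0 : ∀ x, F (0, x) 0 = Real.cos (a₀ x) ∧ F (0, x) 1 = Real.sin (a₀ x)) :
    ∃ a : I × X → ℝ, Continuous a ∧ (∀ x, a (0, x) = a₀ x) ∧
      (∀ p, F p 0 = Real.cos (a p) ∧ F p 1 = Real.sin (a p)) ∧
      ∀ x, (∀ s, F (s, x) = F (0, x)) → ∀ s, a (s, x) = a₀ x := by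
  have hc : Continuous fun p : I × X => S1cls_ci (F p) (hU p) := by
    apply continuous_induced_rng.2
    exact S1cls_mk_continuous ((continuous_apply 0).comp hF) ((continuous_apply 1).comp hF)
  obtain ⟨Hc, hHc⟩ : ∃ Hc : C(I × X, Circle), ∀ p, Hc p = S1cls_ci (F p) (hU p) :=
    ⟨⟨fun p => S1cls_ci (F p) (hU p), hc⟩, fun p => rfl⟩
  obtain ⟨f, hf⟩ : ∃ f : C(X, ℝ), ∀ x, f x = a₀ x := ⟨⟨a₀, ha⟩, fun x => rfl⟩
  have hH0 : ∀ x, Hc (0, x) = Circle.exp (f x) := by
    intro x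
    rw [hHc, hf]
    exact (S1cls_ci_eq (hU (0, x)) (a₀ x)).2 (h0 x)
  have hl := Circle.isCoveringMap_exp.liftHomotopy_lifts Hc f hH0
  have hz := Circle.isCoveringMap_exp.liftHomotopy_zero Hc f hH0
  obtain ⟨Γ, hΓ⟩ : ∃ Γ, Γ = Circle.isCoveringMap_exp.liftHomotopy Hc f hH0 := ⟨_, rfl⟩
  rw [← hΓ] at hl hz
  have hl' : ∀ p, S1cls_ci (F p) (hU p) = Circle.exp (Γ p) := by
    intro p
    rw [← hHc]
    exact (congrFun hl p).symm
  have hz' : ∀ x, Γ (0, x) = a₀ x := fun x => (hz x).trans (hf x)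
  refine ⟨Γ, Γ.continuous, hz', fun p => (S1cls_ci_eq _ _).1 (hl' p), fun x hx s => ?_⟩
  rw [← hz' x]
  have hcont : Continuous fun s : I => Γ (s, x) := Γ.continuous.comp (by fun_prop)
  refine Circle.isCoveringMap_exp.const_of_comp (g := fun s : I => Γ (s, x)) hcont ?_ s 0
  intro s s'
  rw [← hl', ← hl']
  apply Circle.ext
  show (⟨F (s, x) 0, F (s, x) 1⟩ : ℂ) = ⟨F (s', x) 0, F (s', x) 1⟩
  rw [hx s, hx s']

/-- the parametrisation of the circle -/
def S1cls_cc (s : ℝ) : Sp 1 :=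
  ⟨![Real.cos (2 * Real.pi * s), Real.sin (2 * Real.pi * s)], S1cls_cs_mem _⟩

theorem S1cls_cc_zero (s : ℝ) : (S1cls_cc s).1 0 = Real.cos (2 * Real.pi * s) := rfl

theorem S1cls_cc_one (s : ℝ) : (S1cls_cc s).1 1 = Real.sin (2 * Real.pi * s) := rfl

theorem S1cls_cc_continuous : Continuous S1cls_cc := by
  refine Continuous.subtype_mk ?_ _
  refine continuous_pi fun j => ?_
  fin_cases j
  · simp only [Fin.zero_eta, Matrix.cons_val_zero]
    fun_prop
  · simp only [Fin.mk_one, Matrix.cons_val_one]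
    fun_prop

theorem S1cls_ext {x y : Sp 1} (h0 : x.1 0 = y.1 0) (h1 : x.1 1 = y.1 1) : x = y := by
  apply Subtype.ext
  funext j
  fin_cases j
  · exact h0
  · exact h1

theorem S1cls_cc_surj (x : Sp 1) : ∃ s : I, S1cls_cc s = x := by
  obtain ⟨θ, h0, h1⟩ := S1cls_angle x.2
  have hpi := Real.pi_pos
  refine ⟨⟨Int.fract (θ / (2 * Real.pi)), Int.fract_nonneg _, (Int.fract_lt_one _).le⟩, ?_⟩
  have h2 : 2 * Real.pi * Int.fract (θ / (2 * Real.pi)) =
      θ - (⌊θ / (2 * Real.pi)⌋ : ℤ) * (2 * Real.pi) := by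
    rw [Int.fract]
    field_simp
  apply S1cls_ext
  · rw [S1cls_cc_zero, h0, h2, Real.cos_sub_int_mul_two_pi]
  · rw [S1cls_cc_one, h1, h2, Real.sin_sub_int_mul_two_pi]

theorem S1cls_cc_inj {s s' : I} (h : S1cls_cc s = S1cls_cc s') :
    s = s' ∨ (s = 0 ∧ s' = 1) ∨ (s = 1 ∧ s' = 0) := by
  have h0 : Real.cos (2 * Real.pi * s) = Real.cos (2 * Real.pi * s') := by
    rw [← S1cls_cc_zero, ← S1cls_cc_zero, h]
  have h1 : Real.sin (2 * Real.pi * s) = Real.sin (2 * Real.pi * s') := by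
    rw [← S1cls_cc_one, ← S1cls_cc_one, h]
  obtain ⟨k, hk⟩ := Real.Angle.angle_eq_iff_two_pi_dvd_sub.1 (Real.Angle.cos_sin_inj h0 h1)
  have hpi := Real.pi_pos
  have hk' : (s : ℝ) - s' = k := by
    have : 2 * Real.pi * ((s : ℝ) - s') = 2 * Real.pi * k := by
      rw [← hk]
      ring
    exact mul_left_cancel₀ (by positivity) this
  have hs := s.2
  have hs' := s'.2
  have k1 : (-1 : ℝ) ≤ k := by rw [← hk']; linarith [hs.1, hs'.2]
  have k2 : (k : ℝ) ≤ 1 := by rw [← hk']; linarith [hs.2, hs'.1]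
  have k1' : -1 ≤ k := by exact_mod_cast k1
  have k2' : k ≤ 1 := by exact_mod_cast k2
  have hcase : k = -1 ∨ k = 0 ∨ k = 1 := by omega
  rcases hcase with rfl | rfl | rfl
  · right
    left
    push_cast at hk'
    refine ⟨Subtype.ext ?_, Subtype.ext ?_⟩
    · show (s : ℝ) = 0
      linarith [hs.1, hs'.2]
    · show (s' : ℝ) = 1
      linarith [hs.1, hs'.2]
  · left
    push_cast at hk'
    exact Subtype.ext (by linarith)
  · right
    right
    push_cast at hk'
    refine ⟨Subtype.ext ?_, Subtype.ext ?_⟩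
    · show (s : ℝ) = 1
      linarith [hs.2, hs'.1]
    · show (s' : ℝ) = 0
      linarith [hs.2, hs'.1]

/-- descent to the circle -/
theorem S1cls_desc {V : Type*} [TopologicalSpace V] (g : I × I → V) (hg : Continuous g)
    (h : ∀ u, g (u, 0) = g (u, 1)) :
    ∃ H : I × Sp 1 → V, Continuous H ∧ ∀ (u s : I), H (u, S1cls_cc s) = g (u, s) := by
  obtain ⟨q, hq⟩ : ∃ q : I × I → I × Sp 1, q = fun p => (p.1, S1cls_cc p.2) := ⟨_, rfl⟩
  have hqc : Continuous q := by
    rw [hq]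
    exact continuous_fst.prodMk
      (S1cls_cc_continuous.comp (continuous_subtype_val.comp continuous_snd))
  have hqs : Function.Surjective q := by
    rintro ⟨u, x⟩
    obtain ⟨s, hs⟩ := S1cls_cc_surj x
    exact ⟨(u, s), by rw [hq, ← hs]⟩
  have hquot := Topology.IsQuotientMap.of_surjective_continuous hqs hqc
  have hfib : ∀ p p', q p = q p' → g p = g p' := by
    rintro ⟨u, s⟩ ⟨u', s'⟩ hpp
    rw [hq] at hpp
    simp only [Prod.mk.injEq] at hpp
    obtain ⟨h1, h2⟩ := hpp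
    subst h1
    rcases S1cls_cc_inj h2 with h3 | ⟨h3, h4⟩ | ⟨h3, h4⟩
    · rw [h3]
    · rw [h3, h4]
      exact h u
    · rw [h3, h4]
      exact (h u).symm
  have key : ∀ p, g (Function.surjInv hqs (q p)) = g p := fun p =>
    hfib _ _ (Function.surjInv_eq hqs (q p))
  refine ⟨fun z => g (Function.surjInv hqs z), ?_, fun u s => ?_⟩
  · rw [hquot.continuous_iff]
    have : (fun z => g (Function.surjInv hqs z)) ∘ q = g := funext key
    rw [this]
    exact hg
  · have hqe : q (u, s) = (u, S1cls_cc s) := by rw [hq]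
    show g (Function.surjInv hqs (u, S1cls_cc s)) = g (u, s)
    rw [← hqe]
    exact key (u, s)

theorem s1_cls (f : Sp 1 → (Fin 2 → ℝ)) (hf : Continuous f) (hU : ∀ x, f x ∈ US (Fin 2)) :
    ∃ k : ℤ, HIn (US (Fin 2)) f (fun x => zk k x.1) := by
  obtain ⟨θ, hθ⟩ := S1cls_angle (hU (S1cls_cc 0))
  obtain ⟨a, hac, ha0, haF, -⟩ := lift_I (X := Unit) (fun p => f (S1cls_cc (p.1 : ℝ)))
    (hf.comp (S1cls_cc_continuous.comp (continuous_subtype_val.comp continuous_fst)))
    (fun p => hU _) (fun _ => θ) continuous_const (fun _ => hθ)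
  have hper : S1cls_cc 1 = S1cls_cc 0 := by
    apply S1cls_ext
    · rw [S1cls_cc_zero, S1cls_cc_zero]
      simp
    · rw [S1cls_cc_one, S1cls_cc_one]
      simp
  have h1 := haF (1, ())
  have h0 := haF (0, ())
  simp only [Set.Icc.coe_one, Set.Icc.coe_zero] at h1 h0
  rw [hper] at h1
  obtain ⟨k, hk⟩ := Real.Angle.angle_eq_iff_two_pi_dvd_sub.1
    (Real.Angle.cos_sin_inj (h1.1.symm.trans h0.1) (h1.2.symm.trans h0.2))
  obtain ⟨K, hK⟩ : ∃ K : I × I → ℝ, K = fun p =>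
      (1 - (p.1 : ℝ)) * a (p.2, ()) + (p.1 : ℝ) * (2 * Real.pi * k * (p.2 : ℝ)) := ⟨_, rfl⟩
  have hKc : Continuous K := by
    rw [hK]
    have : Continuous fun p : I × I => a (p.2, ()) := hac.comp (by fun_prop)
    fun_prop
  obtain ⟨H, hHc, hH⟩ := S1cls_desc (V := Fin 2 → ℝ)
    (fun p => ![Real.cos (K p), Real.sin (K p)])
    (by
      refine continuous_pi fun j => ?_
      fin_cases j
      · simp only [Fin.zero_eta, Matrix.cons_val_zero]
        exact Real.continuous_cos.comp hKc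
      · simp only [Fin.mk_one, Matrix.cons_val_one]
        exact Real.continuous_sin.comp hKc)
    (by
      intro u
      have e : K (u, 1) = K (u, 0) + ((u * k + (1 - u) * k : ℝ)) * (2 * Real.pi) := by
        rw [hK]
        simp only [Set.Icc.coe_one, Set.Icc.coe_zero]
        have : a (1, ()) = a (0, ()) + 2 * Real.pi * k := by linarith
        rw [this]
        ring
      have e2 : K (u, 1) = K (u, 0) + (k : ℝ) * (2 * Real.pi) := by
        rw [e]
        ring
      rw [e2, Real.cos_add_int_mul_two_pi, Real.sin_add_int_mul_two_pi])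
  refine ⟨k, H, hHc, ?_, ?_, ?_⟩
  · intro u x
    obtain ⟨s, rfl⟩ := S1cls_cc_surj x
    show H (u, S1cls_cc s) ∈ US (Fin 2)
    rw [hH]
    exact S1cls_cs_mem _
  · intro x
    obtain ⟨s, rfl⟩ := S1cls_cc_surj x
    rw [hH]
    have e : K (0, s) = a (s, ()) := by
      rw [hK]
      simp
    rw [e]
    have := haF (s, ())
    simp only at this
    funext j
    fin_cases j
    · exact this.1.symm
    · exact this.2.symm
  · intro x
    obtain ⟨s, rfl⟩ := S1cls_cc_surj x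
    rw [hH]
    have e : K (1, s) = k * (2 * Real.pi * s) := by
      rw [hK]
      simp only [Set.Icc.coe_one]
      ring
    rw [e]
    have e2 : ((⟨(S1cls_cc s).1 0, (S1cls_cc s).1 1⟩ : ℂ) ^ k) =
        ((Circle.exp (k * (2 * Real.pi * s)) : Circle) : ℂ) := by
      have e3 : (⟨(S1cls_cc s).1 0, (S1cls_cc s).1 1⟩ : ℂ) =
          ((Circle.exp (2 * Real.pi * s) : Circle) : ℂ) := by
        apply Complex.ext
        · rw [S1cls_exp_re]
          rfl
        · rw [S1cls_exp_im]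
          rfl
      rw [e3, Circle.coe_exp, Circle.coe_exp, ← Complex.exp_int_mul]
      congr 1
      push_cast
      ring
    show _ = zk k (S1cls_cc s).1
    unfold zk
    rw [e2, S1cls_exp_re, S1cls_exp_im]

theorem S1cls_preconn : PreconnectedSpace (Sp 1) := by
  refine ⟨?_⟩
  have h : Set.range S1cls_cc = Set.univ := by
    rw [Set.eq_univ_iff_forall]
    intro x
    obtain ⟨s, hs⟩ := S1cls_cc_surj x
    exact ⟨s, hs⟩
  rw [← h]
  exact isPreconnected_range S1cls_cc_continuous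

theorem circ_lift2 (c : Sp 2 → (Fin 2 → ℝ)) (hc : Continuous c) (hU : ∀ x, c x ∈ US (Fin 2)) :
    ∃ α : Sp 2 → ℝ, Continuous α ∧ ∀ x, c x 0 = Real.cos (α x) ∧ c x 1 = Real.sin (α x) := by
  have hs0 : ∀ y y' : Sp 1, susp ((0 : I), y) = susp (0, y') := by
    intro y y'
    apply Subtype.ext
    show sv (0 : ℝ) y.1 = sv (0 : ℝ) y'.1
    unfold sv
    simp
  have hs1 : ∀ y y' : Sp 1, susp ((1 : I), y) = susp (1, y') := by
    intro y y'
    apply Subtype.ext
    show sv (1 : ℝ) y.1 = sv (1 : ℝ) y'.1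
    unfold sv
    simp
  obtain ⟨y0⟩ : Nonempty (Sp 1) := ⟨S1cls_cc 0⟩
  obtain ⟨θ, hθ⟩ := S1cls_angle (hU (susp ((0 : I), y0)))
  obtain ⟨a, hac, ha0, haF, -⟩ := lift_I (X := Sp 1) (fun p => c (susp p))
    (hc.comp susp_continuous) (fun p => hU _) (fun _ => θ) continuous_const (fun y => by
      show c (susp (0, y)) 0 = _ ∧ c (susp (0, y)) 1 = _
      rw [hs0 y y0]
      exact hθ)
  have hpre := S1cls_preconn
  have h1 : ∀ y y', a (1, y) = a (1, y') := by
    have hcont : Continuous fun y : Sp 1 => a ((1 : I), y) := hac.comp (by fun_prop)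
    refine Circle.isCoveringMap_exp.const_of_comp (g := fun y : Sp 1 => a ((1 : I), y)) hcont ?_
    intro y y'
    have e1 : c (susp ((1 : I), y)) 0 = Real.cos (a (1, y)) ∧
        c (susp ((1 : I), y)) 1 = Real.sin (a (1, y)) := haF (1, y)
    have e2 : c (susp ((1 : I), y')) 0 = Real.cos (a (1, y')) ∧
        c (susp ((1 : I), y')) 1 = Real.sin (a (1, y')) := haF (1, y')
    rw [hs1 y y'] at e1
    have f1 := (S1cls_ci_eq (hU (susp ((1 : I), y'))) (a (1, y))).2 e1
    have f2 := (S1cls_ci_eq (hU (susp ((1 : I), y'))) (a (1, y'))).2 e2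
    show Circle.exp (a (1, y)) = Circle.exp (a (1, y'))
    rw [← f1, ← f2]
  obtain ⟨H, hHc, hH⟩ := descend (k := 1) (Q := Unit) (fun z : Unit × (I × Sp 1) => a z.2)
    (hac.comp continuous_snd) (fun _ y y' => by rw [ha0, ha0]) (fun _ y y' => h1 y y')
  refine ⟨fun x => H ((), x), hHc.comp (by fun_prop), fun x => ?_⟩
  obtain ⟨p, rfl⟩ := susp_surj x
  show c (susp p) 0 = Real.cos (H ((), susp p)) ∧ c (susp p) 1 = Real.sin (H ((), susp p))
  rw [hH]
  exact haF p

end DT
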