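import Pool.Agent.H78.DT.Freud
import Pool.Agent.H78.DT.S1cls
import Pool.Agent.H78.DT.Pk

/-!
# Every map of the sphere is an iterated suspension of `z ↦ z^k` (job DT-CLS)

`Zs k m : Unit × Sp (m+1) → S^(m+1)`, `Zs k 0 = zk k`, `Zs k (m+1) = suspF (Zs k m)`.
(1) `cls`: induction on `m`: `m = 0` is `s1_cls`; `m + 1`: `freud_pt (m+1)` gives `h ~ suspF h'`, by
induction `h' ~ Zs k m` (as maps on `Unit × Sp (m+1)` or on `Sp (m+1)`), and suspend the homotopy
(`susp_hrel` with `S = ∅`).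
(2) Explicit formula: let `Ze k 0 v = cone`: `|v| zk k (v/|v|)` (`0` for `v = 0`), and
`Ze k (m+1) v = Fin.cons (v 0) (Ze k m (Fin.tail v))`; `Ze k m (c v) = c Ze k m v` for `c ≥ 0`, and
`Zs k m ((), x) = Ze k m x` for `x ∈ Sp (m+1)` (induction: `suspF g ((),x) = cons (x 0) (cone g ((), tail x))`
and `cone (Zs k m) ((), w) = |w| Ze k m (w/|w|) = Ze k m w`).
(3) `zs_pos`: for `k ≥ 1` the segment from `Ze k m x` to `pk k m x` does not contain `0` for `x ≠ 0`:
with `x = (x', b)`: `Ze = (x', |b| (b/|b|)^k)`, `pk = (x', b^k) = (x', |b|^k (b/|b|)^k)` (induction on `m`: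
claim: for all `v` and `t ∈ [0,1]`, `(1-t) Ze k m v + t pk k m v = 0` only if `v = 0`).  So
`nrm ((1-t) Ze k m x + t pk k m x)` is a homotopy from `Zs k m` (`nrm` of a unit vector) to
`nrm ∘ pk k m`.  (`Ze` is continuous: `continuous_cone`; or use the continuity of `Zs`.)
(4) `zs_zero`: `zk 0 = ![1, 0]`, so `Ze 0 m (x', b) = (x', |b|, 0)`: its coordinate `m` (the last
but one) is `≥ 0`.  The segment from it to the unit vector `e_m` (coordinate `m`)
does not contain `0` for unit `(x', b)`; normalise it.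
(5) `zs_neg`: `rl` changes the sign of the last coordinate; `zk (-k) x = rl (zk k x)` on the circle
(inverse = conjugate), and `rl` commutes with suspension: induction on `m`.
-/

open Matrix Set unitInterval Topology
open scoped ContDiff

noncomputable section

namespace DT

/-- The iterated suspension of `z ↦ z^k`. -/
def Zs (k : ℤ) : (m : ℕ) → Unit × Sp (m + 1) → (Fin (m + 2) → ℝ)
  | 0 => fun q => zk k q.2.1
  | m + 1 => suspF (Zs k m)

/-- Change the sign of the last coordinate. -/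
def rl {N : ℕ} (v : Fin (N + 1) → ℝ) : Fin (N + 1) → ℝ := fun i => if i = Fin.last N then -v i else v i

theorem cls_Zs_mem (k : ℤ) : ∀ (m : ℕ) (q : Unit × Sp (m + 1)), Zs k m q ∈ US (Fin (m + 2))
  | 0, q => zk_mem k q.2.2
  | m + 1, q => suspF_mem (Zs k m) (cls_Zs_mem k m) q

theorem cls_Zs_cont (k : ℤ) : ∀ m : ℕ, Continuous (Zs k m)
  | 0 => (zk_continuous k).comp continuous_snd
  | m + 1 => continuous_suspF (Zs k m) (cls_Zs_cont k m)

theorem cls_susp (m : ℕ) (f g : Unit × Sp m → (Fin (m + 1) → ℝ))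
    (h : HIn (US (Fin (m + 1))) f g) : HIn (US (Fin (m + 2))) (suspF f) (suspF g) := by
  have h' : HRel (US (Fin (m + 1))) {q : Unit × Sp m | q.1 ∈ (∅ : Set Unit)} f g :=
    HP.mono h (fun _ hq => ⟨hq, fun _ hx => absurd hx (Set.notMem_empty _)⟩)
  exact (susp_hrel m ∅ f g h').hIn

theorem cls (m : ℕ) (h : Sp (m + 1) → (Fin (m + 2) → ℝ)) (hc : Continuous h)
    (hU : ∀ x, h x ∈ US (Fin (m + 2))) :
    ∃ k : ℤ, HIn (US (Fin (m + 2))) h (fun x => Zs k m ((), x)) := by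
  induction m with
  | zero => exact s1_cls h hc hU
  | succ m ih =>
    obtain ⟨F', c1, u1, h1⟩ := freud_pt (m + 1) (by omega) (fun q : Unit × Sp (m + 2) => h q.2)
      (hc.comp continuous_snd) (fun q => hU q.2)
    obtain ⟨k, h2⟩ := ih (fun y => F' ((), y)) (c1.comp (by fun_prop)) (fun y => u1 _)
    have h3 : HIn (US (Fin (m + 2))) F' (Zs k m) :=
      h2.comp (fun q : Unit × Sp (m + 1) => q.2) continuous_snd
    have h4 := h1.trans (cls_susp (m + 1) _ _ h3)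
    exact ⟨k, h4.comp (fun x : Sp (m + 2) => ((), x)) (by fun_prop)⟩

/-- The homogeneous extension of `Zs k m`. -/
def Ze (k : ℤ) (m : ℕ) (v : Fin (m + 2) → ℝ) : Fin (m + 2) → ℝ := cone (Zs k m) ((), v)

theorem Ze_unit (k : ℤ) (m : ℕ) (x : Sp (m + 1)) : Ze k m x.1 = Zs k m ((), x) := by
  have h := cone_smul_unit (Zs k m) () zero_le_one x
  rw [one_smul, one_smul] at h
  exact h

theorem Ze_cont (k : ℤ) (m : ℕ) : Continuous (Ze k m) :=
  (continuous_cone (Zs k m) (cls_Zs_cont k m)).comp (by fun_prop)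

theorem Ze_zero (k : ℤ) (m : ℕ) : Ze k m 0 = 0 := cone_zero _ _

theorem cls_cons_smul {n : ℕ} (r a : ℝ) (w : Fin n → ℝ) :
    r • (Fin.cons a w : Fin (n + 1) → ℝ) = Fin.cons (r * a) (r • w) := by
  ext i
  refine Fin.cases ?_ (fun j => ?_) i
  · rfl
  · rfl

theorem cls_cons_add {n : ℕ} (a b : ℝ) (v w : Fin n → ℝ) :
    (Fin.cons a v : Fin (n + 1) → ℝ) + Fin.cons b w = Fin.cons (a + b) (v + w) := by
  ext i
  refine Fin.cases ?_ (fun j => ?_) i
  · rfl
  · rfl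

theorem cls_cons_eq_zero {n : ℕ} {a : ℝ} {w : Fin n → ℝ}
    (h : (Fin.cons a w : Fin (n + 1) → ℝ) = 0) : a = 0 ∧ w = 0 :=
  ⟨congrFun h 0, funext fun j => congrFun h j.succ⟩

theorem cls_eq_zero {n : ℕ} {v : Fin (n + 1) → ℝ} (h0 : v 0 = 0) (h1 : Fin.tail v = 0) :
    v = 0 := by
  ext i
  refine Fin.cases h0 (fun j => ?_) i
  exact congrFun h1 j

theorem Ze_succ (k : ℤ) (m : ℕ) (v : Fin (m + 3) → ℝ) :
    Ze k (m + 1) v = Fin.cons (v 0) (Ze k m (Fin.tail v)) := by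
  by_cases hv : v = 0
  · subst hv
    rw [Ze_zero]
    have h1 : (Fin.tail (0 : Fin (m + 3) → ℝ) : Fin (m + 2) → ℝ) = 0 := rfl
    rw [h1, Ze_zero]
    ext i
    refine Fin.cases ?_ (fun j => ?_) i
    · rfl
    · rfl
  · unfold Ze
    have h1 := cone_eq_of_ne (Zs k (m + 1)) () hv
    rw [h1]
    have h2 : Zs k (m + 1) ((), ⟨nrm v, nrm_mem hv⟩) =
        Fin.cons (nrm v 0) (cone (Zs k m) ((), Fin.tail (nrm v))) := rfl
    have h3 : Fin.tail v = nr v • (Fin.tail (nrm v) : Fin (m + 2) → ℝ) := by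
      have h4 := congrArg (fun w : Fin (m + 3) → ℝ => (Fin.tail w : Fin (m + 2) → ℝ))
        (nr_smul_nrm v)
      exact h4.symm
    rw [h2, cls_cons_smul, ← cone_smul _ _ (nr_nonneg v), ← h3]
    congr 1
    exact congrFun (nr_smul_nrm v) 0

theorem cls_nrm_unit {κ : Type} [Fintype κ] {v : κ → ℝ} (hv : v ∈ US κ) : nrm v = v := by
  unfold nrm
  rw [nr_eq_one hv, inv_one, one_smul]

/-- The normalised segment. -/
theorem cls_line {n : ℕ} {f g : Sp n → (Fin (n + 1) → ℝ)} (hf : Continuous f)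
    (hg : Continuous g)
    (h : ∀ t : ℝ, 0 ≤ t → t ≤ 1 → ∀ x, (1 - t) • f x + t • g x ≠ 0) :
    HIn (US (Fin (n + 1))) (fun x => nrm (f x)) (fun x => nrm (g x)) := by
  have hne : ∀ p : I × Sp n, (1 - (p.1 : ℝ)) • f p.2 + (p.1 : ℝ) • g p.2 ≠ 0 := fun p =>
    h p.1 p.1.2.1 p.1.2.2 p.2
  have hW : Continuous fun p : I × Sp n => (1 - (p.1 : ℝ)) • f p.2 + (p.1 : ℝ) • g p.2 := by
    fun_prop
  refine ⟨fun p => nrm ((1 - (p.1 : ℝ)) • f p.2 + (p.1 : ℝ) • g p.2), ?_, ?_, ?_, ?_⟩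
  · unfold nrm
    exact ((continuous_nr.comp hW).inv₀ fun p => (cone_nr_pos (hne p)).ne').smul hW
  · intro u x
    exact nrm_mem (hne (u, x))
  · intro x
    simp
  · intro x
    simp

theorem cls_Ze0 (k : ℤ) {v : Fin 2 → ℝ} (hv : v ≠ 0) :
    Ze k 0 v = nr v • zk k (nrm v) := cone_eq_of_ne (Zs k 0) () hv

theorem cls_cx_norm {v : Fin 2 → ℝ} (hv : v ∈ US (Fin 2)) : (⟨v 0, v 1⟩ : ℂ) ≠ 0 := by
  intro h
  have h1 := S1cls_norm hv
  rw [h, norm_zero] at h1
  exact zero_ne_one h1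

theorem cls_pos0 (k : ℕ) {v : Fin 2 → ℝ} (hv : v ≠ 0) {t : ℝ} (h0 : 0 ≤ t) (h1 : t ≤ 1) :
    (1 - t) • Ze (k : ℤ) 0 v + t • pk k 0 v ≠ 0 := by
  have hr := cone_nr_pos hv
  have hu := nrm_mem hv
  have e1 : pk k 0 v = nr v ^ k • zk (k : ℤ) (nrm v) := by
    have e2 : (⟨v 0, v 1⟩ : ℂ) = (nr v : ℂ) * ⟨nrm v 0, nrm v 1⟩ := by
      have h2 := congrFun (nr_smul_nrm v) 0
      have h3 := congrFun (nr_smul_nrm v) 1
      simp only [Pi.smul_apply, smul_eq_mul] at h2 h3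
      apply Complex.ext
      · simp [h2]
      · simp [h3]
    show ![((⟨v 0, v 1⟩ : ℂ) ^ k).re, ((⟨v 0, v 1⟩ : ℂ) ^ k).im] = _
    unfold zk
    rw [e2, mul_pow, zpow_natCast, ← Complex.ofReal_pow]
    generalize (⟨nrm v 0, nrm v 1⟩ : ℂ) ^ k = w
    ext j
    fin_cases j
    · exact Complex.re_ofReal_mul _ _
    · exact Complex.im_ofReal_mul _ _
  rw [cls_Ze0 _ hv, e1, smul_smul, smul_smul, ← add_smul]
  refine smul_ne_zero ?_ ?_
  · have h2 : 0 < nr v ^ k := pow_pos hr k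
    rcases h0.eq_or_lt with h | h
    · rw [← h]
      linarith
    · have h3 : 0 ≤ (1 - t) * nr v := mul_nonneg (by linarith) hr.le
      positivity
  · intro h
    have h2 := zk_mem (k : ℤ) hu
    rw [h] at h2
    have h3 : (0 : Fin 2 → ℝ) ⬝ᵥ 0 = 1 := h2
    simp at h3

theorem cls_pos (k : ℕ) (m : ℕ) {v : Fin (m + 2) → ℝ} (hv : v ≠ 0) {t : ℝ} (h0 : 0 ≤ t)
    (h1 : t ≤ 1) : (1 - t) • Ze (k : ℤ) m v + t • pk k m v ≠ 0 := by
  induction m with
  | zero => exact cls_pos0 k hv h0 h1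
  | succ m ih =>
    intro h
    have h2 : pk k (m + 1) v = Fin.cons (v 0) (pk k m (Fin.tail v)) := rfl
    rw [Ze_succ, h2, cls_cons_smul, cls_cons_smul, cls_cons_add] at h
    obtain ⟨h3, h4⟩ := cls_cons_eq_zero h
    apply hv
    refine cls_eq_zero (by linarith) ?_
    by_contra h5
    exact ih h5 h4

theorem zs_pos (k m : ℕ) (hk : 1 ≤ k) :
    HIn (US (Fin (m + 2))) (fun x => Zs (k : ℤ) m ((), x)) (fun x => nrm (pk k m x.1)) := by
  have _ := hk
  have h := cls_line (n := m + 1) (f := fun x => Ze (k : ℤ) m x.1) (g := fun x => pk k m x.1)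
    ((Ze_cont _ _).comp continuous_subtype_val)
    ((pk_smooth k m).continuous.comp continuous_subtype_val)
    (fun t h0 h1 x => cls_pos k m (by
      intro h
      have h2 : x.1 ⬝ᵥ x.1 = 1 := x.2
      rw [h] at h2
      simp at h2) h0 h1)
  have e : (fun x : Sp (m + 1) => nrm (Ze (k : ℤ) m x.1)) = fun x => Zs (k : ℤ) m ((), x) := by
    funext x
    rw [Ze_unit, cls_nrm_unit (cls_Zs_mem _ _ _)]
  rwa [e] at h

/-- The unit vector in the direction of the last coordinate but one. -/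
def cls_c : (m : ℕ) → (Fin (m + 2) → ℝ)
  | 0 => ![1, 0]
  | m + 1 => Fin.cons 0 (cls_c m)

theorem cls_c_mem : ∀ m : ℕ, cls_c m ∈ US (Fin (m + 2))
  | 0 => by
    show (![1, 0] : Fin 2 → ℝ) ⬝ᵥ ![1, 0] = 1
    simp [dotProduct, Fin.sum_univ_two]
  | m + 1 => by
    have h1 : cls_c m ⬝ᵥ cls_c m = 1 := cls_c_mem m
    have h2 := cone_dot_tail (k := m + 1) (cls_c (m + 1))
    show cls_c (m + 1) ⬝ᵥ cls_c (m + 1) = 1
    rw [h2]
    show (0 : ℝ) * 0 + cls_c m ⬝ᵥ cls_c m = 1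
    rw [h1]
    ring

theorem cls_c_ne (m : ℕ) : cls_c m ≠ 0 := by
  intro h
  have h1 : cls_c m ⬝ᵥ cls_c m = 1 := cls_c_mem m
  rw [h] at h1
  simp at h1

theorem cls_zero_ne (m : ℕ) {v : Fin (m + 2) → ℝ} (hv : v ≠ 0) {t : ℝ} (h0 : 0 ≤ t)
    (h1 : t ≤ 1) : (1 - t) • Ze 0 m v + t • cls_c m ≠ 0 := by
  induction m with
  | zero =>
    have hr := cone_nr_pos hv
    have e : zk 0 (nrm v) = ![1, 0] := by
      unfold zk
      rw [zpow_zero]
      rfl
    rw [cls_Ze0 _ hv, e, smul_smul]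
    show ((1 - t) * nr v) • (![1, 0] : Fin 2 → ℝ) + t • ![1, 0] ≠ 0
    rw [← add_smul]
    refine smul_ne_zero ?_ ?_
    · rcases h0.eq_or_lt with h | h
      · rw [← h]
        linarith
      · have h3 : 0 ≤ (1 - t) * nr v := mul_nonneg (by linarith) hr.le
        positivity
    · intro h
      exact one_ne_zero (congrFun h 0)
  | succ m ih =>
    intro h
    have h2 : cls_c (m + 1) = Fin.cons 0 (cls_c m) := rfl
    rw [Ze_succ, h2, cls_cons_smul, cls_cons_smul, cls_cons_add] at h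
    obtain ⟨h3, h4⟩ := cls_cons_eq_zero h
    rw [mul_zero, add_zero] at h3
    apply hv
    by_cases h5 : (Fin.tail v : Fin (m + 2) → ℝ) = 0
    · rw [h5, Ze_zero, smul_zero, zero_add] at h4
      have h6 : t = 0 := (smul_eq_zero.1 h4).resolve_right (cls_c_ne m)
      rw [h6, sub_zero, one_mul] at h3
      exact cls_eq_zero h3 h5
    · exact absurd h4 (ih h5)

theorem zs_zero (m : ℕ) : ∃ c ∈ US (Fin (m + 2)),
    HIn (US (Fin (m + 2))) (fun x => Zs 0 m ((), x)) (fun _ => c) := by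
  refine ⟨cls_c m, cls_c_mem m, ?_⟩
  have h := cls_line (n := m + 1) (f := fun x => Ze 0 m x.1) (g := fun _ => cls_c m)
    ((Ze_cont _ _).comp continuous_subtype_val) continuous_const
    (fun t h0 h1 x => cls_zero_ne m (by
      intro h
      have h2 : x.1 ⬝ᵥ x.1 = 1 := x.2
      rw [h] at h2
      simp at h2) h0 h1)
  have e : (fun x : Sp (m + 1) => nrm (Ze 0 m x.1)) = fun x => Zs 0 m ((), x) := by
    funext x
    rw [Ze_unit, cls_nrm_unit (cls_Zs_mem _ _ _)]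
  rwa [e, cls_nrm_unit (cls_c_mem m)] at h

theorem cls_rl_smul {N : ℕ} (r : ℝ) (v : Fin (N + 1) → ℝ) : rl (r • v) = r • rl v := by
  ext i
  unfold rl
  by_cases h : i = Fin.last N
  · simp [h]
  · simp [h]

theorem cls_rl_cons {N : ℕ} (a : ℝ) (w : Fin (N + 1) → ℝ) :
    rl (Fin.cons a w : Fin (N + 2) → ℝ) = Fin.cons a (rl w) := by
  ext i
  refine Fin.cases ?_ (fun j => ?_) i
  · unfold rl
    rw [if_neg (by
      intro h
      have h1 := congrArg Fin.val h
      simp at h1)]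
    rfl
  · unfold rl
    by_cases h : j = Fin.last N
    · have h2 : j.succ = Fin.last (N + 1) := by rw [h]; rfl
      rw [if_pos h2]
      show -(w j) = (if j = Fin.last N then -w j else w j)
      rw [if_pos h]
    · have h2 : j.succ ≠ Fin.last (N + 1) := by
        intro h3
        apply h
        rw [← Fin.succ_last] at h3
        exact Fin.succ_injective _ h3
      rw [if_neg h2]
      show w j = (if j = Fin.last N then -w j else w j)
      rw [if_neg h]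

theorem zs_neg (k : ℤ) (m : ℕ) (x : Sp (m + 1)) : Zs (-k) m ((), x) = rl (Zs k m ((), x)) := by
  induction m with
  | zero =>
    show zk (-k) x.1 = rl (zk k x.1)
    have h1 := S1cls_norm (zk_mem k x.2)
    have h2 : (⟨x.1 0, x.1 1⟩ : ℂ) ^ (-k) = (starRingEnd ℂ) ((⟨x.1 0, x.1 1⟩ : ℂ) ^ k) := by
      rw [_root_.zpow_neg]
      have h3 : ‖(⟨x.1 0, x.1 1⟩ : ℂ) ^ k‖ = 1 := by
        rw [norm_zpow, S1cls_norm x.2, _root_.one_zpow]
      rw [Complex.inv_def, Complex.normSq_eq_norm_sq, h3]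
      simp
    unfold zk
    rw [h2]
    generalize (⟨x.1 0, x.1 1⟩ : ℂ) ^ k = w
    ext j
    fin_cases j
    · simp [rl]
    · simp [rl]
  | succ m ih =>
    show (Fin.cons (x.1 0) (cone (Zs (-k) m) ((), Fin.tail x.1)) : Fin (m + 3) → ℝ) =
      rl (Fin.cons (x.1 0) (cone (Zs k m) ((), Fin.tail x.1)) : Fin (m + 3) → ℝ)
    rw [cls_rl_cons]
    congr 1
    by_cases h : (Fin.tail x.1 : Fin (m + 2) → ℝ) = 0
    · rw [h, cone_zero, cone_zero]
      ext i
      simp [rl]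
    · rw [cone_eq_of_ne _ _ h, cone_eq_of_ne _ _ h, ih, cls_rl_smul]

end DT
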