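import Pool.Agent.H78.DT.Cone
import Pool.Agent.H78.DT.GlPath

/-!
# Maps from a sphere to the rotations commute up to homotopy (job DT-COMM)

PROOF. `N = susp (0, y)`, `S = susp (1, y)` are the poles.  `a = (f S)ᵀ ∈ SOs`, `b = (g N)ᵀ ∈ SOs`
are joined to `1` (`so_path`), so `f ~ a f`, `g ~ b g`, `f g ~ (a f)(b g)` and
`g f ~ (b g) (a f)`: we may assume `f S = 1`, `g N = 1`.
Let `p_u (t) = (1-u) t + u min (2t) 1` and `q_u (t) = (1-u) t + u max (2t-1) 0`: both are `0` at
`t = 0` and `1` at `t = 1`, so `(t,y) ↦ susp (p_u t, y)` descends to `P_u : Sp (k+1) → Sp (k+1)`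
(`susp` is a quotient map; `descend` in Cone.lean with parameter `u`), `P_0 = id`, and
similarly `Q_u`.  `f ~ f ∘ P_1` and `g ~ g ∘ Q_1`.  At `susp (t,y)` with `t ≥ 1/2`,
`P_1 = S`, so `f ∘ P_1 = 1`; with `t ≤ 1/2`, `Q_1 = N`, so `g ∘ Q_1 = 1`.  So `f ∘ P_1` and
`g ∘ Q_1` commute pointwise: `f g ~ (f P_1) (g Q_1) = (g Q_1) (f P_1) ~ g f`
(`HIn.map₂` with the product of matrices, `SOs` closed under products).
-/

open Matrix Set unitInterval Topology

noncomputable section

namespace DT

theorem so_mul {ι : Type} [Fintype ι] [DecidableEq ι] {M N : Matrix ι ι ℝ} (hM : M ∈ SOs ι)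
    (hN : N ∈ SOs ι) : M * N ∈ SOs ι := by
  refine ⟨?_, by rw [det_mul, hM.2, hN.2, one_mul]⟩
  rw [transpose_mul, Matrix.mul_assoc, ← Matrix.mul_assoc Mᵀ, hM.1, Matrix.one_mul, hN.1]

theorem so_transpose {ι : Type} [Fintype ι] [DecidableEq ι] {M : Matrix ι ι ℝ}
    (hM : M ∈ SOs ι) : Mᵀ ∈ SOs ι :=
  ⟨by rw [transpose_transpose]; exact mul_eq_one_comm.1 hM.1, by rw [det_transpose]; exact hM.2⟩

theorem comm_mul {X ι : Type} [TopologicalSpace X] [Fintype ι] [DecidableEq ι]
    {f g f' g' : X → Matrix ι ι ℝ} (h : HIn (SOs ι) f g) (h' : HIn (SOs ι) f' g') :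
    HIn (SOs ι) (fun x => f x * f' x) (fun x => g x * g' x) :=
  h.map₂ h' (fun M N => M * N) (continuous_fst.matrix_mul continuous_snd)
    fun _ hM _ hN => so_mul hM hN

theorem comm_norm {X ι : Type} [TopologicalSpace X] [Fintype ι] [DecidableEq ι]
    {f : X → Matrix ι ι ℝ} (hf : Continuous f) (hfS : ∀ x, f x ∈ SOs ι) {M : Matrix ι ι ℝ}
    (hM : M ∈ SOs ι) : HIn (SOs ι) (fun x => M * f x) f := by
  have h := comm_mul (hin_const (X := X) M hM) (HIn.refl hf hfS)
  simpa only [Matrix.one_mul] using h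

theorem comm_susp_zero {k : ℕ} (y y' : Sp k) : susp (0, y) = susp (0, y') := by
  apply Subtype.ext
  unfold susp sv
  simp

theorem comm_susp_one {k : ℕ} (y y' : Sp k) : susp (1, y) = susp (1, y') := by
  apply Subtype.ext
  unfold susp sv
  simp

/-- Reparametrisation of a map along the meridians. -/
theorem comm_repar {ι : Type} [Fintype ι] [DecidableEq ι] (k : ℕ) (f : Sp (k + 1) → Matrix ι ι ℝ)
    (hf : Continuous f) (hfS : ∀ x, f x ∈ SOs ι) (p : I → I) (hp : Continuous p) (hp0 : p 0 = 0)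
    (hp1 : p 1 = 1) :
    ∃ F : Sp (k + 1) → Matrix ι ι ℝ, HIn (SOs ι) f F ∧
      ∀ (t : I) (y : Sp k), F (susp (t, y)) = f (susp (p t, y)) := by
  have hmem : ∀ u t : I, (1 - (u : ℝ)) * t + (u : ℝ) * p t ∈ I := by
    intro u t
    have u0 := u.2.1
    have u1 := u.2.2
    have t0 := t.2.1
    have t1 := t.2.2
    have p0 := (p t).2.1
    have p1 := (p t).2.2
    constructor
    · have a := mul_nonneg (sub_nonneg.2 u1) t0
      have b := mul_nonneg u0 p0
      linarith
    · nlinarith
  obtain ⟨H, hHc, hH⟩ := descend (Q := I)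
    (fun q : I × (I × Sp k) =>
      f (susp (⟨(1 - (q.1 : ℝ)) * q.2.1 + (q.1 : ℝ) * p q.2.1, hmem _ _⟩, q.2.2)))
    (by
      refine hf.comp (susp_continuous.comp (Continuous.prodMk (Continuous.subtype_mk ?_ _)
        (continuous_snd.comp continuous_snd)))
      fun_prop)
    (by
      intro u y y'
      simp only
      have e : (⟨(1 - (u : ℝ)) * ((0 : I) : ℝ) + (u : ℝ) * p 0, hmem _ _⟩ : I) = 0 := by
        apply Subtype.ext
        simp only [Icc.coe_zero]
        rw [hp0, Icc.coe_zero]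
        ring
      rw [e, comm_susp_zero y y'])
    (by
      intro u y y'
      simp only
      have e : (⟨(1 - (u : ℝ)) * ((1 : I) : ℝ) + (u : ℝ) * p 1, hmem _ _⟩ : I) = 1 := by
        apply Subtype.ext
        simp only [Icc.coe_one]
        rw [hp1, Icc.coe_one]
        ring
      rw [e, comm_susp_one y y'])
  refine ⟨fun x => H (1, x), ⟨H, hHc, ?_, ?_, ?_⟩, ?_⟩
  · intro u x
    obtain ⟨⟨t, y⟩, rfl⟩ := susp_surj x
    simp only
    rw [hH]
    exact hfS _
  · intro x
    obtain ⟨⟨t, y⟩, rfl⟩ := susp_surj x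
    rw [hH]
    simp only
    have e : (⟨(1 - ((0 : I) : ℝ)) * (t : ℝ) + ((0 : I) : ℝ) * p t, hmem _ _⟩ : I) = t := by
      apply Subtype.ext
      simp only [Icc.coe_zero]
      ring
    rw [e]
  · intro x
    rfl
  · intro t y
    simp only
    rw [hH]
    simp only
    have e : (⟨(1 - ((1 : I) : ℝ)) * (t : ℝ) + ((1 : I) : ℝ) * p t, hmem _ _⟩ : I) = p t := by
      apply Subtype.ext
      simp only [Icc.coe_one]
      ring
    rw [e]

theorem comm_aux {ι : Type} [Fintype ι] [DecidableEq ι] (k : ℕ)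
    (f g : Sp (k + 1) → Matrix ι ι ℝ) (hf : Continuous f) (hg : Continuous g)
    (hfS : ∀ x, f x ∈ SOs ι) (hgS : ∀ x, g x ∈ SOs ι) (hf1 : ∀ y : Sp k, f (susp (1, y)) = 1)
    (hg0 : ∀ y : Sp k, g (susp (0, y)) = 1) :
    HIn (SOs ι) (fun x => f x * g x) (fun x => g x * f x) := by
  obtain ⟨F, hF, hF2⟩ := comm_repar k f hf hfS
    (fun t => ⟨min (2 * (t : ℝ)) 1, le_min (by have := t.2.1; positivity) zero_le_one,
      min_le_right _ _⟩)
    (Continuous.subtype_mk (by fun_prop) _)
    (by
      apply Subtype.ext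
      simp)
    (by
      apply Subtype.ext
      simp)
  obtain ⟨G, hG, hG2⟩ := comm_repar k g hg hgS
    (fun t => ⟨max (2 * (t : ℝ) - 1) 0, le_max_right _ _,
      max_le (by have := t.2.2; linarith) zero_le_one⟩)
    (Continuous.subtype_mk (by fun_prop) _)
    (by
      apply Subtype.ext
      simp)
    (by
      apply Subtype.ext
      simp only [Icc.coe_one]
      norm_num)
  have h1 := comm_mul hF hG
  have h2 := comm_mul hG hF
  have e : (fun x => F x * G x) = fun x => G x * F x := by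
    funext x
    obtain ⟨⟨t, y⟩, rfl⟩ := susp_surj x
    rcases le_total (t : ℝ) (1 / 2) with ht | ht
    · have h3 : G (susp (t, y)) = 1 := by
        rw [hG2]
        have e : (⟨max (2 * (t : ℝ) - 1) 0, le_max_right _ _,
            max_le (by have := t.2.2; linarith) zero_le_one⟩ : I) = 0 := by
          apply Subtype.ext
          simp only [Icc.coe_zero]
          exact max_eq_right (by linarith)
        rw [e]
        exact hg0 y
      rw [h3, Matrix.one_mul, Matrix.mul_one]
    · have h3 : F (susp (t, y)) = 1 := by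
        rw [hF2]
        have e : (⟨min (2 * (t : ℝ)) 1, le_min (by have := t.2.1; positivity) zero_le_one,
            min_le_right _ _⟩ : I) = 1 := by
          apply Subtype.ext
          simp only [Icc.coe_one]
          exact min_eq_right (by linarith)
        rw [e]
        exact hf1 y
      rw [h3, Matrix.one_mul, Matrix.mul_one]
  rw [e] at h1
  exact h1.trans h2.symm

theorem hin_comm {ι : Type} [Fintype ι] [DecidableEq ι] (k : ℕ)
    (f g : Sp (k + 1) → Matrix ι ι ℝ) (hf : Continuous f) (hg : Continuous g)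
    (hfS : ∀ x, f x ∈ SOs ι) (hgS : ∀ x, g x ∈ SOs ι) :
    HIn (SOs ι) (fun x => f x * g x) (fun x => g x * f x) := by
  by_cases hne : Nonempty (Sp k)
  · obtain ⟨y0⟩ := hne
    have hA := so_transpose (hfS (susp (1, y0)))
    have hB := so_transpose (hgS (susp (0, y0)))
    have h1 := comm_norm hf hfS hA
    have h2 := comm_norm hg hgS hB
    have h3 := comm_mul h1 h2
    have h4 := comm_mul h2 h1
    have h5 := comm_aux k (fun x => (f (susp (1, y0)))ᵀ * f x)
      (fun x => (g (susp (0, y0)))ᵀ * g x) h1.continuous_left h2.continuous_left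
      (fun x => so_mul hA (hfS x)) (fun x => so_mul hB (hgS x))
      (fun y => by
        rw [comm_susp_one y y0]
        exact (hfS _).1)
      (fun y => by
        rw [comm_susp_zero y y0]
        exact (hgS _).1)
    exact (h3.symm.trans h5).trans h4
  · exfalso
    apply hne
    exact ⟨⟨north k, cone_north_mem k⟩⟩

end DT
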