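import Pool.Agent.H78.DT.TSd

/-!
# Toolkit for smooth isotopies (job DT-DISO)

* `DIso.refl`: `F (t,p) = f p`, `G (t,p) = f' p` (`SmOn.comp` with the projection).
* `DIso.symm`: `F (1-t, p)`, `G (1-t,p)`.
* `DIso.congr`, `Dff.congr`: by definition.
* `DIso.left`, `DIso.right`: `f' p = G (0,p)` resp. `G (1,p)`.
* `DIso.trans`: let `χ = Real.smoothTransition`, `a t = χ (6t - 1)`: it is `0` for `t ≤ 1/6`, `1` for
  `t ≥ 1/3`, and `b t = χ (6t - 4)`: `0` for `t ≤ 2/3`, `1` for `t ≥ 5/6`.  `F (t,p) = F₁ (a t, p)` for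
  `t ≤ 1/2`, `F₂ (b t, p)` for `t > 1/2`.  For `1/3 < t < 2/3` both `F₁ (a t, p) = g p` and
  `F₂ (b t, p) = g p` on `TS`; smoothness by `SmOn.of_local` on `{t < 2/3}` (there `F = F₁ (a t, p)`
  on `TS`) and `{t > 1/3}` (there `F = F₂ (b t, p)`).  The same for `G` (the inverse `g'` of `g` on
  `TS` is unique: `G₁ (1,p) = G₂ (0,p)` on `TS`, since both are inverses of `g`).
* `DIso.mul`: `F (t,p) = F₁ (t, F₂ (t,p))`, `G (t,p) = G₂ (t, G₁ (t,p))`.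
* `DIso.inv`: `(G, F)` is a path from `f'` to `g'` (`G (0,p) = f' p` on `TS` since both are inverses
  of `f`).
* `cs_of_diso`: conjugate `τ` by the path: `F' (t,p) = F (t, τ (G (t,p)))`,
  `G' (t,p) = F (t, τ' (G (t,p)))`.  Support: the set `K = {p ∈ TS | ‖p.2‖ ≤ R₀}` is compact (`E`
  finite dimensional) so `F (I × K)` is compact and contained in `{‖p.2‖ < R}`.  If `‖p.2‖ ≥ R`, then
  `G (t,p) ∉ K` (else `p = F (t, G (t,p)) ∈ F (I × K)`), so `τ` fixes `G (t,p)` and `F' (t,p) = p`.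
-/

open Set
open scoped ContDiff

noncomputable section

namespace DT

variable {E : Type} [NormedAddCommGroup E] [InnerProductSpace ℝ E]
  {f f' g g' h k : E × E → E × E}

theorem Dff.symm (h : Dff f f') : Dff f' f := by
  exact ⟨h.2.1, h.1, fun p hp => ⟨(h.2.2 p hp).2.1, (h.2.2 p hp).1, (h.2.2 p hp).2.2.2,
    (h.2.2 p hp).2.2.1⟩⟩

theorem Dff.id : Dff (fun p : E × E => p) (fun p => p) := by
  exact ⟨SmOn.of_contDiff contDiff_id, SmOn.of_contDiff contDiff_id, fun p hp =>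
    ⟨hp, hp, rfl, rfl⟩⟩

theorem Dff.comp (h : Dff f f') (h' : Dff g g') :
    Dff (fun p => f (g p)) (fun p => g' (f' p)) := by
  refine ⟨h.1.comp h'.1 fun p hp => (h'.2.2 p hp).1,
    h'.2.1.comp h.2.1 fun p hp => (h.2.2 p hp).2.1, fun p hp => ?_⟩
  obtain ⟨a1, a2, a3, a4⟩ := h'.2.2 p hp
  obtain ⟨b1, b2, b3, b4⟩ := h.2.2 _ a1
  obtain ⟨c1, c2, c3, c4⟩ := h.2.2 p hp
  obtain ⟨d1, d2, d3, d4⟩ := h'.2.2 _ c2
  refine ⟨b1, d2, ?_, ?_⟩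
  · show g' (f' (f (g p))) = p
    rw [b3, a3]
  · show f (g (g' (f' p))) = p
    rw [d4, c4]

theorem Dff.congr (h : Dff f f') (he : ∀ p ∈ TS E, g p = f p) (he' : ∀ p ∈ TS E, g' p = f' p) :
    Dff g g' := by
  refine ⟨h.1.congr he, h.2.1.congr he', fun p hp => ?_⟩
  obtain ⟨a1, a2, a3, a4⟩ := h.2.2 p hp
  refine ⟨?_, ?_, ?_, ?_⟩
  · rw [he p hp]
    exact a1
  · rw [he' p hp]
    exact a2
  · rw [he p hp, he' _ a1, a3]
  · rw [he' p hp, he _ a2, a4]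

theorem DIsoA_slice {F G : ℝ × (E × E) → E × E} (hF : SmOn (Icc (0 : ℝ) 1 ×ˢ TS E) F)
    (hG : SmOn (Icc (0 : ℝ) 1 ×ˢ TS E) G)
    (hm : ∀ t ∈ Icc (0 : ℝ) 1, ∀ p ∈ TS E,
      F (t, p) ∈ TS E ∧ G (t, p) ∈ TS E ∧ G (t, F (t, p)) = p ∧ F (t, G (t, p)) = p)
    {t : ℝ} (ht : t ∈ Icc (0 : ℝ) 1) : Dff (fun p => F (t, p)) (fun p => G (t, p)) := by
  have hs : SmOn (TS E) (fun p : E × E => (t, p)) :=
    SmOn.of_contDiff (contDiff_const.prodMk contDiff_id)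
  exact ⟨hF.comp hs fun p hp => ⟨ht, hp⟩, hG.comp hs fun p hp => ⟨ht, hp⟩, hm t ht⟩

theorem DIsoA_zero : (0 : ℝ) ∈ Icc (0 : ℝ) 1 := ⟨le_rfl, zero_le_one⟩

theorem DIsoA_one : (1 : ℝ) ∈ Icc (0 : ℝ) 1 := ⟨zero_le_one, le_rfl⟩

/-- reparametrisation of the time -/
theorem DIsoA_rep {F : ℝ × (E × E) → E × E} (hF : SmOn (Icc (0 : ℝ) 1 ×ˢ TS E) F) {a : ℝ → ℝ}
    (ha : ContDiff ℝ ∞ a) (hm : ∀ t ∈ Icc (0 : ℝ) 1, a t ∈ Icc (0 : ℝ) 1) :
    SmOn (Icc (0 : ℝ) 1 ×ˢ TS E) (fun q => F (a q.1, q.2)) := by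
  have hs : SmOn (Icc (0 : ℝ) 1 ×ˢ TS E) (fun q : ℝ × (E × E) => (a q.1, q.2)) :=
    SmOn.of_contDiff ((ha.comp contDiff_fst).prodMk contDiff_snd)
  exact hF.comp hs fun q hq => ⟨hm q.1 hq.1, hq.2⟩

theorem DIsoA_inv0 {F G : ℝ × (E × E) → E × E} {t : ℝ}
    (hm : ∀ p ∈ TS E,
      F (t, p) ∈ TS E ∧ G (t, p) ∈ TS E ∧ G (t, F (t, p)) = p ∧ F (t, G (t, p)) = p)
    (h0 : ∀ p ∈ TS E, F (t, p) = f p) (hf : Dff f f') : ∀ p ∈ TS E, G (t, p) = f' p := by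
  intro p hp
  have h1 := (hm p hp).2.2.2
  rw [h0 _ (hm p hp).2.1] at h1
  have h2 := (hf.2.2 _ (hm p hp).2.1).2.2.1
  rw [h1] at h2
  exact h2.symm

/-- first time change -/
def DIsoA_a (t : ℝ) : ℝ := Real.smoothTransition (6 * t - 1)

/-- second time change -/
def DIsoA_b (t : ℝ) : ℝ := Real.smoothTransition (6 * t - 4)

theorem DIsoA_a_mem (t : ℝ) : DIsoA_a t ∈ Icc (0 : ℝ) 1 :=
  ⟨Real.smoothTransition.nonneg _, Real.smoothTransition.le_one _⟩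

theorem DIsoA_b_mem (t : ℝ) : DIsoA_b t ∈ Icc (0 : ℝ) 1 :=
  ⟨Real.smoothTransition.nonneg _, Real.smoothTransition.le_one _⟩

theorem DIsoA_a_smooth : ContDiff ℝ ∞ DIsoA_a :=
  Real.smoothTransition.contDiff.comp ((contDiff_const.mul contDiff_id).sub contDiff_const)

theorem DIsoA_b_smooth : ContDiff ℝ ∞ DIsoA_b :=
  Real.smoothTransition.contDiff.comp ((contDiff_const.mul contDiff_id).sub contDiff_const)

theorem DIsoA_a_one {t : ℝ} (ht : 1 / 3 ≤ t) : DIsoA_a t = 1 :=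
  Real.smoothTransition.one_of_one_le (by linarith)

theorem DIsoA_a_zero {t : ℝ} (ht : t ≤ 1 / 6) : DIsoA_a t = 0 :=
  Real.smoothTransition.zero_of_nonpos (by linarith)

theorem DIsoA_b_one {t : ℝ} (ht : 5 / 6 ≤ t) : DIsoA_b t = 1 :=
  Real.smoothTransition.one_of_one_le (by linarith)

theorem DIsoA_b_zero {t : ℝ} (ht : t ≤ 2 / 3) : DIsoA_b t = 0 :=
  Real.smoothTransition.zero_of_nonpos (by linarith)

open Classical in
/-- concatenation -/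
def DIsoA_gl (K L : ℝ × (E × E) → E × E) (q : ℝ × (E × E)) : E × E :=
  if q.1 ≤ 1 / 2 then K (DIsoA_a q.1, q.2) else L (DIsoA_b q.1, q.2)

theorem DIsoA_glue {K L : ℝ × (E × E) → E × E} (hK : SmOn (Icc (0 : ℝ) 1 ×ˢ TS E) K)
    (hL : SmOn (Icc (0 : ℝ) 1 ×ˢ TS E) L) (he : ∀ p ∈ TS E, K (1, p) = L (0, p)) :
    SmOn (Icc (0 : ℝ) 1 ×ˢ TS E) (DIsoA_gl K L) := by
  have h1 := DIsoA_rep hK DIsoA_a_smooth (fun t _ => DIsoA_a_mem t)
  have h2 := DIsoA_rep hL DIsoA_b_smooth (fun t _ => DIsoA_b_mem t)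
  apply SmOn.of_local
  intro q hq
  by_cases h3 : q.1 < 2 / 3
  · refine ⟨{q | q.1 < 2 / 3}, isOpen_lt continuous_fst continuous_const, h3, ?_⟩
    refine (h1.mono inter_subset_right).congr ?_
    rintro ⟨t, p⟩ ⟨ht, -, hp⟩
    have ht' : t < 2 / 3 := ht
    by_cases h4 : t ≤ 1 / 2
    · exact if_pos h4
    · have h5 : DIsoA_gl K L (t, p) = L (DIsoA_b t, p) := if_neg h4
      rw [h5, DIsoA_b_zero ht'.le]
      show L (0, p) = K (DIsoA_a t, p)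
      rw [DIsoA_a_one (by linarith), he p hp]
  · refine ⟨{q | 1 / 3 < q.1}, isOpen_lt continuous_const continuous_fst, ?_, ?_⟩
    · show 1 / 3 < q.1
      linarith
    refine (h2.mono inter_subset_right).congr ?_
    rintro ⟨t, p⟩ ⟨ht, -, hp⟩
    have ht' : 1 / 3 < t := ht
    by_cases h4 : t ≤ 1 / 2
    · have h5 : DIsoA_gl K L (t, p) = K (DIsoA_a t, p) := if_pos h4
      rw [h5, DIsoA_a_one ht'.le]
      show K (1, p) = L (DIsoA_b t, p)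
      rw [DIsoA_b_zero (by linarith), he p hp]
    · exact if_neg h4

theorem DIso.left (h : DIso f g) : ∃ f', Dff f f' := by
  obtain ⟨F, G, hF, hG, hm, h0, h1⟩ := h
  exact ⟨fun p => G (0, p), (DIsoA_slice hF hG hm DIsoA_zero).congr
    (fun p hp => (h0 p hp).symm) (fun _ _ => rfl)⟩

theorem DIso.right (h : DIso f g) : ∃ g', Dff g g' := by
  obtain ⟨F, G, hF, hG, hm, h0, h1⟩ := h
  exact ⟨fun p => G (1, p), (DIsoA_slice hF hG hm DIsoA_one).congr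
    (fun p hp => (h1 p hp).symm) (fun _ _ => rfl)⟩

theorem DIso.congr (hi : DIso f g) (he : ∀ p ∈ TS E, h p = f p) (he' : ∀ p ∈ TS E, k p = g p) :
    DIso h k := by
  obtain ⟨F, G, hF, hG, hm, h0, h1⟩ := hi
  exact ⟨F, G, hF, hG, hm, fun p hp => (h0 p hp).trans (he p hp).symm,
    fun p hp => (h1 p hp).trans (he' p hp).symm⟩

theorem DIso.refl (h : Dff f f') : DIso f f := by
  have hs : SmOn (Icc (0 : ℝ) 1 ×ˢ TS E) (fun q : ℝ × (E × E) => q.2) :=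
    SmOn.of_contDiff contDiff_snd
  exact ⟨fun q => f q.2, fun q => f' q.2, h.1.comp hs fun q hq => hq.2,
    h.2.1.comp hs fun q hq => hq.2, fun t _ p hp => h.2.2 p hp, fun _ _ => rfl, fun _ _ => rfl⟩

theorem DIso.symm (h : DIso f g) : DIso g f := by
  obtain ⟨F, G, hF, hG, hm, h0, h1⟩ := h
  have ha : ContDiff ℝ ∞ (fun t : ℝ => 1 - t) := contDiff_const.sub contDiff_id
  have hm' : ∀ t ∈ Icc (0 : ℝ) 1, 1 - t ∈ Icc (0 : ℝ) 1 := fun t ht =>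
    ⟨by linarith [ht.2], by linarith [ht.1]⟩
  refine ⟨fun q => F (1 - q.1, q.2), fun q => G (1 - q.1, q.2), DIsoA_rep hF ha hm',
    DIsoA_rep hG ha hm', fun t ht p hp => hm (1 - t) (hm' t ht) p hp, ?_, ?_⟩
  · intro p hp
    show F (1 - 0, p) = g p
    rw [sub_zero]
    exact h1 p hp
  · intro p hp
    show F (1 - 1, p) = f p
    rw [sub_self]
    exact h0 p hp

theorem DIso.trans (h1 : DIso f g) (h2 : DIso g h) : DIso f h := by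
  obtain ⟨F₁, G₁, hF₁, hG₁, hm₁, h01, h11⟩ := h1
  obtain ⟨F₂, G₂, hF₂, hG₂, hm₂, h02, h12⟩ := h2
  have hgd : Dff g (fun p => G₂ (0, p)) := (DIsoA_slice hF₂ hG₂ hm₂ DIsoA_zero).congr
    (fun p hp => (h02 p hp).symm) (fun _ _ => rfl)
  have eF : ∀ p ∈ TS E, F₁ (1, p) = F₂ (0, p) := fun p hp => (h11 p hp).trans (h02 p hp).symm
  have eG : ∀ p ∈ TS E, G₁ (1, p) = G₂ (0, p) := DIsoA_inv0 (hm₁ 1 DIsoA_one) h11 hgd
  refine ⟨DIsoA_gl F₁ F₂, DIsoA_gl G₁ G₂, DIsoA_glue hF₁ hF₂ eF, DIsoA_glue hG₁ hG₂ eG,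
    ?_, ?_, ?_⟩
  · intro t ht p hp
    by_cases h4 : t ≤ 1 / 2
    · have e1 : ∀ (K L : ℝ × (E × E) → E × E) (q : E × E),
          DIsoA_gl K L (t, q) = K (DIsoA_a t, q) := fun K L q => if_pos h4
      simp only [e1]
      exact hm₁ _ (DIsoA_a_mem t) p hp
    · have e1 : ∀ (K L : ℝ × (E × E) → E × E) (q : E × E),
          DIsoA_gl K L (t, q) = L (DIsoA_b t, q) := fun K L q => if_neg h4
      simp only [e1]
      exact hm₂ _ (DIsoA_b_mem t) p hp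
  · intro p hp
    have e1 : DIsoA_gl F₁ F₂ (0, p) = F₁ (DIsoA_a 0, p) := if_pos (by norm_num)
    rw [e1, DIsoA_a_zero (by norm_num)]
    exact h01 p hp
  · intro p hp
    have e1 : DIsoA_gl F₁ F₂ (1, p) = F₂ (DIsoA_b 1, p) := if_neg (by norm_num)
    rw [e1, DIsoA_b_one (by norm_num)]
    exact h12 p hp

theorem DIso.mul (h1 : DIso f g) (h2 : DIso h k) :
    DIso (fun p => f (h p)) (fun p => g (k p)) := by
  obtain ⟨F₁, G₁, hF₁, hG₁, hm₁, h01, h11⟩ := h1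
  obtain ⟨F₂, G₂, hF₂, hG₂, hm₂, h02, h12⟩ := h2
  have hfst : SmOn (Icc (0 : ℝ) 1 ×ˢ TS E) (fun q : ℝ × (E × E) => q.1) :=
    SmOn.of_contDiff contDiff_fst
  refine ⟨fun q => F₁ (q.1, F₂ q), fun q => G₂ (q.1, G₁ q), ?_, ?_, ?_, ?_, ?_⟩
  · exact hF₁.comp (hfst.prodMk hF₂) fun q hq => ⟨hq.1, (hm₂ q.1 hq.1 q.2 hq.2).1⟩
  · exact hG₂.comp (hfst.prodMk hG₁) fun q hq => ⟨hq.1, (hm₁ q.1 hq.1 q.2 hq.2).2.1⟩
  · intro t ht p hp
    obtain ⟨a1, a2, a3, a4⟩ := hm₂ t ht p hp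
    obtain ⟨b1, b2, b3, b4⟩ := hm₁ t ht _ a1
    obtain ⟨c1, c2, c3, c4⟩ := hm₁ t ht p hp
    obtain ⟨d1, d2, d3, d4⟩ := hm₂ t ht _ c2
    refine ⟨b1, d2, ?_, ?_⟩
    · show G₂ (t, G₁ (t, F₁ (t, F₂ (t, p)))) = p
      rw [b3, a3]
    · show F₁ (t, F₂ (t, G₂ (t, G₁ (t, p)))) = p
      rw [d4, c4]
  · intro p hp
    show F₁ (0, F₂ (0, p)) = f (h p)
    rw [h01 _ (hm₂ 0 DIsoA_zero p hp).1, h02 p hp]
  · intro p hp
    show F₁ (1, F₂ (1, p)) = g (k p)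
    rw [h11 _ (hm₂ 1 DIsoA_one p hp).1, h12 p hp]

theorem DIso.inv (h : DIso f g) (hf : Dff f f') (hg : Dff g g') : DIso f' g' := by
  obtain ⟨F, G, hF, hG, hm, h0, h1⟩ := h
  exact ⟨G, F, hG, hF, fun t ht p hp => ⟨(hm t ht p hp).2.1, (hm t ht p hp).1,
    (hm t ht p hp).2.2.2, (hm t ht p hp).2.2.1⟩, DIsoA_inv0 (hm 0 DIsoA_zero) h0 hf,
    DIsoA_inv0 (hm 1 DIsoA_one) h1 hg⟩

theorem cs_of_diso [FiniteDimensional ℝ E] {e e' e₁ e₁' τ τ' : E × E → E × E} (h : DIso e e₁)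
    (he : Dff e e') (he₁ : Dff e₁ e₁') (hτ : Dff τ τ')
    (hc : ∃ R : ℝ, ∀ p ∈ TS E, R ≤ ‖p.2‖ → τ p = p) :
    CSIso (fun p => e (τ (e' p))) (fun p => e₁ (τ (e₁' p))) := by
  obtain ⟨F, G, hF, hG, hm, h0, h1⟩ := h
  obtain ⟨R₀, hR₀⟩ := hc
  have g0 := DIsoA_inv0 (hm 0 DIsoA_zero) h0 he
  have g1 := DIsoA_inv0 (hm 1 DIsoA_one) h1 he₁
  have hfst : SmOn (Icc (0 : ℝ) 1 ×ˢ TS E) (fun q : ℝ × (E × E) => q.1) :=
    SmOn.of_contDiff contDiff_fst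
  have hsm : ∀ s s' : E × E → E × E, Dff s s' →
      SmOn (Icc (0 : ℝ) 1 ×ˢ TS E) (fun q => F (q.1, s (G q))) := by
    intro s s' hs
    have h2 : SmOn (Icc (0 : ℝ) 1 ×ˢ TS E) (fun q => s (G q)) :=
      hs.1.comp hG fun q hq => (hm q.1 hq.1 q.2 hq.2).2.1
    exact hF.comp (hfst.prodMk h2) fun q hq =>
      ⟨hq.1, (hs.2.2 _ (hm q.1 hq.1 q.2 hq.2).2.1).1⟩
  have hinv : ∀ s s' : E × E → E × E, Dff s s' → ∀ t ∈ Icc (0 : ℝ) 1, ∀ p ∈ TS E,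
      F (t, s (G (t, p))) ∈ TS E ∧ F (t, s' (G (t, F (t, s (G (t, p)))))) = p := by
    intro s s' hs t ht p hp
    obtain ⟨a1, a2, a3, a4⟩ := hm t ht p hp
    obtain ⟨b1, b2, b3, b4⟩ := hs.2.2 _ a2
    obtain ⟨c1, c2, c3, c4⟩ := hm t ht _ b1
    refine ⟨c1, ?_⟩
    rw [c3, b3, a4]
  refine ⟨fun q => F (q.1, τ (G q)), fun q => F (q.1, τ' (G q)),
    ⟨hsm τ τ' hτ, hsm τ' τ hτ.symm, fun t ht p hp => ⟨(hinv τ τ' hτ t ht p hp).1,
      (hinv τ' τ hτ.symm t ht p hp).1, (hinv τ τ' hτ t ht p hp).2,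
      (hinv τ' τ hτ.symm t ht p hp).2⟩, ?_, ?_⟩, ?_⟩
  · intro p hp
    show F (0, τ (G (0, p))) = e (τ (e' p))
    rw [h0 _ (hτ.2.2 _ (hm 0 DIsoA_zero p hp).2.1).1, g0 p hp]
  · intro p hp
    show F (1, τ (G (1, p))) = e₁ (τ (e₁' p))
    rw [h1 _ (hτ.2.2 _ (hm 1 DIsoA_one p hp).2.1).1, g1 p hp]
  · have hTS : IsClosed (TS E) :=
      (isClosed_eq (continuous_fst.norm) continuous_const).inter
        (isClosed_eq (continuous_fst.inner continuous_snd) continuous_const)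
    have hK : IsCompact (TS E ∩ {p : E × E | ‖p.2‖ ≤ R₀}) := by
      apply Metric.isCompact_of_isClosed_isBounded
      · exact hTS.inter (isClosed_le continuous_snd.norm continuous_const)
      · refine (Metric.isBounded_closedBall (x := (0 : E × E)) (r := max 1 R₀)).subset ?_
        rintro p ⟨hp1, hp2⟩
        rw [mem_closedBall_zero_iff, Prod.norm_def]
        exact max_le_max hp1.1.le hp2
    obtain ⟨C, hC⟩ := ((isCompact_Icc (a := (0 : ℝ)) (b := 1)).prod hK).exists_bound_of_continuousOn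
      (hF.continuousOn.mono (prod_mono_right inter_subset_left))
    refine ⟨C + 1, fun t ht p hp hR => ?_⟩
    obtain ⟨a1, a2, a3, a4⟩ := hm t ht p hp
    have hq : R₀ ≤ ‖(G (t, p)).2‖ := by
      by_contra hlt
      have h3 := hC (t, G (t, p)) ⟨ht, a2, (not_le.1 hlt).le⟩
      rw [a4] at h3
      have h4 : ‖p.2‖ ≤ ‖p‖ := norm_snd_le p
      linarith
    show F (t, τ (G (t, p))) = p
    rw [hR₀ _ a2 hq, a4]

end DT
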