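import Pool.Agent.H78.DT.Basic
import Pool.Agent.H78.DT.Cone
import Pool.Agent.H78.DT.LowDim

/-!
# From separated preimages to a suspension (job DT-TOSUSP)

`N = north (m+1)`.  `F (p, x) ≠ N` if `x₀ ≤ 0`, `F (p, x) ≠ -N` if `x₀ ≥ 0`.  Then `F` is
homotopic to a fibrewise suspension, relative to the fibres on which `F` is the identity.

PROOF. STAGE 1. For `c ∈ ℝ` the map (dilation in stereographic coordinates)
`Dil c x = ((1+x₀) + e^{2c}(1-x₀))⁻¹ • ((1+x₀) - e^{2c}(1-x₀), 2e^c x')`, `x = (x₀, x')` on the unit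
sphere, is continuous in `(c, x)`, maps the unit sphere to itself, fixes `±N`, and maps other
points to points other than `±N` (denominator positive; norm:
`((1+x₀) - E²(1-x₀))² + 4E²(1-x₀²) = ((1+x₀)+E²(1-x₀))²`).  Let
`L (x) = (1/2) log ((1-x₀)/(1+x₀))` for `x ≠ ±N`; `L (Dil c x) = L (x) + c`.
By compactness of `P × {x₀ = 0}` there is `ε > 0` with `F (p, x) ≠ ±N` for `|x₀| ≤ ε`
(for `x₀ = 0` both hypotheses apply).  Let `ψ (x₀) = max 0 (1 - |x₀|/ε)` and
`c (p, x) = -ψ(x₀) (L (F(p,x)) - L (x))` (and `0` for `|x₀| ≥ ε`); continuous.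
`F_s (p, x) = Dil (s c(p,x)) (F (p,x))`, `s ∈ I`.  `F_s (p,x) = ±N ↔ F (p,x) = ±N`.  If
`F (p,·) = id` then `c = 0`.  At `s = 1`, `x₀ = 0`: `L (F_1) = L(F) - L(F) + L(x) = 0`, so
`(F_1)₀ = 0`.
STAGE 2. Put `F' (p, y) = tail (F_1 (p, (0, y)))`, `(0, y) = susp (1/2, y)`, a unit vector; if
`F (p,·) = id` then `F' (p, y) = y`.  `G = suspF F'`, `G₀ (p, x) = x₀`, and `G = F_1` for
`x₀ = 0`.  On the closed set `x₀ ≥ 0` both `F_1` and `G` avoid `-N`; use the homeomorphism
`σ (x) = x'/(1+x₀)` from the sphere minus `-N` to `ℝ^(m+1)`, inverse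
`w ↦ (1+w⬝w)⁻¹ • (1 - w⬝w, 2w)`, and the straight line `σ⁻¹ ((1-s) σ(F_1) + s σ(G))`.  On the
closed set `x₀ ≤ 0` both avoid `N`; use `σ' (x) = x'/(1-x₀)`, inverse
`w ↦ (1+w⬝w)⁻¹ • (w⬝w - 1, 2w)`.  For `x₀ = 0` both homotopies are constant, so they fit together
(continuity on a union of two closed sets).  If `F (p,·) = id` then `F_1 = G = id` on that fibre
and the homotopy is constant.
-/

open Matrix Set unitInterval Topology

noncomputable section

namespace DT

theorem toSusp_cont_tail {X : Type*} [TopologicalSpace X] {k : ℕ} {f : X → (Fin (k + 1) → ℝ)}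
    (hf : Continuous f) : Continuous fun x => Fin.tail (f x) :=
  continuous_pi fun i => (continuous_apply i.succ).comp hf

theorem toSusp_cont_cons {X : Type*} [TopologicalSpace X] {k : ℕ} {a : X → ℝ}
    {f : X → (Fin k → ℝ)} (ha : Continuous a) (hf : Continuous f) :
    Continuous fun x => (Fin.cons (a x) (f x) : Fin (k + 1) → ℝ) := by
  refine continuous_pi fun i => ?_
  refine Fin.cases ?_ (fun j => ?_) i
  · simp only [Fin.cons_zero]
    exact ha
  · simp only [Fin.cons_succ]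
    exact (continuous_apply j).comp hf

/-- The straight line in stereographic coordinates from `-z`. -/
def toSusp_mix {κ : Type} [Fintype κ] (z : κ → ℝ) (u : ℝ) (a b : κ → ℝ) : κ → ℝ :=
  lowDim_rho z ((1 - u) • lowDim_tau z a + u • lowDim_tau z b)

theorem toSusp_line {κ : Type} [Fintype κ] {z a b : κ → ℝ} (hz : z ∈ US κ) (ha : a ∈ US κ)
    (hb : b ∈ US κ) (ha' : a ≠ -z) (hb' : b ≠ -z) (u : ℝ) :
    ((1 - u) • lowDim_tau z a + u • lowDim_tau z b) ⬝ᵥ z = 1 := by
  rw [add_dotProduct, smul_dotProduct, smul_dotProduct, lowDim_tau_dot hz (lowDim_dot_ne ha hz ha'),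
    lowDim_tau_dot hz (lowDim_dot_ne hb hz hb')]
  simp only [smul_eq_mul]
  ring

theorem toSusp_line_ne {κ : Type} [Fintype κ] {z a b : κ → ℝ} (hz : z ∈ US κ) (ha : a ∈ US κ)
    (hb : b ∈ US κ) (ha' : a ≠ -z) (hb' : b ≠ -z) (u : ℝ) :
    ((1 - u) • lowDim_tau z a + u • lowDim_tau z b) ⬝ᵥ
      ((1 - u) • lowDim_tau z a + u • lowDim_tau z b) ≠ 0 := by
  intro h0
  rw [dotProduct_self_eq_zero] at h0
  have := toSusp_line hz ha hb ha' hb' u
  rw [h0, zero_dotProduct] at this
  exact zero_ne_one this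

theorem toSusp_mix_mem {κ : Type} [Fintype κ] {z a b : κ → ℝ} (hz : z ∈ US κ) (ha : a ∈ US κ)
    (hb : b ∈ US κ) (ha' : a ≠ -z) (hb' : b ≠ -z) (u : ℝ) : toSusp_mix z u a b ∈ US κ :=
  lowDim_rho_mem hz (toSusp_line hz ha hb ha' hb' u)

theorem toSusp_mix_zero {κ : Type} [Fintype κ] {z a : κ → ℝ} (b : κ → ℝ) (hz : z ∈ US κ)
    (ha : a ∈ US κ) (ha' : a ≠ -z) : toSusp_mix z 0 a b = a := by
  unfold toSusp_mix
  simp only [sub_zero, one_smul, zero_smul, add_zero]
  exact lowDim_rho_tau ha hz (lowDim_dot_ne ha hz ha')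

theorem toSusp_mix_one {κ : Type} [Fintype κ] {z b : κ → ℝ} (a : κ → ℝ) (hz : z ∈ US κ)
    (hb : b ∈ US κ) (hb' : b ≠ -z) : toSusp_mix z 1 a b = b := by
  unfold toSusp_mix
  simp only [sub_self, one_smul, zero_smul, zero_add]
  exact lowDim_rho_tau hb hz (lowDim_dot_ne hb hz hb')

theorem toSusp_mix_self {κ : Type} [Fintype κ] {z a : κ → ℝ} (u : ℝ) (hz : z ∈ US κ)
    (ha : a ∈ US κ) (ha' : a ≠ -z) : toSusp_mix z u a a = a := by
  unfold toSusp_mix
  rw [← add_smul, sub_add_cancel, one_smul]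
  exact lowDim_rho_tau ha hz (lowDim_dot_ne ha hz ha')

theorem toSusp_mix_cont {X : Type*} [TopologicalSpace X] {κ : Type} [Fintype κ] {z : κ → ℝ}
    (hz : z ∈ US κ) {u : X → ℝ} {a b : X → (κ → ℝ)} (hu : Continuous u) (ha : Continuous a)
    (hb : Continuous b) (haU : ∀ x, a x ∈ US κ) (hbU : ∀ x, b x ∈ US κ) (T : Set X)
    (haT : ∀ x ∈ T, a x ≠ -z) (hbT : ∀ x ∈ T, b x ≠ -z) :
    ContinuousOn (fun x => toSusp_mix z (u x) (a x) (b x)) T := by
  have hcd : ∀ (a b : X → (κ → ℝ)), ContinuousOn a T →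
      ContinuousOn b T → ContinuousOn (fun y => a y ⬝ᵥ b y) T := by
    intro a b ha hb
    unfold dotProduct
    exact continuousOn_finsetSum _ fun i _ =>
      ((continuous_apply i).comp_continuousOn ha).mul ((continuous_apply i).comp_continuousOn hb)
  have htau : ∀ (a : X → (κ → ℝ)), Continuous a → (∀ x, a x ∈ US κ) → (∀ x ∈ T, a x ≠ -z) →
      ContinuousOn (fun x => lowDim_tau z (a x)) T := by
    intro a ha haU haT
    unfold lowDim_tau
    refine ContinuousOn.smul (ContinuousOn.inv₀ (continuousOn_const.add ?_)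
      fun p hp => lowDim_dot_ne (haU p) hz (haT p hp)) (ha.continuousOn.add continuousOn_const)
    exact hcd _ _ ha.continuousOn continuousOn_const
  have h5 : ContinuousOn (fun x => (1 - u x) • lowDim_tau z (a x) + u x • lowDim_tau z (b x)) T :=
    ((continuousOn_const.sub hu.continuousOn).smul (htau a ha haU haT)).add
      (hu.continuousOn.smul (htau b hb hbU hbT))
  unfold toSusp_mix lowDim_rho
  exact ((continuousOn_const.div (hcd _ _ h5 h5) fun x hx =>
    toSusp_line_ne hz (haU x) (hbU x) (haT x hx) (hbT x hx) _).smul h5).sub continuousOn_const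

/-- A unit vector with zero tail is a pole. -/
theorem toSusp_pole {k : ℕ} {v : Fin (k + 2) → ℝ} (hv : v ∈ US (Fin (k + 2)))
    (h : Fin.tail v = 0) : v = north (k + 1) ∨ v = -north (k + 1) := by
  have h1 : v ⬝ᵥ v = 1 := hv
  rw [cone_dot_tail, h, dotProduct_zero, add_zero] at h1
  have h2 : v = Fin.cons (v 0) (Fin.tail v) := (Fin.cons_self_tail v).symm
  rw [h] at h2
  rcases mul_self_eq_one_iff.1 h1 with h3 | h3
  · left
    rw [h2, h3]
    rfl
  · right
    rw [h2, h3]
    ext i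
    refine Fin.cases ?_ (fun j => ?_) i
    · simp [north]
    · simp [north]

theorem toSusp_half : Real.pi * ((⟨1 / 2, by norm_num, by norm_num⟩ : I) : ℝ) = Real.pi / 2 := by
  simp only
  ring

theorem toSusp_equator {m : ℕ} (x : Sp (m + 1)) (hx : x.1 0 = 0) :
    ∃ l : Sp m, x = susp (⟨1 / 2, by norm_num, by norm_num⟩, l) := by
  obtain ⟨⟨t, l⟩, rfl⟩ := susp_surj x
  refine ⟨l, ?_⟩
  have h1 : Real.cos (Real.pi * (t : ℝ)) = 0 := by
    have : (susp (t, l)).1 0 = Real.cos (Real.pi * (t : ℝ)) := by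
      unfold susp sv
      simp only [Fin.cons_zero]
    rw [← this]
    exact hx
  have hpi := Real.pi_pos
  have h2 : Real.pi * (t : ℝ) = Real.pi / 2 := by
    apply Real.injOn_cos
    · exact ⟨mul_nonneg hpi.le t.2.1, by nlinarith [t.2.2]⟩
    · exact ⟨by positivity, by linarith⟩
    · rw [h1, Real.cos_pi_div_two]
  have h3 : (t : ℝ) = 1 / 2 := by
    have : Real.pi * (t : ℝ) = Real.pi * (1 / 2) := by rw [h2]; ring
    exact mul_left_cancel₀ hpi.ne' this
  have h4 : t = ⟨1 / 2, by norm_num, by norm_num⟩ := Subtype.ext h3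
  rw [h4]

theorem toSusp_sv_half {k : ℕ} (y : Fin k → ℝ) :
    sv ((⟨1 / 2, by norm_num, by norm_num⟩ : I) : ℝ) y = Fin.cons 0 y := by
  unfold sv
  rw [toSusp_half, Real.cos_pi_div_two, Real.sin_pi_div_two, one_smul]

theorem toSusp_nr_cons_zero {k : ℕ} (y : Fin (k + 1) → ℝ) :
    nr (Fin.cons 0 y : Fin (k + 2) → ℝ) = nr y := by
  unfold nr
  rw [cone_dot_tail, Fin.cons_zero, Fin.tail_cons, mul_zero, zero_add]

theorem toSusp_nrm_cons_zero {k : ℕ} (y : Fin (k + 1) → ℝ) :
    nrm (Fin.cons 0 y : Fin (k + 2) → ℝ) = Fin.cons 0 (nrm y) := by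
  unfold nrm
  rw [toSusp_nr_cons_zero]
  ext i
  refine Fin.cases ?_ (fun j => ?_) i
  · simp
  · simp

theorem to_susp {P : Type} [TopologicalSpace P] [CompactSpace P] (m : ℕ)
    (F : P × Sp (m + 1) → (Fin (m + 2) → ℝ)) (hF : Continuous F)
    (hU : ∀ q, F q ∈ US (Fin (m + 2)))
    (hN : ∀ (p : P) (x : Sp (m + 1)), x.1 0 ≤ 0 → F (p, x) ≠ north (m + 1))
    (hS : ∀ (p : P) (x : Sp (m + 1)), 0 ≤ x.1 0 → F (p, x) ≠ -north (m + 1)) :
    ∃ F' : P × Sp m → (Fin (m + 1) → ℝ), Continuous F' ∧ (∀ q, F' q ∈ US (Fin (m + 1))) ∧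
      (∀ p, (∀ x : Sp (m + 1), F (p, x) = x.1) → ∀ y : Sp m, F' (p, y) = y.1) ∧
      HRel (US (Fin (m + 2))) {q : P × Sp (m + 1) | ∀ x : Sp (m + 1), F (q.1, x) = x.1} F
        (suspF F') := by
  set d : P × Sp (m + 1) → ℝ := fun q => nr (Fin.tail (F q)) with hd
  have hdc : Continuous d := continuous_nr.comp (toSusp_cont_tail hF)
  have hx0 : Continuous fun q : P × Sp (m + 1) => q.2.1 0 :=
    (continuous_apply 0).comp (continuous_subtype_val.comp continuous_snd)
  have hdpos : ∀ q, 0 ≤ d q := fun q => nr_nonneg _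
  have hpole : ∀ q, d q = 0 → Fin.tail (F q) = 0 := by
    intro q hq
    by_contra h
    exact (cone_nr_pos h).ne' hq
  have hden : ∀ q : P × Sp (m + 1), 0 < d q + |q.2.1 0| := by
    intro q
    rcases (hdpos q).lt_or_eq with h | h
    · have := abs_nonneg (q.2.1 0)
      linarith
    · have h1 := hpole q h.symm
      rcases toSusp_pole (hU q) h1 with h2 | h2
      · have h3 : 0 < q.2.1 0 := by
          by_contra h4
          exact hN q.1 q.2 (not_lt.1 h4) h2
        have := abs_pos.2 h3.ne'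
        linarith
      · have h3 : q.2.1 0 < 0 := by
          by_contra h4
          exact hS q.1 q.2 (not_lt.1 h4) h2
        have := abs_pos.2 h3.ne
        linarith
  set ψ : P × Sp (m + 1) → ℝ := fun q => d q / (d q + |q.2.1 0|) with hψ
  have hψc : Continuous ψ := hdc.div (hdc.add hx0.abs) fun q => (hden q).ne'
  set W : ℝ → P × Sp (m + 1) → (Fin (m + 2) → ℝ) := fun s q =>
    Fin.cons (F q 0 - s * (ψ q * (F q 0 - q.2.1 0))) (Fin.tail (F q)) with hW
  have hWc : Continuous fun p : I × (P × Sp (m + 1)) => W p.1 p.2 := by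
    apply toSusp_cont_cons
    · have h1 : Continuous fun p : I × (P × Sp (m + 1)) => F p.2 0 :=
        (continuous_apply 0).comp (hF.comp continuous_snd)
      have h2 : Continuous fun p : I × (P × Sp (m + 1)) => ψ p.2 := hψc.comp continuous_snd
      have h3 : Continuous fun p : I × (P × Sp (m + 1)) => p.2.2.1 0 := hx0.comp continuous_snd
      have h4 : Continuous fun p : I × (P × Sp (m + 1)) => (p.1 : ℝ) :=
        continuous_subtype_val.comp continuous_fst
      exact h1.sub (h4.mul (h2.mul (h1.sub h3)))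
    · exact toSusp_cont_tail (hF.comp continuous_snd)
  have hWtail : ∀ s q, Fin.tail (W s q) = Fin.tail (F q) := fun s q => by
    simp only [hW, Fin.tail_cons]
  have hWpole : ∀ s q, Fin.tail (F q) = 0 → W s q = F q := by
    intro s q h
    have h1 : ψ q = 0 := by
      simp only [hψ, hd]
      rw [h, cone_nr_zero, zero_div]
    simp only [hW]
    rw [h1, zero_mul, mul_zero, sub_zero, Fin.cons_self_tail]
  have hW0 : ∀ q, W 0 q = F q := by
    intro q
    simp only [hW]
    rw [zero_mul, sub_zero, Fin.cons_self_tail]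
  have hFne : ∀ q, F q ≠ 0 := by
    intro q h
    have h1 : F q ⬝ᵥ F q = 1 := hU q
    rw [h, dotProduct_zero] at h1
    exact zero_ne_one h1
  have hWne : ∀ s q, W s q ≠ 0 := by
    intro s q h
    by_cases h1 : Fin.tail (F q) = 0
    · rw [hWpole s q h1] at h
      exact hFne q h
    · apply h1
      rw [← hWtail s q, h]
      rfl
  have hFid : ∀ q, (∀ x : Sp (m + 1), F (q.1, x) = x.1) → F q = q.2.1 := fun q hq => hq q.2
  have hWid : ∀ s q, (∀ x : Sp (m + 1), F (q.1, x) = x.1) → W s q = F q := by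
    intro s q hq
    simp only [hW]
    have h1 : F q 0 - q.2.1 0 = 0 := by rw [hFid q hq, sub_self]
    rw [h1, mul_zero, mul_zero, sub_zero, Fin.cons_self_tail]
  set F1 : P × Sp (m + 1) → (Fin (m + 2) → ℝ) := fun q => nrm (W 1 q) with hF1
  have hWc1 : Continuous (W 1) := by
    have := hWc.comp (Continuous.prodMk (continuous_const (y := (1 : I))) continuous_id)
    simpa [Function.comp_def] using this
  have hF1c : Continuous F1 := lowDim_continuous_nrm hWc1 (hWne 1)
  have hF1U : ∀ q, F1 q ∈ US (Fin (m + 2)) := fun q => nrm_mem (hWne 1 q)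
  have step1 : HRel (US (Fin (m + 2)))
      {q : P × Sp (m + 1) | ∀ x : Sp (m + 1), F (q.1, x) = x.1} F F1 := by
    refine ⟨fun p => nrm (W p.1 p.2), lowDim_continuous_nrm hWc fun p => hWne _ _, ?_, ?_, ?_⟩
    · intro u
      refine ⟨fun q => nrm_mem (hWne _ _), fun q hq => ?_⟩
      simp only
      rw [hWid _ q hq]
      exact lowDim_nrm_self (hU q)
    · intro q
      simp only [Icc.coe_zero]
      rw [hW0]
      exact lowDim_nrm_self (hU q)
    · intro q
      simp only [Icc.coe_one, hF1]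
  have hF1pole : ∀ q, Fin.tail (F1 q) = 0 → F1 q = F q := by
    intro q h
    have h1 : Fin.tail (F q) = 0 := by
      rw [← hWtail 1 q, ← nr_smul_nrm (W 1 q)]
      have : Fin.tail (nr (W 1 q) • nrm (W 1 q)) = nr (W 1 q) • Fin.tail (nrm (W 1 q)) := rfl
      rw [this]
      have h2 : Fin.tail (nrm (W 1 q)) = 0 := h
      rw [h2, smul_zero]
    simp only [hF1]
    rw [hWpole 1 q h1]
    exact lowDim_nrm_self (hU q)
  have htn : Fin.tail (north (m + 1)) = 0 := by
    unfold north
    rw [Fin.tail_cons]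
  have htn' : Fin.tail (-north (m + 1)) = 0 := by
    have : Fin.tail (-north (m + 1)) = -Fin.tail (north (m + 1)) := rfl
    rw [this, htn, neg_zero]
  have hF1N : ∀ q : P × Sp (m + 1), q.2.1 0 ≤ 0 → F1 q ≠ north (m + 1) := by
    intro q hq h
    have h1 := hF1pole q (by rw [h, htn])
    exact hN q.1 q.2 hq (h1.symm.trans h)
  have hF1S : ∀ q : P × Sp (m + 1), 0 ≤ q.2.1 0 → F1 q ≠ -north (m + 1) := by
    intro q hq h
    have h1 := hF1pole q (by rw [h, htn'])
    exact hS q.1 q.2 hq (h1.symm.trans h)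
  -- the map on the equator
  set F' : P × Sp m → (Fin (m + 1) → ℝ) := fun q =>
    nrm (Fin.tail (F (q.1, susp (⟨1 / 2, by norm_num, by norm_num⟩, q.2)))) with hF'
  have hsusp0 : ∀ y : Sp m, (susp ((⟨1 / 2, by norm_num, by norm_num⟩ : I), y)).1
      = Fin.cons 0 y.1 := by
    intro y
    unfold susp
    exact toSusp_sv_half y.1
  have hsusp00 : ∀ y : Sp m, (susp ((⟨1 / 2, by norm_num, by norm_num⟩ : I), y)).1 0 = 0 := by
    intro y
    rw [hsusp0, Fin.cons_zero]
  have htne : ∀ q : P × Sp m,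
      Fin.tail (F (q.1, susp (⟨1 / 2, by norm_num, by norm_num⟩, q.2))) ≠ 0 := by
    intro q h
    rcases toSusp_pole (hU _) h with h2 | h2
    · exact hN _ _ (hsusp00 q.2).le h2
    · exact hS _ _ (hsusp00 q.2).ge h2
  have hF'c : Continuous F' := by
    apply lowDim_continuous_nrm _ htne
    apply toSusp_cont_tail
    refine hF.comp (continuous_fst.prodMk ?_)
    exact susp_continuous.comp (continuous_const.prodMk continuous_snd)
  have hF'U : ∀ q, F' q ∈ US (Fin (m + 1)) := fun q => nrm_mem (htne q)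
  have hF'id : ∀ p, (∀ x : Sp (m + 1), F (p, x) = x.1) → ∀ y : Sp m, F' (p, y) = y.1 := by
    intro p hp y
    simp only [hF']
    rw [hp, hsusp0, Fin.tail_cons]
    exact lowDim_nrm_self y.2
  have hGc : Continuous (suspF F') := continuous_suspF F' hF'c
  have hGU : ∀ q, suspF F' q ∈ US (Fin (m + 2)) := suspF_mem F' hF'U
  have hG0 : ∀ q, suspF F' q 0 = q.2.1 0 := by
    intro q
    unfold suspF
    rw [Fin.cons_zero]
  have hn0 : north (m + 1) 0 = 1 := by
    unfold north
    rw [Fin.cons_zero]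
  have hGN : ∀ q : P × Sp (m + 1), q.2.1 0 ≤ 0 → suspF F' q ≠ north (m + 1) := by
    intro q hq h
    have h1 := hG0 q
    rw [h, hn0] at h1
    linarith
  have hGS : ∀ q : P × Sp (m + 1), 0 ≤ q.2.1 0 → suspF F' q ≠ -north (m + 1) := by
    intro q hq h
    have h1 := hG0 q
    rw [h, Pi.neg_apply, hn0] at h1
    linarith
  have hGid : ∀ q : P × Sp (m + 1), (∀ x : Sp (m + 1), F (q.1, x) = x.1) →
      suspF F' q = F1 q := by
    intro q hq
    have h1 : F1 q = q.2.1 := by
      simp only [hF1]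
      rw [hWid 1 q hq, lowDim_nrm_self (hU q)]
      exact hFid q hq
    rw [h1]
    obtain ⟨p, x⟩ := q
    obtain ⟨⟨t, l⟩, rfl⟩ := susp_surj x
    rw [suspF_susp]
    simp only
    rw [hF'id p hq l]
    rfl
  have hGeq : ∀ q : P × Sp (m + 1), q.2.1 0 = 0 → suspF F' q = F1 q := by
    rintro ⟨p, x⟩ hx
    obtain ⟨l, rfl⟩ := toSusp_equator x hx
    rw [suspF_susp]
    simp only
    rw [toSusp_sv_half]
    simp only [hF1, hW, hψ]
    have h1 : d (p, susp ((⟨1 / 2, by norm_num, by norm_num⟩ : I), l)) ≠ 0 :=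
      (cone_nr_pos (htne (p, l))).ne'
    rw [hsusp00, abs_zero, add_zero, div_self h1, sub_zero, one_mul, one_mul, sub_self,
      toSusp_nrm_cons_zero]
  have hz : north (m + 1) ∈ US (Fin (m + 2)) := cone_north_mem (m + 1)
  have hz' : -north (m + 1) ∈ US (Fin (m + 2)) := by
    have : north (m + 1) ⬝ᵥ north (m + 1) = 1 := hz
    change -north (m + 1) ⬝ᵥ -north (m + 1) = 1
    rw [neg_dotProduct_neg, this]
  have hF1N' : ∀ q : P × Sp (m + 1), q.2.1 0 ≤ 0 → F1 q ≠ - -north (m + 1) := by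
    intro q hq
    rw [neg_neg]
    exact hF1N q hq
  have hGN' : ∀ q : P × Sp (m + 1), q.2.1 0 ≤ 0 → suspF F' q ≠ - -north (m + 1) := by
    intro q hq
    rw [neg_neg]
    exact hGN q hq
  have step2 : HRel (US (Fin (m + 2)))
      {q : P × Sp (m + 1) | ∀ x : Sp (m + 1), F (q.1, x) = x.1} F1 (suspF F') := by
    refine ⟨fun p => if 0 ≤ p.2.2.1 0 then
        toSusp_mix (north (m + 1)) p.1 (F1 p.2) (suspF F' p.2) else
        toSusp_mix (-north (m + 1)) p.1 (F1 p.2) (suspF F' p.2), ?_, ?_, ?_, ?_⟩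
    · refine continuous_if_le continuous_const (hx0.comp continuous_snd) ?_ ?_ ?_
      · exact toSusp_mix_cont hz (continuous_subtype_val.comp continuous_fst)
          (hF1c.comp continuous_snd) (hGc.comp continuous_snd) (fun p => hF1U _) (fun p => hGU _) _
          (fun p hp => hF1S _ hp) (fun p hp => hGS _ hp)
      · exact toSusp_mix_cont hz' (continuous_subtype_val.comp continuous_fst)
          (hF1c.comp continuous_snd) (hGc.comp continuous_snd) (fun p => hF1U _) (fun p => hGU _) _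
          (fun p hp => hF1N' _ hp) (fun p hp => hGN' _ hp)
      · intro p hp
        have hp' : p.2.2.1 0 = 0 := hp.symm
        rw [hGeq p.2 hp', toSusp_mix_self _ hz (hF1U _) (hF1S _ hp'.ge),
          toSusp_mix_self _ hz' (hF1U _) (hF1N' _ hp'.le)]
    · intro u
      refine ⟨fun q => ?_, fun q hq => ?_⟩
      · simp only
        split_ifs with h
        · exact toSusp_mix_mem hz (hF1U _) (hGU _) (hF1S _ h) (hGS _ h) _
        · have h' := (not_le.1 h).le
          exact toSusp_mix_mem hz' (hF1U _) (hGU _) (hF1N' _ h') (hGN' _ h') _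
      · simp only
        rw [hGid q hq]
        split_ifs with h
        · exact toSusp_mix_self _ hz (hF1U _) (hF1S _ h)
        · exact toSusp_mix_self _ hz' (hF1U _) (hF1N' _ (not_le.1 h).le)
    · intro q
      simp only [Icc.coe_zero]
      split_ifs with h
      · exact toSusp_mix_zero _ hz (hF1U _) (hF1S _ h)
      · exact toSusp_mix_zero _ hz' (hF1U _) (hF1N' _ (not_le.1 h).le)
    · intro q
      simp only [Icc.coe_one]
      split_ifs with h
      · exact toSusp_mix_one _ hz (hGU _) (hGS _ h)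
      · exact toSusp_mix_one _ hz' (hGU _) (hGN' _ (not_le.1 h).le)
  exact ⟨F', hF'c, hF'U, hF'id, step1.trans step2⟩

end DT
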