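import Pool.Agent.H78.DT.Push
import Pool.Agent.H78.DT.ToSusp

/-!
# Freudenthal suspension theorem, surjectivity (job DT-FREUD)

Assembly of `gen_pt` / `gen_I`, `push`, `to_susp`.

`freud_pt`: `F ~ F₁` (`gen_pt`) `~ F₂` (`push`, `P = Unit`, `κ = 1`) `~ suspF F'` (`to_susp`).
`freud_I`: the same with `P = I`, relative to `q.1 ∈ {0, 1}`: `HRel` with respect to
`{q | q.1 = 0 ∨ q.1 = 1}`; `κ 0 = κ 1 = 0`, so `push` is relative to it (use `HP.mono` to shrink the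
set), and after these two steps `F₂ (0, x) = F₂ (1, x) = x`, so `to_susp` is relative to it too.
`susp_hrel`, `susp_hin`: homotopies of `F'` can be suspended: `suspF` of the homotopy, seen as a
map `(I × P) × Sp m → ...` (`continuous_suspF`, `suspF_mem`); the suspension of the identity
is the identity (`suspF_susp`, `susp_surj`).
-/

open Matrix Set unitInterval Topology

noncomputable section

namespace DT

theorem freud_mono {X Y : Type*} [TopologicalSpace X] [TopologicalSpace Y] {A : Set Y}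
    {S S' : Set X} {f g : X → Y} (h : HRel A S f g) (hS : S' ⊆ S) : HRel A S' f g :=
  HP.mono h (fun _ hq => ⟨hq.1, fun x hx => hq.2 x (hS hx)⟩)

theorem freud_pt (m : ℕ) (hm : 1 ≤ m) (F : Unit × Sp (m + 1) → (Fin (m + 2) → ℝ))
    (hF : Continuous F) (hU : ∀ q, F q ∈ US (Fin (m + 2))) :
    ∃ F' : Unit × Sp m → (Fin (m + 1) → ℝ), Continuous F' ∧ (∀ q, F' q ∈ US (Fin (m + 1))) ∧
      HIn (US (Fin (m + 2))) F (suspF F') := by
  obtain ⟨F₁, h1, hg⟩ := gen_pt m hm F hF hU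
  obtain ⟨F₂, h2, hN, hS⟩ := push m (fun _ => (1 : ℝ)) continuous_const
    (fun _ => ⟨zero_le_one, le_refl 1⟩) F₁ h1.continuous_right h1.mem_right hg
  obtain ⟨F', c1, c2, -, c4⟩ := to_susp m F₂ h2.hIn.continuous_right h2.hIn.mem_right hN hS
  exact ⟨F', c1, c2, h1.trans (h2.hIn.trans c4.hIn)⟩

theorem freud_I (m : ℕ) (hm : 2 ≤ m) (F : I × Sp (m + 1) → (Fin (m + 2) → ℝ))
    (hF : Continuous F) (hU : ∀ q, F q ∈ US (Fin (m + 2))) (h0 : ∀ x, F (0, x) = x.1)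
    (h1 : ∀ x, F (1, x) = x.1) :
    ∃ F' : I × Sp m → (Fin (m + 1) → ℝ), Continuous F' ∧ (∀ q, F' q ∈ US (Fin (m + 1))) ∧
      (∀ y, F' (0, y) = y.1) ∧ (∀ y, F' (1, y) = y.1) ∧
      HRel (US (Fin (m + 2))) {q : I × Sp (m + 1) | q.1 = 0 ∨ q.1 = 1} F (suspF F') := by
  obtain ⟨κ, F₁, hκ, h01, k0, k1, g1, hg⟩ := gen_I m hm F hF hU h0 h1
  obtain ⟨F₂, g2, hN, hS⟩ := push m κ hκ h01 F₁ g1.hIn.continuous_right g1.hIn.mem_right hg
  obtain ⟨F', c1, c2, c3, c4⟩ := to_susp m F₂ g2.hIn.continuous_right g2.hIn.mem_right hN hS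
  have hsub : {q : I × Sp (m + 1) | q.1 = 0 ∨ q.1 = 1} ⊆
      {q : I × Sp (m + 1) | κ q.1 = 0} := by
    rintro ⟨p, x⟩ hq
    have hq' : p = 0 ∨ p = 1 := hq
    change κ p = 0
    rcases hq' with rfl | rfl
    · exact k0
    · exact k1
  have g2' := freud_mono g2 hsub
  have e0 : ∀ x, F₂ (0, x) = x.1 := fun x =>
    (g2'.eqOn (Or.inl rfl)).trans ((g1.eqOn (Or.inl rfl)).trans (h0 x))
  have e1 : ∀ x, F₂ (1, x) = x.1 := fun x =>
    (g2'.eqOn (Or.inr rfl)).trans ((g1.eqOn (Or.inr rfl)).trans (h1 x))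
  have hsub2 : {q : I × Sp (m + 1) | q.1 = 0 ∨ q.1 = 1} ⊆
      {q : I × Sp (m + 1) | ∀ x : Sp (m + 1), F₂ (q.1, x) = x.1} := by
    rintro ⟨p, x⟩ hq
    have hq' : p = 0 ∨ p = 1 := hq
    change ∀ x : Sp (m + 1), F₂ (p, x) = x.1
    rcases hq' with rfl | rfl
    · exact e0
    · exact e1
  exact ⟨F', c1, c2, c3 0 e0, c3 1 e1, g1.trans (g2'.trans (freud_mono c4 hsub2))⟩

theorem susp_hrel {P : Type} [TopologicalSpace P] (m : ℕ) (S : Set P)
    (f g : P × Sp m → (Fin (m + 1) → ℝ))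
    (h : HRel (US (Fin (m + 1))) {q : P × Sp m | q.1 ∈ S} f g) :
    HRel (US (Fin (m + 2))) {q : P × Sp (m + 1) | q.1 ∈ S} (suspF f) (suspF g) := by
  obtain ⟨H, hc, hP, h0, h1⟩ := h
  refine ⟨fun q => suspF (fun r : (I × P) × Sp m => H (r.1.1, (r.1.2, r.2)))
    ((q.1, q.2.1), q.2.2), ?_, ?_, ?_, ?_⟩
  · have h2 := continuous_suspF (fun r : (I × P) × Sp m => H (r.1.1, (r.1.2, r.2)))
      (hc.comp (by fun_prop))
    exact h2.comp (by fun_prop)
  · intro u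
    refine ⟨fun x => suspF_mem _ (fun r => (hP _).1 _) _, ?_⟩
    rintro ⟨p, x⟩ hp
    have hp' : p ∈ S := hp
    obtain ⟨q', rfl⟩ := susp_surj x
    change suspF _ ((u, p), susp q') = suspF f (p, susp q')
    rw [suspF_susp, suspF_susp]
    congr 1
    exact (hP u).2 (p, q'.2) hp'
  · rintro ⟨p, x⟩
    obtain ⟨q', rfl⟩ := susp_surj x
    change suspF _ (((0 : I), p), susp q') = suspF f (p, susp q')
    rw [suspF_susp, suspF_susp]
    congr 1
    exact h0 (p, q'.2)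
  · rintro ⟨p, x⟩
    obtain ⟨q', rfl⟩ := susp_surj x
    change suspF _ (((1 : I), p), susp q') = suspF g (p, susp q')
    rw [suspF_susp, suspF_susp]
    congr 1
    exact h1 (p, q'.2)

theorem suspF_id {P : Type} (m : ℕ) (f : P × Sp m → (Fin (m + 1) → ℝ)) (p : P)
    (h : ∀ y, f (p, y) = y.1) (x : Sp (m + 1)) : suspF f (p, x) = x.1 := by
  obtain ⟨q', rfl⟩ := susp_surj x
  rw [suspF_susp, h]
  rfl

end DT
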