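import Pool.Agent.H78.DT.StHDef
import Pool.Agent.H78.DT.Rot
import Pool.Agent.H78.DT.Freud
import Pool.Agent.H78.DT.GlPath
import Pool.Agent.H78.DT.Comm

/-!
# The last destabilisation (job DT-DESLAST)

`des_last`: if `f : Sp n → SO(n+1)`, `n ≥ 1`, and `f ⊕ 1` is homotopic to `1` in `SO(n+2)`, then `f`
is homotopic to `refl (h' x) * refl (north n)` for some `h' : Sp n → Sⁿ`.
PROOF. Reindex by `Fin (n+1) ⊕ Unit ≃ Fin (n+2)`, `inl i ↦ i.succ`, `inr () ↦ 0`.  For
`M : Matrix (Fin (n+1)) (Fin (n+1))` let `1 ⊕ M` be the reindexed `stb Unit M`, a matrix over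
`Fin (n+2)`, `e = (1,0,..,0)`.  Let `H (t,x) ∈ SO(n+2)` be the homotopy, `H (0,x) = 1 ⊕ f x`,
`H (1,x) = 1`.  `h (t,x) = H (t,x) *ᵥ e` is `e` for `t = 0, 1`, so it descends (`descend` of
Cone.lean, no parameter) to `g : Sp (n+1) → S^{n+1}`, `g (susp (t,x)) = h (t,x)`.  By `freud_pt n`
there are `h' : Sp n → Sⁿ` and a homotopy `z (u, y)`, `y ∈ Sp (n+1)`, in `S^{n+1}` from `g` to the
suspension of `h'`: `z (1, susp (t,x)) = sv t (h' x) = cos πt e + sin πt (0, h' x)` (`suspF_susp`).
By `transport` (`X = Sp (n+1)`) there is `A (u,y) ∈ SO(n+2)`, `A (0,y) = 1`, `A (u,y) g y = z (u,y)`.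
For `a ∈ Sⁿ`, `θ ∈ ℝ` let `R (a,θ) = refl (cos (θ/2) e + sin (θ/2) (0,a)) * refl e ∈ SO(n+2)`
(`refl_det`, `refl_mul_self`, `refl_transpose`): `R (a,0) = 1`, `R (a,θ) e = cos θ e + sin θ (0,a)`
and `R (a,π) = refl (0,a) * refl e = (-1) ⊕ refl a`.  Put
`K (t,x) = (R (h' x, πt))ᵀ * A (1, susp (t,x)) * H (t,x)`, continuous, in `SO(n+2)`, with
`K (t,x) e = R(h' x, πt)ᵀ z (1, susp (t,x)) = e`, so `K (t,x) = 1 ⊕ K' (t,x)`, `K' ∈ SO(n+1)`.
`t = 0`: `1 ⊕ K'(0,x) = A(1,N) (1 ⊕ f x)` (`N` the north pole); so `A(1,N) e = e`,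
`A (1,N) = 1 ⊕ a`, `a ∈ SO(n+1)`, `K'(0,x) = a f x`.
`t = 1`: `1 ⊕ K'(1,x) = ((-1) ⊕ refl (h' x)) A(1,S)` (`S` the south pole; `refl` is symmetric); so
`A(1,S) e = -e`, `A(1,S) = (-1) ⊕ b`, `b` orthogonal of determinant `-1`,
`K'(1,x) = refl (h' x) b`.
So `a f ~ refl (h') b` in `SO(n+1)`.  `a` and `b refl(north)` are in `SO(n+1)`, joined to `1` by paths
(`so_path`), and `b = (b refl(north)) refl(north)`.  Hence `f ~ a f ~ refl(h') b ~
refl (h') refl (north)` (`HIn.trans`, using paths `a_t`, and `refl (h' x) * c_t * refl(north)` with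
`c_t` the path from `b refl(north)` to `1`).
`des_last_sq`: for `n` even: `n + 1` is odd, so `det (-refl a) = 1`.
`f ~ refl(h') refl(north) = (-refl (h')) (-refl (north))` and `-refl (north) ∈ SO(n+1)` is joined
to `1`: `f ~ -refl (h')`, whose square is `1`; square the homotopy (`HIn.map'`).
-/

open Matrix Set unitInterval Topology

noncomputable section

namespace DT

/-- The block diagonal matrix `c ⊕ M`. -/
def desLast_bd {n : ℕ} (c : ℝ) (M : Matrix (Fin n) (Fin n) ℝ) :
    Matrix (Fin (n + 1)) (Fin (n + 1)) ℝ :=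
  Matrix.of (Fin.cons (Fin.cons c 0 : Fin (n + 1) → ℝ)
    (fun i' => (Fin.cons 0 (M i') : Fin (n + 1) → ℝ)) : Fin (n + 1) → Fin (n + 1) → ℝ)

theorem desLast_00 {n : ℕ} (c : ℝ) (M : Matrix (Fin n) (Fin n) ℝ) : desLast_bd c M 0 0 = c := rfl

theorem desLast_0s {n : ℕ} (c : ℝ) (M : Matrix (Fin n) (Fin n) ℝ) (j : Fin n) :
    desLast_bd c M 0 j.succ = 0 := rfl

theorem desLast_s0 {n : ℕ} (c : ℝ) (M : Matrix (Fin n) (Fin n) ℝ) (i : Fin n) :
    desLast_bd c M i.succ 0 = 0 := rfl

theorem desLast_ss {n : ℕ} (c : ℝ) (M : Matrix (Fin n) (Fin n) ℝ) (i j : Fin n) :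
    desLast_bd c M i.succ j.succ = M i j := rfl

theorem desLast_ext {n : ℕ} {A B : Matrix (Fin (n + 1)) (Fin (n + 1)) ℝ} (h00 : A 0 0 = B 0 0)
    (h0s : ∀ j : Fin n, A 0 j.succ = B 0 j.succ) (hs0 : ∀ i : Fin n, A i.succ 0 = B i.succ 0)
    (hss : ∀ i j : Fin n, A i.succ j.succ = B i.succ j.succ) : A = B := by
  ext i j
  refine Fin.cases ?_ (fun i' => ?_) i
  · refine Fin.cases h00 h0s j
  · refine Fin.cases (hs0 i') (hss i') j

theorem desLast_mul {n : ℕ} (c c' : ℝ) (M M' : Matrix (Fin n) (Fin n) ℝ) :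
    desLast_bd c M * desLast_bd c' M' = desLast_bd (c * c') (M * M') := by
  apply desLast_ext
  · rw [Matrix.mul_apply, Fin.sum_univ_succ]
    simp only [desLast_00, desLast_0s, desLast_s0, mul_zero, Finset.sum_const_zero, add_zero]
  · intro j
    rw [Matrix.mul_apply, Fin.sum_univ_succ]
    simp only [desLast_00, desLast_0s, desLast_ss, mul_zero, zero_mul, Finset.sum_const_zero,
      add_zero]
  · intro i
    rw [Matrix.mul_apply, Fin.sum_univ_succ]
    simp only [desLast_00, desLast_s0, desLast_ss, mul_zero, zero_mul, Finset.sum_const_zero,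
      add_zero]
  · intro i j
    rw [Matrix.mul_apply, Fin.sum_univ_succ]
    simp only [desLast_0s, desLast_s0, desLast_ss, mul_zero, zero_add, Matrix.mul_apply]

theorem desLast_transpose {n : ℕ} (c : ℝ) (M : Matrix (Fin n) (Fin n) ℝ) :
    (desLast_bd c M)ᵀ = desLast_bd c Mᵀ := by
  apply desLast_ext
  · rfl
  · intro j
    rfl
  · intro i
    rfl
  · intro i j
    rfl

theorem desLast_one {n : ℕ} : desLast_bd 1 (1 : Matrix (Fin n) (Fin n) ℝ) = 1 := by
  apply desLast_ext
  · rw [desLast_00, Matrix.one_apply_eq]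
  · intro j
    rw [desLast_0s, Matrix.one_apply_ne (Fin.succ_ne_zero j).symm]
  · intro i
    rw [desLast_s0, Matrix.one_apply_ne (Fin.succ_ne_zero i)]
  · intro i j
    rw [desLast_ss]
    by_cases h : i = j
    · rw [h, Matrix.one_apply_eq, Matrix.one_apply_eq]
    · rw [Matrix.one_apply_ne h, Matrix.one_apply_ne (fun h2 => h (Fin.succ_injective _ h2))]

theorem desLast_det {n : ℕ} (c : ℝ) (M : Matrix (Fin n) (Fin n) ℝ) :
    (desLast_bd c M).det = c * M.det := by
  rw [Matrix.det_succ_row_zero, Fin.sum_univ_succ]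
  simp only [desLast_00, desLast_0s, mul_zero, zero_mul, Finset.sum_const_zero, add_zero]
  have : (desLast_bd c M).submatrix Fin.succ (Fin.succAbove 0) = M := by
    ext i j
    rw [Matrix.submatrix_apply, Fin.succAbove_zero]
    rfl
  rw [this]
  simp

theorem desLast_mulVec {n : ℕ} (K : Matrix (Fin (n + 1)) (Fin (n + 1)) ℝ) (i : Fin (n + 1)) :
    (K *ᵥ north n) i = K i 0 := by
  unfold north Matrix.mulVec dotProduct
  rw [Fin.sum_univ_succ]
  simp

theorem desLast_bd_north {n : ℕ} (c : ℝ) (M : Matrix (Fin n) (Fin n) ℝ) :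
    desLast_bd c M *ᵥ north n = c • north n := by
  ext i
  rw [desLast_mulVec]
  refine Fin.cases ?_ (fun j => ?_) i
  · rw [desLast_00]
    simp [north]
  · rw [desLast_s0]
    simp [north]

theorem desLast_eq {n : ℕ} {K : Matrix (Fin (n + 1)) (Fin (n + 1)) ℝ} {c : ℝ}
    (h1 : Kᵀ * K = 1) (hc : c * c = 1) (h : K *ᵥ north n = c • north n) :
    K = desLast_bd c (K.submatrix Fin.succ Fin.succ) := by
  have h2 : Kᵀ *ᵥ north n = c • north n := by
    have h3 : Kᵀ *ᵥ (K *ᵥ north n) = north n := by rw [mulVec_mulVec, h1, one_mulVec]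
    rw [h, mulVec_smul] at h3
    have h4 : c • (c • (Kᵀ *ᵥ north n)) = c • north n := by rw [h3]
    rw [smul_smul, hc, one_smul] at h4
    exact h4
  have hn0 : north n 0 = 1 := rfl
  have hns : ∀ j : Fin n, north n j.succ = 0 := fun j => rfl
  apply desLast_ext
  · rw [desLast_00, ← desLast_mulVec K 0, h, Pi.smul_apply, hn0, smul_eq_mul, mul_one]
  · intro j
    have := desLast_mulVec Kᵀ j.succ
    rw [h2, Pi.smul_apply, hns, smul_zero, Matrix.transpose_apply] at this
    rw [desLast_0s, ← this]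
  · intro i
    have := desLast_mulVec K i.succ
    rw [h, Pi.smul_apply, hns, smul_zero] at this
    rw [desLast_s0, ← this]
  · intro i j
    rfl

theorem desLast_inj {n : ℕ} {c c' : ℝ} {M M' : Matrix (Fin n) (Fin n) ℝ}
    (h : desLast_bd c M = desLast_bd c' M') : M = M' := by
  ext i j
  have := congrFun (congrFun h i.succ) j.succ
  exact this

theorem desLast_orth {n : ℕ} {c : ℝ} {M : Matrix (Fin n) (Fin n) ℝ}
    (h : (desLast_bd c M)ᵀ * desLast_bd c M = 1) : Mᵀ * M = 1 := by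
  rw [desLast_transpose, desLast_mul, ← desLast_one] at h
  exact desLast_inj h

theorem desLast_refl_cons {n : ℕ} (a : Fin n → ℝ) :
    refl (Fin.cons 0 a : Fin (n + 1) → ℝ) = desLast_bd 1 (refl a) := by
  unfold refl
  apply desLast_ext
  · rw [desLast_00]
    simp [vecMulVec_apply]
  · intro j
    rw [desLast_0s]
    simp [vecMulVec_apply, Matrix.one_apply_ne (Fin.succ_ne_zero j).symm]
  · intro i
    rw [desLast_s0]
    simp [vecMulVec_apply, Matrix.one_apply_ne (Fin.succ_ne_zero i)]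
  · intro i j
    rw [desLast_ss]
    simp only [Matrix.sub_apply, Matrix.smul_apply, vecMulVec_apply, Fin.cons_succ]
    by_cases h : i = j
    · rw [h, Matrix.one_apply_eq, Matrix.one_apply_eq]
    · rw [Matrix.one_apply_ne h, Matrix.one_apply_ne (fun h2 => h (Fin.succ_injective _ h2))]

theorem desLast_refl_north {n : ℕ} :
    refl (north n) = desLast_bd (-1) (1 : Matrix (Fin n) (Fin n) ℝ) := by
  unfold refl
  apply desLast_ext
  · rw [desLast_00]
    simp [vecMulVec_apply, north]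
    norm_num
  · intro j
    rw [desLast_0s]
    simp [vecMulVec_apply, north, Matrix.one_apply_ne (Fin.succ_ne_zero j).symm]
  · intro i
    rw [desLast_s0]
    simp [vecMulVec_apply, north, Matrix.one_apply_ne (Fin.succ_ne_zero i)]
  · intro i j
    rw [desLast_ss]
    simp only [Matrix.sub_apply, Matrix.smul_apply, vecMulVec_apply, north, Fin.cons_succ,
      Pi.zero_apply, mul_zero, smul_zero, sub_zero]
    by_cases h : i = j
    · rw [h, Matrix.one_apply_eq, Matrix.one_apply_eq]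
    · rw [Matrix.one_apply_ne h, Matrix.one_apply_ne (fun h2 => h (Fin.succ_injective _ h2))]

theorem desLast_refl_so {κ : Type} [Fintype κ] [DecidableEq κ] {a b : κ → ℝ} (ha : a ∈ US κ)
    (hb : b ∈ US κ) {M : Matrix κ κ ℝ} (hM : M ∈ SOs κ) : refl a * M * refl b ∈ SOs κ := by
  refine ⟨?_, ?_⟩
  · have e : (refl a * M * refl b)ᵀ * (refl a * M * refl b) =
        refl b * (Mᵀ * ((refl a * refl a) * M)) * refl b := by
      rw [transpose_mul, transpose_mul, refl_transpose, refl_transpose]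
      simp only [Matrix.mul_assoc]
    rw [e, refl_mul_self ha, Matrix.one_mul, hM.1, Matrix.mul_one, refl_mul_self hb]
  · rw [det_mul, det_mul, refl_det ha, refl_det hb, hM.2]
    norm_num

theorem desLast_refl2_so {κ : Type} [Fintype κ] [DecidableEq κ] {a b : κ → ℝ} (ha : a ∈ US κ)
    (hb : b ∈ US κ) : refl a * refl b ∈ SOs κ := by
  have h := desLast_refl_so ha hb (M := 1) ⟨by simp, by simp⟩
  rwa [Matrix.mul_one] at h

theorem desLast_refl_cont {X : Type*} [TopologicalSpace X] {κ : Type} [Fintype κ]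
    [DecidableEq κ] {a : X → (κ → ℝ)} (ha : Continuous a) : Continuous fun x => refl (a x) := by
  refine continuous_matrix fun i j => ?_
  have h1 : Continuous fun x => a x i := (continuous_apply i).comp ha
  have h2 : Continuous fun x => a x j := (continuous_apply j).comp ha
  have e : (fun x => refl (a x) i j) =
      fun x => (1 : Matrix κ κ ℝ) i j - 2 * (a x i * a x j) := by
    funext x
    unfold refl
    simp only [Matrix.sub_apply, Matrix.smul_apply, vecMulVec_apply, smul_eq_mul]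
  rw [e]
  fun_prop

theorem desLast_rot {n : ℕ} (t : ℝ) (a : Fin (n + 1) → ℝ) :
    (refl (sv (t / 2) a) * refl (north (n + 1))) *ᵥ north (n + 1) = sv t a := by
  have hN : north (n + 1) ⬝ᵥ north (n + 1) = 1 := cone_north_mem (n + 1)
  have h1 : refl (north (n + 1)) *ᵥ north (n + 1) = -north (n + 1) := by
    rw [refl_mulVec, hN, mul_one, two_smul]
    abel
  rw [← mulVec_mulVec, h1, refl_mulVec]
  have h2 : sv (t / 2) a ⬝ᵥ -north (n + 1) = -Real.cos (Real.pi * (t / 2)) := by
    rw [dotProduct_neg]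
    unfold sv north dotProduct
    rw [Fin.sum_univ_succ]
    simp
  rw [h2]
  have e : Real.pi * t = 2 * (Real.pi * (t / 2)) := by ring
  ext i
  refine Fin.cases ?_ (fun j => ?_) i
  · simp only [sv, north, Pi.sub_apply, Pi.neg_apply, Pi.smul_apply, Fin.cons_zero, smul_eq_mul]
    rw [e, Real.cos_two_mul]
    ring
  · simp only [sv, north, Pi.sub_apply, Pi.neg_apply, Pi.smul_apply, Fin.cons_succ, smul_eq_mul,
      Pi.zero_apply]
    rw [e, Real.sin_two_mul]
    ring

theorem desLast_sv_cont {X : Type*} [TopologicalSpace X] {k : ℕ} {t : X → ℝ}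
    {y : X → (Fin k → ℝ)} (ht : Continuous t) (hy : Continuous y) :
    Continuous fun x => sv (t x) (y x) := by
  unfold sv
  refine continuous_pi fun i => ?_
  refine Fin.cases ?_ (fun j => ?_) i
  · simp only [Fin.cons_zero]
    fun_prop
  · simp only [Fin.cons_succ, Pi.smul_apply, smul_eq_mul]
    have h1 : Continuous fun x => y x j := (continuous_apply j).comp hy
    fun_prop

/-- The bijection between `Fin (n + 1)` and `Fin n ⊕ Unit`. -/
def desLast_equiv (n : ℕ) : Fin (n + 1) ≃ Fin n ⊕ Unit where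
  toFun := Fin.cases (Sum.inr ()) Sum.inl
  invFun := Sum.elim Fin.succ (fun _ => 0)
  left_inv := by
    intro i
    refine Fin.cases rfl (fun j => rfl) i
  right_inv := by
    rintro (i | i)
    · rfl
    · rfl

theorem desLast_reindex {n : ℕ} (M : Matrix (Fin n) (Fin n) ℝ) :
    (stb Unit M).submatrix (desLast_equiv n) (desLast_equiv n) = desLast_bd 1 M := by
  apply desLast_ext
  · rfl
  · intro j
    rfl
  · intro i
    rfl
  · intro i j
    rfl

theorem desLast_sub_mem {κ μ : Type} [Fintype κ] [DecidableEq κ] [Fintype μ] [DecidableEq μ]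
    (e : κ ≃ μ) {M : Matrix μ μ ℝ} (hM : M ∈ SOs μ) : M.submatrix e e ∈ SOs κ := by
  refine ⟨?_, ?_⟩
  · rw [transpose_submatrix, submatrix_mul_equiv, hM.1, submatrix_one_equiv]
  · rw [det_submatrix_equiv_self, hM.2]

theorem desLast_susp_zero {k : ℕ} (y y' : Sp k) : susp (0, y) = susp (0, y') := by
  apply Subtype.ext
  unfold susp sv
  simp

theorem desLast_susp_one {k : ℕ} (y y' : Sp k) : susp (1, y) = susp (1, y') := by
  apply Subtype.ext
  unfold susp sv
  simp

theorem desLast_us {κ : Type} [Fintype κ] [DecidableEq κ] {M : Matrix κ κ ℝ} (h : M ∈ SOs κ)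
    {v : κ → ℝ} (hv : v ∈ US κ) : M *ᵥ v ∈ US κ := by
  have hv' : v ⬝ᵥ v = 1 := hv
  show M *ᵥ v ⬝ᵥ M *ᵥ v = 1
  rw [dotProduct_mulVec, ← mulVec_transpose, mulVec_mulVec, h.1, one_mulVec, hv']

theorem desLast_norm {X ι : Type} [TopologicalSpace X] [Fintype ι] [DecidableEq ι]
    {f : X → Matrix ι ι ℝ} (hf : Continuous f) (hfS : ∀ x, f x ∈ SOs ι) {M : Matrix ι ι ℝ}
    (hM : M ∈ SOs ι) : HIn (SOs ι) (fun x => M * f x) f := by
  have h := (hin_const (X := X) M hM).map₂ (HIn.refl hf hfS) (fun M N => M * N)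
    (continuous_fst.matrix_mul continuous_snd) fun _ hM _ hN => so_mul hM hN
  simpa only [Matrix.one_mul] using h

theorem des_last (n : ℕ) (hn : 1 ≤ n) (f : Sp n → Matrix (Fin (n + 1)) (Fin (n + 1)) ℝ)
    (h : HIn (SOs (Fin (n + 1) ⊕ Unit)) (fun x => stb Unit (f x)) (fun _ => 1)) :
    ∃ h' : Sp n → (Fin (n + 1) → ℝ), Continuous h' ∧ (∀ x, h' x ∈ US (Fin (n + 1))) ∧
      HIn (SOs (Fin (n + 1))) f (fun x => refl (h' x) * refl (north n)) := by
  obtain ⟨H₀, hH₀c, hH₀S, hH₀0, hH₀1⟩ := h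
  set N : Fin (n + 2) → ℝ := north (n + 1) with hNdef
  have hNU : N ∈ US (Fin (n + 2)) := cone_north_mem (n + 1)
  -- the homotopy over `Fin (n + 2)`
  set H : I × Sp n → Matrix (Fin (n + 2)) (Fin (n + 2)) ℝ := fun p =>
    (H₀ p).submatrix (desLast_equiv (n + 1)) (desLast_equiv (n + 1)) with hHdef
  have hHc : Continuous H := hH₀c.matrix_submatrix _ _
  have hHS : ∀ p, H p ∈ SOs (Fin (n + 2)) := fun p => desLast_sub_mem _ (hH₀S p.1 p.2)
  have hH0 : ∀ x, H (0, x) = desLast_bd 1 (f x) := by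
    intro x
    simp only [hHdef]
    rw [hH₀0, desLast_reindex]
  have hH1 : ∀ x, H (1, x) = 1 := by
    intro x
    simp only [hHdef]
    rw [hH₀1, submatrix_one_equiv]
  obtain ⟨g, hgc, hg⟩ := descend (Q := Unit) (k := n) (fun q : Unit × (I × Sp n) => H q.2 *ᵥ N)
    ((hHc.comp continuous_snd).matrix_mulVec continuous_const)
    (by
      intro q y y'
      simp only [hH0]
      rw [hNdef, desLast_bd_north, desLast_bd_north])
    (by
      intro q y y'
      simp only [hH1])
  have hgU : ∀ q, g q ∈ US (Fin (n + 2)) := by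
    rintro ⟨u, x⟩
    obtain ⟨⟨t, y⟩, rfl⟩ := susp_surj x
    rw [hg]
    exact desLast_us (hHS _) hNU
  obtain ⟨F', hF'c, hF'U, Z, hZc, hZU, hZ0, hZ1⟩ := freud_pt n hn g hgc hgU
  obtain ⟨A, hAc, hAS, hA0, hA, -⟩ := transport (X := Unit × Sp (n + 1)) Z hZc
    (fun p => hZU p.1 p.2)
  set A1 : Sp (n + 1) → Matrix (Fin (n + 2)) (Fin (n + 2)) ℝ := fun y => A (1, ((), y)) with hA1
  have hA1c : Continuous A1 := hAc.comp (by fun_prop)
  have hA1S : ∀ y, A1 y ∈ SOs (Fin (n + 2)) := fun y => hAS _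
  set h' : Sp n → (Fin (n + 1) → ℝ) := fun x => F' ((), x) with hh'
  have hh'c : Continuous h' := hF'c.comp (by fun_prop)
  have hh'U : ∀ x, h' x ∈ US (Fin (n + 1)) := fun x => hF'U _
  have hA1g : ∀ (t : I) (x : Sp n), A1 (susp (t, x)) *ᵥ (H (t, x) *ᵥ N) = sv (t : ℝ) (h' x) := by
    intro t x
    have h1 := hA 1 ((), susp (t, x))
    rw [hZ0, hZ1, hg, suspF_susp] at h1
    exact h1
  set R : I × Sp n → Matrix (Fin (n + 2)) (Fin (n + 2)) ℝ := fun p =>
    refl (sv ((p.1 : ℝ) / 2) (h' p.2)) * refl N with hR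
  have hRc : Continuous R := by
    refine Continuous.matrix_mul (desLast_refl_cont (κ := Fin (n + 2)) ?_) continuous_const
    refine desLast_sv_cont ?_ (hh'c.comp continuous_snd)
    fun_prop
  have hRS : ∀ p, R p ∈ SOs (Fin (n + 2)) := fun p =>
    desLast_refl2_so (sv_mem _ (hh'U _)) hNU
  have hRN : ∀ (t : I) (x : Sp n), R (t, x) *ᵥ N = sv (t : ℝ) (h' x) := fun t x =>
    desLast_rot (t : ℝ) (h' x)
  have hR0 : ∀ x, R (0, x) = 1 := by
    intro x
    simp only [hR, Icc.coe_zero, zero_div]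
    have : sv (0 : ℝ) (h' x) = N := by
      unfold sv
      rw [mul_zero, Real.cos_zero, Real.sin_zero, zero_smul]
      rfl
    rw [this]
    exact refl_mul_self hNU
  have hR1 : ∀ x, R (1, x) = desLast_bd (-1) (refl (h' x)) := by
    intro x
    simp only [hR, Icc.coe_one]
    have : sv ((1 : ℝ) / 2) (h' x) = Fin.cons 0 (h' x) := by
      unfold sv
      rw [mul_one_div, Real.cos_pi_div_two, Real.sin_pi_div_two, one_smul]
    rw [this, desLast_refl_cons, hNdef, desLast_refl_north, desLast_mul, one_mul, Matrix.mul_one]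
  set K : I × Sp n → Matrix (Fin (n + 2)) (Fin (n + 2)) ℝ := fun p =>
    (R p)ᵀ * (A1 (susp p) * H p) with hK
  have hKc : Continuous K :=
    hRc.matrix_transpose.matrix_mul ((hA1c.comp susp_continuous).matrix_mul hHc)
  have hKS : ∀ p, K p ∈ SOs (Fin (n + 2)) := fun p =>
    so_mul (so_transpose (hRS p)) (so_mul (hA1S _) (hHS p))
  have hKN : ∀ p, K p *ᵥ N = (1 : ℝ) • N := by
    rintro ⟨t, x⟩
    simp only [hK]
    rw [← mulVec_mulVec, ← mulVec_mulVec, hA1g, ← hRN t x, mulVec_mulVec, (hRS _).1, one_mulVec,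
      one_smul]
  have hKeq : ∀ p, K p = desLast_bd 1 ((K p).submatrix Fin.succ Fin.succ) := fun p =>
    desLast_eq (hKS p).1 (one_mul 1) (hKN p)
  have hK'S : ∀ p, (K p).submatrix Fin.succ Fin.succ ∈ SOs (Fin (n + 1)) := by
    intro p
    refine ⟨?_, ?_⟩
    · apply desLast_orth (c := 1)
      rw [← hKeq p]
      exact (hKS p).1
    · have h1 := (hKS p).2
      rw [hKeq p, desLast_det, one_mul] at h1
      exact h1
  obtain ⟨y0⟩ : Nonempty (Sp n) := ⟨⟨north n, cone_north_mem n⟩⟩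
  -- the value at `t = 0`
  have hAN : A1 (susp (0, y0)) *ᵥ N = (1 : ℝ) • N := by
    have h1 := hA1g 0 y0
    rw [hH0, hNdef, desLast_bd_north, one_smul] at h1
    rw [hNdef, h1, one_smul]
    unfold sv
    rw [Icc.coe_zero, mul_zero, Real.cos_zero, Real.sin_zero, zero_smul]
    rfl
  have hANeq := desLast_eq (hA1S (susp (0, y0))).1 (one_mul 1) hAN
  set a := (A1 (susp (0, y0))).submatrix Fin.succ Fin.succ with ha
  have haS : a ∈ SOs (Fin (n + 1)) := by
    refine ⟨?_, ?_⟩
    · apply desLast_orth (c := 1)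
      rw [← hANeq]
      exact (hA1S _).1
    · have h1 := (hA1S (susp (0, y0))).2
      rw [hANeq, desLast_det, one_mul] at h1
      exact h1
  have hK0 : ∀ x, (K (0, x)).submatrix Fin.succ Fin.succ = a * f x := by
    intro x
    have h1 : K (0, x) = desLast_bd 1 (a * f x) := by
      simp only [hK]
      rw [hR0, transpose_one, Matrix.one_mul, hH0, desLast_susp_zero x y0, hANeq, desLast_mul,
        one_mul]
    rw [h1]
    rfl
  -- the value at `t = 1`
  have hAS' : A1 (susp (1, y0)) *ᵥ N = (-1 : ℝ) • N := by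
    have h1 := hA1g 1 y0
    rw [hH1, one_mulVec] at h1
    rw [h1, ← hRN 1 y0, hR1, hNdef, desLast_bd_north]
  have hASeq := desLast_eq (hA1S (susp (1, y0))).1 (by norm_num) hAS'
  set b := (A1 (susp (1, y0))).submatrix Fin.succ Fin.succ with hb
  have hbo : bᵀ * b = 1 := by
    apply desLast_orth (c := -1)
    rw [← hASeq]
    exact (hA1S _).1
  have hbd : b.det = -1 := by
    have h1 := (hA1S (susp (1, y0))).2
    rw [hASeq, desLast_det] at h1
    linarith
  have hK1 : ∀ x, (K (1, x)).submatrix Fin.succ Fin.succ = refl (h' x) * b := by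
    intro x
    have h1 : K (1, x) = desLast_bd 1 (refl (h' x) * b) := by
      simp only [hK]
      rw [hR1, desLast_transpose, refl_transpose, hH1, Matrix.mul_one, desLast_susp_one x y0,
        hASeq, desLast_mul]
      norm_num
    rw [h1]
    rfl
  have main : HIn (SOs (Fin (n + 1))) (fun x => a * f x) (fun x => refl (h' x) * b) :=
    ⟨fun p => (K p).submatrix Fin.succ Fin.succ, hKc.matrix_submatrix _ _, fun u x => hK'S _,
      hK0, hK1⟩
  have hfc : Continuous f := by
    have h2 : f = fun x => aᵀ * (a * f x) := by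
      funext x
      rw [← Matrix.mul_assoc, haS.1, Matrix.one_mul]
    rw [h2]
    exact continuous_const.matrix_mul main.continuous_left
  have hfS : ∀ x, f x ∈ SOs (Fin (n + 1)) := by
    intro x
    have h2 : f x = aᵀ * (a * f x) := by
      rw [← Matrix.mul_assoc, haS.1, Matrix.one_mul]
    rw [h2]
    exact so_mul (so_transpose haS) (main.mem_left x)
  have hNn : north n ∈ US (Fin (n + 1)) := cone_north_mem n
  have hcS : b * refl (north n) ∈ SOs (Fin (n + 1)) := by
    refine ⟨?_, ?_⟩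
    · rw [transpose_mul, refl_transpose, Matrix.mul_assoc, ← Matrix.mul_assoc bᵀ, hbo,
        Matrix.one_mul, refl_mul_self hNn]
    · rw [det_mul, hbd, refl_det hNn]
      norm_num
  obtain ⟨γ, hγc, hγ0, hγ1, hγS⟩ := so_path _ hcS
  have last : HIn (SOs (Fin (n + 1))) (fun x => refl (h' x) * b)
      (fun x => refl (h' x) * refl (north n)) := by
    refine ⟨fun p => refl (h' p.2) * γ p.1 * refl (north n), ?_, fun u x => ?_, fun x => ?_,
      fun x => ?_⟩
    · exact ((desLast_refl_cont (κ := Fin (n + 1)) (hh'c.comp continuous_snd)).matrix_mul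
        (hγc.comp continuous_fst)).matrix_mul continuous_const
    · exact desLast_refl_so (hh'U x) hNn (hγS u)
    · simp only
      rw [hγ0, Matrix.mul_assoc, Matrix.mul_assoc, refl_mul_self hNn, Matrix.mul_one]
    · simp only
      rw [hγ1, Matrix.mul_one]
  exact ⟨h', hh'c, hh'U, ((desLast_norm hfc hfS haS).symm.trans main).trans last⟩

theorem des_last_sq (n : ℕ) (hn : 1 ≤ n) (he : n % 2 = 0)
    (f : Sp n → Matrix (Fin (n + 1)) (Fin (n + 1)) ℝ)
    (h : HIn (SOs (Fin (n + 1) ⊕ Unit)) (fun x => stb Unit (f x)) (fun _ => 1)) :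
    HIn (SOs (Fin (n + 1))) (fun x => f x * f x) (fun _ => 1) := by
  obtain ⟨h', hc, hU, hh⟩ := des_last n hn f h
  have hNn : north n ∈ US (Fin (n + 1)) := cone_north_mem n
  have hneg : ∀ a : Fin (n + 1) → ℝ, a ∈ US (Fin (n + 1)) → -refl a ∈ SOs (Fin (n + 1)) := by
    intro a ha
    refine ⟨?_, ?_⟩
    · rw [transpose_neg, refl_transpose, Matrix.neg_mul, Matrix.mul_neg, neg_neg,
        refl_mul_self ha]
    · rw [det_neg, refl_det ha, Fintype.card_fin]
      have : Odd (n + 1) := (Nat.even_iff.2 he).add_one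
      rw [this.neg_one_pow]
      norm_num
  have hcont : Continuous fun x => -refl (h' x) :=
    (desLast_refl_cont (κ := Fin (n + 1)) hc).neg
  have h1 : HIn (SOs (Fin (n + 1))) (fun x => -refl (h' x) * -refl (north n))
      (fun x => -refl (h' x) * 1) :=
    (HIn.refl hcont fun x => hneg _ (hU x)).map₂ (hin_const (X := Sp n) _ (hneg _ hNn))
      (fun M N => M * N) (continuous_fst.matrix_mul continuous_snd) fun _ hM _ hN => so_mul hM hN
  have h2 : (fun x => -refl (h' x) * -refl (north n)) = fun x => refl (h' x) * refl (north n) := by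
    funext x
    rw [Matrix.neg_mul, Matrix.mul_neg, neg_neg]
  rw [h2] at h1
  have h3 := hh.trans h1
  have h4 := h3.map₂ h3 (fun M N => M * N) (continuous_fst.matrix_mul continuous_snd)
    (C := SOs (Fin (n + 1))) fun _ hM _ hN => so_mul hM hN
  have h5 : (fun x => -refl (h' x) * 1 * (-refl (h' x) * 1)) =
      fun _ : Sp n => (1 : Matrix (Fin (n + 1)) (Fin (n + 1)) ℝ) := by
    funext x
    rw [Matrix.mul_one, Matrix.neg_mul, Matrix.mul_neg, neg_neg, refl_mul_self (hU x)]
  rw [h5] at h4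
  exact h4

end DT
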