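import Pool.Agent.H78.DT.SDf

/-!
# Conformal dilations of the sphere (job DT-DIL)

With `ρ = ‖z‖`, `s = ⟪p, z⟫`, `a = ρ + s ≥ 0`, `b = ρ - s ≥ 0`, `a + b = 2ρ`,
`dilf p l z = ρ (a + l² b)⁻¹ ((a - l² b) p + 2 l (z - s p))`.  For `z ≠ 0`, `l > 0` the denominator is
positive.  `‖z - s p‖² = ρ² - s² = a b` so
`‖dilf p l z‖² = ρ² ((a - l² b)² + 4 l² a b)/(a + l² b)² = ρ²`.
Composition: for `z' = dilf p l z`, `ρ' = ρ`, `s' = ρ (a - l²b)/(a + l²b)`, so
`a' = 2ρ a/(a + l²b)`, `b' = 2ρ l² b/(a + l² b)`, `z' - s' p = 2 l ρ (z - s p)/(a + l²b)`, so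
`dilf p m z'` has `a' + m²b' = 2ρ (a + m²l²b)/(a + l²b)`, and
`dilf p m (dilf p l z) = dilf p (m l) z`.  `dilf p 1 z = z`.
`dil_smooth`: the norm is smooth away from `0` (`contDiffAt_norm`), division by a positive smooth
function.
-/

open Set
open scoped ContDiff

noncomputable section

namespace DT

variable {E : Type} [NormedAddCommGroup E] [InnerProductSpace ℝ E]

/-- The (homogeneous extension of the) conformal dilation of the sphere with fixed points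
`± p`, with the factor `l` at `p`. -/
def dilf (p : E) (l : ℝ) (z : E) : E :=
  (‖z‖ * ((‖z‖ + inner ℝ p z) + l ^ 2 * (‖z‖ - inner ℝ p z))⁻¹) •
    (((‖z‖ + inner ℝ p z) - l ^ 2 * (‖z‖ - inner ℝ p z)) • p +
      (2 * l) • (z - (inner ℝ p z : ℝ) • p))

theorem dilf_denom {p z : E} (hp : ‖p‖ = 1) (hz : z ≠ 0) {l : ℝ} (hl : 0 < l) :
    0 < (‖z‖ + inner ℝ p z) + l ^ 2 * (‖z‖ - inner ℝ p z) := by
  have h1 : |(inner ℝ p z : ℝ)| ≤ ‖z‖ := by
    have := abs_real_inner_le_norm p z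
    rwa [hp, one_mul] at this
  have h2 : 0 < ‖z‖ := norm_pos_iff.2 hz
  have h3 := abs_le.1 h1
  have hb : 0 ≤ ‖z‖ - inner ℝ p z := by linarith [h3.2]
  have ha : 0 ≤ ‖z‖ + inner ℝ p z := by linarith [h3.1]
  rcases eq_or_lt_of_le ha with h | h
  · have h4 : 0 < ‖z‖ - inner ℝ p z := by linarith
    have h5 := mul_pos (pow_pos hl 2) h4
    linarith
  · have h5 := mul_nonneg (sq_nonneg l) hb
    linarith

theorem Dil_norm_sq {p : E} (hp : ‖p‖ = 1) (z : E) (A B : ℝ) :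
    ‖A • p + B • (z - (inner ℝ p z : ℝ) • p)‖ ^ 2 =
      A ^ 2 + B ^ 2 * (‖z‖ ^ 2 - (inner ℝ p z) ^ 2) := by
  have h1 : (inner ℝ p p : ℝ) = 1 := by rw [real_inner_self_eq_norm_sq, hp, one_pow]
  have h2 : ‖z - (inner ℝ p z : ℝ) • p‖ ^ 2 = ‖z‖ ^ 2 - (inner ℝ p z) ^ 2 := by
    rw [norm_sub_sq_real, real_inner_smul_right, real_inner_comm, norm_smul, hp, mul_one,
      Real.norm_eq_abs, sq_abs]
    ring
  rw [norm_add_sq_real, real_inner_smul_left, real_inner_smul_right, inner_sub_right,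
    real_inner_smul_right, h1, norm_smul, norm_smul, mul_pow, mul_pow, h2, hp,
    Real.norm_eq_abs, Real.norm_eq_abs, sq_abs, sq_abs]
  ring

theorem Dil_inner {p : E} (hp : ‖p‖ = 1) (z : E) (A B : ℝ) :
    (inner ℝ p (A • p + B • (z - (inner ℝ p z : ℝ) • p)) : ℝ) = A := by
  have h1 : (inner ℝ p p : ℝ) = 1 := by rw [real_inner_self_eq_norm_sq, hp, one_pow]
  simp only [inner_add_right, inner_sub_right, real_inner_smul_right, h1]
  ring

theorem Dil_zero (p : E) (l : ℝ) : dilf p l 0 = 0 := by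
  unfold dilf
  rw [norm_zero, zero_mul, zero_smul]

theorem dilf_norm {p : E} (hp : ‖p‖ = 1) {l : ℝ} (hl : 0 < l) (z : E) : ‖dilf p l z‖ = ‖z‖ := by
  by_cases hz : z = 0
  · rw [hz, Dil_zero]
  · have hD := dilf_denom hp hz hl
    have h2 : 0 < ‖z‖ := norm_pos_iff.2 hz
    have h3 : ‖dilf p l z‖ ^ 2 = ‖z‖ ^ 2 := by
      unfold dilf
      rw [norm_smul, mul_pow, Dil_norm_sq hp, Real.norm_eq_abs, sq_abs]
      generalize (inner ℝ p z : ℝ) = s at hD ⊢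
      generalize ‖z‖ = r at hD h2 ⊢
      field_simp
      ring
    exact (pow_left_inj₀ (norm_nonneg _) (norm_nonneg _) two_ne_zero).1 h3

theorem dilf_hom (p : E) (l c : ℝ) (hc : 0 < c) (z : E) : dilf p l (c • z) = c • dilf p l z := by
  have h1 : ‖c • z‖ = c * ‖z‖ := by rw [norm_smul, Real.norm_of_nonneg hc.le]
  have h2 : (inner ℝ p (c • z) : ℝ) = c * inner ℝ p z := real_inner_smul_right _ _ _
  unfold dilf
  rw [h1, h2]
  generalize (inner ℝ p z : ℝ) = s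
  generalize ‖z‖ = r
  have h3 : c * r + c * s + l ^ 2 * (c * r - c * s) = c * (r + s + l ^ 2 * (r - s)) := by ring
  have h4 : (c * r + c * s - l ^ 2 * (c * r - c * s)) • p + (2 * l) • (c • z - (c * s) • p) =
      c • ((r + s - l ^ 2 * (r - s)) • p + (2 * l) • (z - s • p)) := by module
  rw [h3, h4, mul_inv, smul_smul, smul_smul]
  congr 1
  have h5 := mul_inv_cancel₀ hc.ne'
  linear_combination (c * r * (r + s + l ^ 2 * (r - s))⁻¹) * h5

theorem dilf_mul {p : E} (hp : ‖p‖ = 1) {l m : ℝ} (hl : 0 < l) (hm : 0 < m) (z : E) :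
    dilf p m (dilf p l z) = dilf p (m * l) z := by
  by_cases hz : z = 0
  · rw [hz, Dil_zero, Dil_zero, Dil_zero]
  · have hD := dilf_denom hp hz hl
    have hE := dilf_denom hp hz (mul_pos hm hl)
    have h2 : 0 < ‖z‖ := norm_pos_iff.2 hz
    have hn := dilf_norm hp hl z
    obtain ⟨w, hw⟩ : ∃ w, w = z - (inner ℝ p z : ℝ) • p := ⟨_, rfl⟩
    have h3 : dilf p l z =
        ((‖z‖ * ((‖z‖ + inner ℝ p z) + l ^ 2 * (‖z‖ - inner ℝ p z))⁻¹) *
          ((‖z‖ + inner ℝ p z) - l ^ 2 * (‖z‖ - inner ℝ p z))) • p +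
        ((‖z‖ * ((‖z‖ + inner ℝ p z) + l ^ 2 * (‖z‖ - inner ℝ p z))⁻¹) * (2 * l)) • w := by
      rw [hw]
      unfold dilf
      rw [smul_add, smul_smul, smul_smul]
    have h4 : (inner ℝ p (dilf p l z) : ℝ) =
        (‖z‖ * ((‖z‖ + inner ℝ p z) + l ^ 2 * (‖z‖ - inner ℝ p z))⁻¹) *
          ((‖z‖ + inner ℝ p z) - l ^ 2 * (‖z‖ - inner ℝ p z)) := by
      rw [h3, hw]
      exact Dil_inner hp z _ _
    have h5 : dilf p l z - (inner ℝ p (dilf p l z) : ℝ) • p =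
        ((‖z‖ * ((‖z‖ + inner ℝ p z) + l ^ 2 * (‖z‖ - inner ℝ p z))⁻¹) * (2 * l)) • w := by
      rw [h4, h3]
      abel
    have h6 : dilf p (m * l) z =
        (‖z‖ * ((‖z‖ + inner ℝ p z) + (m * l) ^ 2 * (‖z‖ - inner ℝ p z))⁻¹) •
        (((‖z‖ + inner ℝ p z) - (m * l) ^ 2 * (‖z‖ - inner ℝ p z)) • p + (2 * (m * l)) • w) := by
      rw [hw]
      rfl
    rw [h6]
    rw [dilf, h5, hn, h4]
    clear h3 h4 h5 h6 hw hn
    generalize (inner ℝ p z : ℝ) = s at hD hE ⊢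
    generalize ‖z‖ = r at hD hE h2 ⊢
    have hD' := hD.ne'
    have hE' := hE.ne'
    have h7 : r + r * (r + s + l ^ 2 * (r - s))⁻¹ * (r + s - l ^ 2 * (r - s)) +
        m ^ 2 * (r - r * (r + s + l ^ 2 * (r - s))⁻¹ * (r + s - l ^ 2 * (r - s))) =
        2 * r * (r + s + l ^ 2 * (r - s))⁻¹ * (r + s + (m * l) ^ 2 * (r - s)) := by
      field_simp
      ring
    have h8 : r + r * (r + s + l ^ 2 * (r - s))⁻¹ * (r + s - l ^ 2 * (r - s)) -
        m ^ 2 * (r - r * (r + s + l ^ 2 * (r - s))⁻¹ * (r + s - l ^ 2 * (r - s))) =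
        2 * r * (r + s + l ^ 2 * (r - s))⁻¹ * (r + s - (m * l) ^ 2 * (r - s)) := by
      field_simp
      ring
    rw [h7, h8]
    have h9 : r * (2 * r * (r + s + l ^ 2 * (r - s))⁻¹ * (r + s + (m * l) ^ 2 * (r - s)))⁻¹ =
        (r + s + l ^ 2 * (r - s)) * (2 * (r + s + (m * l) ^ 2 * (r - s)))⁻¹ := by
      field_simp
    rw [h9]
    rw [smul_add, smul_add, smul_smul, smul_smul, smul_smul, smul_smul, smul_smul]
    congr 2
    · field_simp
    · field_simp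

theorem dilf_one {p : E} (hp : ‖p‖ = 1) (z : E) : dilf p 1 z = z := by
  by_cases hz : z = 0
  · rw [hz, Dil_zero]
  · have h2 : 0 < ‖z‖ := norm_pos_iff.2 hz
    unfold dilf
    generalize (inner ℝ p z : ℝ) = s
    generalize ‖z‖ = r at h2
    have h3 : r * (r + s + 1 ^ 2 * (r - s))⁻¹ = 2⁻¹ := by
      rw [show r + s + 1 ^ 2 * (r - s) = 2 * r by ring]
      field_simp
    rw [h3, show r + s - 1 ^ 2 * (r - s) = 2 * s by ring]
    module

theorem dil_smooth {p : E} (hp : ‖p‖ = 1) :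
    ContDiffOn ℝ ∞ (fun q : ℝ × E => dilf p q.1 q.2) (Ioi 0 ×ˢ {0}ᶜ) := by
  intro q hq
  have hq2 : q.2 ≠ 0 := hq.2
  have hq1 : 0 < q.1 := hq.1
  apply ContDiffAt.contDiffWithinAt
  have h1 : ContDiffAt ℝ ∞ (fun q : ℝ × E => ‖q.2‖) q :=
    (contDiffAt_norm ℝ hq2).comp q contDiffAt_snd
  have h2 : ContDiffAt ℝ ∞ (fun q : ℝ × E => (inner ℝ p q.2 : ℝ)) q :=
    contDiffAt_const.inner ℝ contDiffAt_snd
  have h3 : ContDiffAt ℝ ∞ (fun q : ℝ × E => q.1) q := contDiffAt_fst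
  have h4 : ContDiffAt ℝ ∞ (fun q : ℝ × E => q.2) q := contDiffAt_snd
  have h5 := dilf_denom hp hq2 hq1
  have h6 : ContDiffAt ℝ ∞ (fun q : ℝ × E =>
      ((‖q.2‖ + inner ℝ p q.2) + q.1 ^ 2 * (‖q.2‖ - inner ℝ p q.2))⁻¹) q :=
    ContDiffAt.inv ((h1.add h2).add ((h3.pow 2).mul (h1.sub h2))) h5.ne'
  exact (h1.mul h6).smul ((((h1.add h2).sub ((h3.pow 2).mul (h1.sub h2))).smul
    contDiffAt_const).add ((contDiffAt_const.mul h3).smul (h4.sub (h2.smul contDiffAt_const))))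

theorem dil_smooth' {p : E} (hp : ‖p‖ = 1) {l : ℝ} (hl : 0 < l) :
    ContDiffOn ℝ ∞ (dilf p l) {0}ᶜ := by
  have h1 : ContDiffOn ℝ ∞ (fun z : E => ((l, z) : ℝ × E)) ({0}ᶜ : Set E) :=
    contDiffOn_const.prodMk contDiffOn_id
  exact (dil_smooth hp).comp h1 fun z hz => ⟨hl, hz⟩

theorem dilf_fix {p : E} (hp : ‖p‖ = 1) {l : ℝ} (hl : 0 < l) : dilf p l p = p := by
  have h1 : (inner ℝ p p : ℝ) = 1 := by rw [real_inner_self_eq_norm_sq, hp, one_pow]
  unfold dilf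
  rw [h1, hp, one_smul, sub_self, sub_self, mul_zero, add_zero, sub_zero, smul_zero, add_zero,
    smul_smul]
  norm_num

/-- The dilation as a diffeomorphism of the sphere. -/
def dilS (p : E) (hp : ‖p‖ = 1) (l : ℝ) (hl : 0 < l) : SDiff E where
  f := dilf p l
  g := dilf p l⁻¹
  f_smooth := dil_smooth' hp hl
  g_smooth := dil_smooth' hp (inv_pos.2 hl)
  f_hom := fun c hc z => dilf_hom p l c hc z
  g_hom := fun c hc z => dilf_hom p l⁻¹ c hc z
  f_norm := fun z => dilf_norm hp hl z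
  g_norm := fun z => dilf_norm hp (inv_pos.2 hl) z
  gf := fun z => by rw [dilf_mul hp hl (inv_pos.2 hl), inv_mul_cancel₀ hl.ne', dilf_one hp]
  fg := fun z => by rw [dilf_mul hp (inv_pos.2 hl) hl, mul_inv_cancel₀ hl.ne', dilf_one hp]

end DT
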