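import Pool.Agent.H78.DT.Dil
import Pool.Agent.H78.DT.Aff
import Pool.Agent.H78.DT.SDb

/-!
# Conjugation by dilations (job DT-DILISO)

(1) `dil_iso`: `pushf (dilS p hp l hl)` is isotopic to the identity.  PROOF. `aff_diso` with
`L t = 1 + t (l - 1) > 0` (convex combination of `1` and `l`), `f (t,x) = dilf p (L t) x`, `g (t,x) = dilf p (L t)⁻¹ x`,
`B (t,x) = adjoint (fderiv ℝ (dilf p (L t)⁻¹) (f (t,x)))`, `c = 0`.  For fixed `t` this is
`pushf (dilS p hp (L t) _)`, and the properties of `B` are those of `pushf` (`SDiff.euler`,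
`SDiff.adj`, `fderiv_gf`): `B x = f(t,x)`, `B v ⊥ f (t,x)` for `v ⊥ x`, `B` is invertible.
Joint smoothness of `(l, z) ↦ fderiv ℝ (dilf p l) z` on `Ioi 0 ×ˢ {0}ᶜ` from `dil_smooth`
(`fderiv ℝ (dilf p l) z v = fderiv ℝ (fun q => dilf p q.1 q.2) (l, z) (0, v)`).
(2) `dil_conj`: with `δ = pushf (dilS ..)`, `δ' = pushf (dilS ..).symm`, inverse to each other:
`DIso id δ`, `DIso id δ'` (`DIso.inv`), so by `DIso.mul` `pushf ψ ~ δ ∘ pushf ψ ∘ δ'`, and this is
`pushf` of the composition (`pushf_comp`, `DIso.congr`).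
-/

open Set
open scoped ContDiff

noncomputable section

namespace DT

variable {E : Type} [NormedAddCommGroup E] [InnerProductSpace ℝ E] [FiniteDimensional ℝ E]

omit [FiniteDimensional ℝ E] in
theorem dilIso_fderiv {p : E} (hp : ‖p‖ = 1) :
    ContDiffOn ℝ ∞ (fun q : ℝ × E => fderiv ℝ (dilf p q.1) q.2) (Ioi 0 ×ˢ {0}ᶜ) := by
  have hO : IsOpen ((Ioi (0 : ℝ)) ×ˢ ({0}ᶜ : Set E)) := isOpen_Ioi.prod isOpen_compl_singleton
  have h := dil_smooth hp
  have h1 : ContDiffOn ℝ ∞ (fderiv ℝ (fun q : ℝ × E => dilf p q.1 q.2)) (Ioi 0 ×ˢ {0}ᶜ) :=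
    h.fderiv_of_isOpen hO (by simp)
  have h2 : ContDiffOn ℝ ∞ (fun q : ℝ × E => (fderiv ℝ (fun q : ℝ × E => dilf p q.1 q.2) q).comp
      (ContinuousLinearMap.inr ℝ ℝ E)) (Ioi 0 ×ˢ {0}ᶜ) := h1.clm_comp contDiffOn_const
  refine h2.congr fun q hq => ?_
  have h3 : DifferentiableAt ℝ (fun q : ℝ × E => dilf p q.1 q.2) q :=
    ((h q hq).contDiffAt (hO.mem_nhds hq)).differentiableAt (by simp)
  have h4 : HasFDerivAt (fun z : E => (q.1, z)) (ContinuousLinearMap.inr ℝ ℝ E) q.2 :=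
    hasFDerivAt_prodMk_right q.1 q.2
  exact (HasFDerivAt.comp (f := fun z : E => (q.1, z)) (g := fun q : ℝ × E => dilf p q.1 q.2)
    q.2 h3.hasFDerivAt h4).fderiv

theorem dil_iso (p : E) (hp : ‖p‖ = 1) (l : ℝ) (hl : 0 < l) :
    DIso (fun q : E × E => q) (pushf (dilS p hp l hl)) := by
  have hO : IsOpen ((Ioi (0 : ℝ)) ×ˢ ({0}ᶜ : Set E)) := isOpen_Ioi.prod isOpen_compl_singleton
  have hL : ∀ t ∈ Icc (0 : ℝ) 1, 0 < 1 + t * (l - 1) := by
    rintro t ⟨h0, h1⟩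
    rcases eq_or_lt_of_le h1 with h | h
    · rw [h]
      linarith
    · nlinarith [mul_nonneg h0 hl.le]
  have hne : ∀ x : E, ‖x‖ = 1 → x ≠ 0 := fun x hx h => by
    rw [h, norm_zero] at hx
    exact zero_ne_one hx
  have hf : SmOn (Icc (0 : ℝ) 1 ×ˢ Metric.sphere (0 : E) 1)
      (fun q : ℝ × E => dilf p (1 + q.1 * (l - 1)) q.2) := by
    refine SmOn.comp_contDiffOn (K := fun q : ℝ × E => dilf p q.1 q.2)
      (F := fun q : ℝ × E => (1 + q.1 * (l - 1), q.2)) hO (dil_smooth hp)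
      (SmOn.of_contDiff (by fun_prop)) ?_
    rintro ⟨t, x⟩ ⟨ht, hx⟩
    exact ⟨hL t ht, hne x (by simpa using hx)⟩
  have hinv : SmOn (Icc (0 : ℝ) 1 ×ˢ Metric.sphere (0 : E) 1)
      (fun q : ℝ × E => (1 + q.1 * (l - 1))⁻¹) :=
    SmOn.inv (SmOn.of_contDiff (by fun_prop)) (fun q hq => (hL q.1 hq.1).ne')
  have hg : SmOn (Icc (0 : ℝ) 1 ×ˢ Metric.sphere (0 : E) 1)
      (fun q : ℝ × E => dilf p (1 + q.1 * (l - 1))⁻¹ q.2) := by
    refine SmOn.comp_contDiffOn (K := fun q : ℝ × E => dilf p q.1 q.2)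
      (F := fun q : ℝ × E => ((1 + q.1 * (l - 1))⁻¹, q.2)) hO (dil_smooth hp)
      (SmOn.prodMk hinv (SmOn.of_contDiff (by fun_prop))) ?_
    rintro ⟨t, x⟩ ⟨ht, hx⟩
    exact ⟨inv_pos.2 (hL t ht), hne x (by simpa using hx)⟩
  have hB : SmOn (Icc (0 : ℝ) 1 ×ˢ Metric.sphere (0 : E) 1)
      (fun q : ℝ × E => ContinuousLinearMap.adjoint
        (fderiv ℝ (dilf p (1 + q.1 * (l - 1))⁻¹) (dilf p (1 + q.1 * (l - 1)) q.2))) := by
    refine SmOn.adjoint ?_
    refine SmOn.comp_contDiffOn (K := fun q : ℝ × E => fderiv ℝ (dilf p q.1) q.2)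
      (F := fun q : ℝ × E => ((1 + q.1 * (l - 1))⁻¹, dilf p (1 + q.1 * (l - 1)) q.2)) hO
      (dilIso_fderiv hp) (SmOn.prodMk hinv hf) ?_
    rintro ⟨t, x⟩ ⟨ht, hx⟩
    refine ⟨inv_pos.2 (hL t ht), fun h => ?_⟩
    have h1 := dilf_norm hp (hL t ht) x
    have h2 : dilf p (1 + t * (l - 1)) x = 0 := h
    rw [h2, norm_zero] at h1
    exact hne x (by simpa using hx) (norm_eq_zero.1 h1.symm)
  have h := aff_diso (fun q : ℝ × E => dilf p (1 + q.1 * (l - 1)) q.2)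
    (fun q : ℝ × E => dilf p (1 + q.1 * (l - 1))⁻¹ q.2)
    (fun q : ℝ × E => ContinuousLinearMap.adjoint
        (fderiv ℝ (dilf p (1 + q.1 * (l - 1))⁻¹) (dilf p (1 + q.1 * (l - 1)) q.2)))
    (fun _ => 0) hf hg hB (SmOn.const 0)
    (by
      intro t ht x hx
      have h1 := hL t ht
      refine ⟨(dilf_norm hp h1 x).trans hx, (dilf_norm hp (inv_pos.2 h1) x).trans hx,
        (dilS p hp _ h1).gf x, (dilS p hp _ h1).fg x⟩)
    (by
      intro t ht x hx
      have h1 := hL t ht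
      have hx0 := hne x hx
      let ψ : SDiff E := dilS p hp _ h1
      have hfx : ψ.f x ≠ 0 := ψ.f_ne hx0
      have ea : ∀ u v : E, inner ℝ u (ContinuousLinearMap.adjoint (fderiv ℝ ψ.g (ψ.f x)) v) =
          inner ℝ (fderiv ℝ ψ.g (ψ.f x) u) v := fun u v =>
        ContinuousLinearMap.adjoint_inner_right _ _ _
      refine ⟨?_, ?_, ?_, inner_zero_right _⟩
      · show ContinuousLinearMap.adjoint (fderiv ℝ ψ.g (ψ.f x)) x = ψ.f x
        refine ext_inner_left ℝ fun w => ?_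
        rw [ea, real_inner_comm]
        have h2 := ψ.symm.adj hfx w
        have h3 : ψ.symm.f (ψ.f x) = x := ψ.gf x
        rw [h3] at h2
        rw [real_inner_comm (ψ.f x) w]
        exact h2
      · intro v hv
        show inner ℝ (ψ.f x) (ContinuousLinearMap.adjoint (fderiv ℝ ψ.g (ψ.f x)) v) = 0
        rw [ea]
        have h2 : fderiv ℝ ψ.g (ψ.f x) (ψ.f x) = ψ.g (ψ.f x) := ψ.symm.euler hfx
        rw [h2, ψ.gf]
        exact hv
      · intro v _ h2
        have h2' : ContinuousLinearMap.adjoint (fderiv ℝ ψ.g (ψ.f x)) v = 0 := h2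
        refine ext_inner_left ℝ fun w => ?_
        have h3 := ea (fderiv ℝ ψ.f x w) v
        rw [h2', inner_zero_right, ψ.fderiv_gf hx0] at h3
        rw [inner_zero_right]
        exact h3.symm)
  refine DIso.congr h ?_ ?_
  · intro q hq
    have e0 : (1 : ℝ) + 0 * (l - 1) = 1 := by ring
    have e1 : dilf p 1 = id := funext fun z => dilf_one hp z
    simp only [e0, inv_one, e1, id_eq, add_zero, fderiv_id]
    have e2 : ContinuousLinearMap.adjoint (ContinuousLinearMap.id ℝ E) =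
        ContinuousLinearMap.id ℝ E := by
      ext v
      refine ext_inner_left ℝ fun w => ?_
      rw [ContinuousLinearMap.adjoint_inner_right]
      rfl
    rw [e2]
    rfl
  · intro q hq
    have e0 : (1 : ℝ) + 1 * (l - 1) = l := by ring
    simp only [e0, add_zero]
    rfl

theorem dil_conj (ψ : SDiff E) (p : E) (hp : ‖p‖ = 1) (l : ℝ) (hl : 0 < l) :
    DIso (pushf ψ) (pushf ((dilS p hp l hl).comp (ψ.comp (dilS p hp l hl).symm))) := by
  have h1 := dil_iso p hp l hl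
  have h2 : DIso (fun q : E × E => q) (pushf (dilS p hp l hl).symm) :=
    h1.inv Dff.id (pushf_dff _)
  have h3 : DIso (pushf ψ) (pushf ψ) := DIso.refl (pushf_dff ψ)
  have h4 := h1.mul (h3.mul h2)
  refine DIso.congr h4 (fun _ _ => rfl) fun q hq => ?_
  rw [pushf_comp _ _ q hq, pushf_comp _ _ q hq]

end DT
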