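import Pool.Agent.H78.DT.Gen0
import Pool.Agent.H78.DT.LowDim

/-!
# Generic approximations (job DT-GEN)

Notation: `N = north (m+1)`.  `FrGood κ F` collects the properties needed by `push`
(file `Push`): where `κ p ≥ 1/2`, `F (p, ·)` takes the values `N` and `-N` at no two points of a
common meridian, and does not take the value `N` at `-N` nor `-N` at `N`; where `κ p < 1`,
`F (p, x) = N` only if `x₀ > 0` and `F (p, x) = -N` only if `x₀ < 0`.

(1) `gen_pt` (`P = Unit`, `m ≥ 1`, `κ = 1`).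
PROOF. Stone-Weierstrass: choose a smooth (polynomial) `P : (Fin (m+2) → ℝ) → (Fin (m+2) → ℝ)`
with `|P x - F x| < 1/100` on the sphere (coordinatewise polynomial approximation of continuous
functions on the compact subset `Sp (m+1)` of `ℝ^(m+2)`).  `F ~ nrm ∘ P` by normalised segments.
Apply `generic_pair 0 m` with `η` small (`1/1000`): `Y, Y'`, `y = nrm Y`, `y' = nrm Y'` (unit
vectors close to `N, -N`).  Let `ξ (x)` be continuous, `1` if `|x - N| ≤ 1/2` and `0` if
`|x - N| ≥ 1`, and `ξ'` the same for `-N`, and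
`Q (x) = nrm (x + ξ(x) (N - y) + ξ'(x) (-N - y'))`.  `Q` is continuous on the sphere, at distance
`< 1/100` from the identity (the argument is within `1/400` of `x`).
`Q x = N ↔ x = y`: if `|x - N| ≤ 1/2` then `ξ' = 0` (as `|x + N| ≥ 1`) and `x + N - y = c N`,
`c > 0`, so `x = y + (c-1) N`; `|x| = |y| = 1` gives `(c-1)(c - 1 + 2 y₀) = 0`, and
`c = 1 - 2y₀ < 0` is impossible, so `c = 1`, `x = y`.  If `|x - N| ≥ 1/2` then `Q x ≠ N` because
`|Q x - x| < 1/100`.  Similarly `Q x = -N ↔ x = y'`.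
`F₁ = Q ∘ nrm ∘ P`; `F₁ ~ nrm ∘ P` (normalised segment).  `F₁ x = N ↔ nrm (P x) = y ↔
P x = |P x|/|Y| • Y`; so the three properties of `generic_pair` give the claims
(`μ = |Y|/|P x|`).
(2) `gen_I` (`P = I`, `m ≥ 2`, `F (0,x) = F (1,x) = x`).
PROOF. Choose `0 < δ < 1/10` with `|F(p,x) - x| < 1/100` for `p ≤ 4δ` or `p ≥ 1 - 4δ`.  Let
`χ : ℝ → [0,1]` be smooth, `0` for `p ≤ δ` or `p ≥ 1 - δ`, and `1` on `[2δ, 1-2δ]`
(`Real.smoothTransition`).  Let `P (p,x)` be smooth on `ℝ × ℝ^(m+2)` with `|P - F| < 1/100` on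
`I × Sp (m+1)`, `P₁ = (1-χ(p)) x + χ(p) P(p,x)`, smooth, `|P₁ - F| < 1/50` on `I × Sp`, and
`P₁ = x` for `p = 0, 1`.  `F ~ nrm P₁` relative to `p ∈ {0,1}`.
Apply `generic_pair 1 m` to `P₁` (`Fin 1 → ℝ` instead of `ℝ`): `Y, Y', y, y'`.
Let `χ₂ : ℝ → [0,1]` be continuous, `0` for `p ≤ 2δ` or `p ≥ 1-2δ`, `1` on `[3δ, 1-3δ]`,
`Q_p (x) = nrm (x + χ₂(p) (ξ(x)(N-y) + ξ'(x)(-N-y')))`, `F₁ (p,x) = Q_p (nrm (P₁ (p,x)))`.
`F₁ ~ nrm P₁` relative to `p ∈ {0,1}` (normalised segments; equal where `χ₂ = 0`).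
Let `κ` be continuous with values in `[0,1]`, `0` for `p ≤ 3δ` or `p ≥ 1-3δ`, `1` on
`[4δ, 1-4δ]`.  If `κ p ≥ 1/2` then `χ₂ p = 1` and the properties follow as in (1).  If `κ p < 1`
then `p < 4δ` or `p > 1-4δ`, so `|F₁(p,x) - x| < 1/20`, and `F₁ = N` implies `x₀ > 0`, etc.
-/

open Matrix Set unitInterval Topology

noncomputable section

namespace DT

/-- The properties needed to push preimages of the poles apart. -/
def FrGood {P : Type} (m : ℕ) (κ : P → ℝ) (F : P × Sp (m + 1) → (Fin (m + 2) → ℝ)) : Prop :=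
  (∀ p, 1 / 2 ≤ κ p →
    (∀ (l : Sp m) (t t' : I), ¬ (F (p, susp (t, l)) = north (m + 1) ∧
      F (p, susp (t', l)) = -north (m + 1))) ∧
    (∀ l : Sp m, F (p, susp (1, l)) ≠ north (m + 1) ∧ F (p, susp (0, l)) ≠ -north (m + 1))) ∧
  (∀ p, κ p < 1 → ∀ x : Sp (m + 1), (F (p, x) = north (m + 1) → 0 < x.1 0) ∧
    (F (p, x) = -north (m + 1) → x.1 0 < 0))

theorem gen_tri {κ : Type*} [Fintype κ] (v w : κ → ℝ) : nr (v + w) ≤ nr v + nr w := by
  have key : (v + w) ⬝ᵥ (v + w) ≤ (nr v + nr w) ^ 2 := by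
    have hv := cone_nr_sq v
    have hw := cone_nr_sq w
    have hcs : v ⬝ᵥ w ≤ nr v * nr w := by
      have := Finset.sum_mul_sq_le_sq_mul_sq Finset.univ v w
      have h3 : (v ⬝ᵥ w) ^ 2 ≤ (nr v * nr w) ^ 2 := by
        rw [mul_pow, hv, hw]
        unfold dotProduct
        simpa only [pow_two] using this
      exact (abs_le_of_sq_le_sq' h3 (mul_nonneg (nr_nonneg v) (nr_nonneg w))).2
    rw [add_dotProduct, dotProduct_add, dotProduct_add, ← hv, ← hw, dotProduct_comm w v]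
    nlinarith
  unfold nr at key ⊢
  exact Real.sqrt_le_iff.2 ⟨add_nonneg (Real.sqrt_nonneg _) (Real.sqrt_nonneg _), key⟩

theorem gen_nr_neg {κ : Type*} [Fintype κ] (v : κ → ℝ) : nr (-v) = nr v := by
  unfold nr
  rw [neg_dotProduct_neg]

theorem gen_nr_sub_comm {κ : Type*} [Fintype κ] (v w : κ → ℝ) : nr (v - w) = nr (w - v) := by
  rw [← gen_nr_neg, neg_sub]

theorem gen_tri_sub {κ : Type*} [Fintype κ] (a b c : κ → ℝ) :
    nr (a - c) ≤ nr (a - b) + nr (b - c) := by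
  have := gen_tri (a - b) (b - c)
  rwa [sub_add_sub_cancel] at this

theorem gen_abs_nr {κ : Type*} [Fintype κ] (v w : κ → ℝ) : |nr v - nr w| ≤ nr (v - w) := by
  have h1 := gen_tri (v - w) w
  have h2 := gen_tri (w - v) v
  rw [sub_add_cancel] at h1 h2
  rw [gen_nr_sub_comm w v] at h2
  rw [abs_le]
  constructor <;> linarith

theorem gen_nr_nrm {κ : Type*} [Fintype κ] {v : κ → ℝ} (hv : v ≠ 0) : nr (nrm v) = 1 :=
  nr_eq_one (nrm_mem hv)

theorem gen_nrm_sub {κ : Type*} [Fintype κ] {v w : κ → ℝ} (hv : v ≠ 0) (hw : w ∈ US κ) :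
    nr (nrm v - w) ≤ 2 * nr (v - w) := by
  have h1 := gen_tri_sub (nrm v) v w
  have h2 : nr (nrm v - v) = |1 - nr v| := by
    have : nrm v - v = (1 - nr v) • nrm v := by
      rw [sub_smul, one_smul, nr_smul_nrm]
    rw [this, nr_smul, gen_nr_nrm hv, mul_one]
  have h3 := gen_abs_nr v w
  rw [nr_eq_one hw, abs_sub_comm] at h3
  rw [h2] at h1
  linarith

theorem gen_coord {κ : Type*} [Fintype κ] (v : κ → ℝ) (i : κ) : |v i| ≤ nr v := by
  apply abs_le_of_sq_le_sq _ (nr_nonneg v)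
  rw [cone_nr_sq, pow_two]
  exact Finset.single_le_sum (f := fun j => v j * v j) (fun j _ => mul_self_nonneg _)
    (Finset.mem_univ i)

theorem gen_nrm_neg {κ : Type*} [Fintype κ] (v : κ → ℝ) : nrm (-v) = -nrm v := by
  unfold nrm
  rw [gen_nr_neg, smul_neg]

/-- Cut-off. -/
def gen_xi (s : ℝ) : ℝ := max 0 (min 1 (2 * s))

theorem gen_xi_nonneg (s : ℝ) : 0 ≤ gen_xi s := le_max_left _ _

theorem gen_xi_le (s : ℝ) : gen_xi s ≤ 1 := max_le zero_le_one (min_le_left _ _)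

theorem gen_xi_one {s : ℝ} (h : 1 / 2 ≤ s) : gen_xi s = 1 := by
  unfold gen_xi
  rw [min_eq_left (by linarith), max_eq_right zero_le_one]

theorem gen_xi_zero {s : ℝ} (h : s ≤ 0) : gen_xi s = 0 := by
  unfold gen_xi
  rw [min_eq_right (by linarith), max_eq_left (by linarith)]

/-- The correction map, before normalisation. -/
def gen_q {k : ℕ} (c : ℝ) (y y' x : Fin (k + 1) → ℝ) : Fin (k + 1) → ℝ :=
  x + c • (gen_xi (x 0) • (north k - y) + gen_xi (-(x 0)) • (-north k - y'))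

theorem gen_q_close {k : ℕ} {c : ℝ} {y y' x : Fin (k + 1) → ℝ} (hc0 : 0 ≤ c) (hc1 : c ≤ 1)
    (hy : nr (north k - y) < 1 / 250) (hy' : nr (-north k - y') < 1 / 250) :
    nr (gen_q c y y' x - x) < 1 / 100 := by
  unfold gen_q
  rw [add_sub_cancel_left, nr_smul, abs_of_nonneg hc0]
  have h1 := gen_tri (gen_xi (x 0) • (north k - y)) (gen_xi (-(x 0)) • (-north k - y'))
  rw [nr_smul, nr_smul, abs_of_nonneg (gen_xi_nonneg _), abs_of_nonneg (gen_xi_nonneg _)] at h1
  have h2 : gen_xi (x 0) * nr (north k - y) ≤ 1 * nr (north k - y) :=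
    mul_le_mul_of_nonneg_right (gen_xi_le _) (nr_nonneg _)
  have h3 : gen_xi (-(x 0)) * nr (-north k - y') ≤ 1 * nr (-north k - y') :=
    mul_le_mul_of_nonneg_right (gen_xi_le _) (nr_nonneg _)
  have h4 : c * nr (gen_xi (x 0) • (north k - y) + gen_xi (-(x 0)) • (-north k - y')) ≤
      1 * nr (gen_xi (x 0) • (north k - y) + gen_xi (-(x 0)) • (-north k - y')) :=
    mul_le_mul_of_nonneg_right hc1 (nr_nonneg _)
  linarith

theorem gen_ne_zero {κ : Type*} [Fintype κ] {v x : κ → ℝ} (hx : x ∈ US κ)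
    (h : nr (v - x) < 1) : v ≠ 0 := by
  rintro rfl
  rw [zero_sub, gen_nr_neg, nr_eq_one hx] at h
  exact lt_irrefl _ h

theorem gen_q_north {k : ℕ} {y y' x : Fin (k + 1) → ℝ} (hx : x ∈ US (Fin (k + 1)))
    (hyU : y ∈ US (Fin (k + 1))) (hy : nr (north k - y) < 1 / 250)
    (hy' : nr (-north k - y') < 1 / 250) (h : nrm (gen_q 1 y y' x) = north k) : x = y := by
  have hn0 : north k 0 = 1 := by
    unfold north
    rw [Fin.cons_zero]
  have hcl := gen_q_close (x := x) zero_le_one le_rfl hy hy'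
  set v := gen_q 1 y y' x with hv
  have hvN : v = nr v • north k := by
    rw [← h, nr_smul_nrm]
  have h1 := gen_abs_nr v x
  rw [nr_eq_one hx] at h1
  have h2 := gen_coord (v - x) 0
  rw [Pi.sub_apply] at h2
  have h3 : v 0 = nr v := by
    conv_lhs => rw [hvN]
    rw [Pi.smul_apply, hn0, smul_eq_mul, mul_one]
  rw [h3] at h2
  have h4 := abs_le.1 h1
  have h5 := abs_le.1 h2
  have hx0 : 1 / 2 ≤ x 0 := by linarith [h4.1, h5.2]
  have hxi : gen_xi (x 0) = 1 := gen_xi_one hx0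
  have hxi' : gen_xi (-(x 0)) = 0 := gen_xi_zero (by linarith)
  have hveq : v = x + (north k - y) := by
    rw [hv]
    unfold gen_q
    rw [hxi, hxi', zero_smul, add_zero, one_smul, one_smul]
  have hxy : x = y + (nr v - 1) • north k := by
    have e : x = v - (north k - y) := by rw [hveq, add_sub_cancel_right]
    rw [e]
    conv_lhs => rw [hvN]
    rw [sub_smul, one_smul]
    abel
  have hyN : y ⬝ᵥ north k = y 0 := by
    unfold north dotProduct
    rw [Fin.sum_univ_succ, Fin.cons_zero, mul_one]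
    simp
  have hNN : north k ⬝ᵥ north k = 1 := cone_north_mem k
  have hxx : x ⬝ᵥ x = 1 := hx
  have hyy : y ⬝ᵥ y = 1 := hyU
  have hq : (nr v - 1) * (2 * y 0 + (nr v - 1)) = 0 := by
    rw [hxy, add_dotProduct, dotProduct_add, dotProduct_add, smul_dotProduct, dotProduct_smul,
      smul_dotProduct, dotProduct_smul, dotProduct_comm (north k) y, hyN, hNN, hyy] at hxx
    simp only [smul_eq_mul] at hxx
    linarith
  have hy0 : 1 / 2 ≤ y 0 := by
    have := gen_coord (north k - y) 0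
    rw [Pi.sub_apply, hn0] at this
    have := (abs_le.1 this).2
    linarith
  have hc : nr v - 1 = 0 := by
    rcases mul_eq_zero.1 hq with h6 | h6
    · exact h6
    · exfalso
      have := h4.1
      linarith
  rw [hxy, hc, zero_smul, add_zero]

theorem gen_q_neg {k : ℕ} (c : ℝ) (y y' x : Fin (k + 1) → ℝ) :
    gen_q c (-y') (-y) (-x) = -gen_q c y y' x := by
  unfold gen_q
  ext i
  simp only [Pi.neg_apply, Pi.add_apply, Pi.smul_apply, Pi.sub_apply, smul_eq_mul, neg_neg]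
  ring

theorem gen_US_neg {κ : Type*} [Fintype κ] {v : κ → ℝ} (hv : v ∈ US κ) : -v ∈ US κ := by
  have h : v ⬝ᵥ v = 1 := hv
  change -v ⬝ᵥ -v = 1
  rw [neg_dotProduct_neg, h]

theorem gen_q_south {k : ℕ} {y y' x : Fin (k + 1) → ℝ} (hx : x ∈ US (Fin (k + 1)))
    (hyU' : y' ∈ US (Fin (k + 1))) (hy : nr (north k - y) < 1 / 250)
    (hy' : nr (-north k - y') < 1 / 250) (h : nrm (gen_q 1 y y' x) = -north k) : x = y' := by
  have h1 : nrm (gen_q 1 (-y') (-y) (-x)) = north k := by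
    rw [gen_q_neg, gen_nrm_neg, h, neg_neg]
  have h2 : nr (north k - -y') < 1 / 250 := by
    rw [← gen_nr_neg]
    have : -(north k - -y') = -north k - y' := by abel
    rw [this]
    exact hy'
  have h3 : nr (-north k - -y) < 1 / 250 := by
    rw [← gen_nr_neg]
    have : -(-north k - -y) = north k - y := by abel
    rw [this]
    exact hy
  have h4 := gen_q_north (gen_US_neg hx) (gen_US_neg hyU') h2 h3 h1
  exact neg_injective h4

theorem gen_q_cont {X : Type*} [TopologicalSpace X] {k : ℕ} (y y' : Fin (k + 1) → ℝ) {c : X → ℝ}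
    {f : X → (Fin (k + 1) → ℝ)} (hc : Continuous c) (hf : Continuous f) :
    Continuous fun x => gen_q (c x) y y' (f x) := by
  have h0 : Continuous fun x => f x 0 := (continuous_apply 0).comp hf
  have hxi : Continuous gen_xi := by
    unfold gen_xi
    fun_prop
  unfold gen_q
  exact hf.add (hc.smul (((hxi.comp h0).smul continuous_const).add
    ((hxi.comp h0.neg).smul continuous_const)))

theorem gen_susp_zero {k : ℕ} (l : Sp k) : (susp (0, l)).1 = north (k + 1) := by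
  unfold susp sv north
  simp

theorem gen_susp_one {k : ℕ} (l : Sp k) : (susp (1, l)).1 = -north (k + 1) := by
  unfold susp sv north
  ext i
  refine Fin.cases ?_ (fun j => ?_) i
  · simp
  · simp

theorem gen_mul {κ : Type*} [Fintype κ] {A Y : κ → ℝ} (hA : A ≠ 0) (hY : Y ≠ 0)
    (h : nrm A = nrm Y) : ∃ μ : ℝ, 0 < μ ∧ μ • A = Y := by
  have hA' := cone_nr_pos hA
  have hY' := cone_nr_pos hY
  refine ⟨nr Y * (nr A)⁻¹, by positivity, ?_⟩
  rw [mul_smul]
  have : (nr A)⁻¹ • A = nrm A := rfl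
  rw [this, h, nr_smul_nrm]

theorem gen_core (a m : ℕ) (ham : a < m) {P : Type} [TopologicalSpace P] (j : P → (Fin a → ℝ))
    (hj : Continuous j) (F : P × Sp (m + 1) → (Fin (m + 2) → ℝ)) (hF : Continuous F)
    (hU : ∀ q, F q ∈ US (Fin (m + 2)))
    (P1 : (Fin a → ℝ) × (Fin (m + 2) → ℝ) → (Fin (m + 2) → ℝ)) (hP1 : ContDiff ℝ 1 P1)
    (hclose : ∀ q : P × Sp (m + 1), nr (P1 (j q.1, q.2.1) - F q) < 1 / 50) (χ : P → ℝ)
    (hχ : Continuous χ) (hχ0 : ∀ p, 0 ≤ χ p) (hχ1 : ∀ p, χ p ≤ 1) (S : Set P)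
    (hS : ∀ p ∈ S, χ p = 0)
    (hS' : ∀ q : P × Sp (m + 1), q.1 ∈ S → P1 (j q.1, q.2.1) = F q) :
    ∃ F₁ : P × Sp (m + 1) → (Fin (m + 2) → ℝ), HRel (US (Fin (m + 2))) {q | q.1 ∈ S} F F₁ ∧
      (∀ q, nr (F₁ q - F q) < 1 / 10) ∧ ∀ p, χ p = 1 →
        (∀ (l : Sp m) (t t' : I), ¬ (F₁ (p, susp (t, l)) = north (m + 1) ∧
          F₁ (p, susp (t', l)) = -north (m + 1))) ∧
        (∀ l : Sp m, F₁ (p, susp (1, l)) ≠ north (m + 1) ∧
          F₁ (p, susp (0, l)) ≠ -north (m + 1)) := by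
  obtain ⟨Y, Y', hY, hY', hgen, hgN, hgS⟩ := generic_pair a m ham P1 hP1 (1 / 500) (by norm_num)
  have hNU : north (m + 1) ∈ US (Fin (m + 2)) := cone_north_mem (m + 1)
  have hNU' := gen_US_neg hNU
  have hY0 : Y ≠ 0 := gen_ne_zero hNU (hY.trans (by norm_num))
  have hY'2 : nr (Y' - -north (m + 1)) < 1 / 500 := by rwa [sub_neg_eq_add]
  have hY0' : Y' ≠ 0 := gen_ne_zero hNU' (hY'2.trans (by norm_num))
  set y := nrm Y with hy
  set y' := nrm Y' with hy'
  have hyc : nr (north (m + 1) - y) < 1 / 250 := by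
    rw [gen_nr_sub_comm]
    have := gen_nrm_sub hY0 hNU
    linarith
  have hyc' : nr (-north (m + 1) - y') < 1 / 250 := by
    rw [gen_nr_sub_comm]
    have := gen_nrm_sub hY0' hNU'
    linarith
  set G : P × Sp (m + 1) → (Fin (m + 2) → ℝ) := fun q => P1 (j q.1, q.2.1) with hG
  have hGc : Continuous G := hP1.continuous.comp ((hj.comp continuous_fst).prodMk
    (continuous_subtype_val.comp continuous_snd))
  have hG0 : ∀ q, G q ≠ 0 := fun q => gen_ne_zero (hU q) ((hclose q).trans (by norm_num))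
  set g : P × Sp (m + 1) → (Fin (m + 2) → ℝ) := fun q => nrm (G q) with hg
  have hgc : Continuous g := lowDim_continuous_nrm hGc hG0
  have hgU : ∀ q, g q ∈ US (Fin (m + 2)) := fun q => nrm_mem (hG0 q)
  have step1 : HRel (US (Fin (m + 2))) {q : P × Sp (m + 1) | q.1 ∈ S} F g :=
    lowDim_segment _ F G hF hGc hU (fun q => (hclose q).trans (by norm_num)) fun q hq => hS' q hq
  have hcl2 : ∀ q : P × Sp (m + 1), nr (gen_q (χ q.1) y y' (g q) - g q) < 1 / 100 := fun q =>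
    gen_q_close (hχ0 _) (hχ1 _) hyc hyc'
  have step2 : HRel (US (Fin (m + 2))) {q : P × Sp (m + 1) | q.1 ∈ S} g
      (fun q => nrm (gen_q (χ q.1) y y' (g q))) := by
    refine lowDim_segment _ g (fun q => gen_q (χ q.1) y y' (g q)) hgc
      (gen_q_cont y y' (hχ.comp continuous_fst) hgc) hgU
      (fun q => (hcl2 q).trans (by norm_num)) fun q hq => ?_
    have h0 : χ q.1 = 0 := hS _ hq
    simp only [gen_q]
    rw [h0, zero_smul, add_zero]
  have hq0 : ∀ q : P × Sp (m + 1), gen_q (χ q.1) y y' (g q) ≠ 0 := fun q =>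
    gen_ne_zero (hgU q) ((hcl2 q).trans (by norm_num))
  have kN : ∀ (p : P) (x : Sp (m + 1)), χ p = 1 →
      nrm (gen_q (χ p) y y' (g (p, x))) = north (m + 1) →
      ∃ μ : ℝ, 0 < μ ∧ μ • P1 (j p, x.1) = Y := by
    intro p x hp h
    rw [hp] at h
    have h2 : g (p, x) = y := gen_q_north (hgU (p, x)) (nrm_mem hY0) hyc hyc' h
    exact gen_mul (hG0 (p, x)) hY0 h2
  have kS : ∀ (p : P) (x : Sp (m + 1)), χ p = 1 →
      nrm (gen_q (χ p) y y' (g (p, x))) = -north (m + 1) →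
      ∃ μ : ℝ, 0 < μ ∧ μ • P1 (j p, x.1) = Y' := by
    intro p x hp h
    rw [hp] at h
    have h2 : g (p, x) = y' := gen_q_south (hgU (p, x)) (nrm_mem hY0') hyc hyc' h
    exact gen_mul (hG0 (p, x)) hY0' h2
  refine ⟨fun q => nrm (gen_q (χ q.1) y y' (g q)), step1.trans step2, fun q => ?_, fun p hp => ?_⟩
  · have h1 := gen_nrm_sub (hq0 q) (hgU q)
    have h2 := gen_nrm_sub (hG0 q) (hU q)
    have h3 := hcl2 q
    have h4 := hclose q
    have h5 := gen_tri_sub (nrm (gen_q (χ q.1) y y' (g q))) (g q) (F q)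
    have h6 : nr (g q - F q) ≤ 2 * nr (P1 (j q.1, q.2.1) - F q) := h2
    linarith
  · refine ⟨?_, ?_⟩
    · rintro l t t' ⟨h1, h2⟩
      obtain ⟨μ, hμ, e1⟩ := kN p _ hp h1
      obtain ⟨μ', hμ', e2⟩ := kS p _ hp h2
      exact hgen (j p) l t t' μ μ' hμ hμ' ⟨e1, e2⟩
    · intro l
      refine ⟨fun h1 => ?_, fun h2 => ?_⟩
      · obtain ⟨μ, hμ, e1⟩ := kN p _ hp h1
        rw [gen_susp_one] at e1
        exact hgN (j p) μ hμ e1
      · obtain ⟨μ, hμ, e1⟩ := kS p _ hp h2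
        rw [gen_susp_zero] at e1
        exact hgS (j p) μ hμ e1

theorem gen_pt (m : ℕ) (hm : 1 ≤ m) (F : Unit × Sp (m + 1) → (Fin (m + 2) → ℝ))
    (hF : Continuous F) (hU : ∀ q, F q ∈ US (Fin (m + 2))) :
    ∃ F₁ : Unit × Sp (m + 1) → (Fin (m + 2) → ℝ), HIn (US (Fin (m + 2))) F F₁ ∧
      FrGood m (fun _ => 1) F₁ := by
  obtain ⟨P1, hP1, hcl⟩ := lowDim_approx (E := (Fin 0 → ℝ) × (Fin (m + 2) → ℝ))
    (fun q : Unit × Sp (m + 1) => ((0 : Fin 0 → ℝ), q.2.1))
    (continuous_const.prodMk (continuous_subtype_val.comp continuous_snd))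
    (by
      rintro ⟨t, x⟩ ⟨t', x'⟩ hp
      simp only [Prod.mk.injEq] at hp
      rw [Prod.mk.injEq]
      exact ⟨rfl, Subtype.ext hp.2⟩) F hF (1 / 50) (by norm_num)
  obtain ⟨F₁, h1, -, h3⟩ := gen_core 0 m hm (P := Unit) (fun _ => 0) continuous_const F hF hU P1 hP1
    hcl (fun _ => 1) continuous_const (fun _ => zero_le_one) (fun _ => le_rfl) ∅
    (by intro p hp; exact absurd hp (Set.notMem_empty p))
    (by intro p hp; exact absurd hp (Set.notMem_empty p.1))
  refine ⟨F₁, h1.hIn, fun p _ => h3 p rfl, fun p hp => ?_⟩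
  exact absurd hp (lt_irrefl _)

theorem gen_ends (m : ℕ) (F : I × Sp (m + 1) → (Fin (m + 2) → ℝ)) (hh : Continuous F)
    (h0 : ∀ x, F (0, x) = x.1) (h1 : ∀ x, F (1, x) = x.1) :
    ∃ δ : ℝ, 0 < δ ∧ ∀ (t : I) (x : Sp (m + 1)), ((t : ℝ) < δ ∨ 1 - δ < (t : ℝ)) →
      nr (x.1 - F (t, x)) < 1 / 50 := by
  have hopen : IsOpen {p : I × Sp (m + 1) | nr (p.2.1 - F p) < 1 / 50} :=
    isOpen_lt (continuous_nr.comp ((continuous_subtype_val.comp continuous_snd).sub hh))
      continuous_const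
  have key : ∀ s : I, (∀ x, F (s, x) = x.1) → ∃ δ : ℝ, 0 < δ ∧ ∀ (t : I) (x : Sp (m + 1)),
      |(t : ℝ) - s| < δ → nr (x.1 - F (t, x)) < 1 / 50 := by
    intro s hs
    have hsub : ({s} : Set I) ×ˢ (univ : Set (Sp (m + 1))) ⊆
        {p : I × Sp (m + 1) | nr (p.2.1 - F p) < 1 / 50} := by
      rintro ⟨t, y⟩ ⟨a1, -⟩
      simp only [mem_singleton_iff] at a1
      subst a1
      simp only [mem_ofPred_eq]
      rw [hs y, sub_self, cone_nr_zero]
      norm_num
    obtain ⟨V, T, hV, -, hsV, hT, hVT⟩ :=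
      generalized_tube_lemma isCompact_singleton isCompact_univ hopen hsub
    obtain ⟨δ, hδ, hball⟩ := Metric.isOpen_iff.1 hV s (hsV rfl)
    refine ⟨δ, hδ, fun t x ht => ?_⟩
    have m1 : t ∈ V := hball (by
      rw [Metric.mem_ball, Subtype.dist_eq, Real.dist_eq]
      exact ht)
    have m2 : (t, x) ∈ V ×ˢ T := ⟨m1, hT (mem_univ _)⟩
    exact hVT m2
  obtain ⟨δ0, hδ0, hk0⟩ := key 0 h0
  obtain ⟨δ1, hδ1, hk1⟩ := key 1 h1
  refine ⟨min δ0 δ1, lt_min hδ0 hδ1, fun t x ht => ?_⟩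
  have t0 := t.2.1
  have t1 := t.2.2
  rcases ht with ht | ht
  · apply hk0
    rw [Icc.coe_zero, sub_zero, abs_of_nonneg t0]
    exact ht.trans_le (min_le_left _ _)
  · apply hk1
    rw [Icc.coe_one, abs_of_nonpos (by linarith)]
    have := min_le_right δ0 δ1
    linarith

theorem gen_I (m : ℕ) (hm : 2 ≤ m) (F : I × Sp (m + 1) → (Fin (m + 2) → ℝ))
    (hF : Continuous F) (hU : ∀ q, F q ∈ US (Fin (m + 2))) (h0 : ∀ x, F (0, x) = x.1)
    (h1 : ∀ x, F (1, x) = x.1) :
    ∃ (κ : I → ℝ) (F₁ : I × Sp (m + 1) → (Fin (m + 2) → ℝ)), Continuous κ ∧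
      (∀ p, 0 ≤ κ p ∧ κ p ≤ 1) ∧ κ 0 = 0 ∧ κ 1 = 0 ∧
      HRel (US (Fin (m + 2))) {q : I × Sp (m + 1) | q.1 = 0 ∨ q.1 = 1} F F₁ ∧
      FrGood m κ F₁ := by
  obtain ⟨δ', hδ', hend'⟩ := gen_ends m F hF h0 h1
  set δ : ℝ := δ' / 2 with hδdef
  have hδ : 0 < δ := by positivity
  have hend : ∀ (t : I) (x : Sp (m + 1)), ((t : ℝ) < 2 * δ ∨ 1 - 2 * δ < (t : ℝ)) →
      nr (x.1 - F (t, x)) < 1 / 50 := by
    intro t x ht
    apply hend' t x
    have e : 2 * δ = δ' := by rw [hδdef]; ring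
    rwa [e] at ht
  obtain ⟨P, hP, hP2⟩ := lowDim_approx (E := (Fin 1 → ℝ) × (Fin (m + 2) → ℝ))
    (fun p : I × Sp (m + 1) => ((fun _ => (p.1 : ℝ)), p.2.1))
    ((continuous_pi fun _ => continuous_subtype_val.comp continuous_fst).prodMk
      (continuous_subtype_val.comp continuous_snd))
    (by
      rintro ⟨t, x⟩ ⟨t', x'⟩ hp
      simp only [Prod.mk.injEq] at hp
      rw [Prod.mk.injEq]
      exact ⟨Subtype.ext (congrFun hp.1 0), Subtype.ext hp.2⟩) F hF (1 / 50) (by norm_num)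
  set χ : ℝ → ℝ := fun t => Real.smoothTransition (t / δ) * Real.smoothTransition ((1 - t) / δ)
    with hχ
  have hχs : ContDiff ℝ 1 χ := by
    apply ContDiff.mul
    · exact Real.smoothTransition.contDiff.comp (contDiff_id.div_const δ)
    · exact Real.smoothTransition.contDiff.comp ((contDiff_const.sub contDiff_id).div_const δ)
  have hχ0 : ∀ t, 0 ≤ χ t := fun t =>
    mul_nonneg (Real.smoothTransition.nonneg _) (Real.smoothTransition.nonneg _)
  have hχ1 : ∀ t, χ t ≤ 1 := fun t =>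
    mul_le_one₀ (Real.smoothTransition.le_one _) (Real.smoothTransition.nonneg _)
      (Real.smoothTransition.le_one _)
  have hχend0 : χ 0 = 0 := by
    simp only [hχ]
    rw [zero_div, Real.smoothTransition.zero_of_nonpos le_rfl, zero_mul]
  have hχend1 : χ 1 = 0 := by
    simp only [hχ]
    rw [sub_self, zero_div, Real.smoothTransition.zero_of_nonpos le_rfl, mul_zero]
  have hχmid : ∀ t, δ ≤ t → t ≤ 1 - δ → χ t = 1 := by
    intro t a1 a2
    simp only [hχ]
    rw [Real.smoothTransition.one_of_one_le ((one_le_div hδ).2 a1),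
      Real.smoothTransition.one_of_one_le ((one_le_div hδ).2 (by linarith)), mul_one]
  set P1 : (Fin 1 → ℝ) × (Fin (m + 2) → ℝ) → (Fin (m + 2) → ℝ) := fun w =>
    (1 - χ (w.1 0)) • w.2 + χ (w.1 0) • P w with hP1
  have hP1s : ContDiff ℝ 1 P1 := by
    have c1 : ContDiff ℝ 1 (fun w : (Fin 1 → ℝ) × (Fin (m + 2) → ℝ) => χ (w.1 0)) :=
      hχs.comp ((contDiff_apply ℝ ℝ (0 : Fin 1)).comp contDiff_fst)
    exact ((contDiff_const.sub c1).smul contDiff_snd).add (c1.smul hP)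
  obtain ⟨F₁, e1, e2, e3⟩ := gen_core 1 m hm (P := I) (fun p _ => (p : ℝ))
    (continuous_pi fun _ => continuous_subtype_val) F hF hU P1 hP1s
    (by
      rintro ⟨p, x⟩
      apply lowDim_convex _ _ _ (hχ0 _) (hχ1 _)
      · by_cases hm : δ ≤ (p : ℝ) ∧ (p : ℝ) ≤ 1 - δ
        · exact Or.inl (hχmid _ hm.1 hm.2)
        · right
          apply hend p x
          rw [not_and_or, not_le, not_le] at hm
          rcases hm with hm | hm
          · left; linarith
          · right; linarith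
      · exact hP2 (p, x))
    (fun p => χ p) (hχs.continuous.comp continuous_subtype_val) (fun p => hχ0 _) (fun p => hχ1 _)
    {p : I | p = 0 ∨ p = 1}
    (by
      rintro p (hp | hp)
      · rw [hp, Icc.coe_zero]
        exact hχend0
      · rw [hp, Icc.coe_one]
        exact hχend1)
    (by
      rintro ⟨p, x⟩ (hp | hp)
      · have hp' : p = 0 := hp
        subst hp'
        simp only [hP1, Icc.coe_zero, hχend0, sub_zero, one_smul, zero_smul, add_zero]
        exact (h0 x).symm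
      · have hp' : p = 1 := hp
        subst hp'
        simp only [hP1, Icc.coe_one, hχend1, sub_zero, one_smul, zero_smul, add_zero]
        exact (h1 x).symm)
  refine ⟨fun p => min 1 (min ((p : ℝ) / (2 * δ)) ((1 - (p : ℝ)) / (2 * δ))), F₁, ?_, ?_, ?_, ?_,
    e1, ?_, ?_⟩
  · fun_prop
  · intro p
    refine ⟨?_, min_le_left _ _⟩
    have p0 := p.2.1
    have p1 := p.2.2
    exact le_min zero_le_one (le_min (by positivity) (div_nonneg (by linarith) (by positivity)))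
  · simp only []
    rw [Icc.coe_zero, zero_div, sub_zero]
    have : 0 ≤ 1 / (2 * δ) := by positivity
    rw [min_eq_left this, min_eq_right zero_le_one]
  · simp only []
    rw [Icc.coe_one, sub_self, zero_div]
    have : 0 ≤ 1 / (2 * δ) := by positivity
    rw [min_eq_right this, min_eq_right zero_le_one]
  · intro p hp
    apply e3
    have h2 := (hp.trans (min_le_right _ _)).trans (min_le_left _ _)
    have h3 := (hp.trans (min_le_right _ _)).trans (min_le_right _ _)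
    rw [le_div_iff₀ (by positivity)] at h2 h3
    apply hχmid
    · linarith
    · linarith
  · intro p hp x
    have hp' : (p : ℝ) < 2 * δ ∨ 1 - 2 * δ < (p : ℝ) := by
      rcases min_lt_iff.1 hp with h2 | h2
      · exact absurd h2 (lt_irrefl _)
      · rcases min_lt_iff.1 h2 with h3 | h3
        · left
          rw [div_lt_one (by positivity)] at h3
          exact h3
        · right
          rw [div_lt_one (by positivity)] at h3
          linarith
    have h2 := hend p x hp'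
    have h3 := e2 (p, x)
    have h4 := gen_tri_sub (F₁ (p, x)) (F (p, x)) x.1
    rw [gen_nr_sub_comm (F (p, x)) x.1] at h4
    have h5 := gen_coord (F₁ (p, x) - x.1) 0
    rw [Pi.sub_apply] at h5
    have hn0 : north (m + 1) 0 = 1 := by
      unfold north
      rw [Fin.cons_zero]
    refine ⟨fun h6 => ?_, fun h6 => ?_⟩
    · rw [h6] at h3 h4 h5
      rw [hn0] at h5
      have := (abs_le.1 h5).2
      linarith
    · rw [h6] at h3 h4 h5
      rw [Pi.neg_apply, hn0] at h5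
      have := (abs_le.1 h5).1
      linarith

end DT
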