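import Pool.Agent.H78.DT.Basic
import Pool.Agent.H78.DT.Cone

/-!
# A generic pair of target points (job DT-GEN0)

`P (p, v)` is `C¹`, `p ∈ ℝᵃ`, `v ∈ ℝ^(m+2)`, values in `ℝ^(m+2)`, and `a < m`.  We find vectors
`Y, Y'` arbitrarily close to the poles `± north` such that `Y` and `Y'` are not positive multiples
of values of `P (p, ·)` at two points of the sphere on a common meridian, etc.

PROOF. Let `P̂ (p, v) = nr v • P (p, nrm v)` for `v ≠ 0`; it is `C¹` on the open set `v ≠ 0`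
(`nr` is smooth away from `0`).  For `α ∈ ℝ`, `w ∈ ℝ^(m+1)` let `[α, w] = Fin.cons α w`.
Consider the three maps
`Ξ₁ (p, w, α, α', λ) = (P̂ (p, [α, w]), λ • P̂ (p, [α', w]))` on the open set
`{[α,w] ≠ 0, [α',w] ≠ 0}` of a space of dimension `a + (m+1) + 3 = a + m + 4`;
`Ξ₂ (p, μ, Z) = (μ • P (p, -north), Z)`, dimension `a + 1 + (m+2)`;
`Ξ₃ (p, μ, Z) = (Z, μ • P (p, north))`, dimension `a + m + 3`;
all with values in `ℝ^(m+2) × ℝ^(m+2)`, of dimension `2m + 4 > a + m + 4`.  They are `C¹`, hence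
locally Lipschitz on open sets, so their images have Hausdorff dimension `< 2m + 4`
(`dimH_image_le_of_locally_lipschitzOn`, `dimH` of a set in a space of dimension `d` is `≤ d`:
`Real.dimH_of_mem_nhds` / `Real.dimH_univ_eq_finrank`, `dimH_mono`), so does the union of the
three (`dimH_union`), and its complement is dense (`dense_compl_of_dimH_lt_finrank`).
Choose `(Y, Y')` in the complement close to `(north, -north)`.
If `μ • P (p, susp (t, ℓ)) = Y` and `μ' • P (p, susp (t', ℓ)) = Y'` with `μ, μ' > 0`: with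
`α = μ cos πt`, `w = μ sin πt • ℓ` we have `[α, w] = μ • susp (t, ℓ)`, `P̂ (p, [α, w]) = Y`.
If `sin πt > 0` and `sin πt' > 0`: choose `s > 0` with `s sin πt' = μ sin πt`, `α' = s cos πt'`:
`[α', w] = s • susp (t', ℓ)`, `P̂ (p,[α',w]) = s • P (p, susp(t',ℓ)) = (s/μ') • Y'`, so
`(Y, Y') = Ξ₁ (p, w, α, α', μ'/s)`: contradiction.
If `sin πt = 0` and `sin πt' = 0`: `w = 0`, `α' = cos πt' = ±1`, same conclusion.
If `sin πt = 0`, `sin πt' > 0` (the first point is a pole, the second is not), use the symmetric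
map `Ξ₁' (p, w, α, α', λ) = (λ • P̂ (p, [α, w]), P̂ (p, [α', w]))`, with `w = 0`?  Not allowed, since
`w` must be the same: so add two more maps: first point a pole:
`Ξ₄^± (p, μ, w, α') = (μ • P (p, ± north), P̂ (p, [α', w]))`, dimension
`a + 1 + (m+1) + 1 = a + m + 3`, and the symmetric ones
`Ξ₅^± (p, μ, w, α) = (P̂ (p, [α, w]), μ • P (p, ± north))`.  They cover all the cases in which one
of the two points is a pole (a pole is `± north = susp (0 or 1, ℓ)` for every `ℓ`).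
-/

open Matrix Set unitInterval Topology

noncomputable section

namespace DT

/-- the image of a set under a map which is `C¹` at its points has dimension at most the dimension
of the source -/
theorem Gen0_dimH {E F : Type*} [NormedAddCommGroup E] [NormedSpace ℝ E] [FiniteDimensional ℝ E]
    [NormedAddCommGroup F] [NormedSpace ℝ F] (f : E → F) (U : Set E)
    (h : ∀ x ∈ U, ContDiffAt ℝ 1 f x) : dimH (f '' U) ≤ Module.finrank ℝ E := by
  have h1 : dimH (f '' U) ≤ dimH U := by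
    apply dimH_image_le_of_locally_lipschitzOn
    intro x hx
    obtain ⟨K, t, ht, hK⟩ := (h x hx).exists_lipschitzOnWith
    exact ⟨K, t, mem_nhdsWithin_of_mem_nhds ht, hK⟩
  calc dimH (f '' U) ≤ dimH U := h1
    _ ≤ dimH (univ : Set E) := dimH_mono (subset_univ _)
    _ = Module.finrank ℝ E := Real.dimH_univ_eq_finrank E

/-- the positively homogeneous extension -/
def Gen0_Ph {a k : ℕ} (P : (Fin a → ℝ) × (Fin k → ℝ) → (Fin k → ℝ))
    (q : (Fin a → ℝ) × (Fin k → ℝ)) : Fin k → ℝ := nr q.2 • P (q.1, nrm q.2)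

theorem Gen0_nr_contDiffAt {k : ℕ} {v : Fin k → ℝ} (hv : v ≠ 0) :
    ContDiffAt ℝ 1 (nr : (Fin k → ℝ) → ℝ) v := by
  have h1 : ContDiff ℝ 1 (fun v : Fin k → ℝ => v ⬝ᵥ v) := by
    unfold dotProduct
    fun_prop
  have h2 : v ⬝ᵥ v ≠ 0 := fun h => hv (dotProduct_self_eq_zero.1 h)
  exact h1.contDiffAt.sqrt h2

theorem Gen0_Ph_contDiffAt {a k : ℕ} {P : (Fin a → ℝ) × (Fin k → ℝ) → (Fin k → ℝ)}
    (hP : ContDiff ℝ 1 P) {q : (Fin a → ℝ) × (Fin k → ℝ)} (hq : q.2 ≠ 0) :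
    ContDiffAt ℝ 1 (Gen0_Ph P) q := by
  have h1 : ContDiffAt ℝ 1 (fun q : (Fin a → ℝ) × (Fin k → ℝ) => nr q.2) q :=
    (Gen0_nr_contDiffAt hq).comp q contDiffAt_snd
  have h2 : ContDiffAt ℝ 1 (fun q : (Fin a → ℝ) × (Fin k → ℝ) => nrm q.2) q := by
    unfold nrm
    exact (h1.inv (cone_nr_pos hq).ne').smul contDiffAt_snd
  exact h1.smul (hP.contDiffAt.comp q (contDiffAt_fst.prodMk h2))

theorem Gen0_Ph_smul {a k : ℕ} (P : (Fin a → ℝ) × (Fin k → ℝ) → (Fin k → ℝ)) (p : Fin a → ℝ)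
    {v : Fin k → ℝ} (hv : v ∈ US (Fin k)) {s : ℝ} (hs : 0 < s) :
    Gen0_Ph P (p, s • v) = s • P (p, v) := by
  have h1 : nr (s • v) = s := by
    rw [nr_smul, nr_eq_one hv, abs_of_pos hs, mul_one]
  have h2 : nrm (s • v) = v := by
    unfold nrm
    rw [h1, smul_smul, inv_mul_cancel₀ hs.ne', one_smul]
  unfold Gen0_Ph
  simp only
  rw [h1, h2]

theorem Gen0_cons_contDiff {m : ℕ} {E : Type*} [NormedAddCommGroup E] [NormedSpace ℝ E]
    {f : E → ℝ} {g : E → (Fin (m + 1) → ℝ)} (hf : ContDiff ℝ 1 f) (hg : ContDiff ℝ 1 g) :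
    ContDiff ℝ 1 (fun x => (Fin.cons (f x) (g x) : Fin (m + 2) → ℝ)) := by
  rw [contDiff_pi]
  intro i
  refine Fin.cases ?_ (fun j => ?_) i
  · simpa only [Fin.cons_zero] using hf
  · simp only [Fin.cons_succ]
    exact (contDiff_pi.1 hg) j

/-- the map `Ξ₁` -/
def Gen0_X1 {a m : ℕ} (P : (Fin a → ℝ) × (Fin (m + 2) → ℝ) → (Fin (m + 2) → ℝ))
    (x : (Fin a → ℝ) × (Fin (m + 1) → ℝ) × ℝ × ℝ × ℝ) :
    (Fin (m + 2) → ℝ) × (Fin (m + 2) → ℝ) :=
  (Gen0_Ph P (x.1, Fin.cons x.2.2.1 x.2.1), x.2.2.2.2 • Gen0_Ph P (x.1, Fin.cons x.2.2.2.1 x.2.1))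

theorem Gen0_cons_ne {m : ℕ} (α : ℝ) {w : Fin (m + 1) → ℝ} (hw : w ≠ 0) :
    (Fin.cons α w : Fin (m + 2) → ℝ) ≠ 0 := by
  intro h
  apply hw
  funext j
  have h1 := congrFun h j.succ
  rw [Fin.cons_succ] at h1
  exact h1

theorem Gen0_X1_contDiffAt {a m : ℕ} {P : (Fin a → ℝ) × (Fin (m + 2) → ℝ) → (Fin (m + 2) → ℝ)}
    (hP : ContDiff ℝ 1 P) (x : (Fin a → ℝ) × (Fin (m + 1) → ℝ) × ℝ × ℝ × ℝ) (hx : x.2.1 ≠ 0) :
    ContDiffAt ℝ 1 (Gen0_X1 P) x := by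
  have h1 : ContDiff ℝ 1 (fun x : (Fin a → ℝ) × (Fin (m + 1) → ℝ) × ℝ × ℝ × ℝ =>
      (x.1, (Fin.cons x.2.2.1 x.2.1 : Fin (m + 2) → ℝ))) :=
    contDiff_fst.prodMk (Gen0_cons_contDiff (by fun_prop) (by fun_prop))
  have h2 : ContDiff ℝ 1 (fun x : (Fin a → ℝ) × (Fin (m + 1) → ℝ) × ℝ × ℝ × ℝ =>
      (x.1, (Fin.cons x.2.2.2.1 x.2.1 : Fin (m + 2) → ℝ))) :=
    contDiff_fst.prodMk (Gen0_cons_contDiff (by fun_prop) (by fun_prop))
  have h3 := (Gen0_Ph_contDiffAt hP (q := (x.1, (Fin.cons x.2.2.1 x.2.1 : Fin (m + 2) → ℝ)))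
    (Gen0_cons_ne _ hx)).comp x h1.contDiffAt
  have h4 := (Gen0_Ph_contDiffAt hP (q := (x.1, (Fin.cons x.2.2.2.1 x.2.1 : Fin (m + 2) → ℝ)))
    (Gen0_cons_ne _ hx)).comp x h2.contDiffAt
  have h5 : ContDiff ℝ 1 (fun x : (Fin a → ℝ) × (Fin (m + 1) → ℝ) × ℝ × ℝ × ℝ => x.2.2.2.2) := by
    fun_prop
  exact h3.prodMk (h5.contDiffAt.smul h4)

/-- the maps `Ξ₂`, `Ξ₃` -/
def Gen0_X2 {a m : ℕ} (P : (Fin a → ℝ) × (Fin (m + 2) → ℝ) → (Fin (m + 2) → ℝ))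
    (v : Fin (m + 2) → ℝ) (x : (Fin a → ℝ) × ℝ × (Fin (m + 2) → ℝ)) :
    (Fin (m + 2) → ℝ) × (Fin (m + 2) → ℝ) := (x.2.1 • P (x.1, v), x.2.2)

def Gen0_X3 {a m : ℕ} (P : (Fin a → ℝ) × (Fin (m + 2) → ℝ) → (Fin (m + 2) → ℝ))
    (v : Fin (m + 2) → ℝ) (x : (Fin a → ℝ) × ℝ × (Fin (m + 2) → ℝ)) :
    (Fin (m + 2) → ℝ) × (Fin (m + 2) → ℝ) := (x.2.2, x.2.1 • P (x.1, v))

theorem Gen0_P_contDiff {a m : ℕ} {P : (Fin a → ℝ) × (Fin (m + 2) → ℝ) → (Fin (m + 2) → ℝ)}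
    (hP : ContDiff ℝ 1 P) (v : Fin (m + 2) → ℝ) :
    ContDiff ℝ 1 (fun x : (Fin a → ℝ) × ℝ × (Fin (m + 2) → ℝ) => x.2.1 • P (x.1, v)) := by
  have h1 : ContDiff ℝ 1 (fun x : (Fin a → ℝ) × ℝ × (Fin (m + 2) → ℝ) => P (x.1, v)) :=
    hP.comp (contDiff_fst.prodMk contDiff_const)
  have h2 : ContDiff ℝ 1 (fun x : (Fin a → ℝ) × ℝ × (Fin (m + 2) → ℝ) => x.2.1) := by fun_prop
  exact h2.smul h1

theorem Gen0_X2_contDiff {a m : ℕ} {P : (Fin a → ℝ) × (Fin (m + 2) → ℝ) → (Fin (m + 2) → ℝ)}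
    (hP : ContDiff ℝ 1 P) (v : Fin (m + 2) → ℝ) : ContDiff ℝ 1 (Gen0_X2 P v) :=
  (Gen0_P_contDiff hP v).prodMk (by fun_prop)

theorem Gen0_X3_contDiff {a m : ℕ} {P : (Fin a → ℝ) × (Fin (m + 2) → ℝ) → (Fin (m + 2) → ℝ)}
    (hP : ContDiff ℝ 1 P) (v : Fin (m + 2) → ℝ) : ContDiff ℝ 1 (Gen0_X3 P v) :=
  ContDiff.prodMk (by fun_prop) (Gen0_P_contDiff hP v)

theorem Gen0_susp_pole {m : ℕ} (t : I) (l : Sp m) (h : Real.sin (Real.pi * (t : ℝ)) = 0) :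
    (susp (t, l)).1 = north (m + 1) ∨ (susp (t, l)).1 = -north (m + 1) := by
  have h1 : Real.cos (Real.pi * (t : ℝ)) ^ 2 = 1 := by
    have h2 := Real.sin_sq_add_cos_sq (Real.pi * (t : ℝ))
    rw [h] at h2
    linarith
  rcases (sq_eq_sq_iff_eq_or_eq_neg.1 (h1.trans (one_pow 2).symm)) with h2 | h2
  · left
    change sv (t : ℝ) l.1 = _
    unfold sv north
    rw [h, h2, zero_smul]
  · right
    change sv (t : ℝ) l.1 = _
    unfold sv north
    rw [h, h2, zero_smul]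
    funext i
    refine Fin.cases ?_ (fun j => ?_) i <;> simp

theorem generic_pair (a m : ℕ) (ham : a < m)
    (P : (Fin a → ℝ) × (Fin (m + 2) → ℝ) → (Fin (m + 2) → ℝ)) (hP : ContDiff ℝ 1 P)
    (η : ℝ) (hη : 0 < η) :
    ∃ Y Y' : Fin (m + 2) → ℝ, nr (Y - north (m + 1)) < η ∧ nr (Y' + north (m + 1)) < η ∧
      (∀ (p : Fin a → ℝ) (l : Sp m) (t t' : I) (μ μ' : ℝ), 0 < μ → 0 < μ' →
        ¬ (μ • P (p, (susp (t, l)).1) = Y ∧ μ' • P (p, (susp (t', l)).1) = Y')) ∧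
      (∀ (p : Fin a → ℝ) (μ : ℝ), 0 < μ → μ • P (p, -north (m + 1)) ≠ Y) ∧
      (∀ (p : Fin a → ℝ) (μ : ℝ), 0 < μ → μ • P (p, north (m + 1)) ≠ Y') := by
  set S : Set ((Fin (m + 2) → ℝ) × (Fin (m + 2) → ℝ)) :=
    (Gen0_X1 P '' {x | x.2.1 ≠ 0}) ∪
      ((range (Gen0_X2 P (north (m + 1))) ∪ range (Gen0_X2 P (-north (m + 1)))) ∪
        (range (Gen0_X3 P (north (m + 1))) ∪ range (Gen0_X3 P (-north (m + 1))))) with hS
  have hfin : Module.finrank ℝ ((Fin (m + 2) → ℝ) × (Fin (m + 2) → ℝ)) = 2 * m + 4 := by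
    simp only [Module.finrank_prod, Module.finrank_fin_fun]
    ring
  have hd1 : dimH (Gen0_X1 P '' {x | x.2.1 ≠ 0}) < ((2 * m + 4 : ℕ) : ENNReal) := by
    refine lt_of_le_of_lt (Gen0_dimH _ _ (fun x hx => Gen0_X1_contDiffAt hP x hx)) ?_
    simp only [Module.finrank_prod, Module.finrank_fin_fun, Module.finrank_self]
    exact_mod_cast (by omega : a + (m + 1 + (1 + (1 + 1))) < 2 * m + 4)
  have hd2 : ∀ v, dimH (range (Gen0_X2 P v)) < ((2 * m + 4 : ℕ) : ENNReal) := by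
    intro v
    refine lt_of_le_of_lt (Gen0_X2_contDiff hP v).dimH_range_le ?_
    simp only [Module.finrank_prod, Module.finrank_fin_fun, Module.finrank_self]
    exact_mod_cast (by omega : a + (1 + (m + 2)) < 2 * m + 4)
  have hd3 : ∀ v, dimH (range (Gen0_X3 P v)) < ((2 * m + 4 : ℕ) : ENNReal) := by
    intro v
    refine lt_of_le_of_lt (Gen0_X3_contDiff hP v).dimH_range_le ?_
    simp only [Module.finrank_prod, Module.finrank_fin_fun, Module.finrank_self]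
    exact_mod_cast (by omega : a + (1 + (m + 2)) < 2 * m + 4)
  have hdS : dimH S < (Module.finrank ℝ ((Fin (m + 2) → ℝ) × (Fin (m + 2) → ℝ)) : ENNReal) := by
    rw [hfin, hS]
    simp only [dimH_union, max_lt_iff]
    exact ⟨hd1, ⟨hd2 _, hd2 _⟩, hd3 _, hd3 _⟩
  have hdense := dense_compl_of_dimH_lt_finrank hdS
  have hopen : IsOpen {q : (Fin (m + 2) → ℝ) × (Fin (m + 2) → ℝ) |
      nr (q.1 - north (m + 1)) < η ∧ nr (q.2 + north (m + 1)) < η} := by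
    apply IsOpen.inter
    · exact isOpen_lt (continuous_nr.comp (by fun_prop)) continuous_const
    · exact isOpen_lt (continuous_nr.comp (by fun_prop)) continuous_const
  obtain ⟨⟨Y, Y'⟩, hYS, hY⟩ := hdense.exists_mem_open hopen
    ⟨(north (m + 1), -north (m + 1)), by simp [cone_nr_zero, hη]⟩
  have hYS' : (Y, Y') ∉ S := hYS
  rw [hS] at hYS'
  simp only [mem_union, not_or] at hYS'
  obtain ⟨hn1, ⟨hn2, hn2'⟩, hn3, hn3'⟩ := hYS'
  have hp1 : ∀ (p : Fin a → ℝ) (μ : ℝ), μ • P (p, north (m + 1)) ≠ Y := by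
    intro p μ h
    exact hn2 ⟨(p, μ, Y'), by simp [Gen0_X2, h]⟩
  have hp2 : ∀ (p : Fin a → ℝ) (μ : ℝ), μ • P (p, -north (m + 1)) ≠ Y := by
    intro p μ h
    exact hn2' ⟨(p, μ, Y'), by simp [Gen0_X2, h]⟩
  have hp3 : ∀ (p : Fin a → ℝ) (μ : ℝ), μ • P (p, north (m + 1)) ≠ Y' := by
    intro p μ h
    exact hn3 ⟨(p, μ, Y), by simp [Gen0_X3, h]⟩
  have hp4 : ∀ (p : Fin a → ℝ) (μ : ℝ), μ • P (p, -north (m + 1)) ≠ Y' := by
    intro p μ h
    exact hn3' ⟨(p, μ, Y), by simp [Gen0_X3, h]⟩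
  refine ⟨Y, Y', hY.1, hY.2, ?_, fun p μ _ => hp2 p μ, fun p μ _ => hp3 p μ⟩
  rintro p l t t' μ μ' hμ hμ' ⟨h1, h2⟩
  have hnn : ∀ t : I, 0 ≤ Real.sin (Real.pi * (t : ℝ)) := by
    intro t
    apply Real.sin_nonneg_of_nonneg_of_le_pi
    · exact mul_nonneg Real.pi_pos.le t.2.1
    · exact mul_le_of_le_one_right Real.pi_pos.le t.2.2
  rcases (hnn t).eq_or_lt with h0 | hs
  · rcases Gen0_susp_pole t l h0.symm with h | h
    · rw [h] at h1
      exact hp1 p μ h1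
    · rw [h] at h1
      exact hp2 p μ h1
  rcases (hnn t').eq_or_lt with h0 | hs'
  · rcases Gen0_susp_pole t' l h0.symm with h | h
    · rw [h] at h2
      exact hp3 p μ' h2
    · rw [h] at h2
      exact hp4 p μ' h2
  -- the generic case
  set c := Real.cos (Real.pi * (t : ℝ)) with hc
  set s := Real.sin (Real.pi * (t : ℝ)) with hsd
  set c' := Real.cos (Real.pi * (t' : ℝ)) with hc'
  set s' := Real.sin (Real.pi * (t' : ℝ)) with hsd'
  set r := μ * s / s' with hr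
  have hr0 : 0 < r := div_pos (mul_pos hμ hs) hs'
  have hrs : r * s' = μ * s := by
    rw [hr]
    field_simp
  have e1 : (Fin.cons (μ * c) ((μ * s) • l.1) : Fin (m + 2) → ℝ) = μ • (susp (t, l)).1 := by
    change _ = μ • sv (t : ℝ) l.1
    unfold sv
    funext i
    refine Fin.cases ?_ (fun j => ?_) i
    · simp [hc]
    · simp [hsd, mul_assoc]
  have e2 : (Fin.cons (r * c') ((μ * s) • l.1) : Fin (m + 2) → ℝ) = r • (susp (t', l)).1 := by
    change _ = r • sv (t' : ℝ) l.1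
    unfold sv
    rw [← hrs]
    funext i
    refine Fin.cases ?_ (fun j => ?_) i
    · simp [hc']
    · simp [hsd', mul_assoc]
  apply hn1
  refine ⟨(p, (μ * s) • l.1, μ * c, r * c', μ' / r), ?_, ?_⟩
  · intro h
    have h3 : l.1 ⬝ᵥ l.1 = 1 := l.2
    rcases smul_eq_zero.1 h with h4 | h4
    · exact (mul_pos hμ hs).ne' h4
    · rw [h4] at h3
      simp at h3
  · unfold Gen0_X1
    simp only
    rw [e1, e2, Gen0_Ph_smul P p (susp (t, l)).2 hμ, Gen0_Ph_smul P p (susp (t', l)).2 hr0, h1,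
      smul_smul, div_mul_cancel₀ _ hr0.ne', h2]

end DT
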