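import Pool.Agent.H78.DT.T2
import Pool.Agent.H78.DT.Case0
import Pool.Agent.H78.DT.ClProd
import Pool.Agent.H78.DT.StHB
import Pool.Agent.H78.DT.DesOn
import Pool.Agent.H78.DT.DesLast
import Pool.Agent.H78.DT.Comm

/-!
# `f² ~ 1` for maps `Sⁿ → SO(n+1)`, `n` even (job DT-SQEVEN)

`sq_of_stable`: if `StH f g` where `f, g : Sp n → SO(n+1)`, `n ≥ 2` even, and `g² ~ 1`,
then `f² ~ 1`.  PROOF. By `StH.unstable` there is `r` with `f ⊕ 1 ~ g ⊕ 1` over
`Fin (n+1) ⊕ Fin r`.  Multiply by `stb (gᵀ)` on the right: `stb (f gᵀ) ~ stb (g gᵀ) = 1`.  By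
`destab`, `stb Unit (f gᵀ) ~ 1`; by `des_last_sq`, `p = f gᵀ` satisfies `p² ~ 1`.
`f = p g` and `f² = p (g p) g ~ p (p g) g = p² g² ~ 1` by `hin_comm` (`n = k + 1`;
`HIn.map₂`/`HIn.map` for the products).
`sq_even`: PROOF. By `T2`, `StH f (clJ J)`.
Case `n % 4 = 2`: by `case2` and `StH.of_hin`, `StH.trans`: `StH f (fun _ => (1 : Matrix (Fin p) _))`;
and `StH (fun _ => 1) (fun _ => (1 : Matrix (Fin (n+1)) _))` for the constant maps `1` of any
two index types (direct: `α = Fin (n+1)`, `β = Fin p`, `Q` the permutation matrix of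
`Fin p ⊕ Fin (n+1) ≃ Fin (n+1) ⊕ Fin p`; everything is `1`).  Use `sq_of_stable` with `g = 1`.
Case `n % 4 = 0`: `n = k + 1`; by `case0` there is `g : Sp n → SO(Fin n)` with `g² ~ 1` and
`StH (clJ J) g`.  Let `g' = ` `stb Unit g` reindexed by `Fin n ⊕ Unit ≃ Fin (n+1)`: `StH g g'`
(`StH.stb_right`, `StH.conj` with the permutation matrix), `g'² ~ 1`.  Use `sq_of_stable`.
-/

open Matrix Set unitInterval Topology

noncomputable section

namespace DT

theorem sq_of_stable (n : ℕ) (he : n % 2 = 0) (h2 : 2 ≤ n)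
    (f g : Sp n → Matrix (Fin (n + 1)) (Fin (n + 1)) ℝ) (hf : Continuous f)
    (hS : ∀ x, f x ∈ SOs (Fin (n + 1))) (hg : Continuous g) (hgS : ∀ x, g x ∈ SOs (Fin (n + 1)))
    (h : StH f g) (hg2 : HIn (SOs (Fin (n + 1))) (fun x => g x * g x) (fun _ => 1)) :
    HIn (SOs (Fin (n + 1))) (fun x => f x * f x) (fun _ => 1) := by
  obtain ⟨k, rfl⟩ : ∃ k, n = k + 1 := ⟨n - 1, by omega⟩
  obtain ⟨r, hr⟩ := h.unstable
  have h1 := hr r le_rfl
  have hgt : Continuous fun x => (g x)ᵀ := hg.matrix_transpose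
  have hgtS : ∀ x, (g x)ᵀ ∈ SOs (Fin (k + 1 + 1)) := fun x => so_transpose (hgS x)
  have h2' : HIn (SOs (Fin (k + 1 + 1) ⊕ Fin r)) (fun x => stb (Fin r) (f x * (g x)ᵀ))
      (fun _ => 1) := by
    have h3 := comm_mul h1 (HIn.refl (X := Sp (k + 1)) (A := SOs (Fin (k + 1 + 1) ⊕ Fin r))
      (f := fun x => stb (Fin r) (g x)ᵀ) (StHB_cont_stb.comp hgt) fun x => stb_mem (hgtS x))
    have e1 : (fun x => stb (Fin r) (f x) * stb (Fin r) (g x)ᵀ) =
        fun x => stb (Fin r) (f x * (g x)ᵀ) := by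
      funext x
      rw [StHB_stb_mul]
    have e2 : (fun x => stb (Fin r) (g x) * stb (Fin r) (g x)ᵀ) =
        fun _ => (1 : Matrix (Fin (k + 1 + 1) ⊕ Fin r) (Fin (k + 1 + 1) ⊕ Fin r) ℝ) := by
      funext x
      rw [StHB_stb_mul, mul_eq_one_comm.1 (hgS x).1]
      exact fromBlocks_one
    rw [e1, e2] at h3
    exact h3
  have h3 := des_last_sq (k + 1) (by omega) he _ (destab (k + 1) r _ h2')
  have hpS : ∀ x, f x * (g x)ᵀ ∈ SOs (Fin (k + 1 + 1)) := fun x => so_mul (hS x) (hgtS x)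
  have hpc : Continuous fun x => f x * (g x)ᵀ := hf.matrix_mul hgt
  have h4 := hin_comm k g (fun x => f x * (g x)ᵀ) hg hpc hgS hpS
  have h5 := comm_mul (comm_mul (HIn.refl hpc hpS) h4) (HIn.refl hg hgS)
  have h6 := comm_mul h3 hg2
  have e1 : (fun x => f x * (g x)ᵀ * (g x * (f x * (g x)ᵀ)) * g x) = fun x => f x * f x := by
    funext x
    have e : f x * (g x)ᵀ * (g x * (f x * (g x)ᵀ)) * g x =
        f x * ((g x)ᵀ * g x) * (f x * ((g x)ᵀ * g x)) := by
      simp only [Matrix.mul_assoc]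
    rw [e, (hgS x).1, Matrix.mul_one]
  have e2 : (fun x => f x * (g x)ᵀ * (f x * (g x)ᵀ * g x) * g x) =
      fun x => f x * (g x)ᵀ * (f x * (g x)ᵀ) * (g x * g x) := by
    funext x
    simp only [Matrix.mul_assoc]
  rw [e1, e2] at h5
  have h7 := h5.trans h6
  simpa only [Matrix.one_mul] using h7

theorem sqEven_one (n p q : ℕ) :
    StH (fun _ : Sp n => (1 : Matrix (Fin p) (Fin p) ℝ))
      (fun _ : Sp n => (1 : Matrix (Fin q) (Fin q) ℝ)) := by
  obtain ⟨Q, hQ1, hQ2⟩ := case0_perm (ι := Fin p ⊕ Fin q) (κ := Fin q ⊕ Fin p) (by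
    simp only [Fintype.card_sum, Fintype.card_fin]
    omega)
  refine ⟨Fin q, Fin p, inferInstance, inferInstance, inferInstance, inferInstance, Q, hQ1, hQ2,
    ?_⟩
  have e1 : (fun _ : Sp n => Q * stb (Fin q) (1 : Matrix (Fin p) (Fin p) ℝ) * Qᵀ) =
      fun _ => (1 : Matrix (Fin q ⊕ Fin p) (Fin q ⊕ Fin p) ℝ) := by
    funext x
    have : stb (Fin q) (1 : Matrix (Fin p) (Fin p) ℝ) = 1 := fromBlocks_one
    rw [this, Matrix.mul_one, hQ1]
  have e2 : (fun _ : Sp n => stb (Fin p) (1 : Matrix (Fin q) (Fin q) ℝ)) =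
      fun _ => (1 : Matrix (Fin q ⊕ Fin p) (Fin q ⊕ Fin p) ℝ) := by
    funext x
    exact fromBlocks_one
  rw [e1, e2]
  exact HIn.refl continuous_const fun _ => ⟨by simp, by simp⟩

theorem sq_even (n : ℕ) (he : n % 2 = 0) (h2 : 2 ≤ n)
    (f : Sp n → Matrix (Fin (n + 1)) (Fin (n + 1)) ℝ) (hf : Continuous f)
    (hS : ∀ x, f x ∈ SOs (Fin (n + 1))) :
    HIn (SOs (Fin (n + 1))) (fun x => f x * f x) (fun _ => 1) := by
  obtain ⟨p, J, hJ, hst⟩ := T2 n (n + 1) f hf hS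
  rcases (by omega : n % 4 = 2 ∨ n % 4 = 0) with h4 | h4
  · have h1 := (hst.trans (StH.of_hin (case2 n h4 J hJ))).trans (sqEven_one n p (n + 1))
    refine sq_of_stable n he h2 f (fun _ => 1) hf hS continuous_const
      (fun _ => ⟨by simp, by simp⟩) h1 ?_
    have e : (fun _ : Sp n => (1 : Matrix (Fin (n + 1)) (Fin (n + 1)) ℝ) * 1) = fun _ => 1 := by
      funext x
      exact Matrix.mul_one _
    rw [e]
    exact HIn.refl continuous_const fun _ => ⟨by simp, by simp⟩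
  · obtain ⟨k, rfl⟩ : ∃ k, n = k + 1 := ⟨n - 1, by omega⟩
    obtain ⟨g, hg, hgS, hg2, hgst⟩ := case0 k h4 J hJ
    obtain ⟨P, hP1, hP2⟩ := case0_perm (ι := Fin (k + 1) ⊕ Unit) (κ := Fin (k + 1 + 1)) (by
      simp only [Fintype.card_sum, Fintype.card_fin, Fintype.card_unit])
    have hsc : Continuous fun x => stb Unit (g x) := StHB_cont_stb.comp hg
    have hcj : Continuous fun x => P * stb Unit (g x) * Pᵀ := (StHB_cont_cj P).comp hsc
    have hcjS : ∀ x, P * stb Unit (g x) * Pᵀ ∈ SOs (Fin (k + 1 + 1)) := fun x =>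
      StHB_cj_mem hP1 hP2 (stb_mem (hgS x))
    have h1 := (hst.trans hgst).trans ((StH.stb_right hg hgS Unit).trans
      (StH.conj hsc (fun x => stb_mem (hgS x)) P hP1 hP2))
    refine sq_of_stable (k + 1) he h2 f (fun x => P * stb Unit (g x) * Pᵀ) hf hS hcj hcjS h1 ?_
    have h3 := hg2.map' (fun M => P * stb Unit M * Pᵀ) ((StHB_cont_cj P).comp StHB_cont_stb)
      (B := SOs (Fin (k + 1 + 1))) (fun M hM => StHB_cj_mem hP1 hP2 (stb_mem hM))
    have e1 : (fun x => P * stb Unit (g x * g x) * Pᵀ) =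
        fun x => P * stb Unit (g x) * Pᵀ * (P * stb Unit (g x) * Pᵀ) := by
      funext x
      have e : P * stb Unit (g x) * Pᵀ * (P * stb Unit (g x) * Pᵀ) =
          P * (stb Unit (g x) * (Pᵀ * P) * stb Unit (g x)) * Pᵀ := by
        simp only [Matrix.mul_assoc]
      rw [e, hP2, Matrix.mul_one, StHB_stb_mul]
    have e2 : (fun _ : Sp (k + 1) => P * stb Unit (1 : Matrix (Fin (k + 1)) (Fin (k + 1)) ℝ) * Pᵀ) =
        fun _ => 1 := by
      funext x
      have : stb Unit (1 : Matrix (Fin (k + 1)) (Fin (k + 1)) ℝ) = 1 := fromBlocks_one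
      rw [this, Matrix.mul_one, hP1]
    rw [e1, e2] at h3
    exact h3

end DT
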