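import Mathlib

/-!
# The integral of the Jacobian depends only on the boundary values (job DT-NULLLAG)

Let `F₀, F₁ : ℝᴺ → ℝᴺ` be smooth, equal for `‖x‖ ≥ R`.  Then
`∫_{‖x‖ ≤ R'} det DF₁ = ∫_{‖x‖ ≤ R'} det DF₀` for `R' > R`.
PROOF. (a) Multiply both by a smooth cut-off `χ` which is `1` on the ball of radius `R' + 1` and has
compact support: this does not change the determinants on the ball of radius `R'`
(the derivative is local), and `χ F₁ = χ F₀` for `‖x‖ ≥ R`.  So we may assume that `F₀, F₁` have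
compact support; then they are Lipschitz with some constant `L` (bounded derivative).
(b) Let `Λ > L` (`Λ > L` large).  `φ_i (x) = Λ x + F_i x` is a bijection of `ℝᴺ`
(`ApproximatesLinearOn.toHomeomorph`, or: the equation `x = (y - F x)/Λ` has a unique solution by
the contraction principle), its derivative is `Λ + DF_i (x)`, and `φ_0 = φ_1` outside
`B = closedBall 0 R'`.  So `φ_0 (Bᶜ) = φ_1 (Bᶜ)`, `φ_0 (B) = φ_1 (B)`.  Change of variables
(`MeasureTheory.integral_image_eq_integral_abs_det_fderiv_smul` or the `lintegral` version with the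
constant function `1`, injective on `B`): `∫_B |det (Λ + DF_0)| = vol φ_0(B) = ∫_B |det (Λ + DF_1)|`.
(c) `det (Λ + DF_i (x)) > 0` for `Λ > L`: `Λ' + DF_i (x)` is injective for all `Λ' ≥ Λ` (`‖DF_i‖ ≤ L`), so
the determinant does not vanish on `[Λ, ∞)`, and it is positive for large `Λ'` (e.g.
`det (Λ' + A) = Λ'ᴺ det (1 + A/Λ')`).
(d) `det (Λ + DF_i (x)) = ∑_{j ≤ N} Λ^j c_{i,j} (x)` with `c_{i,j}` continuous (coefficients of the characteristic
polynomial of `-DF_i (x)`, `c_{i,0} = det DF_i (x)`); so `∫_B det (Λ + DF_i) = ∑ Λ^j ∫_B c_{i,j}` is a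
polynomial in `Λ`.  The two polynomials agree for all large `Λ`, so they are equal
(`Polynomial.eq_of_infinite_eval_eq`), and their values at `Λ = 0` are the two integrals.
(To avoid characteristic polynomials: any function `Λ ↦ det (Λ + A)` is a polynomial in `Λ` with
coefficients depending continuously on `A`: `Matrix.det` expansion.)
-/

open MeasureTheory Set Metric
open scoped ContDiff

noncomputable section

namespace DT

theorem nullLag_eval (N : ℕ) (A : (Fin N → ℝ) →L[ℝ] (Fin N → ℝ)) (t : ℝ) :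
    (t • ContinuousLinearMap.id ℝ (Fin N → ℝ) + A).det =
      (-(LinearMap.toMatrix' (A : (Fin N → ℝ) →ₗ[ℝ] (Fin N → ℝ)))).charpoly.eval t := by
  rw [Matrix.eval_charpoly, ContinuousLinearMap.det, ← LinearMap.det_toMatrix']
  congr 1
  simp only [ContinuousLinearMap.toLinearMap_add, ContinuousLinearMap.toLinearMap_smul, map_add,
    ContinuousLinearMap.coe_id, map_smul, LinearMap.toMatrix'_id, sub_neg_eq_add,
    Matrix.scalar_apply, Matrix.smul_one_eq_diagonal]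

theorem nullLag_interp (N : ℕ) (M : ℝ) : ∃ w : ℕ → ℝ, ∀ A : (Fin N → ℝ) →L[ℝ] (Fin N → ℝ),
    A.det = ∑ k ∈ Finset.range (N + 1),
      w k * ((M + k) • ContinuousLinearMap.id ℝ (Fin N → ℝ) + A).det := by
  refine ⟨fun k => (Lagrange.basis (Finset.range (N + 1)) (fun k : ℕ => M + (k : ℝ)) k).eval 0, ?_⟩
  intro A
  have h := nullLag_eval N A
  have hinj : Set.InjOn (fun k : ℕ => M + (k : ℝ)) (Finset.range (N + 1) : Set ℕ) := by
    intro a _ b _ hab
    have : (a : ℝ) = b := by simpa using hab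
    exact_mod_cast this
  have hdeg : (-(LinearMap.toMatrix' (A : (Fin N → ℝ) →ₗ[ℝ] (Fin N → ℝ)))).charpoly.degree <
      (Finset.range (N + 1)).card := by
    rw [Matrix.charpoly_degree_eq_dim, Fintype.card_fin, Finset.card_range]
    exact_mod_cast Nat.lt_succ_self N
  have h2 := Lagrange.eq_interpolate hinj hdeg
  have h0 := h 0
  rw [zero_smul, zero_add] at h0
  rw [h0, h2, Lagrange.interpolate_apply, Polynomial.eval_finsetSum]
  refine Finset.sum_congr rfl fun k _ => ?_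
  rw [Polynomial.eval_mul, Polynomial.eval_C, h (M + k), mul_comm]

theorem nullLag_inj (N : ℕ) (A : (Fin N → ℝ) →L[ℝ] (Fin N → ℝ)) (L Λ : ℝ)
    (hA : ‖A‖ ≤ L) (hL : L < Λ) :
    (Λ • ContinuousLinearMap.id ℝ (Fin N → ℝ) + A).det ≠ 0 := by
  intro h
  have h1 := LinearMap.bot_lt_ker_of_det_eq_zero h
  rw [bot_lt_iff_ne_bot, Submodule.ne_bot_iff] at h1
  obtain ⟨v, hv, hv0⟩ := h1
  rw [LinearMap.mem_ker] at hv
  have h2 : Λ • v + A v = 0 := by simpa using hv
  have h3 : Λ • v = -(A v) := eq_neg_of_add_eq_zero_left h2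
  have h4 : ‖Λ • v‖ = ‖A v‖ := by rw [h3, norm_neg]
  have hΛ : 0 < Λ := lt_of_le_of_lt ((norm_nonneg A).trans hA) hL
  rw [norm_smul, Real.norm_of_nonneg hΛ.le] at h4
  have h5 : ‖A v‖ ≤ L * ‖v‖ := (A.le_opNorm v).trans (by gcongr)
  have h6 : 0 < ‖v‖ := norm_pos_iff.2 hv0
  nlinarith

theorem nullLag_pos (N : ℕ) (A : (Fin N → ℝ) →L[ℝ] (Fin N → ℝ)) (L Λ : ℝ)
    (hA : ‖A‖ ≤ L) (hL : L < Λ) :
    0 < (Λ • ContinuousLinearMap.id ℝ (Fin N → ℝ) + A).det := by
  have hL0 : 0 ≤ L := (norm_nonneg A).trans hA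
  have hΛ : 0 < Λ := lt_of_le_of_lt hL0 hL
  have hc : Continuous fun s : ℝ =>
      (Λ • ContinuousLinearMap.id ℝ (Fin N → ℝ) + s • A).det := by
    have h1 : Continuous fun s : ℝ => (Λ • ContinuousLinearMap.id ℝ (Fin N → ℝ) + s • A) := by
      fun_prop
    exact ContinuousLinearMap.continuous_det.comp h1
  by_contra hneg
  rw [not_lt] at hneg
  have hz : 0 < (Λ • ContinuousLinearMap.id ℝ (Fin N → ℝ) + (0 : ℝ) • A).det := by
    have h0 : (Λ • ContinuousLinearMap.id ℝ (Fin N → ℝ) + (0 : ℝ) • A).det = Λ ^ N := by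
      rw [zero_smul, add_zero, ContinuousLinearMap.det, ContinuousLinearMap.toLinearMap_smul,
        ContinuousLinearMap.coe_id, LinearMap.det_smul]
      simp
    rw [h0]
    positivity
  have hiv := intermediate_value_Icc' (zero_le_one (α := ℝ)) hc.continuousOn
  have hmem : (0 : ℝ) ∈ Icc ((Λ • ContinuousLinearMap.id ℝ (Fin N → ℝ) + (1 : ℝ) • A).det)
      ((Λ • ContinuousLinearMap.id ℝ (Fin N → ℝ) + (0 : ℝ) • A).det) := by
    rw [one_smul]
    exact ⟨hneg, hz.le⟩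
  obtain ⟨s, hs, hs0⟩ := hiv hmem
  refine nullLag_inj N (s • A) L Λ ?_ hL hs0
  rw [norm_smul, Real.norm_of_nonneg hs.1]
  calc s * ‖A‖ ≤ 1 * ‖A‖ := by
        gcongr
        exact hs.2
    _ ≤ L := by rw [one_mul]; exact hA

theorem nullLag_bij (N : ℕ) (G : (Fin N → ℝ) → (Fin N → ℝ)) (L : NNReal) (Λ : ℝ)
    (hG : LipschitzWith L G) (hL : (L : ℝ) < Λ) :
    Function.Bijective fun x => Λ • x + G x := by
  have hΛ : 0 < Λ := lt_of_le_of_lt L.2 hL
  constructor
  · intro x y hxy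
    have hxy' : Λ • x + G x = Λ • y + G y := hxy
    have h1 : Λ • (x - y) = G y - G x := by
      rw [smul_sub]
      have : Λ • x = Λ • y + G y - G x := eq_sub_of_add_eq hxy'
      rw [this]; abel
    have h2 : Λ * ‖x - y‖ = ‖G y - G x‖ := by
      rw [← h1, norm_smul, Real.norm_of_nonneg hΛ.le]
    have h3 : ‖G y - G x‖ ≤ L * ‖x - y‖ := by
      have := hG.dist_le_mul y x
      rwa [dist_eq_norm, dist_eq_norm, norm_sub_rev y x] at this
    by_contra hne
    have h4 : 0 < ‖x - y‖ := norm_pos_iff.2 (sub_ne_zero.2 hne)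
    nlinarith
  · intro y
    have hlt : (L : ℝ) / Λ < 1 := (div_lt_one hΛ).2 hL
    have hnn : 0 ≤ (L : ℝ) / Λ := div_nonneg L.2 hΛ.le
    have hK : ContractingWith (⟨(L : ℝ) / Λ, hnn⟩ : NNReal) (fun x => Λ⁻¹ • (y - G x)) := by
      refine ⟨by exact_mod_cast hlt, ?_⟩
      refine LipschitzWith.of_dist_le_mul fun a b => ?_
      rw [dist_eq_norm, ← smul_sub, norm_smul, norm_inv, Real.norm_of_nonneg hΛ.le]
      have h3 := hG.dist_le_mul b a
      rw [dist_eq_norm, dist_comm] at h3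
      have h4 : y - G a - (y - G b) = G b - G a := by abel
      rw [h4]
      show Λ⁻¹ * ‖G b - G a‖ ≤ (L : ℝ) / Λ * dist a b
      rw [div_eq_mul_inv, mul_comm (L : ℝ), mul_assoc]
      gcongr
    have hfix := hK.fixedPoint_isFixedPt
    refine ⟨ContractingWith.fixedPoint _ hK, ?_⟩
    set z := ContractingWith.fixedPoint _ hK with hz
    have h5 : Λ⁻¹ • (y - G z) = z := hfix
    have h6 : Λ • z = y - G z := by
      conv_lhs => rw [← h5]
      rw [smul_smul, mul_inv_cancel₀ hΛ.ne', one_smul]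
    show Λ • z + G z = y
    rw [h6]; abel

theorem nullLag_cov (N : ℕ) (G : (Fin N → ℝ) → (Fin N → ℝ)) (L : NNReal) (Λ : ℝ)
    (hs : ContDiff ℝ ∞ G) (hG : LipschitzWith L G) (hL : (L : ℝ) < Λ) (B : Set (Fin N → ℝ))
    (hB : MeasurableSet B) :
    ∫ x in B, (Λ • ContinuousLinearMap.id ℝ (Fin N → ℝ) + fderiv ℝ G x).det =
      ∫ _ in (fun x => Λ • x + G x) '' B, (1 : ℝ) := by
  have hd : ∀ x ∈ B, HasFDerivWithinAt (fun x => Λ • x + G x)
      (Λ • ContinuousLinearMap.id ℝ (Fin N → ℝ) + fderiv ℝ G x) B x := by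
    intro x _
    have h1 : HasFDerivAt G (fderiv ℝ G x) x :=
      ((hs.differentiable (by simp)) x).hasFDerivAt
    have h2 : HasFDerivAt (fun x : Fin N → ℝ => Λ • x)
        (Λ • ContinuousLinearMap.id ℝ (Fin N → ℝ)) x := (hasFDerivAt_id x).const_smul Λ
    exact (h2.add h1).hasFDerivWithinAt
  rw [integral_image_eq_integral_abs_det_fderiv_smul volume hB hd
    (nullLag_bij N G L Λ hG hL).1.injOn]
  refine integral_congr_ae (Filter.Eventually.of_forall fun x => ?_)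
  simp only [smul_eq_mul, mul_one]
  rw [abs_of_pos (nullLag_pos N _ L Λ ?_ hL)]
  exact norm_fderiv_le_of_lipschitz ℝ hG

theorem nullLag_image (N : ℕ) (G₀ G₁ : (Fin N → ℝ) → (Fin N → ℝ)) (L₀ L₁ : NNReal) (Λ : ℝ)
    (h0 : LipschitzWith L₀ G₀) (h1 : LipschitzWith L₁ G₁) (hL0 : (L₀ : ℝ) < Λ)
    (hL1 : (L₁ : ℝ) < Λ) (B : Set (Fin N → ℝ)) (hB : ∀ x ∉ B, G₁ x = G₀ x) :
    (fun x => Λ • x + G₁ x) '' B = (fun x => Λ • x + G₀ x) '' B := by
  have b0 := nullLag_bij N G₀ L₀ Λ h0 hL0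
  have b1 := nullLag_bij N G₁ L₁ Λ h1 hL1
  have e : (fun x => Λ • x + G₁ x) '' Bᶜ = (fun x => Λ • x + G₀ x) '' Bᶜ := by
    refine Set.image_congr fun x hx => ?_
    rw [hB x hx]
  rw [Set.image_compl_eq b0, Set.image_compl_eq b1] at e
  exact compl_injective e

/-- the compactly supported case -/
theorem nullLag_cpt (N : ℕ) (G₀ G₁ : (Fin N → ℝ) → (Fin N → ℝ)) (h0 : ContDiff ℝ ∞ G₀)
    (h1 : ContDiff ℝ ∞ G₁) (c0 : HasCompactSupport G₀) (c1 : HasCompactSupport G₁)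
    (R' : ℝ) (hR : ∀ x ∉ closedBall (0 : Fin N → ℝ) R', G₁ x = G₀ x) :
    ∫ x in closedBall (0 : Fin N → ℝ) R', (fderiv ℝ G₁ x).det =
      ∫ x in closedBall (0 : Fin N → ℝ) R', (fderiv ℝ G₀ x).det := by
  obtain ⟨L₀, hL₀⟩ := h0.lipschitzWith_of_hasCompactSupport c0 (by simp)
  obtain ⟨L₁, hL₁⟩ := h1.lipschitzWith_of_hasCompactSupport c1 (by simp)
  obtain ⟨w, hw⟩ := nullLag_interp N ((L₀ : ℝ) + L₁ + 1)
  have key : ∀ (G : (Fin N → ℝ) → (Fin N → ℝ)), ContDiff ℝ ∞ G →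
      ∫ x in closedBall (0 : Fin N → ℝ) R', (fderiv ℝ G x).det =
      ∑ k ∈ Finset.range (N + 1), w k * ∫ x in closedBall (0 : Fin N → ℝ) R',
        ((((L₀ : ℝ) + L₁ + 1) + k) • ContinuousLinearMap.id ℝ (Fin N → ℝ) +
          fderiv ℝ G x).det := by
    intro G hG
    have e1 : ∀ x, (fderiv ℝ G x).det = ∑ k ∈ Finset.range (N + 1),
      w k * ((((L₀ : ℝ) + L₁ + 1) + k) • ContinuousLinearMap.id ℝ (Fin N → ℝ) +
          fderiv ℝ G x).det := fun x => hw _
    rw [integral_congr_ae (Filter.Eventually.of_forall e1), integral_finsetSum]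
    · refine Finset.sum_congr rfl fun k _ => ?_
      rw [integral_const_mul]
    · intro k _
      have hc : Continuous fun x : Fin N → ℝ =>
          w k * ((((L₀ : ℝ) + L₁ + 1) + k) • ContinuousLinearMap.id ℝ (Fin N → ℝ) +
          fderiv ℝ G x).det := by
        refine continuous_const.mul (ContinuousLinearMap.continuous_det.comp ?_)
        exact continuous_const.add (hG.continuous_fderiv (by simp))
      exact hc.continuousOn.integrableOn_compact (isCompact_closedBall _ _)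
  rw [key G₀ h0, key G₁ h1]
  refine Finset.sum_congr rfl fun k _ => ?_
  congr 1
  have a0 : (L₀ : ℝ) < ((L₀ : ℝ) + L₁ + 1) + k := by
    have := L₁.2
    have h3 : (0 : ℝ) ≤ (L₁ : ℝ) := L₁.2
    have h4 : (0 : ℝ) ≤ (k : ℝ) := Nat.cast_nonneg k
    linarith
  have a1 : (L₁ : ℝ) < ((L₀ : ℝ) + L₁ + 1) + k := by
    have h3 : (0 : ℝ) ≤ (L₀ : ℝ) := L₀.2
    have h4 : (0 : ℝ) ≤ (k : ℝ) := Nat.cast_nonneg k
    linarith
  rw [nullLag_cov N G₀ L₀ _ h0 hL₀ a0 _ measurableSet_closedBall,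
    nullLag_cov N G₁ L₁ _ h1 hL₁ a1 _ measurableSet_closedBall,
    nullLag_image N G₀ G₁ L₀ L₁ _ hL₀ hL₁ a0 a1 _ hR]

theorem null_lag (N : ℕ) (F₀ F₁ : (Fin N → ℝ) → (Fin N → ℝ)) (h0 : ContDiff ℝ ∞ F₀)
    (h1 : ContDiff ℝ ∞ F₁) (R R' : ℝ) (hR' : R < R') (hR : ∀ x, R ≤ ‖x‖ → F₁ x = F₀ x) :
    ∫ x in closedBall (0 : Fin N → ℝ) R', (fderiv ℝ F₁ x).det =
      ∫ x in closedBall (0 : Fin N → ℝ) R', (fderiv ℝ F₀ x).det := by
  have hpos : (0 : ℝ) < |R'| + 1 := by positivity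
  let χ : ContDiffBump (0 : Fin N → ℝ) := ⟨|R'| + 1, |R'| + 2, hpos, by linarith⟩
  have hsm : ∀ F : (Fin N → ℝ) → (Fin N → ℝ), ContDiff ℝ ∞ F →
      ContDiff ℝ ∞ fun x => χ x • F x := fun F hF => χ.contDiff.smul hF
  have hcp : ∀ F : (Fin N → ℝ) → (Fin N → ℝ), HasCompactSupport fun x => χ x • F x :=
    fun F => χ.hasCompactSupport.smul_right
  have hfd : ∀ F : (Fin N → ℝ) → (Fin N → ℝ), ∀ x ∈ closedBall (0 : Fin N → ℝ) R',
      (fderiv ℝ F x).det = (fderiv ℝ (fun x => χ x • F x) x).det := by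
    intro F x hx
    have : (fun x => χ x • F x) =ᶠ[nhds x] F := by
      have hx' : x ∈ ball (0 : Fin N → ℝ) (|R'| + 1) := by
        rw [mem_ball]
        rw [mem_closedBall] at hx
        have := le_abs_self R'
        linarith
      filter_upwards [isOpen_ball.mem_nhds hx'] with y hy
      rw [χ.one_of_mem_closedBall (ball_subset_closedBall hy), one_smul]
    rw [this.fderiv_eq]
  rw [setIntegral_congr_fun measurableSet_closedBall (hfd F₀),
    setIntegral_congr_fun measurableSet_closedBall (hfd F₁)]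
  refine nullLag_cpt N _ _ (hsm F₀ h0) (hsm F₁ h1) (hcp F₀) (hcp F₁) R' ?_
  intro x hx
  rw [mem_closedBall, not_le, dist_zero_right] at hx
  show χ x • F₁ x = χ x • F₀ x
  rw [hR x (hR'.le.trans hx.le)]

end DT
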