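import Pool.Agent.H78.DT.Cone
import Pool.Agent.H78.DT.NullLag

/-!
# Maps with nonnegative Jacobian are not null-homotopic on the sphere (job DT-NOTNULL)

`P : ℝ^(N+1) → ℝ^(N+1)` smooth, `P x ≠ 0` for `x ≠ 0`, `det DP ≥ 0` everywhere, and for every `r > 0` there is
`x` with `|P x| = r`, `det DP(x) > 0`.  Then `nrm ∘ P : Sᴺ → Sᴺ` is not homotopic to a constant.
PROOF. `|·|` is `nr` (`nr x ≥ ‖x‖`, the sup norm).  (a) Let `ε > 0` with `|P x| ≥ ε` for `|x| ≥ 1` (`hinf`).  Let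
`θ : ℝ → ℝ` be smooth and nondecreasing, `θ s = 0` for `s ≤ ε²/4`, `θ s = 1` for `s ≥ ε²`
(`Real.smoothTransition` of an affine function), and `χ s = θ s/√s` for `s > 0`, `0` for `s ≤ 0`,
a smooth function.  `Rd y = χ (y⬝y) • y` is smooth, `= nrm y` for `|y| ≥ ε`.
`D Rd (y) w = χ w + 2 χ' (y⬝w) y` has the determinant `χᴺ (χ + 2 s χ')`, `s = y⬝y` (matrix determinant
lemma `det (1 + u vᵀ) = 1 + v⬝u`; if `χ = 0` both sides are `0`: then `θ s = 0`, so `θ = 0` on `(-∞, s]` and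
`θ'(s) = 0`, `χ' = 0`), and `χ + 2sχ' = 2√s (√s χ)' = 2√s θ' (s) ≥ 0` for `s > 0`.  So `det D Rd ≥ 0`.
There is `s₀ ∈ (0, ε²)` with `θ (s₀) > 0` and `θ' (s₀) > 0` (mean value theorem on `[s₁, ε²]` where
`θ (s₁) = 1/2`); where `|y|² = s₀`, `det D Rd (y) > 0`.
(b) `F₀ = Rd ∘ P` is smooth, `det DF₀ (x) = det D Rd (P x) det DP (x) ≥ 0`, and `> 0` at a point `x₀` with
`|P x₀|² = s₀`, `det DP(x₀) > 0` (`hpos`); as `|P x₀| < ε`, `|x₀| < 1`.  For `|x| ≥ 1`, `F₀ x = nrm (P x)`.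
(c) Suppose that `nrm ∘ P` on the sphere is homotopic to a constant, `H (u, x)`, `H (0,x) = nrm (P x)`,
`H (1, x) = c`.  Let `g x = nrm (P x)` for `|x| ≥ 1`, `g x = H (2 - 2|x|, x/|x|)` for `1/2 ≤ |x| ≤ 1`, and
`g x = c` for `|x| ≤ 1/2`: continuous on `ℝ^(N+1)`, values in the sphere.
By Stone-Weierstrass there is a smooth `Q̃` with `|Q̃ - g| < 1/2` for `|x| ≤ 4`.  Let `η` be a smooth
cut-off with values in `[0,1]`, `η x = 0` for `|x| ≤ 2`, `η x = 1` for `|x| ≥ 3` (a function of `x⬝x`).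
`Q̂ = (1-η) Q̃ + η nrm P` is smooth (near points with `|x| < 2` it is `Q̃`, and `nrm P` is smooth on
`{x ≠ 0}`); `|Q̂ - g| < 1/2` for `|x| ≤ 4` (`g = nrm P` for `|x| ≥ 1`) and `Q̂ = nrm P` for `|x| ≥ 3`; so `Q̂ ≠ 0`.
`F₁ = nrm Q̂` is smooth with values in the sphere, and `F₁ = nrm P = F₀` for `|x| ≥ 3`.
(d) `F₁⬝F₁ = 1`, so `F₁⬝(DF₁ w) = 0` for all `w`, `DF₁` is not surjective, `det DF₁ = 0` everywhere.
By `null_lag` with `R = 3`, `R' = 4` (`‖x‖ ≥ 3` implies `|x| ≥ 3`) the integral of `det DF₀` over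
`closedBall 0 4` is `0`.  But `det DF₀` is continuous, nonnegative and positive at `x₀`,
`‖x₀‖ ≤ |x₀| < 1`: the integral is positive, a contradiction.
-/

open Matrix Set unitInterval Topology MeasureTheory
open scoped ContDiff

noncomputable section

namespace DT

/-- a smooth step from `0` (for `s ≤ a`) to `1` (for `s ≥ b`) -/
def NotNull_th (a b s : ℝ) : ℝ := Real.smoothTransition ((s - a) / (b - a))

theorem NotNull_th_contDiff (a b : ℝ) : ContDiff ℝ ∞ (NotNull_th a b) := by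
  unfold NotNull_th
  exact Real.smoothTransition.contDiff.comp (by fun_prop)

theorem NotNull_th_zero {a b s : ℝ} (hab : a < b) : NotNull_th a b s = 0 ↔ s ≤ a := by
  unfold NotNull_th
  rw [Real.smoothTransition.zero_iff_nonpos]
  have h : 0 < b - a := sub_pos.2 hab
  constructor
  · intro hs
    by_contra hcon
    have : 0 < (s - a) / (b - a) := div_pos (by linarith) h
    linarith
  · intro hs
    exact div_nonpos_of_nonpos_of_nonneg (by linarith) h.le

theorem NotNull_th_one {a b s : ℝ} (hab : a < b) (hs : b ≤ s) : NotNull_th a b s = 1 := by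
  unfold NotNull_th
  apply Real.smoothTransition.one_of_one_le
  rw [one_le_div (sub_pos.2 hab)]
  linarith

theorem NotNull_th_nonneg (a b s : ℝ) : 0 ≤ NotNull_th a b s :=
  Real.smoothTransition.nonneg _

theorem NotNull_th_mono {a b : ℝ} (hab : a < b) : Monotone (NotNull_th a b) := by
  intro s t hst
  apply Real.smoothTransition.monotone
  have h : 0 < b - a := sub_pos.2 hab
  gcongr

theorem NotNull_th_deriv {a b : ℝ} (hab : a < b) (s : ℝ) : 0 ≤ deriv (NotNull_th a b) s :=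
  (NotNull_th_mono hab).deriv_nonneg

theorem NotNull_th_pt {a b : ℝ} (hab : a < b) :
    ∃ s, a < s ∧ s < b ∧ 0 < NotNull_th a b s ∧ 0 < deriv (NotNull_th a b) s := by
  obtain ⟨m, hm1, hm2⟩ := exists_between hab
  have hlt : NotNull_th a b m < 1 := by
    unfold NotNull_th
    apply Real.smoothTransition.lt_one_of_lt_one
    rw [div_lt_one (sub_pos.2 hab)]
    linarith
  have hd : Differentiable ℝ (NotNull_th a b) :=
    (NotNull_th_contDiff a b).differentiable (by simp)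
  obtain ⟨c, hc, hc2⟩ := exists_deriv_eq_slope (NotNull_th a b) hm2
    hd.continuous.continuousOn hd.differentiableOn
  refine ⟨c, hm1.trans hc.1, hc.2, ?_, ?_⟩
  · refine lt_of_le_of_ne (NotNull_th_nonneg _ _ _) fun h => ?_
    have := (NotNull_th_zero hab).1 h.symm
    linarith [hc.1]
  · rw [hc2, NotNull_th_one hab le_rfl]
    exact div_pos (by linarith) (by linarith)

/-- the radial factor -/
def NotNull_chi (a b s : ℝ) : ℝ := NotNull_th a b s * (Real.sqrt s)⁻¹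

theorem NotNull_chi_nonneg (a b s : ℝ) : 0 ≤ NotNull_chi a b s :=
  mul_nonneg (NotNull_th_nonneg _ _ _) (inv_nonneg.2 (Real.sqrt_nonneg _))

theorem NotNull_chi_contDiff {a b : ℝ} (ha : 0 < a) (hab : a < b) :
    ContDiff ℝ ∞ (NotNull_chi a b) := by
  rw [contDiff_iff_contDiffAt]
  intro s
  by_cases hs : s < a
  · have h : NotNull_chi a b =ᶠ[𝓝 s] fun _ => 0 := by
      filter_upwards [Iio_mem_nhds hs] with t ht
      unfold NotNull_chi
      rw [(NotNull_th_zero hab).2 (le_of_lt ht), zero_mul]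
    exact contDiffAt_const.congr_of_eventuallyEq h
  · have hs0 : 0 < s := lt_of_lt_of_le ha (not_lt.1 hs)
    unfold NotNull_chi
    exact (NotNull_th_contDiff a b).contDiffAt.mul
      ((Real.contDiffAt_sqrt hs0.ne').inv (Real.sqrt_pos.2 hs0).ne')

theorem NotNull_chi_deriv_zero {a b s : ℝ} (hs : NotNull_chi a b s = 0) : deriv (NotNull_chi a b) s = 0 := by
  apply IsLocalMin.deriv_eq_zero
  refine Filter.Eventually.of_forall fun t => ?_
  show NotNull_chi a b s ≤ NotNull_chi a b t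
  rw [hs]
  exact NotNull_chi_nonneg _ _ _

theorem NotNull_chi_deriv {a b s : ℝ} (hs : 0 < s) :
    NotNull_chi a b s + 2 * s * deriv (NotNull_chi a b) s =
      2 * Real.sqrt s * deriv (NotNull_th a b) s := by
  have hsq := Real.sqrt_pos.2 hs
  have h1 : HasDerivAt (NotNull_th a b) (deriv (NotNull_th a b) s) s :=
    ((NotNull_th_contDiff a b).differentiable (by simp) s).hasDerivAt
  have h2 := (Real.hasDerivAt_sqrt hs.ne').inv hsq.ne'
  have h3 := (h1.mul h2).deriv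
  have h4 : deriv (NotNull_chi a b) s = _ := h3
  rw [h4]
  have h5 : Real.sqrt s ^ 2 = s := Real.sq_sqrt hs.le
  unfold NotNull_chi
  simp only [Pi.inv_apply]
  have h6 : 2 * s = 2 * Real.sqrt s ^ 2 := by rw [h5]
  rw [h6]
  field_simp
  ring

/-- the dot product with `y` -/
def NotNull_dot {n : ℕ} (y : Fin n → ℝ) : (Fin n → ℝ) →L[ℝ] ℝ :=
  ∑ i, (y i) • (ContinuousLinearMap.proj i : (Fin n → ℝ) →L[ℝ] ℝ)

theorem NotNull_dot_apply {n : ℕ} (y w : Fin n → ℝ) : NotNull_dot y w = y ⬝ᵥ w := by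
  unfold NotNull_dot dotProduct
  simp

theorem NotNull_dotSelf_hasFDerivAt {n : ℕ} (y : Fin n → ℝ) :
    HasFDerivAt (fun v : Fin n → ℝ => v ⬝ᵥ v) ((2 : ℝ) • NotNull_dot y) y := by
  unfold dotProduct
  have h : ∀ i ∈ (Finset.univ : Finset (Fin n)), HasFDerivAt (fun v : Fin n → ℝ => v i * v i)
      ((y i) • (ContinuousLinearMap.proj i : (Fin n → ℝ) →L[ℝ] ℝ) +
        (y i) • (ContinuousLinearMap.proj i : (Fin n → ℝ) →L[ℝ] ℝ)) y := by
    intro i _
    exact (hasFDerivAt_apply i y).mul (hasFDerivAt_apply i y)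
  have h2 := HasFDerivAt.fun_sum h
  have h3 : (2 : ℝ) • NotNull_dot y = ∑ i : Fin n,
      ((y i) • (ContinuousLinearMap.proj i : (Fin n → ℝ) →L[ℝ] ℝ) +
        (y i) • (ContinuousLinearMap.proj i : (Fin n → ℝ) →L[ℝ] ℝ)) := by
    unfold NotNull_dot
    rw [Finset.smul_sum]
    refine Finset.sum_congr rfl fun i _ => ?_
    rw [two_smul]
  rw [h3]
  exact h2

theorem NotNull_dotSelf_contDiff {n : ℕ} : ContDiff ℝ ∞ fun v : Fin n → ℝ => v ⬝ᵥ v := by
  unfold dotProduct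
  fun_prop

theorem NotNull_det {N : ℕ} (c k : ℝ) (hc : c ≠ 0) (y : Fin (N + 1) → ℝ)
    (L : (Fin (N + 1) → ℝ) →L[ℝ] (Fin (N + 1) → ℝ)) (hL : ∀ w, L w = c • w + (k * (y ⬝ᵥ w)) • y) :
    L.det = c ^ N * (c + k * (y ⬝ᵥ y)) := by
  have h : (L : (Fin (N + 1) → ℝ) →ₗ[ℝ] (Fin (N + 1) → ℝ)) =
      c • LinearMap.transvection
        ((k / c) • (NotNull_dot y : (Fin (N + 1) → ℝ) →ₗ[ℝ] ℝ)) y := by
    apply LinearMap.ext
    intro w
    show L w = c • (w + ((k / c) • NotNull_dot y w) • y)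
    rw [hL, NotNull_dot_apply, smul_add, smul_smul, smul_eq_mul]
    congr 2
    field_simp
  show LinearMap.det (L : (Fin (N + 1) → ℝ) →ₗ[ℝ] (Fin (N + 1) → ℝ)) = _
  rw [h, LinearMap.det_smul, LinearMap.transvection.det]
  have h2 : ((k / c) • (NotNull_dot y : (Fin (N + 1) → ℝ) →ₗ[ℝ] ℝ)) y = (k / c) * (y ⬝ᵥ y) := by
    show (k / c) • NotNull_dot y y = _
    rw [NotNull_dot_apply, smul_eq_mul]
  rw [h2, Module.finrank_pi, Fintype.card_fin, pow_succ]
  field_simp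

theorem NotNull_Rd (N : ℕ) (e : ℝ) (he : 0 < e) :
    ∃ Rd : (Fin (N + 1) → ℝ) → (Fin (N + 1) → ℝ), ContDiff ℝ ∞ Rd ∧
      (∀ y, e ≤ nr y → Rd y = nrm y) ∧ (∀ y, 0 ≤ (fderiv ℝ Rd y).det) ∧
      ∃ r, 0 < r ∧ r < e ∧ ∀ y, nr y = r → 0 < (fderiv ℝ Rd y).det := by
  have ha : 0 < e ^ 2 / 4 := by positivity
  have hab : e ^ 2 / 4 < e ^ 2 := by nlinarith [sq_nonneg e, pow_pos he 2]
  set a := e ^ 2 / 4 with hadef
  set b := e ^ 2 with hbdef
  have hchi := NotNull_chi_contDiff ha hab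
  have hfd : ∀ y : Fin (N + 1) → ℝ,
      HasFDerivAt (fun v : Fin (N + 1) → ℝ => NotNull_chi a b (v ⬝ᵥ v) • v)
        (NotNull_chi a b (y ⬝ᵥ y) • ContinuousLinearMap.id ℝ (Fin (N + 1) → ℝ) +
          (deriv (NotNull_chi a b) (y ⬝ᵥ y) • ((2 : ℝ) • NotNull_dot y)).smulRight y) y := by
    intro y
    have h1 : HasDerivAt (NotNull_chi a b) (deriv (NotNull_chi a b) (y ⬝ᵥ y)) (y ⬝ᵥ y) :=
      (hchi.differentiable (by simp) _).hasDerivAt
    have h2 := HasDerivAt.comp_hasFDerivAt (f := fun v : Fin (N + 1) → ℝ => v ⬝ᵥ v) y h1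
      (NotNull_dotSelf_hasFDerivAt y)
    exact h2.smul (hasFDerivAt_id y)
  have happ : ∀ y w : Fin (N + 1) → ℝ,
      (fderiv ℝ (fun v : Fin (N + 1) → ℝ => NotNull_chi a b (v ⬝ᵥ v) • v) y) w =
        NotNull_chi a b (y ⬝ᵥ y) • w +
          ((2 * deriv (NotNull_chi a b) (y ⬝ᵥ y)) * (y ⬝ᵥ w)) • y := by
    intro y w
    rw [(hfd y).fderiv]
    show NotNull_chi a b (y ⬝ᵥ y) • w +
      (deriv (NotNull_chi a b) (y ⬝ᵥ y) • ((2 : ℝ) • NotNull_dot y w)) • y = _
    rw [NotNull_dot_apply, smul_eq_mul, smul_eq_mul]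
    congr 2
    ring
  -- the value of the determinant for `χ ≠ 0`
  have hdet : ∀ y : Fin (N + 1) → ℝ, NotNull_chi a b (y ⬝ᵥ y) ≠ 0 → 0 < y ⬝ᵥ y ∧
      (fderiv ℝ (fun v : Fin (N + 1) → ℝ => NotNull_chi a b (v ⬝ᵥ v) • v) y).det =
        NotNull_chi a b (y ⬝ᵥ y) ^ N *
          (2 * Real.sqrt (y ⬝ᵥ y) * deriv (NotNull_th a b) (y ⬝ᵥ y)) := by
    intro y hy
    have hpos : 0 < y ⬝ᵥ y := by
      by_contra hcon
      apply hy
      unfold NotNull_chi
      rw [(NotNull_th_zero hab).2 (by linarith), zero_mul]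
    refine ⟨hpos, ?_⟩
    rw [NotNull_det _ _ hy y _ (happ y), ← NotNull_chi_deriv hpos]
    ring
  refine ⟨fun v => NotNull_chi a b (v ⬝ᵥ v) • v, ?_, ?_, ?_, ?_⟩
  · exact (hchi.comp NotNull_dotSelf_contDiff).smul contDiff_id
  · intro y hy
    have h1 : b ≤ y ⬝ᵥ y := by
      rw [← cone_nr_sq, hbdef]
      exact pow_le_pow_left₀ he.le hy 2
    show NotNull_chi a b (y ⬝ᵥ y) • y = nrm y
    unfold NotNull_chi nrm nr
    rw [NotNull_th_one hab h1, one_mul]
  · intro y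
    by_cases hy : NotNull_chi a b (y ⬝ᵥ y) = 0
    · have h0 : fderiv ℝ (fun v : Fin (N + 1) → ℝ => NotNull_chi a b (v ⬝ᵥ v) • v) y = 0 := by
        apply ContinuousLinearMap.ext
        intro w
        rw [happ, hy, NotNull_chi_deriv_zero hy]
        simp
      rw [h0]
      show 0 ≤ LinearMap.det (0 : (Fin (N + 1) → ℝ) →ₗ[ℝ] (Fin (N + 1) → ℝ))
      rw [LinearMap.det_zero]
      positivity
    · obtain ⟨hpos, h⟩ := hdet y hy
      rw [h]
      have := NotNull_chi_nonneg a b (y ⬝ᵥ y)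
      have := NotNull_th_deriv hab (y ⬝ᵥ y)
      positivity
  · obtain ⟨s, hs1, hs2, hs3, hs4⟩ := NotNull_th_pt hab
    have hs0 : 0 < s := ha.trans hs1
    refine ⟨Real.sqrt s, Real.sqrt_pos.2 hs0, ?_, ?_⟩
    · rw [Real.sqrt_lt' he]
      exact hs2
    · intro y hy
      have hys : y ⬝ᵥ y = s := by rw [← cone_nr_sq, hy, Real.sq_sqrt hs0.le]
      have hchi0 : 0 < NotNull_chi a b s := by
        unfold NotNull_chi
        have := Real.sqrt_pos.2 hs0
        positivity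
      obtain ⟨hpos, h⟩ := hdet y (by rw [hys]; exact hchi0.ne')
      rw [h, hys]
      have := Real.sqrt_pos.2 hs0
      positivity

theorem NotNull_nrm_contDiffAt {n : ℕ} {v : Fin n → ℝ} (hv : v ≠ 0) :
    ContDiffAt ℝ ∞ (nrm : (Fin n → ℝ) → (Fin n → ℝ)) v := by
  have h1 : 0 < v ⬝ᵥ v := by
    rw [← cone_nr_sq]
    have := cone_nr_pos hv
    positivity
  have h2 : ContDiffAt ℝ ∞ (fun v : Fin n → ℝ => (nr v)⁻¹ • v) v := by
    unfold nr
    have h3 : ContDiffAt ℝ ∞ (fun v : Fin n → ℝ => Real.sqrt (v ⬝ᵥ v)) v :=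
      ContDiffAt.comp (f := fun v : Fin n → ℝ => v ⬝ᵥ v) v (Real.contDiffAt_sqrt h1.ne')
        NotNull_dotSelf_contDiff.contDiffAt
    exact (h3.inv (Real.sqrt_pos.2 h1).ne').smul contDiffAt_id
  exact h2

theorem NotNull_ne_zero {n : ℕ} {v : Fin n → ℝ} (hv : v ∈ US (Fin n)) : v ≠ 0 := by
  rintro rfl
  have h : (0 : Fin n → ℝ) ⬝ᵥ 0 = 1 := hv
  simp at h

theorem NotNull_nrm_unit {n : ℕ} {v : Fin n → ℝ} (hv : v ∈ US (Fin n)) : nrm v = v := by
  unfold nrm
  rw [nr_eq_one hv, inv_one, one_smul]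

theorem NotNull_det_zero {N : ℕ} {F : (Fin (N + 1) → ℝ) → (Fin (N + 1) → ℝ)}
    (hF : ContDiff ℝ ∞ F) (h1 : ∀ x, F x ∈ US (Fin (N + 1))) (x : Fin (N + 1) → ℝ) :
    (fderiv ℝ F x).det = 0 := by
  by_contra hdet
  have hF' : HasFDerivAt F (fderiv ℝ F x) x := (hF.differentiable (by simp) x).hasFDerivAt
  have h2 := (NotNull_dotSelf_hasFDerivAt (F x)).comp x hF'
  have h3 : (fun v => F v ⬝ᵥ F v) = fun _ => (1 : ℝ) := funext fun v => h1 v
  have h4 : HasFDerivAt (fun v => F v ⬝ᵥ F v) (0 : (Fin (N + 1) → ℝ) →L[ℝ] ℝ) x := by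
    rw [h3]
    exact hasFDerivAt_const _ _
  have h5 := h2.unique h4
  have hsurj : Function.Surjective (fderiv ℝ F x) := by
    have := (LinearMap.equivOfDetNeZero
      ((fderiv ℝ F x : (Fin (N + 1) → ℝ) →L[ℝ] (Fin (N + 1) → ℝ)) :
        (Fin (N + 1) → ℝ) →ₗ[ℝ] (Fin (N + 1) → ℝ)) hdet).surjective
    exact this
  obtain ⟨w, hw⟩ := hsurj (F x)
  have h6 := congrArg (fun L : (Fin (N + 1) → ℝ) →L[ℝ] ℝ => L w) h5
  have h7 : (2 : ℝ) • NotNull_dot (F x) (fderiv ℝ F x w) = 0 := h6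
  rw [hw, NotNull_dot_apply, show F x ⬝ᵥ F x = 1 from h1 x] at h7
  norm_num at h7


theorem NotNull_norm_le_nr {n : ℕ} (v : Fin n → ℝ) : ‖v‖ ≤ nr v := by
  rw [pi_norm_le_iff_of_nonneg (nr_nonneg v)]
  intro i
  have h3 : v i * v i ≤ v ⬝ᵥ v :=
    Finset.single_le_sum (f := fun i => v i * v i) (fun j _ => mul_self_nonneg _)
      (Finset.mem_univ i)
  rw [Real.norm_eq_abs]
  apply abs_le_of_sq_le_sq _ (nr_nonneg v)
  rw [cone_nr_sq, pow_two]
  exact h3

theorem NotNull_nr_zero {n : ℕ} : nr (0 : Fin n → ℝ) = 0 := cone_nr_zero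

/-- the extension of a null-homotopy -/
theorem NotNull_ext (N : ℕ) (P : (Fin (N + 1) → ℝ) → (Fin (N + 1) → ℝ)) (hP : ContDiff ℝ ∞ P)
    (hne : ∀ x, x ≠ 0 → P x ≠ 0) (c : Fin (N + 1) → ℝ)
    (hH : HIn (US (Fin (N + 1))) (fun x : Sp N => nrm (P x.1)) (fun _ => c)) :
    ∃ g : (Fin (N + 1) → ℝ) → (Fin (N + 1) → ℝ), Continuous g ∧
      (∀ x, g x ∈ US (Fin (N + 1))) ∧ ∀ x, 1 ≤ nr x → g x = nrm (P x) := by
  classical
  obtain ⟨H, hHc, hHu, hH0, hH1⟩ := hH
  have hc : c ∈ US (Fin (N + 1)) := by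
    have h := hHu 1 ⟨north N, cone_north_mem N⟩
    have h' : H (1, ⟨north N, cone_north_mem N⟩) ∈ US (Fin (N + 1)) := h
    rwa [hH1] at h'
  let tt : (Fin (N + 1) → ℝ) → I := fun x => projIcc 0 1 zero_le_one (2 - 2 * nr x)
  have htt : Continuous tt := continuous_projIcc.comp (by have := continuous_nr (κ := Fin (N + 1)); fun_prop)
  let g : (Fin (N + 1) → ℝ) → (Fin (N + 1) → ℝ) := fun x =>
    if h : x = 0 then c else
      nrm (P (max 1 (nr x) • nrm x)) + H (tt x, ⟨nrm x, nrm_mem h⟩) - nrm (P (nrm x))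
  have hg0 : ∀ x, nr x ≤ 1 / 2 → g x = c := by
    intro x hx
    by_cases h : x = 0
    · show (if h : x = 0 then c else _) = c
      rw [dif_pos h]
    · show (if h : x = 0 then c else
        nrm (P (max 1 (nr x) • nrm x)) + H (tt x, ⟨nrm x, nrm_mem h⟩) - nrm (P (nrm x))) = c
      rw [dif_neg h]
      have h1 : max 1 (nr x) = 1 := max_eq_left (by linarith)
      have h2 : tt x = 1 := projIcc_of_right_le _ (by linarith)
      rw [h1, h2, one_smul, hH1]
      abel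
  have hg1 : ∀ x, (h : x ≠ 0) → nr x ≤ 1 → g x = H (tt x, ⟨nrm x, nrm_mem h⟩) := by
    intro x h hx
    show (if h : x = 0 then c else
        nrm (P (max 1 (nr x) • nrm x)) + H (tt x, ⟨nrm x, nrm_mem h⟩) - nrm (P (nrm x))) = _
    rw [dif_neg h, max_eq_left hx, one_smul]
    abel
  have hg2 : ∀ x, 1 ≤ nr x → g x = nrm (P x) := by
    intro x hx
    have h : x ≠ 0 := by
      rintro rfl
      rw [cone_nr_zero] at hx
      linarith
    show (if h : x = 0 then c else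
        nrm (P (max 1 (nr x) • nrm x)) + H (tt x, ⟨nrm x, nrm_mem h⟩) - nrm (P (nrm x))) = _
    have h2 : tt x = 0 := projIcc_of_le_left _ (by linarith)
    rw [dif_neg h, max_eq_right hx, nr_smul_nrm, h2, hH0]
    abel
  refine ⟨g, ?_, ?_, hg2⟩
  · rw [continuous_iff_continuousAt]
    intro x
    by_cases hx : x = 0
    · have h1 : g =ᶠ[𝓝 x] fun _ => c := by
        have h2 : {y : Fin (N + 1) → ℝ | nr y < 1 / 2} ∈ 𝓝 x := by
          apply (isOpen_lt continuous_nr continuous_const).mem_nhds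
          show nr x < 1 / 2
          rw [hx, cone_nr_zero]
          norm_num
        filter_upwards [h2] with y hy
        exact hg0 y (le_of_lt hy)
      exact continuousAt_const.congr h1.symm
    · have hcont : ContinuousOn g {y | y ≠ 0} := by
        rw [continuousOn_iff_continuous_domRestrict]
        have e : ({y : Fin (N + 1) → ℝ | y ≠ 0}).domRestrict g = fun y =>
            nrm (P (max 1 (nr y.1) • nrm y.1)) + H (tt y.1, ⟨nrm y.1, nrm_mem y.2⟩) -
              nrm (P (nrm y.1)) := by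
          ext1 y
          exact dif_neg y.2
        rw [e]
        have c1 : Continuous fun y : {y : Fin (N + 1) → ℝ | y ≠ 0} => nr y.1 :=
          continuous_nr.comp continuous_subtype_val
        have c2 : Continuous fun y : {y : Fin (N + 1) → ℝ | y ≠ 0} => nrm y.1 := by
          unfold nrm
          exact (c1.inv₀ fun q => (cone_nr_pos q.2).ne').smul continuous_subtype_val
        have c3 : Continuous fun y : {y : Fin (N + 1) → ℝ | y ≠ 0} =>
            H (tt y.1, ⟨nrm y.1, nrm_mem y.2⟩) :=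
          hHc.comp ((htt.comp continuous_subtype_val).prodMk (c2.subtype_mk _))
        have c4 : ∀ (f : {y : Fin (N + 1) → ℝ | y ≠ 0} → (Fin (N + 1) → ℝ)), Continuous f →
            (∀ y, f y ≠ 0) → Continuous fun y => nrm (P (f y)) := by
          intro f hf hf0
          unfold nrm
          exact ((continuous_nr.comp (hP.continuous.comp hf)).inv₀
            fun q => (cone_nr_pos (hne _ (hf0 q))).ne').smul (hP.continuous.comp hf)
        have n1 : ∀ y : {y : Fin (N + 1) → ℝ | y ≠ 0}, nrm y.1 ≠ 0 :=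
          fun y => NotNull_ne_zero (nrm_mem y.2)
        have n2 : ∀ y : {y : Fin (N + 1) → ℝ | y ≠ 0}, max 1 (nr y.1) • nrm y.1 ≠ 0 := by
          intro y
          have : 0 < max 1 (nr y.1) := lt_of_lt_of_le one_pos (le_max_left _ _)
          exact smul_ne_zero this.ne' (n1 y)
        exact ((c4 _ ((continuous_const.max c1).smul c2) n2).add c3).sub (c4 _ c2 n1)
      exact hcont.continuousAt (isOpen_ne.mem_nhds hx)
  · intro x
    by_cases hx0 : x = 0
    · rw [hg0 x (by rw [hx0, cone_nr_zero]; norm_num)]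
      exact hc
    rcases le_total (nr x) 1 with hx | hx
    · rw [hg1 x hx0 hx]
      exact hHu _ _
    · rw [hg2 x hx]
      exact nrm_mem (hne x hx0)

theorem not_null (N : ℕ) (P : (Fin (N + 1) → ℝ) → (Fin (N + 1) → ℝ)) (hP : ContDiff ℝ ∞ P)
    (hne : ∀ x, x ≠ 0 → P x ≠ 0) (hinf : ∃ ε > 0, ∀ x, 1 ≤ nr x → ε ≤ nr (P x))
    (hd : ∀ x, 0 ≤ (fderiv ℝ P x).det)
    (hpos : ∀ r > 0, ∃ x, nr (P x) = r ∧ 0 < (fderiv ℝ P x).det)
    (c : Fin (N + 1) → ℝ) :
    ¬ HIn (US (Fin (N + 1))) (fun x : Sp N => nrm (P x.1)) (fun _ => c) := by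
  intro hH
  obtain ⟨g, hgc, hgu, hg1⟩ := NotNull_ext N P hP hne c hH
  obtain ⟨e, he, hinf⟩ := hinf
  obtain ⟨Rd, hR, hR1, hR2, r, hr0, hre, hR3⟩ := NotNull_Rd N e he
  obtain ⟨x₀, hx₀, hdx₀⟩ := hpos r hr0
  have hne1 : ∀ x : Fin (N + 1) → ℝ, 1 ≤ nr x → x ≠ 0 := by
    rintro x hx rfl
    rw [cone_nr_zero] at hx
    linarith
  -- the smooth approximation
  have hS : IsClosed {x : Fin (N + 1) → ℝ | 2 ≤ nr x} := isClosed_le continuous_const continuous_nr
  have hUo : IsOpen {x : Fin (N + 1) → ℝ | 1 < nr x} := isOpen_lt continuous_const continuous_nr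
  have hU : {x : Fin (N + 1) → ℝ | 1 < nr x} ∈ 𝓝ˢ {x : Fin (N + 1) → ℝ | 2 ≤ nr x} := by
    apply hUo.mem_nhdsSet.2
    intro x hx
    have hx' : 2 ≤ nr x := hx
    show 1 < nr x
    linarith
  have hsm : ContDiffOn ℝ ∞ g {x : Fin (N + 1) → ℝ | 1 < nr x} := by
    intro x hx
    have hx' : 1 < nr x := hx
    have h1 : ContDiffAt ℝ ∞ (fun y => nrm (P y)) x :=
      ContDiffAt.comp x (NotNull_nrm_contDiffAt (hne x (hne1 x hx'.le))) hP.contDiffAt
    have h2 : g =ᶠ[𝓝 x] fun y => nrm (P y) := by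
      filter_upwards [hUo.mem_nhds hx] with y hy
      exact hg1 y (le_of_lt hy)
    exact (h1.congr_of_eventuallyEq h2).contDiffWithinAt
  obtain ⟨Q, hQ, hQ1, hQ2, -⟩ := hgc.exists_contDiff_approx_and_eqOn (ε := fun x => ‖g x‖)
    (⊤ : ℕ∞) hgc.norm (fun x => norm_pos_iff.2 (NotNull_ne_zero (hgu x))) hS hU hsm
  have hQ0 : ∀ x, Q x ≠ 0 := by
    intro x hx
    have := hQ1 x
    rw [hx, dist_zero_left] at this
    exact lt_irrefl _ this
  have hF1 : ContDiff ℝ ∞ fun x => nrm (Q x) := by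
    rw [contDiff_iff_contDiffAt]
    intro x
    exact ContDiffAt.comp x (NotNull_nrm_contDiffAt (hQ0 x)) hQ.contDiffAt
  have hF1u : ∀ x, nrm (Q x) ∈ US (Fin (N + 1)) := fun x => nrm_mem (hQ0 x)
  have hF0 : ContDiff ℝ ∞ fun x => Rd (P x) := hR.comp hP
  have heq : ∀ x : Fin (N + 1) → ℝ, 3 ≤ ‖x‖ → nrm (Q x) = Rd (P x) := by
    intro x hx
    have h2 : 2 ≤ nr x := by
      have := NotNull_norm_le_nr x
      linarith
    have h3 : Q x = g x := hQ2 h2
    rw [h3, NotNull_nrm_unit (hgu x), hg1 x (by linarith), hR1 (P x) (hinf x (by linarith))]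
  have hint := null_lag (N + 1) (fun x => Rd (P x)) (fun x => nrm (Q x)) hF0 hF1 3 4
    (by norm_num) heq
  have hz : ∀ x, (fderiv ℝ (fun x => nrm (Q x)) x).det = 0 := fun x =>
    NotNull_det_zero hF1 hF1u x
  simp only [hz, integral_zero] at hint
  -- the integral is positive
  have hdetF : ∀ x, (fderiv ℝ (fun x => Rd (P x)) x).det =
      (fderiv ℝ Rd (P x)).det * (fderiv ℝ P x).det := by
    intro x
    have h1 : HasFDerivAt P (fderiv ℝ P x) x := (hP.differentiable (by simp) x).hasFDerivAt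
    have h2 : HasFDerivAt Rd (fderiv ℝ Rd (P x)) (P x) :=
      (hR.differentiable (by simp) (P x)).hasFDerivAt
    have h3 : fderiv ℝ (fun x => Rd (P x)) x = (fderiv ℝ Rd (P x)).comp (fderiv ℝ P x) :=
      (h2.comp x h1).fderiv
    rw [h3]
    exact LinearMap.det_comp _ _
  have hnn : ∀ x, 0 ≤ (fderiv ℝ (fun x => Rd (P x)) x).det := by
    intro x
    rw [hdetF]
    exact mul_nonneg (hR2 _) (hd x)
  have hcont : Continuous fun x => (fderiv ℝ (fun x => Rd (P x)) x).det :=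
    ContinuousLinearMap.continuous_det.comp (hF0.continuous_fderiv (by simp))
  have hion : IntegrableOn (fun x => (fderiv ℝ (fun x => Rd (P x)) x).det)
      (Metric.closedBall (0 : Fin (N + 1) → ℝ) 4) :=
    hcont.continuousOn.integrableOn_compact (isCompact_closedBall _ _)
  have hae := (setIntegral_eq_zero_iff_of_nonneg_ae
    (Filter.Eventually.of_forall fun x => hnn x) hion).1 hint.symm
  have hae2 : (fun x => (fderiv ℝ (fun x => Rd (P x)) x).det)
      =ᵐ[volume.restrict (Metric.ball (0 : Fin (N + 1) → ℝ) 4)] fun _ => (0 : ℝ) :=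
    ae_restrict_of_ae_restrict_of_subset Metric.ball_subset_closedBall hae
  have hEq := Measure.eqOn_open_of_ae_eq hae2 Metric.isOpen_ball hcont.continuousOn
    continuousOn_const
  have hx₀b : x₀ ∈ Metric.ball (0 : Fin (N + 1) → ℝ) 4 := by
    rw [mem_ball_zero_iff]
    have h1 : nr x₀ < 1 := by
      by_contra hcon
      have := hinf x₀ (not_lt.1 hcon)
      linarith
    have := NotNull_norm_le_nr x₀
    linarith
  have h0 := hEq hx₀b
  have h0' : (fderiv ℝ (fun x => Rd (P x)) x₀).det = 0 := h0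
  rw [hdetF] at h0'
  have := mul_pos (hR3 _ hx₀) hdx₀
  linarith

end DT
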