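import Pool.Agent.H78.DT.Rot
import Pool.Agent.H78.DT.Cone
import Pool.Agent.H78.DT.GlPath

/-!
# Sections of the bundle of rotations: the orbit map is null-homotopic (job DT-PN)

Let `F : S^(k+1) → SO(k+2)`, `F x x = x`.  Then `x ↦ F x N` is homotopic to a constant, `N = north`.
PROOF.  Write `x = susp (t, y)`, `t ∈ I`, `y ∈ S^k`; `N = susp (0,y)`, `S = -N = susp (1,y)`.  Let `ỹ = (0, y)`, and
`ρ_y (θ) = refl (cos (θ/2) N + sin (θ/2) ỹ) * refl N ∈ SO(k+2)`, the rotation by `θ` in the plane of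
`N` and `ỹ`: `ρ_y(θ) N = cos θ N + sin θ ỹ`, `ρ_y (0) = 1`,
`ρ_y (θ) susp (c, y) = susp (c + θ/π, y)`: (`susp (c,y) = cos πc N + sin πc ỹ`; `refl N` maps it to
`-cos πc N + sin πc ỹ`, the second reflection to `cos (πc+θ) N + sin (πc+θ) ỹ`.)
`F N` fixes `N`, so it is `1 ⊕ M`, `M ∈ SO(k+1)`; by `so_path` there is a path `g_s ∈ SO(k+2)`, `g_s N = N`,
`g_0 = F N`, `g_1 = 1`.
Let `c_u (t) = (1-u) t + u max 0 (2t-1)`, `s (t) = min 1 (max 0 (2 - 4t))` (`s = 1` for `t ≤ 1/4`, `s = 0` for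
`t ≥ 1/2`).
(1) `F_u (t,y) = ρ_y (π(t - c_u t)) F (susp (c_u t, y)) ρ_y (π(t - c_u t))ᵀ`, `u ∈ I`: at `t = 0` it is
`F N`, at `t = 1` it is `F S`, so it descends to a homotopy of maps `Sp (k+1) → SO(k+2)` (`descend`,
Cone.lean) from `F` (`u = 0`) to `F' = F_1`.  For `t ≤ 1/2`: `c_1 t = 0`, `F' (t,y) = ρ_y(πt) (F N) ρ_y(πt)ᵀ`.
(2) `F'_u (t,y) = ρ_y(πt) g_{u s(t)} ρ_y(πt)ᵀ` for `t ≤ 1/2`, and `F' (t,y)` for `t ≥ 1/2` (they agree at
`t = 1/2`): a homotopy from `F'` to `F'' = F'_1`.  At `t = 0` it is `g_{u}`, independent of `y`.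
(3) `F'' (t,y)` fixes `susp (t,y)`: for `t ≥ 1/2`: `ρ_y(π(t-c))ᵀ susp (t,y) = susp (c,y)`, fixed by `F (susp (c,y))`;
for `t ≤ 1/2`: `ρ_y(πt)ᵀ susp (t,y) = N`, fixed by `g`.  And `F'' (t,y) = 1` for `t ≤ 1/4`.
(4) Let `m (t) = max t (1-3t)` (`m 0 = 1`, `m t = t` for `t ≥ 1/4`), `v (t,y) = susp (m t, y)`:
`F'' (t,y) v (t,y) = v (t,y)` for all `t`.  `v_u (t,y) = susp ((1-u) m t + u, y)` is a homotopy from `v` to the
constant `S`; it descends (at `t = 0` and `t = 1` it is `S`).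
So `F'' x (S) ~ F'' x (v x) = v x ~ S`.
(5) `F x S ~ F'' x S ~ S` and `F x N = -(F x S) ~ -S = N` (`HIn.map'` with `y ↦ -y`).
-/

open Matrix Set unitInterval Topology

noncomputable section

namespace DT

section pnaux

theorem pn_mul {κ : Type} [Fintype κ] [DecidableEq κ] {A B : Matrix κ κ ℝ} (hA : A ∈ SOs κ)
    (hB : B ∈ SOs κ) : A * B ∈ SOs κ := by
  obtain ⟨a1, a2⟩ := hA
  obtain ⟨b1, b2⟩ := hB
  refine ⟨?_, by rw [det_mul, a2, b2, one_mul]⟩
  rw [transpose_mul, Matrix.mul_assoc, ← Matrix.mul_assoc Aᵀ, a1, Matrix.one_mul, b1]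

theorem pn_T {κ : Type} [Fintype κ] [DecidableEq κ] {A : Matrix κ κ ℝ} (hA : A ∈ SOs κ) :
    Aᵀ ∈ SOs κ := by
  obtain ⟨a1, a2⟩ := hA
  refine ⟨?_, by rw [det_transpose, a2]⟩
  rw [transpose_transpose]
  exact mul_eq_one_comm.1 a1

theorem pn_us {κ : Type} [Fintype κ] [DecidableEq κ] {A : Matrix κ κ ℝ} (hA : A ∈ SOs κ)
    {v : κ → ℝ} (hv : v ∈ US κ) : A *ᵥ v ∈ US κ := by
  have h1 : v ⬝ᵥ (Aᵀ *ᵥ (A *ᵥ v)) = (A *ᵥ v) ⬝ᵥ (A *ᵥ v) := by
    rw [dotProduct_mulVec, vecMul_transpose]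
  show (A *ᵥ v) ⬝ᵥ (A *ᵥ v) = 1
  rw [← h1, mulVec_mulVec, hA.1, one_mulVec]
  exact hv

theorem pn_one {κ : Type} [Fintype κ] [DecidableEq κ] : (1 : Matrix κ κ ℝ) ∈ SOs κ :=
  ⟨by simp, by simp⟩

variable {k : ℕ}

theorem pn_sv_dot (a b : ℝ) {y : Fin (k + 1) → ℝ} (hy : y ∈ US (Fin (k + 1))) :
    sv a y ⬝ᵥ sv b y = Real.cos (Real.pi * (a - b)) := by
  have h : y ⬝ᵥ y = 1 := hy
  unfold sv
  rw [dotProduct, Fin.sum_univ_succ]
  simp only [Fin.cons_zero, Fin.cons_succ, Pi.smul_apply, smul_eq_mul]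
  have h2 : ∑ i, Real.sin (Real.pi * a) * y i * (Real.sin (Real.pi * b) * y i) =
      Real.sin (Real.pi * a) * Real.sin (Real.pi * b) * (y ⬝ᵥ y) := by
    rw [dotProduct, Finset.mul_sum]
    exact Finset.sum_congr rfl fun i _ => by ring
  rw [h2, h, mul_one, mul_sub, Real.cos_sub]

theorem pn_refl_sv (a b : ℝ) {y : Fin (k + 1) → ℝ} (hy : y ∈ US (Fin (k + 1))) :
    refl (sv a y) *ᵥ sv b y = sv (2 * a - b + 1) y := by
  rw [refl_mulVec, pn_sv_dot a b hy]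
  have e1 : Real.pi * b = Real.pi * a - Real.pi * (a - b) := by ring
  have e2 : Real.pi * (2 * a - b + 1) = Real.pi * a + Real.pi * (a - b) + Real.pi := by ring
  funext i
  refine Fin.cases ?_ (fun j => ?_) i
  · simp only [sv, Pi.sub_apply, Pi.smul_apply, Fin.cons_zero, smul_eq_mul]
    rw [e2, Real.cos_add_pi, Real.cos_add]
    nth_rw 1 [e1]
    rw [Real.cos_sub]
    ring
  · simp only [sv, Pi.sub_apply, Pi.smul_apply, Fin.cons_succ, smul_eq_mul]
    rw [e2, Real.sin_add_pi, Real.sin_add]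
    nth_rw 1 [e1]
    rw [Real.sin_sub]
    ring

/-- rotation by `π τ` in the plane of the pole and `y` -/
def pnR (τ : ℝ) (y : Fin (k + 1) → ℝ) : Matrix (Fin (k + 2)) (Fin (k + 2)) ℝ :=
  refl (sv (τ / 2) y) * refl (sv 0 y)

theorem pnR_mem (τ : ℝ) {y : Fin (k + 1) → ℝ} (hy : y ∈ US (Fin (k + 1))) :
    pnR τ y ∈ SOs (Fin (k + 2)) := by
  have h1 := sv_mem (τ / 2) hy
  have h2 := sv_mem 0 hy
  unfold pnR
  constructor
  · rw [transpose_mul, refl_transpose, refl_transpose, Matrix.mul_assoc,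
      ← Matrix.mul_assoc (refl (sv (τ / 2) y)), refl_mul_self h1, Matrix.one_mul,
      refl_mul_self h2]
  · rw [det_mul, refl_det h1, refl_det h2]
    norm_num

theorem pnR_zero {y : Fin (k + 1) → ℝ} (hy : y ∈ US (Fin (k + 1))) : pnR 0 y = 1 := by
  unfold pnR
  rw [zero_div]
  exact refl_mul_self (sv_mem 0 hy)

theorem pnR_apply (τ c : ℝ) {y : Fin (k + 1) → ℝ} (hy : y ∈ US (Fin (k + 1))) :
    pnR τ y *ᵥ sv c y = sv (c + τ) y := by
  unfold pnR
  rw [← mulVec_mulVec, pn_refl_sv 0 c hy, pn_refl_sv _ _ hy]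
  congr 1
  ring

theorem pnR_apply_T (τ c : ℝ) {y : Fin (k + 1) → ℝ} (hy : y ∈ US (Fin (k + 1))) :
    (pnR τ y)ᵀ *ᵥ sv (c + τ) y = sv c y := by
  rw [← pnR_apply τ c hy, mulVec_mulVec, (pnR_mem τ hy).1, one_mulVec]

theorem pn_sv_cont : Continuous fun p : ℝ × (Fin (k + 1) → ℝ) => sv p.1 p.2 := by
  refine continuous_pi fun i => ?_
  refine Fin.cases ?_ (fun j => ?_) i
  · simp only [sv, Fin.cons_zero]
    fun_prop
  · simp only [sv, Fin.cons_succ, Pi.smul_apply, smul_eq_mul]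
    fun_prop

theorem pn_refl_cont {κ : Type} [Fintype κ] [DecidableEq κ] :
    Continuous (refl : (κ → ℝ) → Matrix κ κ ℝ) := by
  unfold refl
  have h : Continuous fun a : κ → ℝ => vecMulVec a a := by
    refine continuous_matrix fun i j => ?_
    simp only [vecMulVec_apply]
    fun_prop
  exact continuous_const.sub (h.const_smul (2 : ℝ))

theorem pnR_cont : Continuous fun p : ℝ × (Fin (k + 1) → ℝ) => pnR p.1 p.2 := by
  have h1 : Continuous fun p : ℝ × (Fin (k + 1) → ℝ) => (p.1 / 2, p.2) :=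
    (continuous_fst.div_const 2).prodMk continuous_snd
  have h2 : Continuous fun p : ℝ × (Fin (k + 1) → ℝ) => ((0 : ℝ), p.2) :=
    continuous_const.prodMk continuous_snd
  have h3 := pn_refl_cont.comp ((pn_sv_cont (k := k)).comp h1)
  have h4 := pn_refl_cont.comp ((pn_sv_cont (k := k)).comp h2)
  exact h3.matrix_mul h4

theorem pn_sv_zero (y : Fin (k + 1) → ℝ) : sv 0 y = north (k + 1) := by
  unfold sv north
  rw [mul_zero, Real.cos_zero, Real.sin_zero, zero_smul]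

theorem pn_sv_one (y : Fin (k + 1) → ℝ) : sv 1 y = -north (k + 1) := by
  unfold sv north
  rw [mul_one, Real.cos_pi, Real.sin_pi, zero_smul]
  funext i
  refine Fin.cases ?_ (fun j => ?_) i
  · simp
  · simp

/-- block matrices `1 ⊕ M` -/
def pnE (M : Matrix (Fin (k + 1)) (Fin (k + 1)) ℝ) : Matrix (Fin (k + 2)) (Fin (k + 2)) ℝ :=
  fun i j => Fin.cases (motive := fun _ => ℝ) (Fin.cases (motive := fun _ => ℝ) 1 (fun _ => 0) j)
    (fun i' => Fin.cases (motive := fun _ => ℝ) 0 (fun j' => M i' j') j) i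

theorem pnE_mul (A B : Matrix (Fin (k + 1)) (Fin (k + 1)) ℝ) : pnE A * pnE B = pnE (A * B) := by
  ext i j
  refine Fin.cases ?_ (fun i' => ?_) i <;> refine Fin.cases ?_ (fun j' => ?_) j <;>
    simp [Matrix.mul_apply, Fin.sum_univ_succ, pnE]

theorem pnE_T (A : Matrix (Fin (k + 1)) (Fin (k + 1)) ℝ) : (pnE A)ᵀ = pnE Aᵀ := by
  ext i j
  refine Fin.cases ?_ (fun i' => ?_) i <;> refine Fin.cases ?_ (fun j' => ?_) j <;> rfl

theorem pnE_one : pnE (1 : Matrix (Fin (k + 1)) (Fin (k + 1)) ℝ) = 1 := by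
  ext i j
  refine Fin.cases ?_ (fun i' => ?_) i <;> refine Fin.cases ?_ (fun j' => ?_) j
  · exact (Matrix.one_apply_eq _).symm
  · exact (Matrix.one_apply_ne (Fin.succ_ne_zero j').symm).symm
  · exact (Matrix.one_apply_ne (Fin.succ_ne_zero i')).symm
  · show (1 : Matrix (Fin (k + 1)) (Fin (k + 1)) ℝ) i' j' = _
    by_cases h : i' = j'
    · rw [h, Matrix.one_apply_eq, Matrix.one_apply_eq]
    · rw [Matrix.one_apply_ne h, Matrix.one_apply_ne fun h' => h (Fin.succ_injective _ h')]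

theorem pnE_inj {A B : Matrix (Fin (k + 1)) (Fin (k + 1)) ℝ} (h : pnE A = pnE B) : A = B := by
  ext i j
  exact congrFun (congrFun h i.succ) j.succ

theorem pnE_det (A : Matrix (Fin (k + 1)) (Fin (k + 1)) ℝ) : (pnE A).det = A.det := by
  rw [det_succ_row_zero, Fin.sum_univ_succ]
  have h1 : ∀ j : Fin (k + 1), (-1 : ℝ) ^ ((j.succ : Fin (k + 2)) : ℕ) * pnE A 0 j.succ *
      ((pnE A).submatrix Fin.succ j.succ.succAbove).det = 0 := by
    intro j
    have : pnE A 0 j.succ = 0 := rfl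
    rw [this, mul_zero, zero_mul]
  rw [Finset.sum_eq_zero fun j _ => h1 j, add_zero]
  have h2 : (pnE A).submatrix Fin.succ (Fin.succAbove 0) = A := by
    ext i j
    rw [submatrix_apply, Fin.succAbove_zero]
    rfl
  rw [h2]
  show (-1 : ℝ) ^ 0 * 1 * A.det = A.det
  rw [pow_zero, one_mul, one_mul]

theorem pnE_cont : Continuous (pnE (k := k)) := by
  refine continuous_matrix fun i j => ?_
  refine Fin.cases ?_ (fun i' => ?_) i <;> refine Fin.cases ?_ (fun j' => ?_) j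
  · exact continuous_const
  · exact continuous_const
  · exact continuous_const
  · exact continuous_id.matrix_elem i' j'

theorem pnE_north (A : Matrix (Fin (k + 1)) (Fin (k + 1)) ℝ) :
    pnE A *ᵥ north (k + 1) = north (k + 1) := by
  funext i
  refine Fin.cases ?_ (fun i' => ?_) i <;>
    simp [Matrix.mulVec, dotProduct, Fin.sum_univ_succ, pnE, north]

theorem pnE_mem {A : Matrix (Fin (k + 1)) (Fin (k + 1)) ℝ} :
    pnE A ∈ SOs (Fin (k + 2)) ↔ A ∈ SOs (Fin (k + 1)) := by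
  constructor
  · rintro ⟨h1, h2⟩
    rw [pnE_T, pnE_mul, ← pnE_one] at h1
    exact ⟨pnE_inj h1, by rw [← pnE_det, h2]⟩
  · rintro ⟨h1, h2⟩
    refine ⟨?_, by rw [pnE_det, h2]⟩
    rw [pnE_T, pnE_mul, h1, pnE_one]

theorem pn_mulVec_north (G : Matrix (Fin (k + 2)) (Fin (k + 2)) ℝ) (i : Fin (k + 2)) :
    (G *ᵥ north (k + 1)) i = G i 0 := by
  simp [Matrix.mulVec, dotProduct, Fin.sum_univ_succ, north]

theorem pn_path (G : Matrix (Fin (k + 2)) (Fin (k + 2)) ℝ) (hG : G ∈ SOs (Fin (k + 2)))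
    (hN : G *ᵥ north (k + 1) = north (k + 1)) :
    ∃ g : I → Matrix (Fin (k + 2)) (Fin (k + 2)) ℝ, Continuous g ∧ g 0 = G ∧ g 1 = 1 ∧
      (∀ s, g s ∈ SOs (Fin (k + 2))) ∧ ∀ s, g s *ᵥ north (k + 1) = north (k + 1) := by
  have hN' : Gᵀ *ᵥ north (k + 1) = north (k + 1) := by
    nth_rw 1 [← hN]
    rw [mulVec_mulVec, hG.1, one_mulVec]
  have hE : G = pnE (G.submatrix Fin.succ Fin.succ) := by
    ext i j
    have c1 := pn_mulVec_north G i
    have c2 := pn_mulVec_north Gᵀ j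
    rw [hN] at c1
    rw [hN'] at c2
    revert c1 c2
    refine Fin.cases ?_ (fun i' => ?_) i <;> refine Fin.cases ?_ (fun j' => ?_) j
    · intro c1 _
      exact c1.symm
    · intro _ c2
      exact c2.symm
    · intro c1 _
      exact c1.symm
    · intro _ _
      rfl
  have hM : G.submatrix Fin.succ Fin.succ ∈ SOs (Fin (k + 1)) := by
    rw [← pnE_mem, ← hE]
    exact hG
  obtain ⟨γ, hγ, h0, h1, hS⟩ := so_path _ hM
  refine ⟨fun s => pnE (γ s), pnE_cont.comp hγ, ?_, ?_, fun s => pnE_mem.2 (hS s),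
    fun s => pnE_north _⟩
  · show pnE (γ 0) = G
    rw [h0, ← hE]
  · show pnE (γ 1) = 1
    rw [h1, pnE_one]

/-- the parameter of the first homotopy -/
def pnc (u t : I) : I :=
  ⟨(1 - (u : ℝ)) * t + u * max 0 (2 * (t : ℝ) - 1), by
    have h1 : 0 ≤ (1 - (u : ℝ)) * t := mul_nonneg (sub_nonneg.2 u.2.2) t.2.1
    have h2 : 0 ≤ (u : ℝ) * max 0 (2 * (t : ℝ) - 1) := mul_nonneg u.2.1 (le_max_left _ _)
    linarith, by
    have h1 : (1 - (u : ℝ)) * t ≤ (1 - (u : ℝ)) * 1 :=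
      mul_le_mul_of_nonneg_left t.2.2 (sub_nonneg.2 u.2.2)
    have h2 : (u : ℝ) * max 0 (2 * (t : ℝ) - 1) ≤ u * 1 :=
      mul_le_mul_of_nonneg_left (max_le zero_le_one (by linarith [t.2.2])) u.2.1
    linarith⟩

/-- the parameter of the second homotopy -/
def pns (u t : I) : I :=
  ⟨(u : ℝ) * min 1 (max 0 (2 - 4 * (t : ℝ))), 
    mul_nonneg u.2.1 (le_min zero_le_one (le_max_left _ _)),
    mul_le_one₀ u.2.2 (le_min zero_le_one (le_max_left _ _)) (min_le_left _ _)⟩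

theorem pnc_cont : Continuous fun p : I × I => pnc p.1 p.2 := by
  unfold pnc
  refine Continuous.subtype_mk ?_ _
  fun_prop

theorem pns_cont : Continuous fun p : I × I => pns p.1 p.2 := by
  unfold pns
  refine Continuous.subtype_mk ?_ _
  fun_prop

theorem pnc_zero_left (t : I) : pnc 0 t = t := by
  apply Subtype.ext
  simp [pnc]

theorem pnc_zero (u : I) : pnc u 0 = 0 := by
  apply Subtype.ext
  simp [pnc]

theorem pnc_one (u : I) : pnc u 1 = 1 := by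
  apply Subtype.ext
  simp only [pnc, Icc.coe_one]
  rw [show (2 : ℝ) * 1 - 1 = 1 by norm_num, max_eq_right zero_le_one]
  ring

theorem pns_zero_left (t : I) : pns 0 t = 0 := by
  apply Subtype.ext
  simp [pns]

theorem pns_one (u : I) : pns u 1 = 0 := by
  apply Subtype.ext
  simp only [pns, Icc.coe_one, Icc.coe_zero]
  rw [show (2 : ℝ) - 4 * 1 = -2 by norm_num, max_eq_left (by norm_num : (-2 : ℝ) ≤ 0),
    min_eq_right zero_le_one, mul_zero]

/-- values in the sphere, constant at the two ends -/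
def PnP (q : I × Sp k → (Fin (k + 2) → ℝ)) : Prop :=
  (∀ p, q p ∈ US (Fin (k + 2))) ∧ (∀ y y', q (0, y) = q (0, y')) ∧ ∀ y y', q (1, y) = q (1, y')

theorem pn_desc {K0 K1 : I × Sp k → (Fin (k + 2) → ℝ)} (h : HP PnP K0 K1)
    {f g : Sp (k + 1) → (Fin (k + 2) → ℝ)} (hf : ∀ p, f (susp p) = K0 p)
    (hg : ∀ p, g (susp p) = K1 p) : HIn (US (Fin (k + 2))) f g := by
  obtain ⟨H, hH, hP, h0, h1⟩ := h
  obtain ⟨H', hH', he⟩ := descend (Q := I) H hH (fun q y y' => (hP q).2.1 y y')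
    (fun q y y' => (hP q).2.2 y y')
  refine ⟨H', hH', ?_, ?_, ?_⟩
  · intro u x
    obtain ⟨p, rfl⟩ := susp_surj x
    show H' (u, susp p) ∈ _
    rw [he]
    exact (hP u).1 p
  · intro x
    obtain ⟨p, rfl⟩ := susp_surj x
    rw [he, h0, hf]
  · intro x
    obtain ⟨p, rfl⟩ := susp_surj x
    rw [he, h1, hg]

theorem pn_susp_zero (y : Sp k) : susp ((0 : I), y) = ⟨north (k + 1), cone_north_mem (k + 1)⟩ :=
  Subtype.ext (pn_sv_zero y.1)

theorem pn_susp_one (y y' : Sp k) : susp ((1 : I), y) = susp ((1 : I), y') :=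
  Subtype.ext ((pn_sv_one y.1).trans (pn_sv_one y'.1).symm)

theorem pnW_cont : Continuous fun q : I × (I × Sp k) =>
    pnR ((q.2.1 : ℝ) - pnc q.1 q.2.1) q.2.2.1 := by
  have h0 : Continuous fun q : I × (I × Sp k) => ((pnc q.1 q.2.1 : I) : ℝ) :=
    continuous_subtype_val.comp (pnc_cont.comp (continuous_fst.prodMk continuous_snd.fst))
  have h1 : Continuous fun q : I × (I × Sp k) => (q.2.1 : ℝ) :=
    continuous_subtype_val.comp continuous_snd.fst
  have h2 : Continuous fun q : I × (I × Sp k) => q.2.2.1 :=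
    continuous_subtype_val.comp continuous_snd.snd
  have h3 := (h1.sub h0).prodMk h2
  have h4 := (pnR_cont (k := k)).comp h3
  exact h4

theorem pnv_cont : Continuous fun q : I × (I × Sp k) =>
    sv ((1 - (q.1 : ℝ)) * max (q.2.1 : ℝ) (1 - 3 * (q.2.1 : ℝ)) + q.1) q.2.2.1 := by
  have ha : Continuous fun q : I × (I × Sp k) => (q.1 : ℝ) :=
    continuous_subtype_val.comp continuous_fst
  have hb : Continuous fun q : I × (I × Sp k) => (q.2.1 : ℝ) :=
    continuous_subtype_val.comp continuous_snd.fst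
  have hcc : Continuous fun q : I × (I × Sp k) => q.2.2.1 :=
    continuous_subtype_val.comp continuous_snd.snd
  have hd : Continuous fun q : I × (I × Sp k) =>
      (1 - (q.1 : ℝ)) * max (q.2.1 : ℝ) (1 - 3 * (q.2.1 : ℝ)) + q.1 :=
    ((continuous_const.sub ha).mul (hb.max (continuous_const.sub
        (continuous_const.mul hb)))).add ha
  have h3 := (pn_sv_cont (k := k)).comp (hd.prodMk hcc)
  exact h3

end pnaux

theorem pn (k : ℕ) (F : Sp (k + 1) → Matrix (Fin (k + 2)) (Fin (k + 2)) ℝ) (hF : Continuous F)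
    (hS : ∀ x, F x ∈ SOs (Fin (k + 2))) (hfix : ∀ x, F x *ᵥ x.1 = x.1) :
    HIn (US (Fin (k + 2))) (fun x => F x *ᵥ north (k + 1)) (fun _ => north (k + 1)) := by
  obtain ⟨Np, hNp⟩ : ∃ Np : Sp (k + 1), Np = ⟨north (k + 1), cone_north_mem (k + 1)⟩ := ⟨_, rfl⟩
  obtain ⟨So, hSo⟩ : ∃ So : Fin (k + 2) → ℝ, So = -north (k + 1) := ⟨_, rfl⟩
  have hsz : ∀ y : Sp k, susp ((0 : I), y) = Np := fun y => by rw [hNp]; exact pn_susp_zero y
  have hSoU : So ∈ US (Fin (k + 2)) := by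
    show So ⬝ᵥ So = 1
    rw [hSo, neg_dotProduct_neg]
    exact cone_north_mem (k + 1)
  obtain ⟨A0, hA0⟩ : ∃ A0, A0 = F Np := ⟨_, rfl⟩
  have hA0S : A0 ∈ SOs (Fin (k + 2)) := by rw [hA0]; exact hS Np
  obtain ⟨g, hg, hg0, hg1, hgS, hgN⟩ := pn_path A0 hA0S (by
    have := hfix Np
    rw [hA0]
    rw [hNp] at this ⊢
    exact this)
  have hA01 : A0ᵀ * A0 = 1 := hA0S.1
  have hA02 : A0 * A0ᵀ = 1 := mul_eq_one_comm.1 hA0S.1
  -- the rotations
  obtain ⟨W, hWe⟩ : ∃ W : I × (I × Sp k) → Matrix (Fin (k + 2)) (Fin (k + 2)) ℝ,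
      W = fun q => pnR ((q.2.1 : ℝ) - pnc q.1 q.2.1) q.2.2.1 := ⟨_, rfl⟩
  have hWv : ∀ (u t : I) (y : Sp k), W (u, (t, y)) = pnR ((t : ℝ) - pnc u t) y.1 := by
    intro u t y
    rw [hWe]
  have hWc : Continuous W := by
    rw [hWe]
    exact pnW_cont
  have hWS : ∀ q, W q ∈ SOs (Fin (k + 2)) := by
    rintro ⟨u, t, y⟩
    rw [hWv]
    exact pnR_mem _ y.2
  have hW0 : ∀ u y, W (u, (0, y)) = 1 := by
    intro u y
    rw [hWv, pnc_zero, sub_self, pnR_zero y.2]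
  have hW1 : ∀ u y, W (u, (1, y)) = 1 := by
    intro u y
    rw [hWv, pnc_one, sub_self, pnR_zero y.2]
  have hW0l : ∀ t y, W (0, (t, y)) = 1 := by
    intro t y
    rw [hWv, pnc_zero_left, sub_self, pnR_zero y.2]
  have hWap : ∀ (t : I) (y : Sp k), W (1, (t, y)) *ᵥ sv (pnc 1 t : ℝ) y.1 = sv (t : ℝ) y.1 := by
    intro t y
    rw [hWv]
    have e5 := pnR_apply ((t : ℝ) - pnc 1 t) (pnc 1 t : ℝ) y.2
    rwa [add_sub_cancel] at e5
  have hWapT : ∀ (t : I) (y : Sp k), (W (1, (t, y)))ᵀ *ᵥ sv (t : ℝ) y.1 =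
      sv (pnc 1 t : ℝ) y.1 := by
    intro t y
    rw [hWv]
    have := pnR_apply_T ((t : ℝ) - pnc 1 t) (pnc 1 t : ℝ) y.2
    rwa [add_sub_cancel] at this
  clear hWe hWv
  -- the middle
  obtain ⟨Fc, hFce⟩ : ∃ Fc : I × (I × Sp k) → Matrix (Fin (k + 2)) (Fin (k + 2)) ℝ,
      Fc = fun q => F (susp (pnc q.1 q.2.1, q.2.2)) := ⟨_, rfl⟩
  have hFcv : ∀ (u t : I) (y : Sp k), Fc (u, (t, y)) = F (susp (pnc u t, y)) := by
    intro u t y
    rw [hFce]
  have hFcc : Continuous Fc := by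
    rw [hFce]
    refine hF.comp (susp_continuous.comp ?_)
    exact (pnc_cont.comp (continuous_fst.prodMk continuous_snd.fst)).prodMk continuous_snd.snd
  have hFcS : ∀ q, Fc q ∈ SOs (Fin (k + 2)) := by
    rintro ⟨u, t, y⟩
    rw [hFcv]
    exact hS _
  have hFc0 : ∀ u y, Fc (u, (0, y)) = A0 := by
    intro u y
    rw [hFcv, pnc_zero, hsz, hA0]
  have hFc1 : ∀ u y y', Fc (u, (1, y)) = Fc (u, (1, y')) := by
    intro u y y'
    rw [hFcv, hFcv, pnc_one, pn_susp_one y y']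
  have hFc0l : ∀ t y, Fc (0, (t, y)) = F (susp (t, y)) := by
    intro t y
    rw [hFcv, pnc_zero_left]
  have hFcz : ∀ t y, pnc 1 t = 0 → Fc (1, (t, y)) = A0 := by
    intro t y h
    rw [hFcv, h, hsz, hA0]
  have hFcfix : ∀ (t : I) (y : Sp k), Fc (1, (t, y)) *ᵥ sv (pnc 1 t : ℝ) y.1 =
      sv (pnc 1 t : ℝ) y.1 := by
    intro t y
    rw [hFcv]
    exact hfix (susp (pnc 1 t, y))
  clear hFce hFcv
  -- step 1
  obtain ⟨Q1, hQ1e⟩ : ∃ Q1 : I × (I × Sp k) → Matrix (Fin (k + 2)) (Fin (k + 2)) ℝ,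
      Q1 = fun q => W q * Fc q * (W q)ᵀ := ⟨_, rfl⟩
  have hQ1v : ∀ q, Q1 q = W q * Fc q * (W q)ᵀ := fun q => by rw [hQ1e]
  have hQ1c : Continuous Q1 := by
    rw [hQ1e]
    exact (hWc.matrix_mul hFcc).matrix_mul hWc.matrix_transpose
  have hQ1S : ∀ q, Q1 q ∈ SOs (Fin (k + 2)) := fun q => by
    rw [hQ1v]
    exact pn_mul (pn_mul (hWS q) (hFcS q)) (pn_T (hWS q))
  have s1 : HP PnP (fun p : I × Sp k => F (susp p) *ᵥ So) (fun p => Q1 (1, p) *ᵥ So) := by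
    refine ⟨fun q => Q1 q *ᵥ So, hQ1c.matrix_mulVec continuous_const, ?_, ?_, ?_⟩
    · intro u
      refine ⟨fun p => pn_us (hQ1S (u, p)) hSoU, ?_, ?_⟩
      · intro y y'
        show Q1 (u, (0, y)) *ᵥ So = Q1 (u, (0, y')) *ᵥ So
        rw [hQ1v, hQ1v, hW0, hW0, hFc0, hFc0]
      · intro y y'
        show Q1 (u, (1, y)) *ᵥ So = Q1 (u, (1, y')) *ᵥ So
        rw [hQ1v, hQ1v, hW1, hW1, hFc1 u y y']
    · rintro ⟨t, y⟩
      show Q1 (0, (t, y)) *ᵥ So = F (susp (t, y)) *ᵥ So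
      rw [hQ1v, hW0l, hFc0l, transpose_one, Matrix.one_mul, Matrix.mul_one]
    · intro p
      rfl
  -- step 2
  obtain ⟨Q2, hQ2e⟩ : ∃ Q2 : I × (I × Sp k) → Matrix (Fin (k + 2)) (Fin (k + 2)) ℝ,
      Q2 = fun q => W (1, q.2) * (Fc (1, q.2) * A0ᵀ * g (pns q.1 q.2.1)) * (W (1, q.2))ᵀ :=
    ⟨_, rfl⟩
  have hQ2v : ∀ (u t : I) (y : Sp k), Q2 (u, (t, y)) =
      W (1, (t, y)) * (Fc (1, (t, y)) * A0ᵀ * g (pns u t)) * (W (1, (t, y)))ᵀ := by
    intro u t y
    rw [hQ2e]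
  have hQ2c : Continuous Q2 := by
    have h1 : Continuous fun q : I × (I × Sp k) => ((1 : I), q.2) :=
      continuous_const.prodMk continuous_snd
    have h2 : Continuous fun q : I × (I × Sp k) => W (1, q.2) := hWc.comp h1
    have h3 : Continuous fun q : I × (I × Sp k) => Fc (1, q.2) := hFcc.comp h1
    have h4 : Continuous fun q : I × (I × Sp k) => g (pns q.1 q.2.1) :=
      hg.comp (pns_cont.comp (continuous_fst.prodMk continuous_snd.fst))
    rw [hQ2e]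
    exact (h2.matrix_mul ((h3.matrix_mul continuous_const).matrix_mul h4)).matrix_mul
      h2.matrix_transpose
  have hQ2S : ∀ q, Q2 q ∈ SOs (Fin (k + 2)) := by
    rintro ⟨u, t, y⟩
    rw [hQ2v]
    exact pn_mul (pn_mul (hWS (1, (t, y))) (pn_mul (pn_mul (hFcS (1, (t, y))) (pn_T hA0S))
      (hgS (pns u t)))) (pn_T (hWS (1, (t, y))))
  have hQ20 : ∀ u y y', Q2 (u, (0, y)) = Q2 (u, (0, y')) := by
    intro u y y'
    rw [hQ2v, hQ2v, hW0, hW0, hFc0, hFc0]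
  have hQ21 : ∀ u y y', Q2 (u, (1, y)) = Q2 (u, (1, y')) := by
    intro u y y'
    rw [hQ2v, hQ2v, hW1, hW1, hFc1 1 y y']
  have s2 : HP PnP (fun p : I × Sp k => Q1 (1, p) *ᵥ So) (fun p => Q2 (1, p) *ᵥ So) := by
    refine ⟨fun q => Q2 q *ᵥ So, hQ2c.matrix_mulVec continuous_const, ?_, ?_, ?_⟩
    · intro u
      refine ⟨fun p => pn_us (hQ2S (u, p)) hSoU, ?_, ?_⟩
      · intro y y'
        show Q2 (u, (0, y)) *ᵥ So = Q2 (u, (0, y')) *ᵥ So
        rw [hQ20 u y y']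
      · intro y y'
        show Q2 (u, (1, y)) *ᵥ So = Q2 (u, (1, y')) *ᵥ So
        rw [hQ21 u y y']
    · rintro ⟨t, y⟩
      show Q2 (0, (t, y)) *ᵥ So = Q1 (1, (t, y)) *ᵥ So
      rw [hQ2v, hQ1v, pns_zero_left, hg0, Matrix.mul_assoc (Fc (1, (t, y))), hA01,
        Matrix.mul_one]
    · intro p
      rfl
  -- the vector field
  obtain ⟨v, hve⟩ : ∃ v : I × (I × Sp k) → (Fin (k + 2) → ℝ), v = fun q =>
      sv ((1 - (q.1 : ℝ)) * max (q.2.1 : ℝ) (1 - 3 * (q.2.1 : ℝ)) + q.1) q.2.2.1 := ⟨_, rfl⟩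
  have hvv : ∀ (u t : I) (y : Sp k), v (u, (t, y)) =
      sv ((1 - (u : ℝ)) * max (t : ℝ) (1 - 3 * (t : ℝ)) + u) y.1 := by
    intro u t y
    rw [hve]
  have hmc : Continuous v := by
    rw [hve]
    exact pnv_cont
  have hvU : ∀ q, v q ∈ US (Fin (k + 2)) := by
    rintro ⟨u, t, y⟩
    rw [hvv]
    exact sv_mem _ y.2
  have hm0 : ∀ (u : I) (y : Sp k), v (u, (0, y)) = So := by
    intro u y
    have : (1 - (u : ℝ)) * max ((0 : I) : ℝ) (1 - 3 * ((0 : I) : ℝ)) + u = 1 := by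
      rw [Icc.coe_zero, mul_zero, sub_zero, max_eq_right zero_le_one]
      ring
    rw [hvv, this, hSo]
    exact pn_sv_one y.1
  have hm1 : ∀ (u : I) (y : Sp k), v (u, (1, y)) = So := by
    intro u y
    have : (1 - (u : ℝ)) * max ((1 : I) : ℝ) (1 - 3 * ((1 : I) : ℝ)) + u = 1 := by
      rw [Icc.coe_one, max_eq_left (by norm_num : (1 : ℝ) - 3 * 1 ≤ 1)]
      ring
    rw [hvv, this, hSo]
    exact pn_sv_one y.1
  have hv1 : ∀ (t : I) (y : Sp k), v (1, (t, y)) = So := by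
    intro t y
    rw [hvv, Icc.coe_one, sub_self, zero_mul, zero_add, hSo]
    exact pn_sv_one y.1
  have hv0 : ∀ (t : I) (y : Sp k), v (0, (t, y)) = sv (max (t : ℝ) (1 - 3 * (t : ℝ))) y.1 := by
    intro t y
    rw [hvv, Icc.coe_zero, sub_zero, one_mul, add_zero]
  clear hvv hve
  -- step 4
  have s4 : HP PnP (fun p : I × Sp k => v (0, p)) (fun _ => So) := by
    refine ⟨v, hmc, ?_, fun _ => rfl, ?_⟩
    · intro u
      refine ⟨fun p => hvU (u, p), ?_, ?_⟩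
      · intro y y'
        exact (hm0 u y).trans (hm0 u y').symm
      · intro y y'
        exact (hm1 u y).trans (hm1 u y').symm
    · rintro ⟨t, y⟩
      exact hv1 t y
  -- the fixed vectors
  have hfixQ : ∀ p : I × Sp k, Q2 (1, p) *ᵥ v (0, p) = v (0, p) := by
    rintro ⟨t, y⟩
    rw [hQ2v, hv0]
    by_cases h14 : (t : ℝ) ≤ 1 / 4
    · have e1 : pns 1 t = 1 := by
        apply Subtype.ext
        simp only [pns, Icc.coe_one]
        rw [max_eq_right (by linarith : (0 : ℝ) ≤ 2 - 4 * (t : ℝ)),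
          min_eq_left (by linarith : (1 : ℝ) ≤ 2 - 4 * (t : ℝ)), mul_one]
      have e2 : pnc 1 t = 0 := by
        apply Subtype.ext
        simp only [pnc, Icc.coe_one, Icc.coe_zero]
        rw [max_eq_left (by linarith : 2 * (t : ℝ) - 1 ≤ 0)]
        ring
      rw [e1, hg1, hFcz t y e2, Matrix.mul_one, hA02, Matrix.mul_one,
        mul_eq_one_comm.1 (hWS (1, (t, y))).1, one_mulVec]
    · have h14' : 1 / 4 ≤ (t : ℝ) := (not_le.1 h14).le
      rw [max_eq_left (by linarith : 1 - 3 * (t : ℝ) ≤ (t : ℝ))]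
      have e2 : (Fc (1, (t, y)) * A0ᵀ * g (pns 1 t)) *ᵥ sv (pnc 1 t : ℝ) y.1 =
          sv (pnc 1 t : ℝ) y.1 := by
        by_cases h12 : (t : ℝ) ≤ 1 / 2
        · have e3 : pnc 1 t = 0 := by
            apply Subtype.ext
            simp only [pnc, Icc.coe_one, Icc.coe_zero]
            rw [max_eq_left (by linarith : 2 * (t : ℝ) - 1 ≤ 0)]
            ring
          rw [hFcz t y e3, e3, hA02, Matrix.one_mul, Icc.coe_zero, pn_sv_zero, hgN]
        · have e3 : pns 1 t = 0 := by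
            apply Subtype.ext
            simp only [pns, Icc.coe_one, Icc.coe_zero]
            rw [max_eq_left (by linarith [not_le.1 h12] : 2 - 4 * (t : ℝ) ≤ 0),
              min_eq_right zero_le_one, mul_zero]
          rw [e3, hg0, Matrix.mul_assoc, hA01, Matrix.mul_one]
          exact hFcfix t y
      rw [← mulVec_mulVec, hWapT, ← mulVec_mulVec, e2]
      exact hWap t y
  -- step 3
  have s3 : HP PnP (fun p : I × Sp k => v (0, p)) (fun p => Q2 (1, p) *ᵥ So) := by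
    have h1 : Continuous fun q : I × (I × Sp k) => Q2 (1, q.2) :=
      hQ2c.comp (continuous_const.prodMk continuous_snd)
    refine ⟨fun q => Q2 (1, q.2) *ᵥ v q, h1.matrix_mulVec hmc, ?_, ?_, ?_⟩
    · intro u
      refine ⟨fun p => pn_us (hQ2S (1, p)) (hvU (u, p)), ?_, ?_⟩
      · intro y y'
        show Q2 (1, (0, y)) *ᵥ v (u, (0, y)) = Q2 (1, (0, y')) *ᵥ v (u, (0, y'))
        rw [hm0, hm0, hQ20 1 y y']
      · intro y y'
        show Q2 (1, (1, y)) *ᵥ v (u, (1, y)) = Q2 (1, (1, y')) *ᵥ v (u, (1, y'))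
        rw [hm1, hm1, hQ21 1 y y']
    · intro p
      exact hfixQ p
    · rintro ⟨t, y⟩
      show Q2 (1, (t, y)) *ᵥ v (1, (t, y)) = Q2 (1, (t, y)) *ᵥ So
      rw [hv1]
  have hall : HIn (US (Fin (k + 2))) (fun x => F x *ᵥ So) (fun _ => So) :=
    pn_desc (((s1.trans s2).trans s3.symm).trans s4) (fun _ => rfl) (fun _ => rfl)
  have hneg := hall.map' (B := US (Fin (k + 2))) (fun v => -v) continuous_neg (fun v hv => by
    show -v ⬝ᵥ -v = 1
    rw [neg_dotProduct_neg]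
    exact hv)
  have e1 : (fun x => -(F x *ᵥ So)) = fun x => F x *ᵥ north (k + 1) := by
    funext x
    rw [hSo, mulVec_neg, neg_neg]
  have e2 : (fun _ : Sp (k + 1) => -So) = fun _ => north (k + 1) := by
    funext x
    rw [hSo, neg_neg]
  rw [← e1, ← e2]
  exact hneg

end DT
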