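import Pool.Agent.H78.DT.OddStab
import Pool.Agent.H78.DT.PN
import Pool.Agent.H78.DT.NotNull
import Pool.Agent.H78.DT.Cls
import Pool.Agent.H78.DT.Comm

/-!
# `f² ~ 1` for `n = 1 mod 4`, `n ≥ 5` (job DT-SQODD, assembly)

PROOF. `n = m + 1`, `m % 4 = 0`, `m ≥ 4`.  Let `F = f²`: in `SO(n+1)` (`so_mul`), `F x x = x`.  By `odd_stab`
`F ~ refl (h') refl (N)`, `N = north n`.  Apply the homotopy to `N`:
`F x N ~ refl (h' x) (refl N N) = refl (h' x) (-N) = -N + 2 (h'⬝N) h' = gq (h' x)` (`refl_mulVec`,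
`h'⬝h' = 1`, `h'⬝N = h' 0`).  By `pn` `F x N ~ N`, so `gq ∘ h' ~ N` (constant).
By `cls` `h' ~ Zs k m`.
Case `k > 0`: by `zs_pos` `h' ~ nrm (pk k m)`, so `gq (nrm (pk k m x)) ~ N`; and `gq (nrm y) = nrm (gq y)` for
`y ≠ 0` (`gq_smul`, `gq_nr`).  Contradiction to `not_null` with `P = gq ∘ pk k m` and `pk_spec`.
Case `k < 0`: `rl ∘ h' ~ rl (Zs k m) = Zs (-k) m` (`zs_neg`), and `gq (rl y) = rl (gq y)` (`rl` fixes the
coordinate `0`, `N` and the norm, as `m + 1 ≥ 1`), so `gq ∘ (rl ∘ h') = rl (gq ∘ h') ~ rl N = N`: the same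
contradiction for `-k > 0`.
Case `k = 0`: `h' ~ c` (`zs_zero`), so `F ~ refl (h') refl (N) ~ refl (c) refl (N)`, a constant in `SOs`, `~ 1`
(`hin_const`).  (`refl a ∈` orthogonal matrices of determinant `-1`: `refl_mul_self`, `refl_transpose`,
`refl_det`; `a ↦ refl a` is continuous.)
-/

open Matrix Set unitInterval Topology

noncomputable section

namespace DT

theorem sqOdd_gq_mem {N : ℕ} {y : Fin (N + 1) → ℝ} (hy : y ∈ US (Fin (N + 1))) :
    gq y ∈ US (Fin (N + 1)) := by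
  change gq y ⬝ᵥ gq y = 1
  rw [← cone_nr_sq, gq_nr, nr_eq_one hy]
  norm_num

theorem sqOdd_gq_cont {N : ℕ} : Continuous (gq : (Fin (N + 1) → ℝ) → (Fin (N + 1) → ℝ)) := by
  unfold gq
  unfold dotProduct
  fun_prop

theorem sqOdd_gq_nrm {N : ℕ} (y : Fin (N + 1) → ℝ) : gq (nrm y) = nrm (gq y) := by
  unfold nrm
  rw [gq_smul, gq_nr, inv_pow]

theorem sqOdd_aux (m k : ℕ) (hk : 1 ≤ k) (hm : 1 ≤ m) (he : m % 2 = 0)
    (h' : Sp (m + 1) → (Fin (m + 2) → ℝ))
    (H : HIn (US (Fin (m + 2))) h' (fun x => Zs (k : ℤ) m ((), x)))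
    (H2 : HIn (US (Fin (m + 2))) (fun x => gq (h' x)) (fun _ => north (m + 1))) : False := by
  have h1 := H.trans (zs_pos k m hk)
  have h2 := h1.map' (B := US (Fin (m + 2))) gq sqOdd_gq_cont fun y hy => sqOdd_gq_mem hy
  have h3 := h2.symm.trans H2
  have e : (fun x : Sp (m + 1) => gq (nrm (pk k m x.1))) =
      fun x : Sp (m + 1) => nrm (gq (pk k m x.1)) := by
    funext x
    exact sqOdd_gq_nrm _
  rw [e] at h3
  obtain ⟨s1, s2, s3, s4, s5⟩ := pk_spec k m hk hm he
  exact not_null (m + 1) (fun v => gq (pk k m v)) s1 s2 s3 s4 s5 (north (m + 1)) h3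

theorem sqOdd_rl_dot {N : ℕ} (v w : Fin (N + 1) → ℝ) : rl v ⬝ᵥ rl w = v ⬝ᵥ w := by
  unfold dotProduct rl
  refine Finset.sum_congr rfl fun i _ => ?_
  by_cases h : i = Fin.last N
  · simp [h]
  · simp [h]

theorem sqOdd_rl_cont {N : ℕ} : Continuous (rl : (Fin (N + 1) → ℝ) → (Fin (N + 1) → ℝ)) := by
  refine continuous_pi fun i => ?_
  unfold rl
  by_cases h : i = Fin.last N
  · simp only [h, if_true]
    fun_prop
  · simp only [h, if_false]
    fun_prop

theorem sqOdd_rl_zero {N : ℕ} (v : Fin (N + 2) → ℝ) : rl v 0 = v 0 := by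
  unfold rl
  rw [if_neg (Fin.last_pos.ne)]

theorem sqOdd_rl_north {N : ℕ} : rl (north (N + 1)) = north (N + 1) := by
  funext i
  unfold rl
  by_cases h : i = Fin.last (N + 1)
  · rw [if_pos h, h]
    have : (Fin.last (N + 1)) = (Fin.last N).succ := rfl
    rw [this]
    unfold north
    simp
  · rw [if_neg h]

theorem sqOdd_gq_rl {N : ℕ} (y : Fin (N + 2) → ℝ) : gq (rl y) = rl (gq y) := by
  have e : ∀ (a b : ℝ) (v w : Fin (N + 2) → ℝ), rl (a • v - b • w) = a • rl v - b • rl w := by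
    intro a b v w
    funext i
    unfold rl
    by_cases h : i = Fin.last (N + 1)
    · simp [h]
      ring
    · simp [h]
  unfold gq
  rw [e, sqOdd_rl_zero, sqOdd_rl_dot, sqOdd_rl_north]

theorem sqOdd_north_mem (n : ℕ) : north n ∈ US (Fin (n + 1)) := cone_north_mem n

theorem sqOdd_dot_north {n : ℕ} (v : Fin (n + 1) → ℝ) : v ⬝ᵥ north n = v 0 := by
  unfold dotProduct north
  rw [Fin.sum_univ_succ]
  simp

theorem sqOdd_refl {n : ℕ} {a : Fin (n + 1) → ℝ} (ha : a ∈ US (Fin (n + 1))) :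
    (refl a * refl (north n)) *ᵥ north n = gq a := by
  have hN : north n ⬝ᵥ north n = 1 := sqOdd_north_mem n
  have ha' : a ⬝ᵥ a = 1 := ha
  rw [← mulVec_mulVec, refl_mulVec (north n), hN, refl_mulVec]
  unfold gq
  rw [ha']
  have e : north n - (2 * 1 : ℝ) • north n = -north n := by
    funext i
    simp
    ring
  rw [e, dotProduct_neg, sqOdd_dot_north]
  funext i
  simp
  ring

theorem sqOdd_refl_cont {n : ℕ} :
    Continuous (refl : (Fin (n + 1) → ℝ) → Matrix (Fin (n + 1)) (Fin (n + 1)) ℝ) := by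
  refine continuous_matrix fun i j => ?_
  unfold refl
  simp only [Matrix.sub_apply, Matrix.smul_apply, vecMulVec_apply]
  fun_prop

theorem sqOdd_refl_mem {n : ℕ} {a b : Fin (n + 1) → ℝ} (ha : a ∈ US (Fin (n + 1)))
    (hb : b ∈ US (Fin (n + 1))) : refl a * refl b ∈ SOs (Fin (n + 1)) := by
  refine ⟨?_, ?_⟩
  · rw [transpose_mul, refl_transpose, refl_transpose, Matrix.mul_assoc,
      ← Matrix.mul_assoc (refl a), refl_mul_self ha, Matrix.one_mul, refl_mul_self hb]
  · rw [det_mul, refl_det ha, refl_det hb]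
    norm_num

theorem sq_odd (n : ℕ) (hn : n % 4 = 1) (h5 : 5 ≤ n)
    (f : Sp n → Matrix (Fin (n + 1)) (Fin (n + 1)) ℝ) (hf : Continuous f)
    (hS : ∀ x, f x ∈ SOs (Fin (n + 1))) (hfix : ∀ x, f x *ᵥ x.1 = x.1) :
    HIn (SOs (Fin (n + 1))) (fun x => f x * f x) (fun _ => 1) := by
  obtain ⟨m, rfl⟩ : ∃ m, n = m + 1 := ⟨n - 1, by omega⟩
  obtain ⟨h', hc, hU, hh⟩ := odd_stab (m + 1) hn f hf hS
  have hF : Continuous fun x => f x * f x := hf.matrix_mul hf
  have hFS : ∀ x, f x * f x ∈ SOs (Fin (m + 1 + 1)) := fun x => so_mul (hS x) (hS x)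
  have hFf : ∀ x, (f x * f x) *ᵥ x.1 = x.1 := fun x => by
    rw [← mulVec_mulVec, hfix, hfix]
  have h1 : HIn (US (Fin (m + 2))) (fun x => (f x * f x) *ᵥ north (m + 1))
      (fun x => gq (h' x)) := by
    have h := hh.map' (B := US (Fin (m + 2))) (fun M => M *ᵥ north (m + 1))
      (continuous_id.matrix_mulVec continuous_const) (by
        intro M hM
        change (M *ᵥ north (m + 1)) ⬝ᵥ (M *ᵥ north (m + 1)) = 1
        rw [dotProduct_mulVec, vecMul_mulVec, hM.1, Matrix.vecMul_one]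
        exact sqOdd_north_mem _)
    have e : (fun x => (refl (h' x) * refl (north (m + 1))) *ᵥ north (m + 1)) =
        fun x => gq (h' x) := by
      funext x
      exact sqOdd_refl (hU x)
    rw [e] at h
    exact h
  have h2 := h1.symm.trans (pn m _ hF hFS hFf)
  obtain ⟨k, hk⟩ := cls m h' hc hU
  rcases lt_trichotomy k 0 with hk0 | hk0 | hk0
  · exfalso
    obtain ⟨k', hk'⟩ : ∃ k' : ℕ, (k' : ℤ) = -k := ⟨(-k).toNat, by omega⟩
    refine sqOdd_aux m k' (by omega) (by omega) (by omega) (fun x => rl (h' x)) ?_ ?_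
    · have h := hk.map' (B := US (Fin (m + 2))) rl sqOdd_rl_cont (by
        intro y hy
        change rl y ⬝ᵥ rl y = 1
        rw [sqOdd_rl_dot]
        exact hy)
      have e : (fun x => rl (Zs k m ((), x))) = fun x => Zs (k' : ℤ) m ((), x) := by
        funext x
        rw [hk', zs_neg]
      rw [e] at h
      exact h
    · have h := h2.map' (B := US (Fin (m + 2))) rl sqOdd_rl_cont (by
        intro y hy
        change rl y ⬝ᵥ rl y = 1
        rw [sqOdd_rl_dot]
        exact hy)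
      have e : (fun x => rl (gq (h' x))) = fun x => gq (rl (h' x)) := by
        funext x
        rw [sqOdd_gq_rl]
      rw [e, sqOdd_rl_north] at h
      exact h
  · subst hk0
    obtain ⟨c, hcU, hcH⟩ := zs_zero m
    have h3 := hk.trans hcH
    have h4 : HIn (SOs (Fin (m + 2))) (fun x => refl (h' x) * refl (north (m + 1)))
        (fun _ => refl c * refl (north (m + 1))) :=
      h3.map' (fun a => refl a * refl (north (m + 1)))
        (sqOdd_refl_cont.matrix_mul continuous_const)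
        (fun y hy => sqOdd_refl_mem hy (sqOdd_north_mem _))
    exact (hh.trans h4).trans (hin_const _ (sqOdd_refl_mem hcU (sqOdd_north_mem _)))
  · exfalso
    obtain ⟨k', hk'⟩ : ∃ k' : ℕ, (k' : ℤ) = k := ⟨k.toNat, by omega⟩
    subst hk'
    exact sqOdd_aux m k' (by omega) (by omega) (by omega) h' hk h2

end DT
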