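import Pool.Agent.H78.DT.HMain
import Pool.Agent.H78.DT.SqEven
import Pool.Agent.H78.DT.SqOdd

/-!
# The homotopy of vertical derivatives in all dimensions not congruent to 3 modulo 4
-/

open Matrix Set unitInterval Topology

noncomputable section

namespace DT

theorem h_all (n : ℕ) (hn : 1 ≤ n) (h3 : n % 4 ≠ 3)
    (C : Sp n → Matrix (Fin (n + 1)) (Fin (n + 1)) ℝ) (hC : Continuous C) (hv : VD n C) :
    HP (VD n) (fun x => C x * C x) (fun _ => 1) := by
  rcases Nat.lt_or_ge n 2 with h2 | h2
  · obtain rfl : n = 1 := by omega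
    exact h_one C hC hv
  · rcases Nat.mod_two_eq_zero_or_one n with he | ho
    · exact h_main n h2 (fun B hB hS _ => sq_even n he h2 B hB hS) C hC hv
    · have h1 : n % 4 = 1 := by omega
      have h5 : 5 ≤ n := by omega
      exact h_main n h2 (fun B hB hS hf => sq_odd n h1 h5 B hB hS hf) C hC hv

end DT
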