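import Pool.Agent.H78.DT.SecPath
import Pool.Agent.H78.DT.Comm
import Pool.Agent.H78.DT.GlPath

/-!
# The homotopy of vertical derivatives (job DT-HMAIN)

`h_main`: let `C x` be invertible matrices of positive determinant fixing `x`, and whose
transposes fix `x`, `x ∈ Sⁿ`.  Suppose that `B² ~ 1` in `SO(n+1)` for every continuous `B : Sp n → SO(n+1)`
with `B x x = x`.  Then `C²` is homotopic to `1` through such families.
PROOF. `exists_polar` (`X = Sp n`) gives `H (u,x)` from `C` to `B` orthogonal, `H (u,x)` invertible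
fixing `x`, and its transpose too.  `det H (u,x) ≠ 0` depends continuously on `u` and is positive at
`u = 0`, so positive; so `B x ∈ SOs`.  `H (u,x)²` is a homotopy of the required kind from
`C²` to `B²`.  By `hyp` and `sec_path` applied to `f = B²` (`B² x = x`, in `SOs`), `B²` is homotopic
to `1` through maps `q` in `SOs` with `q x x = x`, so `(q x)ᵀ x = (q x)ᵀ (q x) x = x` and
`det = 1 > 0` (`HP.mono`, `HP.trans`).
`h_one`: `n = 1`.  PROOF. The straight line `(1-t) C x + t` works: it fixes `x`, its transpose fixes `x`;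
in dimension two such a matrix preserves `ℝx` and the orthogonal complement and its determinant
is `(1-t) c + t` with `c = det C x > 0`: explicitly, `C x = x xᵀ + c (x) (1 - x xᵀ)`.
Square it as above: for the path `q (t,x) = ((1-t) C x + t)²` the determinant is a square of a
positive number.
-/

open Matrix Set unitInterval Topology

noncomputable section

namespace DT

/-- Matrix valued maps `q` on the sphere such that `q x` has positive determinant, fixes `x`, and
its transpose fixes `x`. -/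
def VD (n : ℕ) (q : Sp n → Matrix (Fin (n + 1)) (Fin (n + 1)) ℝ) : Prop :=
  ∀ x, 0 < (q x).det ∧ q x *ᵥ x.1 = x.1 ∧ (q x)ᵀ *ᵥ x.1 = x.1

theorem hMain_pos {f : I → ℝ} (hf : Continuous f) (h : ∀ u, f u ≠ 0) (h0 : 0 < f 0) (u : I) :
    0 < f u := by
  by_contra hc
  obtain ⟨v, hv⟩ := mem_range_of_exists_le_of_exists_ge hf ⟨u, not_lt.1 hc⟩ ⟨0, h0.le⟩
  exact h v hv

theorem hMain_sq {n : ℕ} {M : Matrix (Fin (n + 1)) (Fin (n + 1)) ℝ} {x : Fin (n + 1) → ℝ}
    (h : M.det ≠ 0) (h1 : M *ᵥ x = x) (h2 : Mᵀ *ᵥ x = x) :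
    0 < (M * M).det ∧ (M * M) *ᵥ x = x ∧ (M * M)ᵀ *ᵥ x = x := by
  refine ⟨?_, ?_, ?_⟩
  · rw [det_mul]
    exact mul_self_pos.2 h
  · rw [← mulVec_mulVec, h1, h1]
  · rw [transpose_mul, ← mulVec_mulVec, h2, h2]

theorem h_main (n : ℕ) (hn : 2 ≤ n)
    (hyp : ∀ B : Sp n → Matrix (Fin (n + 1)) (Fin (n + 1)) ℝ, Continuous B →
      (∀ x, B x ∈ SOs (Fin (n + 1))) → (∀ x, B x *ᵥ x.1 = x.1) →
      HIn (SOs (Fin (n + 1))) (fun x => B x * B x) (fun _ => 1))
    (C : Sp n → Matrix (Fin (n + 1)) (Fin (n + 1)) ℝ) (hC : Continuous C) (hv : VD n C) :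
    HP (VD n) (fun x => C x * C x) (fun _ => 1) := by
  obtain ⟨H, hH, hH0, hHU, hH1, -, hHv⟩ := exists_polar (X := Sp n) C hC (fun x => by
    rw [Matrix.isUnit_iff_isUnit_det, isUnit_iff_ne_zero]
    exact (hv x).1.ne')
  have hne : ∀ p, (H p).det ≠ 0 := fun p =>
    ((Matrix.isUnit_iff_isUnit_det _).1 (hHU p)).ne_zero
  have hfx : ∀ u x, H (u, x) *ᵥ x.1 = x.1 ∧ (H (u, x))ᵀ *ᵥ x.1 = x.1 := fun u x =>
    hHv x x.1 (hv x).2.1 (hv x).2.2 u
  have hpos : ∀ u x, 0 < (H (u, x)).det := fun u x =>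
    hMain_pos (f := fun u => (H (u, x)).det)
      (hH.comp (continuous_id.prodMk continuous_const)).matrix_det (fun u => hne _)
      (by simp only [hH0]; exact (hv x).1) u
  have hB : Continuous fun x => H (1, x) := hH.comp (continuous_const.prodMk continuous_id)
  have hBS : ∀ x, H (1, x) ∈ SOs (Fin (n + 1)) := by
    intro x
    refine ⟨hH1 x, ?_⟩
    have h2 := congrArg Matrix.det (hH1 x)
    rw [det_mul, det_transpose, det_one] at h2
    have := hpos 1 x
    nlinarith
  have step1 : HP (VD n) (fun x => C x * C x) (fun x => H (1, x) * H (1, x)) := by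
    refine ⟨fun p => H p * H p, hH.matrix_mul hH, fun u x => ?_, fun x => ?_, fun x => rfl⟩
    · exact hMain_sq (hne _) (hfx u x).1 (hfx u x).2
    · simp only [hH0]
  have step2 := sec_path n hn (fun x => H (1, x) * H (1, x))
    (fun x => by rw [← mulVec_mulVec, (hfx 1 x).1, (hfx 1 x).1])
    (hyp _ hB hBS fun x => (hfx 1 x).1)
  refine step1.trans (step2.mono ?_)
  intro q hq x
  obtain ⟨h1, h2⟩ := hq x
  refine ⟨by rw [h1.2]; exact one_pos, h2, ?_⟩
  conv_lhs => rw [← h2]
  rw [mulVec_mulVec, h1.1, one_mulVec]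

theorem h_one (C : Sp 1 → Matrix (Fin 2) (Fin 2) ℝ) (hC : Continuous C) (hv : VD 1 C) :
    HP (VD 1) (fun x => C x * C x) (fun _ => 1) := by
  have hfix : ∀ (t : ℝ) (x : Sp 1),
      ((1 - t) • C x + t • (1 : Matrix (Fin 2) (Fin 2) ℝ)) *ᵥ x.1 = x.1 := by
    intro t x
    rw [add_mulVec, smul_mulVec, smul_mulVec, one_mulVec, (hv x).2.1, ← add_smul,
      sub_add_cancel, one_smul]
  have hfix' : ∀ (t : ℝ) (x : Sp 1),
      ((1 - t) • C x + t • (1 : Matrix (Fin 2) (Fin 2) ℝ))ᵀ *ᵥ x.1 = x.1 := by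
    intro t x
    rw [transpose_add, transpose_smul, transpose_smul, transpose_one, add_mulVec, smul_mulVec,
      smul_mulVec, one_mulVec, (hv x).2.2, ← add_smul, sub_add_cancel, one_smul]
  have htr : ∀ x : Sp 1, C x 0 0 + C x 1 1 = 1 + (C x).det := by
    intro x
    have h0 : (C x - 1).det = 0 := by
      rw [← exists_mulVec_eq_zero_iff]
      refine ⟨x.1, ?_, ?_⟩
      · intro h
        have hx : x.1 ⬝ᵥ x.1 = 1 := x.2
        rw [h, dotProduct_zero] at hx
        exact zero_ne_one hx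
      · rw [sub_mulVec, one_mulVec, (hv x).2.1, sub_self]
    rw [det_fin_two] at h0 ⊢
    simp only [Matrix.sub_apply, Matrix.one_apply_eq, Matrix.one_apply_ne (zero_ne_one : (0 : Fin 2) ≠ 1),
      Matrix.one_apply_ne (one_ne_zero : (1 : Fin 2) ≠ 0)] at h0
    linarith
  have hdet : ∀ (t : I) (x : Sp 1),
      ((1 - (t : ℝ)) • C x + (t : ℝ) • (1 : Matrix (Fin 2) (Fin 2) ℝ)).det ≠ 0 := by
    intro t x
    have e : ((1 - (t : ℝ)) • C x + (t : ℝ) • (1 : Matrix (Fin 2) (Fin 2) ℝ)).det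
        = (1 - (t : ℝ)) * (C x).det + t := by
      have h1 := htr x
      rw [det_fin_two] at h1 ⊢
      rw [det_fin_two]
      simp only [Matrix.add_apply, Matrix.smul_apply, smul_eq_mul, Matrix.one_apply_eq,
        Matrix.one_apply_ne (zero_ne_one : (0 : Fin 2) ≠ 1),
        Matrix.one_apply_ne (one_ne_zero : (1 : Fin 2) ≠ 0)]
      linear_combination (1 - (t : ℝ)) * (t : ℝ) * h1
    rw [e]
    have t0 := t.2.1
    have t1 := t.2.2
    have hd := (hv x).1
    rcases t0.lt_or_eq with h | h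
    · have := mul_nonneg (sub_nonneg.2 t1) hd.le
      linarith
    · rw [← h, sub_zero, one_mul, add_zero]
      exact hd.ne'
  refine ⟨fun p => ((1 - (p.1 : ℝ)) • C p.2 + (p.1 : ℝ) • (1 : Matrix (Fin 2) (Fin 2) ℝ)) *
    ((1 - (p.1 : ℝ)) • C p.2 + (p.1 : ℝ) • (1 : Matrix (Fin 2) (Fin 2) ℝ)), ?_, ?_, ?_, ?_⟩
  · have h1 : Continuous fun p : I × Sp 1 => C p.2 := hC.comp continuous_snd
    have h2 : Continuous fun p : I × Sp 1 => (p.1 : ℝ) := continuous_subtype_val.comp continuous_fst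
    have h3 : Continuous fun p : I × Sp 1 =>
        (1 - (p.1 : ℝ)) • C p.2 + (p.1 : ℝ) • (1 : Matrix (Fin 2) (Fin 2) ℝ) :=
      ((continuous_const.sub h2).smul h1).add (h2.smul continuous_const)
    exact h3.matrix_mul h3
  · intro u x
    exact hMain_sq (hdet u x) (hfix _ x) (hfix' _ x)
  · intro x
    simp only [Icc.coe_zero, sub_zero, one_smul, zero_smul, add_zero]
  · intro x
    simp only [Icc.coe_one, sub_self, zero_smul, one_smul, zero_add, Matrix.mul_one]

end DT
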