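import Pool.Agent.H78.DT.Bott0
import Pool.Agent.H78.DT.Sq

/-!
# Transport of nondegenerate symmetric forms (job DT-TLF)

`γ (u, z)` is a continuous family of invertible symmetric matrices anticommuting with the
generators `e i`.  There is a continuous family `g (u, z)` of invertible matrices commuting with
the `e i`, with `g (0, z) = 1` and `gᵀ γ g = γ (0, z)`.

PROOF. Let `(U, sq)` be as in `exists_sqrt ι`.  The function
`(u, v, z) ↦ γ(v,z)⁻¹ γ(u,z)` is continuous on the compact space `I × I × Z` and equals `1` for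
`u = v`; so there is `n ≥ 1` such that `γ(v,z)⁻¹ γ(u,z) ∈ U` whenever `|u - v| ≤ 1/n`
(the set of `(u,v,z)` where it is in `U` is open and contains the compact diagonal
`{u = v}`; use uniform continuity or the Lebesgue number lemma: the complement is compact and
`|u - v|` has a positive minimum on it).
For such `u, v` put `s(u,v,z) = sq (γ(v,z)⁻¹ γ(u,z))`.  With `M = γ_v⁻¹ γ_u` one has
`Mᵀ γ_v = γ_u γ_v⁻¹ γ_v = γ_u = γ_v M`, so by the property of `sq` with `Q = γ_v`: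
`sᵀ γ_v = γ_v s`, hence `sᵀ γ_v s = γ_v s² = γ_v M = γ_u`.  `M` commutes with `e i` (both factors
anticommute; the inverse anticommutes too), hence so does `s`.
Let `c_j(v) = min v (j/n)`, `j = 0..n`; `c_0 = 0`, `c_n(v) = v`, `|c_{j+1}(v) - c_j(v)| ≤ 1/n`.
Define `g(v,z) = s(c_{n-1}(v), c_n(v), z) ⋯ s(c_1(v), c_2(v), z) s(c_0(v), c_1(v), z)`
(product of `n` factors, the factor with the largest index on the left).
It is continuous, `g(0,z) = 1` (all `c_j(0) = 0` and `s(0,0,z) = sq 1 = 1`), commutes with `e i`,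
is invertible, and telescopes: by induction on `j`, with `g_j` the product of the first `j`
factors, `g_jᵀ γ(c_j(v)) g_j = γ(0)` because
`g_{j+1}ᵀ γ(c_{j+1}) g_{j+1} = g_jᵀ sᵀ γ(c_{j+1}) s g_j = g_jᵀ γ(c_j) g_j`.
If `γ(·, z)` is constant then all `M = 1`, `s = 1`, `g = 1`.
-/

open Matrix Set unitInterval Topology

noncomputable section

namespace DT

section tlf

variable {ε ι Z : Type} [Fintype ι] [DecidableEq ι]

theorem Tlf_inv_anti {e : ε → Matrix ι ι ℝ} {A : Matrix ι ι ℝ} (hA : A ∈ SymX e) (i : ε) :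
    A⁻¹ * e i = -(e i * A⁻¹) := by
  have hu : IsUnit A.det := (Matrix.isUnit_iff_isUnit_det A).1 hA.2
  have h1 : A⁻¹ * A = 1 := Matrix.nonsing_inv_mul A hu
  have h2 : A * A⁻¹ = 1 := Matrix.mul_nonsing_inv A hu
  have h3 := hA.1.2 i
  calc A⁻¹ * e i = A⁻¹ * (e i * A) * A⁻¹ := by
        rw [Matrix.mul_assoc, Matrix.mul_assoc (e i), h2, Matrix.mul_one]
    _ = A⁻¹ * (-(A * e i)) * A⁻¹ := by rw [h3, neg_neg]
    _ = -((A⁻¹ * A) * e i * A⁻¹) := by
        rw [Matrix.mul_neg, Matrix.neg_mul, Matrix.mul_assoc, Matrix.mul_assoc, Matrix.mul_assoc]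
        rw [Matrix.mul_assoc]
    _ = -(e i * A⁻¹) := by rw [h1, Matrix.one_mul]

/-- the transition matrices -/
def TlfM (γ : I × Z → Matrix ι ι ℝ) (u v : I) (z : Z) : Matrix ι ι ℝ :=
  (γ (v, z))⁻¹ * γ (u, z)

theorem TlfM_self {e : ε → Matrix ι ι ℝ} {γ : I × Z → Matrix ι ι ℝ} (hS : ∀ p, γ p ∈ SymX e)
    (u : I) (z : Z) : TlfM γ u u z = 1 :=
  Matrix.nonsing_inv_mul _ ((Matrix.isUnit_iff_isUnit_det _).1 (hS _).2)

theorem TlfM_comm {e : ε → Matrix ι ι ℝ} {γ : I × Z → Matrix ι ι ℝ} (hS : ∀ p, γ p ∈ SymX e)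
    (u v : I) (z : Z) (i : ε) : e i * TlfM γ u v z = TlfM γ u v z * e i := by
  have h1 := Tlf_inv_anti (hS (v, z)) i
  have h2 := (hS (u, z)).1.2 i
  unfold TlfM
  calc e i * ((γ (v, z))⁻¹ * γ (u, z)) = (e i * (γ (v, z))⁻¹) * γ (u, z) :=
        (Matrix.mul_assoc _ _ _).symm
    _ = (-((γ (v, z))⁻¹ * e i)) * γ (u, z) := by rw [h1, neg_neg]
    _ = (γ (v, z))⁻¹ * (-(e i * γ (u, z))) := by
        rw [Matrix.neg_mul, Matrix.mul_neg, Matrix.mul_assoc]
    _ = (γ (v, z))⁻¹ * (γ (u, z) * e i) := by rw [h2]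
    _ = _ := (Matrix.mul_assoc _ _ _).symm

theorem TlfM_form {e : ε → Matrix ι ι ℝ} {γ : I × Z → Matrix ι ι ℝ} (hS : ∀ p, γ p ∈ SymX e)
    (u v : I) (z : Z) : γ (v, z) * TlfM γ u v z = γ (u, z) := by
  have hu : IsUnit (γ (v, z)).det := (Matrix.isUnit_iff_isUnit_det _).1 (hS (v, z)).2
  unfold TlfM
  rw [← Matrix.mul_assoc, Matrix.mul_nonsing_inv _ hu, Matrix.one_mul]

theorem TlfM_trans {e : ε → Matrix ι ι ℝ} {γ : I × Z → Matrix ι ι ℝ} (hS : ∀ p, γ p ∈ SymX e)
    (u v : I) (z : Z) : (TlfM γ u v z)ᵀ * γ (v, z) = γ (v, z) * TlfM γ u v z := by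
  have h1 : (γ (v, z))ᵀ = γ (v, z) := (hS (v, z)).1.1
  have h2 : (γ (u, z))ᵀ = γ (u, z) := (hS (u, z)).1.1
  have h3 := TlfM_form hS u v z
  have h4 : (γ (v, z) * TlfM γ u v z)ᵀ = γ (u, z) := by rw [h3, h2]
  rw [Matrix.transpose_mul, h1] at h4
  rw [h4, h3]

theorem TlfM_cont [TopologicalSpace Z] {e : ε → Matrix ι ι ℝ} {γ : I × Z → Matrix ι ι ℝ}
    (hγ : Continuous γ) (hS : ∀ p, γ p ∈ SymX e) :
    Continuous fun p : I × I × Z => TlfM γ p.1 p.2.1 p.2.2 := by
  have hinv : Continuous fun p : I × Z => (γ p)⁻¹ := by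
    have h : (fun p : I × Z => (γ p)⁻¹) = fun p => ((γ p).det)⁻¹ • (γ p).adjugate := by
      funext p
      rw [Matrix.inv_def, Ring.inverse_eq_inv']
    rw [h]
    refine Continuous.smul (Continuous.inv₀ hγ.matrix_det ?_) hγ.matrix_adjugate
    intro p
    exact ((Matrix.isUnit_iff_isUnit_det _).1 (hS p).2).ne_zero
  have h1 : Continuous fun p : I × I × Z => (γ (p.2.1, p.2.2))⁻¹ :=
    hinv.comp (continuous_snd.fst.prodMk continuous_snd.snd)
  have h2 : Continuous fun p : I × I × Z => γ (p.1, p.2.2) :=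
    hγ.comp (continuous_fst.prodMk continuous_snd.snd)
  exact h1.matrix_mul h2

theorem Tlf_unif [TopologicalSpace Z] [CompactSpace Z] {e : ε → Matrix ι ι ℝ}
    {γ : I × Z → Matrix ι ι ℝ}
    (hγ : Continuous γ) (hS : ∀ p, γ p ∈ SymX e) (U : Set (Matrix ι ι ℝ)) (hU : IsOpen U)
    (h1U : (1 : Matrix ι ι ℝ) ∈ U) :
    ∃ n : ℕ, 0 < n ∧ ∀ u v : I, ∀ z, |(u : ℝ) - v| ≤ 1 / (n : ℝ) → TlfM γ u v z ∈ U := by
  set K : Set (I × I × Z) := (fun p : I × I × Z => TlfM γ p.1 p.2.1 p.2.2) ⁻¹' Uᶜ with hK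
  have hKc : IsCompact K := (hU.isClosed_compl.preimage (TlfM_cont hγ hS)).isCompact
  have key : ∃ δ : ℝ, 0 < δ ∧ ∀ u v : I, ∀ z, |(u : ℝ) - v| < δ → TlfM γ u v z ∈ U := by
    rcases K.eq_empty_or_nonempty with hE | hne
    · refine ⟨1, one_pos, fun u v z _ => ?_⟩
      by_contra hc
      have : (u, v, z) ∈ K := hc
      rw [hE] at this
      exact this
    · have hcf : Continuous fun p : I × I × Z => |(p.1 : ℝ) - p.2.1| :=
        ((continuous_subtype_val.comp continuous_fst).sub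
          (continuous_subtype_val.comp continuous_snd.fst)).abs
      obtain ⟨q, hq, hmin⟩ := hKc.exists_isMinOn hne hcf.continuousOn
      refine ⟨|(q.1 : ℝ) - q.2.1|, ?_, ?_⟩
      · refine abs_pos.2 (sub_ne_zero.2 fun h => ?_)
        have h' : q.1 = q.2.1 := Subtype.ext h
        have hq2 : TlfM γ q.1 q.2.1 q.2.2 ∉ U := hq
        rw [← h', TlfM_self hS] at hq2
        exact hq2 h1U
      · intro u v z huv
        by_contra hc
        have h3 : (u, v, z) ∈ K := hc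
        have h4 := hmin h3
        have h5 : |(q.1 : ℝ) - q.2.1| ≤ |(u : ℝ) - v| := h4
        exact absurd huv (not_lt.2 h5)
  obtain ⟨δ, hδ, h⟩ := key
  obtain ⟨n, hn⟩ := exists_nat_one_div_lt hδ
  refine ⟨n + 1, Nat.succ_pos n, fun u v z huv => h u v z (lt_of_le_of_lt huv ?_)⟩
  push_cast
  exact hn

/-- the subdivision -/
def Tlfc (n j : ℕ) (v : I) : I :=
  ⟨min (v : ℝ) ((j : ℝ) / n), le_min v.2.1 (by positivity), (min_le_left _ _).trans v.2.2⟩

theorem Tlfc_zero (n : ℕ) (v : I) : Tlfc n 0 v = 0 := by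
  apply Subtype.ext
  show min (v : ℝ) (((0 : ℕ) : ℝ) / n) = 0
  rw [Nat.cast_zero, zero_div]
  exact min_eq_right v.2.1

theorem Tlfc_at_zero (n j : ℕ) : Tlfc n j 0 = 0 := by
  apply Subtype.ext
  show min (0 : ℝ) ((j : ℝ) / n) = 0
  exact min_eq_left (by positivity)

theorem Tlfc_last (n : ℕ) (hn : 0 < n) (v : I) : Tlfc n n v = v := by
  apply Subtype.ext
  show min (v : ℝ) ((n : ℝ) / n) = v
  rw [div_self (by exact_mod_cast hn.ne')]
  exact min_eq_left v.2.2

theorem Tlfc_cont (n j : ℕ) : Continuous (Tlfc n j) :=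
  Continuous.subtype_mk (continuous_subtype_val.min continuous_const) _

theorem Tlfc_step (n : ℕ) (j : ℕ) (v : I) :
    |(Tlfc n j v : ℝ) - Tlfc n (j + 1) v| ≤ 1 / (n : ℝ) := by
  show |min (v : ℝ) ((j : ℝ) / n) - min (v : ℝ) (((j + 1 : ℕ) : ℝ) / n)| ≤ 1 / (n : ℝ)
  refine (abs_min_sub_min_le_max _ _ _ _).trans ?_
  rw [sub_self, abs_zero]
  refine max_le (by positivity) ?_
  rw [← sub_div, Nat.cast_add, Nat.cast_one, show (j : ℝ) - (j + 1) = -1 by ring, abs_div,
    abs_neg, abs_one, Nat.abs_cast]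

/-- the products -/
def Tlfg (sq : Matrix ι ι ℝ → Matrix ι ι ℝ) (γ : I × Z → Matrix ι ι ℝ) (n : ℕ) :
    ℕ → I × Z → Matrix ι ι ℝ
  | 0, _ => 1
  | j + 1, p => sq (TlfM γ (Tlfc n j p.1) (Tlfc n (j + 1) p.1) p.2) * Tlfg sq γ n j p

end tlf

theorem transport_form {ε ι Z : Type} [Fintype ι] [DecidableEq ι] [TopologicalSpace Z]
    [CompactSpace Z] (e : ε → Matrix ι ι ℝ) (γ : I × Z → Matrix ι ι ℝ) (hγ : Continuous γ)
    (hS : ∀ p, γ p ∈ SymX e) :
    ∃ g : I × Z → Matrix ι ι ℝ, Continuous g ∧ (∀ z, g (0, z) = 1) ∧ (∀ p, IsUnit (g p)) ∧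
      (∀ p i, g p * e i = e i * g p) ∧
      (∀ u z, (g (u, z))ᵀ * γ (u, z) * g (u, z) = γ (0, z)) ∧
      (∀ z, (∀ u, γ (u, z) = γ (0, z)) → ∀ u, g (u, z) = 1) := by
  obtain ⟨U, sq, hUo, h1U, hsqc, hsq1, hsq⟩ := exists_sqrt ι
  obtain ⟨n, hn, hM⟩ := Tlf_unif hγ hS U hUo h1U
  have hstep : ∀ j (p : I × Z), TlfM γ (Tlfc n j p.1) (Tlfc n (j + 1) p.1) p.2 ∈ U :=
    fun j p => hM _ _ _ (Tlfc_step n j p.1)
  refine ⟨Tlfg sq γ n n, ?_, ?_, ?_, ?_, ?_, ?_⟩
  · have : ∀ j, Continuous (Tlfg sq γ n j) := by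
      intro j
      induction j with
      | zero => exact continuous_const
      | succ j ih =>
        have h1 : Continuous fun p : I × Z =>
            TlfM γ (Tlfc n j p.1) (Tlfc n (j + 1) p.1) p.2 :=
          (TlfM_cont hγ hS).comp (((Tlfc_cont n j).comp continuous_fst).prodMk
            (((Tlfc_cont n (j + 1)).comp continuous_fst).prodMk continuous_snd))
        have h2 : Continuous fun p : I × Z =>
            sq (TlfM γ (Tlfc n j p.1) (Tlfc n (j + 1) p.1) p.2) :=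
          hsqc.comp_continuous h1 (hstep j)
        exact h2.matrix_mul ih
    exact this n
  · have : ∀ j z, Tlfg sq γ n j (0, z) = 1 := by
      intro j z
      induction j with
      | zero => rfl
      | succ j ih =>
        show sq (TlfM γ (Tlfc n j 0) (Tlfc n (j + 1) 0) z) * Tlfg sq γ n j (0, z) = 1
        rw [Tlfc_at_zero, Tlfc_at_zero, TlfM_self hS, hsq1, ih, Matrix.one_mul]
    exact this n
  · have : ∀ j p, IsUnit (Tlfg sq γ n j p) := by
      intro j p
      induction j with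
      | zero => exact isUnit_one
      | succ j ih => exact (hsq _ (hstep j p)).2.1.mul ih
    exact this n
  · have : ∀ j p i, Tlfg sq γ n j p * e i = e i * Tlfg sq γ n j p := by
      intro j p i
      induction j with
      | zero => exact (Matrix.one_mul _).trans (Matrix.mul_one _).symm
      | succ j ih =>
        have h1 := (hsq _ (hstep j p)).2.2.1 (e i) (TlfM_comm hS _ _ _ i)
        show sq (TlfM γ (Tlfc n j p.1) (Tlfc n (j + 1) p.1) p.2) * Tlfg sq γ n j p * e i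
          = e i * (sq (TlfM γ (Tlfc n j p.1) (Tlfc n (j + 1) p.1) p.2) * Tlfg sq γ n j p)
        rw [Matrix.mul_assoc, ih, ← Matrix.mul_assoc, ← h1, Matrix.mul_assoc]
    exact this n
  · have : ∀ j u z, (Tlfg sq γ n j (u, z))ᵀ * γ (Tlfc n j u, z) * Tlfg sq γ n j (u, z) =
        γ (0, z) := by
      intro j u z
      induction j with
      | zero =>
        show (1 : Matrix ι ι ℝ)ᵀ * γ (Tlfc n 0 u, z) * 1 = γ (0, z)
        rw [Tlfc_zero, Matrix.transpose_one, Matrix.one_mul, Matrix.mul_one]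
      | succ j ih =>
        set s := sq (TlfM γ (Tlfc n j u) (Tlfc n (j + 1) u) z) with hs
        set g := Tlfg sq γ n j (u, z) with hg
        have hss : s * s = TlfM γ (Tlfc n j u) (Tlfc n (j + 1) u) z := (hsq _ (hstep j (u, z))).1
        have h2 : sᵀ * γ (Tlfc n (j + 1) u, z) = γ (Tlfc n (j + 1) u, z) * s :=
          (hsq _ (hstep j (u, z))).2.2.2.1 _ (TlfM_trans hS _ _ _)
        have h3 := TlfM_form hS (Tlfc n j u) (Tlfc n (j + 1) u) z
        show (s * g)ᵀ * γ (Tlfc n (j + 1) u, z) * (s * g) = γ (0, z)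
        calc (s * g)ᵀ * γ (Tlfc n (j + 1) u, z) * (s * g)
            = gᵀ * (sᵀ * γ (Tlfc n (j + 1) u, z) * s) * g := by
              rw [Matrix.transpose_mul]
              simp only [Matrix.mul_assoc]
          _ = gᵀ * (γ (Tlfc n (j + 1) u, z) * (s * s)) * g := by
              rw [h2, Matrix.mul_assoc (γ (Tlfc n (j + 1) u, z))]
          _ = gᵀ * γ (Tlfc n j u, z) * g := by rw [hss, h3]
          _ = γ (0, z) := ih
    intro u z
    have h := this n u z
    rwa [Tlfc_last n hn] at h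
  · intro z hz u
    have : ∀ j, Tlfg sq γ n j (u, z) = 1 := by
      intro j
      induction j with
      | zero => rfl
      | succ j ih =>
        have h1 : TlfM γ (Tlfc n j u) (Tlfc n (j + 1) u) z = 1 := by
          have h2 : TlfM γ (Tlfc n j u) (Tlfc n (j + 1) u) z = TlfM γ 0 0 z := by
            unfold TlfM
            rw [hz (Tlfc n j u), hz (Tlfc n (j + 1) u)]
          rw [h2, TlfM_self hS]
        show sq (TlfM γ (Tlfc n j u) (Tlfc n (j + 1) u) z) * Tlfg sq γ n j (u, z) = 1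
        rw [h1, hsq1, ih, Matrix.one_mul]
    exact this n

end DT
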