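import Pool.Agent.H78.DT.Bott0
import Pool.Agent.H78.DT.Tlf
import Pool.Agent.H78.DT.Sgn
import Pool.Agent.H78.DT.Cone

/-!
# From a map on the sphere to an odd family (job DT-ODDFAM)

PROOF. STEP 1. Let `N = susp (0, y)` be the north pole (independent of `y`), `S_0 = F N ∈ SymX e`.
By `exists_sign` (with `X` a point) there is a path `S_u` in `SymX e` from `S_0` to `c₀ ∈ Grad e`.
By `transport_form` (with `Z` a point) there is `g_u` commuting with `e`, `g_0 = 1`,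
`g_uᵀ S_u g_u = S_0`.  With `h_u = g_u⁻¹`: `h_uᵀ S_0 h_u = S_u`.  So
`F ~ F₁ := h_1ᵀ F h_1` in `SymX e` (homotopy `h_uᵀ F h_u`) and `F₁ N = c₀`.
STEP 2. Let `ι' = ι ⊕ (ι ⊕ ι)`,
`e' i = fromBlocks (-(e i)) 0 0 (fromBlocks (e i) 0 0 (-(e i)))`,
`c'' = fromBlocks (-c₀) 0 0 (fromBlocks c₀ 0 0 (-c₀))`,
`c = fromBlocks c₀ 0 0 c''`.  In blocks 1,2,3,4 the generators are `e, -e, e, -e` and
`c = (c₀, -c₀, c₀, -c₀)`.  `K` = the matrix exchanging blocks `1 ↔ 3` and `2 ↔ 4` with signs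
(`K = [[0, -1], [1, 0]]` with respect to the decomposition (blocks 1,2) ⊕ (blocks 3,4)): it is
skew, `K² = -1`, commutes with the generators and with `c`.  `d` = the matrix exchanging blocks
`1 ↔ 2` and `3 ↔ 4` (`[[0,1],[1,0]]` twice): symmetric, `d² = 1`, anticommutes with the
generators and with `c`.
Let `F₂ = fromBlocks F₁ 0 0 c''` (values in `SymX (esum e e')`), `F₂ N = c`.
STEP 3. Let `y₀ ∈ Sᵏ`.  Define `A (t, y)`:
`t ∈ [0, 1/3]`: `F₂ (susp (3t, y))`;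
`t ∈ [1/3, 2/3]`: `F₂ (susp (2 - 3t, y₀))`;
`t ∈ [2/3, 1]`: `lin c d (3t - 2)`.
It is continuous (at `t = 1/3` both are `F₂ (south pole)`, at `2/3` both are `F₂ N = c`),
`A (0, y) = c`, `A (1, y) = lin c d 1 = -c`.  So `OddF (esum e e') A`.
`A (1, ·)` and `A (0, ·)` are constant, so `A` descends to `A^` on `Sᵏ⁺¹` (`descend`).
STEP 4. Homotopy from `F₂` to `A^`: for `u ∈ I` let `A_u (t, y)` be defined by the same formulas
where the second and third pieces are shortened: with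
`m_u = max (1/3) (...)`, e.g. choose: `A_u (t, y) = A (w_u(t), y)` with `w_u (t) = t(1/3 + 2u/3)`:
`A_1 = A`, `A_0 (t, y) = A (t/3, y) = F₂ (susp (t, y))`; for every `u`,
`A_u (0, y) = c` and `A_u (1, y) = A (1/3 + 2u/3, y)` does not depend on `y`
(on `[1/3, 1]`, `A` is independent of `y`).  So by `descend` (with `Q = I`) the family descends to
a homotopy on the sphere, from `F₂` to `A^` (use `susp_surj` to identify the ends), with values
in `SymX`.
Finally `fromBlocks F 0 0 c'' ~ fromBlocks F₁ 0 0 c'' = F₂ ~ A^`.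
-/

open Matrix Set unitInterval Topology

noncomputable section

namespace DT

section OddFamAux

variable {ε ι ι' : Type} [Fintype ι] [DecidableEq ι] [Fintype ι'] [DecidableEq ι']

private theorem OddFam_clsys_neg {e : ε → Matrix ι ι ℝ} (he : ClSys e) :
    ClSys (fun i => -(e i)) := by
  refine ⟨fun i => ⟨?_, ?_⟩, fun i j hij => ?_⟩
  · rw [transpose_neg, (he.1 i).1]
  · rw [neg_mul_neg, (he.1 i).2]
  · rw [neg_mul_neg, neg_mul_neg, he.2 i j hij]

private theorem OddFam_clsys_esum {e : ε → Matrix ι ι ℝ} {e' : ε → Matrix ι' ι' ℝ}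
    (he : ClSys e) (he' : ClSys e') : ClSys (esum e e') := by
  refine ⟨fun i => ⟨?_, ?_⟩, fun i j hij => ?_⟩
  · simp only [esum, fromBlocks_transpose, (he.1 i).1, (he'.1 i).1, transpose_zero]
  · simp only [esum, fromBlocks_multiply, (he.1 i).2, (he'.1 i).2, Matrix.mul_zero, Matrix.zero_mul, add_zero,
      zero_add, fromBlocks_one]
  · simp only [esum, fromBlocks_multiply, he.2 i j hij, he'.2 i j hij, Matrix.mul_zero, Matrix.zero_mul,
      add_zero, zero_add, fromBlocks_neg, neg_zero]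

private theorem OddFam_symL_esum {e : ε → Matrix ι ι ℝ} {e' : ε → Matrix ι' ι' ℝ}
    {S : Matrix ι ι ℝ} {S' : Matrix ι' ι' ℝ} (h : S ∈ SymL e) (h' : S' ∈ SymL e') :
    fromBlocks S 0 0 S' ∈ SymL (esum e e') := by
  refine ⟨?_, fun i => ?_⟩
  · rw [fromBlocks_transpose, h.1, h'.1, transpose_zero, transpose_zero]
  · simp only [esum, fromBlocks_multiply, h.2 i, h'.2 i, Matrix.mul_zero, Matrix.zero_mul,
      add_zero, zero_add, fromBlocks_neg, neg_zero]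

private theorem OddFam_symX_esum {e : ε → Matrix ι ι ℝ} {e' : ε → Matrix ι' ι' ℝ}
    {S : Matrix ι ι ℝ} {S' : Matrix ι' ι' ℝ} (h : S ∈ SymX e) (h' : S' ∈ SymX e') :
    fromBlocks S 0 0 S' ∈ SymX (esum e e') :=
  ⟨OddFam_symL_esum h.1 h'.1, Matrix.isUnit_fromBlocks_zero₂₁.2 ⟨h.2, h'.2⟩⟩

private theorem OddFam_grad_esum {e : ε → Matrix ι ι ℝ} {e' : ε → Matrix ι' ι' ℝ}
    {S : Matrix ι ι ℝ} {S' : Matrix ι' ι' ℝ} (h : S ∈ Grad e) (h' : S' ∈ Grad e') :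
    fromBlocks S 0 0 S' ∈ Grad (esum e e') := by
  refine ⟨OddFam_symL_esum h.1 h'.1, ?_⟩
  rw [fromBlocks_multiply]
  simp only [h.2, h'.2, Matrix.mul_zero, Matrix.zero_mul, add_zero, zero_add, fromBlocks_one]

private theorem OddFam_grad_neg {e : ε → Matrix ι ι ℝ} {S : Matrix ι ι ℝ} (h : S ∈ Grad e) :
    -S ∈ Grad (fun i => -(e i)) := by
  refine ⟨⟨?_, fun i => ?_⟩, ?_⟩
  · rw [transpose_neg, h.1.1]
  · rw [neg_mul_neg, neg_mul_neg, h.1.2 i]
  · rw [neg_mul_neg, h.2]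

/-- congruence preserves `SymX` -/
private theorem OddFam_congr {e : ε → Matrix ι ι ℝ} (he : ClSys e) {S h : Matrix ι ι ℝ}
    (hS : S ∈ SymX e) (hh : IsUnit h) (hc : ∀ i, h * e i = e i * h) :
    hᵀ * S * h ∈ SymX e := by
  have hct : ∀ i, hᵀ * e i = e i * hᵀ := by
    intro i
    have h1 := congrArg Matrix.transpose (hc i)
    rw [transpose_mul, transpose_mul, (he.1 i).1] at h1
    exact h1.symm
  refine ⟨⟨?_, fun i => ?_⟩, ?_⟩
  · rw [transpose_mul, transpose_mul, transpose_transpose, hS.1.1, Matrix.mul_assoc]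
  · calc hᵀ * S * h * e i = hᵀ * S * (h * e i) := by rw [Matrix.mul_assoc]
      _ = hᵀ * (S * e i) * h := by rw [hc i]; simp only [Matrix.mul_assoc]
      _ = -((hᵀ * e i) * S * h) := by rw [hS.1.2 i]; simp only [Matrix.mul_assoc, Matrix.mul_neg,
            Matrix.neg_mul]
      _ = -(e i * (hᵀ * S * h)) := by rw [hct i]; simp only [Matrix.mul_assoc]
  · exact (((Matrix.isUnit_transpose _).2 hh).mul hS.2).mul hh

private theorem OddFam_inv_cont {X : Type*} [TopologicalSpace X] {g : X → Matrix ι ι ℝ}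
    (hg : Continuous g) (hu : ∀ x, IsUnit (g x)) : Continuous fun x => (g x)⁻¹ := by
  have h1 : (fun x => (g x)⁻¹) = fun x => ((g x).det)⁻¹ • (g x).adjugate := by
    funext x
    rw [Matrix.inv_def, Ring.inverse_eq_inv']
  rw [h1]
  refine Continuous.smul (Continuous.inv₀ hg.matrix_det fun x => ?_) hg.matrix_adjugate
  exact ((Matrix.isUnit_iff_isUnit_det _).1 (hu x)).ne_zero

private def OddFam_ix : ι ⊕ (ι ⊕ (ι ⊕ ι)) → Fin 4
  | .inl _ => 0
  | .inr (.inl _) => 1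
  | .inr (.inr (.inl _)) => 2
  | .inr (.inr (.inr _)) => 3

private def OddFam_pt : ι ⊕ (ι ⊕ (ι ⊕ ι)) → ι
  | .inl x => x
  | .inr (.inl x) => x
  | .inr (.inr (.inl x)) => x
  | .inr (.inr (.inr x)) => x

private def OddFam_kr (m : Matrix (Fin 4) (Fin 4) ℝ) (A : Matrix ι ι ℝ) :
    Matrix (ι ⊕ (ι ⊕ (ι ⊕ ι))) (ι ⊕ (ι ⊕ (ι ⊕ ι))) ℝ :=
  fun x y => m (OddFam_ix x) (OddFam_ix y) * A (OddFam_pt x) (OddFam_pt y)

private theorem OddFam_kr_mul (m m' : Matrix (Fin 4) (Fin 4) ℝ) (A A' : Matrix ι ι ℝ) :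
    OddFam_kr m A * OddFam_kr m' A' = OddFam_kr (m * m') (A * A') := by
  ext x z
  have key : ∀ j : Fin 4, ∑ y : ι, (m (OddFam_ix x) j * A (OddFam_pt x) y) *
      (m' j (OddFam_ix z) * A' y (OddFam_pt z)) =
      (m (OddFam_ix x) j * m' j (OddFam_ix z)) *
        ∑ y : ι, A (OddFam_pt x) y * A' y (OddFam_pt z) := by
    intro j
    rw [Finset.mul_sum]
    exact Finset.sum_congr rfl fun y _ => by ring
  rw [Matrix.mul_apply, Fintype.sum_sum_type, Fintype.sum_sum_type, Fintype.sum_sum_type]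
  show (∑ y : ι, (m (OddFam_ix x) 0 * A (OddFam_pt x) y) *
      (m' 0 (OddFam_ix z) * A' y (OddFam_pt z))) +
    ((∑ y : ι, (m (OddFam_ix x) 1 * A (OddFam_pt x) y) *
      (m' 1 (OddFam_ix z) * A' y (OddFam_pt z))) +
    ((∑ y : ι, (m (OddFam_ix x) 2 * A (OddFam_pt x) y) *
      (m' 2 (OddFam_ix z) * A' y (OddFam_pt z))) +
    (∑ y : ι, (m (OddFam_ix x) 3 * A (OddFam_pt x) y) *
      (m' 3 (OddFam_ix z) * A' y (OddFam_pt z))))) =
    (m * m') (OddFam_ix x) (OddFam_ix z) * (A * A') (OddFam_pt x) (OddFam_pt z)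
  rw [key, key, key, key, Matrix.mul_apply, Matrix.mul_apply, Fin.sum_univ_four]
  ring

private theorem OddFam_kr_transpose (m : Matrix (Fin 4) (Fin 4) ℝ) (A : Matrix ι ι ℝ) :
    (OddFam_kr m A)ᵀ = OddFam_kr mᵀ Aᵀ := rfl

private theorem OddFam_kr_neg (m : Matrix (Fin 4) (Fin 4) ℝ) (A : Matrix ι ι ℝ) :
    OddFam_kr (-m) A = -OddFam_kr m A := by
  ext x y
  show -m _ _ * A _ _ = -(m _ _ * A _ _)
  ring

private theorem OddFam_kr_one : OddFam_kr (1 : Matrix (Fin 4) (Fin 4) ℝ) (1 : Matrix ι ι ℝ) = 1 := by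
  ext x y
  show (1 : Matrix (Fin 4) (Fin 4) ℝ) _ _ * (1 : Matrix ι ι ℝ) _ _ = _
  rcases x with x | x | x | x <;> rcases y with y | y | y | y <;>
    by_cases hxy : x = y <;> simp [Matrix.one_apply, OddFam_ix, OddFam_pt, hxy]

private def OddFam_D : Matrix (Fin 4) (Fin 4) ℝ :=
  !![1, 0, 0, 0; 0, -1, 0, 0; 0, 0, 1, 0; 0, 0, 0, -1]

private def OddFam_J : Matrix (Fin 4) (Fin 4) ℝ :=
  !![0, 0, -1, 0; 0, 0, 0, -1; 1, 0, 0, 0; 0, 1, 0, 0]

private def OddFam_P : Matrix (Fin 4) (Fin 4) ℝ :=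
  !![0, 1, 0, 0; 1, 0, 0, 0; 0, 0, 0, 1; 0, 0, 1, 0]

private theorem OddFam_DD : OddFam_D * OddFam_D = 1 := by
  ext i j
  fin_cases i <;> fin_cases j <;> simp [OddFam_D, Matrix.mul_apply, Fin.sum_univ_four]

private theorem OddFam_PP : OddFam_P * OddFam_P = 1 := by
  ext i j
  fin_cases i <;> fin_cases j <;> simp [OddFam_P, Matrix.mul_apply, Fin.sum_univ_four]

private theorem OddFam_JJ : OddFam_J * OddFam_J = -1 := by
  ext i j
  fin_cases i <;> fin_cases j <;> simp [OddFam_J, Matrix.mul_apply, Fin.sum_univ_four]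

private theorem OddFam_JD : OddFam_J * OddFam_D = OddFam_D * OddFam_J := by
  ext i j
  fin_cases i <;> fin_cases j <;> simp [OddFam_J, OddFam_D, Matrix.mul_apply, Fin.sum_univ_four]

private theorem OddFam_PD : OddFam_P * OddFam_D = -(OddFam_D * OddFam_P) := by
  ext i j
  fin_cases i <;> fin_cases j <;> simp [OddFam_P, OddFam_D, Matrix.mul_apply, Fin.sum_univ_four]

private theorem OddFam_Jt : OddFam_Jᵀ = -OddFam_J := by
  ext i j
  fin_cases i <;> fin_cases j <;> simp [OddFam_J]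

private theorem OddFam_Pt : OddFam_Pᵀ = OddFam_P := by
  ext i j
  fin_cases i <;> fin_cases j <;> simp [OddFam_P]

private theorem OddFam_D4 (A : Matrix ι ι ℝ) :
    (fromBlocks A 0 0 (fromBlocks (-A) 0 0 (fromBlocks A 0 0 (-A))) :
      Matrix (ι ⊕ (ι ⊕ (ι ⊕ ι))) (ι ⊕ (ι ⊕ (ι ⊕ ι))) ℝ) = OddFam_kr OddFam_D A := by
  ext x y
  rcases x with x | x | x | x <;> rcases y with y | y | y | y <;>
    simp [OddFam_kr, OddFam_D, OddFam_ix, OddFam_pt]

end OddFamAux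

private theorem OddFam_susp0 {k : ℕ} (y y' : Sp k) : susp ((0 : I), y) = susp ((0 : I), y') := by
  apply Subtype.ext
  show sv ((0 : I) : ℝ) y.1 = sv ((0 : I) : ℝ) y'.1
  simp [sv]

private theorem OddFam_susp1 {k : ℕ} (y y' : Sp k) : susp ((1 : I), y) = susp ((1 : I), y') := by
  apply Subtype.ext
  show sv ((1 : I) : ℝ) y.1 = sv ((1 : I) : ℝ) y'.1
  simp [sv]

private def OddFam_cl (r : ℝ) : I := Set.projIcc 0 1 zero_le_one r

private theorem OddFam_cl_cont : Continuous OddFam_cl :=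
  continuous_projIcc (h := zero_le_one)

private theorem OddFam_cl0 {r : ℝ} (h : r ≤ 0) : OddFam_cl r = 0 :=
  Set.projIcc_of_le_left zero_le_one h

private theorem OddFam_cl1 {r : ℝ} (h : 1 ≤ r) : OddFam_cl r = 1 :=
  Set.projIcc_of_right_le zero_le_one h

private theorem OddFam_clv (t : I) : OddFam_cl (t : ℝ) = t := Set.projIcc_val zero_le_one t

theorem odd_family {ε ι : Type} [Fintype ι] [DecidableEq ι] (k : ℕ) (e : ε → Matrix ι ι ℝ)
    (he : ClSys e) (F : Sp (k + 1) → Matrix ι ι ℝ) (hF : Continuous F)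
    (hS : ∀ x, F x ∈ SymX e) :
    ∃ (ι' : Type) (_ : Fintype ι') (_ : DecidableEq ι') (e' : ε → Matrix ι' ι' ℝ)
      (c'' : Matrix ι' ι' ℝ) (c K : Matrix (ι ⊕ ι') (ι ⊕ ι') ℝ)
      (A : I × Sp k → Matrix (ι ⊕ ι') (ι ⊕ ι') ℝ)
      (A' : Sp (k + 1) → Matrix (ι ⊕ ι') (ι ⊕ ι') ℝ),
      ClSys e' ∧ c'' ∈ SymX e' ∧ c ∈ Grad (esum e e') ∧ Cpx (esum e e') c K ∧
      Continuous A ∧ OddF (esum e e') A ∧ (∀ y, A (0, y) = c) ∧
      (∀ p, A' (susp p) = A p) ∧
      HIn (SymX (esum e e')) (fun x => fromBlocks (F x) 0 0 c'') A' := by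
  classical
  -- a base point
  have hy0 : (Pi.single 0 1 : Fin (k + 1) → ℝ) ∈ US (Fin (k + 1)) := by
    show (Pi.single 0 1 : Fin (k + 1) → ℝ) ⬝ᵥ Pi.single 0 1 = 1
    simp
  set y0 : Sp k := ⟨Pi.single 0 1, hy0⟩ with hy0def
  -- STEP 1
  obtain ⟨H, hHc, hH0, hHX, hH1, -⟩ := exists_sign (X := Unit) e (fun _ => F (susp (0, y0)))
    continuous_const (fun _ => hS _)
  obtain ⟨g, hgc, hg0, hgu, hge, hgt, -⟩ := transport_form (Z := Unit) e H hHc hHX
  set c0 : Matrix ι ι ℝ := H (1, ()) with hc0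
  have hc0G : c0 ∈ Grad e := hH1 ()
  have hhc : Continuous fun u : I => (g (u, ()))⁻¹ :=
    (OddFam_inv_cont hgc hgu).comp (by fun_prop : Continuous fun u : I => (u, ()))
  have hgdet : ∀ p, IsUnit (g p).det := fun p => (Matrix.isUnit_iff_isUnit_det _).1 (hgu p)
  have hhe : ∀ p i, (g p)⁻¹ * e i = e i * (g p)⁻¹ := by
    intro p i
    have h1 := hge p i
    calc (g p)⁻¹ * e i = (g p)⁻¹ * (e i * (g p * (g p)⁻¹)) := by
          rw [Matrix.mul_nonsing_inv _ (hgdet p), Matrix.mul_one]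
      _ = (g p)⁻¹ * ((e i * g p) * (g p)⁻¹) := by rw [Matrix.mul_assoc]
      _ = (g p)⁻¹ * ((g p * e i) * (g p)⁻¹) := by rw [h1]
      _ = ((g p)⁻¹ * g p) * (e i * (g p)⁻¹) := by simp only [Matrix.mul_assoc]
      _ = e i * (g p)⁻¹ := by rw [Matrix.nonsing_inv_mul _ (hgdet p), Matrix.one_mul]
  have hhu : ∀ p, IsUnit (g p)⁻¹ := fun p => Matrix.isUnit_nonsing_inv_iff.2 (hgu p)
  set F1 : Sp (k + 1) → Matrix ι ι ℝ := fun x => ((g (1, ()))⁻¹)ᵀ * F x * (g (1, ()))⁻¹ with hF1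
  have hFF1 : HIn (SymX e) F F1 := by
    refine ⟨fun p => ((g (p.1, ()))⁻¹)ᵀ * F p.2 * (g (p.1, ()))⁻¹, ?_, ?_, ?_, ?_⟩
    · have h1 : Continuous fun p : I × Sp (k + 1) => (g (p.1, ()))⁻¹ := hhc.comp continuous_fst
      exact (h1.matrix_transpose.matrix_mul (hF.comp continuous_snd)).matrix_mul h1
    · intro u x
      exact OddFam_congr he (hS x) (hhu _) (hhe _)
    · intro x
      simp [hg0]
    · intro x
      rfl
  have hF1N : F1 (susp (0, y0)) = c0 := by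
    have h1 := hgt 1 ()
    rw [hH0 ()] at h1
    show ((g (1, ()))⁻¹)ᵀ * F (susp (0, y0)) * (g (1, ()))⁻¹ = c0
    rw [← h1]
    calc ((g (1, ()))⁻¹)ᵀ * ((g (1, ()))ᵀ * H (1, ()) * g (1, ())) * (g (1, ()))⁻¹
        = (g (1, ()) * (g (1, ()))⁻¹)ᵀ * H (1, ()) * (g (1, ()) * (g (1, ()))⁻¹) := by
          rw [transpose_mul]; simp only [Matrix.mul_assoc]
      _ = c0 := by
          rw [Matrix.mul_nonsing_inv _ (hgdet _), transpose_one, Matrix.one_mul, Matrix.mul_one]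
  -- STEP 2
  have hneg := OddFam_clsys_neg he
  have hcneg := OddFam_grad_neg hc0G
  set e' : ε → Matrix (ι ⊕ (ι ⊕ ι)) (ι ⊕ (ι ⊕ ι)) ℝ :=
    esum (fun i => -(e i)) (esum e (fun i => -(e i))) with he'
  set c'' : Matrix (ι ⊕ (ι ⊕ ι)) (ι ⊕ (ι ⊕ ι)) ℝ :=
    fromBlocks (-c0) 0 0 (fromBlocks c0 0 0 (-c0)) with hc''
  have hc''G : c'' ∈ Grad e' := OddFam_grad_esum hcneg (OddFam_grad_esum hc0G hcneg)
  set c : Matrix (ι ⊕ (ι ⊕ (ι ⊕ ι))) (ι ⊕ (ι ⊕ (ι ⊕ ι))) ℝ := fromBlocks c0 0 0 c'' with hc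
  have hcG : c ∈ Grad (esum e e') := OddFam_grad_esum hc0G hc''G
  have hck : c = OddFam_kr OddFam_D c0 := OddFam_D4 c0
  have hek : ∀ i, esum e e' i = OddFam_kr OddFam_D (e i) := fun i => OddFam_D4 (e i)
  set d : Matrix (ι ⊕ (ι ⊕ (ι ⊕ ι))) (ι ⊕ (ι ⊕ (ι ⊕ ι))) ℝ := OddFam_kr OddFam_P 1 with hd
  have hdG : d ∈ Grad (esum e e') := by
    refine ⟨⟨?_, fun i => ?_⟩, ?_⟩
    · rw [hd, OddFam_kr_transpose, OddFam_Pt, transpose_one]
    · rw [hek, hd, OddFam_kr_mul, OddFam_kr_mul, OddFam_PD, OddFam_kr_neg, Matrix.one_mul,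
        Matrix.mul_one]
    · rw [hd, OddFam_kr_mul, OddFam_PP, Matrix.one_mul, OddFam_kr_one]
  have hdc : d * c = -(c * d) := by
    rw [hck, hd, OddFam_kr_mul, OddFam_kr_mul, OddFam_PD, OddFam_kr_neg, Matrix.one_mul,
        Matrix.mul_one]
  have hKcpx : Cpx (esum e e') c (OddFam_kr OddFam_J 1) := by
    refine ⟨?_, ?_, ?_, fun i => ?_⟩
    · rw [OddFam_kr_transpose, OddFam_Jt, transpose_one, OddFam_kr_neg]
    · rw [OddFam_kr_mul, OddFam_JJ, Matrix.one_mul, OddFam_kr_neg, OddFam_kr_one]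
    · rw [hck, OddFam_kr_mul, OddFam_kr_mul, OddFam_JD, Matrix.one_mul, Matrix.mul_one]
    · rw [hek, OddFam_kr_mul, OddFam_kr_mul, OddFam_JD, Matrix.one_mul, Matrix.mul_one]
  set F2 : Sp (k + 1) → Matrix (ι ⊕ (ι ⊕ (ι ⊕ ι))) (ι ⊕ (ι ⊕ (ι ⊕ ι))) ℝ :=
    fun x => fromBlocks (F1 x) 0 0 c'' with hF2
  have hFF2 : HIn (SymX (esum e e')) (fun x => fromBlocks (F x) 0 0 c'') F2 := by
    refine hFF1.map' (fun M => fromBlocks M 0 0 c'') ?_ ?_
    · exact Continuous.matrix_fromBlocks continuous_id continuous_const continuous_const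
        continuous_const
    · intro M hM
      exact OddFam_symX_esum hM (Grad_subset_SymX _ hc''G)
  have hF2c : Continuous F2 := hFF2.continuous_right
  have hF2X : ∀ x, F2 x ∈ SymX (esum e e') := hFF2.mem_right
  have hF2N : ∀ y, F2 (susp (0, y)) = c := by
    intro y
    rw [OddFam_susp0 y y0]
    show fromBlocks (F1 _) 0 0 c'' = c
    rw [hF1N]
  have hlin : ∀ t : ℝ, lin c d t ∈ SymX (esum e e') := by
    intro t
    apply Grad_subset_SymX
    refine ⟨⟨?_, fun i => ?_⟩, ?_⟩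
    · unfold lin
      rw [transpose_add, transpose_smul, transpose_smul, hcG.1.1, hdG.1.1]
    · unfold lin
      rw [Matrix.add_mul, Matrix.mul_add, Matrix.smul_mul, Matrix.smul_mul, Matrix.mul_smul,
        Matrix.mul_smul, hcG.1.2 i, hdG.1.2 i]
      module
    · unfold lin
      rw [Matrix.add_mul, Matrix.mul_add, Matrix.mul_add]
      simp only [Matrix.smul_mul, Matrix.mul_smul, hcG.2, hdG.2, hdc, smul_smul, smul_neg]
      have h1 : Real.cos (Real.pi * t) * Real.cos (Real.pi * t) +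
          Real.sin (Real.pi * t) * Real.sin (Real.pi * t) = 1 := by
        nlinarith [Real.sin_sq_add_cos_sq (Real.pi * t)]
      have h2 : (Real.cos (Real.pi * t) * Real.cos (Real.pi * t)) •
            (1 : Matrix (ι ⊕ (ι ⊕ (ι ⊕ ι))) (ι ⊕ (ι ⊕ (ι ⊕ ι))) ℝ) +
          (Real.sin (Real.pi * t) * Real.cos (Real.pi * t)) • (c * d) +
          (-((Real.cos (Real.pi * t) * Real.sin (Real.pi * t)) • (c * d)) +
          (Real.sin (Real.pi * t) * Real.sin (Real.pi * t)) • 1) =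
          (Real.cos (Real.pi * t) * Real.cos (Real.pi * t) +
          Real.sin (Real.pi * t) * Real.sin (Real.pi * t)) • 1 := by
        module
      rw [h2, h1, one_smul]
  -- STEP 3
  set A : I × Sp k → Matrix (ι ⊕ (ι ⊕ (ι ⊕ ι))) (ι ⊕ (ι ⊕ (ι ⊕ ι))) ℝ := fun p =>
    F2 (susp (OddFam_cl (3 * (p.1 : ℝ)), p.2)) +
      (F2 (susp (OddFam_cl (2 - 3 * (p.1 : ℝ)), y0)) - F2 (susp (1, y0))) +
      (lin c d ((OddFam_cl (3 * (p.1 : ℝ) - 2) : I) : ℝ) - c) with hA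
  have hAc : Continuous A := by
    have h1 : Continuous fun p : I × Sp k => F2 (susp (OddFam_cl (3 * (p.1 : ℝ)), p.2)) := by
      refine hF2c.comp (susp_continuous.comp ?_)
      exact (OddFam_cl_cont.comp (by fun_prop)).prodMk continuous_snd
    have h2 : Continuous fun p : I × Sp k =>
        F2 (susp (OddFam_cl (2 - 3 * (p.1 : ℝ)), y0)) := by
      refine hF2c.comp (susp_continuous.comp ?_)
      exact (OddFam_cl_cont.comp (by fun_prop)).prodMk continuous_const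
    have h3 : Continuous fun p : I × Sp k =>
        lin c d ((OddFam_cl (3 * (p.1 : ℝ) - 2) : I) : ℝ) := by
      have h4 : Continuous fun p : I × Sp k => ((OddFam_cl (3 * (p.1 : ℝ) - 2) : I) : ℝ) :=
        continuous_subtype_val.comp (OddFam_cl_cont.comp (by fun_prop))
      unfold lin
      exact ((Real.continuous_cos.comp (continuous_const.mul h4)).smul continuous_const).add
        ((Real.continuous_sin.comp (continuous_const.mul h4)).smul continuous_const)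
    exact (h1.add (h2.sub continuous_const)).add (h3.sub continuous_const)
  have hlin0 : lin c d 0 = c := by simp [lin]
  have hlin1 : lin c d 1 = -c := by simp [lin]
  have hA1 : ∀ (t : I) (y : Sp k), (t : ℝ) ≤ 1 / 3 →
      A (t, y) = F2 (susp (OddFam_cl (3 * (t : ℝ)), y)) := by
    intro t y ht
    show F2 (susp (OddFam_cl (3 * (t : ℝ)), y)) +
      (F2 (susp (OddFam_cl (2 - 3 * (t : ℝ)), y0)) - F2 (susp (1, y0))) +
      (lin c d ((OddFam_cl (3 * (t : ℝ) - 2) : I) : ℝ) - c) = _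
    rw [OddFam_cl1 (r := 2 - 3 * (t : ℝ)) (by linarith),
      OddFam_cl0 (r := 3 * (t : ℝ) - 2) (by linarith)]
    simp [hlin0]
  have hA2 : ∀ (t : I) (y : Sp k), 1 / 3 ≤ (t : ℝ) → (t : ℝ) ≤ 2 / 3 →
      A (t, y) = F2 (susp (OddFam_cl (2 - 3 * (t : ℝ)), y0)) := by
    intro t y ht ht'
    show F2 (susp (OddFam_cl (3 * (t : ℝ)), y)) +
      (F2 (susp (OddFam_cl (2 - 3 * (t : ℝ)), y0)) - F2 (susp (1, y0))) +
      (lin c d ((OddFam_cl (3 * (t : ℝ) - 2) : I) : ℝ) - c) = _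
    rw [OddFam_cl1 (r := 3 * (t : ℝ)) (by linarith), OddFam_susp1 y y0,
      OddFam_cl0 (r := 3 * (t : ℝ) - 2) (by linarith)]
    simp [hlin0]
  have hA3 : ∀ (t : I) (y : Sp k), 2 / 3 ≤ (t : ℝ) →
      A (t, y) = lin c d ((OddFam_cl (3 * (t : ℝ) - 2) : I) : ℝ) := by
    intro t y ht
    show F2 (susp (OddFam_cl (3 * (t : ℝ)), y)) +
      (F2 (susp (OddFam_cl (2 - 3 * (t : ℝ)), y0)) - F2 (susp (1, y0))) +
      (lin c d ((OddFam_cl (3 * (t : ℝ) - 2) : I) : ℝ) - c) = _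
    rw [OddFam_cl1 (r := 3 * (t : ℝ)) (by linarith), OddFam_susp1 y y0,
      OddFam_cl0 (r := 2 - 3 * (t : ℝ)) (by linarith), hF2N]
    abel
  have hAX : ∀ p, A p ∈ SymX (esum e e') := by
    rintro ⟨t, y⟩
    rcases le_total (t : ℝ) (1 / 3) with h | h
    · rw [hA1 t y h]; exact hF2X _
    rcases le_total (t : ℝ) (2 / 3) with h' | h'
    · rw [hA2 t y h h']; exact hF2X _
    · rw [hA3 t y h']; exact hlin _
  have hA0 : ∀ y, A (0, y) = c := by
    intro y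
    rw [hA1 0 y (by norm_num), OddFam_cl0 (by simp), hF2N]
  have hAe : ∀ y, A (1, y) = -c := by
    intro y
    rw [hA3 1 y (by norm_num), OddFam_cl1 (by norm_num)]
    simpa using hlin1
  have hAind : ∀ (t : I) (y y' : Sp k), 1 / 3 ≤ (t : ℝ) → A (t, y) = A (t, y') := by
    intro t y y' h
    rcases le_total (t : ℝ) (2 / 3) with h' | h'
    · rw [hA2 t y h h', hA2 t y' h h']
    · rw [hA3 t y h', hA3 t y' h']
  -- STEP 4
  have hwc : Continuous fun q : I × (I × Sp k) =>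
      OddFam_cl ((q.2.1 : ℝ) * (1 / 3 + 2 * (q.1 : ℝ) / 3)) :=
    OddFam_cl_cont.comp (by fun_prop)
  obtain ⟨G, hGc, hG⟩ := descend (k := k) (Q := I)
    (fun q : I × (I × Sp k) =>
      A (OddFam_cl ((q.2.1 : ℝ) * (1 / 3 + 2 * (q.1 : ℝ) / 3)), q.2.2))
    (hAc.comp (hwc.prodMk (by fun_prop)))
    (by
      intro q y y'
      have h1 : OddFam_cl (((0 : I) : ℝ) * (1 / 3 + 2 * (q : ℝ) / 3)) = 0 :=
        OddFam_cl0 (by simp)
      show A (OddFam_cl (((0 : I) : ℝ) * (1 / 3 + 2 * (q : ℝ) / 3)), y) =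
        A (OddFam_cl (((0 : I) : ℝ) * (1 / 3 + 2 * (q : ℝ) / 3)), y')
      rw [h1, hA0, hA0])
    (by
      intro q y y'
      show A (OddFam_cl (((1 : I) : ℝ) * (1 / 3 + 2 * (q : ℝ) / 3)), y) =
        A (OddFam_cl (((1 : I) : ℝ) * (1 / 3 + 2 * (q : ℝ) / 3)), y')
      apply hAind
      have h0 := q.2.1
      have h1 := q.2.2
      have h2 : (0 : ℝ) ≤ q := h0
      have h3 : (q : ℝ) ≤ 1 := h1
      have h4 : ((1 : I) : ℝ) * (1 / 3 + 2 * (q : ℝ) / 3) ∈ Set.Icc (0 : ℝ) 1 := by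
        constructor
        · show (0 : ℝ) ≤ (1 : ℝ) * (1 / 3 + 2 * (q : ℝ) / 3)
          linarith
        · show (1 : ℝ) * (1 / 3 + 2 * (q : ℝ) / 3) ≤ 1
          linarith
      unfold OddFam_cl
      rw [Set.projIcc_of_mem zero_le_one h4]
      show (1 : ℝ) / 3 ≤ (1 : ℝ) * (1 / 3 + 2 * (q : ℝ) / 3)
      linarith)
  refine ⟨ι ⊕ (ι ⊕ ι), inferInstance, inferInstance, e', c'', c, OddFam_kr OddFam_J 1, A,
    fun x => G (1, x), OddFam_clsys_esum hneg (OddFam_clsys_esum he hneg),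
    Grad_subset_SymX _ hc''G, hcG, hKcpx, hAc, ⟨hAX, fun y => ?_⟩, hA0, ?_, ?_⟩
  · rw [hAe, hA0]
  · rintro ⟨t, y⟩
    show G (1, susp (t, y)) = A (t, y)
    rw [hG]
    show A (OddFam_cl ((t : ℝ) * (1 / 3 + 2 * ((1 : I) : ℝ) / 3)), y) = A (t, y)
    have h1 : (t : ℝ) * (1 / 3 + 2 * ((1 : I) : ℝ) / 3) = t := by
      show (t : ℝ) * (1 / 3 + 2 * (1 : ℝ) / 3) = t
      ring
    rw [h1, OddFam_clv]
  · refine hFF2.trans ⟨G, hGc, ?_, ?_, ?_⟩
    · intro u x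
      obtain ⟨p, rfl⟩ := susp_surj x
      show G (u, susp p) ∈ SymX (esum e e')
      rw [hG]
      exact hAX _
    · intro x
      obtain ⟨⟨t, y⟩, rfl⟩ := susp_surj x
      rw [hG]
      show A (OddFam_cl ((t : ℝ) * (1 / 3 + 2 * ((0 : I) : ℝ) / 3)), y) = F2 (susp (t, y))
      have h0 : (0 : ℝ) ≤ t := t.2.1
      have h1 : (t : ℝ) ≤ 1 := t.2.2
      have h2 : (t : ℝ) * (1 / 3 + 2 * ((0 : I) : ℝ) / 3) = (t : ℝ) / 3 := by
        show (t : ℝ) * (1 / 3 + 2 * (0 : ℝ) / 3) = (t : ℝ) / 3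
        ring
      have h3 : (t : ℝ) / 3 ∈ Set.Icc (0 : ℝ) 1 := ⟨by linarith, by linarith⟩
      have h4 : ((OddFam_cl ((t : ℝ) / 3) : I) : ℝ) = (t : ℝ) / 3 := by
        unfold OddFam_cl
        rw [Set.projIcc_of_mem zero_le_one h3]
      rw [h2, hA1 _ _ (by rw [h4]; linarith), h4]
      have h5 : 3 * ((t : ℝ) / 3) = t := by ring
      rw [h5, OddFam_clv]
    · intro x
      rfl

end DT
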