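import Pool.Agent.H78.DT.LinB
import Pool.Agent.H78.DT.OddFam

/-!
# The one step theorem (job DT-LEMB)

PROOF. Let `ι₁, e₁, c₁'', c₁, K, A, A'` be as in `odd_family k e he F`, and
`ι₂, e₂, a, b, G₂` as in `linB (esum e e₁) _ c₁ K A` (`Y = Sp k`; `ClSys (esum e e₁)` is clear).
Let `H (u, (t, y))` be the homotopy of `linB`; at `t = 0` it is `fromBlocks c₁ 0 0 a`, at `t = 1`
its negative, so by `descend` (`Q = I`) it descends to `H' : I × Sp (k+1) → _`; the values are in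
`SymX`.  By `susp_surj`, `A' (susp p) = A p`, `cone_susp`:
`H' (0, x) = fromBlocks (A' x) 0 0 (x₀ • a + nr (tail x) • b)`,
`H' (1, x) = x₀ • (fromBlocks c₁ 0 0 a) + cone1 G₂ (tail x)`
(for `x = susp (t, y)`: `x₀ = cos πt`, `nr (tail x) = sin πt`).
In `SymX e₂`: `a ~ b ~ (x ↦ x₀ • a + nr (tail x) • b)`: the first by `lin a b (u/2)` (square `1`,
as `a b = - b a`), the second by `(1-u)(x₀ a + nr b) + u b`, whose square is
`(1-u)²x₀² + ((1-u) nr + u)² > 0` times `1` (`x₀² + nr² = 1`).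
So `(F ⊕ c₁'') ⊕ a ~ A' ⊕ a ~ A' ⊕ (x₀ a + nr b) ~ x₀ • (c₁ ⊕ a) + cone1 G₂ (tail x)`.
Reindex `(ι ⊕ ι₁) ⊕ ι₂ ≃ ι ⊕ (ι₁ ⊕ ι₂)` (`Equiv.sumAssoc`, `Matrix.submatrix` / `reindex`):
`ι' = ι₁ ⊕ ι₂`, `e' = esum e₁ e₂`, `c'' = fromBlocks c₁'' 0 0 a`, `c` and `G` the reindexed
`fromBlocks c₁ 0 0 a` and `G₂`.

Status: complete (helper26).
-/

open Matrix Set unitInterval Topology

noncomputable section

namespace DT

set_option linter.unusedSectionVars false

section LemBAux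

variable {ε ι κ : Type} [Fintype ι] [DecidableEq ι] [Fintype κ] [DecidableEq κ]

theorem LemB_re_symL {E : ε → Matrix ι ι ℝ} (φ : κ ≃ ι) {S : Matrix ι ι ℝ} (hS : S ∈ SymL E) :
    S.submatrix φ φ ∈ SymL (fun i => (E i).submatrix φ φ) := by
  refine ⟨?_, fun i => ?_⟩
  · rw [transpose_submatrix, hS.1]
  · rw [submatrix_mul_equiv, hS.2 i, submatrix_mul_equiv]
    rfl

theorem LemB_re_unit (φ : κ ≃ ι) {S : Matrix ι ι ℝ} (hS : IsUnit S) :
    IsUnit (S.submatrix φ φ) := by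
  rw [Matrix.isUnit_iff_isUnit_det] at hS ⊢
  rw [det_submatrix_equiv_self]
  exact hS

theorem LemB_re_symX {E : ε → Matrix ι ι ℝ} (φ : κ ≃ ι) {S : Matrix ι ι ℝ} (hS : S ∈ SymX E) :
    S.submatrix φ φ ∈ SymX (fun i => (E i).submatrix φ φ) :=
  ⟨LemB_re_symL φ hS.1, LemB_re_unit φ hS.2⟩

theorem LemB_re_grad {E : ε → Matrix ι ι ℝ} (φ : κ ≃ ι) {S : Matrix ι ι ℝ} (hS : S ∈ Grad E) :
    S.submatrix φ φ ∈ Grad (fun i => (E i).submatrix φ φ) := by
  refine ⟨LemB_re_symL φ hS.1, ?_⟩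
  rw [submatrix_mul_equiv, hS.2, submatrix_one_equiv]

theorem LemB_re_addg (E : ε → Matrix ι ι ℝ) (φ : κ ≃ ι) (c : Matrix ι ι ℝ) :
    (fun i => (addg E c i).submatrix φ φ) =
      addg (fun i => (E i).submatrix φ φ) (c.submatrix φ φ) := by
  funext i
  rcases i with i | i <;> rfl

theorem LemB_ab {E : ε → Matrix ι ι ℝ} {a b : Matrix ι ι ℝ} (ha : a ∈ Grad E)
    (hb : b ∈ Grad (addg E a)) {p q : ℝ} (h : 0 < p ^ 2 + q ^ 2) : p • a + q • b ∈ SymX E := by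
  obtain ⟨⟨a1, a2⟩, a3⟩ := ha
  obtain ⟨⟨b1, b2⟩, b3⟩ := hb
  have hba : b * a = -(a * b) := b2 (Sum.inr ())
  have hbe : ∀ i, b * E i = -(E i * b) := fun i => b2 (Sum.inl i)
  refine ⟨⟨?_, fun i => ?_⟩, ?_⟩
  · rw [transpose_add, transpose_smul, transpose_smul, a1, b1]
  · rw [Matrix.add_mul, Matrix.mul_add, smul_mul_assoc, smul_mul_assoc, a2 i, hbe i,
      mul_smul_comm, mul_smul_comm, smul_neg, smul_neg, neg_add]
  · have hsq : (p • a + q • b) * (p • a + q • b) = (p ^ 2 + q ^ 2) • (1 : Matrix ι ι ℝ) := by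
      rw [Matrix.add_mul, Matrix.mul_add, Matrix.mul_add, smul_mul_assoc, smul_mul_assoc,
        smul_mul_assoc, smul_mul_assoc, mul_smul_comm, mul_smul_comm, mul_smul_comm,
        mul_smul_comm, a3, b3, hba]
      simp only [smul_smul, smul_neg]
      rw [mul_comm q p, add_smul, pow_two, pow_two]
      abel
    have h1 : (p • a + q • b) * ((p ^ 2 + q ^ 2)⁻¹ • (p • a + q • b)) = 1 := by
      rw [mul_smul_comm, hsq, smul_smul, inv_mul_cancel₀ h.ne', one_smul]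
    have h2 : ((p ^ 2 + q ^ 2)⁻¹ • (p • a + q • b)) * (p • a + q • b) = 1 := by
      rw [smul_mul_assoc, hsq, smul_smul, inv_mul_cancel₀ h.ne', one_smul]
    exact ⟨⟨_, _, h1, h2⟩, rfl⟩

theorem LemB_path {X : Type*} [TopologicalSpace X] {E : ε → Matrix ι ι ℝ} {a b : Matrix ι ι ℝ}
    (ha : a ∈ Grad E) (hb : b ∈ Grad (addg E a)) (p q : I × X → ℝ) (hp : Continuous p)
    (hq : Continuous q) (h : ∀ z, 0 < p z ^ 2 + q z ^ 2) :
    HIn (SymX E) (fun x => p (0, x) • a + q (0, x) • b)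
      (fun x => p (1, x) • a + q (1, x) • b) :=
  ⟨fun z => p z • a + q z • b,
    (hp.smul continuous_const).add (hq.smul continuous_const),
    fun _ _ => LemB_ab ha hb (h _), fun _ => rfl, fun _ => rfl⟩

theorem LemB_ends {k : ℕ} {E : ε → Matrix ι ι ℝ} {a b : Matrix ι ι ℝ}
    (ha : a ∈ Grad E) (hb : b ∈ Grad (addg E a)) :
    HIn (SymX E) (fun _ : Sp (k + 1) => a)
      (fun x => x.1 0 • a + nr (Fin.tail x.1) • b) := by
  have h1 := LemB_path (X := Sp (k + 1)) ha hb (fun z => 1 - (z.1 : ℝ)) (fun z => (z.1 : ℝ))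
    (by fun_prop) (by fun_prop) (fun z => by
      nlinarith [sq_nonneg (1 - (z.1 : ℝ) - (z.1 : ℝ))])
  have hc0 : Continuous fun x : Sp (k + 1) => x.1 0 :=
    (continuous_apply 0).comp continuous_subtype_val
  have hcn : Continuous fun x : Sp (k + 1) => nr (Fin.tail x.1) := by
    refine continuous_nr.comp (continuous_pi fun i => ?_)
    exact (continuous_apply i.succ).comp continuous_subtype_val
  have hu : Continuous fun z : I × Sp (k + 1) => (z.1 : ℝ) := by fun_prop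
  have h2 := LemB_path (X := Sp (k + 1)) ha hb (fun z => (z.1 : ℝ) * z.2.1 0)
    (fun z => (z.1 : ℝ) * nr (Fin.tail z.2.1) + (1 - (z.1 : ℝ)))
    (hu.mul (hc0.comp continuous_snd))
    ((hu.mul (hcn.comp continuous_snd)).add (continuous_const.sub hu)) (fun z => by
      obtain ⟨u, x, hx⟩ := z
      have hx1 : x ⬝ᵥ x = 1 := hx
      rw [cone_dot_tail, ← cone_nr_sq] at hx1
      have hn := nr_nonneg (Fin.tail x)
      have hu0 : (0 : ℝ) ≤ u := u.2.1
      have hu1 : (u : ℝ) ≤ 1 := u.2.2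
      show 0 < ((u : ℝ) * x 0) ^ 2 + ((u : ℝ) * nr (Fin.tail x) + (1 - (u : ℝ))) ^ 2
      rcases hu0.eq_or_lt with h | h
      · rw [← h]
        norm_num
      · have h3 : ((u : ℝ) * nr (Fin.tail x)) ^ 2 ≤
            ((u : ℝ) * nr (Fin.tail x) + (1 - (u : ℝ))) ^ 2 := by
          apply pow_le_pow_left₀ (mul_nonneg hu0 hn)
          linarith
        have h4 : ((u : ℝ) * x 0) ^ 2 + ((u : ℝ) * nr (Fin.tail x)) ^ 2 = (u : ℝ) ^ 2 := by
          have : ((u : ℝ) * x 0) ^ 2 + ((u : ℝ) * nr (Fin.tail x)) ^ 2 =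
              (u : ℝ) ^ 2 * (x 0 * x 0 + nr (Fin.tail x) ^ 2) := by ring
          rw [this, hx1, mul_one]
        have h5 : 0 < (u : ℝ) ^ 2 := by positivity
        linarith)
  have e1 : (fun _ : Sp (k + 1) => a) =
      fun x : Sp (k + 1) => (1 - (((0 : I)) : ℝ)) • a + (((0 : I)) : ℝ) • b := by
    funext x
    simp
  have e2 : (fun x : Sp (k + 1) => (1 - (((1 : I)) : ℝ)) • a + (((1 : I)) : ℝ) • b) =
      fun x : Sp (k + 1) => ((((0 : I)) : ℝ) * x.1 0) • a +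
        ((((0 : I)) : ℝ) * nr (Fin.tail x.1) + (1 - (((0 : I)) : ℝ))) • b := by
    funext x
    simp
  have e3 : (fun x : Sp (k + 1) => x.1 0 • a + nr (Fin.tail x.1) • b) =
      fun x : Sp (k + 1) => ((((1 : I)) : ℝ) * x.1 0) • a +
        ((((1 : I)) : ℝ) * nr (Fin.tail x.1) + (1 - (((1 : I)) : ℝ))) • b := by
    funext x
    simp
  rw [e1, e3]
  refine HIn.trans h1 ?_
  rw [e2]
  exact h2

theorem LemB_assoc_blocks {ι₁ ι₂ : Type} (P : Matrix ι ι ℝ) (Q : Matrix ι₁ ι₁ ℝ)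
    (S : Matrix ι₂ ι₂ ℝ) :
    (fromBlocks (fromBlocks P 0 0 Q) 0 0 S).submatrix (Equiv.sumAssoc ι ι₁ ι₂).symm
      (Equiv.sumAssoc ι ι₁ ι₂).symm = fromBlocks P 0 0 (fromBlocks Q 0 0 S) := by
  ext x y
  rcases x with x | x | x <;> rcases y with y | y | y <;> rfl

end LemBAux

theorem lemB {ε ι : Type} [Fintype ι] [DecidableEq ι] (k : ℕ) (e : ε → Matrix ι ι ℝ)
    (he : ClSys e) (F : Sp (k + 1) → Matrix ι ι ℝ) (hF : Continuous F)
    (hS : ∀ x, F x ∈ SymX e) :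
    ∃ (ι' : Type) (_ : Fintype ι') (_ : DecidableEq ι') (e' : ε → Matrix ι' ι' ℝ)
      (c'' : Matrix ι' ι' ℝ) (c : Matrix (ι ⊕ ι') (ι ⊕ ι') ℝ)
      (G : Sp k → Matrix (ι ⊕ ι') (ι ⊕ ι') ℝ),
      ClSys e' ∧ c'' ∈ SymX e' ∧ c ∈ Grad (esum e e') ∧ Continuous G ∧
      (∀ y, G y ∈ Grad (addg (esum e e') c)) ∧
      HIn (SymX (esum e e')) (fun x => fromBlocks (F x) 0 0 c'')
        (fun x => x.1 0 • c + cone1 G (Fin.tail x.1)) := by
  obtain ⟨ι₁, i1, i1', e₁, c₁'', c₁, K, A, A', he₁, hc₁'', hc₁, hK, hAc, hAodd, hA0, hA', hFA⟩ :=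
    odd_family k e he F hF hS
  have hcl1 : ClSys (esum e e₁) := Lin_clSys_sum he he₁
  obtain ⟨ι₂, i2, i2', e₂, a, b, G₂, he₂, ha, hb, hG₂c, hG₂, H, Hc, HPr, H0, H1⟩ :=
    linB (esum e e₁) hcl1 c₁ K A hAc hAodd hA0 hc₁ hK
  obtain ⟨H', H'c, hH'⟩ := descend H Hc
    (fun q y y' => ((HPr q).2 y).trans ((HPr q).2 y').symm)
    (fun q y y' => by
      have h1 := (HPr q).1.2 y
      have h2 := (HPr q).1.2 y'
      simp only at h1 h2
      rw [h1, h2, neg_inj]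
      exact ((HPr q).2 y).trans ((HPr q).2 y').symm)
  have hHH : HIn (SymX (esum (esum e e₁) e₂)) (fun x => H' (0, x)) (fun x => H' (1, x)) := by
    refine ⟨H', H'c, fun u x => ?_, fun _ => rfl, fun _ => rfl⟩
    obtain ⟨p, rfl⟩ := susp_surj x
    show H' (u, susp p) ∈ _
    rw [hH']
    exact (HPr u).1.1 p
  have hcos : ∀ p : I × Sp k, (susp p).1 0 = Real.cos (Real.pi * (p.1 : ℝ)) := by
    intro p
    unfold susp sv
    simp only [Fin.cons_zero]
  have hsin : ∀ p : I × Sp k, nr (Fin.tail (susp p).1) = Real.sin (Real.pi * (p.1 : ℝ)) := by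
    intro p
    rw [cone_tail_susp, nr_smul, nr_eq_one p.2.2, mul_one, abs_of_nonneg (cone_sin_nonneg p.1)]
  have hstart : (fun x : Sp (k + 1) => H' (0, x)) =
      fun x => fromBlocks (A' x) 0 0 (x.1 0 • a + nr (Fin.tail x.1) • b) := by
    funext x
    obtain ⟨p, rfl⟩ := susp_surj x
    rw [hH', H0, hA', hcos, hsin]
    rfl
  have hchain : HIn (SymX (esum (esum e e₁) e₂))
      (fun x => fromBlocks (fromBlocks (F x) 0 0 c₁'') 0 0 a) (fun x => H' (0, x)) := by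
    rw [hstart]
    exact HIn.map₂ hFA (LemB_ends ha hb) (fun S T => fromBlocks S 0 0 T)
      (Continuous.matrix_fromBlocks continuous_fst continuous_const continuous_const
        continuous_snd)
      (fun S hS T hT => ⟨Lin_symL_sum hS.1 hT.1, Lin_isUnit_sum hS.2 hT.2⟩)
  have hall := hchain.trans hHH
  set φ := (Equiv.sumAssoc ι ι₁ ι₂).symm with hφ
  have hE : (fun i => (esum (esum e e₁) e₂ i).submatrix φ φ) = esum e (esum e₁ e₂) := by
    funext i
    exact LemB_assoc_blocks _ _ _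
  refine ⟨ι₁ ⊕ ι₂, inferInstance, inferInstance, esum e₁ e₂, fromBlocks c₁'' 0 0 a,
    (fromBlocks c₁ 0 0 a).submatrix φ φ, fun y => (G₂ y).submatrix φ φ,
    Lin_clSys_sum he₁ he₂, ⟨Lin_symL_sum hc₁''.1 ha.1, Lin_isUnit_sum hc₁''.2
      (Grad_subset_SymX _ ha).2⟩, ?_, hG₂c.matrix_submatrix _ _, fun y => ?_, ?_⟩
  · have h1 := LemB_re_grad φ (Lin_grad_sum hc₁ ha)
    rw [hE] at h1
    exact h1
  · have h1 := LemB_re_grad φ (hG₂ y)
    rw [LemB_re_addg, hE] at h1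
    exact h1
  · have h1 := hall.map' (B := SymX (esum e (esum e₁ e₂)))
      (fun M => M.submatrix φ φ) (continuous_id.matrix_submatrix _ _)
      (fun M hM => by
        have h2 := LemB_re_symX φ hM
        rw [hE] at h2
        exact h2)
    have e1 : (fun x : Sp (k + 1) => fromBlocks (F x) 0 0 (fromBlocks c₁'' 0 0 a)) =
        fun x => (fromBlocks (fromBlocks (F x) 0 0 c₁'') 0 0 a).submatrix φ φ := by
      funext x
      exact (LemB_assoc_blocks _ _ _).symm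
    have e2 : (fun x : Sp (k + 1) => x.1 0 • (fromBlocks c₁ 0 0 a).submatrix φ φ +
        cone1 (fun y => (G₂ y).submatrix φ φ) (Fin.tail x.1)) =
        fun x => (H' (1, x)).submatrix φ φ := by
      funext x
      obtain ⟨p, rfl⟩ := susp_surj x
      rw [hH', H1, hcos]
      unfold cone1
      rw [cone_susp]
      rfl
    rw [e1, e2]
    exact h1

end DT
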