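import Pool.Agent.H78.DT.Bott0

/-!
# Degree reduction (job DT-ST2)

Let `P : I × Y → Matrix ι ι ℝ` be an odd trigonometric polynomial of degree `2(m+1)+1` with
coefficients in `SymL e`, with invertible values.  By definition `P = c² P₂ + s² P₁`
(`c = cos πt`, `s = sin πt`) with `P₁, P₂` of degree `2m+1`.

PROOF. Put
`Q = [[P₂, -s, 0], [-s, 0, c], [0, c, P₁]]` (3 x 3 blocks; `s`, `c` mean scalar matrices).
(i) `Trig (SymL (e3 e)) m Q`: the entries are odd trigonometric polynomials of degree `2m+1`: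
prove the general facts that `Trig L` is monotone in `m` (`F = c²F + s²F`), stable under sums
(for `L` stable under sums; `SymL` is), that
`Trig L m F` implies `Trig L' m (Λ ∘ F)` for a linear (continuous) map `Λ` with `Λ L ⊆ L'`
(use it for `A ↦ blk3 A 0 ... 0` and `A ↦ blk3 0 ... 0 A`), and that
`p ↦ blk3 0 (-s) 0 (-s) 0 c 0 c 0` is `Trig (SymL (e3 e)) 0` (it is `lin a b t` with
`a = blk3 0 0 0 0 0 1 0 1 0`, `b = blk3 0 (-1) 0 (-1) 0 0 0 0 0`, both in `SymL (e3 e)`: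
e.g. `a` has blocks 2, 3 swapped and the generators there are `-e`, `e`).
(ii) Homotopy from `StF (P p) p.1` to `Q`: let `D = P₁ - P₂` and for `u ∈ I`
`Q_u = StF P + u • X`, where
`X = x (n fᵀ + f nᵀ) + y f fᵀ`, `n = (c, 0, s)`, `f = (-s, 0, c)` (columns of scalar blocks),
`x = cs (P₁ - P₂)`, `y = s² P₂ + c² P₁`.
Explicitly `n fᵀ + f nᵀ = [[-2cs, 0, c²-s²], [0,0,0], [c²-s², 0, 2cs]]`,
`f fᵀ = [[s², 0, -cs], [0,0,0], [-cs, 0, c²]]`.
`Q_1 = Q` (check: the block (1,1): `c²P - 2c²s²(P₁-P₂) + s²(s²P₂+c²P₁) = P₂` using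
`P = c²P₂+s²P₁`, `c²+s²=1`; block (3,3): `s²P + 2c²s²(P₁-P₂) + c²(s²P₂+c²P₁) = P₁`;
block (1,3): `csP + cs(c²-s²)(P₁-P₂) - cs(s²P₂+c²P₁) = 0`).
Invertibility of `Q_u`: with the orthogonal matrix `ρ = [[c,0,s],[0,1,0],[-s,0,c]]` (rows
`n, e₂, f`), `Q_u = ρᵀ [[P, 0, ux], [0, 0, 1], [ux, 1, uy]] ρ`, and the middle matrix has the
explicit inverse `[[P⁻¹, -uP⁻¹x, 0], [-ux P⁻¹, u²xP⁻¹x - uy, 1], [0, 1, 0]]`.
Symmetry and anticommutation with `e3 e i` are clear (`x`, `y` are in `SymL e`; the blocks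
(2,3), (3,2), (1,2), (2,1) are scalar and connect blocks with opposite generators).
Oddness: for `Trig` functions `F (1, y) = - F (0, y)` (induction; `cos π = -1`, `sin π = 0`), and
at `t = 0` resp. `t = 1`: `c = ±1`, `s = 0`, so `Q_u(1,y) = -Q_u(0,y)`:
`Q_u = blk3 P 0 0 0 0 c 0 c (u P₁)` at the two ends (`x = 0`, `y = c² P₁ = P₁`).
Continuity: `Trig` functions are continuous.
-/

open Matrix Set unitInterval Topology

noncomputable section

namespace DT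

section trig

variable {Y V V' : Type} [TopologicalSpace Y] [TopologicalSpace V] [AddCommGroup V] [Module ℝ V]
  [TopologicalSpace V'] [AddCommGroup V'] [Module ℝ V']

theorem st2_mono {L : Set V} {m : ℕ} {F : I × Y → V} (h : Trig L m F) : Trig L (m + 1) F :=
  ⟨F, F, h, h, fun p => by rw [← add_smul, Real.cos_sq_add_sin_sq, one_smul]⟩

theorem st2_mono0 {L : Set V} {F : I × Y → V} (h : Trig L 0 F) (m : ℕ) : Trig L m F := by
  induction m with
  | zero => exact h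
  | succ m ih => exact st2_mono ih

theorem st2_add [ContinuousAdd V] {L : Set V} (hL : ∀ a ∈ L, ∀ b ∈ L, a + b ∈ L) (m : ℕ) :
    ∀ F G : I × Y → V, Trig L m F → Trig L m G → Trig L m fun p => F p + G p := by
  induction m with
  | zero =>
    rintro F G ⟨a, b, ha, hb, haL, hbL, h⟩ ⟨a', b', ha', hb', haL', hbL', h'⟩
    refine ⟨fun y => a y + a' y, fun y => b y + b' y, ha.add ha', hb.add hb',
      fun y => hL _ (haL y) _ (haL' y), fun y => hL _ (hbL y) _ (hbL' y), fun p => ?_⟩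
    show F p + G p = _
    rw [h, h']
    simp only [lin, smul_add]
    abel
  | succ m ih =>
    rintro F G ⟨A, B, hA, hB, h⟩ ⟨A', B', hA', hB', h'⟩
    refine ⟨fun p => A p + A' p, fun p => B p + B' p, ih _ _ hA hA', ih _ _ hB hB', fun p => ?_⟩
    show F p + G p = _
    rw [h, h']
    simp only [smul_add]
    abel

theorem st2_map {L : Set V} {L' : Set V'} (Λ : V →ₗ[ℝ] V') (hΛ : Continuous Λ)
    (hL : ∀ a ∈ L, Λ a ∈ L') (m : ℕ) :
    ∀ F : I × Y → V, Trig L m F → Trig L' m fun p => Λ (F p) := by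
  induction m with
  | zero =>
    rintro F ⟨a, b, ha, hb, haL, hbL, h⟩
    refine ⟨fun y => Λ (a y), fun y => Λ (b y), hΛ.comp ha, hΛ.comp hb,
      fun y => hL _ (haL y), fun y => hL _ (hbL y), fun p => ?_⟩
    simp only [h, lin, map_add, map_smul]
  | succ m ih =>
    rintro F ⟨A, B, hA, hB, h⟩
    refine ⟨fun p => Λ (A p), fun p => Λ (B p), ih _ hA, ih _ hB, fun p => ?_⟩
    simp only [h, map_add, map_smul]

theorem st2_odd {L : Set V} (m : ℕ) :
    ∀ F : I × Y → V, Trig L m F → ∀ y, F (1, y) = - F (0, y) := by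
  induction m with
  | zero =>
    rintro F ⟨a, b, ha, hb, haL, hbL, h⟩ y
    rw [h, h]
    simp [lin]
  | succ m ih =>
    rintro F ⟨A, B, hA, hB, h⟩ y
    rw [h, h]
    simp [ih A hA y]

theorem st2_cont [ContinuousAdd V] [ContinuousSMul ℝ V] {L : Set V} (m : ℕ) :
    ∀ F : I × Y → V, Trig L m F → Continuous F := by
  have hc : Continuous fun p : I × Y => Real.cos (Real.pi * (p.1 : ℝ)) := by fun_prop
  have hs : Continuous fun p : I × Y => Real.sin (Real.pi * (p.1 : ℝ)) := by fun_prop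
  induction m with
  | zero =>
    rintro F ⟨a, b, ha, hb, haL, hbL, h⟩
    have : F = fun p : I × Y => lin (a p.2) (b p.2) (p.1 : ℝ) := funext h
    rw [this]
    exact (hc.smul (ha.comp continuous_snd)).add (hs.smul (hb.comp continuous_snd))
  | succ m ih =>
    rintro F ⟨A, B, hA, hB, h⟩
    rw [show F = _ from funext h]
    exact ((hc.pow 2).smul (ih A hA)).add ((hs.pow 2).smul (ih B hB))

theorem st2_mem {L : Set V} (hadd : ∀ a ∈ L, ∀ b ∈ L, a + b ∈ L)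
    (hsm : ∀ (r : ℝ), ∀ a ∈ L, r • a ∈ L) (m : ℕ) :
    ∀ F : I × Y → V, Trig L m F → ∀ p, F p ∈ L := by
  induction m with
  | zero =>
    rintro F ⟨a, b, ha, hb, haL, hbL, h⟩ p
    rw [h]
    exact hadd _ (hsm _ _ (haL _)) _ (hsm _ _ (hbL _))
  | succ m ih =>
    rintro F ⟨A, B, hA, hB, h⟩ p
    rw [h]
    exact hadd _ (hsm _ _ (ih A hA p)) _ (hsm _ _ (ih B hB p))

end trig

section mat

variable {ε ι : Type} [Fintype ι] [DecidableEq ι]

theorem st2_symL_add {e : ε → Matrix ι ι ℝ} : ∀ a ∈ SymL e, ∀ b ∈ SymL e, a + b ∈ SymL e := by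
  rintro a ⟨ha, ha'⟩ b ⟨hb, hb'⟩
  refine ⟨by rw [transpose_add, ha, hb], fun i => ?_⟩
  rw [add_mul, mul_add, ha', hb', neg_add]

theorem st2_symL_smul {e : ε → Matrix ι ι ℝ} : ∀ (r : ℝ), ∀ a ∈ SymL e, r • a ∈ SymL e := by
  rintro r a ⟨ha, ha'⟩
  refine ⟨by rw [transpose_smul, ha], fun i => ?_⟩
  rw [smul_mul_assoc, mul_smul_comm, ha', smul_neg]

theorem st2_symL_zero {e : ε → Matrix ι ι ℝ} : (0 : Matrix ι ι ℝ) ∈ SymL e :=
  ⟨transpose_zero, fun i => by simp⟩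

theorem st2_blk {e : ε → Matrix ι ι ℝ} {a c i : Matrix ι ι ℝ} (ha : a ∈ SymL e)
    (hc : c ∈ SymL e) (hi : i ∈ SymL e) (b d : ℝ) :
    blk3 a (b • 1) c (b • 1) 0 (d • 1) c (d • 1) i ∈ SymL (e3 e) := by
  constructor
  · rw [blk3_transpose, ha.1, hc.1, hi.1]
    simp
  · intro j
    rw [e3_eq, blk3_mul, blk3_mul, blk3_neg]
    simp [ha.2 j, hc.2 j, hi.2 j]

/-- The rotation in the blocks 1, 3. -/
def st2R (ι : Type) [Fintype ι] [DecidableEq ι] (c s : ℝ) :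
    Matrix (ι ⊕ (ι ⊕ ι)) (ι ⊕ (ι ⊕ ι)) ℝ :=
  blk3 (c • 1) 0 (s • 1) 0 1 0 (-(s • 1)) 0 (c • 1)

theorem st2R_mul {c s : ℝ} (h : c ^ 2 + s ^ 2 = 1) :
    st2R ι c s * (st2R ι c s)ᵀ = 1 := by
  unfold st2R
  rw [blk3_transpose, blk3_mul, blk3_one]
  have h1 : (c * c + s * s) = 1 := by nlinarith
  have h2 : (s * s + c * c) = 1 := by nlinarith
  congr 1 <;> simp [smul_smul, ← add_smul, h1, h2, mul_comm]

/-- The total matrix of the homotopy. -/
def st2H (c s u : ℝ) (A B : Matrix ι ι ℝ) : Matrix (ι ⊕ (ι ⊕ ι)) (ι ⊕ (ι ⊕ ι)) ℝ :=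
  blk3 (c ^ 2 • (c ^ 2 • A + s ^ 2 • B) + u • (-(2 * c * s) • ((c * s) • (B - A))
        + s ^ 2 • (s ^ 2 • A + c ^ 2 • B))) ((-s) • 1)
      ((c * s) • (c ^ 2 • A + s ^ 2 • B) + u • ((c ^ 2 - s ^ 2) • ((c * s) • (B - A))
        - (c * s) • (s ^ 2 • A + c ^ 2 • B)))
    ((-s) • 1) 0 (c • 1)
      ((c * s) • (c ^ 2 • A + s ^ 2 • B) + u • ((c ^ 2 - s ^ 2) • ((c * s) • (B - A))
        - (c * s) • (s ^ 2 • A + c ^ 2 • B))) (c • 1)
      (s ^ 2 • (c ^ 2 • A + s ^ 2 • B) + u • ((2 * c * s) • ((c * s) • (B - A))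
        + c ^ 2 • (s ^ 2 • A + c ^ 2 • B)))

theorem st2H_eq (c s : ℝ) (u : ℝ) (A B : Matrix ι ι ℝ) :
    st2H c s u A B = (st2R ι c s)ᵀ *
      blk3 (c ^ 2 • A + s ^ 2 • B) 0 (u • ((c * s) • (B - A))) 0 0 1
        (u • ((c * s) • (B - A))) 1 (u • (s ^ 2 • A + c ^ 2 • B)) * st2R ι c s := by
  unfold st2H st2R
  rw [blk3_transpose, blk3_mul, blk3_mul]
  congr 1 <;> (simp only [transpose_smul, transpose_one, transpose_zero, transpose_neg,
    smul_mul_assoc, mul_smul_comm, one_mul, mul_one, zero_mul, mul_zero, add_zero, zero_add,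
    neg_mul, mul_neg]; try module)

theorem st2M_unit {P x y : Matrix ι ι ℝ} (hP : IsUnit P) (u : ℝ) :
    IsUnit (blk3 P 0 (u • x) 0 0 1 (u • x) 1 (u • y)) := by
  have hP1 : P * P⁻¹ = 1 := Matrix.mul_nonsing_inv P ((Matrix.isUnit_iff_isUnit_det P).1 hP)
  refine IsUnit.of_mul_eq_one (blk3 P⁻¹ (-(u • (P⁻¹ * x))) 0 (-(u • (x * P⁻¹)))
    (u • u • (x * P⁻¹ * x) - u • y) 1 0 1 0) ?_
  rw [blk3_mul, blk3_one]
  congr 1 <;> simp [hP1, ← Matrix.mul_assoc, smul_smul]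
  abel

theorem st2H_unit {c s : ℝ} (h : c ^ 2 + s ^ 2 = 1) (u : ℝ) {A B : Matrix ι ι ℝ}
    (hP : IsUnit (c ^ 2 • A + s ^ 2 • B)) : IsUnit (st2H c s u A B) := by
  rw [st2H_eq c s]
  have h1 : IsUnit (st2R ι c s) := IsUnit.of_mul_eq_one _ (st2R_mul h)
  have h2 : IsUnit (st2R ι c s)ᵀ := IsUnit.of_mul_eq_one _ (mul_eq_one_comm.1 (st2R_mul h))
  exact (h2.mul (st2M_unit hP u)).mul h1

theorem st2H_mem {e : ε → Matrix ι ι ℝ} (c s u : ℝ) {A B : Matrix ι ι ℝ} (hA : A ∈ SymL e)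
    (hB : B ∈ SymL e) : st2H c s u A B ∈ SymL (e3 e) := by
  have hs := fun (r : ℝ) (a : Matrix ι ι ℝ) (ha : a ∈ SymL e) => st2_symL_smul r a ha
  have ha := fun (a b : Matrix ι ι ℝ) (ha : a ∈ SymL e) (hb : b ∈ SymL e) =>
    st2_symL_add a ha b hb
  have hsub : ∀ a b : Matrix ι ι ℝ, a ∈ SymL e → b ∈ SymL e → a - b ∈ SymL e := by
    intro a b h1 h2
    rw [sub_eq_add_neg, ← neg_one_smul ℝ b]
    exact ha _ _ h1 (hs _ _ h2)
  have hP : c ^ 2 • A + s ^ 2 • B ∈ SymL e := ha _ _ (hs _ _ hA) (hs _ _ hB)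
  have hx : (c * s) • (B - A) ∈ SymL e := hs _ _ (hsub _ _ hB hA)
  have hy : s ^ 2 • A + c ^ 2 • B ∈ SymL e := ha _ _ (hs _ _ hA) (hs _ _ hB)
  exact st2_blk (ha _ _ (hs _ _ hP) (hs _ _ (ha _ _ (hs _ _ hx) (hs _ _ hy))))
    (ha _ _ (hs _ _ hP) (hs _ _ (hsub _ _ (hs _ _ hx) (hs _ _ hy))))
    (ha _ _ (hs _ _ hP) (hs _ _ (ha _ _ (hs _ _ hx) (hs _ _ hy)))) _ _

omit [Fintype ι] in
theorem st2H_zero (t : ℝ) (A B : Matrix ι ι ℝ) :
    st2H (Real.cos (Real.pi * t)) (Real.sin (Real.pi * t)) 0 A B =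
      StF (Real.cos (Real.pi * t) ^ 2 • A + Real.sin (Real.pi * t) ^ 2 • B) t := by
  unfold st2H StF
  simp only [zero_smul, add_zero, neg_smul]

omit [Fintype ι] in
theorem st2H_one {c s : ℝ} (h : c ^ 2 + s ^ 2 = 1) (A B : Matrix ι ι ℝ) :
    st2H c s 1 A B = blk3 A ((-s) • 1) 0 ((-s) • 1) 0 (c • 1) 0 (c • 1) B := by
  unfold st2H
  have h2 : (c ^ 2 + s ^ 2) ^ 2 = 1 := by rw [h, one_pow]
  congr 1
  · calc _ = (c ^ 2 + s ^ 2) ^ 2 • A := by module
      _ = A := by rw [h2, one_smul]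
  · module
  · module
  · calc _ = (c ^ 2 + s ^ 2) ^ 2 • B := by module
      _ = B := by rw [h2, one_smul]

end mat

theorem st2 {ε ι Y : Type} [Fintype ι] [DecidableEq ι] [TopologicalSpace Y]
    (e : ε → Matrix ι ι ℝ) (m : ℕ) (P : I × Y → Matrix ι ι ℝ)
    (hP : Trig (SymL e) (m + 1) P) (hU : ∀ p, P p ∈ SymX e) :
    ∃ Q : I × Y → Matrix (ι ⊕ (ι ⊕ ι)) (ι ⊕ (ι ⊕ ι)) ℝ, Trig (SymL (e3 e)) m Q ∧
      HP (OddF (e3 e)) (fun p => StF (P p) (p.1 : ℝ)) Q := by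
  obtain ⟨A, B, hA, hB, h⟩ := hP
  have hcs : ∀ t : ℝ, Real.cos (Real.pi * t) ^ 2 + Real.sin (Real.pi * t) ^ 2 = 1 :=
    fun t => Real.cos_sq_add_sin_sq _
  refine ⟨fun p => blk3 (A p) ((-Real.sin (Real.pi * (p.1 : ℝ))) • 1) 0
    ((-Real.sin (Real.pi * (p.1 : ℝ))) • 1) 0 (Real.cos (Real.pi * (p.1 : ℝ)) • 1) 0
    (Real.cos (Real.pi * (p.1 : ℝ)) • 1) (B p), ?_, ?_⟩
  · let Λ₁ : Matrix ι ι ℝ →ₗ[ℝ] Matrix (ι ⊕ (ι ⊕ ι)) (ι ⊕ (ι ⊕ ι)) ℝ :=
      { toFun := fun a => blk3 a 0 0 0 0 0 0 0 0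
        map_add' := fun a b => by rw [blk3_add]; simp
        map_smul' := fun r a => by rw [RingHom.id_apply, blk3_smul]; simp }
    let Λ₂ : Matrix ι ι ℝ →ₗ[ℝ] Matrix (ι ⊕ (ι ⊕ ι)) (ι ⊕ (ι ⊕ ι)) ℝ :=
      { toFun := fun a => blk3 0 0 0 0 0 0 0 0 a
        map_add' := fun a b => by rw [blk3_add]; simp
        map_smul' := fun r a => by rw [RingHom.id_apply, blk3_smul]; simp }
    have h0 := st2_symL_zero (e := e)
    have hm1 : ∀ a ∈ SymL e, Λ₁ a ∈ SymL (e3 e) := by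
      intro a ha
      have := st2_blk ha h0 h0 0 0
      show blk3 a 0 0 0 0 0 0 0 0 ∈ SymL (e3 e)
      simpa using this
    have hm2 : ∀ a ∈ SymL e, Λ₂ a ∈ SymL (e3 e) := by
      intro a ha
      have := st2_blk h0 h0 ha 0 0
      show blk3 0 0 0 0 0 0 0 0 a ∈ SymL (e3 e)
      simpa using this
    have hc1 : Continuous Λ₁ := continuous_blk3 continuous_id continuous_const continuous_const
      continuous_const continuous_const continuous_const continuous_const continuous_const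
      continuous_const
    have hc2 : Continuous Λ₂ := continuous_blk3 continuous_const continuous_const continuous_const
      continuous_const continuous_const continuous_const continuous_const continuous_const
      continuous_id
    have t1 := st2_map (L' := SymL (e3 e)) Λ₁ hc1 hm1 m A hA
    have t2 := st2_map (L' := SymL (e3 e)) Λ₂ hc2 hm2 m B hB
    have t3 : Trig (SymL (e3 e)) m (fun p : I × Y => lin
        (blk3 0 0 0 0 0 1 0 1 0 : Matrix (ι ⊕ (ι ⊕ ι)) (ι ⊕ (ι ⊕ ι)) ℝ)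
        (blk3 0 (-1) 0 (-1) 0 0 0 0 0) (p.1 : ℝ)) := by
      apply st2_mono0
      refine ⟨fun _ => blk3 0 0 0 0 0 1 0 1 0, fun _ => blk3 0 (-1) 0 (-1) 0 0 0 0 0,
        continuous_const, continuous_const, fun _ => ?_, fun _ => ?_, fun _ => rfl⟩
      · have := st2_blk h0 h0 h0 0 1
        simpa using this
      · have := st2_blk h0 h0 h0 (-1) 0
        simpa using this
    have t4 := st2_add st2_symL_add m _ _ (st2_add st2_symL_add m _ _ t1 t2) t3
    convert t4 using 2 with p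
    simp only [Λ₁, Λ₂, LinearMap.coe_mk, AddHom.coe_mk, lin, blk3_smul, blk3_add]
    simp
  · have hAc := st2_cont m A hA
    have hBc := st2_cont m B hB
    have hAm := st2_mem st2_symL_add st2_symL_smul m A hA
    have hBm := st2_mem st2_symL_add st2_symL_smul m B hB
    have hAo := st2_odd m A hA
    have hBo := st2_odd m B hB
    refine ⟨fun q => st2H (Real.cos (Real.pi * (q.2.1 : ℝ))) (Real.sin (Real.pi * (q.2.1 : ℝ)))
      (q.1 : ℝ) (A q.2) (B q.2), ?_, fun u => ⟨fun p => ⟨?_, ?_⟩, fun y => ?_⟩, fun p => ?_,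
      fun p => ?_⟩
    · have hA' : Continuous fun q : I × (I × Y) => A q.2 := hAc.comp continuous_snd
      have hB' : Continuous fun q : I × (I × Y) => B q.2 := hBc.comp continuous_snd
      have hc : Continuous fun q : I × (I × Y) => Real.cos (Real.pi * (q.2.1 : ℝ)) := by fun_prop
      have hs : Continuous fun q : I × (I × Y) => Real.sin (Real.pi * (q.2.1 : ℝ)) := by fun_prop
      have hu : Continuous fun q : I × (I × Y) => (q.1 : ℝ) := by fun_prop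
      unfold st2H
      apply continuous_blk3 <;> fun_prop
    · exact st2H_mem _ _ _ (hAm p) (hBm p)
    · refine st2H_unit (hcs _) _ ?_
      have := (hU p).2
      rwa [h p] at this
    · simp only [hAo y, hBo y]
      unfold st2H
      rw [blk3_neg]
      simp
    · simp only [Icc.coe_zero]
      rw [st2H_zero, ← h p]
    · simp only [Icc.coe_one]
      rw [st2H_one (hcs _)]

end DT
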