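import Pool.Agent.H78.DT.St1
import Pool.Agent.H78.DT.St2

/-!
# Linearisation of an odd family (job DT-LIN)

PROOF. Induction on `m` (for all `ι, e, c, K, A, P` simultaneously).
`m = 0`: `P = lin (L0 y) (L1 y) t` by definition of `Trig _ 0`.  Take `ι' = Empty` (all matrices
over `Empty` are equal; `ClSys`, `Grad` hold trivially, `a = b = 0`), and transport the homotopy
from `A` to `P` to `ι ⊕ Empty` by `fromBlocks · 0 0 0`.
`m + 1`: by `st1`, `HP (OddF (e3 e)) (A ⊕ hyp K) (StF A)` (forget the condition at `0`);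
applying `StF` to the homotopy from `A` to `P` gives
`HP (OddF (e3 e)) (StF A) (StF P)` (`StF (B) t` is symmetric, anticommutes with `e3 e`, is
invertible because `StF B = ρᵀ (B ⊕ σ) ρ`, `ρ` orthogonal, and
`StF (-B) 1 = -StF (B) 0` blockwise: `c = ∓1, s = 0`); by `st2`, `HP (OddF (e3 e)) (StF P) Q`,
`Trig (SymL (e3 e)) m Q`.  Apply the induction hypothesis to `ι ⊕ (ι ⊕ ι)`, `e3 e`,
`c₁ = fromBlocks c 0 0 (fromBlocks 0 1 1 0)`,
`K₁ = fromBlocks K 0 0 (fromBlocks K 0 0 K)`,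
`A₁ = A ⊕ hyp K` (at `t = 0` it is `c₁`), `Q`.  It gives `ι''`, `e''`, `a''`, `b''` and
`HP (A₁ ⊕ lin a'' b'') (lin L0 L1)` over `(ι ⊕ (ι ⊕ ι)) ⊕ ι''`.  Reindex by
`Equiv.sumAssoc : (ι ⊕ (ι ⊕ ι)) ⊕ ι'' ≃ ι ⊕ ((ι ⊕ ι) ⊕ ι'')`:
`ι' = (ι ⊕ ι) ⊕ ι''`, `e' i = fromBlocks (fromBlocks (-(e i)) 0 0 (e i)) 0 0 (e'' i)`,
`a = fromBlocks (fromBlocks 0 1 1 0) 0 0 a''`, `b = fromBlocks (fromBlocks 0 K Kᵀ 0) 0 0 b''`
(`hyp K t = lin (fromBlocks 0 1 1 0) (fromBlocks 0 K Kᵀ 0) t`).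
Checks: `b² = 1` since `K Kᵀ = 1`; `a b + b a = 0` since `K + Kᵀ = 0`; all symmetric and
anticommuting with `e'`; `Cpx (e3 e) c₁ K₁`.
-/

open Matrix Set unitInterval Topology

noncomputable section

namespace DT

set_option linter.unusedSectionVars false
set_option linter.unusedSimpArgs false

section aux

variable {ε ι ι' : Type} [Fintype ι] [DecidableEq ι] [Fintype ι'] [DecidableEq ι']

theorem Lin_isUnit_sum {A : Matrix ι ι ℝ} {D : Matrix ι' ι' ℝ} (hA : IsUnit A) (hD : IsUnit D) :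
    IsUnit (fromBlocks A 0 0 D) := by
  rw [Matrix.isUnit_iff_isUnit_det] at hA hD ⊢
  rw [Matrix.det_fromBlocks_zero₂₁]
  exact hA.mul hD

theorem Lin_symL_sum {e : ε → Matrix ι ι ℝ} {e' : ε → Matrix ι' ι' ℝ} {S : Matrix ι ι ℝ}
    {S' : Matrix ι' ι' ℝ} (h : S ∈ SymL e) (h' : S' ∈ SymL e') :
    fromBlocks S 0 0 S' ∈ SymL (esum e e') := by
  refine ⟨?_, fun i => ?_⟩
  · rw [fromBlocks_transpose, h.1, h'.1]
    simp
  · simp only [esum, fromBlocks_multiply, fromBlocks_neg, h.2 i, h'.2 i]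
    simp

theorem Lin_grad_sum {e : ε → Matrix ι ι ℝ} {e' : ε → Matrix ι' ι' ℝ} {S : Matrix ι ι ℝ}
    {S' : Matrix ι' ι' ℝ} (h : S ∈ Grad e) (h' : S' ∈ Grad e') :
    fromBlocks S 0 0 S' ∈ Grad (esum e e') := by
  refine ⟨Lin_symL_sum h.1 h'.1, ?_⟩
  simp only [fromBlocks_multiply, h.2, h'.2]
  simp

theorem Lin_clSys_sum {e : ε → Matrix ι ι ℝ} {e' : ε → Matrix ι' ι' ℝ} (h : ClSys e)
    (h' : ClSys e') : ClSys (esum e e') := by
  refine ⟨fun i => ⟨?_, ?_⟩, fun i j hij => ?_⟩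
  · simp only [esum, fromBlocks_transpose, (h.1 i).1, (h'.1 i).1]
    simp
  · simp only [esum, fromBlocks_multiply, (h.1 i).2, (h'.1 i).2]
    simp
  · simp only [esum, fromBlocks_multiply, fromBlocks_neg, h.2 i j hij, h'.2 i j hij]
    simp

theorem Lin_clSys_neg {e : ε → Matrix ι ι ℝ} (h : ClSys e) : ClSys (fun i => -(e i)) := by
  refine ⟨fun i => ⟨?_, ?_⟩, fun i j hij => ?_⟩
  · simp only [transpose_neg, (h.1 i).1]
  · simp only [neg_mul_neg, (h.1 i).2]
  · simp only [neg_mul_neg, h.2 i j hij]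

theorem Lin_addg_sum (e : ε → Matrix ι ι ℝ) (e' : ε → Matrix ι' ι' ℝ) (a : Matrix ι ι ℝ)
    (a' : Matrix ι' ι' ℝ) :
    addg (esum e e') (fromBlocks a 0 0 a') = esum (addg e a) (addg e' a') := by
  funext i
  rcases i with i | i <;> rfl

theorem Lin_oddF_sum {Y : Type} {e : ε → Matrix ι ι ℝ} {e' : ε → Matrix ι' ι' ℝ}
    {A : I × Y → Matrix ι ι ℝ} {B : I × Y → Matrix ι' ι' ℝ} (hA : OddF e A) (hB : OddF e' B) :
    OddF (esum e e') (fun p => fromBlocks (A p) 0 0 (B p)) := by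
  refine ⟨fun p => ⟨Lin_symL_sum (hA.1 p).1 (hB.1 p).1, Lin_isUnit_sum (hA.1 p).2 (hB.1 p).2⟩,
    fun y => ?_⟩
  simp only [hA.2 y, hB.2 y, fromBlocks_neg, neg_zero]

theorem Lin_StF_mul {A A' : Matrix ι ι ℝ} (h : A * A' = 1) (t : ℝ) :
    StF A t * StF A' t = 1 := by
  have hcs := Real.sin_sq_add_cos_sq (Real.pi * t)
  set c := Real.cos (Real.pi * t) with hc
  set s := Real.sin (Real.pi * t) with hs
  unfold StF
  rw [← hc, ← hs, blk3_mul, blk3_one]
  simp only [smul_mul_assoc, mul_smul_comm, smul_smul, h, Matrix.mul_one, Matrix.one_mul,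
    neg_mul, mul_neg, neg_neg, mul_zero, zero_mul, add_zero, smul_neg]
  have k0 : ∀ (r : ℝ) (X : Matrix ι ι ℝ), r = 0 → r • X = 0 := by
    intro r X h; rw [h, zero_smul]
  have k1 : ∀ (r : ℝ) (X : Matrix ι ι ℝ), r = 1 → r • X = X := by
    intro r X h; rw [h, one_smul]
  congr 1
  · simp only [smul_zero, neg_zero, add_zero, ← neg_smul, ← add_smul]
    exact k1 _ _ (by linear_combination (c ^ 2 + 1) * hcs)
  · simp only [smul_zero, neg_zero, add_zero, ← neg_smul, ← add_smul]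
    exact k0 _ _ (by ring)
  · simp only [smul_zero, neg_zero, add_zero, ← neg_smul, ← add_smul]
    exact k0 _ _ (by linear_combination (c * s) * hcs)
  · simp only [smul_zero, neg_zero, add_zero, ← neg_smul, ← add_smul]
    exact k0 _ _ (by ring)
  · simp only [smul_zero, neg_zero, add_zero, ← neg_smul, ← add_smul]
    exact k1 _ _ (by linear_combination hcs)
  · simp only [smul_zero, neg_zero, add_zero, ← neg_smul, ← add_smul]
    exact k0 _ _ (by ring)
  · simp only [smul_zero, neg_zero, add_zero, ← neg_smul, ← add_smul]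
    exact k0 _ _ (by linear_combination (c * s) * hcs)
  · simp only [smul_zero, neg_zero, add_zero, ← neg_smul, ← add_smul]
    exact k0 _ _ (by ring)
  · simp only [smul_zero, neg_zero, add_zero, ← neg_smul, ← add_smul]
    exact k1 _ _ (by linear_combination (s ^ 2 + 1) * hcs)

theorem Lin_StF_isUnit {A : Matrix ι ι ℝ} (h : IsUnit A) (t : ℝ) : IsUnit (StF A t) := by
  have hd := (Matrix.isUnit_iff_isUnit_det A).mp h
  exact ⟨⟨StF A t, StF A⁻¹ t, Lin_StF_mul (Matrix.mul_nonsing_inv A hd) t,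
    Lin_StF_mul (Matrix.nonsing_inv_mul A hd) t⟩, rfl⟩

theorem Lin_StF_symL {e : ε → Matrix ι ι ℝ} {A : Matrix ι ι ℝ} (h : A ∈ SymL e) (t : ℝ) :
    StF A t ∈ SymL (e3 e) := by
  refine ⟨?_, fun i => ?_⟩
  · unfold StF
    rw [blk3_transpose]
    simp only [transpose_smul, transpose_neg, transpose_one, transpose_zero, h.1]
  · rw [e3_eq]
    unfold StF
    rw [blk3_mul, blk3_mul, blk3_neg]
    simp only [smul_mul_assoc, mul_smul_comm, h.2 i, Matrix.mul_one, Matrix.one_mul,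
      neg_mul, mul_neg, neg_neg, mul_zero, zero_mul, add_zero, zero_add, smul_neg, neg_zero,
      smul_zero]

theorem Lin_StF_cont {X : Type*} [TopologicalSpace X] {A : X → Matrix ι ι ℝ} {t : X → ℝ}
    (hA : Continuous A) (ht : Continuous t) : Continuous fun x => StF (A x) (t x) := by
  unfold StF
  apply continuous_blk3 <;> fun_prop

theorem Lin_StF_oddF {Y : Type} {e : ε → Matrix ι ι ℝ} {A : I × Y → Matrix ι ι ℝ}
    (h : OddF e A) : OddF (e3 e) (fun p => StF (A p) (p.1 : ℝ)) := by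
  refine ⟨fun p => ⟨Lin_StF_symL (h.1 p).1 _, Lin_StF_isUnit (h.1 p).2 _⟩, fun y => ?_⟩
  simp only [h.2 y]
  unfold StF
  rw [blk3_neg]
  simp

theorem Lin_hyp_eq (K : Matrix ι ι ℝ) (t : ℝ) :
    hyp K t = lin (fromBlocks 0 1 1 0) (fromBlocks 0 K Kᵀ 0) t := by
  unfold hyp lin
  simp [fromBlocks_smul, fromBlocks_add]

theorem Lin_swap_grad (e : ε → Matrix ι ι ℝ) :
    fromBlocks 0 1 1 0 ∈ Grad (esum (fun i => -(e i)) e) := by
  refine ⟨⟨?_, fun i => ?_⟩, ?_⟩
  · simp [fromBlocks_transpose]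
  · simp [esum, fromBlocks_multiply, fromBlocks_neg]
  · simp [fromBlocks_multiply]

theorem Lin_K_grad {e : ε → Matrix ι ι ℝ} {c K : Matrix ι ι ℝ} (h : Cpx e c K) :
    fromBlocks 0 K Kᵀ 0 ∈ Grad (addg (esum (fun i => -(e i)) e) (fromBlocks 0 1 1 0)) := by
  obtain ⟨h1, h2, -, h4⟩ := h
  refine ⟨⟨?_, fun i => ?_⟩, ?_⟩
  · simp [fromBlocks_transpose]
  · rcases i with i | i
    · simp [addg, esum, fromBlocks_multiply, fromBlocks_neg, h1, h4 i]
    · simp [addg, fromBlocks_multiply, fromBlocks_neg, h1]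
  · simp [fromBlocks_multiply, h1, h2]

theorem Lin_lin_sum (a b : Matrix ι ι ℝ) (a' b' : Matrix ι' ι' ℝ) (t : ℝ) :
    fromBlocks (lin a b t) 0 0 (lin a' b' t) =
      lin (fromBlocks a 0 0 a') (fromBlocks b 0 0 b') t := by
  unfold lin
  simp [fromBlocks_smul, fromBlocks_add]

end aux

theorem lin_exists {Y : Type} [TopologicalSpace Y] [CompactSpace Y] (m : ℕ) :
    ∀ {ε ι : Type} [Fintype ι] [DecidableEq ι] (e : ε → Matrix ι ι ℝ) (c K : Matrix ι ι ℝ)
      (A P : I × Y → Matrix ι ι ℝ), ClSys e → Continuous A → OddF e A →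
      (∀ y, A (0, y) = c) → c ∈ Grad e → Cpx e c K → Trig (SymL e) m P → HP (OddF e) A P →
    ∃ (ι' : Type) (_ : Fintype ι') (_ : DecidableEq ι') (e' : ε → Matrix ι' ι' ℝ)
      (a b : Matrix ι' ι' ℝ) (L0 L1 : Y → Matrix (ι ⊕ ι') (ι ⊕ ι') ℝ),
      ClSys e' ∧ a ∈ Grad e' ∧ b ∈ Grad (addg e' a) ∧ Continuous L0 ∧ Continuous L1 ∧
      (∀ y, L0 y ∈ SymL (esum e e')) ∧ (∀ y, L1 y ∈ SymL (esum e e')) ∧
      HP (OddF (esum e e')) (fun p => fromBlocks (A p) 0 0 (lin a b (p.1 : ℝ)))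
        (fun p => lin (L0 p.2) (L1 p.2) (p.1 : ℝ)) := by
  induction m with
  | zero =>
    intro ε ι _ _ e c K A P he hA hodd h0 hc hK hT hP
    obtain ⟨a, b, ha, hb, haL, hbL, hF⟩ := hT
    have hPe : P = fun p => lin (a p.2) (b p.2) (p.1 : ℝ) := funext hF
    subst hPe
    have hgr : ∀ {ε' : Type} (f : ε' → Matrix Empty Empty ℝ), (0 : Matrix Empty Empty ℝ) ∈ Grad f :=
      fun f => ⟨⟨Subsingleton.elim _ _, fun _ => Subsingleton.elim _ _⟩, Subsingleton.elim _ _⟩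
    have hz : ∀ t : ℝ, (lin 0 0 t : Matrix Empty Empty ℝ) = 0 := fun t => Subsingleton.elim _ _
    refine ⟨Empty, inferInstance, inferInstance, fun _ => 0, 0, 0,
      fun y => fromBlocks (a y) 0 0 0, fun y => fromBlocks (b y) 0 0 0,
      ⟨fun _ => ⟨Subsingleton.elim _ _, Subsingleton.elim _ _⟩, fun _ _ _ => Subsingleton.elim _ _⟩,
      hgr _, hgr _, ?_, ?_, ?_, ?_, ?_⟩
    · exact ha.matrix_fromBlocks continuous_const continuous_const continuous_const
    · exact hb.matrix_fromBlocks continuous_const continuous_const continuous_const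
    · exact fun y => Lin_symL_sum (haL y) (hgr _).1
    · exact fun y => Lin_symL_sum (hbL y) (hgr _).1
    · have h1 := HP.map (Q := OddF (esum e fun _ => (0 : Matrix Empty Empty ℝ))) hP
        (fun q : (I × Y) × Matrix ι ι ℝ => fromBlocks q.2 0 0 (0 : Matrix Empty Empty ℝ))
        (continuous_snd.matrix_fromBlocks continuous_const continuous_const continuous_const)
        (fun q hq => Lin_oddF_sum hq (B := fun _ => (0 : Matrix Empty Empty ℝ))
          ⟨fun _ => Grad_subset_SymX _ (hgr _), fun _ => Subsingleton.elim _ _⟩)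
      have e1 : (fun p : I × Y => fromBlocks (A p) 0 0 (lin 0 0 (p.1 : ℝ) : Matrix Empty Empty ℝ))
          = fun p => fromBlocks (A p) 0 0 (0 : Matrix Empty Empty ℝ) := by
        funext p; rw [hz]
      have e2 : (fun p : I × Y => lin (fromBlocks (a p.2) 0 0 (0 : Matrix Empty Empty ℝ))
          (fromBlocks (b p.2) 0 0 (0 : Matrix Empty Empty ℝ)) (p.1 : ℝ))
          = fun p => fromBlocks (lin (a p.2) (b p.2) (p.1 : ℝ)) 0 0
            (0 : Matrix Empty Empty ℝ) := by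
        funext p
        rw [← Lin_lin_sum, hz]
      rw [e1, e2]
      exact h1
  | succ m ih =>
    intro ε ι _ _ e c K A P he hA hodd h0 hc hK hT hP
    have hs1 := st1 e c K A hA hodd h0 hc hK
    have hs1' : HP (OddF (e3 e)) (fun p => fromBlocks (A p) 0 0 (hyp K (p.1 : ℝ)))
        (fun p => StF (A p) (p.1 : ℝ)) := hs1.mono fun q hq => hq.1
    have hs2 : HP (OddF (e3 e)) (fun p => StF (A p) (p.1 : ℝ))
        (fun p => StF (P p) (p.1 : ℝ)) :=
      HP.map hP (fun q : (I × Y) × Matrix ι ι ℝ => StF q.2 (q.1.1 : ℝ))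
        (Lin_StF_cont continuous_snd (by fun_prop)) (fun q hq => Lin_StF_oddF hq)
    obtain ⟨Q, hQT, hQP⟩ := st2 e m P hT hP.right.2.1
    have hall := (hs1'.trans hs2).trans hQP
    have he1 : e3 e = esum e (esum (fun i => -(e i)) e) := rfl
    have hK1 : Cpx (e3 e) (fromBlocks c 0 0 (fromBlocks 0 1 1 0))
        (fromBlocks K 0 0 (fromBlocks K 0 0 K)) := by
      obtain ⟨k1, k2, k3, k4⟩ := hK
      refine ⟨?_, ?_, ?_, fun i => ?_⟩
      · simp [fromBlocks_transpose, fromBlocks_neg, k1]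
      · simp only [fromBlocks_multiply, k2, mul_zero, zero_mul, add_zero, zero_add]
        ext x y
        rcases x with x | x | x <;> rcases y with y | y | y <;> simp [Matrix.one_apply]
      · simp [fromBlocks_multiply, k3]
      · simp [e3, fromBlocks_multiply, k4 i]
    obtain ⟨ι'', i1, i2, e'', a'', b'', L0, L1, r1, r2, r3, r4, r5, r6, r7, r8⟩ :=
      ih (e3 e) (fromBlocks c 0 0 (fromBlocks 0 1 1 0)) (fromBlocks K 0 0 (fromBlocks K 0 0 K))
        (fun p => fromBlocks (A p) 0 0 (hyp K (p.1 : ℝ))) Q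
        (Lin_clSys_sum he (Lin_clSys_sum (Lin_clSys_neg he) he))
        hall.left.1 hall.left.2
        (by
          intro y
          simp only [h0 y, hyp, lin]
          simp)
        (Lin_grad_sum hc (Lin_swap_grad e)) hK1 hQT hall
    let sg := Equiv.sumAssoc ι (ι ⊕ ι) ι''
    let R := Matrix.reindexAlgEquiv ℝ ℝ sg
    have hRT : ∀ M, R Mᵀ = (R M)ᵀ := fun M => rfl
    have hRc : Continuous R := by
      have : Continuous fun M : Matrix ((ι ⊕ ι ⊕ ι) ⊕ ι'') ((ι ⊕ ι ⊕ ι) ⊕ ι'') ℝ =>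
        M.submatrix sg.symm sg.symm := continuous_id.matrix_submatrix _ _
      exact this
    have hRb : ∀ (X : Matrix ι ι ℝ) (Z : Matrix (ι ⊕ ι) (ι ⊕ ι) ℝ) (W : Matrix ι'' ι'' ℝ),
        R (fromBlocks (fromBlocks X 0 0 Z) 0 0 W) = fromBlocks X 0 0 (fromBlocks Z 0 0 W) := by
      intro X Z W
      ext x y
      rcases x with x | x | x <;> rcases y with y | y | y <;> rfl
    have hRs : ∀ S, S ∈ SymL (esum (e3 e) e'') →
        R S ∈ SymL (esum e (esum (esum (fun i => -(e i)) e) e'')) := by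
      rintro S ⟨s1, s2⟩
      refine ⟨by rw [← hRT, s1], fun i => ?_⟩
      have h3 : esum e (esum (esum (fun i => -(e i)) e) e'') i = R (esum (e3 e) e'' i) :=
        (hRb _ _ _).symm
      rw [h3, ← map_mul, ← map_mul, ← map_neg, s2 i]
    have hRo : ∀ q : I × Y → Matrix ((ι ⊕ ι ⊕ ι) ⊕ ι'') ((ι ⊕ ι ⊕ ι) ⊕ ι'') ℝ,
        OddF (esum (e3 e) e'') q →
        OddF (esum e (esum (esum (fun i => -(e i)) e) e'')) (fun p => R (q p)) := by
      rintro q ⟨q1, q2⟩
      refine ⟨fun p => ⟨hRs _ (q1 p).1, (q1 p).2.map R⟩, fun y => ?_⟩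
      simp only [q2 y, map_neg]
    refine ⟨(ι ⊕ ι) ⊕ ι'', inferInstance, inferInstance, esum (esum (fun i => -(e i)) e) e'',
      fromBlocks (fromBlocks 0 1 1 0) 0 0 a'', fromBlocks (fromBlocks 0 K Kᵀ 0) 0 0 b'',
      fun y => R (L0 y), fun y => R (L1 y), Lin_clSys_sum (Lin_clSys_sum (Lin_clSys_neg he) he) r1,
      Lin_grad_sum (Lin_swap_grad e) r2, ?_, hRc.comp r4, hRc.comp r5, fun y => hRs _ (r6 y),
      fun y => hRs _ (r7 y), ?_⟩
    · rw [Lin_addg_sum]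
      exact Lin_grad_sum (Lin_K_grad hK) r3
    · have h9 := HP.map r8 (fun q : (I × Y) × Matrix ((ι ⊕ ι ⊕ ι) ⊕ ι'') ((ι ⊕ ι ⊕ ι) ⊕ ι'') ℝ =>
        R q.2) (hRc.comp continuous_snd) hRo
      have e1 : (fun p : I × Y => fromBlocks (A p) 0 0
          (lin (fromBlocks (fromBlocks 0 1 1 0) 0 0 a'')
            (fromBlocks (fromBlocks 0 K Kᵀ 0) 0 0 b'') (p.1 : ℝ)))
          = fun p => R (fromBlocks (fromBlocks (A p) 0 0 (hyp K (p.1 : ℝ))) 0 0
            (lin a'' b'' (p.1 : ℝ))) := by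
        funext p
        rw [hRb, ← Lin_lin_sum, Lin_hyp_eq]
      have e2 : (fun p : I × Y => lin (R (L0 p.2)) (R (L1 p.2)) (p.1 : ℝ))
          = fun p => R (lin (L0 p.2) (L1 p.2) (p.1 : ℝ)) := by
        funext p
        unfold lin
        rw [map_add, map_smul, map_smul]
      rw [e1, e2]
      exact h9

end DT
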