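import Pool.Agent.H78.DT.Bott0
import Pool.Agent.H78.DT.Srl

/-!
# Nondegenerate pencils can be normalised (job DT-PEN)

`c ∈ Grad e`, `S (y) ∈ SymL e` and all `cos πt • c + sin πt • S (y)`, `t ∈ [0,1]`, are invertible.
Then the pencil is homotopic (through such pencils with the same `c`) to one with
`S ∈ Grad (addg e c)`, i.e. `S² = 1`, `S c = - c S`.

PROOF. Let `a = c S` (fixed `y`).  For real `μ`, `S + μ c` is invertible: it is a nonzero multiple
of `cos πt • c + sin πt • S` with `t ∈ (0,1)`, `cot πt = μ`; so `a - μ = c (S - μ c)` is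
invertible for every real `μ`.  Hence for `r ≥ 0`, `a² - r = (a - √r)(a + √r)` is invertible (*).
Note `aᵀ = S c = c a c`, so `(a²)ᵀ c = c a²`; `a` commutes with the `e i`.
STEP 1. `M (v, y) = (1-v) a² - v • 1`, `v ∈ I`: invertible (for `v < 1` it is
`(1-v)(a² - v/(1-v))`, use (*); for `v = 1` it is `-1`), commuting, `Mᵀ c = c M`.  Let `R` be as in
`sqrt_lift`, `a_v = a R(v)`, `S_v = S R(v) = c a_v`.  `R` commutes with `a` and `e i`, and
`Rᵀ c = c R`, so `(S R)ᵀ = Rᵀ S = Rᵀ c (c S) = c R a = c a R = S R`: symmetric, and it anticommutes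
with `e i`.  `a_v² = M_v`.  For real `μ`: `a_v² - μ² = (1-v) a² - (v + μ²)` is invertible by (*)
(or a nonzero scalar if `v = 1`), so `a_v - μ` is invertible, hence `cos πt c + sin πt S_v =
c (cos πt + sin πt a_v)` is invertible for all `t`.  Let `T = S_1`: `(c T)² = a_1² = -1`, i.e.
`c T c = -T⁻¹`, `T` symmetric invertible, anticommuting with `e i`.
STEP 2. `M'(v) = (1-v) T² + v • 1` is positive definite; let `R'` be as in `sqrt_lift`
(`R'(0) = 1`, `T² R'² = M'`), it is symmetric positive definite, commutes with `T` and `e i`.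
`T_v = T R'(v)` is symmetric, anticommutes with `e i`, `T_1² = 1`.
Let `R'' = c R' c`, positive definite.  `R''` commutes with `T`, because `R'` commutes with
`c T c = -T⁻¹`; so `R''` commutes with `T²`, with all `M'`, hence with `R'`.
`(c T_v)² = (c T c)(c R' c) T R' = -T⁻¹ R'' T R' = -R'' R'`.  For real `μ`:
`(c T_v)² - μ² = -(R'' R' + μ²) = -R' (R'' + μ² R'⁻¹)`, a product of invertible matrices
(`R'' + μ² R'⁻¹` is positive definite).  So `c T_v - μ` is invertible for all real `μ` and the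
pencil `cos πt c + sin πt T_v` is nondegenerate.  At `v = 1` put `G = T_1`: `G² = 1`,
and `(c G)² = -R''R'` with `R'(1)² = T⁻²`, `R''(1)² = c T⁻² c = (c T c)⁻² = T²`, so
`(R'' R')² = 1`, and `R''R'` is positive definite (product of commuting positive definite
matrices), so `R''R' = 1` (e.g. `(W-1)(W+1) = 0` with `W + 1` invertible).  Hence `c G c G = -1`,
i.e. `c G = - G c` (multiply: `c G c = -G⁻¹ = -G`).
All the homotopies keep `B (0, y) = c` and satisfy `B (1, y) = -c = -B (0, y)`.
-/

open Matrix Set unitInterval Topology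

noncomputable section

namespace DT

section PenAux

variable {ε ι : Type} [Fintype ι] [DecidableEq ι]

theorem pen_smul_unit {k : ℝ} (hk : k ≠ 0) {A : Matrix ι ι ℝ} (h : IsUnit A) :
    IsUnit (k • A) := by
  rw [isUnit_iff_isUnit_det] at h ⊢
  rw [det_smul]
  exact (IsUnit.pow _ (isUnit_iff_ne_zero.2 hk)).mul h

theorem pen_left_unit {A B : Matrix ι ι ℝ} (h : IsUnit (A * B)) : IsUnit A := by
  rw [isUnit_iff_isUnit_det, det_mul] at h
  rw [isUnit_iff_isUnit_det]
  exact isUnit_of_mul_isUnit_left h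

/-- no real eigenvalues -/
def PenNR (a : Matrix ι ι ℝ) : Prop :=
  ∀ r : ℝ, 0 ≤ r → IsUnit (a * a - r • (1 : Matrix ι ι ℝ))

theorem pen_NR_add {a : Matrix ι ι ℝ} (h : PenNR a) (μ : ℝ) :
    IsUnit (a + μ • (1 : Matrix ι ι ℝ)) := by
  have h1 := h (μ * μ) (mul_self_nonneg μ)
  have h2 : a * a - (μ * μ) • (1 : Matrix ι ι ℝ)
      = (a + μ • (1 : Matrix ι ι ℝ)) * (a - μ • (1 : Matrix ι ι ℝ)) := by
    rw [add_mul, mul_sub, mul_sub, smul_mul_assoc, one_mul, smul_mul_assoc, one_mul,
      mul_smul_comm, mul_one, smul_smul]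
    abel
  rw [h2] at h1
  exact pen_left_unit h1

theorem pen_NR_of_add {a : Matrix ι ι ℝ}
    (h : ∀ μ : ℝ, IsUnit (a + μ • (1 : Matrix ι ι ℝ))) : PenNR a := by
  intro r hr
  have h1 := (h (Real.sqrt r)).mul (h (-(Real.sqrt r)))
  have h2 : (a + Real.sqrt r • (1 : Matrix ι ι ℝ)) * (a + (-(Real.sqrt r)) • (1 : Matrix ι ι ℝ))
      = a * a - r • (1 : Matrix ι ι ℝ) := by
    rw [add_mul, mul_add, mul_add, smul_mul_assoc, one_mul, smul_mul_assoc, one_mul,
      mul_smul_comm, mul_one, smul_smul, mul_neg, Real.mul_self_sqrt hr, neg_smul, neg_smul]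
    abel
  rw [h2] at h1
  exact h1

theorem pen_lin_unit {c S : Matrix ι ι ℝ} (hc : c * c = 1) (h : PenNR (c * S)) (t : ℝ) :
    IsUnit (lin c S t) := by
  have hcu : IsUnit c := ⟨⟨c, c, hc, hc⟩, rfl⟩
  unfold lin
  by_cases hs : Real.sin (Real.pi * t) = 0
  · have hcos : Real.cos (Real.pi * t) ≠ 0 := by
      intro h0
      have h1 := Real.sin_sq_add_cos_sq (Real.pi * t)
      rw [hs, h0] at h1
      norm_num at h1
    rw [hs, zero_smul, add_zero]
    exact pen_smul_unit hcos hcu
  · have h1 := pen_NR_add h (Real.cos (Real.pi * t) / Real.sin (Real.pi * t))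
    have h2 : Real.cos (Real.pi * t) • c + Real.sin (Real.pi * t) • S
        = Real.sin (Real.pi * t) • (c * (c * S +
          (Real.cos (Real.pi * t) / Real.sin (Real.pi * t)) • (1 : Matrix ι ι ℝ))) := by
      rw [mul_add, ← mul_assoc, hc, one_mul, mul_smul_comm, mul_one, smul_add, smul_smul,
        mul_div_cancel₀ _ hs, add_comm]
    rw [h2]
    exact pen_smul_unit hs (hcu.mul h1)

theorem pen_NR_of_lin {c S : Matrix ι ι ℝ} (hc : c * c = 1)
    (h : ∀ t : I, IsUnit (lin c S (t : ℝ))) : PenNR (c * S) := by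
  refine pen_NR_of_add (fun μ => ?_)
  have hcu : IsUnit c := ⟨⟨c, c, hc, hc⟩, rfl⟩
  have hs0 : 0 < Real.sqrt (1 + μ ^ 2) := Real.sqrt_pos.2 (by positivity)
  have hss : Real.sqrt (1 + μ ^ 2) ^ 2 = 1 + μ ^ 2 := Real.sq_sqrt (by positivity)
  have habs : |μ| ≤ Real.sqrt (1 + μ ^ 2) := Real.abs_le_sqrt (by linarith)
  set s : ℝ := Real.sqrt (1 + μ ^ 2) with hs
  have hx1 : -1 ≤ μ / s := by
    rw [le_div_iff₀ hs0]
    have := (abs_le.1 habs).1
    linarith
  have hx2 : μ / s ≤ 1 := by
    rw [div_le_one hs0]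
    exact (abs_le.1 habs).2
  have hcos : Real.cos (Real.arccos (μ / s)) = μ / s := Real.cos_arccos hx1 hx2
  have hsin : Real.sin (Real.arccos (μ / s)) = 1 / s := by
    rw [Real.sin_arccos]
    have h1 : 1 - (μ / s) ^ 2 = (1 / s) ^ 2 := by
      rw [div_pow, div_pow, hss]
      have : (1 + μ ^ 2) ≠ 0 := by positivity
      field_simp
      ring
    rw [h1]
    exact Real.sqrt_sq (by positivity)
  have hpi := Real.pi_pos
  have ht0 : 0 ≤ Real.arccos (μ / s) / Real.pi := div_nonneg (Real.arccos_nonneg _) hpi.le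
  have ht1 : Real.arccos (μ / s) / Real.pi ≤ 1 := by
    rw [div_le_one hpi]
    exact Real.arccos_le_pi _
  have h1 := h ⟨Real.arccos (μ / s) / Real.pi, ht0, ht1⟩
  have h3 : Real.pi * (Real.arccos (μ / s) / Real.pi) = Real.arccos (μ / s) := by
    field_simp
  unfold lin at h1
  change IsUnit (Real.cos (Real.pi * (Real.arccos (μ / s) / Real.pi)) • c +
    Real.sin (Real.pi * (Real.arccos (μ / s) / Real.pi)) • S) at h1
  rw [h3, hcos, hsin] at h1
  have h2 : c * S + μ • (1 : Matrix ι ι ℝ) = s • (c * ((μ / s) • c + (1 / s) • S)) := by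
    rw [mul_add, mul_smul_comm, hc, mul_smul_comm, smul_add, smul_smul, smul_smul,
      mul_div_cancel₀ _ hs0.ne', mul_one_div_cancel hs0.ne', one_smul, add_comm]
  rw [h2]
  exact pen_smul_unit hs0.ne' (hcu.mul h1)

/-- the pencils of the homotopies -/
theorem pen_odd {Y : Type} {e : ε → Matrix ι ι ℝ} {c : Matrix ι ι ℝ} (hc : c ∈ Grad e)
    {S : Y → Matrix ι ι ℝ} (hL : ∀ y, S y ∈ SymL e) (hN : ∀ y, PenNR (c * S y)) :
    OddF e (fun p : I × Y => lin c (S p.2) (p.1 : ℝ)) ∧
      ∀ y, (fun p : I × Y => lin c (S p.2) (p.1 : ℝ)) (0, y) = c := by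
  have h0 : ∀ y, lin c (S y) ((0 : I) : ℝ) = c := by
    intro y
    unfold lin
    simp
  refine ⟨⟨?_, ?_⟩, h0⟩
  · intro p
    refine ⟨⟨?_, ?_⟩, pen_lin_unit hc.2 (hN p.2) _⟩
    · change (lin c (S p.2) (p.1 : ℝ))ᵀ = lin c (S p.2) (p.1 : ℝ)
      unfold lin
      rw [transpose_add, transpose_smul, transpose_smul, hc.1.1, (hL p.2).1]
    · intro i
      change lin c (S p.2) (p.1 : ℝ) * e i = -(e i * lin c (S p.2) (p.1 : ℝ))
      unfold lin
      rw [add_mul, smul_mul_assoc, smul_mul_assoc, hc.1.2 i, (hL p.2).2 i, mul_add,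
        mul_smul_comm, mul_smul_comm, smul_neg, smul_neg]
      abel
  · intro y
    change lin c (S y) ((1 : I) : ℝ) = - lin c (S y) ((0 : I) : ℝ)
    rw [h0]
    unfold lin
    simp

theorem pen_aff_comm {A B : Matrix ι ι ℝ} (h : A * B = B * A) (s t : ℝ) :
    A * (s • B + t • (1 : Matrix ι ι ℝ)) = (s • B + t • (1 : Matrix ι ι ℝ)) * A := by
  rw [mul_add, add_mul, mul_smul_comm, smul_mul_assoc, h, mul_smul_comm, smul_mul_assoc,
    mul_one, one_mul]

/-- the family `(1 - v) A + w` of step 1 -/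
theorem pen_step1_unit {a : Matrix ι ι ℝ} (h : PenNR a) {v : ℝ} (hv0 : 0 ≤ v) (hv1 : v ≤ 1)
    {r : ℝ} (hr : 0 ≤ r) :
    IsUnit ((1 - v) • (a * a) + (-v) • (1 : Matrix ι ι ℝ) - r • (1 : Matrix ι ι ℝ)) := by
  rcases hv1.lt_or_eq with hv | hv
  · have h1 : 0 < 1 - v := by linarith
    have h2 := h ((v + r) / (1 - v)) (by positivity)
    have h3 : (1 - v) • (a * a) + (-v) • (1 : Matrix ι ι ℝ) - r • (1 : Matrix ι ι ℝ)
        = (1 - v) • (a * a - ((v + r) / (1 - v)) • (1 : Matrix ι ι ℝ)) := by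
      rw [smul_sub, smul_smul, mul_div_cancel₀ _ h1.ne', add_smul, neg_smul]
      abel
    rw [h3]
    exact pen_smul_unit h1.ne' h2
  · have h3 : (1 - v) • (a * a) + (-v) • (1 : Matrix ι ι ℝ) - r • (1 : Matrix ι ι ℝ)
        = (-(1 + r)) • (1 : Matrix ι ι ℝ) := by
      rw [hv, sub_self, zero_smul, zero_add, ← sub_smul]
      congr 1
      ring
    rw [h3]
    exact pen_smul_unit (by linarith) isUnit_one

/-- step 1: make the square of `c T` equal to `-1` -/
theorem pen_step1 {Y : Type} [TopologicalSpace Y] [CompactSpace Y]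
    (e : ε → Matrix ι ι ℝ) (c : Matrix ι ι ℝ) (hc : c ∈ Grad e) (S : Y → Matrix ι ι ℝ)
    (hS : Continuous S) (hL : ∀ y, S y ∈ SymL e) (hN : ∀ y, PenNR (c * S y)) :
    ∃ T : Y → Matrix ι ι ℝ, Continuous T ∧ (∀ y, T y ∈ SymL e) ∧
      (∀ y, c * T y * (c * T y) = -1) ∧
      HP (fun B : I × Y → Matrix ι ι ℝ => OddF e B ∧ ∀ y, B (0, y) = c)
        (fun p => lin c (S p.2) (p.1 : ℝ)) (fun p => lin c (T p.2) (p.1 : ℝ)) := by
  have hcc : c * c = 1 := hc.2
  set M : I × Y → Matrix ι ι ℝ := fun p => (1 - (p.1 : ℝ)) • (c * S p.2 * (c * S p.2)) +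
    (-(p.1 : ℝ)) • (1 : Matrix ι ι ℝ) with hMdef
  have hMc : Continuous M := by
    have h1 : Continuous (fun p : I × Y => c * S p.2) :=
      continuous_const.matrix_mul (hS.comp continuous_snd)
    have h2 : Continuous (fun p : I × Y => (p.1 : ℝ)) := by fun_prop
    exact ((continuous_const.sub h2).smul (h1.matrix_mul h1)).add
      (h2.neg.smul continuous_const)
  have hMU : ∀ p, IsUnit (M p) := by
    intro p
    have h1 := pen_step1_unit (hN p.2) p.1.2.1 p.1.2.2 (le_refl (0 : ℝ))
    rw [zero_smul, sub_zero] at h1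
    exact h1
  have haff : ∀ (y : Y) (A : Matrix ι ι ℝ), A * (c * S y) = c * S y * A →
      ∀ u : I, A * M (u, y) = M (u, y) * A := by
    intro y A hA u
    have h1 : A * (c * S y * (c * S y)) = c * S y * (c * S y) * A := by
      rw [← mul_assoc, hA, mul_assoc, hA, ← mul_assoc]
    exact pen_aff_comm h1 _ _
  have hcomm : ∀ u v y, M (u, y) * M (v, y) = M (v, y) * M (u, y) := by
    intro u v y
    exact haff y (M (u, y)) (haff y (c * S y) rfl u).symm v
  obtain ⟨R, hRc, hR0, hRu, hRsq, hRcomm, hRtr, -, -, -⟩ := sqrt_lift M hMc hMU hcomm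
  have hRa : ∀ (u : I) (y : Y), c * S y * R (u, y) = R (u, y) * (c * S y) := fun u y =>
    hRcomm y (c * S y) (haff y (c * S y) rfl) u
  have hRe : ∀ (i : ε) (u : I) (y : Y), e i * R (u, y) = R (u, y) * e i := by
    intro i u y
    refine hRcomm y (e i) (haff y (e i) ?_) u
    have h1 := hc.1.2 i
    have h2 := (hL y).2 i
    rw [mul_assoc, h2, mul_neg, ← mul_assoc, ← mul_assoc, h1, neg_mul, neg_neg]
  have hRS : ∀ (u : I) (y : Y), (R (u, y))ᵀ * S y = S y * R (u, y) := by
    intro u y
    refine hRtr y (S y) (fun v => ?_) u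
    have h1 : (c * S y)ᵀ = S y * c := by rw [transpose_mul, hc.1.1, (hL y).1]
    have h2 : (M (v, y))ᵀ = (1 - (v : ℝ)) • (S y * c * (S y * c)) +
        (-(v : ℝ)) • (1 : Matrix ι ι ℝ) := by
      change ((1 - (v : ℝ)) • (c * S y * (c * S y)) + (-(v : ℝ)) • (1 : Matrix ι ι ℝ))ᵀ = _
      rw [transpose_add, transpose_smul, transpose_smul, transpose_mul, h1, transpose_one]
    rw [h2]
    change _ = S y * ((1 - (v : ℝ)) • (c * S y * (c * S y)) + (-(v : ℝ)) • (1 : Matrix ι ι ℝ))
    rw [add_mul, mul_add, smul_mul_assoc, smul_mul_assoc, mul_smul_comm, mul_smul_comm, one_mul,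
      mul_one]
    congr 2
    simp only [mul_assoc]
  -- the family
  have hSL : ∀ (u : I) (y : Y), S y * R (u, y) ∈ SymL e := by
    intro u y
    refine ⟨?_, fun i => ?_⟩
    · rw [transpose_mul, (hL y).1, hRS u y]
    · rw [mul_assoc, ← hRe i u y, ← mul_assoc, (hL y).2 i, neg_mul, mul_assoc]
  have hsq : ∀ (u : I) (y : Y), c * (S y * R (u, y)) * (c * (S y * R (u, y))) = M (u, y) := by
    intro u y
    have h1 : c * (S y * R (u, y)) = c * S y * R (u, y) := (mul_assoc _ _ _).symm
    have h2 : M (0, y) = c * S y * (c * S y) := by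
      change (1 - ((0 : I) : ℝ)) • (c * S y * (c * S y)) + (-((0 : I) : ℝ)) • (1 : Matrix ι ι ℝ) = _
      simp
    rw [← hRsq u y, h2, h1]
    calc c * S y * R (u, y) * (c * S y * R (u, y))
        = c * S y * (R (u, y) * (c * S y)) * R (u, y) := by simp only [mul_assoc]
      _ = c * S y * (c * S y * R (u, y)) * R (u, y) := by rw [← hRa u y]
      _ = c * S y * (c * S y) * (R (u, y) * R (u, y)) := by simp only [mul_assoc]
  have hNR : ∀ (u : I) (y : Y), PenNR (c * (S y * R (u, y))) := by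
    intro u y r hr
    rw [hsq u y]
    exact pen_step1_unit (hN y) u.2.1 u.2.2 hr
  have hcont : Continuous (fun q : I × (I × Y) => S q.2.2 * R (q.1, q.2.2)) := by
    refine (hS.comp (continuous_snd.comp continuous_snd)).matrix_mul (hRc.comp ?_)
    exact continuous_fst.prodMk (continuous_snd.comp continuous_snd)
  refine ⟨fun y => S y * R (1, y), ?_, fun y => hSL 1 y, ?_, ?_⟩
  · exact hS.matrix_mul (hRc.comp (continuous_const.prodMk continuous_id))
  · intro y
    rw [hsq 1 y]
    change (1 - ((1 : I) : ℝ)) • (c * S y * (c * S y)) + (-((1 : I) : ℝ)) • (1 : Matrix ι ι ℝ) = -1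
    simp
  · refine ⟨fun q => lin c (S q.2.2 * R (q.1, q.2.2)) (q.2.1 : ℝ), ?_, ?_, ?_, ?_⟩
    · unfold lin
      have h2 : Continuous (fun q : I × (I × Y) => Real.pi * (q.2.1 : ℝ)) := by fun_prop
      exact ((Real.continuous_cos.comp h2).smul continuous_const).add
        ((Real.continuous_sin.comp h2).smul hcont)
    · intro u
      exact pen_odd hc (fun y => hSL u y) (fun y => hNR u y)
    · intro p
      change lin c (S p.2 * R (0, p.2)) (p.1 : ℝ) = _
      rw [hR0, mul_one]
    · intro p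
      rfl

/-- step 2: make the square of `T` equal to `1` -/
theorem pen_step2 {Y : Type} [TopologicalSpace Y] [CompactSpace Y]
    (e : ε → Matrix ι ι ℝ) (c : Matrix ι ι ℝ) (hc : c ∈ Grad e) (T : Y → Matrix ι ι ℝ)
    (hT : Continuous T) (hL : ∀ y, T y ∈ SymL e) (hN : ∀ y, c * T y * (c * T y) = -1) :
    ∃ G : Y → Matrix ι ι ℝ, Continuous G ∧ (∀ y, G y ∈ Grad (addg e c)) ∧
      HP (fun B : I × Y → Matrix ι ι ℝ => OddF e B ∧ ∀ y, B (0, y) = c)
        (fun p => lin c (T p.2) (p.1 : ℝ)) (fun p => lin c (G p.2) (p.1 : ℝ)) := by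
  have hcc : c * c = 1 := hc.2
  have hcu : IsUnit c := ⟨⟨c, c, hcc, hcc⟩, rfl⟩
  -- the inverse of `T`
  have hD1 : ∀ y, -(c * T y * c) * T y = 1 := by
    intro y
    have h1 := hN y
    rw [← mul_assoc] at h1
    rw [neg_mul, h1, neg_neg]
  have hD2 : ∀ y, T y * -(c * T y * c) = 1 := fun y => mul_eq_one_comm.1 (hD1 y)
  have hTu : ∀ y, IsUnit (T y) := fun y => ⟨⟨T y, -(c * T y * c), hD2 y, hD1 y⟩, rfl⟩
  set M : I × Y → Matrix ι ι ℝ := fun p => (1 - (p.1 : ℝ)) • (T p.2 * T p.2) +
    (p.1 : ℝ) • (1 : Matrix ι ι ℝ) with hMdef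
  have hMc : Continuous M := by
    have h1 : Continuous (fun p : I × Y => T p.2) := hT.comp continuous_snd
    have h2 : Continuous (fun p : I × Y => (p.1 : ℝ)) := by fun_prop
    exact ((continuous_const.sub h2).smul (h1.matrix_mul h1)).add
      (h2.smul continuous_const)
  have hTT : ∀ y, (T y * T y).PosDef := by
    intro y
    have h1 : (star (T y) * 1 * T y).PosDef :=
      (Matrix.IsUnit.posDef_star_left_conjugate_iff (hTu y)).2 Matrix.PosDef.one
    have h2 : star (T y) = T y := by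
      rw [star_eq_conjTranspose, conjTranspose_eq_transpose_of_trivial, (hL y).1]
    rw [h2, mul_one] at h1
    exact h1
  have hMU : ∀ p, IsUnit (M p) := by
    intro p
    have hp0 : 0 ≤ (p.1 : ℝ) := p.1.2.1
    rcases (p.1.2.2 : (p.1 : ℝ) ≤ 1).lt_or_eq with h | h
    · have h1 : 0 < 1 - (p.1 : ℝ) := by linarith
      exact (((hTT p.2).smul h1).add_posSemidef
        (Matrix.PosSemidef.smul Matrix.PosSemidef.one hp0)).isUnit
    · change IsUnit ((1 - (p.1 : ℝ)) • (T p.2 * T p.2) + (p.1 : ℝ) • (1 : Matrix ι ι ℝ))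
      rw [h, sub_self, zero_smul, zero_add, one_smul]
      exact isUnit_one
  have haff : ∀ (y : Y) (A : Matrix ι ι ℝ), A * (T y * T y) = T y * T y * A →
      ∀ u : I, A * M (u, y) = M (u, y) * A := fun y A hA u => pen_aff_comm hA _ _
  have haff1 : ∀ (y : Y) (A : Matrix ι ι ℝ), A * T y = T y * A →
      A * (T y * T y) = T y * T y * A := by
    intro y A hA
    rw [← mul_assoc, hA, mul_assoc, hA, ← mul_assoc]
  have hcomm : ∀ u v y, M (u, y) * M (v, y) = M (v, y) * M (u, y) := by
    intro u v y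
    exact haff y (M (u, y)) (haff y (T y * T y) rfl u).symm v
  obtain ⟨R, hRc, hR0, hRu, hRsq, hRcomm, -, -, -, hRpd⟩ := sqrt_lift M hMc hMU hcomm
  have hpd : ∀ (u : I) (y : Y), (R (u, y)).PosDef := by
    intro u y
    refine hRpd y (fun v => ?_) u
    change ((1 - (v : ℝ)) • (T y * T y) + (v : ℝ) • (1 : Matrix ι ι ℝ))ᵀ = _
    rw [transpose_add, transpose_smul, transpose_smul, transpose_mul, (hL y).1, transpose_one]
  have hRt : ∀ (u : I) (y : Y), (R (u, y))ᵀ = R (u, y) := by
    intro u y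
    have h1 := (hpd u y).isHermitian
    rw [Matrix.IsHermitian, conjTranspose_eq_transpose_of_trivial] at h1
    exact h1
  have hRT : ∀ (u : I) (y : Y), T y * R (u, y) = R (u, y) * T y := fun u y =>
    hRcomm y (T y) (haff y (T y) (haff1 y (T y) rfl)) u
  have hRe : ∀ (i : ε) (u : I) (y : Y), e i * R (u, y) = R (u, y) * e i := by
    intro i u y
    refine hRcomm y (e i) (haff y (e i) ?_) u
    have h2 := (hL y).2 i
    rw [mul_assoc (T y), h2, mul_neg, ← mul_assoc (T y), h2, neg_mul, neg_neg, mul_assoc]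
  have hTL : ∀ (u : I) (y : Y), T y * R (u, y) ∈ SymL e := by
    intro u y
    refine ⟨?_, fun i => ?_⟩
    · rw [transpose_mul, (hL y).1, hRt u y, hRT u y]
    · rw [mul_assoc, ← hRe i u y, ← mul_assoc, (hL y).2 i, neg_mul, mul_assoc]
  -- `c T c` commutes with `R`
  have hRD : ∀ (u : I) (y : Y), c * T y * c * R (u, y) = R (u, y) * (c * T y * c) := by
    intro u y
    have h1 : -(c * T y * c) * R (u, y) = R (u, y) * -(c * T y * c) := by
      calc -(c * T y * c) * R (u, y)
          = -(c * T y * c) * R (u, y) * (T y * -(c * T y * c)) := by rw [hD2 y, mul_one]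
        _ = -(c * T y * c) * (R (u, y) * T y) * -(c * T y * c) := by simp only [mul_assoc]
        _ = -(c * T y * c) * (T y * R (u, y)) * -(c * T y * c) := by rw [hRT u y]
        _ = (-(c * T y * c) * T y) * R (u, y) * -(c * T y * c) := by simp only [mul_assoc]
        _ = R (u, y) * -(c * T y * c) := by rw [hD1 y, one_mul]
    rw [neg_mul, mul_neg] at h1
    exact neg_injective h1
  -- `W = c R c`
  have hWT : ∀ (u : I) (y : Y), T y * (c * R (u, y) * c) = c * R (u, y) * c * T y := by
    intro u y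
    calc T y * (c * R (u, y) * c) = c * (c * T y * c * R (u, y)) * c := by
          simp only [← mul_assoc]
          rw [hcc, one_mul]
      _ = c * (R (u, y) * (c * T y * c)) * c := by rw [hRD u y]
      _ = c * R (u, y) * c * T y * (c * c) := by simp only [mul_assoc]
      _ = c * R (u, y) * c * T y := by rw [hcc, mul_one]
  have hWR : ∀ (u : I) (y : Y), c * R (u, y) * c * R (u, y) = R (u, y) * (c * R (u, y) * c) :=
    fun u y => hRcomm y (c * R (u, y) * c) (haff y _ (haff1 y _ (hWT u y).symm)) u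
  have hWpd : ∀ (u : I) (y : Y), (c * R (u, y) * c).PosDef := by
    intro u y
    have h1 := (Matrix.IsUnit.posDef_star_left_conjugate_iff hcu).2 (hpd u y)
    have h2 : star c = c := by
      rw [star_eq_conjTranspose, conjTranspose_eq_transpose_of_trivial, hc.1.1]
    rw [h2] at h1
    exact h1
  have hsq : ∀ (u : I) (y : Y), c * (T y * R (u, y)) * (c * (T y * R (u, y))) =
      -(c * R (u, y) * c * R (u, y)) := by
    intro u y
    have h1 : c * T y * c * T y = -1 := by
      have := hN y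
      rw [← mul_assoc] at this
      exact this
    calc c * (T y * R (u, y)) * (c * (T y * R (u, y)))
        = c * T y * (c * c) * R (u, y) * c * T y * R (u, y) := by
          rw [hcc, mul_one]
          simp only [mul_assoc]
      _ = c * T y * c * (c * R (u, y) * c * T y) * R (u, y) := by simp only [mul_assoc]
      _ = c * T y * c * (T y * (c * R (u, y) * c)) * R (u, y) := by rw [hWT u y]
      _ = (c * T y * c * T y) * (c * R (u, y) * c * R (u, y)) := by simp only [mul_assoc]
      _ = _ := by rw [h1, neg_mul, one_mul]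
  have hWpos : ∀ (u : I) (y : Y) (r : ℝ), 0 ≤ r →
      IsUnit (c * R (u, y) * c * R (u, y) + r • (1 : Matrix ι ι ℝ)) := by
    intro u y r hr
    have h1 : (c * R (u, y) * c + r • (R (u, y))⁻¹).PosDef :=
      (hWpd u y).add_posSemidef (Matrix.PosSemidef.smul (hpd u y).inv.posSemidef hr)
    have h2 : c * R (u, y) * c * R (u, y) + r • (1 : Matrix ι ι ℝ)
        = (c * R (u, y) * c + r • (R (u, y))⁻¹) * R (u, y) := by
      rw [add_mul, smul_mul_assoc, nonsing_inv_mul _ ((isUnit_iff_isUnit_det _).1 (hRu (u, y)))]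
    rw [h2]
    exact h1.isUnit.mul (hRu (u, y))
  have hNR : ∀ (u : I) (y : Y), PenNR (c * (T y * R (u, y))) := by
    intro u y r hr
    rw [hsq u y]
    have h1 := (hWpos u y r hr).neg
    rw [neg_add'] at h1
    exact h1
  have hcont : Continuous (fun q : I × (I × Y) => T q.2.2 * R (q.1, q.2.2)) := by
    refine (hT.comp (continuous_snd.comp continuous_snd)).matrix_mul (hRc.comp ?_)
    exact continuous_fst.prodMk (continuous_snd.comp continuous_snd)
  -- the final values
  have hPA : ∀ y, T y * T y * (R (1, y) * R (1, y)) = 1 := by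
    intro y
    have h1 := hRsq 1 y
    have h2 : M (0, y) = T y * T y := by
      change (1 - ((0 : I) : ℝ)) • (T y * T y) + ((0 : I) : ℝ) • (1 : Matrix ι ι ℝ) = _
      simp
    have h3 : M (1, y) = 1 := by
      change (1 - ((1 : I) : ℝ)) • (T y * T y) + ((1 : I) : ℝ) • (1 : Matrix ι ι ℝ) = _
      simp
    rw [h2, h3] at h1
    exact h1
  have hG1 : ∀ y, T y * R (1, y) * (T y * R (1, y)) = 1 := by
    intro y
    calc T y * R (1, y) * (T y * R (1, y)) = T y * (R (1, y) * T y) * R (1, y) := by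
          simp only [mul_assoc]
      _ = T y * (T y * R (1, y)) * R (1, y) := by rw [hRT 1 y]
      _ = T y * T y * (R (1, y) * R (1, y)) := by simp only [mul_assoc]
      _ = 1 := hPA y
  have hW1 : ∀ y, c * R (1, y) * c * R (1, y) = 1 := by
    intro y
    -- `c T² c = R²`
    have hcPc : c * (T y * T y) * c = R (1, y) * R (1, y) := by
      have h1 : c * (T y * T y) * c * (T y * T y) = 1 := by
        have h2 : c * (T y * T y) * c = -(c * T y * c) * -(c * T y * c) := by
          rw [neg_mul_neg]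
          calc c * (T y * T y) * c = c * T y * (1 * (T y * c)) := by
                rw [one_mul]; simp only [mul_assoc]
            _ = c * T y * (c * c * (T y * c)) := by rw [hcc]
            _ = c * T y * c * (c * T y * c) := by simp only [mul_assoc]
        rw [h2]
        calc -(c * T y * c) * -(c * T y * c) * (T y * T y)
            = -(c * T y * c) * (-(c * T y * c) * T y) * T y := by simp only [mul_assoc]
          _ = 1 := by rw [hD1 y, mul_one, hD1 y]
      calc c * (T y * T y) * c = c * (T y * T y) * c * (T y * T y * (R (1, y) * R (1, y))) := by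
            rw [hPA y, mul_one]
        _ = c * (T y * T y) * c * (T y * T y) * (R (1, y) * R (1, y)) := by
            rw [← mul_assoc (c * (T y * T y) * c)]
        _ = R (1, y) * R (1, y) := by rw [h1, one_mul]
    have hcRc : c * (R (1, y) * R (1, y)) * c = T y * T y := by
      rw [← hcPc]
      calc c * (c * (T y * T y) * c) * c = c * c * (T y * T y) * (c * c) := by
            simp only [mul_assoc]
        _ = T y * T y := by rw [hcc, one_mul, mul_one]
    set W : Matrix ι ι ℝ := c * R (1, y) * c * R (1, y) with hW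
    have hWW : W * W = 1 := by
      calc W * W = c * R (1, y) * c * (R (1, y) * (c * R (1, y) * c)) * R (1, y) := by
            rw [hW]; simp only [mul_assoc]
        _ = c * R (1, y) * c * (c * R (1, y) * c * R (1, y)) * R (1, y) := by rw [← hWR 1 y]
        _ = c * R (1, y) * (c * c) * R (1, y) * c * (R (1, y) * R (1, y)) := by
            simp only [mul_assoc]
        _ = c * (R (1, y) * R (1, y)) * c * (R (1, y) * R (1, y)) := by
            rw [hcc, mul_one]; simp only [mul_assoc]
        _ = 1 := by rw [hcRc, hPA y]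
    have h1 := hWpos 1 y 1 zero_le_one
    rw [one_smul, ← hW] at h1
    have h2 : (W - 1) * (W + 1) = 0 := by
      rw [sub_mul, mul_add, hWW, mul_one, one_mul]
      abel
    have h3 : W - 1 = 0 := by
      have h4 := h1.mul_left_eq_zero.1 h2
      exact h4
    exact sub_eq_zero.1 h3
  have hGc : ∀ y, T y * R (1, y) * c = -(c * (T y * R (1, y))) := by
    intro y
    have h1 := hsq 1 y
    rw [hW1 y] at h1
    set G : Matrix ι ι ℝ := T y * R (1, y) with hG
    -- `c G c G = -1`, multiply by `c` on the left and by `G` on the right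
    have h2 : c * (c * G * (c * G)) * G = G * c * (G * G) := by
      calc c * (c * G * (c * G)) * G = c * c * G * c * (G * G) := by simp only [mul_assoc]
        _ = G * c * (G * G) := by rw [hcc, one_mul]
    rw [h1, hG1 y, mul_one] at h2
    rw [← h2, mul_neg, mul_one, neg_mul]
  refine ⟨fun y => T y * R (1, y), ?_, ?_, ?_⟩
  · exact hT.matrix_mul (hRc.comp (continuous_const.prodMk continuous_id))
  · intro y
    refine ⟨⟨(hTL 1 y).1, ?_⟩, hG1 y⟩
    rintro (i | i)
    · exact (hTL 1 y).2 i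
    · exact hGc y
  · refine ⟨fun q => lin c (T q.2.2 * R (q.1, q.2.2)) (q.2.1 : ℝ), ?_, ?_, ?_, ?_⟩
    · unfold lin
      have h2 : Continuous (fun q : I × (I × Y) => Real.pi * (q.2.1 : ℝ)) := by fun_prop
      exact ((Real.continuous_cos.comp h2).smul continuous_const).add
        ((Real.continuous_sin.comp h2).smul hcont)
    · intro u
      exact pen_odd hc (fun y => hTL u y) (fun y => hNR u y)
    · intro p
      change lin c (T p.2 * R (0, p.2)) (p.1 : ℝ) = _
      rw [hR0, mul_one]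
    · intro p
      rfl

end PenAux

theorem pencil {ε ι Y : Type} [Fintype ι] [DecidableEq ι] [TopologicalSpace Y] [CompactSpace Y]
    (e : ε → Matrix ι ι ℝ) (c : Matrix ι ι ℝ) (hc : c ∈ Grad e) (S : Y → Matrix ι ι ℝ)
    (hS : Continuous S) (hL : ∀ y, S y ∈ SymL e)
    (hU : ∀ (t : I) (y : Y), lin c (S y) (t : ℝ) ∈ SymX e) :
    ∃ G : Y → Matrix ι ι ℝ, Continuous G ∧ (∀ y, G y ∈ Grad (addg e c)) ∧
      HP (fun B : I × Y → Matrix ι ι ℝ => OddF e B ∧ ∀ y, B (0, y) = c)
        (fun p => lin c (S p.2) (p.1 : ℝ)) (fun p => lin c (G p.2) (p.1 : ℝ)) := by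
  have hN : ∀ y, PenNR (c * S y) := fun y => pen_NR_of_lin hc.2 (fun t => (hU t y).2)
  obtain ⟨T, hTc, hTL, hTN, hH1⟩ := pen_step1 e c hc S hS hL hN
  obtain ⟨G, hGc, hGG, hH2⟩ := pen_step2 e c hc T hTc hTL hTN
  exact ⟨G, hGc, hGG, hH1.trans hH2⟩

end DT
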