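import Pool.Agent.H78.DT.Lin
import Pool.Agent.H78.DT.Apx
import Pool.Agent.H78.DT.Pen

/-!
# An odd family becomes a Clifford pencil (job DT-LINB)

PROOF. By `apx` there are `m`, `P` with `Trig (SymL e) m P`, `HP (OddF e) A P`; by `lin_exists`
we get `ι', e', a, b, L0, L1` and a homotopy `H (u, (t, y))` in `OddF (esum e e')` from
`A ⊕ lin a b` to `lin L0 L1`.  Let `γ (u, y) = H (u, (0, y))`, a path in `SymX (esum e e')` from
`c' = fromBlocks c 0 0 a` (constant in `y`).  By `transport_form` there is `g (u, y)`, commuting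
with `esum e e'`, invertible, `g (0, y) = 1`, `gᵀ γ g = c'`.  Then
`B (u, (t, y)) = g(u,y)ᵀ H (u, (t, y)) g(u,y)` is a homotopy in `OddF (esum e e')` with
`B (u, (0, y)) = c'`, from `A ⊕ lin a b` to
`lin (gᵀ L0 g) (gᵀ L1 g) = lin c' S`, `S (y) = g(1,y)ᵀ L1(y) g(1,y)`
(at `t = 0`: `gᵀ L0 g = c'`).  Apply `pencil` to `esum e e'`, `c'`, `S`
(`c' ∈ Grad (esum e e')`).
-/

open Matrix Set unitInterval Topology

noncomputable section

namespace DT

section aux

variable {ε ι ι' : Type} [Fintype ι] [DecidableEq ι] [Fintype ι'] [DecidableEq ι']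

theorem LinB_esum_transpose {e : ε → Matrix ι ι ℝ} {e' : ε → Matrix ι' ι' ℝ} (he : ClSys e)
    (he' : ClSys e') (i : ε) : (esum e e' i)ᵀ = esum e e' i := by
  unfold esum
  rw [fromBlocks_transpose, (he.1 i).1, (he'.1 i).1, transpose_zero, transpose_zero]

theorem LinB_conj_SymL {e : ε → Matrix ι ι ℝ} (he : ∀ i, (e i)ᵀ = e i) {S g : Matrix ι ι ℝ}
    (hS : S ∈ SymL e) (hg : ∀ i, g * e i = e i * g) : gᵀ * S * g ∈ SymL e := by
  obtain ⟨h1, h2⟩ := hS
  have hg' : ∀ i, gᵀ * e i = e i * gᵀ := by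
    intro i
    have := congrArg Matrix.transpose (hg i)
    rw [transpose_mul, transpose_mul, he i] at this
    exact this.symm
  refine ⟨?_, fun i => ?_⟩
  · rw [transpose_mul, transpose_mul, transpose_transpose, h1, Matrix.mul_assoc]
  · calc gᵀ * S * g * e i = gᵀ * S * (g * e i) := by rw [Matrix.mul_assoc]
      _ = gᵀ * (S * e i) * g := by rw [hg i]; simp only [Matrix.mul_assoc]
      _ = -(gᵀ * e i * (S * g)) := by
          rw [h2 i]
          simp only [Matrix.mul_neg, Matrix.neg_mul, Matrix.mul_assoc]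
      _ = -(e i * (gᵀ * S * g)) := by
          rw [hg' i]
          simp only [Matrix.mul_assoc]

theorem LinB_conj_SymX {e : ε → Matrix ι ι ℝ} (he : ∀ i, (e i)ᵀ = e i) {S g : Matrix ι ι ℝ}
    (hS : S ∈ SymX e) (hg : ∀ i, g * e i = e i * g) (hu : IsUnit g) : gᵀ * S * g ∈ SymX e := by
  refine ⟨LinB_conj_SymL he hS.1 hg, ?_⟩
  have hgT : IsUnit gᵀ := by
    rw [Matrix.isUnit_iff_isUnit_det, Matrix.det_transpose, ← Matrix.isUnit_iff_isUnit_det]
    exact hu
  exact (hgT.mul hS.2).mul hu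

theorem LinB_grad {e : ε → Matrix ι ι ℝ} {e' : ε → Matrix ι' ι' ℝ} {c : Matrix ι ι ℝ}
    {a : Matrix ι' ι' ℝ} (hc : c ∈ Grad e) (ha : a ∈ Grad e') :
    fromBlocks c 0 0 a ∈ Grad (esum e e') := by
  obtain ⟨⟨h1, h2⟩, h3⟩ := hc
  obtain ⟨⟨k1, k2⟩, k3⟩ := ha
  refine ⟨⟨?_, fun i => ?_⟩, ?_⟩
  · rw [fromBlocks_transpose, h1, k1, transpose_zero, transpose_zero]
  · unfold esum
    rw [fromBlocks_multiply, fromBlocks_multiply, fromBlocks_neg]
    simp [h2 i, k2 i]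
  · rw [fromBlocks_multiply]
    simp [h3, k3]

theorem LinB_lin_zero {V : Type*} [AddCommGroup V] [Module ℝ V] (a b : V) : lin a b 0 = a := by
  simp [lin]

theorem LinB_lin_conj (g a b : Matrix ι ι ℝ) (t : ℝ) :
    gᵀ * lin a b t * g = lin (gᵀ * a * g) (gᵀ * b * g) t := by
  unfold lin
  simp only [Matrix.mul_add, Matrix.add_mul, Matrix.mul_smul, Matrix.smul_mul]

end aux

theorem linB {ε ι Y : Type} [Fintype ι] [DecidableEq ι] [TopologicalSpace Y] [CompactSpace Y]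
    [T2Space Y] (e : ε → Matrix ι ι ℝ) (he : ClSys e) (c K : Matrix ι ι ℝ)
    (A : I × Y → Matrix ι ι ℝ) (hA : Continuous A) (hodd : OddF e A) (h0 : ∀ y, A (0, y) = c)
    (hc : c ∈ Grad e) (hK : Cpx e c K) :
    ∃ (ι' : Type) (_ : Fintype ι') (_ : DecidableEq ι') (e' : ε → Matrix ι' ι' ℝ)
      (a b : Matrix ι' ι' ℝ) (G : Y → Matrix (ι ⊕ ι') (ι ⊕ ι') ℝ),
      ClSys e' ∧ a ∈ Grad e' ∧ b ∈ Grad (addg e' a) ∧ Continuous G ∧
      (∀ y, G y ∈ Grad (addg (esum e e') (fromBlocks c 0 0 a))) ∧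
      HP (fun B : I × Y → Matrix (ι ⊕ ι') (ι ⊕ ι') ℝ =>
          OddF (esum e e') B ∧ ∀ y, B (0, y) = fromBlocks c 0 0 a)
        (fun p => fromBlocks (A p) 0 0 (lin a b (p.1 : ℝ)))
        (fun p => lin (fromBlocks c 0 0 a) (G p.2) (p.1 : ℝ)) := by
  obtain ⟨m, P, hP, hAP⟩ := apx e A hA hodd
  obtain ⟨ι', i1, i2, e', a, b, L0, L1, he', ha, hb, hL0c, hL1c, hL0, hL1, hH⟩ :=
    lin_exists m e c K A P he hA hodd h0 hc hK hP hAP
  obtain ⟨H, Hc, HPr, H0, H1⟩ := hH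
  have hsym : ∀ i, (esum e e' i)ᵀ = esum e e' i := LinB_esum_transpose he he'
  have hc' : fromBlocks c 0 0 a ∈ Grad (esum e e') := LinB_grad hc ha
  -- the path of forms at time zero
  obtain ⟨g, gc, g0, gU, gcomm, gform, -⟩ := transport_form (esum e e')
    (fun p : I × Y => H (p.1, ((0 : I), p.2))) (Hc.comp (by fun_prop))
    (fun p => (HPr p.1).1 ((0 : I), p.2))
  have hγ0 : ∀ y, H ((0 : I), ((0 : I), y)) = fromBlocks c 0 0 a := by
    intro y
    rw [H0]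
    simp only [h0]
    rw [show (((0 : I) : ℝ)) = 0 from rfl, LinB_lin_zero]
  have hB0 : ∀ (u : I) (y : Y), (g (u, y))ᵀ * H (u, ((0 : I), y)) * g (u, y) =
      fromBlocks c 0 0 a := by
    intro u y
    have := gform u y
    rw [← hγ0 y]
    exact this
  have hBX : ∀ (u : I) (p : I × Y), (g (u, p.2))ᵀ * H (u, p) * g (u, p.2) ∈ SymX (esum e e') :=
    fun u p => LinB_conj_SymX hsym ((HPr u).1 p) (fun i => gcomm _ i) (gU _)
  have hL0' : ∀ y, (g (1, y))ᵀ * L0 y * g (1, y) = fromBlocks c 0 0 a := by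
    intro y
    have h1 := hB0 1 y
    rw [H1] at h1
    simp only at h1
    rw [show (((0 : I) : ℝ)) = 0 from rfl, LinB_lin_zero] at h1
    exact h1
  have hB1 : ∀ p : I × Y, (g (1, p.2))ᵀ * H (1, p) * g (1, p.2) =
      lin (fromBlocks c 0 0 a) ((g (1, p.2))ᵀ * L1 p.2 * g (1, p.2)) (p.1 : ℝ) := by
    intro p
    rw [H1, LinB_lin_conj, hL0']
  obtain ⟨G, hGc, hG, hGH⟩ := pencil (esum e e') (fromBlocks c 0 0 a) hc'
    (fun y => (g (1, y))ᵀ * L1 y * g (1, y))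
    (by
      have : Continuous fun y : Y => g ((1 : I), y) := gc.comp (by fun_prop)
      exact ((this.matrix_transpose).matrix_mul hL1c).matrix_mul this)
    (fun y => LinB_conj_SymL hsym (hL1 y) (fun i => gcomm _ i))
    (fun t y => by
      have := hBX 1 (t, y)
      rw [hB1 (t, y)] at this
      exact this)
  refine ⟨ι', i1, i2, e', a, b, G, he', ha, hb, hGc, hG, HP.trans ?_ hGH⟩
  refine ⟨fun q : I × (I × Y) => (g (q.1, q.2.2))ᵀ * H q * g (q.1, q.2.2), ?_, ?_, ?_, ?_⟩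
  · have h1 : Continuous fun q : I × (I × Y) => g (q.1, q.2.2) := gc.comp (by fun_prop)
    exact ((h1.matrix_transpose).matrix_mul Hc).matrix_mul h1
  · intro u
    refine ⟨⟨fun p => hBX u p, fun y => ?_⟩, fun y => hB0 u y⟩
    show (g (u, y))ᵀ * H (u, ((1 : I), y)) * g (u, y) =
      -((g (u, y))ᵀ * H (u, ((0 : I), y)) * g (u, y))
    have h1 : H (u, ((1 : I), y)) = - H (u, ((0 : I), y)) := (HPr u).2 y
    rw [h1]
    simp only [Matrix.mul_neg, Matrix.neg_mul]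
  · intro p
    show (g (0, p.2))ᵀ * H (0, p) * g (0, p.2) = _
    rw [g0, transpose_one, Matrix.one_mul, Matrix.mul_one]
    exact H0 p
  · intro p
    exact hB1 p

end DT
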