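import Pool.Agent.H78.DT.Basic

/-!
# Quaternions and rotations of the three space (job DT-QUAT)

Coordinates: `toQ v = v₀ + v₁ i + v₂ j + v₃ k`, `ofQ` its inverse, `imQ v = v₀ i + v₁ j + v₂ k`,
`adQ q` the matrix of `v ↦ q v q̄` on imaginary quaternions.
All statements are direct computations.  `adQ_mem`: `|q v q̄| = |v|` gives
orthogonality (or check `(adQ q)ᵀ * adQ q = (normSq q)² • 1` entrywise by `ring`), and
`det (adQ q) = (normSq q)³` (`Matrix.det_fin_three`, `ring`).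
`adQ_commute`: if the unit quaternion `q` commutes with `imQ v` then `adQ q *ᵥ v = v`.
`qexp`: `qexp v a = cos a + sin a v` for a unit imaginary `v`.
-/

open Matrix Set unitInterval Topology

noncomputable section

namespace DT

/-- A vector of `ℝ⁴` as a quaternion. -/
def toQ (v : Fin 4 → ℝ) : Quaternion ℝ := ⟨v 0, v 1, v 2, v 3⟩

/-- A quaternion as a vector of `ℝ⁴`. -/
def ofQ (q : Quaternion ℝ) : Fin 4 → ℝ := ![q.re, q.imI, q.imJ, q.imK]

/-- A vector of `ℝ³` as an imaginary quaternion. -/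
def imQ (v : Fin 3 → ℝ) : Quaternion ℝ := ⟨0, v 0, v 1, v 2⟩

/-- The imaginary part of a quaternion as a vector of `ℝ³`. -/
def qIm (q : Quaternion ℝ) : Fin 3 → ℝ := ![q.imI, q.imJ, q.imK]

/-- The matrix of `v ↦ q v q̄`. -/
def adQ (q : Quaternion ℝ) : Matrix (Fin 3) (Fin 3) ℝ :=
  Matrix.of fun i j => qIm (q * imQ (Pi.single j 1) * star q) i

/-- `cos a + sin a v`. -/
def qexp (v : Fin 3 → ℝ) (a : ℝ) : Quaternion ℝ :=
  (Real.cos a : Quaternion ℝ) + Real.sin a • imQ v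

theorem toQ_ofQ (q : Quaternion ℝ) : toQ (ofQ q) = q := rfl

theorem ofQ_toQ (v : Fin 4 → ℝ) : ofQ (toQ v) = v := by
  funext i
  fin_cases i <;> rfl

theorem quat_norm_iff (q : Quaternion ℝ) :
    ‖q‖ = 1 ↔ q.re ^ 2 + q.imI ^ 2 + q.imJ ^ 2 + q.imK ^ 2 = 1 := by
  have h := Quaternion.normSq_eq_norm_mul_self q
  rw [Quaternion.normSq_def'] at h
  rw [h]
  constructor
  · intro h1
    rw [h1, mul_one]
  · intro h1
    nlinarith [norm_nonneg q, mul_self_eq_one_iff.1 h1]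

theorem quat_us4 (v : Fin 4 → ℝ) :
    v ∈ US (Fin 4) ↔ v 0 ^ 2 + v 1 ^ 2 + v 2 ^ 2 + v 3 ^ 2 = 1 := by
  show v ⬝ᵥ v = 1 ↔ _
  simp only [dotProduct, Fin.sum_univ_four, sq]

theorem quat_us3 (v : Fin 3 → ℝ) :
    v ∈ US (Fin 3) ↔ v 0 ^ 2 + v 1 ^ 2 + v 2 ^ 2 = 1 := by
  show v ⬝ᵥ v = 1 ↔ _
  simp only [dotProduct, Fin.sum_univ_three, sq]

theorem toQ_norm {v : Fin 4 → ℝ} : ‖toQ v‖ = 1 ↔ v ∈ US (Fin 4) := by
  rw [quat_norm_iff, quat_us4]
  rfl

theorem ofQ_mem {q : Quaternion ℝ} : ofQ q ∈ US (Fin 4) ↔ ‖q‖ = 1 := by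
  rw [quat_norm_iff, quat_us4]
  rfl

theorem imQ_norm {v : Fin 3 → ℝ} : ‖imQ v‖ = 1 ↔ v ∈ US (Fin 3) := by
  rw [quat_norm_iff, quat_us3]
  simp [imQ]

theorem quat_one_re : (1 : Quaternion ℝ).re = 1 := rfl

theorem quat_one_imI : (1 : Quaternion ℝ).imI = 0 := rfl

theorem quat_one_imJ : (1 : Quaternion ℝ).imJ = 0 := rfl

theorem quat_one_imK : (1 : Quaternion ℝ).imK = 0 := rfl

/-- units -/
def quatI : Quaternion ℝ := ⟨0, 1, 0, 0⟩

/-- units -/
def quatJ : Quaternion ℝ := ⟨0, 0, 1, 0⟩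

/-- units -/
def quatK : Quaternion ℝ := ⟨0, 0, 0, 1⟩

theorem imQ_mul_self {v : Fin 3 → ℝ} (hv : v ∈ US (Fin 3)) : imQ v * imQ v = -1 := by
  rw [quat_us3] at hv
  ext <;> simp [imQ, quat_one_re, quat_one_imI, quat_one_imJ, quat_one_imK]
  · linear_combination -hv
  · ring
  · ring
  · ring

theorem toQ_continuous : Continuous toQ := by
  have e : toQ = fun v : Fin 4 → ℝ => v 0 • (1 : Quaternion ℝ) + v 1 • quatI
      + v 2 • quatJ + v 3 • quatK := by
    funext v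
    ext <;> simp [toQ, quatI, quatJ, quatK, quat_one_re, quat_one_imI, quat_one_imJ, quat_one_imK]
  rw [e]
  fun_prop

theorem ofQ_continuous : Continuous ofQ := by
  refine continuous_pi fun i => ?_
  fin_cases i
  · exact Quaternion.continuous_re
  · exact Quaternion.continuous_imI
  · exact Quaternion.continuous_imJ
  · exact Quaternion.continuous_imK

theorem imQ_continuous : Continuous imQ := by
  have e : imQ = fun v : Fin 3 → ℝ => v 0 • quatI + v 1 • quatJ + v 2 • quatK := by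
    funext v
    ext <;> simp [imQ, quatI, quatJ, quatK]
  rw [e]
  fun_prop

theorem qIm_continuous : Continuous qIm := by
  refine continuous_pi fun i => ?_
  fin_cases i
  · exact Quaternion.continuous_imI
  · exact Quaternion.continuous_imJ
  · exact Quaternion.continuous_imK

theorem imQ_qIm {q : Quaternion ℝ} (hq : q.re = 0) : imQ (qIm q) = q := by
  ext
  · exact hq.symm
  · rfl
  · rfl
  · rfl

theorem qIm_imQ (v : Fin 3 → ℝ) : qIm (imQ v) = v := by
  funext i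
  fin_cases i <;> rfl

/-- the explicit matrix -/
theorem quat_adQ_eq (q : Quaternion ℝ) : adQ q =
    !![q.re ^ 2 + q.imI ^ 2 - q.imJ ^ 2 - q.imK ^ 2, 2 * (q.imI * q.imJ - q.re * q.imK),
        2 * (q.imI * q.imK + q.re * q.imJ);
      2 * (q.imI * q.imJ + q.re * q.imK), q.re ^ 2 - q.imI ^ 2 + q.imJ ^ 2 - q.imK ^ 2,
        2 * (q.imJ * q.imK - q.re * q.imI);
      2 * (q.imI * q.imK - q.re * q.imJ), 2 * (q.imJ * q.imK + q.re * q.imI),
        q.re ^ 2 - q.imI ^ 2 - q.imJ ^ 2 + q.imK ^ 2] := by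
  ext i j
  fin_cases i <;> fin_cases j <;> simp [adQ, qIm, imQ] <;> ring

theorem adQ_mulVec (q : Quaternion ℝ) (v : Fin 3 → ℝ) :
    imQ (adQ q *ᵥ v) = q * imQ v * star q := by
  rw [quat_adQ_eq]
  ext <;> simp [imQ, Matrix.mulVec, dotProduct, Fin.sum_univ_three] <;> ring

theorem adQ_mem {q : Quaternion ℝ} (hq : ‖q‖ = 1) : adQ q ∈ SOs (Fin 3) := by
  rw [quat_norm_iff] at hq
  rw [quat_adQ_eq]
  have h3 : (q.re ^ 2 + q.imI ^ 2 + q.imJ ^ 2 + q.imK ^ 2) ^ 2 = 1 := by rw [hq, one_pow]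
  have h4 : (q.re ^ 2 + q.imI ^ 2 + q.imJ ^ 2 + q.imK ^ 2) ^ 3 = 1 := by rw [hq, one_pow]
  refine ⟨?_, ?_⟩
  · ext i j
    fin_cases i <;> fin_cases j <;>
      simp [Matrix.mul_apply, Fin.sum_univ_three]
    · linear_combination h3
    · ring
    · ring
    · ring
    · linear_combination h3
    · ring
    · ring
    · ring
    · linear_combination h3
  · rw [Matrix.det_fin_three]
    simp
    linear_combination h4

theorem adQ_continuous : Continuous adQ := by
  refine continuous_matrix fun i j => ?_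
  have h : Continuous fun q : Quaternion ℝ => qIm (q * imQ (Pi.single j 1) * star q) :=
    qIm_continuous.comp (by fun_prop)
  exact (continuous_apply i).comp h

theorem quat_imQ_inj {v w : Fin 3 → ℝ} (h : imQ v = imQ w) : v = w := by
  rw [← qIm_imQ v, h, qIm_imQ]

theorem adQ_mul {p q : Quaternion ℝ} : adQ (p * q) = adQ p * adQ q := by
  have h : ∀ v : Fin 3 → ℝ, adQ (p * q) *ᵥ v = (adQ p * adQ q) *ᵥ v := by
    intro v
    apply quat_imQ_inj
    rw [← Matrix.mulVec_mulVec, adQ_mulVec, adQ_mulVec, adQ_mulVec, star_mul]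
    simp only [mul_assoc]
  ext i j
  have := congrFun (h (Pi.single j 1)) i
  simpa using this

theorem adQ_one : adQ 1 = 1 := by
  rw [quat_adQ_eq]
  ext i j
  fin_cases i <;> fin_cases j <;>
    simp [quat_one_re, quat_one_imI, quat_one_imJ, quat_one_imK]

theorem quat_adQ_neg_one : adQ (-1) = 1 := by
  rw [quat_adQ_eq]
  ext i j
  fin_cases i <;> fin_cases j <;>
    simp [quat_one_re, quat_one_imI, quat_one_imJ, quat_one_imK]

theorem adQ_neg_one_zpow (k : ℤ) : adQ ((-1 : Quaternion ℝ) ^ k) = 1 := by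
  rcases Int.even_or_odd k with h | h
  · rw [h.neg_one_zpow, adQ_one]
  · rw [h.neg_one_zpow, quat_adQ_neg_one]

theorem adQ_commute {q : Quaternion ℝ} (hq : ‖q‖ = 1) {v : Fin 3 → ℝ}
    (h : q * imQ v = imQ v * q) : adQ q *ᵥ v = v := by
  apply quat_imQ_inj
  have h1 : q * star q = 1 := by
    rw [Quaternion.self_mul_star, Quaternion.normSq_eq_norm_mul_self, hq, mul_one]
    rfl
  rw [adQ_mulVec, h, mul_assoc, h1, mul_one]

theorem qexp_norm {v : Fin 3 → ℝ} (hv : v ∈ US (Fin 3)) (a : ℝ) : ‖qexp v a‖ = 1 := by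
  rw [quat_us3] at hv
  rw [quat_norm_iff]
  simp [qexp, imQ]
  linear_combination Real.sin_sq_add_cos_sq a + Real.sin a ^ 2 * hv

theorem qexp_add {v : Fin 3 → ℝ} (hv : v ∈ US (Fin 3)) (a b : ℝ) :
    qexp v (a + b) = qexp v a * qexp v b := by
  rw [quat_us3] at hv
  ext <;> simp [qexp, imQ, Real.cos_add, Real.sin_add]
  · linear_combination Real.sin a * Real.sin b * hv
  · ring
  · ring
  · ring

theorem qexp_commute {v : Fin 3 → ℝ} (a : ℝ) : qexp v a * imQ v = imQ v * qexp v a := by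
  ext <;> simp [qexp, imQ] <;> ring

/-- A unit quaternion commuting with the unit imaginary quaternion `v` is `cos a + sin a v` where
`cos a = re q`, `sin a = (qIm q) ⬝ v`. -/
theorem eq_of_commute {q : Quaternion ℝ} (hq : ‖q‖ = 1) {v : Fin 3 → ℝ} (hv : v ∈ US (Fin 3))
    (h : q * imQ v = imQ v * q) :
    q = (q.re : Quaternion ℝ) + (qIm q ⬝ᵥ v) • imQ v ∧ q.re ^ 2 + (qIm q ⬝ᵥ v) ^ 2 = 1 := by
  rw [quat_norm_iff] at hq
  rw [quat_us3] at hv
  have hI := congrArg (fun z : Quaternion ℝ => z.imI) h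
  have hJ := congrArg (fun z : Quaternion ℝ => z.imJ) h
  have hK := congrArg (fun z : Quaternion ℝ => z.imK) h
  simp [imQ] at hI hJ hK
  have hd : qIm q ⬝ᵥ v = q.imI * v 0 + q.imJ * v 1 + q.imK * v 2 := by
    simp [dotProduct, Fin.sum_univ_three, qIm]
  have c0 : q.imJ * v 2 = q.imK * v 1 := by linarith
  have c1 : q.imK * v 0 = q.imI * v 2 := by linarith
  have c2 : q.imI * v 1 = q.imJ * v 0 := by linarith
  have e0 : q.imI = (qIm q ⬝ᵥ v) * v 0 := by
    rw [hd]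
    linear_combination (-q.imI) * hv + v 1 * c2 - v 2 * c1
  have e1 : q.imJ = (qIm q ⬝ᵥ v) * v 1 := by
    rw [hd]
    linear_combination (-q.imJ) * hv + v 2 * c0 - v 0 * c2
  have e2 : q.imK = (qIm q ⬝ᵥ v) * v 2 := by
    rw [hd]
    linear_combination (-q.imK) * hv + v 0 * c1 - v 1 * c0
  refine ⟨?_, ?_⟩
  · ext
    · simp [imQ]
    · simpa [imQ] using e0
    · simpa [imQ] using e1
    · simpa [imQ] using e2
  · generalize qIm q ⬝ᵥ v = d at *
    rw [e0, e1, e2] at hq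
    linear_combination hq - d ^ 2 * hv

end DT
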