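import Pool.Agent.H78.DT.S1cls
import Pool.Agent.H78.DT.Quat

/-!
# The double suspension of `z ↦ z^k` is the quaternion power `w ↦ w^k` (job DT-QPOW)

`dsz k : Sp 3 → ℝ⁴` is `(α, β) ↦ (α, |β| (β/|β|)^k)`, with `α = x₀ + x₁ i`, `β = x₂ + x₃ i`
(the double suspension of `z ↦ z^k`: first prove this formula, `cone`).
As a quaternion `w = α + β j` (`β j = x₂ j + x₃ k`).
Let `D = {α ∈ ℂ, |α| ≤ 1}`, `r(α) = √(1-|α|²)`,
`pr : I × D → S³`, `pr (φ, α) = (α, r(α) e^{2πiφ})`: continuous and surjective, `pr (0, α) = pr (1, α)`,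
and `pr (φ, α)` is independent of `φ` for `|α| = 1`; these are the only identifications.  It is a
quotient map (compact to Hausdorff), and so is `I × (I × D) → I × S³` (a homotopy can be
defined on `I × (I × D)`).
Let `G : I × D → S³` (unit quaternions), `G (φ, α) = pr (φ, α) * (pr (0, α))⁻¹`: `G = 1` if `φ = 0` or
`φ = 1` or `|α| = 1`.  Extend `G` to `φ ∈ ℝ` by the same formula (`1`-periodic in `φ`).
For a continuous `m : I → ℝ` with integer values at `0` and `1`, `G (m φ, α)` descends to a map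
`W_m : S³ → S³`.  If `m, m'` have the same (integer) values at `0` and at `1`, `W_m ~ W_{m'}` (linear
homotopy `(1-u) m + u m'`).  For integers `k` let `W_k` be `W_m` for `m φ = k φ`.
(1) `W_{k+l} ~ W_k W_l` (pointwise product): `p φ = min (2φ) 1`, `q φ = max (2φ-1) 0`:
`(k+l)φ` and `k p + l q` have the same ends; `G (k p + l q) = G (k p) G (l q)` (for `φ ≤ 1/2`
`q = 0`, for `φ ≥ 1/2` `k p = k` is an integer); and `k p ~ k φ`, `l q ~ l φ`.
(2) `W_1 ~ (w ↦ w)`: `W_1 (w) = w * (pr (0, α(w)))⁻¹` and `pr (0, u α)`, `u ∈ [0,1]`, is a homotopy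
from the constant `j` (the value of `pr (0, 0)`) to `pr (0, α(w))` of maps `S³ → S³`; a
constant unit quaternion can be joined to `1` in the unit quaternions.
(3) So `W_k ~ (w ↦ w^k)` for all integers `k` by induction in both directions:
`W_0 = 1`, `W_{k+1} ~ W_k W_1`, so `W_{k+1} ~ w^k w`; and `W_k ~ W_{k+1} W_1⁻¹` (from
`W_{k+1} ~ W_k W_1`, multiply by `W_1⁻¹`).
(4) `dsz k (pr (φ, α)) = pr (kφ, α) = G (kφ, α) pr (0, α)`, so `dsz k = W_k * pr (0, α(w))` which is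
homotopic to `W_k` by the homotopy of (2).
-/

open Matrix Set unitInterval Topology

noncomputable section

namespace DT

/-- The double suspension of `z ↦ z^k`. -/
def dsz (k : ℤ) (x : Sp 3) : Fin 4 → ℝ :=
  suspF (fun q : Unit × Sp 2 => suspF (fun r : Unit × Sp 1 => zk k r.2.1) q) ((), x)

/-- unit quaternions -/
def Qpow_U : Set (Quaternion ℝ) := {q | ‖q‖ = 1}

theorem Qpow_mul {X : Type} [TopologicalSpace X] {f g f' g' : X → Quaternion ℝ}
    (h : HIn Qpow_U f g) (h' : HIn Qpow_U f' g') :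
    HIn Qpow_U (fun x => f x * f' x) (fun x => g x * g' x) := by
  refine HIn.map₂ h h' (fun a b => a * b) continuous_mul ?_
  intro a ha b hb
  have h1 : ‖a‖ = 1 := ha
  have h2 : ‖b‖ = 1 := hb
  show ‖a * b‖ = 1
  rw [norm_mul, h1, h2, one_mul]

theorem Qpow_star {X : Type} [TopologicalSpace X] {f g : X → Quaternion ℝ}
    (h : HIn Qpow_U f g) : HIn Qpow_U (fun x => star (f x)) (fun x => star (g x)) := by
  refine h.map' star continuous_star ?_
  intro a ha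
  have h1 : ‖a‖ = 1 := ha
  show ‖star a‖ = 1
  rw [norm_star, h1]

theorem Qpow_mul_star {a : Quaternion ℝ} (ha : ‖a‖ = 1) : a * star a = 1 := by
  rw [Quaternion.self_mul_star, Quaternion.normSq_eq_norm_mul_self, ha]
  simp

theorem Qpow_star_mul {a : Quaternion ℝ} (ha : ‖a‖ = 1) : star a * a = 1 := by
  rw [Quaternion.star_mul_self, Quaternion.normSq_eq_norm_mul_self, ha]
  simp

/-- the complex number -/
def Qpow_z (y : Fin 2 → ℝ) : ℂ := ⟨y 0, y 1⟩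

/-- the circle maps -/
def Qpow_g (n : ℤ) (p : ℝ × Sp 1) : ℂ :=
  Qpow_z p.2.1 ^ n * Complex.exp (((p.1 * Real.arccos (p.2.1 0) : ℝ) : ℂ) * Complex.I)

theorem Qpow_z_norm {y : Fin 2 → ℝ} (hy : y ∈ US (Fin 2)) : ‖Qpow_z y‖ = 1 := by
  have h : y ⬝ᵥ y = 1 := hy
  rw [dotProduct, Fin.sum_univ_two] at h
  unfold Qpow_z
  rw [Complex.norm_def, Complex.normSq_mk, h, Real.sqrt_one]

theorem Qpow_g_norm (n : ℤ) (p : ℝ × Sp 1) : ‖Qpow_g n p‖ = 1 := by
  unfold Qpow_g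
  rw [norm_mul, norm_zpow, Qpow_z_norm p.2.2, _root_.one_zpow, one_mul, Complex.norm_exp_ofReal_mul_I]

theorem Qpow_z_cont : Continuous Qpow_z := by
  have h : Qpow_z = fun y => ((y 0 : ℝ) : ℂ) + ((y 1 : ℝ) : ℂ) * Complex.I := by
    funext y
    unfold Qpow_z
    exact Complex.mk_eq_add_mul_I _ _
  rw [h]
  fun_prop

theorem Qpow_g_cont (n : ℤ) : Continuous (Qpow_g n) := by
  unfold Qpow_g
  refine Continuous.mul ?_ ?_
  · refine Continuous.zpow₀ (Qpow_z_cont.comp (by fun_prop)) n fun p => Or.inl ?_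
    intro h
    have h' : Qpow_z p.2.1 = 0 := h
    have := Qpow_z_norm p.2.2
    rw [h', norm_zero] at this
    exact zero_ne_one this
  · have h1 : Continuous fun p : ℝ × Sp 1 => p.2.1 0 :=
      (continuous_apply 0).comp (continuous_subtype_val.comp continuous_snd)
    have h2 : Continuous fun p : ℝ × Sp 1 => Real.arccos (p.2.1 0) :=
      Real.continuous_arccos.comp h1
    fun_prop

/-- the last two coordinates -/
def Qpow_t (x : Fin 4 → ℝ) : Fin 2 → ℝ := ![x 2, x 3]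

/-- the maps of the three sphere as vectors -/
def Qpow_A (n : ℤ) (s : ℝ) (x : Fin 4 → ℝ) : Fin 4 → ℝ :=
  ![x 0, x 1, (cone (Qpow_g n) (s, Qpow_t x)).re, (cone (Qpow_g n) (s, Qpow_t x)).im]

theorem Qpow_polar (v : Fin 2 → ℝ) : ∃ (r : ℝ) (y : Sp 1), 0 ≤ r ∧ v = r • y.1 := by
  by_cases hv : v = 0
  · refine ⟨0, ⟨![1, 0], ?_⟩, le_rfl, by rw [hv, zero_smul]⟩
    show ![1, 0] ⬝ᵥ ![1, 0] = (1 : ℝ)
    simp
  · exact ⟨nr v, ⟨nrm v, nrm_mem hv⟩, nr_nonneg v, (nr_smul_nrm v).symm⟩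

theorem Qpow_A_eq (n : ℤ) (s : ℝ) (x : Fin 4 → ℝ) {r : ℝ} (hr : 0 ≤ r) {y : Sp 1}
    (h : Qpow_t x = r • y.1) : Qpow_A n s x =
      ![x 0, x 1, r * (Qpow_g n (s, y)).re, r * (Qpow_g n (s, y)).im] := by
  unfold Qpow_A
  rw [h, cone_smul_unit _ _ hr]
  simp

theorem Qpow_A_mem (n : ℤ) (s : ℝ) {x : Fin 4 → ℝ} (hx : x ∈ US (Fin 4)) :
    Qpow_A n s x ∈ US (Fin 4) := by
  obtain ⟨r, y, hr, h⟩ := Qpow_polar (Qpow_t x)
  rw [Qpow_A_eq n s x hr h]
  have h1 : x ⬝ᵥ x = 1 := hx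
  have h2 := Qpow_g_norm n (s, y)
  have h3 : (Qpow_g n (s, y)).re * (Qpow_g n (s, y)).re +
      (Qpow_g n (s, y)).im * (Qpow_g n (s, y)).im = 1 := by
    rw [← Complex.normSq_apply, Complex.normSq_eq_norm_sq, h2, one_pow]
  have h4 : y.1 ⬝ᵥ y.1 = 1 := y.2
  rw [dotProduct, Fin.sum_univ_two] at h4
  have h5 : x 2 = r * y.1 0 := congrFun h 0
  have h6 : x 3 = r * y.1 1 := congrFun h 1
  rw [dotProduct, Fin.sum_univ_four] at h1
  show _ ⬝ᵥ _ = (1 : ℝ)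
  rw [dotProduct, Fin.sum_univ_four]
  show x 0 * x 0 + x 1 * x 1 + r * (Qpow_g n (s, y)).re * (r * (Qpow_g n (s, y)).re) +
    r * (Qpow_g n (s, y)).im * (r * (Qpow_g n (s, y)).im) = 1
  rw [h5, h6] at h1
  linear_combination h1 + r ^ 2 * h3 - r ^ 2 * h4

theorem Qpow_A_cont (n : ℤ) : Continuous fun p : ℝ × Sp 3 => Qpow_A n p.1 p.2.1 := by
  have h0 : Continuous fun p : ℝ × Sp 3 => p.2.1 := continuous_subtype_val.comp continuous_snd
  have h1 : ∀ i, Continuous fun p : ℝ × Sp 3 => p.2.1 i := fun i => (continuous_apply i).comp h0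
  have h2 : Continuous fun p : ℝ × Sp 3 => cone (Qpow_g n) (p.1, Qpow_t p.2.1) := by
    refine (continuous_cone (Qpow_g n) (Qpow_g_cont n)).comp (continuous_fst.prodMk ?_)
    unfold Qpow_t
    refine continuous_pi fun i => ?_
    fin_cases i
    · exact h1 2
    · exact h1 3
  unfold Qpow_A
  refine continuous_pi fun i => ?_
  fin_cases i
  · exact h1 0
  · exact h1 1
  · exact Complex.continuous_re.comp h2
  · exact Complex.continuous_im.comp h2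

/-- the maps of the three sphere -/
def Qpow_W (n : ℤ) (s : ℝ) (x : Sp 3) : Quaternion ℝ :=
  toQ (Qpow_A n s x.1) * star (toQ (Qpow_A 0 0 x.1))

theorem Qpow_A_norm (n : ℤ) (s : ℝ) (x : Sp 3) : ‖toQ (Qpow_A n s x.1)‖ = 1 :=
  toQ_norm.2 (Qpow_A_mem n s x.2)

theorem Qpow_W_norm (n : ℤ) (s : ℝ) (x : Sp 3) : ‖Qpow_W n s x‖ = 1 := by
  unfold Qpow_W
  rw [norm_mul, norm_star, Qpow_A_norm, Qpow_A_norm, one_mul]

theorem Qpow_W_cont (n : ℤ) : Continuous fun p : ℝ × Sp 3 => Qpow_W n p.1 p.2 := by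
  unfold Qpow_W
  refine (toQ_continuous.comp (Qpow_A_cont n)).mul (continuous_star.comp
    (toQ_continuous.comp ?_))
  exact (Qpow_A_cont 0).comp (f := fun p : ℝ × Sp 3 => ((0 : ℝ), p.2)) (by fun_prop)

theorem Qpow_W_hin (n : ℤ) (s : ℝ) : HIn Qpow_U (Qpow_W n 0) (Qpow_W n s) := by
  refine ⟨fun p => Qpow_W n ((p.1 : ℝ) * s) p.2, ?_, fun u x => Qpow_W_norm _ _ _, fun x => ?_,
    fun x => ?_⟩
  · exact (Qpow_W_cont n).comp (f := fun p : I × Sp 3 => ((p.1 : ℝ) * s, p.2)) (by fun_prop)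
  · show Qpow_W n (((0 : I) : ℝ) * s) x = _
    rw [Set.Icc.coe_zero, zero_mul]
  · show Qpow_W n (((1 : I) : ℝ) * s) x = _
    rw [Set.Icc.coe_one, one_mul]

theorem Qpow_g_zero (y : Sp 1) : Qpow_g 0 (0, y) = 1 := by
  unfold Qpow_g
  simp

theorem Qpow_exp (y : Sp 1) : Complex.exp (((Real.arccos (y.1 0) : ℝ) : ℂ) * Complex.I) =
    ⟨y.1 0, |y.1 1|⟩ := by
  have h4 : y.1 ⬝ᵥ y.1 = 1 := y.2
  rw [dotProduct, Fin.sum_univ_two] at h4
  have h0 : -1 ≤ y.1 0 := by nlinarith [mul_self_nonneg (y.1 1)]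
  have h1 : y.1 0 ≤ 1 := by nlinarith [mul_self_nonneg (y.1 1)]
  rw [Complex.exp_mul_I, ← Complex.ofReal_cos, ← Complex.ofReal_sin, Real.cos_arccos h0 h1,
    Real.sin_arccos]
  have h2 : Real.sqrt (1 - y.1 0 ^ 2) = |y.1 1| := by
    rw [← Real.sqrt_sq_eq_abs]
    congr 1
    linarith
  rw [h2]
  exact (Complex.mk_eq_add_mul_I _ _).symm

theorem Qpow_exp_int (y : Sp 1) (s : ℤ) :
    Complex.exp ((((s : ℝ) * Real.arccos (y.1 0) : ℝ) : ℂ) * Complex.I) =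
      (⟨y.1 0, |y.1 1|⟩ : ℂ) ^ s := by
  rw [← Qpow_exp, ← Complex.exp_int_mul]
  congr 1
  push_cast
  ring

theorem Qpow_z_ne (y : Sp 1) : Qpow_z y.1 ≠ 0 := by
  intro h
  have := Qpow_z_norm y.2
  rw [h, norm_zero] at this
  exact zero_ne_one this

theorem Qpow_g_pos (n s : ℤ) {y : Sp 1} (h : 0 ≤ y.1 1) :
    Qpow_g n ((s : ℝ), y) = Qpow_z y.1 ^ (n + s) := by
  unfold Qpow_g
  show Qpow_z y.1 ^ n * Complex.exp ((((s : ℝ) * Real.arccos (y.1 0) : ℝ) : ℂ) * Complex.I) = _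
  rw [Qpow_exp_int, abs_of_nonneg h, zpow_add₀ (Qpow_z_ne y)]
  rfl

theorem Qpow_g_neg (n s : ℤ) {y : Sp 1} (h : y.1 1 ≤ 0) :
    Qpow_g n ((s : ℝ), y) = Qpow_z y.1 ^ (n - s) := by
  unfold Qpow_g
  show Qpow_z y.1 ^ n * Complex.exp ((((s : ℝ) * Real.arccos (y.1 0) : ℝ) : ℂ) * Complex.I) = _
  have h1 : (⟨y.1 0, -y.1 1⟩ : ℂ) = (Qpow_z y.1)⁻¹ := by
    refine eq_inv_of_mul_eq_one_left ?_
    have h4 : y.1 ⬝ᵥ y.1 = 1 := y.2
    rw [dotProduct, Fin.sum_univ_two] at h4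
    unfold Qpow_z
    refine Complex.ext ?_ ?_
    · simp
      linarith
    · simp
      ring
  rw [Qpow_exp_int, abs_of_nonpos h, h1, _root_.inv_zpow, ← _root_.zpow_neg, ← zpow_add₀ (Qpow_z_ne y),
    sub_eq_add_neg]

theorem Qpow_A_congr {n n' : ℤ} {s s' : ℝ} {x : Fin 4 → ℝ} {r : ℝ} (hr : 0 ≤ r) {y : Sp 1}
    (h : Qpow_t x = r • y.1) (hg : Qpow_g n (s, y) = Qpow_g n' (s', y)) :
    Qpow_A n s x = Qpow_A n' s' x := by
  rw [Qpow_A_eq n s x hr h, Qpow_A_eq n' s' x hr h, hg]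

theorem Qpow_W_add (k l : ℤ) (x : Sp 3) :
    Qpow_W k (k : ℝ) x * Qpow_W l ((-l : ℤ) : ℝ) x = Qpow_W (k + l) ((k - l : ℤ) : ℝ) x := by
  obtain ⟨r, y, hr, h⟩ := Qpow_polar (Qpow_t x.1)
  rcases le_total 0 (y.1 1) with hy | hy
  · have e1 : Qpow_A l ((-l : ℤ) : ℝ) x.1 = Qpow_A 0 0 x.1 := by
      refine Qpow_A_congr hr h ?_
      rw [Qpow_g_pos _ _ hy, Qpow_g_zero, add_neg_cancel, zpow_zero]
    have e2 : Qpow_A k (k : ℝ) x.1 = Qpow_A (k + l) ((k - l : ℤ) : ℝ) x.1 := by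
      refine Qpow_A_congr hr h ?_
      rw [Qpow_g_pos _ _ hy, Qpow_g_pos _ _ hy]
      congr 1
      ring
    unfold Qpow_W
    rw [e1, e2, Qpow_mul_star (Qpow_A_norm _ _ x), mul_one]
  · have e1 : Qpow_A k (k : ℝ) x.1 = Qpow_A 0 0 x.1 := by
      refine Qpow_A_congr hr h ?_
      rw [Qpow_g_neg _ _ hy, Qpow_g_zero, sub_self, zpow_zero]
    have e2 : Qpow_A l ((-l : ℤ) : ℝ) x.1 = Qpow_A (k + l) ((k - l : ℤ) : ℝ) x.1 := by
      refine Qpow_A_congr hr h ?_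
      rw [Qpow_g_neg _ _ hy, Qpow_g_neg _ _ hy]
      congr 1
      ring
    unfold Qpow_W
    rw [e1, e2, Qpow_mul_star (Qpow_A_norm _ _ x), one_mul]

theorem Qpow_add (k l : ℤ) :
    HIn Qpow_U (Qpow_W (k + l) 0) (fun x => Qpow_W k 0 x * Qpow_W l 0 x) := by
  have h1 := Qpow_W_hin (k + l) ((k - l : ℤ) : ℝ)
  have h2 := Qpow_mul (Qpow_W_hin k (k : ℝ)) (Qpow_W_hin l ((-l : ℤ) : ℝ))
  have h3 : (fun x => Qpow_W k (k : ℝ) x * Qpow_W l ((-l : ℤ) : ℝ) x) =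
    Qpow_W (k + l) ((k - l : ℤ) : ℝ) := funext (Qpow_W_add k l)
  rw [h3] at h2
  exact h1.trans h2.symm

theorem Qpow_A_one (x : Fin 4 → ℝ) : Qpow_A 1 0 x = x := by
  obtain ⟨r, y, hr, h⟩ := Qpow_polar (Qpow_t x)
  rw [Qpow_A_eq 1 0 x hr h]
  have h5 : x 2 = r * y.1 0 := congrFun h 0
  have h6 : x 3 = r * y.1 1 := congrFun h 1
  have h7 : Qpow_g 1 (0, y) = Qpow_z y.1 := by
    unfold Qpow_g
    simp
  rw [h7]
  funext i
  fin_cases i
  · rfl
  · rfl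
  · exact h5.symm
  · exact h6.symm

/-- the contraction -/
theorem Qpow_B : HIn Qpow_U (fun x : Sp 3 => toQ (Qpow_A 0 0 x.1)) (fun _ => 1) := by
  have h1 : HIn Qpow_U (fun x : Sp 3 => toQ (Qpow_A 0 0 x.1)) (fun _ => toQ ![0, 0, 1, 0]) := by
    refine ⟨fun p => toQ ![(1 - (p.1 : ℝ)) * p.2.1 0, (1 - (p.1 : ℝ)) * p.2.1 1,
      Real.sqrt (1 - (1 - (p.1 : ℝ)) ^ 2 * (p.2.1 0 ^ 2 + p.2.1 1 ^ 2)), 0], ?_, ?_, ?_, ?_⟩
    · refine toQ_continuous.comp (continuous_pi fun i => ?_)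
      have h0 : Continuous fun p : I × Sp 3 => p.2.1 := continuous_subtype_val.comp continuous_snd
      have h1 : ∀ i, Continuous fun p : I × Sp 3 => p.2.1 i := fun i =>
        (continuous_apply i).comp h0
      have h2 := h1 0
      have h3 := h1 1
      have h4 : Continuous fun p : I × Sp 3 => (p.1 : ℝ) :=
        continuous_subtype_val.comp continuous_fst
      fin_cases i
      · exact (continuous_const.sub h4).mul h2
      · exact (continuous_const.sub h4).mul h3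
      · exact Real.continuous_sqrt.comp (continuous_const.sub
          (((continuous_const.sub h4).pow 2).mul ((h2.pow 2).add (h3.pow 2))))
      · exact continuous_const
    · intro u x
      refine toQ_norm.2 ?_
      have h1 : x.1 ⬝ᵥ x.1 = 1 := x.2
      rw [dotProduct, Fin.sum_univ_four] at h1
      have h2 : (1 - (u : ℝ)) ^ 2 ≤ 1 := by nlinarith [u.2.1, u.2.2]
      have h3 : x.1 0 ^ 2 + x.1 1 ^ 2 ≤ 1 := by
        nlinarith [mul_self_nonneg (x.1 2), mul_self_nonneg (x.1 3)]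
      have h4 : 0 ≤ 1 - (1 - (u : ℝ)) ^ 2 * (x.1 0 ^ 2 + x.1 1 ^ 2) := by
        have := mul_le_mul h2 h3 (by positivity) zero_le_one
        linarith
      have h5 := Real.mul_self_sqrt h4
      show _ ⬝ᵥ _ = (1 : ℝ)
      rw [dotProduct, Fin.sum_univ_four]
      show (1 - (u : ℝ)) * x.1 0 * ((1 - (u : ℝ)) * x.1 0) +
        (1 - (u : ℝ)) * x.1 1 * ((1 - (u : ℝ)) * x.1 1) +
        Real.sqrt (1 - (1 - (u : ℝ)) ^ 2 * (x.1 0 ^ 2 + x.1 1 ^ 2)) *
        Real.sqrt (1 - (1 - (u : ℝ)) ^ 2 * (x.1 0 ^ 2 + x.1 1 ^ 2)) + 0 * 0 = 1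
      rw [h5]
      ring
    · intro x
      obtain ⟨r, y, hr, h⟩ := Qpow_polar (Qpow_t x.1)
      show _ = toQ (Qpow_A 0 0 x.1)
      rw [Qpow_A_eq 0 0 x.1 hr h, Qpow_g_zero]
      have h1 : x.1 ⬝ᵥ x.1 = 1 := x.2
      have h4 : y.1 ⬝ᵥ y.1 = 1 := y.2
      rw [dotProduct, Fin.sum_univ_two] at h4
      have h5 : x.1 2 = r * y.1 0 := congrFun h 0
      have h6 : x.1 3 = r * y.1 1 := congrFun h 1
      rw [dotProduct, Fin.sum_univ_four, h5, h6] at h1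
      have h7 : Real.sqrt (1 - (1 - ((0 : I) : ℝ)) ^ 2 * (x.1 0 ^ 2 + x.1 1 ^ 2)) = r := by
        rw [Set.Icc.coe_zero]
        have h8 : 1 - (1 - (0 : ℝ)) ^ 2 * (x.1 0 ^ 2 + x.1 1 ^ 2) = r ^ 2 := by
          linear_combination -h1 + r ^ 2 * h4
        rw [h8, Real.sqrt_sq hr]
      refine congrArg toQ (funext fun i => ?_)
      fin_cases i
      · show (1 - ((0 : I) : ℝ)) * x.1 0 = x.1 0
        rw [Set.Icc.coe_zero, sub_zero, one_mul]
      · show (1 - ((0 : I) : ℝ)) * x.1 1 = x.1 1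
        rw [Set.Icc.coe_zero, sub_zero, one_mul]
      · show Real.sqrt (1 - (1 - ((0 : I) : ℝ)) ^ 2 * (x.1 0 ^ 2 + x.1 1 ^ 2)) =
          r * (1 : ℂ).re
        rw [h7, Complex.one_re, mul_one]
      · show 0 = r * (1 : ℂ).im
        rw [Complex.one_im, mul_zero]
    · intro x
      show toQ ![(1 - ((1 : I) : ℝ)) * x.1 0, (1 - ((1 : I) : ℝ)) * x.1 1,
        Real.sqrt (1 - (1 - ((1 : I) : ℝ)) ^ 2 * (x.1 0 ^ 2 + x.1 1 ^ 2)), 0] = _
      rw [Set.Icc.coe_one]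
      simp
  have h2 : HIn Qpow_U (fun _ : Sp 3 => toQ ![0, 0, 1, 0]) (fun _ => 1) := by
    refine ⟨fun p => toQ ![Real.sin (Real.pi / 2 * (p.1 : ℝ)), 0,
      Real.cos (Real.pi / 2 * (p.1 : ℝ)), 0], ?_, ?_, ?_, ?_⟩
    · refine toQ_continuous.comp (continuous_pi fun i => ?_)
      fin_cases i
      · show Continuous fun p : I × Sp 3 => Real.sin (Real.pi / 2 * (p.1 : ℝ))
        fun_prop
      · exact continuous_const
      · show Continuous fun p : I × Sp 3 => Real.cos (Real.pi / 2 * (p.1 : ℝ))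
        fun_prop
      · exact continuous_const
    · intro u x
      refine toQ_norm.2 ?_
      show _ ⬝ᵥ _ = (1 : ℝ)
      rw [dotProduct, Fin.sum_univ_four]
      show Real.sin (Real.pi / 2 * (u : ℝ)) * Real.sin (Real.pi / 2 * (u : ℝ)) + 0 * 0 +
        Real.cos (Real.pi / 2 * (u : ℝ)) * Real.cos (Real.pi / 2 * (u : ℝ)) + 0 * 0 = 1
      have := Real.sin_sq_add_cos_sq (Real.pi / 2 * (u : ℝ))
      linarith
    · intro x
      show toQ ![Real.sin (Real.pi / 2 * ((0 : I) : ℝ)), 0,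
        Real.cos (Real.pi / 2 * ((0 : I) : ℝ)), 0] = _
      rw [Set.Icc.coe_zero, mul_zero, Real.sin_zero, Real.cos_zero]
    · intro x
      show toQ ![Real.sin (Real.pi / 2 * ((1 : I) : ℝ)), 0,
        Real.cos (Real.pi / 2 * ((1 : I) : ℝ)), 0] = _
      rw [Set.Icc.coe_one, mul_one, Real.sin_pi_div_two, Real.cos_pi_div_two]
      rfl
  exact h1.trans h2

theorem Qpow_refl {f : Sp 3 → Quaternion ℝ} (hf : Continuous f) (h : ∀ x, ‖f x‖ = 1) :
    HIn Qpow_U f f := HIn.refl hf h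

theorem Qpow_w_cont : Continuous fun x : Sp 3 => toQ x.1 :=
  toQ_continuous.comp continuous_subtype_val

theorem Qpow_W_one : HIn Qpow_U (Qpow_W 1 0) (fun x => toQ x.1) := by
  have h1 := Qpow_mul (Qpow_refl Qpow_w_cont (fun x => toQ_norm.2 x.2)) (Qpow_star Qpow_B)
  have e1 : (fun x : Sp 3 => toQ x.1 * star (toQ (Qpow_A 0 0 x.1))) = Qpow_W 1 0 := by
    funext x
    unfold Qpow_W
    rw [Qpow_A_one]
  have e2 : (fun x : Sp 3 => toQ x.1 * star 1) = fun x => toQ x.1 := by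
    funext x
    rw [star_one, mul_one]
  rw [e1, e2] at h1
  exact h1

theorem Qpow_W_zero : Qpow_W 0 0 = fun _ => 1 := by
  funext x
  unfold Qpow_W
  rw [Qpow_mul_star (Qpow_A_norm _ _ x)]

theorem Qpow_W_neg_one : HIn Qpow_U (Qpow_W (-1) 0) (fun x => (toQ x.1)⁻¹) := by
  have h1 := Qpow_add (-1) 1
  rw [neg_add_cancel, Qpow_W_zero] at h1
  have h2 := Qpow_mul h1 (Qpow_star Qpow_W_one)
  have e1 : (fun x : Sp 3 => (toQ x.1)⁻¹) = fun x => star (toQ x.1) := by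
    funext x
    exact (eq_inv_of_mul_eq_one_left (Qpow_star_mul (toQ_norm.2 x.2))).symm
  have h3 := Qpow_star Qpow_W_one
  have h4 := Qpow_mul (Qpow_W_hin (-1) 0) (Qpow_mul (Qpow_W_hin 1 0) (Qpow_star (Qpow_W_hin 1 0)))
  have e2 : (fun x : Sp 3 => Qpow_W (-1) 0 x * (Qpow_W 1 0 x * star (Qpow_W 1 0 x))) =
      Qpow_W (-1) 0 := by
    funext x
    rw [Qpow_mul_star (Qpow_W_norm _ _ x), mul_one]
  have h5 := Qpow_mul (Qpow_W_hin (-1) 0) (Qpow_mul (Qpow_W_hin 1 0) h3)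
  rw [e2] at h5
  have h6 := Qpow_mul h1.symm (HIn.refl (A := Qpow_U) (f := fun x : Sp 3 => star (toQ x.1))
    (continuous_star.comp Qpow_w_cont) (fun x => by
      show ‖star (toQ x.1)‖ = 1
      rw [norm_star]
      exact toQ_norm.2 x.2))
  have e3 : (fun x : Sp 3 => 1 * star (toQ x.1)) = fun x => star (toQ x.1) := by
    funext x
    rw [one_mul]
  have e4 : (fun x : Sp 3 => Qpow_W (-1) 0 x * (Qpow_W 1 0 x * star (toQ x.1))) =
      fun x => Qpow_W (-1) 0 x * Qpow_W 1 0 x * star (toQ x.1) := by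
    funext x
    rw [mul_assoc]
  rw [e3] at h6
  rw [e4] at h5
  rw [e1]
  exact h5.trans h6

theorem Qpow_W_zpow (k : ℤ) : HIn Qpow_U (Qpow_W k 0) (fun x => toQ x.1 ^ k) := by
  have hne : ∀ x : Sp 3, toQ x.1 ≠ 0 := by
    intro x h
    have := toQ_norm.2 x.2
    rw [h, norm_zero] at this
    exact zero_ne_one this
  induction k using Int.induction_on with
  | zero =>
    have e : (fun x : Sp 3 => toQ x.1 ^ (0 : ℤ)) = fun _ => 1 := by
      funext x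
      rw [zpow_zero]
    rw [e, Qpow_W_zero]
    exact HIn.refl continuous_const (fun _ => norm_one)
  | succ n ih =>
    have e : (fun x : Sp 3 => toQ x.1 ^ ((n : ℤ) + 1)) = fun x => toQ x.1 ^ (n : ℤ) * toQ x.1 := by
      funext x
      rw [zpow_add_one₀ (hne x)]
    rw [e]
    exact (Qpow_add n 1).trans (Qpow_mul ih Qpow_W_one)
  | pred n ih =>
    have e : (fun x : Sp 3 => toQ x.1 ^ (-(n : ℤ) - 1)) =
        fun x => toQ x.1 ^ (-(n : ℤ)) * (toQ x.1)⁻¹ := by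
      funext x
      rw [zpow_sub_one₀ (hne x)]
    rw [e, sub_eq_add_neg]
    exact (Qpow_add (-(n : ℤ)) (-1)).trans (Qpow_mul ih Qpow_W_neg_one)

theorem Qpow_polar' {k : ℕ} (v : Fin (k + 1) → ℝ) :
    ∃ (r : ℝ) (y : Sp k), 0 ≤ r ∧ v = r • y.1 := by
  by_cases hv : v = 0
  · exact ⟨0, ⟨north k, cone_north_mem k⟩, le_rfl, by rw [hv, zero_smul]⟩
  · exact ⟨nr v, ⟨nrm v, nrm_mem hv⟩, nr_nonneg v, (nr_smul_nrm v).symm⟩

theorem Qpow_dsz (k : ℤ) (x : Sp 3) : dsz k x = Qpow_A k 0 x.1 := by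
  obtain ⟨r, y, hr, h⟩ := Qpow_polar (Qpow_t x.1)
  obtain ⟨r', y', hr', h'⟩ := Qpow_polar' (Fin.tail x.1)
  have h1 : r' • Fin.tail y'.1 = r • y.1 := by
    rw [← h]
    have h2 : r' • Fin.tail y'.1 = Fin.tail (Fin.tail x.1) := by
      rw [h']
      rfl
    rw [h2]
    funext i
    fin_cases i <;> rfl
  have h3 : dsz k x = (Fin.cons (x.1 0) (r' • (Fin.cons (y'.1 0)
      (cone (fun r : Unit × Sp 1 => zk k r.2.1) ((), Fin.tail y'.1)) : Fin 3 → ℝ)) :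
        Fin 4 → ℝ) := by
    have h8 : cone (fun q : Unit × Sp 2 => (suspF (fun r : Unit × Sp 1 => zk k r.2.1) q :
        Fin 3 → ℝ)) ((), Fin.tail x.1) = r' • (Fin.cons (y'.1 0)
      (cone (fun r : Unit × Sp 1 => zk k r.2.1) ((), Fin.tail y'.1)) : Fin 3 → ℝ) := by
      rw [h', cone_smul_unit _ _ hr']
      rfl
    rw [← h8]
    rfl
  have h4 : r' • cone (fun r : Unit × Sp 1 => zk k r.2.1) ((), Fin.tail y'.1) = r • zk k y.1 := by
    rw [← cone_smul _ _ hr', h1, cone_smul_unit _ _ hr]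
  have h5 : Qpow_g k (0, y) = Qpow_z y.1 ^ k := by
    unfold Qpow_g
    simp
  rw [h3, Qpow_A_eq k 0 x.1 hr h, h5]
  funext i
  have h7 : x.1 1 = r' * y'.1 0 := congrFun h' 0
  fin_cases i
  · rfl
  · exact h7.symm
  · exact congrFun h4 0
  · exact congrFun h4 1

theorem qpow (k : ℤ) : HIn (US (Fin 4)) (dsz k) (fun x => ofQ (toQ x.1 ^ k)) := by
  have h1 := Qpow_mul (Qpow_W_zpow k) Qpow_B
  have e1 : (fun x : Sp 3 => Qpow_W k 0 x * toQ (Qpow_A 0 0 x.1)) = fun x => toQ (dsz k x) := by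
    funext x
    unfold Qpow_W
    rw [mul_assoc, Qpow_star_mul (Qpow_A_norm _ _ x), mul_one, Qpow_dsz]
  have e2 : (fun x : Sp 3 => toQ x.1 ^ k * 1) = fun x => toQ x.1 ^ k := by
    funext x
    rw [mul_one]
  rw [e1, e2] at h1
  have h2 := h1.map' (B := US (Fin 4)) ofQ ofQ_continuous (fun q hq => ofQ_mem.2 hq)
  have e3 : (fun x : Sp 3 => ofQ (toQ (dsz k x))) = dsz k := by
    funext x
    rw [ofQ_toQ]
  rw [e3] at h2
  exact h2

end DT
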