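import Pool.Agent.H78.DT.Freud
import Pool.Agent.H78.DT.Qpow

/-!
# Maps of the three sphere to itself (job DT-SPH3)

PROOF. `freud_pt 2` for `F ((), x) = D x` gives `F' : Unit × Sp 2 → S²` with `F ~ suspF F'`;
`freud_pt 1` gives `F'' : Unit × Sp 1 → S¹`, `F' ~ suspF F''`; `s1_cls` gives `k` with
`F'' ((), ·) ~ zk k`.  By `susp_hrel` with `S = ∅` (an `HIn` is an `HRel` relative to
`{q | q.1 ∈ ∅}`, use `HP.mono`) suspend the homotopies: `F ~ suspF F' ~ suspF (suspF F'')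
~ suspF (suspF (zk k))`, which is `dsz k`, and use `qpow`.
(Homotopies on `Unit × X` and on `X` are exchanged by `HIn.comp`.)
-/

open Matrix Set unitInterval Topology

noncomputable section

namespace DT

/-- The suspension of a homotopy. -/
theorem sph3_susp (m : ℕ) (f g : Unit × Sp m → (Fin (m + 1) → ℝ))
    (h : HIn (US (Fin (m + 1))) f g) : HIn (US (Fin (m + 2))) (suspF f) (suspF g) := by
  have h' : HRel (US (Fin (m + 1))) {q : Unit × Sp m | q.1 ∈ (∅ : Set Unit)} f g :=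
    HP.mono h (fun _ hq => ⟨hq, fun _ hx => absurd hx (Set.notMem_empty _)⟩)
  exact (susp_hrel m ∅ f g h').hIn

theorem sph3 (D : Sp 3 → (Fin 4 → ℝ)) (hD : Continuous D) (hU : ∀ x, D x ∈ US (Fin 4)) :
    ∃ k : ℤ, HIn (US (Fin 4)) D (fun x => ofQ (toQ x.1 ^ k)) := by
  obtain ⟨F₁, c1, u1, h1⟩ := freud_pt 2 (by norm_num) (fun q : Unit × Sp 3 => D q.2)
    (hD.comp continuous_snd) (fun q => hU q.2)
  obtain ⟨F₂, c2, u2, h2⟩ := freud_pt 1 (le_refl 1) F₁ c1 u1
  obtain ⟨k, h3⟩ := s1_cls (fun y => F₂ ((), y)) (c2.comp (by fun_prop)) (fun y => u2 _)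
  have h4 : HIn (US (Fin 2)) F₂ (fun q : Unit × Sp 1 => zk k q.2.1) := by
    have h5 := h3.comp (fun q : Unit × Sp 1 => q.2) continuous_snd
    exact h5
  have h6 := sph3_susp 1 _ _ h4
  have h7 := sph3_susp 2 _ _ (h2.trans h6)
  have h8 := (h1.trans h7).comp (fun x : Sp 3 => ((), x)) (by fun_prop)
  exact ⟨k, h8.trans (qpow k)⟩

end DT
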