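import Pool.Agent.H78.DT.Rot
import Pool.Agent.H78.DT.Sph3

/-!
# Loops at the identity in the space of maps of the 2-sphere (job DT-LOOP2)

(1) `qtransport`: for unit vectors `u, v` of `ℝ³` with `v ≠ -u` put
`q(u,v) = (1 - v u)/|1 - v u|` (quaternions; `v u` is real iff `v = ± u`, `1 - vu = 0` iff `v = -u`).
`(1 - v u) u = u + v = v (1 - v u)`, so `q u q⁻¹ = v` and `q(u,u) = 1` (`u² = -1`).
As in the proof of `transport` (Rot.lean), composing `N` such quaternions along
`c_j (s) = min s (j/N)` gives `g : I × X → ` unit quaternions, continuous, `g (0,x) = 1`,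
`g (s,x) (imQ h(0,x)) g(s,x)⁻¹ = imQ h(s,x)`.
(2) `loop2`: let `h` be as in the statement; `g` from (1) (`X = Sp 2`), so
`g (s,x) x g (s,x)⁻¹ = h (s,x)`.  `g (1,x)` commutes with `x`, so by `eq_of_commute`
`g (1,x) = c₀(x) + c₁(x) x` with `(c₀, c₁) : Sp 2 → S¹` continuous; by `circ_lift2`
`g (1,x) = qexp x (α x)`, `α` continuous.  Replace `g (s,x)` by
`g' (s,x) = g (s,x) * qexp x (-s α x)`: still `g' x g'⁻¹ = h` (`qexp x a` commutes with `x`),
`g' (0,x) = 1 = g' (1,x)`.  So `g'` descends to `D : Sp 3 → S³`, `D (susp (s,x)) = g' (s,x)`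
(`descend` of Cone.lean).  By `sph3` there is `k` and a homotopy
`D_u` from `D` to `w ↦ w^k`.  Put `N_u = D_u (north pole)`, `M_u = D_u (south pole)`,
`N_0 = M_0 = 1`, `N_1 = 1`, `M_1 = (-1)^k`, `ε_u = N_u⁻¹ M_u`, and
`g''_u (s,x) = ε_{us}⁻¹ N_u⁻¹ D_u (susp (s,x))` (`us` is the product of the numbers).
`g''_u (0,x) = ε_0⁻¹ N_u⁻¹ N_u = 1`, `g''_u (1,x) = ε_u⁻¹ N_u⁻¹ M_u = 1`, `g''_0 = g'`,
`g''_1 (s,x) = ε_s⁻¹ (susp (s,x))^k` and `susp (s,x) = cos πs + sin πs x` commutes with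
`x`.  So `H (u,(s,x)) = g''_u(s,x) x g''_u(s,x)⁻¹` is a homotopy from `h` to
`(s,x) ↦ adQ (ε_s⁻¹) x`, relative to `s = 0, 1`; `r s = adQ (ε_s⁻¹)`, `r 0 = 1`,
`r 1 = adQ ((-1)^k) = 1`.
(Unit quaternions: inverse `= star`.)
-/

open Matrix Set unitInterval Topology

noncomputable section

namespace DT

theorem Loop2_mul_star {q : Quaternion ℝ} (hq : ‖q‖ = 1) : q * star q = 1 := by
  rw [Quaternion.self_mul_star, Quaternion.normSq_eq_norm_mul_self, hq]
  norm_num

theorem Loop2_star_mul {q : Quaternion ℝ} (hq : ‖q‖ = 1) : star q * q = 1 := by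
  rw [Quaternion.star_mul_self, Quaternion.normSq_eq_norm_mul_self, hq]
  norm_num

/-- the elementary step -/
def Loop2_q (a b : Quaternion ℝ) : Quaternion ℝ := ‖1 - b * a‖⁻¹ • (1 - b * a)

theorem Loop2_q_comm {a b : Quaternion ℝ} (ha : a * a = -1) (hb : b * b = -1) :
    Loop2_q a b * a = b * Loop2_q a b := by
  unfold Loop2_q
  rw [smul_mul_assoc, mul_smul_comm, sub_mul, mul_sub, mul_assoc b a a, ha, ← mul_assoc b b a, hb]
  congr 1
  simp
  abel

theorem Loop2_q_norm {a b : Quaternion ℝ} (h : 1 - b * a ≠ 0) : ‖Loop2_q a b‖ = 1 := by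
  unfold Loop2_q
  rw [norm_smul, norm_inv, norm_norm, inv_mul_cancel₀ (norm_ne_zero_iff.2 h)]

theorem Loop2_q_self {a : Quaternion ℝ} (ha : a * a = -1) : Loop2_q a a = 1 := by
  unfold Loop2_q
  rw [ha]
  have h : (1 : Quaternion ℝ) - -1 = (2 : ℝ) • (1 : Quaternion ℝ) := by
    rw [two_smul]
    abel
  rw [h, norm_smul, norm_one, smul_smul]
  norm_num

theorem Loop2_q_ne {a b : Quaternion ℝ} (ha : a * a = -1) (hn : ‖a‖ = 1) (h : ‖b - a‖ < 1) :
    1 - b * a ≠ 0 := by
  intro h1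
  have h2 : b * a = 1 := (sub_eq_zero.1 h1).symm
  have h3 : b * a * a = a := by rw [h2, one_mul]
  rw [mul_assoc, ha] at h3
  have h4 : b = -a := by
    rw [← h3]
    simp
  rw [h4] at h
  have h5 : -a - a = (-2 : ℝ) • a := by module
  rw [h5, norm_smul, hn] at h
  norm_num at h

theorem Loop2_q_cont {X : Type} [TopologicalSpace X] {a b : X → Quaternion ℝ}
    (ha : Continuous a) (hb : Continuous b) (hne : ∀ x, 1 - b x * a x ≠ 0) :
    Continuous fun x => Loop2_q (a x) (b x) := by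
  have h1 : Continuous (fun x => 1 - b x * a x) := continuous_const.sub (hb.mul ha)
  have h2 : Continuous (fun x => ‖1 - b x * a x‖⁻¹) :=
    h1.norm.inv₀ (fun x => norm_ne_zero_iff.2 (hne x))
  exact h2.smul h1

theorem qtransport {X : Type} [TopologicalSpace X] [CompactSpace X] (h : I × X → (Fin 3 → ℝ))
    (hc : Continuous h) (hU : ∀ p, h p ∈ US (Fin 3)) :
    ∃ g : I × X → Quaternion ℝ, Continuous g ∧ (∀ p, ‖g p‖ = 1) ∧ (∀ x, g (0, x) = 1) ∧
      ∀ s x, g (s, x) * imQ (h (0, x)) * star (g (s, x)) = imQ (h (s, x)) := by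
  -- uniform continuity
  let φ : C(I × X, Quaternion ℝ) := ⟨fun q => imQ (h q), imQ_continuous.comp hc⟩
  have hu : UniformContinuous (fun q : I => φ.curry q) :=
    CompactSpace.uniformContinuous_of_continuous φ.curry.continuous
  rw [Metric.uniformContinuous_iff] at hu
  obtain ⟨δ, hδ, hd⟩ := hu 1 one_pos
  have hpos : ∀ s s' : I, dist s s' < δ → ∀ x, 1 - imQ (h (s', x)) * imQ (h (s, x)) ≠ 0 := by
    intro s s' hs x
    apply Loop2_q_ne (imQ_mul_self (hU _)) (imQ_norm.2 (hU _))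
    have h2 := hd hs
    have h3 : dist (φ.curry s x) (φ.curry s' x) < 1 :=
      lt_of_le_of_lt (ContinuousMap.dist_apply_le_dist x) h2
    rw [dist_comm, dist_eq_norm] at h3
    exact h3
  obtain ⟨N, hN⟩ := exists_nat_one_div_lt hδ
  have hcw : ∀ (r : ℝ) (hr : 0 ≤ r),
      Continuous (fun p : I × X => imQ (h (rotC r hr p.1, p.2))) := by
    intro r hr
    have h1 : Continuous (fun p : I × X => ((rotC r hr p.1, p.2) : I × X)) :=
      ((rotC_cont r hr).comp continuous_fst).prodMk continuous_snd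
    exact imQ_continuous.comp (hc.comp h1)
  -- the steps
  have hstep : ∀ j : ℕ, ∃ g : I × X → Quaternion ℝ, Continuous g ∧ (∀ p, ‖g p‖ = 1) ∧
      (∀ x, g (0, x) = 1) ∧
      (∀ s x, g (s, x) * imQ (h (0, x)) =
        imQ (h (rotC (j / (N + 1 : ℝ)) (by positivity) s, x)) * g (s, x)) := by
    intro j
    induction j with
    | zero =>
      refine ⟨fun _ => 1, continuous_const, fun p => norm_one, fun _ => rfl, ?_⟩
      intro s x
      rw [one_mul, mul_one]
      congr 3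
      apply Subtype.ext
      simp only [rotC, Nat.cast_zero, zero_div]
      exact (min_eq_right s.2.1).symm
    | succ j ih =>
      obtain ⟨A, hA, hS, h0, hm⟩ := ih
      have hj : (0 : ℝ) ≤ j / (N + 1 : ℝ) := by positivity
      have hj' : (0 : ℝ) ≤ ((j + 1 : ℕ) : ℝ) / (N + 1 : ℝ) := by positivity
      have hne : ∀ p : I × X, 1 - imQ (h (rotC _ hj' p.1, p.2)) * imQ (h (rotC _ hj p.1, p.2)) ≠ 0 := by
        intro p
        apply hpos
        refine lt_of_le_of_lt (rotC_dist _ _ _ _ _) ?_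
        have : (j / (N + 1 : ℝ)) - ((j + 1 : ℕ) : ℝ) / (N + 1 : ℝ) = - (1 / (N + 1 : ℝ)) := by
          push_cast
          field_simp
          ring
        rw [this, abs_neg, abs_of_pos (by positivity)]
        exact hN
      refine ⟨fun p => Loop2_q (imQ (h (rotC _ hj p.1, p.2))) (imQ (h (rotC _ hj' p.1, p.2))) * A p,
        ?_, ?_, ?_, ?_⟩
      · refine Continuous.mul ?_ hA
        exact Loop2_q_cont (hcw _ hj) (hcw _ hj') hne
      · intro p
        rw [norm_mul, Loop2_q_norm (hne p), hS, one_mul]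
      · intro x
        have e1 : rotC _ hj (0 : I) = 0 := by
          apply Subtype.ext
          simp [rotC, hj]
        have e2 : rotC _ hj' (0 : I) = 0 := by
          apply Subtype.ext
          simp only [rotC, Icc.coe_zero]
          exact min_eq_left hj'
        simp only [e1, e2]
        rw [Loop2_q_self (imQ_mul_self (hU _)), h0, one_mul]
      · intro s x
        simp only
        rw [mul_assoc, hm, ← mul_assoc, Loop2_q_comm (imQ_mul_self (hU _)) (imQ_mul_self (hU _)),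
          mul_assoc]
  obtain ⟨A, hA, hS, h0, hm⟩ := hstep (N + 1)
  refine ⟨A, hA, hS, h0, ?_⟩
  intro s x
  rw [hm, mul_assoc, Loop2_mul_star (hS _), mul_one]
  congr 2
  apply Prod.ext
  · apply Subtype.ext
    have h1 : ((N + 1 : ℕ) : ℝ) / (N + 1 : ℝ) = 1 := by
      push_cast
      field_simp
    simp only [rotC]
    rw [h1]
    exact min_eq_left s.2.2
  · rfl

theorem Loop2_toQ_susp (s : I) (x : Sp 2) : toQ (susp (s, x)).1 = qexp x.1 (Real.pi * (s : ℝ)) := by
  have e0 : (susp (s, x)).1 0 = Real.cos (Real.pi * (s : ℝ)) := rfl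
  have e1 : ∀ i : Fin 3, (susp (s, x)).1 i.succ = Real.sin (Real.pi * (s : ℝ)) * x.1 i :=
    fun i => rfl
  have e2 := e1 0
  have e3 := e1 1
  have e4 := e1 2
  simp only [Fin.succ_zero_eq_one, Fin.succ_one_eq_two] at e2 e3
  have e4' : (susp (s, x)).1 3 = Real.sin (Real.pi * (s : ℝ)) * x.1 2 := e4
  unfold toQ
  rw [e0, e2, e3, e4']
  generalize Real.pi * (s : ℝ) = a
  ext
  · show Real.cos a = Real.cos a + Real.sin a * 0
    ring
  · show Real.sin a * x.1 0 = 0 + Real.sin a * x.1 0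
    ring
  · show Real.sin a * x.1 1 = 0 + Real.sin a * x.1 1
    ring
  · show Real.sin a * x.1 2 = 0 + Real.sin a * x.1 2
    ring

theorem Loop2_susp0 (x y : Sp 2) : susp ((0 : I), x) = susp ((0 : I), y) := by
  apply Subtype.ext
  show sv _ _ = sv _ _
  simp [sv]

theorem Loop2_susp1 (x y : Sp 2) : susp ((1 : I), x) = susp ((1 : I), y) := by
  apply Subtype.ext
  show sv _ _ = sv _ _
  simp [sv]

theorem Loop2_qexp_zero (v : Fin 3 → ℝ) : qexp v 0 = 1 := by
  simp [qexp]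

theorem Loop2_qexp_cont : Continuous fun p : (Fin 3 → ℝ) × ℝ => qexp p.1 p.2 := by
  unfold qexp
  have h1 : Continuous fun p : (Fin 3 → ℝ) × ℝ => imQ p.1 := imQ_continuous.comp continuous_fst
  have h2 : Continuous fun p : (Fin 3 → ℝ) × ℝ => ((Real.cos p.2 : ℝ) : Quaternion ℝ) :=
    Quaternion.continuous_coe.comp (Real.continuous_cos.comp continuous_snd)
  have h3 : Continuous fun p : (Fin 3 → ℝ) × ℝ => Real.sin p.2 :=
    Real.continuous_sin.comp continuous_snd
  exact h2.add (h3.smul h1)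

/-- the loop, lifted to the unit quaternions with trivial ends -/
theorem Loop2_lift (h : I × Sp 2 → (Fin 3 → ℝ)) (hc : Continuous h)
    (hU : ∀ p, h p ∈ US (Fin 3)) (h0 : ∀ x, h (0, x) = x.1) (h1 : ∀ x, h (1, x) = x.1) :
    ∃ g : I × Sp 2 → Quaternion ℝ, Continuous g ∧ (∀ p, ‖g p‖ = 1) ∧ (∀ x, g (0, x) = 1) ∧
      (∀ x, g (1, x) = 1) ∧
      ∀ s x, g (s, x) * imQ x.1 * star (g (s, x)) = imQ (h (s, x)) := by
  obtain ⟨g, gc, gn, g0, gh⟩ := qtransport h hc hU
  have hcomm : ∀ x : Sp 2, g (1, x) * imQ x.1 = imQ x.1 * g (1, x) := by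
    intro x
    have e := gh 1 x
    rw [h0, h1] at e
    calc g (1, x) * imQ x.1 = g (1, x) * imQ x.1 * (star (g (1, x)) * g (1, x)) := by
          rw [Loop2_star_mul (gn _), mul_one]
      _ = (g (1, x) * imQ x.1 * star (g (1, x))) * g (1, x) := by simp only [mul_assoc]
      _ = _ := by rw [e]
  have hg1 := fun x : Sp 2 => eq_of_commute (gn (1, x)) x.2 (hcomm x)
  have gc1 : Continuous fun x : Sp 2 => g (1, x) := gc.comp (by fun_prop)
  obtain ⟨α, αc, hα⟩ := circ_lift2 (fun x : Sp 2 => ![(g (1, x)).re, qIm (g (1, x)) ⬝ᵥ x.1])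
    (by
      refine continuous_pi fun i => ?_
      fin_cases i
      · exact Quaternion.continuous_re.comp gc1
      · show Continuous fun x : Sp 2 => qIm (g (1, x)) ⬝ᵥ x.1
        exact (qIm_continuous.comp gc1).dotProduct continuous_subtype_val)
    (fun x => by
      show _ ⬝ᵥ _ = (1 : ℝ)
      have e := (hg1 x).2
      generalize qIm (g (1, x)) ⬝ᵥ x.1 = c at e ⊢
      generalize (g (1, x)).re = d at e ⊢
      simp only [dotProduct, Fin.sum_univ_two, Matrix.cons_val_zero, Matrix.cons_val_one]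
      linarith)
  have hg1' : ∀ x : Sp 2, g (1, x) = qexp x.1 (α x) := by
    intro x
    obtain ⟨a1, a2⟩ := hα x
    simp only [Matrix.cons_val_zero, Matrix.cons_val_one] at a1 a2
    rw [(hg1 x).1, a1, a2]
    rfl
  refine ⟨fun p => g p * qexp p.2.1 (-((p.1 : ℝ) * α p.2)), ?_, ?_, ?_, ?_, ?_⟩
  · refine gc.mul ?_
    have hcc : Continuous fun p : I × Sp 2 =>
        ((p.2.1, -((p.1 : ℝ) * α p.2)) : (Fin 3 → ℝ) × ℝ) := by fun_prop
    exact Loop2_qexp_cont.comp hcc
  · intro p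
    rw [norm_mul, gn, qexp_norm p.2.2, one_mul]
  · intro x
    simp [g0, Loop2_qexp_zero]
  · intro x
    simp only [Icc.coe_one, one_mul]
    rw [hg1', ← qexp_add x.2, add_neg_cancel, Loop2_qexp_zero]
  · intro s x
    simp only
    have e := gh s x
    rw [h0] at e
    rw [← e, star_mul]
    have e2 : qexp x.1 (-((s : ℝ) * α x)) * imQ x.1 * star (qexp x.1 (-((s : ℝ) * α x))) =
        imQ x.1 := by
      rw [qexp_commute, mul_assoc, Loop2_mul_star (qexp_norm x.2 _), mul_one]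
    calc _ = g (s, x) * (qexp x.1 (-((s : ℝ) * α x)) * imQ x.1 *
          star (qexp x.1 (-((s : ℝ) * α x)))) * star (g (s, x)) := by simp only [mul_assoc]
      _ = _ := by rw [e2]

theorem Loop2_adQ_us {q : Quaternion ℝ} (hq : ‖q‖ = 1) {v : Fin 3 → ℝ} (hv : v ∈ US (Fin 3)) :
    adQ q *ᵥ v ∈ US (Fin 3) := by
  rw [← imQ_norm, adQ_mulVec, norm_mul, norm_mul, norm_star, hq, imQ_norm.2 hv]
  norm_num

theorem loop2 (h : I × Sp 2 → (Fin 3 → ℝ)) (hc : Continuous h) (hU : ∀ p, h p ∈ US (Fin 3))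
    (h0 : ∀ x, h (0, x) = x.1) (h1 : ∀ x, h (1, x) = x.1) :
    ∃ r : I → Matrix (Fin 3) (Fin 3) ℝ, Continuous r ∧ (∀ t, r t ∈ SOs (Fin 3)) ∧ r 0 = 1 ∧
      r 1 = 1 ∧ HRel (US (Fin 3)) {q : I × Sp 2 | q.1 = 0 ∨ q.1 = 1} h
        (fun q => r q.1 *ᵥ q.2.1) := by
  obtain ⟨g, gc, gn, g0, g1, gh⟩ := Loop2_lift h hc hU h0 h1
  -- descend to the three sphere
  obtain ⟨D, Dc, hD⟩ := descend (k := 2) (fun q : Unit × (I × Sp 2) => ofQ (g q.2))
    (ofQ_continuous.comp (gc.comp continuous_snd)) (fun q y y' => by simp only [g0])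
    (fun q y y' => by simp only [g1])
  have hDU : ∀ x : Sp 3, D ((), x) ∈ US (Fin 4) := by
    intro x
    obtain ⟨p, hp⟩ := susp_surj x
    rw [← hp, hD]
    exact ofQ_mem.2 (gn p)
  obtain ⟨k, K, Kc, KU, K0, K1⟩ := sph3 (fun x => D ((), x)) (Dc.comp (by fun_prop)) hDU
  -- the poles
  let pt : Sp 2 := ⟨north 2, cone_north_mem 2⟩
  let Nn : I → Quaternion ℝ := fun u => toQ (K (u, susp (0, pt)))
  let Mm : I → Quaternion ℝ := fun u => toQ (K (u, susp (1, pt)))
  have Nc : Continuous Nn := toQ_continuous.comp (Kc.comp (by fun_prop))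
  have Mc : Continuous Mm := toQ_continuous.comp (Kc.comp (by fun_prop))
  have Nn1 : ∀ u, ‖Nn u‖ = 1 := fun u => toQ_norm.2 (KU u _)
  have Mm1 : ∀ u, ‖Mm u‖ = 1 := fun u => toQ_norm.2 (KU u _)
  have hN0 : Nn 0 = 1 := by
    show toQ (K (0, susp (0, pt))) = 1
    rw [K0]
    show toQ (D ((), susp (0, pt))) = 1
    rw [hD, toQ_ofQ, g0]
  have hM0 : Mm 0 = 1 := by
    show toQ (K (0, susp (1, pt))) = 1
    rw [K0]
    show toQ (D ((), susp (1, pt))) = 1
    rw [hD, toQ_ofQ, g1]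
  have hN1 : Nn 1 = 1 := by
    show toQ (K (1, susp (0, pt))) = 1
    rw [K1, toQ_ofQ, Loop2_toQ_susp]
    simp [Loop2_qexp_zero]
  have hM1 : Mm 1 = (-1) ^ k := by
    show toQ (K (1, susp (1, pt))) = (-1) ^ k
    rw [K1, toQ_ofQ, Loop2_toQ_susp]
    congr 1
    simp [qexp]
  let ε : I → Quaternion ℝ := fun u => star (Nn u) * Mm u
  have εc : Continuous ε := Nc.star.mul Mc
  have εn : ∀ u, ‖ε u‖ = 1 := by
    intro u
    show ‖star (Nn u) * Mm u‖ = 1
    rw [norm_mul, norm_star, Nn1, Mm1, one_mul]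
  have hε0 : ε 0 = 1 := by
    show star (Nn 0) * Mm 0 = 1
    rw [hN0, hM0]
    simp
  have hε1 : ε 1 = (-1) ^ k := by
    show star (Nn 1) * Mm 1 = (-1) ^ k
    rw [hN1, hM1]
    simp
  let G : I × (I × Sp 2) → Quaternion ℝ := fun p =>
    star (ε (p.1 * p.2.1)) * star (Nn p.1) * toQ (K (p.1, susp p.2))
  have Gc : Continuous G := by
    refine Continuous.mul (Continuous.mul ?_ ?_) ?_
    · exact (εc.comp (by fun_prop)).star
    · exact (Nc.comp (by fun_prop)).star
    · exact toQ_continuous.comp (Kc.comp (continuous_fst.prodMk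
        (susp_continuous.comp continuous_snd)))
  have Gn : ∀ p, ‖G p‖ = 1 := by
    intro p
    show ‖star (ε (p.1 * p.2.1)) * star (Nn p.1) * toQ (K (p.1, susp p.2))‖ = 1
    rw [norm_mul, norm_mul, norm_star, norm_star, εn, Nn1, toQ_norm.2 (KU p.1 _)]
    norm_num
  refine ⟨fun s => adQ (star (ε s)), adQ_continuous.comp εc.star, ?_, ?_, ?_, ?_⟩
  · intro t
    exact adQ_mem (by rw [norm_star, εn])
  · simp only [hε0, star_one, adQ_one]
  · simp only [hε1]
    rcases Int.even_or_odd k with hk | hk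
    · rw [hk.neg_one_zpow, star_one, adQ_one]
    · rw [hk.neg_one_zpow, star_neg, star_one, quat_adQ_neg_one]
  · refine ⟨fun p => adQ (G p) *ᵥ p.2.2.1, ?_, ?_, ?_, ?_⟩
    · exact (adQ_continuous.comp Gc).matrix_mulVec (by fun_prop)
    · intro u
      refine ⟨fun q => Loop2_adQ_us (Gn _) q.2.2, ?_⟩
      rintro ⟨s, x⟩ hs
      simp only [mem_ofPred_eq] at hs
      have hG : G (u, (s, x)) = 1 := by
        show star (ε (u * s)) * star (Nn u) * toQ (K (u, susp (s, x))) = 1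
        rcases hs with hs | hs
        · rw [hs, mul_zero, hε0, Loop2_susp0 x pt, star_one, one_mul]
          exact Loop2_star_mul (Nn1 u)
        · rw [hs, mul_one, Loop2_susp1 x pt, mul_assoc]
          exact Loop2_star_mul (εn u)
      simp only [hG, adQ_one, one_mulVec]
      rcases hs with hs | hs
      · rw [hs, h0]
      · rw [hs, h1]
    · rintro ⟨s, x⟩
      apply quat_imQ_inj
      rw [← gh s x]
      simp only
      rw [adQ_mulVec]
      have hG : G (0, (s, x)) = g (s, x) := by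
        show star (ε (0 * s)) * star (Nn 0) * toQ (K (0, susp (s, x))) = g (s, x)
        rw [zero_mul, hε0, hN0, K0]
        show star 1 * star 1 * toQ (D ((), susp (s, x))) = g (s, x)
        rw [hD, toQ_ofQ]
        simp
      rw [hG]
    · rintro ⟨s, x⟩
      simp only
      have hG : G (1, (s, x)) = star (ε s) * (qexp x.1 (Real.pi * (s : ℝ))) ^ k := by
        show star (ε (1 * s)) * star (Nn 1) * toQ (K (1, susp (s, x))) = _
        rw [one_mul, hN1, K1, toQ_ofQ, Loop2_toQ_susp]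
        simp
      have hn : ‖(qexp x.1 (Real.pi * (s : ℝ))) ^ k‖ = 1 := by
        rw [norm_zpow, qexp_norm x.2, _root_.one_zpow]
      have hcm : (qexp x.1 (Real.pi * (s : ℝ))) ^ k * imQ x.1 =
          imQ x.1 * (qexp x.1 (Real.pi * (s : ℝ))) ^ k := by
        have : Commute (qexp x.1 (Real.pi * (s : ℝ))) (imQ x.1) := qexp_commute _
        exact this.zpow_left₀ k
      rw [hG, adQ_mul, ← mulVec_mulVec, adQ_commute hn hcm]

end DT
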