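import Pool.Agent.H78.DT.Loop2

/-!
# Loops at the identity in the space of maps of the n-sphere are rotation loops (job DT-LOOPN)

PROOF by induction on `n ≥ 2`; `n = 2` is `loop2`.  Step from `m = n` to `n + 1`, `m ≥ 2`:
`freud_I m` applied to `h` gives `h' : I × Sp m → Sᵐ`, `h' (0,y) = y = h' (1,y)` and
`h ~ suspF h'` relative to `q.1 ∈ {0,1}`.  By induction `h' ~ (t,y) ↦ r' t y` relative to
`{0,1}`; by `susp_hrel` (with `P = I`, `S = {0,1}`; `{q | q.1 ∈ {0,1}} = {q | q.1 = 0 ∨ q.1 = 1}`)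
`suspF h' ~ suspF (r' y)`, and `suspF (r' y) (t, x) = r t *ᵥ x` with `r t` the block matrix
`1 ⊕ r' t` (in terms of `Fin.cons`: `(r t *ᵥ x) 0 = x 0`, `(r t *ᵥ x) (i+1) = (r' t *ᵥ tail x) i`;
define `r t = Matrix.of (Fin.cons (Fin.cons 1 0) (fun i => Fin.cons 0 (r' t i)))`), since the
cone of a linear map is the linear map.  `r t ∈ SOs` (reindex `fromBlocks 1 0 0 (r' t)`, or
`Matrix.det_succ_row_zero`).
-/

open Matrix Set unitInterval Topology

noncomputable section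

namespace DT

/-- The block matrix `1 ⊕ M`. -/
def LoopN_ext {m : ℕ} (M : Matrix (Fin m) (Fin m) ℝ) : Matrix (Fin (m + 1)) (Fin (m + 1)) ℝ :=
  Matrix.of (Fin.cons (Fin.cons 1 0) fun i => Fin.cons 0 (M i))

theorem LoopN_ext_00 {m : ℕ} (M : Matrix (Fin m) (Fin m) ℝ) : LoopN_ext M 0 0 = 1 := rfl

theorem LoopN_ext_0s {m : ℕ} (M : Matrix (Fin m) (Fin m) ℝ) (j : Fin m) :
    LoopN_ext M 0 j.succ = 0 := rfl

theorem LoopN_ext_s0 {m : ℕ} (M : Matrix (Fin m) (Fin m) ℝ) (i : Fin m) :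
    LoopN_ext M i.succ 0 = 0 := rfl

theorem LoopN_ext_ss {m : ℕ} (M : Matrix (Fin m) (Fin m) ℝ) (i j : Fin m) :
    LoopN_ext M i.succ j.succ = M i j := rfl

theorem LoopN_ext_one {m : ℕ} : LoopN_ext (1 : Matrix (Fin m) (Fin m) ℝ) = 1 := by
  ext i j
  refine Fin.cases ?_ (fun i => ?_) i <;> refine Fin.cases ?_ (fun j => ?_) j
  · simp [LoopN_ext_00]
  · rw [LoopN_ext_0s, Matrix.one_apply_ne (Fin.succ_ne_zero j).symm]
  · rw [LoopN_ext_s0, Matrix.one_apply_ne (Fin.succ_ne_zero i)]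
  · rw [LoopN_ext_ss]
    by_cases h : i = j
    · subst h; simp
    · rw [Matrix.one_apply_ne h, Matrix.one_apply_ne (fun h' => h (Fin.succ_injective _ h'))]

theorem LoopN_ext_mem {m : ℕ} {M : Matrix (Fin m) (Fin m) ℝ} (hM : M ∈ SOs (Fin m)) :
    LoopN_ext M ∈ SOs (Fin (m + 1)) := by
  obtain ⟨h1, h2⟩ := hM
  constructor
  · ext i j
    rw [Matrix.mul_apply, Fin.sum_univ_succ]
    simp only [Matrix.transpose_apply]
    refine Fin.cases ?_ (fun i => ?_) i <;> refine Fin.cases ?_ (fun j => ?_) j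
    · simp [LoopN_ext_00, LoopN_ext_s0]
    · simp only [LoopN_ext_0s, LoopN_ext_s0, LoopN_ext_ss, mul_zero, zero_mul,
        Finset.sum_const_zero, add_zero]
      rw [Matrix.one_apply_ne (Fin.succ_ne_zero j).symm]
    · simp only [LoopN_ext_0s, LoopN_ext_s0, LoopN_ext_ss, mul_zero, zero_mul,
        Finset.sum_const_zero, add_zero]
      rw [Matrix.one_apply_ne (Fin.succ_ne_zero i)]
    · simp only [LoopN_ext_0s, LoopN_ext_ss, mul_zero, zero_add]
      have h3 := congrFun (congrFun h1 i) j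
      rw [Matrix.mul_apply] at h3
      simp only [Matrix.transpose_apply] at h3
      rw [h3]
      by_cases h : i = j
      · subst h; simp
      · rw [Matrix.one_apply_ne h, Matrix.one_apply_ne (fun h' => h (Fin.succ_injective _ h'))]
  · rw [Matrix.det_succ_row_zero, Fin.sum_univ_succ]
    have h3 : (LoopN_ext M).submatrix Fin.succ (Fin.succAbove 0) = M := by
      ext i j
      simp [LoopN_ext_ss]
    rw [h3, h2, LoopN_ext_00]
    simp [LoopN_ext_0s]

theorem LoopN_ext_sv {m : ℕ} (M : Matrix (Fin m) (Fin m) ℝ) (t : ℝ) (y : Fin m → ℝ) :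
    LoopN_ext M *ᵥ sv t y = sv t (M *ᵥ y) := by
  unfold sv
  ext i
  rw [Matrix.mulVec, dotProduct, Fin.sum_univ_succ]
  refine Fin.cases ?_ (fun i => ?_) i
  · simp [LoopN_ext_00, LoopN_ext_0s]
  · simp only [LoopN_ext_s0, LoopN_ext_ss, Fin.cons_zero, Fin.cons_succ, zero_mul, zero_add,
      Pi.smul_apply, smul_eq_mul]
    rw [Matrix.mulVec, dotProduct, Finset.mul_sum]
    exact Finset.sum_congr rfl fun j _ => by ring

theorem LoopN_continuous {m : ℕ} {r : I → Matrix (Fin m) (Fin m) ℝ} (hr : Continuous r) :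
    Continuous fun t => LoopN_ext (r t) := by
  refine continuous_matrix fun i j => ?_
  refine Fin.cases ?_ (fun i => ?_) i <;> refine Fin.cases ?_ (fun j => ?_) j
  · simp only [LoopN_ext_00]; fun_prop
  · simp only [LoopN_ext_0s]; fun_prop
  · simp only [LoopN_ext_s0]; fun_prop
  · simp only [LoopN_ext_ss]
    exact hr.matrix_elem i j

theorem loopN (n : ℕ) (hn : 2 ≤ n) (h : I × Sp n → (Fin (n + 1) → ℝ)) (hc : Continuous h)
    (hU : ∀ p, h p ∈ US (Fin (n + 1))) (h0 : ∀ x, h (0, x) = x.1) (h1 : ∀ x, h (1, x) = x.1) :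
    ∃ r : I → Matrix (Fin (n + 1)) (Fin (n + 1)) ℝ, Continuous r ∧
      (∀ t, r t ∈ SOs (Fin (n + 1))) ∧ r 0 = 1 ∧ r 1 = 1 ∧
      HRel (US (Fin (n + 1))) {q : I × Sp n | q.1 = 0 ∨ q.1 = 1} h
        (fun q => r q.1 *ᵥ q.2.1) := by
  induction n, hn using Nat.le_induction with
  | base => exact loop2 h hc hU h0 h1
  | succ m hm ih =>
    obtain ⟨h', hc', hU', h0', h1', hh⟩ := freud_I m hm h hc hU h0 h1
    obtain ⟨r, hr, hrS, hr0, hr1, hrel⟩ := ih h' hc' hU' h0' h1'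
    refine ⟨fun t => LoopN_ext (r t), LoopN_continuous hr, fun t => LoopN_ext_mem (hrS t), ?_, ?_,
      hh.trans ?_⟩
    · show LoopN_ext (r 0) = 1
      rw [hr0, LoopN_ext_one]
    · show LoopN_ext (r 1) = 1
      rw [hr1, LoopN_ext_one]
    · have h2 := susp_hrel m {t : I | t = 0 ∨ t = 1} h' (fun q => r q.1 *ᵥ q.2.1) hrel
      have h3 : suspF (fun q : I × Sp m => r q.1 *ᵥ q.2.1) =
          fun q : I × Sp (m + 1) => LoopN_ext (r q.1) *ᵥ q.2.1 := by
        funext q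
        obtain ⟨p, x⟩ := q
        obtain ⟨q', rfl⟩ := susp_surj x
        rw [suspF_susp]
        show _ = LoopN_ext (r p) *ᵥ sv (q'.1 : ℝ) q'.2.1
        rw [LoopN_ext_sv]
      rw [h3] at h2
      exact h2

end DT
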