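import Pool.Agent.H78.DT.SDf

/-!
# The minimal rotation in `E` (job DT-MROT)

`mrot u w v = v - (⟪u + w, v⟫/(1 + ⟪u,w⟫)) (u + w) + 2 ⟪u, v⟫ w`.  For unit vectors `u, w` with
`⟪u,w⟫ ≠ -1`: `mrot u w u = u - (u + w) + 2 w = w`; it is an isometry
(`‖mrot u w v‖² = ‖v‖²`: with `k = 1 + ⟪u,w⟫`, `m = ⟪u+w,v⟫`, `a = ⟪u,v⟫`, `b = ⟪w,v⟫`, `m = a + b`,
`‖u+w‖² = 2k`: `‖v‖² + 2 m² /k + 4a² - 2m²/k + 4 a b - 4 (m/k) a k = ‖v‖² + 4a² + 4ab - 4am = ‖v‖²`),
so `⟪mrot v, mrot v'⟫ = ⟪v, v'⟫` (polarisation, linear isometry), in particular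
`⟪w, mrot u w v⟫ = ⟪u, v⟫`.  `mrot_det`: the determinant is positive: it is `±1`, and joined to
`1`: e.g. `(1-t) + t mrot u w` is injective for `0 ≤ t ≤ 1`: if `(1-t) v + t mrot u w v = 0` with `v ≠ 0`
then (norms) `1 - t = t`, `mrot u w v = -v`; then `2 v = (m/k)(u+w) - 2 a w`, so `v` is in the span of
`u, w`; take the inner product of `mrot u w v = - v` with `w`: `a = -b`, so `m = 0` and
`2 v = -2 a w`, `v = -a w`, `b = -a`, `a = ⟪u,v⟫ = -a ⟪u,w⟫`, so `a = 0` (as `⟪u,w⟫ ≠ -1`) and `v = 0`.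
Intermediate value theorem.
-/

open Set Metric
open scoped ContDiff

noncomputable section

namespace DT

variable {E : Type} [NormedAddCommGroup E] [InnerProductSpace ℝ E]

theorem mrot_apply (u w v : E) : mrot u w v =
    v - ((1 + inner ℝ u w)⁻¹ * inner ℝ (u + w) v) • (u + w) + (2 * inner ℝ u v) • w := by
  simp [mrot, smul_smul, inner_add_left]

theorem MRot_ne {u w : E} (h : (inner ℝ u w : ℝ) ≠ -1) : (1 + inner ℝ u w : ℝ) ≠ 0 := by
  intro h0
  apply h
  linarith

theorem mrot_self {u w : E} (hu : ‖u‖ = 1) (hw : ‖w‖ = 1) (h : (inner ℝ u w : ℝ) ≠ -1) :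
    mrot u w u = w := by
  have huu : inner ℝ u u = (1 : ℝ) := by rw [real_inner_self_eq_norm_sq, hu]; norm_num
  have h1 : inner ℝ (u + w) u = (1 + inner ℝ u w : ℝ) := by
    rw [inner_add_left, huu, real_inner_comm]
  rw [mrot_apply, h1, inv_mul_cancel₀ (MRot_ne h), huu]
  module

theorem mrot_inner {u w : E} (hu : ‖u‖ = 1) (hw : ‖w‖ = 1) (h : (inner ℝ u w : ℝ) ≠ -1)
    (v v' : E) : inner ℝ (mrot u w v) (mrot u w v') = inner ℝ v v' := by
  have huu : inner ℝ u u = (1 : ℝ) := by rw [real_inner_self_eq_norm_sq, hu]; norm_num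
  have hww : inner ℝ w w = (1 : ℝ) := by rw [real_inner_self_eq_norm_sq, hw]; norm_num
  have hk := MRot_ne h
  rw [mrot_apply, mrot_apply]
  simp only [inner_add_left, inner_add_right, inner_sub_left, inner_sub_right, inner_smul_left,
    inner_smul_right, huu, hww, real_inner_comm u w, real_inner_comm v u, real_inner_comm v w,
    RCLike.conj_to_real]
  have e1 := real_inner_comm u v
  have e2 := real_inner_comm w v
  have e3 := real_inner_comm u w
  simp only [e1, e2, e3] at *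
  generalize (inner ℝ u w : ℝ) = k at *
  generalize (inner ℝ v u : ℝ) = a at *
  generalize (inner ℝ v w : ℝ) = b at *
  generalize (inner ℝ u v' : ℝ) = a' at *
  generalize (inner ℝ w v' : ℝ) = b' at *
  generalize (inner ℝ v v' : ℝ) = c at *
  field_simp
  ring

theorem MRot_refl (a v : E) :
    (Submodule.span ℝ {a})ᗮ.reflection v = v - (2 * (inner ℝ a v / ‖a‖ ^ 2) : ℝ) • a := by
  rw [Submodule.reflection_orthogonal_apply, Submodule.reflection_singleton_apply]
  simp only [RCLike.ofReal_real_eq_id, id_eq]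
  rw [neg_sub, ← Nat.cast_smul_eq_nsmul ℝ, smul_smul]
  norm_num

theorem MRot_det [FiniteDimensional ℝ E] {a : E} (ha : a ≠ 0) :
    LinearMap.det (Submodule.span ℝ {a})ᗮ.reflection.toLinearMap = -1 := by
  rw [Submodule.det_reflection, Submodule.orthogonal_orthogonal, finrank_span_singleton ha,
    pow_one]

theorem mrot_det [FiniteDimensional ℝ E] {u w : E} (hu : ‖u‖ = 1) (hw : ‖w‖ = 1)
    (h : (inner ℝ u w : ℝ) ≠ -1) : 0 < (mrot u w).det := by
  have huu : inner ℝ u u = (1 : ℝ) := by rw [real_inner_self_eq_norm_sq, hu]; norm_num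
  have hww : inner ℝ w w = (1 : ℝ) := by rw [real_inner_self_eq_norm_sq, hw]; norm_num
  have hk := MRot_ne h
  have hw0 : w ≠ 0 := by
    rintro rfl
    simp at hw
  have hn : ‖u + w‖ ^ 2 = 2 * (1 + inner ℝ u w : ℝ) := by
    rw [norm_add_sq_real, hu, hw]
    ring
  have huw0 : u + w ≠ 0 := by
    intro h0
    rw [h0, norm_zero] at hn
    apply hk
    linarith [hn]
  have key : ((mrot u w : E →L[ℝ] E) : E →ₗ[ℝ] E) =
      (Submodule.span ℝ {w})ᗮ.reflection.toLinearMap ∘ₗ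
        (Submodule.span ℝ {u + w})ᗮ.reflection.toLinearMap := by
    ext v
    show mrot u w v = (Submodule.span ℝ {w})ᗮ.reflection
      ((Submodule.span ℝ {u + w})ᗮ.reflection v)
    rw [MRot_refl, MRot_refl, mrot_apply, hn, hw]
    have h1 : inner ℝ w (v - (2 * (inner ℝ (u + w) v / (2 * (1 + inner ℝ u w))) : ℝ) • (u + w)) =
        (-(inner ℝ u v) : ℝ) := by
      rw [inner_sub_right, inner_smul_right, inner_add_right, hww, real_inner_comm u w,
        inner_add_left]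
      field_simp
      ring
    rw [h1]
    have h2 : (2 * (inner ℝ (u + w) v / (2 * (1 + inner ℝ u w))) : ℝ) =
        (1 + inner ℝ u w)⁻¹ * inner ℝ (u + w) v := by
      field_simp
    rw [h2]
    module
  show 0 < LinearMap.det ((mrot u w : E →L[ℝ] E) : E →ₗ[ℝ] E)
  rw [key, LinearMap.det_comp, MRot_det hw0, MRot_det huw0]
  norm_num

theorem inner_ne_of_ne {u w : E} (hu : ‖u‖ = 1) (hw : ‖w‖ = 1) (h : u ≠ -w) :
    (inner ℝ u w : ℝ) ≠ -1 := by
  intro h0
  apply h
  have hn : ‖u + w‖ ^ 2 = 0 := by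
    rw [norm_add_sq_real, hu, hw, h0]
    norm_num
  have : u + w = 0 := by
    rw [← norm_eq_zero]
    exact pow_eq_zero_iff (two_ne_zero) |>.1 hn
  exact eq_neg_of_add_eq_zero_left this

end DT
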