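import Pool.Agent.H78.DT.SDb

/-!
# Polar decomposition at a point; sign of the determinant (job DT-POLPT)

(1) `polar_pt`: let `D = fderiv ℝ ψ.f p`, invertible (`fderiv_gf`, `fderiv_fg`), `D p = ψ p`,
`D* (ψ p) = p` (`adj`).  Let `e_i` be an orthonormal eigenbasis of the symmetric positive
definite `D* D` (`LinearMap.IsSymmetric.eigenvectorBasis`), `D* D e_i = λ_i e_i`, `λ_i > 0`.  The vectors
`λ_i^{-1/2} D e_i` are orthonormal: they form a basis, and `A e_i = λ_i^{-1/2} D e_i` defines a linear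
isometry (`OrthonormalBasis.equiv`).  `A⁻¹ D e_i = λ_i^{1/2} e_i`, so
`⟪A⁻¹ D v, v⟫ = ∑ λ_i^{1/2} ⟪e_i, v⟫² > 0` for `v ≠ 0`.  `D* D p = D* (ψ p) = p`, so
`(λ_i - 1) ⟪e_i, p⟫ = 0` for all `i`, so `λ_i^{1/2} ⟪e_i,p⟫ = ⟪e_i,p⟫`, `A⁻¹ D p = p`, i.e. `A p = D p = ψ p`.
(2) `det_pos_of`: if `⟪D v, v⟫ > 0` for `v ≠ 0` then `det D > 0`: `(1-t) D + t` is injective for
`t ∈ [0,1]`, so its determinant does not vanish, it is `1` at `t = 1`, intermediate value theorem.
(3) `det_pos_all`: `x ↦ det (Dψ(x))` is continuous and does not vanish on the unit sphere, which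
is connected (`isPreconnected_sphere`, dimension `≥ 2`), and it is positive at `p`.
-/

open Set
open scoped ContDiff

noncomputable section

namespace DT

variable {E : Type} [NormedAddCommGroup E] [InnerProductSpace ℝ E] [FiniteDimensional ℝ E]

theorem polPt_aux (D : E →L[ℝ] E) (hinj : ∀ v, D v = 0 → v = 0) (p q : E) (hp0 : p ≠ 0)
    (hDp : D p = q)
    (hadj : ∀ w, inner ℝ q (D w) = inner ℝ p w) :
    ∃ A : E ≃ₗᵢ[ℝ] E, A p = q ∧
      ∀ v : E, v ≠ 0 → 0 < inner ℝ (A.symm (D v)) v := by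
  classical
  let T : E →ₗ[ℝ] E := (ContinuousLinearMap.adjoint D ∘L D : E →L[ℝ] E)
  have hTap : ∀ v w, inner ℝ (T v) w = inner ℝ (D v) (D w) := by
    intro v w
    change inner ℝ (ContinuousLinearMap.adjoint D (D v)) w = _
    rw [ContinuousLinearMap.adjoint_inner_left]
  have hT : T.IsSymmetric := by
    intro v w
    rw [hTap, real_inner_comm, ← hTap, real_inner_comm]
  let b := hT.eigenvectorBasis rfl
  let l := hT.eigenvalues rfl
  have hb : ∀ i, T (b i) = l i • b i := fun i => hT.apply_eigenvectorBasis rfl i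
  have hbb : ∀ i j, inner ℝ (b i) (b j) = if i = j then (1 : ℝ) else 0 :=
    fun i j => orthonormal_iff_ite.1 b.orthonormal i j
  have hl : ∀ i, 0 < l i := by
    intro i
    have h1 : inner ℝ (T (b i)) (b i) = l i := by
      rw [hb i, real_inner_smul_left, hbb, if_pos rfl, mul_one]
    rw [← h1, hTap, real_inner_self_eq_norm_sq]
    have h2 : D (b i) ≠ 0 := by
      intro h
      have := hinj _ h
      have h3 := b.orthonormal.1 i
      rw [this, norm_zero] at h3
      exact zero_ne_one h3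
    have h3 := norm_pos_iff.2 h2
    positivity
  have hs : ∀ i, 0 < Real.sqrt (l i) := fun i => Real.sqrt_pos.2 (hl i)
  let c : Fin (Module.finrank ℝ E) → E := fun i => (Real.sqrt (l i))⁻¹ • D (b i)
  have hDb : ∀ i, D (b i) = Real.sqrt (l i) • c i := by
    intro i
    change D (b i) = Real.sqrt (l i) • ((Real.sqrt (l i))⁻¹ • D (b i))
    rw [smul_smul, mul_inv_cancel₀ (hs i).ne', one_smul]
  have hDD : ∀ i j, inner ℝ (D (b i)) (D (b j)) = if i = j then l i else 0 := by
    intro i j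
    rw [← hTap, hb i, real_inner_smul_left, hbb]
    split_ifs <;> simp
  have hcon : Orthonormal ℝ c := by
    rw [orthonormal_iff_ite]
    intro i j
    change inner ℝ ((Real.sqrt (l i))⁻¹ • D (b i)) ((Real.sqrt (l j))⁻¹ • D (b j)) = _
    rw [real_inner_smul_left, real_inner_smul_right, hDD]
    split_ifs with h
    · subst h
      have h1 : Real.sqrt (l i) * Real.sqrt (l i) = l i := Real.mul_self_sqrt (hl i).le
      rw [← mul_assoc, ← mul_inv, h1]
      exact inv_mul_cancel₀ (hl i).ne'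
    · simp
  have hcard : Fintype.card (Fin (Module.finrank ℝ E)) = Module.finrank ℝ E := Fintype.card_fin _
  haveI : Nontrivial E := ⟨⟨p, 0, hp0⟩⟩
  haveI : Nonempty (Fin (Module.finrank ℝ E)) := ⟨⟨0, Module.finrank_pos⟩⟩
  let cb : Module.Basis (Fin (Module.finrank ℝ E)) ℝ E :=
    basisOfOrthonormalOfCardEqFinrank hcon hcard
  have hcb : ⇑cb = c := coe_basisOfOrthonormalOfCardEqFinrank hcon hcard
  let co : OrthonormalBasis (Fin (Module.finrank ℝ E)) ℝ E :=
    cb.toOrthonormalBasis (by rw [hcb]; exact hcon)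
  have hco : ∀ i, co i = c i := by
    intro i
    change cb.toOrthonormalBasis _ i = c i
    rw [Module.Basis.coe_toOrthonormalBasis, hcb]
  let A : E ≃ₗᵢ[ℝ] E := b.equiv co (Equiv.refl _)
  have hA : ∀ i, A (b i) = c i := by
    intro i
    rw [← hco]
    simp [A]
  have hAs : ∀ i, A.symm (D (b i)) = Real.sqrt (l i) • b i := by
    intro i
    rw [hDb i, map_smul, ← hA i, A.symm_apply_apply]
  have hexp : ∀ v : E, A.symm (D v) = ∑ i, (inner ℝ (b i) v * Real.sqrt (l i)) • b i := by
    intro v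
    conv_lhs => rw [← b.sum_repr' v]
    rw [map_sum, map_sum]
    refine Finset.sum_congr rfl fun i _ => ?_
    rw [map_smul, map_smul, hAs, smul_smul]
  refine ⟨A, ?_, ?_⟩
  · have h1 : A.symm (D p) = p := by
      rw [hexp]
      conv_rhs => rw [← b.sum_repr' p]
      refine Finset.sum_congr rfl fun i _ => ?_
      congr 1
      have h2 : inner ℝ (b i) p = l i * inner ℝ (b i) p := by
        have h3 : inner ℝ (T (b i)) p = inner ℝ (b i) p := by
          rw [hTap, hDp, real_inner_comm, hadj, real_inner_comm]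
        rw [hb i, real_inner_smul_left] at h3
        exact h3.symm
      by_cases h0 : inner ℝ (b i) p = 0
      · rw [h0, zero_mul]
      · have h4 : l i = 1 := by
          have h5 : (l i - 1) * inner ℝ (b i) p = 0 := by linarith
          rcases mul_eq_zero.1 h5 with h6 | h6
          · linarith
          · exact absurd h6 h0
        rw [h4, Real.sqrt_one, mul_one]
    calc A p = A (A.symm (D p)) := by rw [h1]
      _ = D p := A.apply_symm_apply _
      _ = q := hDp
  · intro v hv
    rw [hexp, sum_inner]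
    have h1 : ∀ i, inner ℝ ((inner ℝ (b i) v * Real.sqrt (l i)) • b i) v =
        Real.sqrt (l i) * (inner ℝ (b i) v) ^ 2 := by
      intro i
      rw [real_inner_smul_left]
      ring
    rw [Finset.sum_congr rfl fun i _ => h1 i]
    have h2 : ∃ i, inner ℝ (b i) v ≠ 0 := by
      by_contra hcon2
      push Not at hcon2
      apply hv
      rw [← b.sum_repr' v]
      refine Finset.sum_eq_zero fun i _ => ?_
      rw [hcon2 i, zero_smul]
    obtain ⟨i, hi⟩ := h2
    refine Finset.sum_pos' (fun j _ => ?_) ⟨i, Finset.mem_univ i, ?_⟩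
    · have := hs j
      positivity
    · have := hs i
      positivity

theorem polar_pt (ψ : SDiff E) (p : E) (hp : ‖p‖ = 1) :
    ∃ A : E ≃ₗᵢ[ℝ] E, A p = ψ.f p ∧
      ∀ v : E, v ≠ 0 → 0 < inner ℝ (A.symm (fderiv ℝ ψ.f p v)) v := by
  have hp0 : p ≠ 0 := by
    intro h
    rw [h, norm_zero] at hp
    exact zero_ne_one hp
  refine polPt_aux (fderiv ℝ ψ.f p) ?_ p (ψ.f p) hp0 (ψ.euler hp0) (ψ.adj hp0)
  intro v hv
  rw [← ψ.fderiv_gf hp0 v, hv, map_zero]

theorem polPt_det_ne (D : E →L[ℝ] E) (h : ∀ v, D v = 0 → v = 0) : D.det ≠ 0 := by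
  change LinearMap.det (D : E →ₗ[ℝ] E) ≠ 0
  intro h0
  have h1 : LinearMap.ker (D : E →ₗ[ℝ] E) = ⊥ := by
    rw [LinearMap.ker_eq_bot']
    intro v hv
    exact h v hv
  have h2 := (LinearMap.bot_lt_ker_of_det_eq_zero h0)
  rw [h1] at h2
  exact lt_irrefl _ h2

theorem det_pos_of (D : E →L[ℝ] E) (h : ∀ v : E, v ≠ 0 → 0 < inner ℝ (D v) v) :
    0 < D.det := by
  let F : ℝ → (E →L[ℝ] E) := fun t => (1 - t) • D + t • ContinuousLinearMap.id ℝ E
  have hF : ∀ t ∈ Icc (0 : ℝ) 1, (F t).det ≠ 0 := by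
    intro t ht
    apply polPt_det_ne
    intro v hv
    by_contra hv0
    have h1 : inner ℝ (F t v) v = (1 - t) * inner ℝ (D v) v + t * ‖v‖ ^ 2 := by
      change inner ℝ ((1 - t) • D v + t • v) v = _
      rw [inner_add_left, real_inner_smul_left, real_inner_smul_left, real_inner_self_eq_norm_sq]
    rw [hv, inner_zero_left] at h1
    have h2 := h v hv0
    have h3 : 0 < ‖v‖ ^ 2 := by
      have := norm_pos_iff.2 hv0
      positivity
    rcases eq_or_lt_of_le ht.1 with h4 | h4
    · rw [← h4] at h1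
      simp at h1
      linarith
    · have h5 : 0 ≤ (1 - t) * inner ℝ (D v) v := mul_nonneg (by linarith [ht.2]) h2.le
      have h6 : 0 < t * ‖v‖ ^ 2 := mul_pos h4 h3
      linarith
  have hcont : Continuous fun t => (F t).det := by
    apply ContinuousLinearMap.continuous_det.comp
    fun_prop
  have h1 : (F 1).det = 1 := by
    have : F 1 = ContinuousLinearMap.id ℝ E := by
      simp [F]
    rw [this]
    change LinearMap.det (ContinuousLinearMap.id ℝ E : E →ₗ[ℝ] E) = 1
    simp
  have h0 : (F 0).det = D.det := by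
    have : F 0 = D := by
      simp [F]
    rw [this]
  rw [← h0]
  by_contra hcon
  push Not at hcon
  have h2 := intermediate_value_Icc (zero_le_one' ℝ) hcont.continuousOn
  have h3 : (0 : ℝ) ∈ Icc ((F 0).det) ((F 1).det) := ⟨hcon, by rw [h1]; exact zero_le_one⟩
  obtain ⟨t, ht, ht0⟩ := h2 h3
  exact hF t ht ht0

theorem det_pos_all (ψ : SDiff E) (h2 : 2 ≤ Module.finrank ℝ E) (p : E) (hp : ‖p‖ = 1)
    (h : 0 < (fderiv ℝ ψ.f p).det) (x : E) (hx : ‖x‖ = 1) : 0 < (fderiv ℝ ψ.f x).det := by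
  have hsph : IsPreconnected (Metric.sphere (0 : E) 1) := by
    apply isPreconnected_sphere
    rw [← Module.finrank_eq_rank]
    exact_mod_cast (by omega : 1 < Module.finrank ℝ E)
  have hne : ∀ z ∈ Metric.sphere (0 : E) 1, z ≠ 0 := by
    intro z hz h0
    rw [h0] at hz
    simp at hz
  have hcont : ContinuousOn (fun z => (fderiv ℝ ψ.f z).det) (Metric.sphere (0 : E) 1) := by
    apply ContinuousLinearMap.continuous_det.comp_continuousOn
    exact ψ.fderiv_smooth.continuousOn.mono fun z hz => hne z hz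
  have hdet : ∀ z ∈ Metric.sphere (0 : E) 1, (fderiv ℝ ψ.f z).det ≠ 0 := by
    intro z hz
    apply polPt_det_ne
    intro v hv
    rw [← ψ.fderiv_gf (hne z hz) v, hv, map_zero]
  have hp' : p ∈ Metric.sphere (0 : E) 1 := by simp [hp]
  have hx' : x ∈ Metric.sphere (0 : E) 1 := by simp [hx]
  by_contra hcon
  push Not at hcon
  have h3 := hsph.intermediate_value hx' hp' hcont
  obtain ⟨z, hz, hz0⟩ := h3 ⟨hcon, h.le⟩
  exact hdet z hz hz0

end DT
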