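import Pool.Agent.H78.DT.VDer

/-!
# `ψ_*` is isotopic to `β_{C²}` (job DT-PUSHC2, assembly)

PROOF. `Θ = aci ψ ∘ sig ∘ th1 ψ` is a diffeomorphism of `TS E` (`ac_dff.symm`, `sig_dff`, and
`th1 ψ` by `push_th1`, `DIso.right`).  By `sigac_th1`, `vder` and `lemZ`, `Θ ~ ((x,v) ↦ (x, C² v))`.
`th1 ψ = (sig ∘ ac ψ) ∘ Θ` on `TS`, `sig ∘ ac ψ ~ id` (`sig_ac`), so by `DIso.mul` (with `DIso.refl`
of `Θ`), `th1 ψ ~ Θ`.  So `pushf ψ ~ th1 ψ ~ Θ ~ β_{C²}`.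
-/

open Set Metric
open scoped ContDiff

noncomputable section

namespace DT

variable {E : Type} [NormedAddCommGroup E] [InnerProductSpace ℝ E] [FiniteDimensional ℝ E]

theorem push_c2 (ψ : SDiff E) (hne : ∀ x : E, ‖x‖ = 1 → ψ.f x ≠ -x) :
    DIso (pushf ψ) (fun p => (p.1, Cm ψ p.1 (Cm ψ p.1 p.2))) := by
  have hp := push_th1 ψ hne
  obtain ⟨t1', ht1⟩ := hp.right
  have hac := ac_dff ψ hne
  have hΘ := hac.symm.comp (sig_dff.comp ht1)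
  have h1 : DIso (fun p => aci ψ (sig (th1 ψ p))) (fun p => (p.1, Cm ψ p.1 (Cm ψ p.1 p.2))) :=
    lemZ hΘ (sigac_th1 ψ hne) (fun x v => Cm ψ x (Cm ψ x v)) (vder ψ hne)
  have h2 := (sig_ac ψ hne).mul (DIso.refl hΘ)
  have h3 : DIso (th1 ψ) (fun p => aci ψ (sig (th1 ψ p))) := by
    refine h2.congr (fun p hp => ?_) (fun p _ => rfl)
    show th1 ψ p = sig (ac ψ (aci ψ (sig (th1 ψ p))))
    have m1 : th1 ψ p ∈ TS E := (ht1.2.2 p hp).1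
    have m2 : sig (th1 ψ p) ∈ TS E := (sig_dff.2.2 _ m1).1
    rw [(hac.2.2 _ m2).2.2.2, (sig_dff.2.2 _ m1).2.2.2]
  exact hp.trans (h3.trans h1)

end DT
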