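import Pool.Agent.H78.DT.MatE
import Pool.Agent.H78.DT.PushC2
import Pool.Agent.H78.DT.DilIso
import Pool.Agent.H78.DT.Avoid
import Pool.Agent.H78.DT.PolPt

/-!
# `ψ_*` is isotopic to a linear isometry (job DT-MAINISO, assembly)

PROOF. Let `p` be a unit vector (e.g. `EuclideanSpace.single 0 1`).  By `polar_pt` there is a
linear isometry `A` with `A p = ψ p` and `⟪A⁻¹ Dψ(p) v, v⟫ > 0` for `v ≠ 0`.  Let
`ψ₁ = (ofIso A.symm).comp ψ`: `ψ₁ p = p`, `fderiv ℝ ψ₁.f p = A⁻¹ ∘ Dψ(p)` (chain rule).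
`pushf ψ = isoAct A ∘ pushf ψ₁` on `TS`: `pushf ψ₁ = isoAct A.symm ∘ pushf ψ` (`pushf_comp`, `pushf_iso`).
By `dil_avoid` there is `l` such that `ψ₂ = δ_l ψ₁ δ_l⁻¹` satisfies `ψ₂ x ≠ -x` for all unit `x`, and
`pushf ψ₁ ~ pushf ψ₂` (`dil_conj`).
The determinant: `det Dψ₁(p) > 0` (`det_pos_of`); `Dψ₂(p) = Dδ_l(p) Dψ₁(p) Dδ_{1/l}(p)` (chain rule,
`δ p = p`: `dilf_fix`), and `Dδ_l(p) Dδ_{1/l}(p) = id` (`fderiv_fg`), so `det Dψ₂(p) = det Dψ₁(p) > 0`; by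
`det_pos_all` (`finrank = n + 1 ≥ 2`) `det Dψ₂(x) > 0` for all unit `x`.
So `C = Cm ψ₂` satisfies `VE` (`Cm_self`, `Cm_inner`, `Cm_det`) and is smooth (`Cm_smooth`).  By `push_c2`
`pushf ψ₂ ~ ((x,v) ↦ (x, C x (C x v)))`, which is isotopic to the identity by `vd_to_ve` and
`beta_smooth` (with `b x = (C x).comp (C x)`).  So `pushf ψ₁ ~ id` and
`pushf ψ = isoAct A ∘ pushf ψ₁ ~ isoAct A` (`DIso.mul`, `DIso.refl (isoAct_dff A)`).
-/

open Set Metric unitInterval Matrix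
open scoped ContDiff

noncomputable section

namespace DT

theorem MainIso_isoAct {E : Type} [NormedAddCommGroup E] [InnerProductSpace ℝ E] (A : E ≃ₗᵢ[ℝ] E)
    (q : E × E) : isoAct A (isoAct A.symm q) = q := by
  unfold isoAct
  rw [A.apply_symm_apply, A.apply_symm_apply]

theorem MainIso_det {E : Type} [NormedAddCommGroup E] [InnerProductSpace ℝ E]
    [FiniteDimensional ℝ E] (ψ : SDiff E) (p : E) (hp : ‖p‖ = 1) (hfix : ψ.f p = p) (l : ℝ)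
    (hl : 0 < l) (hdet : 0 < (fderiv ℝ ψ.f p).det) :
    0 < (fderiv ℝ ((dilS p hp l hl).comp (ψ.comp (dilS p hp l hl).symm)).f p).det := by
  have hp0 : p ≠ 0 := by
    rw [← norm_ne_zero_iff, hp]
    exact one_ne_zero
  have hδ : (dilS p hp l hl).f p = p := dilf_fix hp hl
  have hδ' : (dilS p hp l hl).symm.f p = p := dilf_fix hp (inv_pos.2 hl)
  have d1 : HasFDerivAt (dilS p hp l hl).symm.f (fderiv ℝ (dilS p hp l hl).symm.f p) p :=
    ((dilS p hp l hl).symm.diff hp0).hasFDerivAt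
  have d2 : HasFDerivAt ψ.f (fderiv ℝ ψ.f p) ((dilS p hp l hl).symm.f p) := by
    rw [hδ']
    exact (ψ.diff hp0).hasFDerivAt
  have d3 : HasFDerivAt (dilS p hp l hl).f (fderiv ℝ (dilS p hp l hl).f p)
      (ψ.f ((dilS p hp l hl).symm.f p)) := by
    rw [hδ', hfix]
    exact ((dilS p hp l hl).diff hp0).hasFDerivAt
  have d4 : HasFDerivAt ((dilS p hp l hl).comp (ψ.comp (dilS p hp l hl).symm)).f
      ((fderiv ℝ (dilS p hp l hl).f p).comp ((fderiv ℝ ψ.f p).comp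
        (fderiv ℝ (dilS p hp l hl).symm.f p))) p := by
    have d5 := d2.comp p d1
    exact HasFDerivAt.comp (g := (dilS p hp l hl).f)
      (f := ψ.f ∘ (dilS p hp l hl).symm.f) p d3 d5
  rw [d4.fderiv]
  have h1 : (fderiv ℝ (dilS p hp l hl).symm.f p).comp (fderiv ℝ (dilS p hp l hl).f p) =
      ContinuousLinearMap.id ℝ E := by
    ext1 v
    have h2 := (dilS p hp l hl).fderiv_gf hp0 v
    rw [hδ] at h2
    exact h2
  have h3 : (fderiv ℝ (dilS p hp l hl).symm.f p).det * (fderiv ℝ (dilS p hp l hl).f p).det =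
      1 := by
    have h4 := congrArg ContinuousLinearMap.det h1
    have h5 : ((fderiv ℝ (dilS p hp l hl).symm.f p).comp
        (fderiv ℝ (dilS p hp l hl).f p)).det =
        (fderiv ℝ (dilS p hp l hl).symm.f p).det * (fderiv ℝ (dilS p hp l hl).f p).det :=
      LinearMap.det_comp _ _
    have h6 : (ContinuousLinearMap.id ℝ E).det = 1 := LinearMap.det_id
    rw [h5, h6] at h4
    exact h4
  have h7 : ((fderiv ℝ (dilS p hp l hl).f p).comp ((fderiv ℝ ψ.f p).comp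
        (fderiv ℝ (dilS p hp l hl).symm.f p))).det =
      (fderiv ℝ (dilS p hp l hl).f p).det * ((fderiv ℝ ψ.f p).det *
        (fderiv ℝ (dilS p hp l hl).symm.f p).det) := by
    have e1 : ((fderiv ℝ (dilS p hp l hl).f p).comp ((fderiv ℝ ψ.f p).comp
        (fderiv ℝ (dilS p hp l hl).symm.f p))).det = (fderiv ℝ (dilS p hp l hl).f p).det *
        ((fderiv ℝ ψ.f p).comp (fderiv ℝ (dilS p hp l hl).symm.f p)).det :=
      LinearMap.det_comp _ _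
    have e2 : ((fderiv ℝ ψ.f p).comp (fderiv ℝ (dilS p hp l hl).symm.f p)).det =
        (fderiv ℝ ψ.f p).det * (fderiv ℝ (dilS p hp l hl).symm.f p).det :=
      LinearMap.det_comp _ _
    rw [e1, e2]
  have h8 : (fderiv ℝ (dilS p hp l hl).f p).det * ((fderiv ℝ ψ.f p).det *
        (fderiv ℝ (dilS p hp l hl).symm.f p).det) = (fderiv ℝ ψ.f p).det := by
    linear_combination (fderiv ℝ ψ.f p).det * h3
  rw [h7, h8]
  exact hdet

theorem main_iso (n : ℕ) (hn : 1 ≤ n)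
    (hmain : ∀ C : Sp n → Matrix (Fin (n + 1)) (Fin (n + 1)) ℝ, Continuous C → VD n C →
      HP (VD n) (fun x => C x * C x) (fun _ => 1))
    (ψ : SDiff (EuclideanSpace ℝ (Fin (n + 1)))) :
    ∃ A : EuclideanSpace ℝ (Fin (n + 1)) ≃ₗᵢ[ℝ] EuclideanSpace ℝ (Fin (n + 1)),
      DIso (pushf ψ) (isoAct A) := by
  obtain ⟨p, hp⟩ : ∃ p : EuclideanSpace ℝ (Fin (n + 1)), ‖p‖ = 1 :=
    ⟨EuclideanSpace.single 0 1, by simp⟩
  have hp0 : p ≠ 0 := by
    rw [← norm_ne_zero_iff, hp]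
    exact one_ne_zero
  obtain ⟨A, hA, hpos⟩ := polar_pt ψ p hp
  refine ⟨A, ?_⟩
  obtain ⟨ψ₁, hψ₁⟩ : ∃ ψ₁, ψ₁ = (SDiff.ofIso A.symm).comp ψ := ⟨_, rfl⟩
  have hf1 : ∀ z, ψ₁.f z = A.symm (ψ.f z) := fun z => by rw [hψ₁]; rfl
  have hfix : ψ₁.f p = p := by rw [hf1, ← hA, A.symm_apply_apply]
  have hd1 : ∀ v, fderiv ℝ ψ₁.f p v = A.symm (fderiv ℝ ψ.f p v) := by
    have h1 : HasFDerivAt (fun z => A.symm z)
        (A.symm.toContinuousLinearEquiv : EuclideanSpace ℝ (Fin (n + 1)) →L[ℝ]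
          EuclideanSpace ℝ (Fin (n + 1))) (ψ.f p) :=
      A.symm.toContinuousLinearEquiv.hasFDerivAt
    have h2 := h1.comp p (ψ.diff hp0).hasFDerivAt
    have h3 : ψ₁.f = (fun z => A.symm z) ∘ ψ.f := funext hf1
    intro v
    rw [h3, h2.fderiv]
    rfl
  have hpos1 : ∀ v, v ≠ 0 → 0 < inner ℝ (fderiv ℝ ψ₁.f p v) v := by
    intro v hv
    rw [hd1]
    exact hpos v hv
  obtain ⟨l, hl, hne⟩ := dil_avoid ψ₁ p hp hfix hpos1
  have h12 := dil_conj ψ₁ p hp l hl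
  have hdet := MainIso_det ψ₁ p hp hfix l hl (det_pos_of _ hpos1)
  generalize (dilS p hp l hl).comp (ψ₁.comp (dilS p hp l hl).symm) = ψ₂ at hne h12 hdet
  have hdet2 : ∀ x, ‖x‖ = 1 → 0 < (fderiv ℝ ψ₂.f x).det := by
    refine det_pos_all ψ₂ ?_ p hp hdet
    rw [finrank_euclideanSpace, Fintype.card_fin]
    omega
  have hsm := Cm_smooth ψ₂ hne
  have hve : VE (fun x : sphere (0 : EuclideanSpace ℝ (Fin (n + 1))) 1 => Cm ψ₂ x) := by
    intro x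
    have hx : ‖(x : EuclideanSpace ℝ (Fin (n + 1)))‖ = 1 := mem_sphere_zero_iff_norm.1 x.2
    exact ⟨Cm_det ψ₂ hne hx (hdet2 _ hx), Cm_self ψ₂ hne hx, Cm_inner ψ₂ hne hx⟩
  have h3 := vd_to_ve n hmain (Cm ψ₂) hsm.continuousOn hve
  have h4 := beta_smooth (fun x => (Cm ψ₂ x).comp (Cm ψ₂ x)) (hsm.clm_comp hsm) h3
  have h5 : DIso (pushf ψ₁) (fun q => q) := h12.trans ((push_c2 ψ₂ hne).trans h4)
  have h6 := (DIso.refl (isoAct_dff A)).mul h5
  refine h6.congr (fun q hq => ?_) (fun _ _ => rfl)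
  rw [hψ₁, pushf_comp _ _ q hq, pushf_iso, MainIso_isoAct]

/-- The conjugates of a compactly supported diffeomorphism commuting with the isometries. -/
theorem main_tau (n : ℕ) (hn : 1 ≤ n)
    (hmain : ∀ C : Sp n → Matrix (Fin (n + 1)) (Fin (n + 1)) ℝ, Continuous C → VD n C →
      HP (VD n) (fun x => C x * C x) (fun _ => 1))
    (ψ : SDiff (EuclideanSpace ℝ (Fin (n + 1))))
    (τ τ' : EuclideanSpace ℝ (Fin (n + 1)) × EuclideanSpace ℝ (Fin (n + 1)) →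
      EuclideanSpace ℝ (Fin (n + 1)) × EuclideanSpace ℝ (Fin (n + 1)))
    (hτ : Dff τ τ') (hc : ∃ R : ℝ, ∀ p ∈ TS (EuclideanSpace ℝ (Fin (n + 1))), R ≤ ‖p.2‖ → τ p = p)
    (hA : ∀ (A : EuclideanSpace ℝ (Fin (n + 1)) ≃ₗᵢ[ℝ] EuclideanSpace ℝ (Fin (n + 1))),
      ∀ p ∈ TS (EuclideanSpace ℝ (Fin (n + 1))), τ (isoAct A p) = isoAct A (τ p)) :
    CSIso (fun p => pushf ψ (τ (pushf ψ.symm p))) τ := by
  obtain ⟨A, h⟩ := main_iso n hn hmain ψ
  obtain ⟨F, G, ⟨h1, h2, h3, h4, h5⟩, hR⟩ :=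
    cs_of_diso h (pushf_dff ψ) (isoAct_dff A) hτ hc
  refine ⟨F, G, ⟨h1, h2, h3, h4, fun p hp => ?_⟩, hR⟩
  rw [h5 p hp]
  have h6 : isoAct A.symm p ∈ TS (EuclideanSpace ℝ (Fin (n + 1))) :=
    ((isoAct_dff A).2.2 p hp).2.1
  show isoAct A (τ (isoAct A.symm p)) = τ p
  rw [← hA A _ h6, MainIso_isoAct]

end DT
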