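import Pool.Agent.H78.DT.HMain
import Pool.Agent.H78.DT.Beta

/-!
# From matrices to linear maps (job DT-MATE)

`E = EuclideanSpace ℝ (Fin (n+1))`.  `Sp n` and `sphere (0 : E) 1` are homeomorphic by
`WithLp.toLp 2` / `WithLp.ofLp` (`‖toLp 2 v‖² = v ⬝ᵥ v`, `EuclideanSpace.norm_eq` or
`EuclideanSpace.inner_eq_star_dotProduct`).  To `L : E →L[ℝ] E` associate its matrix
`M = LinearMap.toMatrix' (..)` in the standard basis (or `Matrix.toEuclideanCLM.symm L`):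
`(L (toLp 2 v)) = toLp 2 (M *ᵥ v)`, `det L = det M` (`LinearMap.det_toLin`...,
`ContinuousLinearMap.det`), `M (L L') = M L * M L'`, `M id = 1`, and `⟪x, L v⟫ = ⟪x, v⟫` for all `v` iff
`Mᵀ *ᵥ x = x`.  Both directions are continuous (linear maps of finite dimensional spaces).
Apply the hypothesis `hmain` to `C x = M (L (toLp 2 x))` and translate the homotopy back.
-/

open Set Metric unitInterval Matrix
open scoped ContDiff

noncomputable section

namespace DT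

theorem MatE_inner {m : ℕ} (x y : EuclideanSpace ℝ (Fin m)) :
    inner ℝ x y = WithLp.ofLp x ⬝ᵥ WithLp.ofLp y := by
  rw [EuclideanSpace.inner_eq_star_dotProduct, star_trivial, dotProduct_comm]

theorem MatE_norm {m : ℕ} (x : EuclideanSpace ℝ (Fin m)) :
    x ∈ sphere (0 : EuclideanSpace ℝ (Fin m)) 1 ↔ WithLp.ofLp x ∈ US (Fin m) := by
  have h1 : WithLp.ofLp x ∈ US (Fin m) ↔ WithLp.ofLp x ⬝ᵥ WithLp.ofLp x = 1 := Iff.rfl
  rw [mem_sphere_zero_iff_norm, h1, ← MatE_inner, real_inner_self_eq_norm_sq]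
  constructor
  · intro h
    rw [h, one_pow]
  · intro h
    have h2 : ‖x‖ ^ 2 = 1 ^ 2 := by rw [h, one_pow]
    exact (pow_left_inj₀ (norm_nonneg x) zero_le_one two_ne_zero).1 h2

theorem MatE_det {m : ℕ} (M : Matrix (Fin m) (Fin m) ℝ) :
    (Matrix.toEuclideanCLM (n := Fin m) (𝕜 := ℝ) M).det = M.det := by
  rw [ContinuousLinearMap.det, Matrix.coe_toEuclideanCLM_eq_toEuclideanLin,
    Matrix.toEuclideanLin_eq_toLin, LinearMap.det_toLin]

theorem MatE_ve {m : ℕ} (M : Matrix (Fin m) (Fin m) ℝ) (x : EuclideanSpace ℝ (Fin m)) :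
    (0 < (Matrix.toEuclideanCLM (n := Fin m) (𝕜 := ℝ) M).det ∧
      Matrix.toEuclideanCLM (n := Fin m) (𝕜 := ℝ) M x = x ∧
      ∀ v, inner ℝ x (Matrix.toEuclideanCLM (n := Fin m) (𝕜 := ℝ) M v) = inner ℝ x v) ↔
    (0 < M.det ∧ M *ᵥ WithLp.ofLp x = WithLp.ofLp x ∧ Mᵀ *ᵥ WithLp.ofLp x = WithLp.ofLp x) := by
  rw [MatE_det]
  refine and_congr Iff.rfl (and_congr ?_ ?_)
  · constructor
    · intro h
      rw [← Matrix.ofLp_toEuclideanCLM, h]
    · intro h
      apply WithLp.ofLp_injective 2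
      rw [Matrix.ofLp_toEuclideanCLM, h]
  · have key : ∀ v : EuclideanSpace ℝ (Fin m),
        inner ℝ x (Matrix.toEuclideanCLM (n := Fin m) (𝕜 := ℝ) M v) =
        (Mᵀ *ᵥ WithLp.ofLp x) ⬝ᵥ WithLp.ofLp v := by
      intro v
      rw [MatE_inner, Matrix.ofLp_toEuclideanCLM, dotProduct_mulVec, mulVec_transpose]
    constructor
    · intro h
      apply dotProduct_eq
      intro w
      have h1 := h (WithLp.toLp 2 w)
      rw [key, MatE_inner] at h1
      exact h1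
    · intro h v
      rw [key, h, MatE_inner]

theorem vd_to_ve (n : ℕ)
    (hmain : ∀ C : Sp n → Matrix (Fin (n + 1)) (Fin (n + 1)) ℝ, Continuous C → VD n C →
      HP (VD n) (fun x => C x * C x) (fun _ => 1))
    (L : EuclideanSpace ℝ (Fin (n + 1)) →
      EuclideanSpace ℝ (Fin (n + 1)) →L[ℝ] EuclideanSpace ℝ (Fin (n + 1)))
    (hL : ContinuousOn L (sphere 0 1))
    (h : VE (fun x : sphere (0 : EuclideanSpace ℝ (Fin (n + 1))) 1 => L x)) :
    HP (VE (E := EuclideanSpace ℝ (Fin (n + 1)))) (fun x => (L x).comp (L x))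
      (fun _ => ContinuousLinearMap.id ℝ (EuclideanSpace ℝ (Fin (n + 1)))) := by
  obtain ⟨T, hT⟩ : ∃ T : Matrix (Fin (n + 1)) (Fin (n + 1)) ℝ ≃⋆ₐ[ℝ]
      (EuclideanSpace ℝ (Fin (n + 1)) →L[ℝ] EuclideanSpace ℝ (Fin (n + 1))),
      T = Matrix.toEuclideanCLM (n := Fin (n + 1)) (𝕜 := ℝ) := ⟨_, rfl⟩
  have hTc : Continuous T := LinearMap.continuous_of_finiteDimensional
    (T.toAlgEquiv.toLinearEquiv : Matrix (Fin (n + 1)) (Fin (n + 1)) ℝ →ₗ[ℝ]
      (EuclideanSpace ℝ (Fin (n + 1)) →L[ℝ] EuclideanSpace ℝ (Fin (n + 1))))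
  have hTs : Continuous T.symm := LinearMap.continuous_of_finiteDimensional
    (T.symm.toAlgEquiv.toLinearEquiv :
      (EuclideanSpace ℝ (Fin (n + 1)) →L[ℝ] EuclideanSpace ℝ (Fin (n + 1))) →ₗ[ℝ]
      Matrix (Fin (n + 1)) (Fin (n + 1)) ℝ)
  have hφ : ∀ x : Sp n, WithLp.toLp 2 x.1 ∈ sphere (0 : EuclideanSpace ℝ (Fin (n + 1))) 1 :=
    fun x => (MatE_norm _).2 x.2
  have hψ : ∀ y : sphere (0 : EuclideanSpace ℝ (Fin (n + 1))) 1, WithLp.ofLp y.1 ∈ US (Fin (n + 1)) :=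
    fun y => (MatE_norm _).1 y.2
  have hCc : Continuous fun x : Sp n => T.symm (L (WithLp.toLp 2 x.1)) := by
    refine hTs.comp ?_
    refine hL.comp_continuous ?_ hφ
    exact (PiLp.continuous_toLp 2 _).comp continuous_subtype_val
  have hCv : VD n fun x : Sp n => T.symm (L (WithLp.toLp 2 x.1)) := by
    intro x
    have h1 := (MatE_ve (T.symm (L (WithLp.toLp 2 x.1))) (WithLp.toLp 2 x.1)).1
    rw [← hT, T.apply_symm_apply] at h1
    exact h1 (h ⟨_, hφ x⟩)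
  obtain ⟨H, hHc, hHv, hH0, hH1⟩ := hmain _ hCc hCv
  refine ⟨fun p => T (H (p.1, ⟨WithLp.ofLp p.2.1, hψ p.2⟩)), ?_, ?_, ?_, ?_⟩
  · refine hTc.comp (hHc.comp (continuous_fst.prodMk ?_))
    refine Continuous.subtype_mk ?_ _
    exact (PiLp.continuous_ofLp 2 _).comp (continuous_subtype_val.comp continuous_snd)
  · intro u y
    have h1 := (MatE_ve (H (u, ⟨WithLp.ofLp y.1, hψ y⟩)) y.1).2 (hHv u ⟨WithLp.ofLp y.1, hψ y⟩)
    rw [← hT] at h1
    exact h1
  · intro y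
    show T (H (0, ⟨WithLp.ofLp y.1, hψ y⟩)) = (L y).comp (L y)
    rw [hH0]
    rw [map_mul, T.apply_symm_apply]
    rfl
  · intro y
    show T (H (1, ⟨WithLp.ofLp y.1, hψ y⟩)) = _
    rw [hH1, map_one]
    rfl

end DT
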