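import Pool.Agent.H78.DT.MatE
import Pool.Agent.H78.DT.PushC2
import Pool.Agent.H78.DT.DilIso
import Pool.Agent.H78.DT.Avoid
import Pool.Agent.H78.DT.PolPt
import Pool.Agent.H78.DT.MainIso

/-!
# General Euclidean spaces
-/

open Set Metric unitInterval Matrix
open scoped ContDiff

noncomputable section

namespace DT

variable {E : Type} [NormedAddCommGroup E] [InnerProductSpace ℝ E] [FiniteDimensional ℝ E]

/-- Conjugation by an isometry. -/
def cjL {E' : Type} [NormedAddCommGroup E'] [InnerProductSpace ℝ E'] (U : E ≃ₗᵢ[ℝ] E')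
    (L : E →L[ℝ] E) : E' →L[ℝ] E' :=
  (U.toContinuousLinearEquiv : E →L[ℝ] E').comp
    (L.comp (U.symm.toContinuousLinearEquiv : E' →L[ℝ] E))

theorem cjL_apply {E' : Type} [NormedAddCommGroup E'] [InnerProductSpace ℝ E']
    (U : E ≃ₗᵢ[ℝ] E') (L : E →L[ℝ] E) (v : E') : cjL U L v = U (L (U.symm v)) := rfl

theorem cjL_comp {E' : Type} [NormedAddCommGroup E'] [InnerProductSpace ℝ E']
    (U : E ≃ₗᵢ[ℝ] E') (L M : E →L[ℝ] E) : cjL U (L.comp M) = (cjL U L).comp (cjL U M) := by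
  ext v
  simp [cjL_apply]

theorem cjL_cont {E' : Type} [NormedAddCommGroup E'] [InnerProductSpace ℝ E']
    (U : E ≃ₗᵢ[ℝ] E') : Continuous (cjL U) :=
  continuous_const.clm_comp (continuous_id.clm_comp continuous_const)

theorem cjL_det {E' : Type} [NormedAddCommGroup E'] [InnerProductSpace ℝ E']
    (U : E ≃ₗᵢ[ℝ] E') (L : E →L[ℝ] E) : (cjL U L).det = L.det :=
  LinearMap.det_conj (L : E →ₗ[ℝ] E) U.toLinearEquiv

theorem cjL_ve {E' : Type} [NormedAddCommGroup E'] [InnerProductSpace ℝ E'] (U : E ≃ₗᵢ[ℝ] E')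
    (L : sphere (0 : E) 1 → E →L[ℝ] E) (hL : VE L) (j : sphere (0 : E') 1 → sphere (0 : E) 1)
    (hj : ∀ y, (j y : E) = U.symm y) : VE (fun y => cjL U (L (j y))) := by
  intro y
  obtain ⟨h1, h2, h3⟩ := hL (j y)
  refine ⟨by rw [cjL_det]; exact h1, ?_, fun v => ?_⟩
  · rw [cjL_apply, ← hj y, h2, hj y, U.apply_symm_apply]
  · rw [cjL_apply]
    have h4 : inner ℝ (y : E') (U (L (j y) (U.symm v))) =
        inner ℝ (U.symm (y : E')) (L (j y) (U.symm v)) := by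
      rw [← U.inner_map_map, U.apply_symm_apply]
    rw [h4, ← hj y, h3, hj y, U.symm.inner_map_map]

theorem vd_to_ve_gen (n : ℕ) (hE : Module.finrank ℝ E = n + 1)
    (hmain : ∀ C : Sp n → Matrix (Fin (n + 1)) (Fin (n + 1)) ℝ, Continuous C → VD n C →
      HP (VD n) (fun x => C x * C x) (fun _ => 1))
    (L : E → E →L[ℝ] E) (hL : ContinuousOn L (sphere 0 1))
    (h : VE (fun x : sphere (0 : E) 1 => L x)) :
    HP (VE (E := E)) (fun x => (L x).comp (L x)) (fun _ => ContinuousLinearMap.id ℝ E) := by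
  let U : E ≃ₗᵢ[ℝ] EuclideanSpace ℝ (Fin (n + 1)) :=
    ((stdOrthonormalBasis ℝ E).reindex (finCongr hE)).repr
  let E' := EuclideanSpace ℝ (Fin (n + 1))
  have hj : ∀ y : sphere (0 : E') 1, U.symm (y : E') ∈ sphere (0 : E) 1 := fun y => by
    rw [mem_sphere_zero_iff_norm, U.symm.norm_map]
    exact mem_sphere_zero_iff_norm.1 y.2
  have hk : ∀ x : sphere (0 : E) 1, U (x : E) ∈ sphere (0 : E') 1 := fun x => by
    rw [mem_sphere_zero_iff_norm, U.norm_map]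
    exact mem_sphere_zero_iff_norm.1 x.2
  let j : sphere (0 : E') 1 → sphere (0 : E) 1 := fun y => ⟨U.symm y, hj y⟩
  let k : sphere (0 : E) 1 → sphere (0 : E') 1 := fun x => ⟨U x, hk x⟩
  have hkc : Continuous k := Continuous.subtype_mk (U.continuous.comp continuous_subtype_val) _
  have h1 : VE (fun y : sphere (0 : E') 1 => cjL U (L (U.symm y))) :=
    cjL_ve U (fun x : sphere (0 : E) 1 => L x) h j fun y => rfl
  have h2 : ContinuousOn (fun y : E' => cjL U (L (U.symm y))) (sphere 0 1) := by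
    refine (cjL_cont U).comp_continuousOn (hL.comp U.symm.continuous.continuousOn ?_)
    intro y hy
    exact hj ⟨y, hy⟩
  obtain ⟨H, hH, hHv, hH0, hH1⟩ := vd_to_ve n hmain (fun y => cjL U (L (U.symm y))) h2 h1
  refine ⟨fun q => cjL U.symm (H (q.1, k q.2)), ?_, fun u => ?_, fun x => ?_, fun x => ?_⟩
  · exact (cjL_cont U.symm).comp (hH.comp (continuous_fst.prodMk (hkc.comp continuous_snd)))
  · exact cjL_ve U.symm (fun y => H (u, y)) (hHv u) k fun x => rfl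
  · dsimp only
    rw [hH0]
    have h3 : U.symm (k x : E') = x := U.symm_apply_apply _
    beta_reduce
    rw [← cjL_comp, h3]
    ext v
    simp [cjL_apply]
  · dsimp only
    rw [hH1]
    ext v
    simp [cjL_apply]

theorem main_iso_gen (n : ℕ) (hn : 1 ≤ n) (hE : Module.finrank ℝ E = n + 1)
    (hmain : ∀ C : Sp n → Matrix (Fin (n + 1)) (Fin (n + 1)) ℝ, Continuous C → VD n C →
      HP (VD n) (fun x => C x * C x) (fun _ => 1))
    (ψ : SDiff E) : ∃ A : E ≃ₗᵢ[ℝ] E, DIso (pushf ψ) (isoAct A) := by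
  obtain ⟨p, hp⟩ : ∃ p : E, ‖p‖ = 1 := by
    have hnt : Nontrivial E := Module.nontrivial_of_finrank_pos (R := ℝ) (by omega)
    exact exists_norm_eq E zero_le_one
  have hp0 : p ≠ 0 := by
    rw [← norm_ne_zero_iff, hp]
    exact one_ne_zero
  obtain ⟨A, hA, hpos⟩ := polar_pt ψ p hp
  refine ⟨A, ?_⟩
  obtain ⟨ψ₁, hψ₁⟩ : ∃ ψ₁, ψ₁ = (SDiff.ofIso A.symm).comp ψ := ⟨_, rfl⟩
  have hf1 : ∀ z, ψ₁.f z = A.symm (ψ.f z) := fun z => by rw [hψ₁]; rfl
  have hfix : ψ₁.f p = p := by rw [hf1, ← hA, A.symm_apply_apply]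
  have hd1 : ∀ v, fderiv ℝ ψ₁.f p v = A.symm (fderiv ℝ ψ.f p v) := by
    have h1 : HasFDerivAt (fun z => A.symm z)
        (A.symm.toContinuousLinearEquiv : E →L[ℝ] E) (ψ.f p) :=
      A.symm.toContinuousLinearEquiv.hasFDerivAt
    have h2 := h1.comp p (ψ.diff hp0).hasFDerivAt
    have h3 : ψ₁.f = (fun z => A.symm z) ∘ ψ.f := funext hf1
    intro v
    rw [h3, h2.fderiv]
    rfl
  have hpos1 : ∀ v, v ≠ 0 → 0 < inner ℝ (fderiv ℝ ψ₁.f p v) v := by
    intro v hv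
    rw [hd1]
    exact hpos v hv
  obtain ⟨l, hl, hne⟩ := dil_avoid ψ₁ p hp hfix hpos1
  have h12 := dil_conj ψ₁ p hp l hl
  have hdet := MainIso_det ψ₁ p hp hfix l hl (det_pos_of _ hpos1)
  generalize (dilS p hp l hl).comp (ψ₁.comp (dilS p hp l hl).symm) = ψ₂ at hne h12 hdet
  have hdet2 : ∀ x, ‖x‖ = 1 → 0 < (fderiv ℝ ψ₂.f x).det := by
    refine det_pos_all ψ₂ ?_ p hp hdet
    omega
  have hsm := Cm_smooth ψ₂ hne
  have hve : VE (fun x : sphere (0 : E) 1 => Cm ψ₂ x) := by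
    intro x
    have hx : ‖(x : E)‖ = 1 := mem_sphere_zero_iff_norm.1 x.2
    exact ⟨Cm_det ψ₂ hne hx (hdet2 _ hx), Cm_self ψ₂ hne hx, Cm_inner ψ₂ hne hx⟩
  have h3 := vd_to_ve_gen n hE hmain (Cm ψ₂) hsm.continuousOn hve
  have h4 := beta_smooth (fun x => (Cm ψ₂ x).comp (Cm ψ₂ x)) (hsm.clm_comp hsm) h3
  have h5 : DIso (pushf ψ₁) (fun q => q) := h12.trans ((push_c2 ψ₂ hne).trans h4)
  have h6 := (DIso.refl (isoAct_dff A)).mul h5
  refine h6.congr (fun q hq => ?_) (fun _ _ => rfl)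
  rw [hψ₁, pushf_comp _ _ q hq, pushf_iso, MainIso_isoAct]

theorem main_tau_gen (n : ℕ) (hn : 1 ≤ n) (hE : Module.finrank ℝ E = n + 1)
    (hmain : ∀ C : Sp n → Matrix (Fin (n + 1)) (Fin (n + 1)) ℝ, Continuous C → VD n C →
      HP (VD n) (fun x => C x * C x) (fun _ => 1))
    (ψ : SDiff E) (τ τ' : E × E → E × E)
    (hτ : Dff τ τ') (hc : ∃ R : ℝ, ∀ p ∈ TS E, R ≤ ‖p.2‖ → τ p = p)
    (hA : ∀ (A : E ≃ₗᵢ[ℝ] E), ∀ p ∈ TS E, τ (isoAct A p) = isoAct A (τ p)) :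
    CSIso (fun p => pushf ψ (τ (pushf ψ.symm p))) τ := by
  obtain ⟨A, h⟩ := main_iso_gen n hn hE hmain ψ
  obtain ⟨F, G, ⟨h1, h2, h3, h4, h5⟩, hR⟩ :=
    cs_of_diso h (pushf_dff ψ) (isoAct_dff A) hτ hc
  refine ⟨F, G, ⟨h1, h2, h3, h4, fun p hp => ?_⟩, hR⟩
  rw [h5 p hp]
  have h6 : isoAct A.symm p ∈ TS E := ((isoAct_dff A).2.2 p hp).2.1
  show isoAct A (τ (isoAct A.symm p)) = τ p
  rw [← hA A _ h6, MainIso_isoAct]

end DT
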