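import Pool.Agent.H78.DT.Bott0

/-!
# Stable homotopy of maps to the special orthogonal groups; Clifford maps (definitions)
-/

open Matrix Set unitInterval Topology

set_option linter.unusedSectionVars false

noncomputable section

namespace DT

variable {X ι κ : Type} [TopologicalSpace X] [Fintype ι] [DecidableEq ι] [Fintype κ]
  [DecidableEq κ]

/-- Stabilisation of a matrix by the identity: `M ⊕ 1`. -/
def stb (α : Type) [Fintype α] [DecidableEq α] (M : Matrix ι ι ℝ) :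
    Matrix (ι ⊕ α) (ι ⊕ α) ℝ :=
  fromBlocks M 0 0 1

/-- `f ⊕ 1` and `g ⊕ 1` are homotopic through special orthogonal matrices, after conjugation by
an orthogonal matrix. -/
def StH (f : X → Matrix ι ι ℝ) (g : X → Matrix κ κ ℝ) : Prop :=
  ∃ (α β : Type) (_ : Fintype α) (_ : DecidableEq α) (_ : Fintype β) (_ : DecidableEq β)
    (Q : Matrix (κ ⊕ β) (ι ⊕ α) ℝ), Q * Qᵀ = 1 ∧ Qᵀ * Q = 1 ∧
    HIn (SOs (κ ⊕ β)) (fun x => Q * stb α (f x) * Qᵀ) (fun x => stb β (g x))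

/-- `n` anticommuting skew complex structures. -/
def CliffJ {n : ℕ} (J : Fin n → Matrix ι ι ℝ) : Prop :=
  (∀ i, (J i)ᵀ = -J i ∧ J i * J i = -1) ∧ ∀ i j, i ≠ j → J i * J j = -(J j * J i)

/-- The Clifford map `v ↦ v₀ + ∑ vᵢ₊₁ Jᵢ`. -/
def clJ {n : ℕ} (J : Fin n → Matrix ι ι ℝ) (v : Fin (n + 1) → ℝ) : Matrix ι ι ℝ :=
  v 0 • 1 + ∑ i : Fin n, v i.succ • J i

end DT
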