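import Pool.Agent.H78.DT.Bott0
import Pool.Agent.H78.DT.Sgn

/-!
# The case of the zero-sphere (job DT-T1Z)

PROOF. `Sp 0` has exactly two points `±1` (vectors `Fin 1 → ℝ` with `v 0 = ±1`), it is discrete.
By `exists_sign` (`X = Sp 0`, compact as it is finite) `F ~ F₁` in `SymX e` with
`F₁ (±1) = G_± ∈ Grad e`.  Let `W = ker (G_+ + G_-) ⊆ ι → ℝ` (a submodule).  For `v ∈ W`:
`(G_+ + G_-) (e_i v) = - e_i (G_+ + G_-) v = 0`, and `G_- v = - G_+ v`, so
`G_+ (G_- v) = - G_+ G_+ v = -v`, `G_- (G_- v) = v`: sum `0`, so `G_- v ∈ W`, `G_+ v ∈ W`.  So `W` and its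
orthogonal complement are stable under the symmetric matrices `e_i`, `G_±`.  Take orthonormal
bases of `W` and `Wᗮ` (work in `EuclideanSpace ℝ ι`), `κ = Fin (dim W)`, `κ' = Fin (dim Wᗮ)`, `O`
the matrix whose columns are these vectors: `O Oᵀ = 1`, `Oᵀ O = 1`, and `Oᵀ M O` is block
diagonal for `M = e_i, G_±`.  Write `Oᵀ e_i O = eW_i ⊕ e0_i`, `Oᵀ G_+ O = c ⊕ D`,
`Oᵀ G_- O = -c ⊕ D'`.  All of these are symmetric involutions, with the same (anti)commutation
relations; `ClSys (addg eW c)`, `ClSys e0`, `D, D' ∈ Grad e0`.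
`F₁ (x) = O (x₀ c ⊕ D_x) Oᵀ` with `D_{+1} = D`, `D_{-1} = D'`.
On `κ'`: `(1-u) D' + u D` is invertible for `u ∈ [0,1]`: if `((1-u) D' + u D) w = 0` then
`(1-u)|w| = (1-u)|D' w| = u |D w| = u |w|`, so if `w ≠ 0` then `u = 1/2` and `(D + D') w = 0`, so
the corresponding vector of `Wᗮ` is in `ker (G_+ + G_-) = W`: contradiction.  So
`F₁ ~ (x ↦ O (x₀ c ⊕ D) Oᵀ)`.
-/

open Matrix Set unitInterval Topology

noncomputable section

namespace DT

theorem T1z_comm_diag {κ : Type} [Fintype κ] [DecidableEq κ] {d : κ → ℝ} {M : Matrix κ κ ℝ}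
    (h : M * diagonal d = diagonal d * M) {i j : κ} (hij : d i ≠ d j) : M i j = 0 := by
  have h1 := congrFun (congrFun h i) j
  rw [Matrix.mul_diagonal, Matrix.diagonal_mul] at h1
  have h2 : (d i - d j) * M i j = 0 := by linarith
  rcases mul_eq_zero.1 h2 with h3 | h3
  · exact absurd (sub_eq_zero.1 h3) hij
  · exact h3

/-- A symmetric matrix `Q`: an orthogonal `O` which block diagonalises everything commuting with
`Q`, the first block being the kernel of `Q`. -/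
theorem T1z_split {ι : Type} [Fintype ι] [DecidableEq ι] (Q : Matrix ι ι ℝ) (hQ : Qᵀ = Q) :
    ∃ (κ κ' : Type) (_ : Fintype κ) (_ : DecidableEq κ) (_ : Fintype κ') (_ : DecidableEq κ')
      (O : Matrix ι (κ ⊕ κ') ℝ) (l : κ' → ℝ), O * Oᵀ = 1 ∧ Oᵀ * O = 1 ∧ (∀ i, l i ≠ 0) ∧
      Oᵀ * Q * O = fromBlocks 0 0 0 (diagonal l) ∧
      ∀ M : Matrix ι ι ℝ, M * Q = Q * M →
        ∃ (a : Matrix κ κ ℝ) (b : Matrix κ' κ' ℝ), Oᵀ * M * O = fromBlocks a 0 0 b := by
  classical
  have hH : Q.IsHermitian := by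
    unfold IsHermitian
    rw [conjTranspose_eq_transpose_of_trivial, hQ]
  set U : Matrix ι ι ℝ := (hH.eigenvectorUnitary : Matrix ι ι ℝ) with hU
  set d : ι → ℝ := hH.eigenvalues with hd
  have hU1 : U * Uᵀ = 1 := by
    have := (Matrix.mem_unitaryGroup_iff (A := U)).1 hH.eigenvectorUnitary.2
    rwa [star_eq_conjTranspose, conjTranspose_eq_transpose_of_trivial] at this
  have hU2 : Uᵀ * U = 1 := by
    have := (Matrix.mem_unitaryGroup_iff' (A := U)).1 hH.eigenvectorUnitary.2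
    rwa [star_eq_conjTranspose, conjTranspose_eq_transpose_of_trivial] at this
  have hspec : Q = U * diagonal d * Uᵀ := by
    have := hH.spectral_theorem
    rw [Unitary.conjStarAlgAut_apply] at this
    rw [star_eq_conjTranspose, conjTranspose_eq_transpose_of_trivial] at this
    exact this
  let eqv : {i // d i = 0} ⊕ {i // ¬ d i = 0} ≃ ι := Equiv.sumCompl (fun i => d i = 0)
  let O : Matrix ι ({i // d i = 0} ⊕ {i // ¬ d i = 0}) ℝ := U.submatrix id eqv
  have hOt : Oᵀ = Uᵀ.submatrix eqv id := by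
    ext i j; simp [O]
  have hO1 : O * Oᵀ = 1 := by
    rw [hOt]
    show U.submatrix id eqv * Uᵀ.submatrix eqv id = 1
    rw [Matrix.submatrix_mul_equiv, hU1]
    simp
  have hO2 : Oᵀ * O = 1 := by
    rw [hOt]
    show Uᵀ.submatrix eqv (Equiv.refl ι) * U.submatrix (Equiv.refl ι) eqv = 1
    rw [Matrix.submatrix_mul_equiv, hU2]
    simp
  have hD : Oᵀ * Q * O = diagonal (d ∘ eqv) := by
    rw [hOt, hspec]
    show Uᵀ.submatrix eqv (Equiv.refl ι) * (U * diagonal d * Uᵀ) *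
      U.submatrix (Equiv.refl ι) eqv = _
    have : (U * diagonal d * Uᵀ) = (U * diagonal d * Uᵀ).submatrix (Equiv.refl ι) (Equiv.refl ι) := by
      ext i j; simp
    rw [this, Matrix.submatrix_mul_equiv, Matrix.submatrix_mul_equiv]
    have h2 : Uᵀ * (U * diagonal d * Uᵀ) * U = diagonal d := by
      calc Uᵀ * (U * diagonal d * Uᵀ) * U = (Uᵀ * U) * diagonal d * (Uᵀ * U) := by
            simp only [Matrix.mul_assoc]
        _ = diagonal d := by rw [hU2, Matrix.one_mul, Matrix.mul_one]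
    rw [h2]
    ext i j
    simp [diagonal_apply]
  refine ⟨{i // d i = 0}, {i // ¬ d i = 0}, inferInstance, inferInstance, inferInstance,
    inferInstance, O, fun i => d i.1, hO1, hO2, fun i => i.2, ?_, ?_⟩
  · rw [hD]
    ext i j
    rcases i with i | i <;> rcases j with j | j
    · have h1 : d i.1 = 0 := i.2
      simp [diagonal_apply, eqv, h1]
    · simp [eqv]
    · simp [eqv]
    · simp [diagonal_apply, eqv]
  · intro M hM
    have hc : (Oᵀ * M * O) * diagonal (d ∘ eqv) = diagonal (d ∘ eqv) * (Oᵀ * M * O) := by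
      rw [← hD]
      calc (Oᵀ * M * O) * (Oᵀ * Q * O) = Oᵀ * M * (O * Oᵀ) * Q * O := by
            simp only [Matrix.mul_assoc]
        _ = Oᵀ * (M * Q) * O := by rw [hO1, Matrix.mul_one]; simp only [Matrix.mul_assoc]
        _ = Oᵀ * (Q * M) * O := by rw [hM]
        _ = Oᵀ * Q * (O * Oᵀ) * M * O := by
            rw [hO1, Matrix.mul_one]; simp only [Matrix.mul_assoc]
        _ = _ := by simp only [Matrix.mul_assoc]
    refine ⟨(Oᵀ * M * O).toBlocks₁₁, (Oᵀ * M * O).toBlocks₂₂, ?_⟩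
    conv_lhs => rw [← fromBlocks_toBlocks (Oᵀ * M * O)]
    congr 1
    · ext i j
      have h1 : (d ∘ eqv) (Sum.inl i) ≠ (d ∘ eqv) (Sum.inr j) := by
        have hi : d i.1 = 0 := i.2
        have hj : ¬ d j.1 = 0 := j.2
        simp only [Function.comp, eqv, Equiv.sumCompl_apply_inl, Equiv.sumCompl_apply_inr]
        rw [hi]
        exact fun h => hj h.symm
      exact T1z_comm_diag hc h1
    · ext i j
      have h1 : (d ∘ eqv) (Sum.inr i) ≠ (d ∘ eqv) (Sum.inl j) := by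
        have hi : d j.1 = 0 := j.2
        have hj : ¬ d i.1 = 0 := i.2
        simp only [Function.comp, eqv, Equiv.sumCompl_apply_inl, Equiv.sumCompl_apply_inr]
        rw [hi]
        exact fun h => hj h
      exact T1z_comm_diag hc h1

theorem T1z_bmul {κ κ' : Type} [Fintype κ] [Fintype κ'] (a a' : Matrix κ κ ℝ)
    (b b' : Matrix κ' κ' ℝ) :
    fromBlocks a 0 0 b * fromBlocks a' 0 0 b' = fromBlocks (a * a') 0 0 (b * b') := by
  simp [fromBlocks_multiply]

theorem T1z_binj {κ κ' : Type} {a a' : Matrix κ κ ℝ} {b b' : Matrix κ' κ' ℝ}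
    (h : fromBlocks a 0 0 b = fromBlocks a' 0 0 b') : a = a' ∧ b = b' := by
  rw [fromBlocks_inj] at h
  exact ⟨h.1, h.2.2.2⟩

theorem T1z_bsym {κ κ' : Type} {a : Matrix κ κ ℝ} {b : Matrix κ' κ' ℝ}
    (h : (fromBlocks a 0 0 b)ᵀ = fromBlocks a 0 0 b) : aᵀ = a ∧ bᵀ = b := by
  rw [fromBlocks_transpose] at h
  simp only [transpose_zero] at h
  exact T1z_binj h

theorem T1z_bone {κ κ' : Type} [DecidableEq κ] [DecidableEq κ'] {a : Matrix κ κ ℝ}
    {b : Matrix κ' κ' ℝ} (h : fromBlocks a 0 0 b = 1) : a = 1 ∧ b = 1 := by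
  rw [← fromBlocks_one] at h
  exact T1z_binj h

theorem T1z_seg {κ : Type} [Fintype κ] [DecidableEq κ] {D D' : Matrix κ κ ℝ} {l : κ → ℝ}
    (hD : D * D = 1) (hD' : D' * D' = 1) (h : (D + D') * (D + D') = diagonal l)
    (hl : ∀ i, 0 < l i) {s : ℝ} (h0 : 0 ≤ s) (h1 : s ≤ 1) :
    IsUnit ((1 - s) • D' + s • D) := by
  have hsq : ((1 - s) • D' + s • D) * ((1 - s) • D' + s • D) =
      diagonal (fun i => (1 - 2 * s) ^ 2 + s * (1 - s) * l i) := by
    have e1 : diagonal (fun i => (1 - 2 * s) ^ 2 + s * (1 - s) * l i) =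
        ((1 - 2 * s) ^ 2) • (1 : Matrix κ κ ℝ) + (s * (1 - s)) • diagonal l := by
      ext i j
      by_cases hij : i = j
      · subst hij; simp
      · simp [hij]
    rw [e1, ← h]
    have e2 : (D + D') * (D + D') = D * D + D' * D' + (D * D' + D' * D) := by
      simp only [add_mul, mul_add]; abel
    rw [e2, hD, hD']
    simp only [add_mul, mul_add, smul_mul_assoc, mul_smul_comm, hD, hD', smul_smul, smul_add]
    module
  have hpos : ∀ i, (1 - 2 * s) ^ 2 + s * (1 - s) * l i ≠ 0 := by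
    intro i
    have h2 : 0 ≤ s * (1 - s) := mul_nonneg h0 (by linarith)
    rcases h2.eq_or_lt with h3 | h3
    · rw [← h3, zero_mul, add_zero]
      have : (1 - 2 * s) ^ 2 = 1 := by nlinarith
      rw [this]; norm_num
    · have := mul_pos h3 (hl i)
      positivity
  have hu : IsUnit (diagonal (fun i => (1 - 2 * s) ^ 2 + s * (1 - s) * l i)) := by
    rw [Matrix.isUnit_iff_isUnit_det, det_diagonal, isUnit_iff_ne_zero]
    exact Finset.prod_ne_zero_iff.2 fun i _ => hpos i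
  rw [← hsq] at hu
  rw [Matrix.isUnit_iff_isUnit_det] at hu ⊢
  rw [det_mul] at hu
  exact isUnit_of_mul_isUnit_left hu

theorem T1z_pt (x : Sp 0) : x.1 0 = 1 ∨ x.1 0 = -1 := by
  have h : x.1 ⬝ᵥ x.1 = 1 := x.2
  simp only [dotProduct, Fin.sum_univ_succ, Finset.univ_eq_empty, Finset.sum_empty,
    add_zero] at h
  have h2 : (x.1 0 - 1) * (x.1 0 + 1) = 0 := by linarith
  rcases mul_eq_zero.1 h2 with h3 | h3
  · left; linarith
  · right; linarith

theorem T1z_ext {x y : Sp 0} (h : x.1 0 = y.1 0) : x = y := by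
  apply Subtype.ext
  funext i
  have hi : i = 0 := Fin.ext (by have := i.2; simp at this ⊢)
  rw [hi, h]

theorem T1_zero {ε ι : Type} [Fintype ι] [DecidableEq ι] (e : ε → Matrix ι ι ℝ)
    (he : ClSys e) (F : Sp 0 → Matrix ι ι ℝ) (hF : Continuous F) (hS : ∀ x, F x ∈ SymX e) :
    ∃ (κ κ' : Type) (_ : Fintype κ) (_ : DecidableEq κ) (_ : Fintype κ') (_ : DecidableEq κ')
      (eW : ε → Matrix κ κ ℝ) (c : Matrix κ κ ℝ) (e0 : ε → Matrix κ' κ' ℝ)
      (D : Matrix κ' κ' ℝ) (O : Matrix ι (κ ⊕ κ') ℝ),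
      ClSys (addg eW c) ∧ ClSys e0 ∧ D ∈ SymX e0 ∧ O * Oᵀ = 1 ∧ Oᵀ * O = 1 ∧
      (∀ i, Oᵀ * e i * O = esum eW e0 i) ∧
      HIn (SymX e) F (fun x => O * fromBlocks (x.1 0 • c) 0 0 D * Oᵀ) := by
  classical
  have hfin : Finite (Sp 0) := by
    refine Finite.of_injective (fun x : Sp 0 => decide (x.1 0 = 1)) ?_
    intro x y hxy
    apply T1z_ext
    simp only [decide_eq_decide] at hxy
    rcases T1z_pt x with h | h <;> rcases T1z_pt y with h' | h'
    · rw [h, h']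
    · rw [h, h'] at hxy; norm_num at hxy
    · rw [h, h'] at hxy; norm_num at hxy
    · rw [h, h']
  obtain ⟨H, hHc, hH0, hHX, hH1, -⟩ := exists_sign e F hF hS
  let p : Sp 0 := ⟨fun _ => 1, by simp [US, dotProduct]⟩
  let q : Sp 0 := ⟨fun _ => -1, by simp [US, dotProduct]⟩
  obtain ⟨Gp, hGp⟩ : ∃ G, G = H (1, p) := ⟨_, rfl⟩
  obtain ⟨Gm, hGm⟩ : ∃ G, G = H (1, q) := ⟨_, rfl⟩
  have hp : Gp ∈ Grad e := hGp ▸ hH1 p
  have hq : Gm ∈ Grad e := hGm ▸ hH1 q
  obtain ⟨⟨hpt, hpe⟩, hp2⟩ := hp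
  obtain ⟨⟨hqt, hqe⟩, hq2⟩ := hq
  -- the matrix `N = Gp + Gm` and its square
  obtain ⟨N, hN⟩ : ∃ N, N = Gp + Gm := ⟨_, rfl⟩
  have hNt : Nᵀ = N := by rw [hN, transpose_add, hpt, hqt]
  have hNe : ∀ i, N * e i = -(e i * N) := by
    intro i
    rw [hN, add_mul, hpe, hqe, mul_add]; abel
  have hNp : N * Gp = Gm * N := by
    rw [hN, add_mul, mul_add, hp2, hq2]; abel
  have hNm : N * Gm = Gp * N := by
    rw [hN, add_mul, mul_add, hp2, hq2]; abel
  have hQt : (N * N)ᵀ = N * N := by rw [transpose_mul, hNt]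
  obtain ⟨κ, κ', i1, i2, i3, i4, O, l, hO1, hO2, hl, hOQ, hOM⟩ := T1z_split (N * N) hQt
  have hφ : ∀ A B : Matrix ι ι ℝ, (Oᵀ * A * O) * (Oᵀ * B * O) = Oᵀ * (A * B) * O := by
    intro A B
    calc (Oᵀ * A * O) * (Oᵀ * B * O) = Oᵀ * A * (O * Oᵀ) * B * O := by
          simp only [Matrix.mul_assoc]
      _ = _ := by rw [hO1, Matrix.mul_one]; simp only [Matrix.mul_assoc]
  have hφt : ∀ A : Matrix ι ι ℝ, (Oᵀ * A * O)ᵀ = Oᵀ * Aᵀ * O := by
    intro A
    rw [transpose_mul, transpose_mul, transpose_transpose, Matrix.mul_assoc]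
  have hφi : ∀ A : Matrix ι ι ℝ, O * (Oᵀ * A * O) * Oᵀ = A := by
    intro A
    calc O * (Oᵀ * A * O) * Oᵀ = (O * Oᵀ) * A * (O * Oᵀ) := by simp only [Matrix.mul_assoc]
      _ = A := by rw [hO1, Matrix.one_mul, Matrix.mul_one]
  have hφ1 : Oᵀ * (1 : Matrix ι ι ℝ) * O = 1 := by rw [Matrix.mul_one, hO2]
  -- commutation with `N * N`
  have ceN : ∀ i, e i * (N * N) = N * N * e i := by
    intro i
    have h1 : e i * N = -(N * e i) := by rw [hNe, neg_neg]
    calc e i * (N * N) = (e i * N) * N := (Matrix.mul_assoc _ _ _).symm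
      _ = -(N * (e i * N)) := by rw [h1, neg_mul, Matrix.mul_assoc, ← h1]
      _ = N * (N * e i) := by rw [h1, mul_neg, neg_neg]
      _ = N * N * e i := (Matrix.mul_assoc _ _ _).symm
  have cpN : Gp * (N * N) = N * N * Gp := by
    calc Gp * (N * N) = (Gp * N) * N := (Matrix.mul_assoc _ _ _).symm
      _ = N * (Gm * N) := by rw [← hNm, Matrix.mul_assoc]
      _ = N * N * Gp := by rw [← hNp, Matrix.mul_assoc]
  have cqN : Gm * (N * N) = N * N * Gm := by
    calc Gm * (N * N) = (Gm * N) * N := (Matrix.mul_assoc _ _ _).symm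
      _ = N * (Gp * N) := by rw [← hNp, Matrix.mul_assoc]
      _ = N * N * Gm := by rw [← hNm, Matrix.mul_assoc]
  choose eW e0 hee using fun i => hOM (e i) (ceN i)
  obtain ⟨c, D, hcD⟩ := hOM Gp cpN
  obtain ⟨c', D', hcD'⟩ := hOM Gm cqN
  -- `c' = -c`
  have hn : Oᵀ * N * O = fromBlocks (c + c') 0 0 (D + D') := by
    rw [hN, Matrix.mul_add, Matrix.add_mul, hcD, hcD', fromBlocks_add]
    simp
  have hnn : fromBlocks ((c + c') * (c + c')) 0 0 ((D + D') * (D + D')) =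
      fromBlocks 0 0 0 (diagonal l) := by
    rw [← T1z_bmul, ← hn, hφ, hOQ]
  obtain ⟨hn1, hn2⟩ := T1z_binj hnn
  obtain ⟨hns1, hns2⟩ := T1z_bsym (a := c + c') (b := D + D') (by rw [← hn, hφt, hNt])
  have hcc : c + c' = 0 := by
    have : (c + c')ᵀ * (c + c') = 0 := by rw [hns1, hn1]
    rw [← conjTranspose_eq_transpose_of_trivial] at this
    exact conjTranspose_mul_self_eq_zero.1 this
  have hc' : c' = -c := eq_neg_of_add_eq_zero_right hcc
  have hlpos : ∀ i, 0 < l i := by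
    intro i
    have h1 : l i = ∑ j, (D + D') i j * (D + D') i j := by
      have h2 : ((D + D') * (D + D')) i i = diagonal l i i := by rw [hn2]
      rw [diagonal_apply_eq, Matrix.mul_apply] at h2
      rw [← h2]
      refine Finset.sum_congr rfl fun j _ => ?_
      have h3 : (D + D') j i = (D + D') i j := by
        conv_lhs => rw [← hns2]
        rfl
      rw [h3]
    have h4 : 0 ≤ l i := by
      rw [h1]; exact Finset.sum_nonneg fun j _ => mul_self_nonneg _
    exact lt_of_le_of_ne h4 (Ne.symm (hl i))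
  -- symmetric, square one, anticommutation for the blocks
  obtain ⟨hct, hDt⟩ := T1z_bsym (a := c) (b := D) (by rw [← hcD, hφt, hpt])
  obtain ⟨hct', hDt'⟩ := T1z_bsym (a := c') (b := D') (by rw [← hcD', hφt, hqt])
  obtain ⟨hc2, hD2⟩ := T1z_bone (a := c * c) (b := D * D) (by
    rw [← T1z_bmul, ← hcD, hφ, hp2, hφ1])
  obtain ⟨hc2', hD2'⟩ := T1z_bone (a := c' * c') (b := D' * D') (by
    rw [← T1z_bmul, ← hcD', hφ, hq2, hφ1])
  have hes : ∀ i, (eW i)ᵀ = eW i ∧ (e0 i)ᵀ = e0 i := fun i =>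
    T1z_bsym (by rw [← hee, hφt, (he.1 i).1])
  have hei : ∀ i, eW i * eW i = 1 ∧ e0 i * e0 i = 1 := fun i =>
    T1z_bone (by rw [← T1z_bmul, ← hee, hφ, (he.1 i).2, hφ1])
  have hneg : ∀ (a : Matrix κ κ ℝ) (b : Matrix κ' κ' ℝ),
      -(fromBlocks a 0 0 b) = fromBlocks (-a) 0 0 (-b) := by
    intro a b
    rw [fromBlocks_neg]; simp
  have hφn : ∀ A : Matrix ι ι ℝ, Oᵀ * (-A) * O = -(Oᵀ * A * O) := by
    intro A
    rw [Matrix.mul_neg, Matrix.neg_mul]
  have hea : ∀ i j, i ≠ j → eW i * eW j = -(eW j * eW i) ∧ e0 i * e0 j = -(e0 j * e0 i) := by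
    intro i j hij
    refine T1z_binj ?_
    rw [← hneg, ← T1z_bmul, ← T1z_bmul, ← hee, ← hee, hφ, hφ, he.2 i j hij, hφn]
  have hce : ∀ i, c * eW i = -(eW i * c) ∧ D * e0 i = -(e0 i * D) := by
    intro i
    refine T1z_binj ?_
    rw [← hneg, ← T1z_bmul, ← T1z_bmul, ← hee, ← hcD, hφ, hφ, hpe, hφn]
  have hce' : ∀ i, c' * eW i = -(eW i * c') ∧ D' * e0 i = -(e0 i * D') := by
    intro i
    refine T1z_binj ?_
    rw [← hneg, ← T1z_bmul, ← T1z_bmul, ← hee, ← hcD', hφ, hφ, hqe, hφn]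
  refine ⟨κ, κ', i1, i2, i3, i4, eW, c, e0, D, O, ?_, ?_, ?_, hO1, hO2, fun i => hee i, ?_⟩
  · refine ⟨?_, ?_⟩
    · rintro (i | i)
      · exact ⟨(hes i).1, (hei i).1⟩
      · exact ⟨hct, hc2⟩
    · rintro (i | i) (j | j) hij
      · exact (hea i j (fun h => hij (by rw [h]))).1
      · show eW i * c = -(c * eW i)
        rw [(hce i).1, neg_neg]
      · exact (hce j).1
      · exact absurd rfl hij
  · exact ⟨fun i => ⟨(hes i).2, (hei i).2⟩, fun i j hij => (hea i j hij).2⟩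
  · exact ⟨⟨hDt, fun i => (hce i).2⟩, ⟨⟨D, D, hD2, hD2⟩, rfl⟩⟩
  · -- the homotopy
    have hstep1 : HIn (SymX e) F (fun x => H (1, x)) :=
      ⟨H, hHc, fun u x => hHX (u, x), hH0, fun x => rfl⟩
    refine hstep1.trans ?_
    let s : I × Sp 0 → ℝ := fun z => (1 + z.2.1 0) / 2 * (1 - (z.1 : ℝ)) + (z.1 : ℝ)
    let K : I × Sp 0 → Matrix ι ι ℝ := fun z =>
      O * fromBlocks (z.2.1 0 • c) 0 0 ((1 - s z) • D' + s z • D) * Oᵀ
    have hx0c : Continuous fun z : I × Sp 0 => z.2.1 0 :=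
      (continuous_apply 0).comp (continuous_subtype_val.comp continuous_snd)
    have hsc : Continuous s := by
      have h2 : Continuous fun z : I × Sp 0 => (z.1 : ℝ) := by fun_prop
      exact (((continuous_const.add hx0c).div_const 2).mul (continuous_const.sub h2)).add h2
    have hs01 : ∀ z, 0 ≤ s z ∧ s z ≤ 1 := by
      intro z
      have h0 := z.1.2.1
      have h1 := z.1.2.2
      rcases T1z_pt z.2 with h | h
      · simp only [s, h]; constructor <;> nlinarith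
      · simp only [s, h]; constructor <;> nlinarith
    refine ⟨K, ?_, ?_, ?_, ?_⟩
    · have h1 : Continuous fun z : I × Sp 0 => fromBlocks (z.2.1 0 • c) (0 : Matrix κ κ' ℝ)
          (0 : Matrix κ' κ ℝ) ((1 - s z) • D' + s z • D) :=
        Continuous.matrix_fromBlocks (hx0c.smul continuous_const) continuous_const
          continuous_const (((continuous_const.sub hsc).smul continuous_const).add
            (hsc.smul continuous_const))
      exact (continuous_const.matrix_mul h1).matrix_mul continuous_const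
    · intro u x
      have hx2 : x.1 0 * x.1 0 = 1 := by
        rcases T1z_pt x with h | h <;> rw [h] <;> norm_num
      obtain ⟨hsa, hsb⟩ := hs01 (u, x)
      generalize hsz : s (u, x) = t at hsa hsb
      show O * fromBlocks (x.1 0 • c) 0 0 ((1 - s (u, x)) • D' + s (u, x) • D) * Oᵀ ∈ SymX e
      rw [hsz]
      generalize x.1 0 = y at hx2
      refine ⟨⟨?_, ?_⟩, ?_⟩
      · rw [transpose_mul, transpose_mul, transpose_transpose, fromBlocks_transpose,
          transpose_smul, transpose_add, transpose_smul, transpose_smul, hct, hDt, hDt',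
          Matrix.mul_assoc]
        simp
      · intro i
        have h1 : fromBlocks (y • c) 0 0 ((1 - t) • D' + t • D) * fromBlocks (eW i) 0 0 (e0 i) =
            -(fromBlocks (eW i) 0 0 (e0 i) * fromBlocks (y • c) 0 0 ((1 - t) • D' + t • D)) := by
          rw [T1z_bmul, T1z_bmul, hneg]
          congr 1
          · rw [Matrix.smul_mul, Matrix.mul_smul, (hce i).1, smul_neg]
          · rw [Matrix.add_mul, Matrix.mul_add, Matrix.smul_mul, Matrix.smul_mul,
              Matrix.mul_smul, Matrix.mul_smul, (hce i).2, (hce' i).2, smul_neg, smul_neg]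
            abel
        have he1 : e i = O * fromBlocks (eW i) 0 0 (e0 i) * Oᵀ := by rw [← hee, hφi]
        have hconj : ∀ A B : Matrix (κ ⊕ κ') (κ ⊕ κ') ℝ,
            (O * A * Oᵀ) * (O * B * Oᵀ) = O * (A * B) * Oᵀ := by
          intro A B
          calc (O * A * Oᵀ) * (O * B * Oᵀ) = O * A * (Oᵀ * O) * B * Oᵀ := by
                simp only [Matrix.mul_assoc]
            _ = _ := by rw [hO2, Matrix.mul_one]; simp only [Matrix.mul_assoc]
        rw [he1, hconj, hconj, h1, Matrix.mul_neg, Matrix.neg_mul]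
      · have hu1 : IsUnit (y • c) := by
          refine ⟨⟨y • c, y • c, ?_, ?_⟩, rfl⟩ <;>
            rw [Matrix.smul_mul, Matrix.mul_smul, smul_smul, hx2, one_smul, hc2]
        have hu2 : IsUnit ((1 - t) • D' + t • D) := T1z_seg hD2 hD2' hn2 hlpos hsa hsb
        obtain ⟨v1, hv1⟩ := hu1
        obtain ⟨v2, hv2⟩ := hu2
        rw [← hv1, ← hv2]
        refine ⟨⟨O * fromBlocks (v1 : Matrix κ κ ℝ) 0 0 (v2 : Matrix κ' κ' ℝ) * Oᵀ,
          O * fromBlocks (↑v1⁻¹ : Matrix κ κ ℝ) 0 0 (↑v2⁻¹ : Matrix κ' κ' ℝ) * Oᵀ, ?_, ?_⟩, rfl⟩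
        · calc (O * fromBlocks (v1 : Matrix κ κ ℝ) 0 0 (v2 : Matrix κ' κ' ℝ) * Oᵀ) *
                (O * fromBlocks (↑v1⁻¹ : Matrix κ κ ℝ) 0 0 (↑v2⁻¹ : Matrix κ' κ' ℝ) * Oᵀ)
              = O * fromBlocks (v1 : Matrix κ κ ℝ) 0 0 (v2 : Matrix κ' κ' ℝ) * (Oᵀ * O) *
                fromBlocks (↑v1⁻¹ : Matrix κ κ ℝ) 0 0 (↑v2⁻¹ : Matrix κ' κ' ℝ) * Oᵀ := by
                simp only [Matrix.mul_assoc]
            _ = O * (fromBlocks (v1 : Matrix κ κ ℝ) 0 0 (v2 : Matrix κ' κ' ℝ) *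
                fromBlocks (↑v1⁻¹ : Matrix κ κ ℝ) 0 0 (↑v2⁻¹ : Matrix κ' κ' ℝ)) * Oᵀ := by
                rw [hO2, Matrix.mul_one]; simp only [Matrix.mul_assoc]
            _ = 1 := by
                rw [T1z_bmul, Units.mul_inv, Units.mul_inv, fromBlocks_one, Matrix.mul_one, hO1]
        · calc (O * fromBlocks (↑v1⁻¹ : Matrix κ κ ℝ) 0 0 (↑v2⁻¹ : Matrix κ' κ' ℝ) * Oᵀ) *
                (O * fromBlocks (v1 : Matrix κ κ ℝ) 0 0 (v2 : Matrix κ' κ' ℝ) * Oᵀ)
              = O * fromBlocks (↑v1⁻¹ : Matrix κ κ ℝ) 0 0 (↑v2⁻¹ : Matrix κ' κ' ℝ) * (Oᵀ * O) *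
                fromBlocks (v1 : Matrix κ κ ℝ) 0 0 (v2 : Matrix κ' κ' ℝ) * Oᵀ := by
                simp only [Matrix.mul_assoc]
            _ = O * (fromBlocks (↑v1⁻¹ : Matrix κ κ ℝ) 0 0 (↑v2⁻¹ : Matrix κ' κ' ℝ) *
                fromBlocks (v1 : Matrix κ κ ℝ) 0 0 (v2 : Matrix κ' κ' ℝ)) * Oᵀ := by
                rw [hO2, Matrix.mul_one]; simp only [Matrix.mul_assoc]
            _ = 1 := by
                rw [T1z_bmul, Units.inv_mul, Units.inv_mul, fromBlocks_one, Matrix.mul_one, hO1]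
    · intro x
      rcases T1z_pt x with h | h
      · have hx : x = p := T1z_ext (by rw [h])
        have hs : s (0, x) = 1 := by simp [s, h]
        show O * fromBlocks (x.1 0 • c) 0 0 ((1 - s (0, x)) • D' + s (0, x) • D) * Oᵀ = H (1, x)
        rw [hs, h, sub_self, zero_smul, zero_add, one_smul, one_smul, ← hcD, hφi, hx, hGp]
      · have hx : x = q := T1z_ext (by rw [h])
        have hs : s (0, x) = 0 := by simp [s, h]
        show O * fromBlocks (x.1 0 • c) 0 0 ((1 - s (0, x)) • D' + s (0, x) • D) * Oᵀ = H (1, x)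
        rw [hs, h, sub_zero, zero_smul, add_zero, one_smul, neg_one_smul, ← hc', ← hcD', hφi, hx,
          hGm]
    · intro x
      have hs : s (1, x) = 1 := by simp [s]
      have hDD : (1 - (1 : ℝ)) • D' + (1 : ℝ) • D = D := by simp
      show O * fromBlocks (x.1 0 • c) 0 0 ((1 - s (1, x)) • D' + s (1, x) • D) * Oᵀ =
        O * fromBlocks (x.1 0 • c) 0 0 D * Oᵀ
      rw [hs, hDD]

end DT
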