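import Pool.Agent.H78.DT.LemB
import Pool.Agent.H78.DT.T1z

/-!
# Every map to `SymX e` is stably a Clifford map (job DT-T1)

PROOF. Induction on `k`, for all `ε, ι, e, F`.
`k = 0`: `T1_zero`, with `ι' = Empty` (transport everything from `ι` to `ι ⊕ Empty`).
`k + 1`: `lemB k e he F` gives `ι₁, e₁, c₁'', c₁, G`.  Let `E = addg (esum e e₁) c₁` (a Clifford
system on `ι ⊕ ι₁`), `G` has values in `Grad E ⊆ SymX E`.  The induction hypothesis for `E, G`
gives `ι₂`, `e₂ : ε ⊕ Unit → _`, `c₂' ∈ SymX e₂`, `κ, κ'`, `eW₂`, `c₂ : Fin (k+1) → _`,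
`e0₂`, `D`, `O`.  Put `g₁ = e₂ (inr ())`, `C = fromBlocks c₁ 0 0 g₁ = esum E e₂ (inr ())`.
(β) If `Γ_u : Sp k → SymX (esum E e₂)` is a homotopy, then
`x ↦ x₀ • C + cone1 Γ_u (tail x)` is a homotopy of maps `Sp (k+1) → SymX (esum (esum e e₁) (e₂ ∘ inl))`:
continuous by `continuous_cone_mat`; for `x = (x₀, r y)`, `r = nr (tail x)`, the value is
`x₀ C + r Γ(y)` with square `x₀² + r² Γ²`, positive definite (`Γ² = ΓᵀΓ` positive definite and
`x₀² + r² = 1`); symmetric and anticommuting with the remaining generators (`C` is one of the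
generators of a Clifford system).
Chain in `SymX`, over `(ι ⊕ ι₁) ⊕ ι₂`:
`(F ⊕ c₁'') ⊕ c₂' ~ (x₀ c₁ + cone1 G (tail x)) ⊕ c₂'` (lemB)
`~ (x₀ c₁ + cone1 G (tail x)) ⊕ (x₀ g₁ + nr (tail x) • c₂')` (straight line to the constant
`c₂'`: square `(1-u)²x₀² + ((1-u) nr + u)² c₂'²`)
`= x₀ C + cone1 (G ⊕ c₂') (tail x)` `~ x₀ C + cone1 (O (csum c₂ ⊕ D) Oᵀ) (tail x)` (β)
`= O ((x₀ eW₂(inr ()) + csum c₂ (tail x)) ⊕ (x₀ e0₂(inr ()) + nr (tail x) D)) Oᵀ`
(since `Oᵀ C O = esum eW₂ e0₂ (inr ())`; `cone1` of the restriction of a linear map is the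
linear map, `nr v • c(nrm v) = c(v)`)
`~ O (csum (Fin.cons (eW₂ (inr ())) c₂) x ⊕ D) Oᵀ` (straight line again).
Take `ι' = ι₁ ⊕ ι₂` (reindex by `Equiv.sumAssoc`), `e' = esum e₁ (e₂ ∘ inl)`,
`c' = fromBlocks c₁'' 0 0 c₂'`, `eW = eW₂ ∘ inl`, `c = Fin.cons (eW₂ (inr ())) c₂`,
`e0 = e0₂ ∘ inl`.
-/

open Matrix Set unitInterval Topology

noncomputable section

namespace DT

set_option linter.unusedSectionVars false
set_option linter.unusedSimpArgs false

section aux

variable {ε ι ι' : Type} [Fintype ι] [DecidableEq ι] [Fintype ι'] [DecidableEq ι']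

theorem T1_cl_grad {e : ε → Matrix ι ι ℝ} {c : Matrix ι ι ℝ} (he : ClSys e) (hc : c ∈ Grad e) :
    ClSys (addg e c) := by
  refine ⟨?_, ?_⟩
  · rintro (i | i)
    · exact he.1 i
    · exact ⟨hc.1.1, hc.2⟩
  · rintro (i | i) (j | j) hij
    · exact he.2 i j (fun h => hij (by rw [h]))
    · show e i * c = -(c * e i)
      rw [hc.1.2 i, neg_neg]
    · exact hc.1.2 j
    · exact absurd rfl hij

theorem T1_cl_inl {e : ε ⊕ Unit → Matrix ι ι ℝ} (he : ClSys e) :
    ClSys (fun i => e (Sum.inl i)) :=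
  ⟨fun i => he.1 _, fun i j hij => he.2 _ _ (fun h => hij (Sum.inl.inj h))⟩

theorem T1_cl_inr {e : ε ⊕ Unit → Matrix ι ι ℝ} (he : ClSys e) :
    e (Sum.inr ()) ∈ Grad (fun i => e (Sum.inl i)) :=
  ⟨⟨(he.1 _).1, fun i => he.2 _ _ (by simp)⟩, (he.1 _).2⟩

theorem T1_addg_eta (e : ε ⊕ Unit → Matrix ι ι ℝ) :
    addg (fun i => e (Sum.inl i)) (e (Sum.inr ())) = e := by
  funext i
  rcases i with i | i <;> rfl

theorem T1_mem {A : ε → Matrix ι ι ℝ} {C S : Matrix ι ι ℝ} (hC : C ∈ Grad A)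
    (hS : S ∈ SymX (addg A C)) {a b : ℝ} (hab : 0 < a ^ 2 + b ^ 2) :
    a • C + b • S ∈ SymX A := by
  obtain ⟨⟨hC1, hC2⟩, hC3⟩ := hC
  obtain ⟨⟨hS1, hS2⟩, hS3⟩ := hS
  have hS2' : ∀ i, S * A i = -(A i * S) := fun i => hS2 (Sum.inl i)
  have hSC : S * C = -(C * S) := hS2 (Sum.inr ())
  refine ⟨⟨?_, fun i => ?_⟩, ?_⟩
  · rw [transpose_add, transpose_smul, transpose_smul, hC1, hS1]
  · rw [add_mul, mul_add, smul_mul_assoc, smul_mul_assoc, mul_smul_comm, mul_smul_comm, hC2 i,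
      hS2' i, smul_neg, smul_neg, neg_add]
  · have hsq : (a • C + b • S) * (a • C + b • S) = (a ^ 2) • (1 : Matrix ι ι ℝ)
        + (b ^ 2) • (Sᵀ * S) := by
      rw [hS1]
      simp only [add_mul, mul_add, smul_mul_assoc, mul_smul_comm, hC3, hSC, smul_neg]
      module
    rw [← Matrix.mulVec_injective_iff_isUnit]
    intro v w hvw
    have h0 : (a • C + b • S) *ᵥ (v - w) = 0 := by
      rw [Matrix.mulVec_sub, sub_eq_zero]
      exact hvw
    rw [← sub_eq_zero]
    generalize v - w = z at h0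
    have h1 : ((a • C + b • S) * (a • C + b • S)) *ᵥ z = 0 := by
      rw [← Matrix.mulVec_mulVec, h0, Matrix.mulVec_zero]
    rw [hsq] at h1
    have h2 : z ⬝ᵥ (((a ^ 2) • (1 : Matrix ι ι ℝ) + (b ^ 2) • (Sᵀ * S)) *ᵥ z) = 0 := by
      rw [h1, dotProduct_zero]
    rw [Matrix.add_mulVec, Matrix.smul_mulVec, Matrix.one_mulVec, Matrix.smul_mulVec,
      ← Matrix.mulVec_mulVec, dotProduct_add, dotProduct_smul, dotProduct_smul,
      Matrix.dotProduct_mulVec z Sᵀ, Matrix.vecMul_transpose, smul_eq_mul, smul_eq_mul] at h2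
    have h3 := cone_dot_nonneg z
    have h4 := cone_dot_nonneg (S *ᵥ z)
    have ha2 := sq_nonneg a
    have hb2 := sq_nonneg b
    have h5 : a ^ 2 * (z ⬝ᵥ z) = 0 := by nlinarith [mul_nonneg ha2 h3, mul_nonneg hb2 h4]
    have h6 : b ^ 2 * ((S *ᵥ z) ⬝ᵥ (S *ᵥ z)) = 0 := by
      nlinarith [mul_nonneg ha2 h3, mul_nonneg hb2 h4]
    rcases mul_eq_zero.1 h5 with h7 | h7
    · rcases mul_eq_zero.1 h6 with h8 | h8
      · rw [h7, h8] at hab
        norm_num at hab
      · have h9 : S *ᵥ z = 0 := dotProduct_self_eq_zero.1 h8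
        have hinj := Matrix.mulVec_injective_iff_isUnit.2 hS3
        apply hinj
        rw [h9, Matrix.mulVec_zero]
    · exact dotProduct_self_eq_zero.1 h7

theorem T1_cone1_eq {k : ℕ} {V P : Type*} [AddCommGroup V] [Module ℝ V] (H : P × Sp k → V)
    (p : P) (f : Sp k → V) (h : ∀ y, H (p, y) = f y) (v : Fin (k + 1) → ℝ) :
    cone H (p, v) = cone1 f v := by
  unfold cone1
  by_cases hv : v = 0
  · subst hv
    rw [cone_zero, cone_zero]
  · rw [cone_eq_of_ne _ _ hv, cone_eq_of_ne _ _ hv, h]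

theorem T1_cone_ex {k : ℕ} {V P : Type*} [AddCommGroup V] [Module ℝ V] (H : P × Sp k → V)
    (p : P) (v : Fin (k + 1) → ℝ) : ∃ y : Sp k, cone H (p, v) = nr v • H (p, y) := by
  by_cases hv : v = 0
  · subst hv
    exact ⟨⟨north k, cone_north_mem k⟩, by rw [cone_zero, cone_nr_zero, zero_smul]⟩
  · exact ⟨_, cone_eq_of_ne H p hv⟩

theorem T1_norm {k : ℕ} (x : Sp (k + 1)) : x.1 0 ^ 2 + nr (Fin.tail x.1) ^ 2 = 1 := by
  have hx : x.1 ⬝ᵥ x.1 = 1 := x.2
  rw [cone_dot_tail] at hx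
  rw [cone_nr_sq, sq]
  exact hx

theorem T1_tail_cont {k : ℕ} : Continuous fun x : Sp (k + 1) => Fin.tail x.1 :=
  continuous_pi fun i => (continuous_apply i.succ).comp continuous_subtype_val

theorem T1_head_cont {k : ℕ} : Continuous fun x : Sp (k + 1) => x.1 0 :=
  (continuous_apply 0).comp continuous_subtype_val

theorem T1_beta {k : ℕ} {A : ε → Matrix ι ι ℝ} {C : Matrix ι ι ℝ} (hC : C ∈ Grad A)
    {f g : Sp k → Matrix ι ι ℝ} (h : HIn (SymX (addg A C)) f g) :
    HIn (SymX A) (fun x : Sp (k + 1) => x.1 0 • C + cone1 f (Fin.tail x.1))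
      (fun x => x.1 0 • C + cone1 g (Fin.tail x.1)) := by
  obtain ⟨H, hc, hP, h0, h1⟩ := h
  refine ⟨fun p => p.2.1 0 • C + cone H (p.1, Fin.tail p.2.1), ?_, ?_, ?_, ?_⟩
  · exact ((T1_head_cont.comp continuous_snd).smul continuous_const).add
      ((continuous_cone_mat H hc).comp
        (continuous_fst.prodMk (T1_tail_cont.comp continuous_snd)))
  · intro u x
    obtain ⟨y, hy⟩ := T1_cone_ex H u (Fin.tail x.1)
    show x.1 0 • C + cone H (u, Fin.tail x.1) ∈ SymX A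
    rw [hy]
    exact T1_mem hC (hP u y) (by rw [T1_norm]; norm_num)
  · intro x
    show x.1 0 • C + cone H (0, Fin.tail x.1) = _
    rw [T1_cone1_eq H 0 f h0]
  · intro x
    show x.1 0 • C + cone H (1, Fin.tail x.1) = _
    rw [T1_cone1_eq H 1 g h1]

theorem T1_line (k : ℕ) {A : ε → Matrix ι ι ℝ} {C S : Matrix ι ι ℝ} (hC : C ∈ Grad A)
    (hS : S ∈ SymX (addg A C)) :
    HIn (SymX A) (fun x : Sp (k + 1) => x.1 0 • C + nr (Fin.tail x.1) • S) (fun _ => S) := by
  refine ⟨fun p => ((1 - (p.1 : ℝ)) * p.2.1 0) • C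
    + ((1 - (p.1 : ℝ)) * nr (Fin.tail p.2.1) + (p.1 : ℝ)) • S, ?_, ?_, ?_, ?_⟩
  · have h1 : Continuous fun p : I × Sp (k + 1) => p.2.1 0 := T1_head_cont.comp continuous_snd
    have h2 : Continuous fun p : I × Sp (k + 1) => nr (Fin.tail p.2.1) :=
      continuous_nr.comp (T1_tail_cont.comp continuous_snd)
    have h3 : Continuous fun p : I × Sp (k + 1) => (p.1 : ℝ) :=
      continuous_subtype_val.comp continuous_fst
    exact (((continuous_const.sub h3).mul h1).smul continuous_const).add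
      ((((continuous_const.sub h3).mul h2).add h3).smul continuous_const)
  · intro u x
    refine T1_mem hC hS ?_
    have hn := T1_norm x
    have h2 := nr_nonneg (Fin.tail x.1)
    have hu0 := u.2.1
    have hu1 := u.2.2
    show 0 < ((1 - (u : ℝ)) * x.1 0) ^ 2 + ((1 - (u : ℝ)) * nr (Fin.tail x.1) + (u : ℝ)) ^ 2
    generalize nr (Fin.tail x.1) = r at *
    generalize x.1 0 = a at *
    generalize (u : ℝ) = w at *
    rcases hu0.eq_or_lt with h | h
    · rw [← h]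
      norm_num
      rw [hn]
      norm_num
    · have h3 : 0 < (1 - w) * r + w := by
        have := mul_nonneg (sub_nonneg.2 hu1) h2
        linarith
      positivity
  · intro x
    simp
  · intro x
    simp

theorem T1_conj {A : ε → Matrix ι ι ℝ} {B : ε → Matrix ι' ι' ℝ} {O : Matrix ι ι' ℝ}
    (h1 : O * Oᵀ = 1) (h2 : Oᵀ * O = 1) (h3 : ∀ i, Oᵀ * A i * O = B i) {M : Matrix ι' ι' ℝ}
    (hM : M ∈ SymX B) : O * M * Oᵀ ∈ SymX A := by
  obtain ⟨⟨m1, m2⟩, m3⟩ := hM
  have hl : ∀ i, Oᵀ * A i = B i * Oᵀ := by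
    intro i
    rw [← h3 i, Matrix.mul_assoc (Oᵀ * A i), h1, Matrix.mul_one]
  have hr : ∀ i, A i * O = O * B i := by
    intro i
    rw [← h3 i, ← Matrix.mul_assoc, ← Matrix.mul_assoc, h1, Matrix.one_mul]
  refine ⟨⟨?_, fun i => ?_⟩, ?_⟩
  · rw [transpose_mul, transpose_mul, transpose_transpose, m1, Matrix.mul_assoc]
  · rw [Matrix.mul_assoc, hl i, ← Matrix.mul_assoc, Matrix.mul_assoc O M, m2 i, Matrix.mul_neg,
      Matrix.neg_mul, ← Matrix.mul_assoc O, ← hr i]
    simp only [Matrix.mul_assoc]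
  · have hdet : IsUnit M.det := (Matrix.isUnit_iff_isUnit_det M).1 m3
    have e1 : O * M * Oᵀ * (O * M⁻¹ * Oᵀ) = 1 := by
      calc O * M * Oᵀ * (O * M⁻¹ * Oᵀ) = O * M * (Oᵀ * O) * M⁻¹ * Oᵀ := by
            simp only [Matrix.mul_assoc]
        _ = O * (M * M⁻¹) * Oᵀ := by rw [h2, Matrix.mul_one]; simp only [Matrix.mul_assoc]
        _ = 1 := by rw [Matrix.mul_nonsing_inv _ hdet, Matrix.mul_one, h1]
    exact (Matrix.isUnit_iff_isUnit_det _).2 (Matrix.isUnit_det_of_right_inverse e1)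

theorem T1_csum_cons {k : ℕ} (W : Matrix ι ι ℝ) (c : Fin (k + 1) → Matrix ι ι ℝ)
    (x : Fin (k + 2) → ℝ) :
    csum (Fin.cons W c : Fin (k + 2) → Matrix ι ι ℝ) x = x 0 • W + csum c (Fin.tail x) := by
  unfold csum
  rw [Fin.sum_univ_succ]
  rfl

theorem T1_csum_smul {k : ℕ} (c : Fin (k + 1) → Matrix ι ι ℝ) (r : ℝ) (v : Fin (k + 1) → ℝ) :
    csum c (r • v) = r • csum c v := by
  unfold csum
  rw [Finset.smul_sum]
  refine Finset.sum_congr rfl fun i _ => ?_
  rw [Pi.smul_apply, smul_eq_mul, mul_smul]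

theorem T1_csum_cont {k : ℕ} (c : Fin (k + 1) → Matrix ι ι ℝ) :
    Continuous fun x : Sp k => csum c x.1 := by
  unfold csum
  exact continuous_finset_sum _ fun i _ =>
    ((continuous_apply i).comp continuous_subtype_val).smul continuous_const

theorem T1_csum_grad {k : ℕ} {e : ε → Matrix ι ι ℝ} {c : Fin (k + 1) → Matrix ι ι ℝ}
    (h : ClSys (Sum.elim e c)) {v : Fin (k + 1) → ℝ} (hv : v ∈ US (Fin (k + 1))) :
    csum c v ∈ Grad e := by
  have hc1 : ∀ i, (c i)ᵀ = c i := fun i => (h.1 (Sum.inr i)).1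
  have hc2 : ∀ i, c i * c i = 1 := fun i => (h.1 (Sum.inr i)).2
  have hc3 : ∀ i j, i ≠ j → c i * c j = -(c j * c i) := fun i j hij =>
    h.2 (Sum.inr i) (Sum.inr j) (fun h' => hij (Sum.inr.inj h'))
  have hc4 : ∀ i j, c i * e j = -(e j * c i) := fun i j =>
    h.2 (Sum.inr i) (Sum.inl j) (by simp)
  refine ⟨⟨?_, fun j => ?_⟩, ?_⟩
  · unfold csum
    rw [Matrix.transpose_sum]
    refine Finset.sum_congr rfl fun i _ => ?_
    rw [transpose_smul, hc1]
  · unfold csum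
    rw [Finset.sum_mul, Finset.mul_sum, ← Finset.sum_neg_distrib]
    refine Finset.sum_congr rfl fun i _ => ?_
    rw [smul_mul_assoc, mul_smul_comm, hc4, smul_neg]
  · have e1 : csum c v * csum c v = ∑ i, ∑ j, (v i * v j) • (c i * c j) := by
      unfold csum
      rw [Finset.sum_mul]
      refine Finset.sum_congr rfl fun i _ => ?_
      rw [Finset.mul_sum]
      refine Finset.sum_congr rfl fun j _ => ?_
      rw [smul_mul_assoc, mul_smul_comm, smul_smul]
    have e2 : csum c v * csum c v = ∑ i, ∑ j, (v i * v j) • (c j * c i) := by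
      rw [e1, Finset.sum_comm]
      refine Finset.sum_congr rfl fun i _ => Finset.sum_congr rfl fun j _ => ?_
      rw [mul_comm (v j)]
    have e3 : (2 : ℝ) • (csum c v * csum c v) = (2 : ℝ) • (1 : Matrix ι ι ℝ) := by
      rw [two_smul]
      nth_rewrite 1 [e1]
      rw [e2, ← Finset.sum_add_distrib]
      have e4 : ∀ i, (∑ j, (v i * v j) • (c i * c j) + ∑ j, (v i * v j) • (c j * c i))
          = (v i * v i) • ((2 : ℝ) • (1 : Matrix ι ι ℝ)) := by
        intro i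
        rw [← Finset.sum_add_distrib, Finset.sum_eq_single i]
        · rw [← smul_add, hc2, two_smul]
        · intro j _ hj
          rw [hc3 i j hj.symm, smul_neg, neg_add_cancel]
        · intro h'
          exact absurd (Finset.mem_univ i) h'
      rw [Finset.sum_congr rfl fun i _ => e4 i, ← Finset.sum_smul]
      have e5 : ∑ i, v i * v i = 1 := hv
      rw [e5, one_smul]
    exact smul_right_injective _ (two_ne_zero' ℝ) e3

end aux

/-- transport of the conclusion along a bijection of the index types -/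
theorem T1_reindex {k : ℕ} {ε ι Λ ι' κ κ' : Type} [Fintype ι] [DecidableEq ι] [Fintype Λ]
    [DecidableEq Λ] [Fintype ι'] [DecidableEq ι'] [Fintype κ] [DecidableEq κ] [Fintype κ']
    [DecidableEq κ'] (s : Λ ≃ ι ⊕ ι') (e : ε → Matrix ι ι ℝ) (e' : ε → Matrix ι' ι' ℝ)
    (E : ε → Matrix Λ Λ ℝ) (hE : ∀ i, (esum e e' i).submatrix s s = E i)
    (F : Sp k → Matrix ι ι ℝ) (c' : Matrix ι' ι' ℝ) (B : ε → Matrix (κ ⊕ κ') (κ ⊕ κ') ℝ)
    (G : Sp k → Matrix (κ ⊕ κ') (κ ⊕ κ') ℝ) (O : Matrix Λ (κ ⊕ κ') ℝ)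
    (h1 : O * Oᵀ = 1) (h2 : Oᵀ * O = 1) (h3 : ∀ i, Oᵀ * E i * O = B i)
    (h4 : HIn (SymX E) (fun x => (fromBlocks (F x) 0 0 c').submatrix s s)
      (fun x => O * G x * Oᵀ)) :
    ∃ O' : Matrix (ι ⊕ ι') (κ ⊕ κ') ℝ, O' * O'ᵀ = 1 ∧ O'ᵀ * O' = 1 ∧
      (∀ i, O'ᵀ * esum e e' i * O' = B i) ∧
      HIn (SymX (esum e e')) (fun x => fromBlocks (F x) 0 0 c') (fun x => O' * G x * O'ᵀ) := by
  have hO : ∀ M : Matrix (κ ⊕ κ') (κ ⊕ κ') ℝ,
      O.submatrix s.symm id * M * (O.submatrix s.symm id)ᵀ = (O * M * Oᵀ).submatrix s.symm s.symm := by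
    intro M
    rw [transpose_submatrix]
    ext a b
    simp only [Matrix.mul_apply, submatrix_apply, id]
  refine ⟨O.submatrix s.symm id, ?_, ?_, fun i => ?_, ?_⟩
  · have := hO 1
    rw [Matrix.mul_one, Matrix.mul_one, h1, submatrix_one_equiv] at this
    exact this
  · rw [← h2, transpose_submatrix]
    exact Matrix.submatrix_mul_equiv Oᵀ O id s.symm id
  · rw [← h3 i, ← hE i, transpose_submatrix]
    have e1 : esum e e' i = ((esum e e' i).submatrix s s).submatrix s.symm s.symm := by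
      rw [submatrix_submatrix]
      simp
    nth_rewrite 1 [e1]
    rw [Matrix.submatrix_mul_equiv, Matrix.submatrix_mul_equiv]
    rfl
  · have hS : ∀ S, S ∈ SymX E → S.submatrix s.symm s.symm ∈ SymX (esum e e') := by
      rintro S ⟨⟨s1, s2⟩, s3⟩
      have hE' : ∀ i, esum e e' i = (E i).submatrix s.symm s.symm := by
        intro i
        rw [← hE i, submatrix_submatrix]
        simp
      refine ⟨⟨?_, fun i => ?_⟩, ?_⟩
      · rw [transpose_submatrix, s1]
      · rw [hE' i, Matrix.submatrix_mul_equiv, Matrix.submatrix_mul_equiv, s2 i]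
        rfl
      · rw [Matrix.isUnit_submatrix_equiv]
        exact s3
    have h5 := h4.map' (B := SymX (esum e e')) (fun M => M.submatrix s.symm s.symm)
      (continuous_id.matrix_submatrix _ _) hS
    have e1 : (fun x : Sp k => ((fromBlocks (F x) 0 0 c').submatrix s s).submatrix s.symm s.symm)
        = fun x => fromBlocks (F x) 0 0 c' := by
      funext x
      rw [submatrix_submatrix]
      simp
    have e2 : (fun x : Sp k => (O * G x * Oᵀ).submatrix s.symm s.symm)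
        = fun x => O.submatrix s.symm id * G x * (O.submatrix s.symm id)ᵀ := by
      funext x
      rw [hO]
    rw [e1, e2] at h5
    exact h5

theorem T1 (k : ℕ) : ∀ {ε ι : Type} [Fintype ι] [DecidableEq ι] (e : ε → Matrix ι ι ℝ)
    (_ : ClSys e) (F : Sp k → Matrix ι ι ℝ) (_ : Continuous F) (_ : ∀ x, F x ∈ SymX e),
    ∃ (ι' κ κ' : Type) (_ : Fintype ι') (_ : DecidableEq ι') (_ : Fintype κ)
      (_ : DecidableEq κ) (_ : Fintype κ') (_ : DecidableEq κ')
      (e' : ε → Matrix ι' ι' ℝ) (c' : Matrix ι' ι' ℝ) (eW : ε → Matrix κ κ ℝ)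
      (c : Fin (k + 1) → Matrix κ κ ℝ) (e0 : ε → Matrix κ' κ' ℝ) (D : Matrix κ' κ' ℝ)
      (O : Matrix (ι ⊕ ι') (κ ⊕ κ') ℝ),
      ClSys e' ∧ c' ∈ SymX e' ∧ ClSys (Sum.elim eW c) ∧ ClSys e0 ∧ D ∈ SymX e0 ∧
      O * Oᵀ = 1 ∧ Oᵀ * O = 1 ∧ (∀ i, Oᵀ * esum e e' i * O = esum eW e0 i) ∧
      HIn (SymX (esum e e')) (fun x => fromBlocks (F x) 0 0 c')
        (fun x => O * fromBlocks (csum c x.1) 0 0 D * Oᵀ) := by
  induction k with
  | zero =>
    intro ε ι _ _ e he F hF hS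
    obtain ⟨κ, κ', i1, i2, i3, i4, eW, c, e0, D, O, r1, r2, r3, r4, r5, r6, r7⟩ :=
      T1_zero e he F hF hS
    have hz : ClSys (fun _ : ε => (0 : Matrix Empty Empty ℝ)) :=
      ⟨fun i => ⟨Subsingleton.elim _ _, Subsingleton.elim _ _⟩, fun i j _ => Subsingleton.elim _ _⟩
    have hz' : (0 : Matrix Empty Empty ℝ) ∈ SymX (fun _ : ε => (0 : Matrix Empty Empty ℝ)) :=
      ⟨⟨Subsingleton.elim _ _, fun i => Subsingleton.elim _ _⟩, isUnit_of_subsingleton _⟩
    have hcl : ClSys (Sum.elim eW (fun _ : Fin 1 => c)) := by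
      refine ⟨?_, ?_⟩
      · rintro (i | i)
        · exact r1.1 (Sum.inl i)
        · exact r1.1 (Sum.inr ())
      · rintro (i | i) (j | j) hij
        · exact r1.2 (Sum.inl i) (Sum.inl j) (fun h => hij (by rw [Sum.inl.inj h]))
        · exact r1.2 (Sum.inl i) (Sum.inr ()) (by simp)
        · exact r1.2 (Sum.inr ()) (Sum.inl j) (by simp)
        · exact absurd (by rw [Subsingleton.elim i j]) hij
    have hsub : ∀ M : Matrix ι ι ℝ, (fromBlocks M 0 0 (0 : Matrix Empty Empty ℝ)).submatrix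
        (Equiv.sumEmpty ι Empty).symm (Equiv.sumEmpty ι Empty).symm = M := fun M => rfl
    have hcs : ∀ x : Sp 0, csum (fun _ : Fin 1 => c) x.1 = x.1 0 • c := by
      intro x
      unfold csum
      simp
    have h7 : HIn (SymX e) (fun x => (fromBlocks (F x) 0 0 (0 : Matrix Empty Empty ℝ)).submatrix
        (Equiv.sumEmpty ι Empty).symm (Equiv.sumEmpty ι Empty).symm)
        (fun x => O * fromBlocks (csum (fun _ : Fin 1 => c) x.1) 0 0 D * Oᵀ) := by
      have e1 : (fun x : Sp 0 => O * fromBlocks (csum (fun _ : Fin 1 => c) x.1) 0 0 D * Oᵀ)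
          = fun x => O * fromBlocks (x.1 0 • c) 0 0 D * Oᵀ := by
        funext x
        rw [hcs]
      rw [e1]
      exact r7
    obtain ⟨O', o1, o2, o3, o4⟩ := T1_reindex (Equiv.sumEmpty ι Empty).symm e (fun _ => 0) e
      (fun i => hsub _) F 0 (esum eW e0)
      (fun x => fromBlocks (csum (fun _ : Fin 1 => c) x.1) 0 0 D) O r4 r5 r6 h7
    exact ⟨Empty, κ, κ', inferInstance, inferInstance, i1, i2, i3, i4, fun _ => 0, 0, eW,
      fun _ => c, e0, D, O', hz, hz', hcl, r2, r3, o1, o2, o3, o4⟩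
  | succ k ih =>
    intro ε ι _ _ e he F hF hS
    obtain ⟨ι₁, i1, i2, e₁, c₁', c₁, G, b1, b2, b3, b4, b5, b6⟩ := lemB k e he F hF hS
    have hE0 : ClSys (esum e e₁) := Lin_clSys_sum he b1
    have hE : ClSys (addg (esum e e₁) c₁) := T1_cl_grad hE0 b3
    obtain ⟨ι₂, κ, κ', j1, j2, j3, j4, j5, j6, e₂, c₂', eW, c₂, e0, D, O, q1, q2, q3, q4, q5, q6, q7,
      q8, q9⟩ := ih (addg (esum e e₁) c₁) hE G b4 (fun y => Grad_subset_SymX _ (b5 y))
    -- the target family of generators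
    set A : ε → Matrix ((ι ⊕ ι₁) ⊕ ι₂) ((ι ⊕ ι₁) ⊕ ι₂) ℝ :=
      esum (esum e e₁) (fun i => e₂ (Sum.inl i)) with hA
    set C : Matrix ((ι ⊕ ι₁) ⊕ ι₂) ((ι ⊕ ι₁) ⊕ ι₂) ℝ :=
      fromBlocks c₁ 0 0 (e₂ (Sum.inr ())) with hC
    have hadd : addg A C = esum (addg (esum e e₁) c₁) e₂ := by
      funext i
      rcases i with i | i <;> rfl
    have hCg : C ∈ Grad A := Lin_grad_sum b3 (T1_cl_inr q1)
    -- step 1
    have hl2 := T1_line k (T1_cl_inr q1) (S := c₂') (by rw [T1_addg_eta]; exact q2)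
    have s1 : HIn (SymX A)
        (fun x : Sp (k + 1) => fromBlocks (fromBlocks (F x) 0 0 c₁') 0 0 c₂')
        (fun x => fromBlocks (x.1 0 • c₁ + cone1 G (Fin.tail x.1)) 0 0
          (x.1 0 • e₂ (Sum.inr ()) + nr (Fin.tail x.1) • c₂')) :=
      b6.map₂ hl2.symm (fun Y Z => fromBlocks Y 0 0 Z)
        (continuous_fst.matrix_fromBlocks continuous_const continuous_const continuous_snd)
        (fun y hy z hz => ⟨Lin_symL_sum hy.1 hz.1, Lin_isUnit_sum hy.2 hz.2⟩)
    have s2 : (fun x : Sp (k + 1) => fromBlocks (x.1 0 • c₁ + cone1 G (Fin.tail x.1)) 0 0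
          (x.1 0 • e₂ (Sum.inr ()) + nr (Fin.tail x.1) • c₂'))
        = fun x => x.1 0 • C + cone1 (fun y => fromBlocks (G y) 0 0 c₂') (Fin.tail x.1) := by
      funext x
      have h1 : cone1 (fun y => fromBlocks (G y) 0 0 c₂') (Fin.tail x.1)
          = fromBlocks (cone1 G (Fin.tail x.1)) 0 0 (nr (Fin.tail x.1) • c₂') := by
        by_cases hv : Fin.tail x.1 = 0
        · unfold cone1
          rw [hv, cone_zero, cone_zero, cone_nr_zero, zero_smul]
          simp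
        · unfold cone1
          rw [cone_eq_of_ne _ _ hv, cone_eq_of_ne _ _ hv, fromBlocks_smul]
          simp
      rw [h1, hC, fromBlocks_smul, fromBlocks_add]
      simp
    have s3 := T1_beta hCg (by rw [hadd]; exact q9)
    -- the middle
    have hCO : C = O * fromBlocks (eW (Sum.inr ())) 0 0 (e0 (Sum.inr ())) * Oᵀ := by
      have h1 := q8 (Sum.inr ())
      have h2 : esum (addg (esum e e₁) c₁) e₂ (Sum.inr ()) = C := rfl
      have h3 : esum eW e0 (Sum.inr ()) =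
          fromBlocks (eW (Sum.inr ())) 0 0 (e0 (Sum.inr ())) := rfl
      rw [← h3, ← h1, h2]
      calc C = (O * Oᵀ) * C * (O * Oᵀ) := by rw [q6, Matrix.one_mul, Matrix.mul_one]
        _ = O * (Oᵀ * C * O) * Oᵀ := by simp only [Matrix.mul_assoc]
    have s4 : (fun x : Sp (k + 1) => x.1 0 • C
          + cone1 (fun y : Sp k => O * fromBlocks (csum c₂ y.1) 0 0 D * Oᵀ) (Fin.tail x.1))
        = fun x => O * fromBlocks (csum (Fin.cons (eW (Sum.inr ())) c₂ :
            Fin (k + 2) → Matrix κ κ ℝ) x.1) 0 0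
          (x.1 0 • e0 (Sum.inr ()) + nr (Fin.tail x.1) • D) * Oᵀ := by
      funext x
      have h1 : cone1 (fun y : Sp k => O * fromBlocks (csum c₂ y.1) 0 0 D * Oᵀ) (Fin.tail x.1)
          = O * fromBlocks (csum c₂ (Fin.tail x.1)) 0 0 (nr (Fin.tail x.1) • D) * Oᵀ := by
        by_cases hv : Fin.tail x.1 = 0
        · unfold cone1
          rw [hv, cone_zero, cone_nr_zero, zero_smul]
          have : csum c₂ (0 : Fin (k + 1) → ℝ) = 0 := by
            unfold csum
            simp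
          rw [this]
          simp
        · unfold cone1
          rw [cone_eq_of_ne _ _ hv]
          have h2 : csum c₂ (Fin.tail x.1) = nr (Fin.tail x.1) • csum c₂ (nrm (Fin.tail x.1)) := by
            rw [← T1_csum_smul, nr_smul_nrm]
          have h3 : fromBlocks (csum c₂ (Fin.tail x.1)) 0 0 (nr (Fin.tail x.1) • D)
              = nr (Fin.tail x.1) • fromBlocks (csum c₂ (nrm (Fin.tail x.1))) 0 0 D := by
            rw [fromBlocks_smul, ← h2]
            simp
          rw [h3, Matrix.mul_smul, Matrix.smul_mul]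
      have h4 : fromBlocks (csum (Fin.cons (eW (Sum.inr ())) c₂ :
            Fin (k + 2) → Matrix κ κ ℝ) x.1) 0 0
          (x.1 0 • e0 (Sum.inr ()) + nr (Fin.tail x.1) • D)
          = x.1 0 • fromBlocks (eW (Sum.inr ())) 0 0 (e0 (Sum.inr ()))
            + fromBlocks (csum c₂ (Fin.tail x.1)) 0 0 (nr (Fin.tail x.1) • D) := by
        rw [T1_csum_cons, fromBlocks_smul, fromBlocks_add]
        simp
      rw [h1, h4, Matrix.mul_add, Matrix.add_mul, Matrix.mul_smul, Matrix.smul_mul, ← hCO]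
    -- the last step
    have hW : ClSys (Sum.elim (fun i => eW (Sum.inl i)) (Fin.cons (eW (Sum.inr ())) c₂ :
        Fin (k + 2) → Matrix κ κ ℝ)) := by
      have hcons : ∀ i : Fin (k + 2), (Fin.cons (eW (Sum.inr ())) c₂ :
          Fin (k + 2) → Matrix κ κ ℝ) i = Sum.elim eW c₂
            (Fin.cases (Sum.inl (Sum.inr ())) (fun j => Sum.inr j) i) := by
        intro i
        refine Fin.cases ?_ (fun j => ?_) i <;> rfl
      have hinj : ∀ i j : Fin (k + 2), i ≠ j →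
          (Fin.cases (Sum.inl (Sum.inr ())) (fun j => Sum.inr j) i : (ε ⊕ Unit) ⊕ Fin (k + 1)) ≠
            Fin.cases (Sum.inl (Sum.inr ())) (fun j => Sum.inr j) j := by
        intro i j
        refine Fin.cases ?_ (fun i' => ?_) i <;> refine Fin.cases ?_ (fun j' => ?_) j
        · intro h; exact absurd rfl h
        · intro _; simp
        · intro _; simp
        · intro h h'
          have h2 : i' = j' := Sum.inr.inj h'
          exact h (by rw [h2])
      refine ⟨?_, ?_⟩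
      · rintro (i | i)
        · exact q3.1 (Sum.inl (Sum.inl i))
        · simp only [Sum.elim_inr, hcons]
          exact q3.1 _
      · rintro (i | i) (j | j) hij
        · exact q3.2 (Sum.inl (Sum.inl i)) (Sum.inl (Sum.inl j))
            (fun h => hij (by rw [Sum.inl.inj (Sum.inl.inj h)]))
        · simp only [Sum.elim_inr, Sum.elim_inl, hcons]
          refine q3.2 (Sum.inl (Sum.inl i)) _ ?_
          refine Fin.cases ?_ (fun j' => ?_) j <;> simp
        · simp only [Sum.elim_inr, Sum.elim_inl, hcons]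
          refine q3.2 _ (Sum.inl (Sum.inl j)) ?_
          refine Fin.cases ?_ (fun j' => ?_) i <;> simp
        · simp only [Sum.elim_inr, hcons]
          exact q3.2 _ _ (hinj i j (fun h => hij (by rw [h])))
    have hl0 := T1_line k (T1_cl_inr q4) (S := D) (by rw [T1_addg_eta]; exact q5)
    have hcs : HIn (SymX fun i => eW (Sum.inl i))
        (fun x : Sp (k + 1) => csum (Fin.cons (eW (Sum.inr ())) c₂ :
            Fin (k + 2) → Matrix κ κ ℝ) x.1)
        (fun x : Sp (k + 1) => csum (Fin.cons (eW (Sum.inr ())) c₂ :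
            Fin (k + 2) → Matrix κ κ ℝ) x.1) :=
      HIn.refl (T1_csum_cont _) (fun x => Grad_subset_SymX _ (T1_csum_grad hW x.2))
    have s5 : HIn (SymX A)
        (fun x : Sp (k + 1) => O * fromBlocks (csum (Fin.cons (eW (Sum.inr ())) c₂ :
            Fin (k + 2) → Matrix κ κ ℝ) x.1) 0 0
          (x.1 0 • e0 (Sum.inr ()) + nr (Fin.tail x.1) • D) * Oᵀ)
        (fun x => O * fromBlocks (csum (Fin.cons (eW (Sum.inr ())) c₂ :
            Fin (k + 2) → Matrix κ κ ℝ) x.1) 0 0 D * Oᵀ) := by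
      refine hcs.map₂ hl0 (fun Y Z => O * fromBlocks Y 0 0 Z * Oᵀ) ?_ ?_
      · exact (continuous_const.matrix_mul (continuous_fst.matrix_fromBlocks continuous_const
          continuous_const continuous_snd)).matrix_mul continuous_const
      · intro y hy z hz
        exact T1_conj (B := esum (fun i => eW (Sum.inl i)) (fun i => e0 (Sum.inl i))) q6 q7
          (fun i => q8 (Sum.inl i)) ⟨Lin_symL_sum hy.1 hz.1, Lin_isUnit_sum hy.2 hz.2⟩
    rw [s2] at s1
    rw [s4] at s3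
    have hall := (s1.trans s3).trans s5
    -- reindexing
    have hsub : ∀ (X : Matrix ι ι ℝ) (Y : Matrix ι₁ ι₁ ℝ) (Z : Matrix ι₂ ι₂ ℝ),
        (fromBlocks X 0 0 (fromBlocks Y 0 0 Z)).submatrix (Equiv.sumAssoc ι ι₁ ι₂)
          (Equiv.sumAssoc ι ι₁ ι₂) = fromBlocks (fromBlocks X 0 0 Y) 0 0 Z := by
      intro X Y Z
      ext x y
      rcases x with (x | x) | x <;> rcases y with (y | y) | y <;> rfl
    have hall2 : HIn (SymX A)
        (fun x : Sp (k + 1) => (fromBlocks (F x) 0 0 (fromBlocks c₁' 0 0 c₂')).submatrix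
          (Equiv.sumAssoc ι ι₁ ι₂) (Equiv.sumAssoc ι ι₁ ι₂))
        (fun x => O * fromBlocks (csum (Fin.cons (eW (Sum.inr ())) c₂ :
            Fin (k + 2) → Matrix κ κ ℝ) x.1) 0 0 D * Oᵀ) := by
      simp only [hsub]
      exact hall
    obtain ⟨O', o1, o2, o3, o4⟩ := T1_reindex (Equiv.sumAssoc ι ι₁ ι₂) e
      (esum e₁ (fun i => e₂ (Sum.inl i))) A (fun i => hsub _ _ _) F (fromBlocks c₁' 0 0 c₂')
      (esum (fun i => eW (Sum.inl i)) (fun i => e0 (Sum.inl i)))
      (fun x => fromBlocks (csum (Fin.cons (eW (Sum.inr ())) c₂ :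
            Fin (k + 2) → Matrix κ κ ℝ) x.1) 0 0 D) O q6 q7 (fun i => q8 (Sum.inl i)) hall2
    refine ⟨ι₁ ⊕ ι₂, κ, κ', inferInstance, inferInstance, j3, j4, j5, j6,
      esum e₁ (fun i => e₂ (Sum.inl i)), fromBlocks c₁' 0 0 c₂', fun i => eW (Sum.inl i),
      Fin.cons (eW (Sum.inr ())) c₂, fun i => e0 (Sum.inl i), D, O',
      Lin_clSys_sum b1 (T1_cl_inl q1), ?_, hW, T1_cl_inl q4, ?_, o1, o2, o3, o4⟩
    · have h1 : c₂' ∈ SymX (fun i => e₂ (Sum.inl i)) :=
        ⟨⟨q2.1.1, fun i => q2.1.2 (Sum.inl i)⟩, q2.2⟩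
      exact ⟨Lin_symL_sum b2.1 h1.1, Lin_isUnit_sum b2.2 h1.2⟩
    · exact ⟨⟨q5.1.1, fun i => q5.1.2 (Sum.inl i)⟩, q5.2⟩

end DT
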