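import Pool.Agent.H78.DT.Cone
import Pool.Agent.H78.DT.T1
import Pool.Agent.H78.DT.StHDef
import Pool.Agent.H78.DT.InvNf
import Pool.Agent.H78.DT.GlPath

/-!
# Every `f : Sⁿ → SO(m)` is stably a Clifford map (job DT-T2)

PROOF. Apply `T1 n` with `ε = Unit`, `ι = Fin m ⊕ Fin m`, `e () = fromBlocks 1 0 0 (-1)`,
`F x = fromBlocks 0 (f x)ᵀ (f x) 0` (symmetric, square `1`, anticommutes with `e ()`).  It gives
`ι', κ, κ', e', c', eW, c : Fin (n+1) → _, e0, D, O`.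
By `inv_nf` for `(e', c')`: `Q' : ι' × (Fin r ⊕ Fin r)`; by `inv_nf'` for `(eW, c 0)`
(`c 0 ∈ Grad eW` from `ClSys (Sum.elim eW c)`): `Q_W : κ × (Fin p ⊕ Fin p)`; by `inv_nf` for
`(e0, D)`: `Q₀ : κ' × (Fin s ⊕ Fin s)`.
Conjugating with `1 ⊕ Q'` on the left side and using `O' = (1 ⊕ Q')ᵀ O (Q_W ⊕ Q₀)`, an orthogonal
matrix from `(Fin p ⊕ Fin p) ⊕ (Fin s ⊕ Fin s)` to `(Fin m ⊕ Fin m) ⊕ (Fin r ⊕ Fin r)` which
intertwines the involutions `diag(1,-1) ⊕ diag(1,-1)` on both sides, we get a homotopy in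
`SymX (diag(1,-1) ⊕ diag(1,-1))` from `F ⊕ c'_Q` to `O' (csum c_Q x ⊕ D_Q) O'ᵀ`.
Matrices anticommuting with `diag(1,-1) ⊕ diag(1,-1)` are determined by their lower left block
(from the `+` part `Fin m ⊕ Fin r` to the `-` part `Fin m ⊕ Fin r`); it is invertible if the
matrix is (symmetric).  `O'` is block diagonal for `(+, -)`: `O'_+, O'_- :
(Fin m ⊕ Fin r) × (Fin p ⊕ Fin s)`, both orthogonal (square: `m + r = p + s`).
Write `c'_Q = [[0, C'ᵀ], [C', 0]]`, `D_Q = [[0, D₁ᵀ], [D₁, 0]]`,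
`(c_i)_Q = [[0, A_iᵀ], [A_i, 0]]` with `A_0 = 1`.  From `c_i² = 1`, `c_0 c_i = -c_i c_0`
(`i ≥ 1`): `A_iᵀ A_i = 1`, `A_i + A_iᵀ = 0`, so `A_i² = -1`; and `A_iᵀ A_j = -A_jᵀ A_i`
for `i ≠ j`, i.e. `A_i A_j = -A_j A_i`.  Let `J_i = A_{i+1}`; `CliffJ J`, and the lower left block of
`csum c_Q x` is `X(x) = clJ J x`.
The lower left blocks give a homotopy through invertible matrices from `f ⊕ C'` to
`O'_- (X ⊕ D₁) O'_+ᵀ`.  Multiplying on the left by `1 ⊕ C'⁻¹`: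
`f ⊕ 1 ~ Z₁ (X ⊕ 1) Z₂`, `Z₁ = (1 ⊕ C'⁻¹) O'_-`, `Z₂ = (1 ⊕ D₁) O'_+ᵀ`.
At `x = (1, 0, .., 0)`, `X = 1`; the determinant keeps its sign along the homotopy
(continuous, nonzero) and `det (f ⊕ 1) = 1`, so `Z₁ Z₂ =: V` (square of size `Fin m ⊕ Fin r`) has
positive determinant, and `Z₂ = Z₁⁻¹ V` (`Z₁` is a bijective rectangular matrix, with two-sided
inverse `Z₁⁻¹`).  By `glp_path`, `V ~ 1`, so
`f ⊕ 1 ~ Z₁ (X ⊕ 1) Z₁⁻¹` through invertible matrices.
Finally deform `Z₁` to an orthogonal matrix `Q₁` (`(Fin m ⊕ Fin r) × (Fin p ⊕ Fin s)`):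
choose any bijection to view `Z₁` as a square matrix, and use `exists_polar` with `X` a point.
So `f ⊕ 1 ~ Q₁ (X ⊕ 1) Q₁ᵀ` through invertible matrices; all have positive determinant
(connectedness in the homotopy parameter, for each `x`).  `f ⊕ 1` is in `SOs`;
`Q₁ (X ⊕ 1) Q₁ᵀ` is orthogonal (`Xᵀ X = |x|² = 1`) of positive determinant.  By `retract`
(`Sp n` compact) they are homotopic in `SOs (Fin m ⊕ Fin r)`.
Conjugate by `Q₁ᵀ` to get `StH f (clJ J)` with `κ = Fin p`, `β = Fin s`, `α = Fin r`,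
`Q = Q₁ᵀ` (determinants are unchanged).
-/

open Matrix Set unitInterval Topology

set_option linter.unusedSectionVars false

noncomputable section

namespace DT

section blocks

variable {α β a b : Type} [Fintype α] [DecidableEq α] [Fintype β] [DecidableEq β] [Fintype a]
  [DecidableEq a] [Fintype b] [DecidableEq b]

/-- The sum of two orthogonal matrices with split columns. -/
def T2L (A : Matrix a (α ⊕ α) ℝ) (B : Matrix b (β ⊕ β) ℝ) :
    Matrix (a ⊕ b) ((α ⊕ β) ⊕ (α ⊕ β)) ℝ :=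
  (fromBlocks A 0 0 B).submatrix id (Equiv.sumSumSumComm α β α β)

theorem T2L_mul {A : Matrix a (α ⊕ α) ℝ} {B : Matrix b (β ⊕ β) ℝ} (hA : A * Aᵀ = 1)
    (hB : B * Bᵀ = 1) : T2L A B * (T2L A B)ᵀ = 1 := by
  unfold T2L
  rw [transpose_submatrix, submatrix_mul_equiv, fromBlocks_transpose, fromBlocks_multiply]
  simp [hA, hB]

theorem T2L_conj (A : Matrix a (α ⊕ α) ℝ) (B : Matrix b (β ⊕ β) ℝ) (M : Matrix a a ℝ)
    (N : Matrix b b ℝ) :
    (T2L A B)ᵀ * fromBlocks M 0 0 N * T2L A B =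
      (fromBlocks (Aᵀ * M * A) 0 0 (Bᵀ * N * B)).submatrix (Equiv.sumSumSumComm α β α β)
        (Equiv.sumSumSumComm α β α β) := by
  unfold T2L
  rw [transpose_submatrix, ← submatrix_id_id (fromBlocks M 0 0 N),
    ← submatrix_mul _ _ _ id _ Function.bijective_id,
    ← submatrix_mul _ _ _ id _ Function.bijective_id, fromBlocks_transpose,
    fromBlocks_multiply, fromBlocks_multiply]
  simp

theorem T2L_tmul {A : Matrix a (α ⊕ α) ℝ} {B : Matrix b (β ⊕ β) ℝ} (hA : Aᵀ * A = 1)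
    (hB : Bᵀ * B = 1) : (T2L A B)ᵀ * T2L A B = 1 := by
  unfold T2L
  rw [transpose_submatrix, ← submatrix_mul _ _ _ id _ Function.bijective_id,
    fromBlocks_transpose, fromBlocks_multiply]
  simp [hA, hB]

theorem T2_perm (A₁ A₂ A₃ A₄ : Matrix α α ℝ) (B₁ B₂ B₃ B₄ : Matrix β β ℝ) :
    (fromBlocks (fromBlocks A₁ A₂ A₃ A₄) 0 0 (fromBlocks B₁ B₂ B₃ B₄)).submatrix
        (Equiv.sumSumSumComm α β α β) (Equiv.sumSumSumComm α β α β) =
      fromBlocks (fromBlocks A₁ 0 0 B₁) (fromBlocks A₂ 0 0 B₂) (fromBlocks A₃ 0 0 B₃)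
        (fromBlocks A₄ 0 0 B₄) := by
  ext x y
  rcases x with (x | x) | (x | x) <;> rcases y with (y | y) | (y | y) <;> rfl

/-- Form of a symmetric matrix anticommuting with `diag(1, -1)`. -/
theorem T2_form {M : Matrix (α ⊕ α) (α ⊕ α) ℝ} (hs : Mᵀ = M)
    (ha : M * fromBlocks 1 0 0 (-1) = -(fromBlocks 1 0 0 (-1) * M)) :
    M = fromBlocks 0 M.toBlocks₂₁ᵀ M.toBlocks₂₁ 0 := by
  obtain ⟨A, B, C, D, rfl⟩ : ∃ A B C D, M = fromBlocks A B C D :=
    ⟨_, _, _, _, (fromBlocks_toBlocks M).symm⟩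
  rw [fromBlocks_transpose, fromBlocks_inj] at hs
  rw [fromBlocks_multiply, fromBlocks_multiply, fromBlocks_neg, fromBlocks_inj] at ha
  simp only [mul_zero, zero_mul, Matrix.mul_one, Matrix.one_mul, add_zero, zero_add, mul_neg,
    neg_mul, neg_neg] at ha
  have hA : A = 0 := by
    ext i j
    have := congrFun (congrFun ha.1 i) j
    rw [Matrix.neg_apply] at this
    rw [Matrix.zero_apply]
    linarith
  have hD : D = 0 := by
    ext i j
    have := congrFun (congrFun ha.2.2.2 i) j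
    rw [Matrix.neg_apply] at this
    rw [Matrix.zero_apply]
    linarith
  rw [toBlocks_fromBlocks₂₁, hA, hD, hs.2.1]

theorem T2_form' {M : Matrix (α ⊕ α) (β ⊕ β) ℝ}
    (ha : M * (fromBlocks 1 0 0 (-1) : Matrix (β ⊕ β) (β ⊕ β) ℝ) =
      (fromBlocks 1 0 0 (-1) : Matrix (α ⊕ α) (α ⊕ α) ℝ) * M) :
    M = fromBlocks M.toBlocks₁₁ 0 0 M.toBlocks₂₂ := by
  obtain ⟨A, B, C, D, rfl⟩ : ∃ A B C D, M = fromBlocks A B C D :=
    ⟨_, _, _, _, (fromBlocks_toBlocks M).symm⟩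
  rw [fromBlocks_multiply, fromBlocks_multiply, fromBlocks_inj] at ha
  simp only [Matrix.mul_zero, Matrix.zero_mul, Matrix.mul_one, Matrix.one_mul, add_zero, zero_add,
    Matrix.mul_neg, Matrix.neg_mul] at ha
  have hB : B = 0 := by
    ext i j
    have := congrFun (congrFun ha.2.1 i) j
    rw [Matrix.neg_apply] at this
    rw [Matrix.zero_apply]
    linarith
  have hC : C = 0 := by
    ext i j
    have := congrFun (congrFun ha.2.2.1 i) j
    rw [Matrix.neg_apply] at this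
    rw [Matrix.zero_apply]
    linarith
  rw [toBlocks_fromBlocks₁₁, toBlocks_fromBlocks₂₂, hB, hC]

theorem T2_form_unit {N : Matrix α α ℝ} (h : IsUnit (fromBlocks 0 Nᵀ N 0)) : IsUnit N := by
  obtain ⟨u, hu⟩ := h
  have h1 : fromBlocks 0 Nᵀ N 0 * (↑u⁻¹ : Matrix (α ⊕ α) (α ⊕ α) ℝ) = 1 := by
    rw [← hu]; exact u.mul_inv
  rw [← fromBlocks_toBlocks (↑u⁻¹ : Matrix (α ⊕ α) (α ⊕ α) ℝ), fromBlocks_multiply,
    ← fromBlocks_one, fromBlocks_inj] at h1
  have h2 := h1.2.2.2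
  rw [zero_mul, add_zero] at h2
  exact IsUnit.of_mul_eq_one _ h2

theorem T2_low {E M : Matrix a a ℝ} {L : Matrix a (α ⊕ α) ℝ} (h1 : L * Lᵀ = 1)
    (hE : Lᵀ * E * L = fromBlocks 1 0 0 (-1)) (hs : Mᵀ = M) (ha : M * E = -(E * M)) :
    Lᵀ * M * L = fromBlocks 0 (Lᵀ * M * L).toBlocks₂₁ᵀ (Lᵀ * M * L).toBlocks₂₁ 0 := by
  apply T2_form
  · rw [transpose_mul, transpose_mul, transpose_transpose, hs, Matrix.mul_assoc]
  · rw [← hE]
    have e1 : Lᵀ * M * L * (Lᵀ * E * L) = Lᵀ * (M * E) * L := by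
      calc Lᵀ * M * L * (Lᵀ * E * L) = Lᵀ * M * (L * Lᵀ) * E * L := by
            simp only [Matrix.mul_assoc]
        _ = Lᵀ * (M * E) * L := by rw [h1, Matrix.mul_one]; simp only [Matrix.mul_assoc]
    have e2 : Lᵀ * E * L * (Lᵀ * M * L) = Lᵀ * (E * M) * L := by
      calc Lᵀ * E * L * (Lᵀ * M * L) = Lᵀ * E * (L * Lᵀ) * M * L := by
            simp only [Matrix.mul_assoc]
        _ = Lᵀ * (E * M) * L := by rw [h1, Matrix.mul_one]; simp only [Matrix.mul_assoc]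
    rw [e1, e2, ha]
    simp only [Matrix.mul_neg, Matrix.neg_mul]

theorem T2_conj_unit {M : Matrix a a ℝ} {L : Matrix a b ℝ} (h1 : L * Lᵀ = 1)
    (h2 : Lᵀ * L = 1) (hM : IsUnit M) : IsUnit (Lᵀ * M * L) := by
  have h3 : M * M⁻¹ = 1 := Matrix.mul_nonsing_inv M ((Matrix.isUnit_iff_isUnit_det M).1 hM)
  refine IsUnit.of_mul_eq_one (Lᵀ * M⁻¹ * L) ?_
  calc Lᵀ * M * L * (Lᵀ * M⁻¹ * L) = Lᵀ * M * (L * Lᵀ) * M⁻¹ * L := by
        simp only [Matrix.mul_assoc]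
    _ = Lᵀ * (M * M⁻¹) * L := by rw [h1, Matrix.mul_one]; simp only [Matrix.mul_assoc]
    _ = 1 := by rw [h3, Matrix.mul_one, h2]

theorem T2_low_unit {E M : Matrix a a ℝ} {L : Matrix a (α ⊕ α) ℝ} (h1 : L * Lᵀ = 1)
    (h2 : Lᵀ * L = 1) (hE : Lᵀ * E * L = fromBlocks 1 0 0 (-1)) (hs : Mᵀ = M)
    (ha : M * E = -(E * M)) (hM : IsUnit M) : IsUnit (Lᵀ * M * L).toBlocks₂₁ := by
  apply T2_form_unit
  rw [← T2_low h1 hE hs ha]
  exact T2_conj_unit h1 h2 hM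

end blocks

section cliff

variable {κ : Type} [Fintype κ] [DecidableEq κ]

theorem T2_csum_sq {k : ℕ} {ε : Type} {eW : ε → Matrix κ κ ℝ} {c : Fin (k + 1) → Matrix κ κ ℝ}
    (h : ClSys (Sum.elim eW c)) (v : Fin (k + 1) → ℝ) :
    csum c v * csum c v = (v ⬝ᵥ v) • 1 := by
  have key : ∀ i j, c i * c j + c j * c i = if i = j then (2 : ℝ) • (1 : Matrix κ κ ℝ) else 0 := by
    intro i j
    split_ifs with hij
    · subst hij
      have := (h.1 (Sum.inr i)).2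
      simp only [Sum.elim_inr] at this
      rw [this, two_smul]
    · have := h.2 (Sum.inr i) (Sum.inr j) (by simpa using hij)
      simp only [Sum.elim_inr] at this
      rw [this, neg_add_cancel]
  have e1 : csum c v * csum c v = ∑ i, ∑ j, (v i * v j) • (c i * c j) := by
    unfold csum
    rw [Finset.sum_mul]
    refine Finset.sum_congr rfl fun i _ => ?_
    rw [Finset.mul_sum]
    refine Finset.sum_congr rfl fun j _ => ?_
    rw [smul_mul_smul_comm]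
  have e2 : csum c v * csum c v = ∑ i, ∑ j, (v i * v j) • (c j * c i) := by
    rw [e1, Finset.sum_comm]
    refine Finset.sum_congr rfl fun i _ => Finset.sum_congr rfl fun j _ => ?_
    rw [mul_comm]
  have e3 : csum c v * csum c v + csum c v * csum c v = (2 : ℝ) • ((v ⬝ᵥ v) • 1) := by
    nth_rw 1 [e1]
    rw [e2, ← Finset.sum_add_distrib]
    have : ∀ i, (∑ j, (v i * v j) • (c i * c j) + ∑ j, (v i * v j) • (c j * c i)) =
        (2 : ℝ) • ((v i * v i) • (1 : Matrix κ κ ℝ)) := by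
      intro i
      rw [← Finset.sum_add_distrib, Finset.sum_eq_single i]
      · rw [← smul_add, key, if_pos rfl, smul_comm]
      · intro j _ hj
        rw [← smul_add, key, if_neg (Ne.symm hj), smul_zero]
      · simp
    rw [Finset.sum_congr rfl fun i _ => this i, ← Finset.smul_sum, ← Finset.sum_smul]
    rfl
  rw [← two_smul ℝ] at e3
  exact smul_right_injective _ (two_ne_zero) e3

/-- The normal form of a Clifford system. -/
theorem T2_cliff {k p : ℕ} {eW : Unit → Matrix κ κ ℝ} {c : Fin (k + 1) → Matrix κ κ ℝ}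
    (h : ClSys (Sum.elim eW c)) (Q : Matrix κ (Fin p ⊕ Fin p) ℝ) (h1 : Q * Qᵀ = 1)
    (h2 : Qᵀ * Q = 1) (hE : Qᵀ * eW () * Q = fromBlocks 1 0 0 (-1))
    (h0 : Qᵀ * c 0 * Q = fromBlocks 0 1 1 0) :
    ∃ J : Fin k → Matrix (Fin p) (Fin p) ℝ, CliffJ J ∧
      ∀ v, Qᵀ * csum c v * Q = fromBlocks 0 (clJ J v)ᵀ (clJ J v) 0 := by
  have hlow : ∀ i, Qᵀ * c i * Q = fromBlocks 0 (Qᵀ * c i * Q).toBlocks₂₁ᵀ
      (Qᵀ * c i * Q).toBlocks₂₁ 0 := by
    intro i
    refine T2_low h1 hE (h.1 (Sum.inr i)).1 ?_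
    exact h.2 (Sum.inr i) (Sum.inl ()) (by simp)
  have hmul : ∀ i j, Qᵀ * c i * Q * (Qᵀ * c j * Q) = Qᵀ * (c i * c j) * Q := by
    intro i j
    calc Qᵀ * c i * Q * (Qᵀ * c j * Q) = Qᵀ * c i * (Q * Qᵀ) * c j * Q := by
          simp only [Matrix.mul_assoc]
      _ = Qᵀ * (c i * c j) * Q := by rw [h1, Matrix.mul_one]; simp only [Matrix.mul_assoc]
  set A : Fin (k + 1) → Matrix (Fin p) (Fin p) ℝ := fun i => (Qᵀ * c i * Q).toBlocks₂₁ with hA
  have hA' : ∀ i, Qᵀ * c i * Q = fromBlocks 0 (A i)ᵀ (A i) 0 := hlow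
  have hA0 : A 0 = 1 := by
    simp only [hA]
    rw [h0, toBlocks_fromBlocks₂₁]
  have hsq : ∀ i, (A i)ᵀ * A i = 1 := by
    intro i
    have e := hmul i i
    have h3 : c i * c i = 1 := (h.1 (Sum.inr i)).2
    rw [h3, Matrix.mul_one, h2, hA' i, fromBlocks_multiply, ← fromBlocks_one, fromBlocks_inj] at e
    simpa using e.1
  have hanti : ∀ i j, i ≠ j → (A i)ᵀ * A j = -((A j)ᵀ * A i) := by
    intro i j hij
    have h3 : c i * c j = -(c j * c i) :=
      h.2 (Sum.inr i) (Sum.inr j) (by simpa using hij)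
    have e := hmul i j
    rw [h3, Matrix.mul_neg, Matrix.neg_mul, ← hmul j i, hA' i, hA' j, fromBlocks_multiply,
      fromBlocks_multiply, fromBlocks_neg, fromBlocks_inj] at e
    simpa using e.1
  have hskew : ∀ i : Fin k, (A i.succ)ᵀ = -A i.succ := by
    intro i
    have e := hanti i.succ 0 (Fin.succ_ne_zero i)
    rw [hA0] at e
    simpa using e
  refine ⟨fun i => A i.succ, ⟨fun i => ⟨hskew i, ?_⟩, fun i j hij => ?_⟩, fun v => ?_⟩
  · have e := hsq i.succ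
    rw [hskew i, Matrix.neg_mul] at e
    rw [← e, neg_neg]
  · have e := hanti i.succ j.succ (by simpa using hij)
    rw [hskew i, hskew j, Matrix.neg_mul, Matrix.neg_mul, neg_neg] at e
    rw [← e, neg_neg]
  · have e : Qᵀ * csum c v * Q = ∑ i, v i • (Qᵀ * c i * Q) := by
      unfold csum
      rw [Matrix.mul_sum, Matrix.sum_mul]
      refine Finset.sum_congr rfl fun i _ => ?_
      rw [Matrix.mul_smul, Matrix.smul_mul]
    have hcl : clJ (fun i => A i.succ) v = ∑ i, v i • A i := by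
      unfold clJ
      rw [Fin.sum_univ_succ, hA0]
    rw [e, hcl]
    ext x y
    rw [Matrix.sum_apply]
    rcases x with x | x <;> rcases y with y | y <;>
      simp [hA', Matrix.sum_apply]

theorem T2_orth {k p : ℕ} {eW : Unit → Matrix κ κ ℝ} {c : Fin (k + 1) → Matrix κ κ ℝ}
    (h : ClSys (Sum.elim eW c)) (Q : Matrix κ (Fin p ⊕ Fin p) ℝ) (h1 : Q * Qᵀ = 1)
    (h2 : Qᵀ * Q = 1) {J : Fin k → Matrix (Fin p) (Fin p) ℝ}
    (hJ : ∀ v, Qᵀ * csum c v * Q = fromBlocks 0 (clJ J v)ᵀ (clJ J v) 0)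
    {v : Fin (k + 1) → ℝ} (hv : v ∈ US (Fin (k + 1))) : (clJ J v)ᵀ * clJ J v = 1 := by
  have e : Qᵀ * csum c v * Q * (Qᵀ * csum c v * Q) = 1 := by
    calc Qᵀ * csum c v * Q * (Qᵀ * csum c v * Q)
        = Qᵀ * csum c v * (Q * Qᵀ) * csum c v * Q := by simp only [Matrix.mul_assoc]
      _ = Qᵀ * (csum c v * csum c v) * Q := by
          rw [h1, Matrix.mul_one]; simp only [Matrix.mul_assoc]
      _ = 1 := by
          rw [T2_csum_sq h, show v ⬝ᵥ v = 1 from hv, one_smul, Matrix.mul_one, h2]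
  rw [hJ, fromBlocks_multiply, ← fromBlocks_one, fromBlocks_inj] at e
  simpa using e.1

end cliff

section fin

variable {X ι κ : Type} [TopologicalSpace X] [Fintype ι] [DecidableEq ι] [Fintype κ]
  [DecidableEq κ]

theorem T2_pos {f g : X → Matrix ι ι ℝ} (h : HIn {N | IsUnit N} f g) (hf : ∀ x, 0 < (f x).det) :
    HIn (GLp ι) f g := by
  obtain ⟨H, hc, hU, h0, h1⟩ := h
  refine ⟨H, hc, fun u x => ?_, h0, h1⟩
  show 0 < (H (u, x)).det
  by_contra hcon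
  push Not at hcon
  have hcd : Continuous fun v : I => (H (v, x)).det := (hc.comp (by fun_prop)).matrix_det
  obtain ⟨t, ht⟩ := mem_range_of_exists_le_of_exists_ge (c := 0) hcd ⟨u, hcon⟩
    ⟨0, by rw [h0]; exact (hf x).le⟩
  exact ((Matrix.isUnit_iff_isUnit_det _).1 (hU t x)).ne_zero ht

theorem T2_inv_cont {W : I → Matrix ι ι ℝ} (hW : Continuous W) (hU : ∀ t, IsUnit (W t)) :
    Continuous fun t => (W t)⁻¹ := by
  have h1 : (fun t => (W t)⁻¹) = fun t => ((W t).det)⁻¹ • (W t).adjugate := by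
    funext t
    rw [Matrix.inv_def, Ring.inverse_eq_inv']
  rw [h1]
  exact (hW.matrix_det.inv₀ fun t =>
    ((Matrix.isUnit_iff_isUnit_det _).1 (hU t)).ne_zero).smul hW.matrix_adjugate

theorem T2_stb_det (α : Type) [Fintype α] [DecidableEq α] (M : Matrix ι ι ℝ) :
    (stb α M).det = M.det := by
  unfold stb
  rw [det_fromBlocks_zero₂₁, det_one, mul_one]

theorem T2_stb_tmul (α : Type) [Fintype α] [DecidableEq α] {M : Matrix ι ι ℝ} (h : Mᵀ * M = 1) :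
    (stb α M)ᵀ * stb α M = 1 := by
  unfold stb
  rw [fromBlocks_transpose, fromBlocks_multiply]
  simp [h]

theorem T2_stb_cont (α : Type) [Fintype α] [DecidableEq α] {f : X → Matrix ι ι ℝ}
    (hf : Continuous f) : Continuous fun x => stb α (f x) :=
  hf.matrix_fromBlocks continuous_const continuous_const continuous_const

/-- From invertible to orthogonal matrices. -/
theorem T2_gl [CompactSpace X]
    (f : X → Matrix κ κ ℝ) (Y : X → Matrix ι ι ℝ) (hf : ∀ x, f x ∈ SOs κ)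
    (hY : Continuous Y) (hYo : ∀ x, (Y x)ᵀ * Y x = 1) (x0 : X) (hY0 : Y x0 = 1)
    (Q : Matrix ι κ ℝ) (hQ : Q * Qᵀ = 1) (hQ' : Qᵀ * Q = 1)
    (Z1 Z2 : Matrix ι ι ℝ)
    (h : HIn {N | IsUnit N} (fun x => Q * f x * Qᵀ) (fun x => Z1 * Y x * Z2)) :
    ∃ P : Matrix ι κ ℝ, P * Pᵀ = 1 ∧ Pᵀ * P = 1 ∧ HIn (SOs ι) (fun x => P * f x * Pᵀ) Y := by
  have hdet : ∀ (P : Matrix ι κ ℝ), P * Pᵀ = 1 → Pᵀ * P = 1 → ∀ x, (P * f x * Pᵀ).det = 1 := by
    intro P hP hP' x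
    rw [det_conj_of_mul_eq_one hP hP', (hf x).2]
  have hpos := T2_pos h fun x => by rw [hdet Q hQ hQ' x]; exact one_pos
  have hV : 0 < (Z1 * Z2).det := by
    have := hpos.mem_right x0
    rw [hY0, Matrix.mul_one] at this
    exact this
  have hYd : ∀ x, 0 < (Y x).det := by
    intro x
    have h2 : 0 < (Z1 * Y x * Z2).det := hpos.mem_right x
    rw [det_mul, det_mul] at h2
    rw [det_mul] at hV
    by_contra hcon
    push Not at hcon
    have : Z1.det * (Y x).det * Z2.det = (Z1.det * Z2.det) * (Y x).det := by ring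
    nlinarith [mul_nonneg hV.le (neg_nonneg.2 hcon)]
  have hZ1 : IsUnit Z1 := by
    rw [Matrix.isUnit_iff_isUnit_det, isUnit_iff_ne_zero]
    intro h0
    rw [det_mul, h0, zero_mul] at hV
    exact lt_irrefl _ hV
  have hZ1' := Matrix.nonsing_inv_mul Z1 ((Matrix.isUnit_iff_isUnit_det _).1 hZ1)
  have hZd : Z1.det * Z1⁻¹.det = 1 := by
    rw [← det_mul, Matrix.mul_nonsing_inv Z1 ((Matrix.isUnit_iff_isUnit_det _).1 hZ1), det_one]
  -- step 1: remove `V`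
  have s1 : HIn (GLp ι) (fun x => Z1 * Y x * Z2) (fun x => Z1 * Y x * Z1⁻¹) := by
    obtain ⟨γ, hγ, g0, g1, gp⟩ := glp_path (Z1 * Z2) hV
    refine ⟨fun p => Z1 * Y p.2 * Z1⁻¹ * γ p.1, ?_, fun u x => ?_, fun x => ?_, fun x => ?_⟩
    · exact ((continuous_const.matrix_mul (hY.comp continuous_snd)).matrix_mul
        continuous_const).matrix_mul (hγ.comp continuous_fst)
    · show 0 < (Z1 * Y x * Z1⁻¹ * γ u).det
      rw [det_mul, det_mul, det_mul]
      have : Z1.det * (Y x).det * Z1⁻¹.det * (γ u).det = (Y x).det * (γ u).det := by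
        calc _ = (Z1.det * Z1⁻¹.det) * ((Y x).det * (γ u).det) := by ring
          _ = _ := by rw [hZd, one_mul]
      rw [this]
      exact mul_pos (hYd x) (gp u)
    · show Z1 * Y x * Z1⁻¹ * γ 0 = _
      rw [g0]
      calc Z1 * Y x * Z1⁻¹ * (Z1 * Z2) = Z1 * Y x * (Z1⁻¹ * Z1) * Z2 := by
            simp only [Matrix.mul_assoc]
        _ = _ := by rw [hZ1', Matrix.mul_one]
    · show Z1 * Y x * Z1⁻¹ * γ 1 = _
      rw [g1, Matrix.mul_one]
  -- step 2: make `Z1` orthogonal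
  obtain ⟨H, hHc, hH0, hHU, hH1, -, -⟩ := exists_polar (X := Unit) (fun _ => Z1)
    continuous_const (fun _ => hZ1)
  have hWc : Continuous fun t : I => H (t, ()) := hHc.comp (by fun_prop)
  have hWi := T2_inv_cont hWc fun t => hHU (t, ())
  set Q1 := H (1, ()) with hQ1
  have hQ1t : Q1ᵀ * Q1 = 1 := hH1 ()
  have hQ1t' : Q1 * Q1ᵀ = 1 := mul_eq_one_comm.1 hQ1t
  have hQ1i : Q1⁻¹ = Q1ᵀ := Matrix.inv_eq_left_inv hQ1t
  have s2 : HIn (GLp ι) (fun x => Z1 * Y x * Z1⁻¹) (fun x => Q1 * Y x * Q1ᵀ) := by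
    refine ⟨fun p => H (p.1, ()) * Y p.2 * (H (p.1, ()))⁻¹, ?_, fun u x => ?_, fun x => ?_,
      fun x => ?_⟩
    · exact ((hWc.comp continuous_fst).matrix_mul (hY.comp continuous_snd)).matrix_mul
        (hWi.comp continuous_fst)
    · show 0 < (H (u, ()) * Y x * (H (u, ()))⁻¹).det
      have hu := (Matrix.isUnit_iff_isUnit_det _).1 (hHU (u, ()))
      rw [det_conj_of_mul_eq_one (Matrix.mul_nonsing_inv _ hu) (Matrix.nonsing_inv_mul _ hu)]
      exact hYd x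
    · show H (0, ()) * Y x * (H (0, ()))⁻¹ = _
      rw [hH0]
    · show H (1, ()) * Y x * (H (1, ()))⁻¹ = _
      rw [← hQ1, hQ1i]
  have s3 := (hpos.trans s1).trans s2
  have s4 : HIn (GLp ι) (fun x => Q1ᵀ * (Q * f x * Qᵀ) * Q1) (fun x => Q1ᵀ * (Q1 * Y x * Q1ᵀ) * Q1) :=
    s3.map' (fun N => Q1ᵀ * N * Q1)
      ((continuous_const.matrix_mul continuous_id).matrix_mul continuous_const) (by
        intro N hN
        show 0 < (Q1ᵀ * N * Q1).det
        rw [det_conj_of_mul_eq_one hQ1t hQ1t']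
        exact hN)
  refine ⟨Q1ᵀ * Q, ?_, ?_, ?_⟩
  · rw [transpose_mul, transpose_transpose]
    calc Q1ᵀ * Q * (Qᵀ * Q1) = Q1ᵀ * (Q * Qᵀ) * Q1 := by simp only [Matrix.mul_assoc]
      _ = 1 := by rw [hQ, Matrix.mul_one, hQ1t]
  · rw [transpose_mul, transpose_transpose]
    calc Qᵀ * Q1 * (Q1ᵀ * Q) = Qᵀ * (Q1 * Q1ᵀ) * Q := by simp only [Matrix.mul_assoc]
      _ = 1 := by rw [hQ1t', Matrix.mul_one, hQ']
  · have hP : Q1ᵀ * Q * (Q1ᵀ * Q)ᵀ = 1 := by
      rw [transpose_mul, transpose_transpose]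
      calc Q1ᵀ * Q * (Qᵀ * Q1) = Q1ᵀ * (Q * Qᵀ) * Q1 := by simp only [Matrix.mul_assoc]
        _ = 1 := by rw [hQ, Matrix.mul_one, hQ1t]
    have hP' : (Q1ᵀ * Q)ᵀ * (Q1ᵀ * Q) = 1 := by
      rw [transpose_mul, transpose_transpose]
      calc Qᵀ * Q1 * (Q1ᵀ * Q) = Qᵀ * (Q1 * Q1ᵀ) * Q := by simp only [Matrix.mul_assoc]
        _ = 1 := by rw [hQ1t', Matrix.mul_one, hQ']
    apply retract
    · intro x
      refine ⟨?_, hdet _ hP hP' x⟩
      set P := Q1ᵀ * Q with hPd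
      calc (P * f x * Pᵀ)ᵀ * (P * f x * Pᵀ) = P * (f x)ᵀ * (Pᵀ * P) * f x * Pᵀ := by
            simp only [transpose_mul, transpose_transpose, Matrix.mul_assoc]
        _ = P * ((f x)ᵀ * f x) * Pᵀ := by rw [hP', Matrix.mul_one]; simp only [Matrix.mul_assoc]
        _ = 1 := by rw [(hf x).1, Matrix.mul_one, hP]
    · intro x
      refine ⟨hYo x, ?_⟩
      have h2 := congrArg Matrix.det (hYo x)
      rw [det_mul, det_transpose, det_one] at h2
      nlinarith [hYd x]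
    · have e1 : (fun x => Q1ᵀ * (Q * f x * Qᵀ) * Q1) = fun x => Q1ᵀ * Q * f x * (Q1ᵀ * Q)ᵀ := by
        funext x
        simp only [transpose_mul, transpose_transpose, Matrix.mul_assoc]
      have e2 : (fun x => Q1ᵀ * (Q1 * Y x * Q1ᵀ) * Q1) = Y := by
        funext x
        calc Q1ᵀ * (Q1 * Y x * Q1ᵀ) * Q1 = (Q1ᵀ * Q1) * Y x * (Q1ᵀ * Q1) := by
              simp only [Matrix.mul_assoc]
          _ = Y x := by rw [hQ1t, Matrix.one_mul, Matrix.mul_one]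
      rw [e1, e2] at s4
      exact s4

end fin

theorem T2_diag (α β : Type) [Fintype α] [DecidableEq α] [Fintype β] [DecidableEq β] :
    (fromBlocks (fromBlocks (1 : Matrix α α ℝ) 0 0 (-1 : Matrix α α ℝ)) 0 0
      (fromBlocks (1 : Matrix β β ℝ) 0 0 (-1 : Matrix β β ℝ))).submatrix
        (Equiv.sumSumSumComm α β α β) (Equiv.sumSumSumComm α β α β) =
      fromBlocks 1 0 0 (-1) := by
  rw [T2_perm]
  have h : fromBlocks (-1 : Matrix α α ℝ) 0 0 (-1 : Matrix β β ℝ) = -1 := by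
    rw [← fromBlocks_one, fromBlocks_neg]
    simp
  rw [h]
  simp

theorem T2 (n m : ℕ) (f : Sp n → Matrix (Fin m) (Fin m) ℝ) (hf : Continuous f)
    (hSO : ∀ x, f x ∈ SOs (Fin m)) :
    ∃ (p : ℕ) (J : Fin n → Matrix (Fin p) (Fin p) ℝ), CliffJ J ∧
      StH f (fun x => clJ J x.1) := by
  have hff : ∀ x, (f x)ᵀ * f x = 1 := fun x => (hSO x).1
  have hff' : ∀ x, f x * (f x)ᵀ = 1 := fun x => mul_eq_one_comm.1 (hff x)
  let e : Unit → Matrix (Fin m ⊕ Fin m) (Fin m ⊕ Fin m) ℝ := fun _ => fromBlocks 1 0 0 (-1)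
  have he : ClSys e := by
    refine ⟨fun i => ⟨?_, ?_⟩, fun i j hij => absurd (Subsingleton.elim i j) hij⟩
    · simp [e, fromBlocks_transpose]
    · simp [e, fromBlocks_multiply]
  let F : Sp n → Matrix (Fin m ⊕ Fin m) (Fin m ⊕ Fin m) ℝ := fun x => fromBlocks 0 (f x)ᵀ (f x) 0
  have hFc : Continuous F :=
    continuous_const.matrix_fromBlocks hf.matrix_transpose hf continuous_const
  have hF : ∀ x, F x ∈ SymX e := by
    intro x
    refine ⟨⟨?_, fun i => ?_⟩, ?_⟩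
    · simp [F, fromBlocks_transpose]
    · simp [F, e, fromBlocks_multiply, fromBlocks_neg]
    · refine IsUnit.of_mul_eq_one (F x) ?_
      simp [F, fromBlocks_multiply, hff x, hff' x]
  obtain ⟨ι', κ, κ', _, _, _, _, _, _, e', c', eW, c, e0, D, O, he', hc', hcW, he0, hD, hO, hO',
    hOe, hH⟩ := T1 n e he F hFc hF
  obtain ⟨r, Q', hQ1, hQ2, hQe⟩ := inv_nf e' he' c' hc'
  have heW : ClSys eW := ⟨fun i => hcW.1 (Sum.inl i), fun i j hij =>
    absurd (Subsingleton.elim i j) hij⟩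
  have hc0 : c 0 ∈ Grad eW := ⟨⟨(hcW.1 (Sum.inr 0)).1,
    fun i => hcW.2 (Sum.inr 0) (Sum.inl i) (by simp)⟩, (hcW.1 (Sum.inr 0)).2⟩
  obtain ⟨p, QW, hW1, hW2, hWe, hW0⟩ := inv_nf' eW heW (c 0) hc0
  obtain ⟨s, Q0, h01, h02, h0e⟩ := inv_nf e0 he0 D hD
  obtain ⟨J, hJ, hJc⟩ := T2_cliff hcW QW hW1 hW2 hWe hW0
  have hJo : ∀ x : Sp n, (clJ J x.1)ᵀ * clJ J x.1 = 1 := fun x =>
    T2_orth hcW QW hW1 hW2 hJc x.2
  set L := T2L (1 : Matrix (Fin m ⊕ Fin m) (Fin m ⊕ Fin m) ℝ) Q' with hLd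
  set R := T2L QW Q0 with hRd
  have hL1 : L * Lᵀ = 1 := T2L_mul (by simp) hQ1
  have hL2 : Lᵀ * L = 1 := T2L_tmul (by simp) hQ2
  have hR1 : R * Rᵀ = 1 := T2L_mul hW1 h01
  have hR2 : Rᵀ * R = 1 := T2L_tmul hW2 h02
  have hLE : Lᵀ * esum e e' () * L = fromBlocks 1 0 0 (-1) := by
    show Lᵀ * fromBlocks (e ()) 0 0 (e' ()) * L = _
    rw [hLd, T2L_conj, hQe, transpose_one, Matrix.one_mul, Matrix.mul_one]
    exact T2_diag (Fin m) (Fin r)
  have hRE : Rᵀ * esum eW e0 () * R = fromBlocks 1 0 0 (-1) := by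
    show Rᵀ * fromBlocks (eW ()) 0 0 (e0 ()) * R = _
    rw [hRd, T2L_conj, h0e, hWe]
    exact T2_diag (Fin p) (Fin s)
  set O2 := Lᵀ * O * R with hO2
  have hO21 : O2 * O2ᵀ = 1 := by
    calc O2 * O2ᵀ = Lᵀ * O * (R * Rᵀ) * Oᵀ * L := by
          simp only [hO2, transpose_mul, transpose_transpose, Matrix.mul_assoc]
      _ = Lᵀ * (O * Oᵀ) * L := by rw [hR1, Matrix.mul_one]; simp only [Matrix.mul_assoc]
      _ = 1 := by rw [hO, Matrix.mul_one, hL2]
  have hO22 : O2ᵀ * O2 = 1 := by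
    calc O2ᵀ * O2 = Rᵀ * Oᵀ * (L * Lᵀ) * O * R := by
          simp only [hO2, transpose_mul, transpose_transpose, Matrix.mul_assoc]
      _ = Rᵀ * (Oᵀ * O) * R := by rw [hL1, Matrix.mul_one]; simp only [Matrix.mul_assoc]
      _ = 1 := by rw [hO', Matrix.mul_one, hR2]
  have hOd : O2 * (fromBlocks 1 0 0 (-1) : Matrix ((Fin p ⊕ Fin s) ⊕ (Fin p ⊕ Fin s))
      ((Fin p ⊕ Fin s) ⊕ (Fin p ⊕ Fin s)) ℝ) =
      (fromBlocks 1 0 0 (-1) : Matrix ((Fin m ⊕ Fin r) ⊕ (Fin m ⊕ Fin r))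
      ((Fin m ⊕ Fin r) ⊕ (Fin m ⊕ Fin r)) ℝ) * O2 := by
    rw [← hRE, ← hLE, ← hOe ()]
    calc O2 * (Rᵀ * (Oᵀ * esum e e' () * O) * R)
        = Lᵀ * O * (R * Rᵀ) * Oᵀ * esum e e' () * O * R := by
          simp only [hO2, Matrix.mul_assoc]
      _ = Lᵀ * (O * Oᵀ) * esum e e' () * O * R := by
          rw [hR1, Matrix.mul_one]; simp only [Matrix.mul_assoc]
      _ = Lᵀ * esum e e' () * O * R := by rw [hO, Matrix.mul_one]
      _ = Lᵀ * esum e e' () * (L * Lᵀ) * O * R := by rw [hL1, Matrix.mul_one]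
      _ = Lᵀ * esum e e' () * L * O2 := by simp only [hO2, Matrix.mul_assoc]
  have hOb := T2_form' hOd
  set Op := O2.toBlocks₁₁ with hOp
  set Om := O2.toBlocks₂₂ with hOm
  have hOm1 : Om * Omᵀ = 1 := by
    have h := hO21
    rw [hOb, fromBlocks_transpose, fromBlocks_multiply, ← fromBlocks_one, fromBlocks_inj] at h
    simpa using h.2.2.2
  have hOm2 : Omᵀ * Om = 1 := by
    have h := hO22
    rw [hOb, fromBlocks_transpose, fromBlocks_multiply, ← fromBlocks_one, fromBlocks_inj] at h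
    simpa using h.2.2.2
  have hCl := T2_low hQ1 hQe hc'.1.1 (hc'.1.2 ())
  have hCu := T2_low_unit hQ1 hQ2 hQe hc'.1.1 (hc'.1.2 ()) hc'.2
  have hDl := T2_low h01 h0e hD.1.1 (hD.1.2 ())
  set C' := (Q'ᵀ * c' * Q').toBlocks₂₁ with hC'
  set D₁ := (Q0ᵀ * D * Q0).toBlocks₂₁ with hD₁
  have hCi : C'⁻¹ * C' = 1 := Matrix.nonsing_inv_mul _ ((Matrix.isUnit_iff_isUnit_det _).1 hCu)
  have hCi' : C' * C'⁻¹ = 1 := Matrix.mul_nonsing_inv _ ((Matrix.isUnit_iff_isUnit_det _).1 hCu)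
  -- the two ends
  have hend1 : ∀ x, (Lᵀ * fromBlocks (F x) 0 0 c' * L).toBlocks₂₁ = fromBlocks (f x) 0 0 C' := by
    intro x
    rw [hLd, T2L_conj, transpose_one, Matrix.one_mul, Matrix.mul_one, hCl]
    show ((fromBlocks (fromBlocks 0 (f x)ᵀ (f x) 0) 0 0 (fromBlocks 0 C'ᵀ C' 0)).submatrix
      (Equiv.sumSumSumComm _ _ _ _) (Equiv.sumSumSumComm _ _ _ _)).toBlocks₂₁ = _
    rw [T2_perm, toBlocks_fromBlocks₂₁]
  have hend2 : ∀ v, (Lᵀ * (O * fromBlocks (csum c v) 0 0 D * Oᵀ) * L).toBlocks₂₁ =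
      Om * fromBlocks (clJ J v) 0 0 D₁ * Opᵀ := by
    intro v
    have e1 : Lᵀ * (O * fromBlocks (csum c v) 0 0 D * Oᵀ) * L =
        O2 * (Rᵀ * fromBlocks (csum c v) 0 0 D * R) * O2ᵀ := by
      calc Lᵀ * (O * fromBlocks (csum c v) 0 0 D * Oᵀ) * L
          = Lᵀ * O * (1 : Matrix (κ ⊕ κ') (κ ⊕ κ') ℝ) * fromBlocks (csum c v) 0 0 D *
              (1 : Matrix (κ ⊕ κ') (κ ⊕ κ') ℝ) * Oᵀ * L := by
            simp only [Matrix.mul_one, Matrix.mul_assoc]
        _ = Lᵀ * O * (R * Rᵀ) * fromBlocks (csum c v) 0 0 D * (R * Rᵀ) * Oᵀ * L := by rw [hR1]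
        _ = _ := by
            simp only [hO2, transpose_mul, transpose_transpose, Matrix.mul_assoc]
    rw [e1, hRd, T2L_conj, hJc, hDl, T2_perm, hOb, fromBlocks_transpose]
    simp [fromBlocks_multiply]
  -- the homotopy of the lower left blocks
  have h1 := hH.map' (B := {N : Matrix (Fin m ⊕ Fin r) (Fin m ⊕ Fin r) ℝ | IsUnit N})
    (fun M => (Lᵀ * M * L).toBlocks₂₁) (by
      have : Continuous fun M : Matrix ((Fin m ⊕ Fin m) ⊕ ι') ((Fin m ⊕ Fin m) ⊕ ι') ℝ =>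
        (Lᵀ * M * L).submatrix Sum.inr Sum.inl :=
        ((continuous_const.matrix_mul continuous_id).matrix_mul
          continuous_const).matrix_submatrix _ _
      exact this) (by
      intro M hM
      exact T2_low_unit hL1 hL2 hLE hM.1.1 (hM.1.2 ()) hM.2)
  simp only [hend1, hend2] at h1
  obtain ⟨B1, hB1⟩ : ∃ B : Matrix (Fin m ⊕ Fin r) (Fin m ⊕ Fin r) ℝ,
      B = fromBlocks 1 0 0 C'⁻¹ := ⟨_, rfl⟩
  obtain ⟨B2, hB2⟩ : ∃ B : Matrix (Fin p ⊕ Fin s) (Fin p ⊕ Fin s) ℝ,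
      B = fromBlocks 1 0 0 D₁ := ⟨_, rfl⟩
  have hBu : IsUnit B1 := by
    refine IsUnit.of_mul_eq_one (fromBlocks 1 0 0 C') ?_
    rw [hB1, fromBlocks_multiply]
    simp [hCi]
  have h2 := h1.map' (B := {N : Matrix (Fin p ⊕ Fin s) (Fin p ⊕ Fin s) ℝ | IsUnit N})
    (fun N => Omᵀ * (B1 * N) * Om)
    ((continuous_const.matrix_mul (continuous_const.matrix_mul continuous_id)).matrix_mul
      continuous_const) (by
      intro N hN
      exact T2_conj_unit hOm1 hOm2 (hBu.mul hN))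
  have h3 : HIn {N : Matrix (Fin p ⊕ Fin s) (Fin p ⊕ Fin s) ℝ | IsUnit N}
      (fun x => Omᵀ * stb (Fin r) (f x) * Omᵀᵀ)
      (fun x => (Omᵀ * B1 * Om) * stb (Fin s) (clJ J x.1) * (B2 * Opᵀ * Om)) := by
    convert h2 using 2 with x x
    · rw [transpose_transpose, hB1, fromBlocks_multiply]
      simp [hCi, stb]
    · have e2 : fromBlocks (clJ J x.1) 0 0 D₁ = stb (Fin s) (clJ J x.1) * B2 := by
        unfold stb
        rw [hB2, fromBlocks_multiply]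
        simp
      rw [e2]
      simp only [Matrix.mul_assoc]
  have hYc : Continuous fun x : Sp n => stb (Fin s) (clJ J x.1) := by
    refine T2_stb_cont _ ?_
    have hx : ∀ i : Fin (n + 1), Continuous fun x : Sp n => x.1 i := fun i =>
      (continuous_apply i).comp continuous_subtype_val
    exact ((hx 0).smul continuous_const).add
      (continuous_finsetSum _ fun i _ => (hx i.succ).smul continuous_const)
  have hY0 : stb (Fin s) (clJ J (north n)) = 1 := by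
    have : clJ J (north n) = 1 := by
      unfold clJ north
      simp
    rw [this]
    unfold stb
    simp
  obtain ⟨P, hP, hP', hPH⟩ := T2_gl (X := Sp n) (fun x => stb (Fin r) (f x))
    (fun x => stb (Fin s) (clJ J x.1))
    (fun x => ⟨T2_stb_tmul _ (hff x), by rw [T2_stb_det, (hSO x).2]⟩)
    hYc (fun x => T2_stb_tmul _ (hJo x)) ⟨north n, cone_north_mem n⟩ hY0
    Omᵀ (by rw [transpose_transpose]; exact hOm2) (by rw [transpose_transpose]; exact hOm1)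
    _ _ h3
  exact ⟨p, J, hJ, Fin r, Fin s, inferInstance, inferInstance, inferInstance, inferInstance, P,
    hP, hP', hPH⟩

end DT
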