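import Pool.Agent.H78.DT.Anti
import Pool.Agent.H78.DT.T2
import Pool.Agent.H78.DT.StHB
import Pool.Agent.H78.DT.DesOn
import Pool.Agent.H78.DT.DesLast

/-!
# Squares are stably trivial for `n = 1 mod 4` (job DT-ODDSTAB, assembly)

PROOF. By `T2`, `StH f (clJ J)`, so `StH f² (clJ J)²` (`StH.sq`), `StH (clJ J)² (stb _ (clJ J)²)`
(`StH.stb_right`), which is homotopic to `clJ J ⊕ clJ J` (`sq_stb`, `StH.of_hin`), and this is homotopic to
`1` (`case1`).  The constant maps `1` over any two index types are `StH` (see the header of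
SqEven.lean, where this is proved too).  So `StH f² 1`; by `StH.unstable` `f² ⊕ 1_r ~ 1` for some `r`;
by `destab` `f² ⊕ 1 ~ 1` over `Fin (n+1) ⊕ Unit`, and by `des_last` `f² ~ refl (h' x) refl (north n)`.
(`clJ_mem` for the values of `clJ J`; `clJ` is continuous.)
-/

open Matrix Set unitInterval Topology

noncomputable section

namespace DT

theorem oddStab_one (n : ℕ) (ι κ : Type) [Fintype ι] [DecidableEq ι] [Fintype κ]
    [DecidableEq κ] :
    StH (fun _ : Sp n => (1 : Matrix ι ι ℝ)) (fun _ : Sp n => (1 : Matrix κ κ ℝ)) := by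
  refine ⟨κ, ι, inferInstance, inferInstance, inferInstance, inferInstance,
    StHB_pm (Equiv.sumComm ι κ), StHB_pm_1 _, StHB_pm_2 _, ?_⟩
  have e1 : (fun _ : Sp n => StHB_pm (Equiv.sumComm ι κ) * stb κ (1 : Matrix ι ι ℝ) *
      (StHB_pm (Equiv.sumComm ι κ))ᵀ) = fun _ => (1 : Matrix (κ ⊕ ι) (κ ⊕ ι) ℝ) := by
    funext x
    have h : stb κ (1 : Matrix ι ι ℝ) = 1 := fromBlocks_one
    rw [h, Matrix.mul_one, StHB_pm_1]
  have e2 : (fun _ : Sp n => stb ι (1 : Matrix κ κ ℝ)) =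
      fun _ => (1 : Matrix (κ ⊕ ι) (κ ⊕ ι) ℝ) := by
    funext x
    exact fromBlocks_one
  rw [e1, e2]
  exact HIn.refl continuous_const fun _ => ⟨by simp, by simp⟩

theorem oddStab_cont {ι : Type} [Fintype ι] [DecidableEq ι] {n : ℕ} (J : Fin n → Matrix ι ι ℝ) :
    Continuous fun x : Sp n => clJ J x.1 := by
  unfold clJ
  refine Continuous.add ?_ (continuous_finsetSum _ fun i _ => ?_)
  · exact ((continuous_apply 0).comp continuous_subtype_val).smul continuous_const
  · exact ((continuous_apply i.succ).comp continuous_subtype_val).smul continuous_const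

theorem odd_stab (n : ℕ) (hn : n % 4 = 1) (f : Sp n → Matrix (Fin (n + 1)) (Fin (n + 1)) ℝ)
    (hf : Continuous f) (hS : ∀ x, f x ∈ SOs (Fin (n + 1))) :
    ∃ h' : Sp n → (Fin (n + 1) → ℝ), Continuous h' ∧ (∀ x, h' x ∈ US (Fin (n + 1))) ∧
      HIn (SOs (Fin (n + 1))) (fun x => f x * f x) (fun x => refl (h' x) * refl (north n)) := by
  have hn1 : 1 ≤ n := by omega
  obtain ⟨p, J, hJ, hst⟩ := T2 n (n + 1) f hf hS
  have hc : Continuous fun x : Sp n => clJ J x.1 := oddStab_cont J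
  have hm : ∀ x : Sp n, clJ J x.1 ∈ SOs (Fin p) := fun x => clJ_mem n hn1 J hJ x.1 x.2
  have hcc : Continuous fun x : Sp n => clJ J x.1 * clJ J x.1 := hc.matrix_mul hc
  have hmm : ∀ x : Sp n, clJ J x.1 * clJ J x.1 ∈ SOs (Fin p) := fun x =>
    StHB_so_mul (hm x) (hm x)
  have h1 : StH (fun x => f x * f x)
      (fun _ : Sp n => (1 : Matrix (Fin (n + 1)) (Fin (n + 1)) ℝ)) :=
    ((hst.sq.trans (StH.stb_right hcc hmm (Fin p))).trans (StH.of_hin (sq_stb hc hm))).trans
      ((StH.of_hin (case1 n hn J hJ)).trans (oddStab_one n (Fin p ⊕ Fin p) (Fin (n + 1))))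
  obtain ⟨r, hr⟩ := h1.unstable
  have h2 := hr r le_rfl
  have e : (fun _ : Sp n => stb (Fin r) (1 : Matrix (Fin (n + 1)) (Fin (n + 1)) ℝ)) =
      fun _ => 1 := by
    funext x
    exact fromBlocks_one
  rw [e] at h2
  exact des_last n hn1 (fun x => f x * f x) (destab n r _ h2)

end DT
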