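import Pool.Agent.H78.DT.Gen

/-!
# Pushing the preimages of the poles into opposite hemispheres (job DT-PUSH)

PROOF. Write points of the sphere as `susp (t, l)`, `t ∈ I`, `l ∈ Sp m`, `N = north (m+1)`.
`K_N = {(p, l) | κ p ≥ 1/2 ∧ ∃ t, F (p, susp (t, l)) = N}` and
`K_S = {(p, l) | κ p ≥ 1/2 ∧ ∃ t, F (p, susp (t, l)) = -N}` are compact (projections of compact
sets) and disjoint.  Urysohn: `λ : P × Sp m → [-1, 1]` continuous, `1` on `K_N`, `-1` on `K_S`.
The compact set `{(p, t, l) | κ p ≥ 1/2, F (p, susp (t,l)) = N}` does not meet `t = 1`, and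
`{... = -N}` does not meet `t = 0`; so there is `0 < ε < 1/2` with `t < 1 - ε` on the first and
`t > ε` on the second.
Let `α : I → I`, `α (t) = 2(1-ε) t` for `t ≤ 1/2`, `1 - ε + 2ε (t - 1/2)` for `t ≥ 1/2` (so
`α (0) = 0`, `α (1/2) = 1 - ε`, `α (1) = 1`, increasing, `α (t) ≥ t`), `β (t) = 1 - α (1 - t)`
(`β (t) ≤ t`, `β (1/2) = ε`), and for `s ∈ [-1,1]`:
`φ_s (t) = t + max s 0 * (α t - t) + max (-s) 0 * (β t - t) ∈ [0,1]`; `φ_s (0) = 0`,
`φ_s (1) = 1`, `φ_0 (t) = t`, `φ_1 = α`, `φ_{-1} = β`, `φ_s (t) ≥ t` for `s ≥ 0`, `≤ t` for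
`s ≤ 0`.  Let `κ' = max (2 κ - 1) 0`.
Homotopy: `(u, (p, susp (t, l))) ↦ F (p, susp (φ_{u κ'(p) λ(p,l)} (t), l))`; well defined and
continuous by `descend` (`Q = I × P`): at `t = 0, 1` the value `F (p, susp (t, l))`,
`t = 0, 1`, does not depend on `l`.  It is constant in `u` if `κ p = 0`.  `F₂` = the value at
`u = 1`.
Claim: `F₂ (p, x) = N` implies `x₀ > 0`, i.e. `t < 1/2` for `x = susp (t, l)`:
let `t' = φ_s (t)`, `s = κ'(p) λ(p,l)`, `F (p, susp (t', l)) = N`.
If `κ p = 1`: `(p,l) ∈ K_N`, `s = 1`, `t' = α (t) < 1 - ε`, so `t < 1/2`.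
If `1/2 < κ p < 1`: `(p,l) ∈ K_N`, `s > 0`, `t' ≥ t`; by (ii) `cos πt' > 0`, `t' < 1/2`, so
`t < 1/2`.  If `κ p ≤ 1/2`: `s = 0`, `t' = t`, use (ii).
Similarly for `-N`.
-/

open Matrix Set unitInterval Topology

noncomputable section

namespace DT

/-- Concave reparametrisation. -/
def push_al (ε t : ℝ) : ℝ := min (2 * (1 - ε) * t) (1 - 2 * ε * (1 - t))

/-- Convex reparametrisation. -/
def push_be (ε t : ℝ) : ℝ := max (1 - 2 * (1 - ε) * (1 - t)) (2 * ε * t)

/-- The family of reparametrisations. -/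
def push_ph (ε s t : ℝ) : ℝ :=
  t + max s 0 * (push_al ε t - t) + max (-s) 0 * (push_be ε t - t)

theorem push_al_ge {ε t : ℝ} (he : 0 < ε) (he2 : ε < 1 / 2) (h0 : 0 ≤ t) (h1 : t ≤ 1) :
    t ≤ push_al ε t := by
  unfold push_al
  apply le_min
  · nlinarith
  · nlinarith

theorem push_al_le {ε t : ℝ} (he : 0 < ε) (h1 : t ≤ 1) : push_al ε t ≤ 1 := by
  unfold push_al
  apply (min_le_right _ _).trans
  nlinarith

theorem push_be_le {ε t : ℝ} (he : 0 < ε) (he2 : ε < 1 / 2) (h0 : 0 ≤ t) (h1 : t ≤ 1) :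
    push_be ε t ≤ t := by
  unfold push_be
  apply max_le
  · nlinarith
  · nlinarith

theorem push_be_ge {ε t : ℝ} (he : 0 < ε) (h0 : 0 ≤ t) : 0 ≤ push_be ε t := by
  unfold push_be
  refine le_trans ?_ (le_max_right _ _)
  positivity

theorem push_al_half {ε t : ℝ} (he : 0 < ε) (he2 : ε < 1 / 2) (h : push_al ε t < 1 - ε) :
    t < 1 / 2 := by
  by_contra h2
  rw [not_lt] at h2
  have : 1 - ε ≤ push_al ε t := by
    unfold push_al
    apply le_min
    · nlinarith
    · nlinarith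
  linarith

theorem push_be_half {ε t : ℝ} (he : 0 < ε) (he2 : ε < 1 / 2) (h : ε < push_be ε t) :
    1 / 2 < t := by
  by_contra h2
  rw [not_lt] at h2
  have : push_be ε t ≤ ε := by
    unfold push_be
    apply max_le
    · nlinarith
    · nlinarith
  linarith

theorem push_al_zero {ε : ℝ} (he2 : ε < 1 / 2) : push_al ε 0 = 0 := by
  unfold push_al
  rw [mul_zero]
  apply min_eq_left
  linarith

theorem push_al_one {ε : ℝ} (he2 : ε < 1 / 2) : push_al ε 1 = 1 := by
  unfold push_al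
  rw [sub_self, mul_zero, sub_zero]
  apply min_eq_right
  linarith

theorem push_be_zero {ε : ℝ} (he2 : ε < 1 / 2) : push_be ε 0 = 0 := by
  unfold push_be
  rw [mul_zero]
  apply max_eq_right
  linarith

theorem push_be_one {ε : ℝ} (he2 : ε < 1 / 2) : push_be ε 1 = 1 := by
  unfold push_be
  rw [sub_self, mul_zero, sub_zero]
  apply max_eq_left
  linarith

theorem push_ph_zero {ε : ℝ} (he2 : ε < 1 / 2) (s : ℝ) : push_ph ε s 0 = 0 := by
  unfold push_ph
  rw [push_al_zero he2, push_be_zero he2]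
  ring

theorem push_ph_one {ε : ℝ} (he2 : ε < 1 / 2) (s : ℝ) : push_ph ε s 1 = 1 := by
  unfold push_ph
  rw [push_al_one he2, push_be_one he2]
  ring

theorem push_ph_s0 (ε t : ℝ) : push_ph ε 0 t = t := by
  unfold push_ph
  simp

theorem push_ph_s1 (ε t : ℝ) : push_ph ε 1 t = push_al ε t := by
  unfold push_ph
  rw [max_eq_left zero_le_one, max_eq_right (by norm_num : (-1 : ℝ) ≤ 0)]
  ring

theorem push_ph_sm (ε t : ℝ) : push_ph ε (-1) t = push_be ε t := by
  unfold push_ph
  rw [neg_neg, max_eq_left zero_le_one, max_eq_right (by norm_num : (-1 : ℝ) ≤ 0)]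
  ring

theorem push_ph_pos {ε s t : ℝ} (hs : 0 ≤ s) : push_ph ε s t = t + s * (push_al ε t - t) := by
  unfold push_ph
  rw [max_eq_left hs, max_eq_right (by linarith : -s ≤ 0)]
  ring

theorem push_ph_neg {ε s t : ℝ} (hs : s ≤ 0) : push_ph ε s t = t + -s * (push_be ε t - t) := by
  unfold push_ph
  rw [max_eq_right hs, max_eq_left (by linarith : 0 ≤ -s)]
  ring

theorem push_ph_ge {ε s t : ℝ} (he : 0 < ε) (he2 : ε < 1 / 2) (h0 : 0 ≤ t) (h1 : t ≤ 1)
    (hs : 0 ≤ s) : t ≤ push_ph ε s t := by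
  rw [push_ph_pos hs]
  have := push_al_ge he he2 h0 h1
  nlinarith

theorem push_ph_le {ε s t : ℝ} (he : 0 < ε) (he2 : ε < 1 / 2) (h0 : 0 ≤ t) (h1 : t ≤ 1)
    (hs : s ≤ 0) : push_ph ε s t ≤ t := by
  rw [push_ph_neg hs]
  have := push_be_le he he2 h0 h1
  nlinarith

theorem push_ph_mem {ε s t : ℝ} (he : 0 < ε) (he2 : ε < 1 / 2) (h0 : 0 ≤ t) (h1 : t ≤ 1)
    (hs0 : -1 ≤ s) (hs1 : s ≤ 1) : push_ph ε s t ∈ I := by
  rcases le_total 0 s with hs | hs
  · have a1 := push_ph_ge he he2 h0 h1 hs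
    refine ⟨by linarith, ?_⟩
    rw [push_ph_pos hs]
    have a2 := push_al_le he h1
    have a3 := push_al_ge he he2 h0 h1
    nlinarith
  · have a1 := push_ph_le he he2 h0 h1 hs
    refine ⟨?_, by linarith⟩
    rw [push_ph_neg hs]
    have a2 := push_be_ge he h0
    have a3 := push_be_le he he2 h0 h1
    nlinarith

theorem push_ph_cont {X : Type*} [TopologicalSpace X] (ε : ℝ) {s t : X → ℝ} (hs : Continuous s)
    (ht : Continuous t) : Continuous fun x => push_ph ε (s x) (t x) := by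
  unfold push_ph push_al push_be
  fun_prop

theorem push_cos_pos (t : I) : 0 < Real.cos (Real.pi * (t : ℝ)) ↔ (t : ℝ) < 1 / 2 := by
  have hpi := Real.pi_pos
  have t0 := t.2.1
  have t1 := t.2.2
  constructor
  · intro h
    by_contra h2
    rw [not_lt] at h2
    have : Real.cos (Real.pi * (t : ℝ)) ≤ 0 := by
      apply Real.cos_nonpos_of_pi_div_two_le_of_le
      · nlinarith
      · nlinarith
    linarith
  · intro h
    apply Real.cos_pos_of_mem_Ioo
    constructor
    · nlinarith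
    · nlinarith

theorem push_cos_neg (t : I) : Real.cos (Real.pi * (t : ℝ)) < 0 ↔ 1 / 2 < (t : ℝ) := by
  have hpi := Real.pi_pos
  have t0 := t.2.1
  have t1 := t.2.2
  constructor
  · intro h
    by_contra h2
    rw [not_lt] at h2
    have : 0 ≤ Real.cos (Real.pi * (t : ℝ)) := by
      apply Real.cos_nonneg_of_mem_Icc
      constructor
      · nlinarith
      · nlinarith
    linarith
  · intro h
    apply Real.cos_neg_of_pi_div_two_lt_of_lt
    · nlinarith
    · nlinarith

theorem push_susp0 {k : ℕ} (p : I × Sp k) : (susp p).1 0 = Real.cos (Real.pi * (p.1 : ℝ)) := by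
  unfold susp sv
  simp only [Fin.cons_zero]

theorem push_susp_zero {k : ℕ} (y y' : Sp k) : susp (0, y) = susp (0, y') := by
  apply Subtype.ext
  unfold susp sv
  simp

theorem push_susp_one {k : ℕ} (y y' : Sp k) : susp (1, y) = susp (1, y') := by
  apply Subtype.ext
  unfold susp sv
  simp

theorem push {P : Type} [TopologicalSpace P] [CompactSpace P] [T2Space P] (m : ℕ)
    (κ : P → ℝ) (hκ : Continuous κ) (h01 : ∀ p, 0 ≤ κ p ∧ κ p ≤ 1)
    (F : P × Sp (m + 1) → (Fin (m + 2) → ℝ)) (hF : Continuous F)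
    (hU : ∀ q, F q ∈ US (Fin (m + 2))) (hgood : FrGood m κ F) :
    ∃ F₂ : P × Sp (m + 1) → (Fin (m + 2) → ℝ),
      HRel (US (Fin (m + 2))) {q : P × Sp (m + 1) | κ q.1 = 0} F F₂ ∧
      (∀ (p : P) (x : Sp (m + 1)), x.1 0 ≤ 0 → F₂ (p, x) ≠ north (m + 1)) ∧
      (∀ (p : P) (x : Sp (m + 1)), 0 ≤ x.1 0 → F₂ (p, x) ≠ -north (m + 1)) := by
  set N : Fin (m + 2) → ℝ := north (m + 1) with hNdef
  -- the compact sets
  set C : (Fin (m + 2) → ℝ) → Set (P × (I × Sp m)) := fun v =>
    {q | 1 / 2 ≤ κ q.1 ∧ F (q.1, susp q.2) = v} with hC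
  have hFs : Continuous fun q : P × (I × Sp m) => F (q.1, susp q.2) :=
    hF.comp (continuous_fst.prodMk (susp_continuous.comp continuous_snd))
  have hCc : ∀ v, IsCompact (C v) := by
    intro v
    apply IsClosed.isCompact
    exact (isClosed_le continuous_const (hκ.comp continuous_fst)).inter
      (isClosed_eq hFs continuous_const)
  set K : (Fin (m + 2) → ℝ) → Set (P × Sp m) := fun v => (fun q => (q.1, q.2.2)) '' C v with hK
  have hKc : ∀ v, IsClosed (K v) := by
    intro v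
    apply IsCompact.isClosed
    apply (hCc v).image
    fun_prop
  have hKd : Disjoint (K (-N)) (K N) := by
    rw [Set.disjoint_left]
    rintro ⟨p, l⟩ ⟨⟨p1, t1, l1⟩, ⟨a1, b1⟩, e1⟩ ⟨⟨p2, t2, l2⟩, ⟨a2, b2⟩, e2⟩
    simp only [Prod.mk.injEq] at e1 e2 a1 b1 a2 b2
    obtain ⟨rfl, rfl⟩ := e1
    obtain ⟨rfl, rfl⟩ := e2
    exact (hgood.1 _ a1).1 l2 t2 t1 ⟨b2, b1⟩
  obtain ⟨f, hf0, hf1, hfI⟩ := exists_continuous_zero_one_of_isClosed (hKc (-N)) (hKc N) hKd
  obtain ⟨a, ha, haC⟩ := (hCc N).exists_forall_le' (f := fun q => 1 - (q.2.1 : ℝ)) (a := 0)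
    (by fun_prop) (by
      rintro ⟨p, t, l⟩ ⟨h1, h2⟩
      simp only at h1 h2 ⊢
      rcases t.2.2.lt_or_eq with h3 | h3
      · linarith
      · exfalso
        have h4 : t = 1 := Subtype.ext h3
        rw [h4] at h2
        exact ((hgood.1 p h1).2 l).1 h2)
  obtain ⟨b, hb, hbC⟩ := (hCc (-N)).exists_forall_le' (f := fun q => (q.2.1 : ℝ)) (a := 0)
    (by fun_prop) (by
      rintro ⟨p, t, l⟩ ⟨h1, h2⟩
      simp only at h1 h2 ⊢
      rcases t.2.1.lt_or_eq with h3 | h3
      · exact h3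
      · exfalso
        have h4 : t = 0 := Subtype.ext h3.symm
        rw [h4] at h2
        exact ((hgood.1 p h1).2 l).2 h2)
  obtain ⟨ε, he, he2, hea, heb⟩ : ∃ ε : ℝ, 0 < ε ∧ ε < 1 / 2 ∧ ε < a ∧ ε < b := by
    refine ⟨min (1 / 4) (min (a / 2) (b / 2)), ?_, ?_, ?_, ?_⟩
    · exact lt_min (by norm_num) (lt_min (by linarith) (by linarith))
    · exact (min_le_left _ _).trans_lt (by norm_num)
    · exact ((min_le_right _ _).trans (min_le_left _ _)).trans_lt (by linarith)
    · exact ((min_le_right _ _).trans (min_le_right _ _)).trans_lt (by linarith)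
  -- the parameter
  set κ' : P → ℝ := fun p => max (2 * κ p - 1) 0 with hκ'
  have hκ'0 : ∀ p, 0 ≤ κ' p := fun p => le_max_right _ _
  have hκ'1 : ∀ p, κ' p ≤ 1 := fun p => max_le (by linarith [(h01 p).2]) zero_le_one
  set s : I → P → Sp m → ℝ := fun u p l => (u : ℝ) * κ' p * (2 * f (p, l) - 1) with hs
  have hl1 : ∀ q, -1 ≤ 2 * f q - 1 ∧ 2 * f q - 1 ≤ 1 := fun q =>
    ⟨by linarith [(hfI q).1], by linarith [(hfI q).2]⟩
  have hsI : ∀ u p l, -1 ≤ s u p l ∧ s u p l ≤ 1 := by
    intro u p l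
    have h1 : |s u p l| ≤ 1 := by
      simp only [hs]
      rw [abs_mul, abs_mul, abs_of_nonneg u.2.1, abs_of_nonneg (hκ'0 p)]
      have h2 : |2 * f (p, l) - 1| ≤ 1 := abs_le.2 (hl1 _)
      have h3 : (u : ℝ) * κ' p ≤ 1 := mul_le_one₀ u.2.2 (hκ'0 p) (hκ'1 p)
      exact mul_le_one₀ h3 (abs_nonneg _) h2
    exact abs_le.1 h1
  have hmem : ∀ (u : I) (p : P) (t : I) (l : Sp m), push_ph ε (s u p l) t ∈ I := fun u p t l =>
    push_ph_mem he he2 t.2.1 t.2.2 (hsI u p l).1 (hsI u p l).2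
  have hκ'c : Continuous κ' := by fun_prop
  have hsc : Continuous fun q : (I × P) × (I × Sp m) => s q.1.1 q.1.2 q.2.2 := by
    simp only [hs]
    fun_prop
  obtain ⟨H, hHc, hH⟩ := descend (Q := I × P)
    (fun q : (I × P) × (I × Sp m) =>
      F (q.1.2, susp (⟨push_ph ε (s q.1.1 q.1.2 q.2.2) q.2.1, hmem _ _ _ _⟩, q.2.2)))
    (by
      refine hF.comp ((continuous_snd.comp continuous_fst).prodMk (susp_continuous.comp
        (Continuous.prodMk (Continuous.subtype_mk (push_ph_cont ε hsc ?_) _)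
          (continuous_snd.comp continuous_snd))))
      fun_prop)
    (by
      rintro ⟨u, p⟩ y y'
      simp only
      have e : ∀ z : Sp m, (⟨push_ph ε (s u p z) ((0 : I) : ℝ), hmem _ _ _ _⟩ : I) = 0 := by
        intro z
        apply Subtype.ext
        simp only [Icc.coe_zero]
        exact push_ph_zero he2 _
      rw [e y, e y', push_susp_zero y y'])
    (by
      rintro ⟨u, p⟩ y y'
      simp only
      have e : ∀ z : Sp m, (⟨push_ph ε (s u p z) ((1 : I) : ℝ), hmem _ _ _ _⟩ : I) = 1 := by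
        intro z
        apply Subtype.ext
        simp only [Icc.coe_one]
        exact push_ph_one he2 _
      rw [e y, e y', push_susp_one y y'])
  have hHs0 : ∀ (u : I) (p : P) (t : I) (l : Sp m), s u p l = 0 →
      H ((u, p), susp (t, l)) = F (p, susp (t, l)) := by
    intro u p t l h0
    rw [hH]
    simp only
    have e : (⟨push_ph ε (s u p l) (t : ℝ), hmem _ _ _ _⟩ : I) = t := by
      apply Subtype.ext
      simp only
      rw [h0]
      exact push_ph_s0 _ _
    rw [e]
  refine ⟨fun q => H ((1, q.1), q.2), ⟨fun w => H ((w.1, w.2.1), w.2.2), ?_, ?_, ?_, ?_⟩, ?_, ?_⟩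
  · exact hHc.comp (by fun_prop)
  · intro u
    refine ⟨fun q => ?_, fun q hq => ?_⟩
    · obtain ⟨p, x⟩ := q
      obtain ⟨⟨t, l⟩, rfl⟩ := susp_surj x
      simp only
      rw [hH]
      exact hU _
    · obtain ⟨p, x⟩ := q
      obtain ⟨⟨t, l⟩, rfl⟩ := susp_surj x
      have hq' : κ p = 0 := hq
      apply hHs0
      simp only [hs, hκ']
      rw [hq']
      norm_num
  · rintro ⟨p, x⟩
    obtain ⟨⟨t, l⟩, rfl⟩ := susp_surj x
    apply hHs0
    simp only [hs, Icc.coe_zero, zero_mul]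
  · intro q
    rfl
  · intro p x hx
    obtain ⟨⟨t, l⟩, rfl⟩ := susp_surj x
    intro h
    simp only at h
    rw [hH] at h
    simp only at h
    rw [push_susp0] at hx
    have key : (t : ℝ) < 1 / 2 := by
      set t' : I := ⟨push_ph ε (s 1 p l) (t : ℝ), hmem _ _ _ _⟩ with ht'
      rcases (h01 p).2.lt_or_eq with h1 | h1
      · -- `κ p < 1`
        have h2 := ((hgood.2 p h1) (susp (t', l))).1 h
        rw [push_susp0, push_cos_pos] at h2
        have h3 : 0 ≤ s 1 p l := by
          by_cases h4 : 1 / 2 ≤ κ p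
          · have h5 : (p, l) ∈ K N := ⟨(p, (t', l)), ⟨h4, h⟩, rfl⟩
            have h6 : f (p, l) = 1 := hf1 h5
            simp only [hs, Icc.coe_one, one_mul]
            rw [h6]
            have := hκ'0 p
            linarith
          · have h5 : κ' p = 0 := by
              simp only [hκ']
              apply max_eq_right
              linarith [not_le.1 h4]
            simp only [hs]
            rw [h5, mul_zero, zero_mul]
        have h4 := push_ph_ge he he2 t.2.1 t.2.2 h3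
        exact lt_of_le_of_lt h4 h2
      · -- `κ p = 1`
        have h2 : 1 / 2 ≤ κ p := by rw [h1]; norm_num
        have h5 : (p, l) ∈ K N := ⟨(p, (t', l)), ⟨h2, h⟩, rfl⟩
        have h6 : f (p, l) = 1 := hf1 h5
        have h7 : s 1 p l = 1 := by
          simp only [hs, Icc.coe_one, one_mul, hκ']
          rw [h6, h1]
          norm_num
        have h8 := haC (p, (t', l)) ⟨h2, h⟩
        simp only [ht'] at h8
        rw [h7, push_ph_s1] at h8
        exact push_al_half he he2 (by linarith)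
    have := (push_cos_pos t).2 key
    linarith
  · intro p x hx
    obtain ⟨⟨t, l⟩, rfl⟩ := susp_surj x
    intro h
    simp only at h
    rw [hH] at h
    simp only at h
    rw [push_susp0] at hx
    have key : 1 / 2 < (t : ℝ) := by
      set t' : I := ⟨push_ph ε (s 1 p l) (t : ℝ), hmem _ _ _ _⟩ with ht'
      rcases (h01 p).2.lt_or_eq with h1 | h1
      · -- `κ p < 1`
        have h2 := ((hgood.2 p h1) (susp (t', l))).2 h
        rw [push_susp0, push_cos_neg] at h2
        have h3 : s 1 p l ≤ 0 := by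
          by_cases h4 : 1 / 2 ≤ κ p
          · have h5 : (p, l) ∈ K (-N) := ⟨(p, (t', l)), ⟨h4, h⟩, rfl⟩
            have h6 : f (p, l) = 0 := hf0 h5
            simp only [hs, Icc.coe_one, one_mul]
            rw [h6]
            have := hκ'0 p
            linarith
          · have h5 : κ' p = 0 := by
              simp only [hκ']
              apply max_eq_right
              linarith [not_le.1 h4]
            simp only [hs]
            rw [h5, mul_zero, zero_mul]
        have h4 := push_ph_le he he2 t.2.1 t.2.2 h3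
        exact lt_of_lt_of_le h2 h4
      · -- `κ p = 1`
        have h2 : 1 / 2 ≤ κ p := by rw [h1]; norm_num
        have h5 : (p, l) ∈ K (-N) := ⟨(p, (t', l)), ⟨h2, h⟩, rfl⟩
        have h6 : f (p, l) = 0 := hf0 h5
        have h7 : s 1 p l = -1 := by
          simp only [hs, Icc.coe_one, one_mul, hκ']
          rw [h6, h1]
          norm_num
        have h8 := hbC (p, (t', l)) ⟨h2, h⟩
        simp only [ht'] at h8
        rw [h7, push_ph_sm] at h8
        exact push_be_half he he2 (by linarith)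
    have := (push_cos_neg t).2 key
    linarith

end DT
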