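import Pool.Agent.H78.DT.SDf

/-!
# Diffeomorphisms of the sphere (Mathlib) and their homogeneous extensions (job DT-RAD)

`rad φ z = ‖z‖ • φ (z/‖z‖)` for `z ≠ 0`, `rad φ 0 = 0`.
`rad_smooth`: if `φ : sphere → sphere` is smooth (`ContMDiff (𝓡 n) (𝓡 n) ∞`), then `rad φ` is smooth on
`{0}ᶜ`.  PROOF. Let `z₀ ≠ 0`.  The map `z ↦ ‖z‖⁻¹ • z` is smooth on the open set `{0}ᶜ` and has
values in the sphere.  Either use the open submanifold `U = ⟨{0}ᶜ, _⟩ : TopologicalSpace.Opens E`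
(`ContMDiff.codRestrict_sphere` for the map `U → E`, `contMDiff_subtype_val`), or change it outside a
neighbourhood of `z₀` to a globally smooth map `E → sphere`: e.g. `z ↦ κ z/‖κ z‖` with
`κ z = z₀ + χ z (z - z₀)`, `χ` a bump function supported in the ball of radius `‖z₀‖/2` about `z₀`
(`‖κ z - z₀‖ < ‖z₀‖`, so `κ z ≠ 0`), equal to `1` near `z₀`.  Compose with `φ` and with the inclusion
(`contMDiff_coe_sphere`), `ContMDiff.contDiff`.
`toSD φ`: the resulting `SDiff` (`g` is `rad φ.symm`); all fields are direct.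
-/

open Set Metric
open scoped ContDiff Manifold

noncomputable section

namespace DT

variable {E : Type} [NormedAddCommGroup E] [InnerProductSpace ℝ E]

theorem rad_mem {z : E} (hz : z ≠ 0) : ‖z‖⁻¹ • z ∈ sphere (0 : E) 1 := by
  rw [mem_sphere_zero_iff_norm, norm_smul, norm_inv, norm_norm,
    inv_mul_cancel₀ (norm_ne_zero_iff.2 hz)]

/-- The positively homogeneous extension of a map of the unit sphere. -/
def rad (φ : sphere (0 : E) 1 → sphere (0 : E) 1) (z : E) : E :=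
  open Classical in if hz : z ≠ 0 then ‖z‖ • (φ ⟨‖z‖⁻¹ • z, rad_mem hz⟩ : E) else 0

theorem rad_of_ne (φ : sphere (0 : E) 1 → sphere (0 : E) 1) {z : E} (hz : z ≠ 0) :
    rad φ z = ‖z‖ • (φ ⟨‖z‖⁻¹ • z, rad_mem hz⟩ : E) := by
  unfold rad
  rw [dif_pos hz]

theorem rad_zero (φ : sphere (0 : E) 1 → sphere (0 : E) 1) : rad φ 0 = 0 := by
  unfold rad
  rw [dif_neg (not_not.2 rfl)]

theorem rad_smooth {n : ℕ} [Fact (Module.finrank ℝ E = n + 1)]
    (φ : sphere (0 : E) 1 → sphere (0 : E) 1) (hφ : ContMDiff (𝓡 n) (𝓡 n) ∞ φ) :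
    ContDiffOn ℝ ∞ (rad φ) {0}ᶜ := by
  let U : TopologicalSpace.Opens E := ⟨{0}ᶜ, isOpen_compl_singleton⟩
  have hU : ∀ z : U, (z : E) ≠ 0 := fun z => z.2
  have hn : ∀ z : E, z ≠ 0 → ContDiffAt ℝ ∞ (fun z : E => ‖z‖) z := fun z hz =>
    contDiffAt_norm ℝ hz
  have h1 : ContMDiff 𝓘(ℝ, E) 𝓘(ℝ, E) ∞ (fun z : U => ‖(z : E)‖⁻¹ • (z : E)) := by
    intro z
    have h2 : ContDiffAt ℝ ∞ (fun z : E => ‖z‖⁻¹ • z) z.1 :=
      ((hn _ (hU z)).inv (norm_ne_zero_iff.2 (hU z))).smul contDiffAt_id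
    exact contMDiffAt_subtype_iff.2 h2.contMDiffAt
  have h2 : ContMDiff 𝓘(ℝ, E) (𝓡 n) ∞
      (Set.codRestrict (fun z : U => ‖(z : E)‖⁻¹ • (z : E)) (sphere (0 : E) 1)
        (fun z => rad_mem (hU z))) := ContMDiff.codRestrict_sphere h1 (fun z => rad_mem (hU z))
  have h3 : ContMDiff 𝓘(ℝ, E) 𝓘(ℝ, E) ∞ (fun z : U =>
      ((φ (Set.codRestrict (fun z : U => ‖(z : E)‖⁻¹ • (z : E)) (sphere (0 : E) 1)
        (fun z => rad_mem (hU z)) z)) : E)) := contMDiff_coe_sphere.comp (hφ.comp h2)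
  have h4 : ContMDiff 𝓘(ℝ, E) 𝓘(ℝ, ℝ) ∞ (fun z : U => ‖(z : E)‖) := by
    intro z
    exact contMDiffAt_subtype_iff.2 (hn _ (hU z)).contMDiffAt
  have h5 := h4.smul h3
  intro z hz
  have h6 : ContMDiffAt 𝓘(ℝ, E) 𝓘(ℝ, E) ∞ (fun z : U => rad φ z) ⟨z, hz⟩ := by
    have h7 : (fun z : U => rad φ z) = fun z : U => ‖(z : E)‖ •
      ((φ (Set.codRestrict (fun z : U => ‖(z : E)‖⁻¹ • (z : E)) (sphere (0 : E) 1)
        (fun z => rad_mem (hU z)) z)) : E) := by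
      funext z
      rw [rad_of_ne φ (hU z)]
      rfl
    rw [h7]
    exact h5 ⟨z, hz⟩
  exact (contMDiffAt_subtype_iff.1 h6).contDiffAt.contDiffWithinAt

theorem rad_hom (φ : sphere (0 : E) 1 → sphere (0 : E) 1) (c : ℝ) (hc : 0 < c) (z : E) :
    rad φ (c • z) = c • rad φ z := by
  by_cases hz : z = 0
  · rw [hz, smul_zero, rad_zero, smul_zero]
  · have hcz : c • z ≠ 0 := smul_ne_zero hc.ne' hz
    have h1 : ‖c • z‖ = c * ‖z‖ := by
      rw [norm_smul, Real.norm_eq_abs, abs_of_pos hc]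
    have h2 : ‖c • z‖⁻¹ • c • z = ‖z‖⁻¹ • z := by
      rw [h1, smul_smul, mul_inv, mul_comm c⁻¹, mul_assoc, inv_mul_cancel₀ hc.ne', mul_one]
    have h3 : (⟨‖c • z‖⁻¹ • c • z, rad_mem hcz⟩ : sphere (0 : E) 1) =
        ⟨‖z‖⁻¹ • z, rad_mem hz⟩ := Subtype.ext h2
    rw [rad_of_ne φ hcz, rad_of_ne φ hz, h3, h1, smul_smul]

theorem rad_norm (φ : sphere (0 : E) 1 → sphere (0 : E) 1) (z : E) : ‖rad φ z‖ = ‖z‖ := by
  by_cases hz : z = 0
  · rw [hz, rad_zero, norm_zero]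
  · rw [rad_of_ne φ hz, norm_smul, norm_norm]
    have h1 := mem_sphere_zero_iff_norm.1 (φ ⟨‖z‖⁻¹ • z, rad_mem hz⟩).2
    rw [h1, mul_one]

theorem rad_coe (φ : sphere (0 : E) 1 → sphere (0 : E) 1) (y : sphere (0 : E) 1) :
    rad φ (y : E) = (φ y : E) := by
  have h1 := mem_sphere_zero_iff_norm.1 y.2
  have hy : (y : E) ≠ 0 := by
    intro h
    rw [h, norm_zero] at h1
    exact zero_ne_one h1
  have h3 : (⟨‖(y : E)‖⁻¹ • (y : E), rad_mem hy⟩ : sphere (0 : E) 1) = y := by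
    apply Subtype.ext
    show ‖(y : E)‖⁻¹ • (y : E) = y
    rw [h1, inv_one, one_smul]
  rw [rad_of_ne φ hy, h3, h1, one_smul]

theorem rad_comp (φ χ : sphere (0 : E) 1 → sphere (0 : E) 1) (z : E) :
    rad φ (rad χ z) = rad (fun x => φ (χ x)) z := by
  by_cases hz : z = 0
  · rw [hz, rad_zero, rad_zero, rad_zero]
  · rw [rad_of_ne χ hz, rad_hom φ _ (norm_pos_iff.2 hz), rad_coe, rad_of_ne _ hz]

theorem rad_id (z : E) : rad (fun x => x) z = z := by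
  by_cases hz : z = 0
  · rw [hz, rad_zero]
  · rw [rad_of_ne _ hz, smul_smul, mul_inv_cancel₀ (norm_ne_zero_iff.2 hz), one_smul]

/-- The homogeneous extension of a diffeomorphism. -/
def toSD {n : ℕ} [Fact (Module.finrank ℝ E = n + 1)]
    (φ : Diffeomorph (𝓡 n) (𝓡 n) (sphere (0 : E) 1) (sphere (0 : E) 1) ∞) : SDiff E where
  f := rad φ
  g := rad φ.symm
  f_smooth := rad_smooth φ φ.contMDiff
  g_smooth := rad_smooth φ.symm φ.symm.contMDiff
  f_hom := rad_hom φ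
  g_hom := rad_hom φ.symm
  f_norm := rad_norm φ
  g_norm := rad_norm φ.symm
  gf := fun z => by rw [rad_comp]; simp only [Diffeomorph.symm_apply_apply]; exact rad_id z
  fg := fun z => by rw [rad_comp]; simp only [Diffeomorph.apply_symm_apply]; exact rad_id z

end DT
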