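import Pool.Agent.H78.DT.DIsoA

/-!
# Diffeomorphisms of the sphere and their action on the tangent bundle (definitions)

A diffeomorphism of the unit sphere of `E` is represented by its positively homogeneous extension
`f : E → E` (and the extension `g` of the inverse).
-/

open Set
open scoped ContDiff

noncomputable section

namespace DT

/-- A diffeomorphism of the unit sphere of `E`, extended homogeneously to `E`. -/
structure SDiff (E : Type) [NormedAddCommGroup E] [InnerProductSpace ℝ E] where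
  /-- the homogeneous extension -/
  f : E → E
  /-- the homogeneous extension of the inverse -/
  g : E → E
  f_smooth : ContDiffOn ℝ ∞ f {0}ᶜ
  g_smooth : ContDiffOn ℝ ∞ g {0}ᶜ
  f_hom : ∀ c : ℝ, 0 < c → ∀ z, f (c • z) = c • f z
  g_hom : ∀ c : ℝ, 0 < c → ∀ z, g (c • z) = c • g z
  f_norm : ∀ z, ‖f z‖ = ‖z‖
  g_norm : ∀ z, ‖g z‖ = ‖z‖
  gf : ∀ z, g (f z) = z
  fg : ∀ z, f (g z) = z

variable {E : Type} [NormedAddCommGroup E] [InnerProductSpace ℝ E]

/-- The inverse. -/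
def SDiff.symm (ψ : SDiff E) : SDiff E :=
  ⟨ψ.g, ψ.f, ψ.g_smooth, ψ.f_smooth, ψ.g_hom, ψ.f_hom, ψ.g_norm, ψ.f_norm, ψ.fg, ψ.gf⟩

theorem SDiff.f_ne (ψ : SDiff E) {z : E} (hz : z ≠ 0) : ψ.f z ≠ 0 := by
  rw [← norm_ne_zero_iff, ψ.f_norm]; exact norm_ne_zero_iff.2 hz

theorem SDiff.g_ne (ψ : SDiff E) {z : E} (hz : z ≠ 0) : ψ.g z ≠ 0 := ψ.symm.f_ne hz

/-- The composition `ψ ∘ χ`. -/
def SDiff.comp (ψ χ : SDiff E) : SDiff E where
  f := fun z => ψ.f (χ.f z)
  g := fun z => χ.g (ψ.g z)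
  f_smooth := ψ.f_smooth.comp χ.f_smooth fun _ hz => χ.f_ne hz
  g_smooth := χ.g_smooth.comp ψ.g_smooth fun _ hz => ψ.g_ne hz
  f_hom := fun c hc z => by rw [χ.f_hom c hc, ψ.f_hom c hc]
  g_hom := fun c hc z => by rw [ψ.g_hom c hc, χ.g_hom c hc]
  f_norm := fun z => by rw [ψ.f_norm, χ.f_norm]
  g_norm := fun z => by rw [χ.g_norm, ψ.g_norm]
  gf := fun z => by rw [ψ.gf, χ.gf]
  fg := fun z => by rw [χ.fg, ψ.fg]

/-- A linear isometry. -/
def SDiff.ofIso (A : E ≃ₗᵢ[ℝ] E) : SDiff E where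
  f := A
  g := A.symm
  f_smooth := A.contDiff.contDiffOn
  g_smooth := A.symm.contDiff.contDiffOn
  f_hom := fun c _ z => by simp
  g_hom := fun c _ z => by simp
  f_norm := fun z => by simp
  g_norm := fun z => by simp
  gf := fun z => by simp
  fg := fun z => by simp

/-- The action on tangent vectors seen as covectors:
`(x, v) ↦ (ψ x, (dψ_x)^{-T} v)`, i.e. pull-back of covectors by the inverse of `ψ`. -/
def pushf [CompleteSpace E] (ψ : SDiff E) (p : E × E) : E × E :=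
  (ψ.f p.1, ContinuousLinearMap.adjoint (fderiv ℝ ψ.g (ψ.f p.1)) p.2)

/-- `(x, v) ↦ (A x, A v)`. -/
def isoAct (A : E ≃ₗᵢ[ℝ] E) (p : E × E) : E × E := (A p.1, A p.2)

/-- The minimal rotation taking the unit vector `u` to the unit vector `w`. -/
def mrot (u w : E) : E →L[ℝ] E :=
  ContinuousLinearMap.id ℝ E - (1 + inner ℝ u w)⁻¹ • (innerSL ℝ (u + w)).smulRight (u + w) +
    (2 : ℝ) • (innerSL ℝ u).smulRight w

/-- `C x = R(ψ x → x) ∘ Dψ(x)`. -/
def Cm (ψ : SDiff E) (x : E) : E →L[ℝ] E := (mrot (ψ.f x) x).comp (fderiv ℝ ψ.f x)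

end DT
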