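import Pool.Agent.H78.DT.LoopN
import Pool.Agent.H78.DT.Rot
import Pool.Agent.H78.DT.Cone

/-!
# From homotopies in `SO(n+1)` to homotopies of sections (job DT-SECPATH)

`sec_path`: let `f : Sp n → SO(n+1)`, `f x x = x`, be homotopic to `1` in `SO(n+1)`, `n ≥ 2`.  Then
it is homotopic to `1` through maps `q : Sp n → SO(n+1)` with `q x x = x`.
PROOF. Let `H (t,x)`, `t ∈ I`, be a homotopy from `1` (`t = 0`) to `f` (`t = 1`) (use `HP.symm`).
`h (t,x) = H (t,x) *ᵥ x` satisfies `h (0,x) = x`, `h (1,x) = f x *ᵥ x = x`.  Let `r` be as in `loopN`,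
and `z₀ (u,(t,x))` the homotopy from `h` to `r t x`, relative to `t = 0, 1`.
`H' (t,x) = (r t)ᵀ H (t,x)` is a homotopy from `1` to `f` in `SOs`, and
`z (u,(t,x)) = (r t)ᵀ *ᵥ z₀ (u,(t,x))` is a homotopy from `H' (t,x) x` to `x`, relative to `t = 0, 1`.
By `transport` with `X = I × Sp n` (compact) there is `A (u,(t,x)) ∈ SOs` with `A (u,p) z (0,p) = z (u,p)`,
equal to `1` if `t = 0, 1`.  `H'' (t,x) = A (1,(t,x)) H' (t,x)` is a homotopy from `1` to `f`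
and `H'' (t,x) x = A (1,(t,x)) z (0,(t,x)) = z (1,(t,x)) = x`.
-/

open Matrix Set unitInterval Topology

noncomputable section

namespace DT

theorem SecPath_us {κ : Type} [Fintype κ] [DecidableEq κ] {M : Matrix κ κ ℝ} (h : M ∈ SOs κ)
    {v : κ → ℝ} (hv : v ∈ US κ) : M *ᵥ v ∈ US κ := by
  have hv' : v ⬝ᵥ v = 1 := hv
  show M *ᵥ v ⬝ᵥ M *ᵥ v = 1
  rw [dotProduct_mulVec, ← mulVec_transpose, mulVec_mulVec, h.1, one_mulVec, hv']

theorem SecPath_mul {κ : Type} [Fintype κ] [DecidableEq κ] {A B : Matrix κ κ ℝ}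
    (hA : A ∈ SOs κ) (hB : B ∈ SOs κ) : A * B ∈ SOs κ := by
  refine ⟨?_, ?_⟩
  · rw [transpose_mul, Matrix.mul_assoc, ← Matrix.mul_assoc Aᵀ, hA.1, Matrix.one_mul, hB.1]
  · rw [det_mul, hA.2, hB.2, mul_one]

theorem SecPath_inv {κ : Type} [Fintype κ] [DecidableEq κ] {A : Matrix κ κ ℝ}
    (hA : A ∈ SOs κ) : Aᵀ ∈ SOs κ := by
  refine ⟨?_, ?_⟩
  · rw [transpose_transpose]; exact mul_eq_one_comm.1 hA.1
  · rw [det_transpose, hA.2]

theorem sec_path (n : ℕ) (hn : 2 ≤ n) (f : Sp n → Matrix (Fin (n + 1)) (Fin (n + 1)) ℝ)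
    (hfix : ∀ x, f x *ᵥ x.1 = x.1) (h : HIn (SOs (Fin (n + 1))) f (fun _ => 1)) :
    HP (fun q : Sp n → Matrix (Fin (n + 1)) (Fin (n + 1)) ℝ =>
      ∀ x, q x ∈ SOs (Fin (n + 1)) ∧ q x *ᵥ x.1 = x.1) f (fun _ => 1) := by
  obtain ⟨H, Hc, HS, H0, H1⟩ := h.symm
  have hhc : Continuous fun p : I × Sp n => H p *ᵥ p.2.1 :=
    Hc.matrix_mulVec (continuous_subtype_val.comp continuous_snd)
  obtain ⟨r, rc, rS, r0, r1, Z, Zc, ZP, Z0, Z1⟩ := loopN n hn (fun p => H p *ᵥ p.2.1) hhc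
    (fun p => SecPath_us (HS p.1 p.2) p.2.2) (fun x => by rw [H0]; exact one_mulVec _)
    (fun x => by rw [H1]; exact hfix x)
  have zc : Continuous fun q : I × (I × Sp n) => (r q.2.1)ᵀ *ᵥ Z q :=
    (Continuous.matrix_transpose (rc.comp (continuous_fst.comp continuous_snd))).matrix_mulVec Zc
  obtain ⟨A, Ac, AS, A0, Az, Aid⟩ := transport (X := I × Sp n)
    (fun q : I × (I × Sp n) => (r q.2.1)ᵀ *ᵥ Z q) zc
    (fun q => SecPath_us (SecPath_inv (rS q.2.1)) ((ZP q.1).1 q.2))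
  have hconst : ∀ p : I × Sp n, (p.1 = 0 ∨ p.1 = 1) → A (1, p) = 1 := by
    intro p hp
    refine Aid p (fun s => ?_) 1
    show (r p.1)ᵀ *ᵥ Z (s, p) = (r p.1)ᵀ *ᵥ Z (0, p)
    have h4 : Z (s, p) = H p *ᵥ p.2.1 := (ZP s).2 p hp
    have h5 : Z (0, p) = H p *ᵥ p.2.1 := (ZP 0).2 p hp
    rw [h4, h5]
  refine HP.symm ⟨fun p => A (1, p) * ((r p.1)ᵀ * H p), ?_, ?_, ?_, ?_⟩
  · exact (Ac.comp (continuous_const.prodMk continuous_id)).matrix_mul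
      ((Continuous.matrix_transpose (rc.comp continuous_fst)).matrix_mul Hc)
  · intro u x
    refine ⟨SecPath_mul (AS _) (SecPath_mul (SecPath_inv (rS _)) (HS u x)), ?_⟩
    show (A (1, (u, x)) * ((r u)ᵀ * H (u, x))) *ᵥ x.1 = x.1
    rw [← mulVec_mulVec, ← mulVec_mulVec]
    have h1 := Az 1 (u, x)
    have h2 : Z (0, (u, x)) = H (u, x) *ᵥ x.1 := Z0 (u, x)
    have h3 : Z (1, (u, x)) = r u *ᵥ x.1 := Z1 (u, x)
    rw [← h2]
    refine h1.trans ?_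
    show (r u)ᵀ *ᵥ Z (1, (u, x)) = x.1
    rw [h3, mulVec_mulVec, (rS u).1, one_mulVec]
  · intro x
    show A (1, (0, x)) * ((r 0)ᵀ * H (0, x)) = 1
    rw [hconst (0, x) (Or.inl rfl), r0, H0, transpose_one, Matrix.one_mul, Matrix.one_mul]
  · intro x
    show A (1, (1, x)) * ((r 1)ᵀ * H (1, x)) = f x
    rw [hconst (1, x) (Or.inr rfl), r1, H1, transpose_one, Matrix.one_mul, Matrix.one_mul]

end DT
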