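import Mathlib

/-!
# Smooth maps on subsets (job DT-SM)

`SmOn A F`: near every point of `A` the map `F` agrees on `A` with a smooth map defined on an open
set of the ambient space.  Toolkit lemmas; all proofs are direct: for `SmOn.comp` take the local
extensions `F'` on `U ∋ p`, `G'` on `U' ∋ F p`; `F'` is continuous on `U`, so
`U'' = U ∩ F' ⁻¹' U'` is open (`ContinuousOn.isOpen_inter_preimage`), `G' ∘ F'` is smooth on it, and
for `q ∈ U'' ∩ A`: `G' (F' q) = G' (F q) = G (F q)` since `F q = F' q ∈ U' ∩ B`.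
-/

open Set
open scoped ContDiff

noncomputable section

namespace DT

variable {V W Z : Type} [NormedAddCommGroup V] [NormedSpace ℝ V] [NormedAddCommGroup W]
  [NormedSpace ℝ W] [NormedAddCommGroup Z] [NormedSpace ℝ Z]

/-- `F` is smooth on the subset `A`: near every point of `A`, it agrees on `A` with a smooth map
defined on an open subset of the ambient space. -/
def SmOn (A : Set V) (F : V → W) : Prop :=
  ∀ p ∈ A, ∃ (U : Set V) (F' : V → W), IsOpen U ∧ p ∈ U ∧ ContDiffOn ℝ ∞ F' U ∧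
    ∀ q ∈ U ∩ A, F' q = F q

variable {A B : Set V} {F G : V → W}

theorem SmOn.of_contDiffOn {U : Set V} (hU : IsOpen U) (hA : A ⊆ U) (h : ContDiffOn ℝ ∞ F U) :
    SmOn A F := by
  intro p hp
  exact ⟨U, F, hU, hA hp, h, fun _ _ => rfl⟩

theorem SmOn.of_contDiff (h : ContDiff ℝ ∞ F) : SmOn A F := by
  intro p _
  exact ⟨Set.univ, F, isOpen_univ, Set.mem_univ p, h.contDiffOn, fun _ _ => rfl⟩

theorem SmOn.contDiffOn (hA : IsOpen A) (h : SmOn A F) : ContDiffOn ℝ ∞ F A := by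
  intro p hp
  obtain ⟨U, F', hU, hpU, hF', hq⟩ := h p hp
  have h1 : ContDiffWithinAt ℝ ∞ F' A p := (hF'.contDiffAt (hU.mem_nhds hpU)).contDiffWithinAt
  refine h1.congr_of_eventuallyEq ?_ (hq p ⟨hpU, hp⟩).symm
  filter_upwards [mem_nhdsWithin_of_mem_nhds (hU.mem_nhds hpU), self_mem_nhdsWithin] with q h2 h3
  exact (hq q ⟨h2, h3⟩).symm

theorem SmOn.mono (h : SmOn B F) (hAB : A ⊆ B) : SmOn A F := by
  intro p hp
  obtain ⟨U, F', hU, hpU, hF', hq⟩ := h p (hAB hp)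
  exact ⟨U, F', hU, hpU, hF', fun q hq2 => hq q ⟨hq2.1, hAB hq2.2⟩⟩

theorem SmOn.congr (h : SmOn A F) (he : ∀ p ∈ A, G p = F p) : SmOn A G := by
  intro p hp
  obtain ⟨U, F', hU, hpU, hF', hq⟩ := h p hp
  exact ⟨U, F', hU, hpU, hF', fun q hq2 => (hq q hq2).trans (he q hq2.2).symm⟩

theorem SmOn.continuousOn (h : SmOn A F) : ContinuousOn F A := by
  intro p hp
  obtain ⟨U, F', hU, hpU, hF', hq⟩ := h p hp
  have h1 : ContinuousWithinAt F' A p :=
    (hF'.continuousOn.continuousAt (hU.mem_nhds hpU)).continuousWithinAt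
  refine h1.congr_of_eventuallyEq ?_ (hq p ⟨hpU, hp⟩).symm
  filter_upwards [mem_nhdsWithin_of_mem_nhds (hU.mem_nhds hpU), self_mem_nhdsWithin] with q h2 h3
  exact (hq q ⟨h2, h3⟩).symm

/-- Smoothness is local. -/
theorem SmOn.of_local (h : ∀ p ∈ A, ∃ U : Set V, IsOpen U ∧ p ∈ U ∧ SmOn (U ∩ A) F) :
    SmOn A F := by
  intro p hp
  obtain ⟨U, hU, hpU, hF⟩ := h p hp
  obtain ⟨U', F', hU', hpU', hF', hq⟩ := hF p ⟨hpU, hp⟩
  exact ⟨U ∩ U', F', hU.inter hU', ⟨hpU, hpU'⟩, hF'.mono Set.inter_subset_right,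
    fun q hq2 => hq q ⟨hq2.1.2, hq2.1.1, hq2.2⟩⟩

theorem SmOn.comp {C : Set W} {K : W → Z} (hK : SmOn C K) (hF : SmOn A F)
    (hm : ∀ p ∈ A, F p ∈ C) : SmOn A (fun p => K (F p)) := by
  intro p hp
  obtain ⟨U, F', hU, hpU, hF', hq⟩ := hF p hp
  obtain ⟨U', K', hU', hpU', hK', hq'⟩ := hK (F p) (hm p hp)
  refine ⟨U ∩ F' ⁻¹' U', fun q => K' (F' q), hF'.continuousOn.isOpen_inter_preimage hU hU',
    ⟨hpU, ?_⟩, ?_, ?_⟩
  · show F' p ∈ U'
    rw [hq p ⟨hpU, hp⟩]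
    exact hpU'
  · exact hK'.comp (hF'.mono Set.inter_subset_left) fun q hq2 => hq2.2
  · rintro q ⟨⟨h1, h2⟩, h3⟩
    have h4 : F' q = F q := hq q ⟨h1, h3⟩
    have h5 : F' q ∈ U' := h2
    show K' (F' q) = K (F q)
    rw [h4] at h5 ⊢
    exact hq' (F q) ⟨h5, hm q h3⟩

theorem SmOn.comp_contDiffOn {O : Set W} {K : W → Z} (hO : IsOpen O) (hK : ContDiffOn ℝ ∞ K O)
    (hF : SmOn A F) (hm : ∀ p ∈ A, F p ∈ O) : SmOn A (fun p => K (F p)) := by
  exact SmOn.comp (SmOn.of_contDiffOn hO Set.Subset.rfl hK) hF hm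

theorem SmOn.comp_contDiff {K : W → Z} (hK : ContDiff ℝ ∞ K) (hF : SmOn A F) :
    SmOn A (fun p => K (F p)) := by
  exact SmOn.comp_contDiffOn isOpen_univ hK.contDiffOn hF fun _ _ => Set.mem_univ _

theorem SmOn.prodMk {K : V → Z} (hF : SmOn A F) (hK : SmOn A K) :
    SmOn A (fun p => (F p, K p)) := by
  intro p hp
  obtain ⟨U, F', hU, hpU, hF', hq⟩ := hF p hp
  obtain ⟨U', K', hU', hpU', hK', hq'⟩ := hK p hp
  refine ⟨U ∩ U', fun q => (F' q, K' q), hU.inter hU', ⟨hpU, hpU'⟩,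
    (hF'.mono Set.inter_subset_left).prodMk (hK'.mono Set.inter_subset_right), ?_⟩
  rintro q ⟨⟨h1, h2⟩, h3⟩
  show (F' q, K' q) = (F q, K q)
  rw [hq q ⟨h1, h3⟩, hq' q ⟨h2, h3⟩]

theorem SmOn.fst {F : V → W × Z} (hF : SmOn A F) : SmOn A (fun p => (F p).1) := by
  exact SmOn.comp_contDiff (K := fun z : W × Z => z.1) contDiff_fst hF

theorem SmOn.snd {F : V → W × Z} (hF : SmOn A F) : SmOn A (fun p => (F p).2) := by
  exact SmOn.comp_contDiff (K := fun z : W × Z => z.2) contDiff_snd hF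

theorem SmOn.const (w : W) : SmOn A (fun _ => w) := by
  exact SmOn.of_contDiff contDiff_const

theorem SmOn.add (hF : SmOn A F) (hG : SmOn A G) : SmOn A (fun p => F p + G p) := by
  exact SmOn.comp_contDiff (K := fun z : W × W => z.1 + z.2) (contDiff_fst.add contDiff_snd)
    (hF.prodMk hG)

theorem SmOn.sub (hF : SmOn A F) (hG : SmOn A G) : SmOn A (fun p => F p - G p) := by
  exact SmOn.comp_contDiff (K := fun z : W × W => z.1 - z.2) (contDiff_fst.sub contDiff_snd)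
    (hF.prodMk hG)

theorem SmOn.neg (hF : SmOn A F) : SmOn A (fun p => -F p) := by
  exact SmOn.comp_contDiff (K := fun z : W => -z) contDiff_neg hF

theorem SmOn.smul {c : V → ℝ} (hc : SmOn A c) (hF : SmOn A F) :
    SmOn A (fun p => c p • F p) := by
  exact SmOn.comp_contDiff (K := fun z : ℝ × W => z.1 • z.2) contDiff_smul (hc.prodMk hF)

theorem SmOn.inv {c : V → ℝ} (hc : SmOn A c) (h0 : ∀ p ∈ A, c p ≠ 0) :
    SmOn A (fun p => (c p)⁻¹) := by
  exact SmOn.comp_contDiffOn (K := fun z : ℝ => z⁻¹) (O := {0}ᶜ) isOpen_compl_singleton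
    (fun z hz => (contDiffAt_inv ℝ hz).contDiffWithinAt) hc h0

theorem SmOn.clm_apply {L : V → W →L[ℝ] Z} (hL : SmOn A L) (hF : SmOn A F) :
    SmOn A (fun p => L p (F p)) := by
  exact SmOn.comp_contDiff (K := fun z : (W →L[ℝ] Z) × W => z.1 z.2)
    isBoundedBilinearMap_apply.contDiff (hL.prodMk hF)

theorem SmOn.clm_comp {X : Type} [NormedAddCommGroup X] [NormedSpace ℝ X] {L : V → W →L[ℝ] Z}
    {L' : V → X →L[ℝ] W} (hL : SmOn A L) (hL' : SmOn A L') :
    SmOn A (fun p => (L p).comp (L' p)) := by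
  exact SmOn.comp_contDiff (K := fun z : (W →L[ℝ] Z) × (X →L[ℝ] W) => z.1.comp z.2)
    isBoundedBilinearMap_comp.contDiff (hL.prodMk hL')

theorem SmOn.inner {E : Type} [NormedAddCommGroup E] [InnerProductSpace ℝ E] {a b : V → E}
    (ha : SmOn A a) (hb : SmOn A b) : SmOn A (fun p => inner ℝ (a p) (b p)) := by
  exact SmOn.comp_contDiff (K := fun z : E × E => Inner.inner ℝ z.1 z.2) contDiff_inner (ha.prodMk hb)

theorem SmOn.clm_inverse [CompleteSpace W] {L : V → W →L[ℝ] W} (hL : SmOn A L)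
    (h : ∀ p ∈ A, IsUnit (L p)) : SmOn A (fun p => Ring.inverse (L p)) := by
  refine SmOn.comp_contDiffOn (K := fun z : W →L[ℝ] W => Ring.inverse z)
    (O := {z : W →L[ℝ] W | IsUnit z}) Units.isOpen ?_ hL h
  rintro z ⟨u, rfl⟩
  exact (contDiffAt_ringInverse ℝ u).contDiffWithinAt

theorem SmOn.adjoint {E : Type} [NormedAddCommGroup E] [InnerProductSpace ℝ E] [CompleteSpace E]
    {L : V → E →L[ℝ] E} (hL : SmOn A L) :
    SmOn A (fun p => ContinuousLinearMap.adjoint (L p)) := by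
  refine SmOn.comp_contDiff (K := fun z : E →L[ℝ] E => ContinuousLinearMap.adjoint z) ?_ hL
  have h1 : IsBoundedLinearMap ℝ (fun z : E →L[ℝ] E => ContinuousLinearMap.adjoint z) := by
    refine ⟨⟨fun x y => map_add _ x y, fun c x => ?_⟩, 1, one_pos, fun x => ?_⟩
    · rw [map_smulₛₗ]
      rfl
    · rw [LinearIsometryEquiv.norm_map, one_mul]
  exact h1.contDiff

end DT
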