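import Pool.Agent.H78.DT.Bott0
import Pool.Agent.H78.DT.Tlf

/-!
# `A ⊕ hyp K` is homotopic to `StF A` (job DT-ST1)

Write `θ = πt`, `c = cos θ`, `s = sin θ` (and `c₀` for the gradation, called `c` in the
statement), `Y` the parameter space.  All matrices are 3 x 3 blocks over `ι`, the generators are
`e ⊕ -e ⊕ e`, and `σ` denotes the form `[[0,1],[1,0]]` on blocks 2, 3.

PROOF. Let `ρ(θ)` be the block matrix `[[c, 0, s], [0, 1, 0], [-s, 0, c]]` (scalars times `1`).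
Direct computation: `StF (A) t = ρ(θ)ᵀ (A ⊕ σ) ρ(θ)`
(`StF A = [[c²A, -s, csA], [-s, 0, c], [csA, c, s²A]]`).
Step 0. By `transport_form` applied to `γ (u, y) = A (u, y)` there is `g (θ, y)`, commuting with
the `e i`, `g (0, y) = 1`, `gᵀ A(θ, y) g = A (0, y) = c₀`.  Put `k = g⁻¹`, so
`A(θ, y) = kᵀ c₀ k`.  Let `E(θ) = exp(θK) = cos θ + sin θ K` (so `E(θ)ᵀ = E(-θ)`,
`E(θ)ᵀ c₀ E(θ) = c₀` as `K` commutes with `c₀` and `Eᵀ E = 1`), and
`G(θ, y) = k⁻¹ E(θ) k`.  Then `Gᵀ A G = kᵀ Eᵀ k⁻ᵀ kᵀ c₀ k k⁻¹ E k = kᵀ c₀ k = A`, and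
`G(0,y) = 1`, `G(π, y) = -1`.  Hence
`StF A = ρ̃ᵀ (A ⊕ σ) ρ̃` with `ρ̃ = (G ⊕ 1 ⊕ 1) ρ(θ)`.
At `θ = 0`: `ρ̃ = 1`; at `θ = π`: `ρ(π) = diag(-1, 1, -1)` and `ρ̃ = diag(1, 1, -1)`.
GENERAL PRINCIPLE: if `P_u(θ, y)` (`u ∈ I`) is a continuous family of invertible matrices
commuting with the generators `e3 e i` with `P_u(0,y) = 1` and `P_u(π,y) = diag(1,1,-1)`, then
`P_uᵀ (A ⊕ σ) P_u` is symmetric, invertible, anticommutes with the generators, equals `c₀ ⊕ σ` at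
`t = 0` and `diag(1,1,-1) (-c₀ ⊕ σ) diag(1,1,-1) = -(c₀ ⊕ σ)` at `t = 1`.
Step 1 (from `ρ̃` to `(E(θ) ⊕ 1 ⊕ 1) ρ(θ)`):
`P_u = (k(uθ,y)⁻¹ E(θ) k(uθ,y) ⊕ 1 ⊕ 1) ρ(θ)` for `u` from `1` to `0` (`uθ` means the parameter
`u·t ∈ I`); at `θ = π` the first block is `k⁻¹ (-1) k = -1`.
Step 2: `ρ(θ) = exp(-θ N_0)` with `N_0 = J ⊗ 1` acting on blocks 1, 3
(`N_0 = [[0,0,-1],[0,0,0],[1,0,0]]` in blocks), i.e. on blocks `(1,3)`:
`cos θ - sin θ N`.  Let `N_v = cos(v) N_0 + sin(v) T`, `T = diag(K, ·, -K)` on blocks `(1,3)`,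
`v ∈ [0, π/2]`.  `N_0² = T² = -1` and `N_0 T = -T N_0` on blocks `(1,3)`, so `N_v² = -1` there.
`P = (E(θ) ⊕ 1 ⊕ 1) (cos θ - sin θ N_v)` (the second factor being `1` on block 2).
At `θ = 0` it is `1`, at `θ = π` it is `diag(-1,1,1) diag(-1,1,-1) = diag(1,1,-1)`.  At
`v = π/2`: `cos θ - sin θ T = diag(E(-θ), 1, E(θ))`, so `P = diag(1, 1, E(θ))`, and
`Pᵀ (A ⊕ σ) P = A ⊕ [[0, E(θ)], [E(θ)ᵀ, 0]] = A ⊕ hyp K t`.
Everything commutes with the generators because `K`, `k` do and blocks 1, 3 have the same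
generators.  Concatenate (`HP.trans`, `HP.symm`).
-/

open Matrix Set unitInterval Topology

noncomputable section

namespace DT

set_option linter.unusedSectionVars false
set_option linter.unusedSimpArgs false

section aux

variable {ε ι Y : Type} [Fintype ι] [DecidableEq ι]

/-- complex scalars -/
def st1_c (K : Matrix ι ι ℝ) (x z : ℝ) : Matrix ι ι ℝ := x • 1 + z • K

theorem st1_c_mul {K : Matrix ι ι ℝ} (hK : K * K = -1) (x z x' z' : ℝ) :
    st1_c K x z * st1_c K x' z' = st1_c K (x * x' - z * z') (x * z' + z * x') := by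
  unfold st1_c
  simp only [add_mul, mul_add, smul_mul_smul, mul_one, one_mul, hK, smul_neg, sub_smul, add_smul]
  abel

theorem st1_c_add (K : Matrix ι ι ℝ) (x z x' z' : ℝ) :
    st1_c K x z + st1_c K x' z' = st1_c K (x + x') (z + z') := by
  unfold st1_c
  simp only [add_smul]
  abel

theorem st1_c_T {K : Matrix ι ι ℝ} (hK : Kᵀ = -K) (x z : ℝ) :
    (st1_c K x z)ᵀ = st1_c K x (-z) := by
  unfold st1_c
  rw [transpose_add, transpose_smul, transpose_smul, hK, transpose_one, smul_neg, neg_smul]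

theorem st1_c_comm {K X : Matrix ι ι ℝ} (hK : K * X = X * K) (x z : ℝ) :
    st1_c K x z * X = X * st1_c K x z := by
  unfold st1_c
  rw [add_mul, mul_add, smul_mul_assoc, smul_mul_assoc, mul_smul_comm, mul_smul_comm, hK, one_mul,
    mul_one]

theorem st1_c_one (K : Matrix ι ι ℝ) : st1_c K 1 0 = 1 := by
  unfold st1_c
  rw [one_smul, zero_smul, add_zero]

theorem st1_c_zero (K : Matrix ι ι ℝ) : st1_c K 0 0 = 0 := by
  unfold st1_c
  rw [zero_smul, zero_smul, add_zero]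

theorem st1_c_neg (K : Matrix ι ι ℝ) (x z : ℝ) : -st1_c K x z = st1_c K (-x) (-z) := by
  unfold st1_c
  rw [neg_smul, neg_smul, neg_add]

/-- rotation in blocks 1, 3 -/
def st1_R (K : Matrix ι ι ℝ) (x z w : ℝ) : Matrix (ι ⊕ (ι ⊕ ι)) (ι ⊕ (ι ⊕ ι)) ℝ :=
  blk3 (st1_c K x (-z)) 0 (st1_c K w 0) 0 1 0 (st1_c K (-w) 0) 0 (st1_c K x z)

/-- block 1 -/
def st1_D (G : Matrix ι ι ℝ) : Matrix (ι ⊕ (ι ⊕ ι)) (ι ⊕ (ι ⊕ ι)) ℝ :=
  blk3 G 0 0 0 1 0 0 0 1

/-- the form -/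
def st1_S (A : Matrix ι ι ℝ) : Matrix (ι ⊕ (ι ⊕ ι)) (ι ⊕ (ι ⊕ ι)) ℝ :=
  blk3 A 0 0 0 0 1 0 1 0

theorem st1_R_T {K : Matrix ι ι ℝ} (hK : Kᵀ = -K) (x z w : ℝ) :
    (st1_R K x z w)ᵀ = st1_R K x (-z) (-w) := by
  unfold st1_R
  rw [blk3_transpose]
  simp only [st1_c_T hK, transpose_zero, transpose_one, neg_neg, neg_zero]

theorem st1_R_unit {K : Matrix ι ι ℝ} (hK : K * K = -1) {x z w : ℝ}
    (h : x ^ 2 + z ^ 2 + w ^ 2 = 1) : st1_R K x z w * st1_R K x (-z) (-w) = 1 := by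
  unfold st1_R
  rw [blk3_mul, blk3_one]
  simp only [st1_c_mul hK, st1_c_add, mul_zero, zero_mul, add_zero, zero_add, mul_one]
  have e1 : ∀ a b a' b' : ℝ, a = a' → b = b' → st1_c K a b = st1_c K a' b' := by
    intro a b a' b' h1 h2
    rw [h1, h2]
  congr 1
  · rw [← st1_c_one K]
    exact e1 _ _ _ _ (by linarith) (by ring)
  · rw [← st1_c_zero K]
    exact e1 _ _ _ _ (by ring) (by ring)
  · rw [← st1_c_zero K]
    exact e1 _ _ _ _ (by ring) (by ring)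
  · rw [← st1_c_one K]
    exact e1 _ _ _ _ (by linarith) (by ring)

theorem st1_R_comm {e : ε → Matrix ι ι ℝ} {K : Matrix ι ι ℝ} (hK : ∀ i, K * e i = e i * K)
    (x z w : ℝ) (i : ε) : st1_R K x z w * e3 e i = e3 e i * st1_R K x z w := by
  unfold st1_R
  rw [e3_eq, blk3_mul, blk3_mul]
  simp only [mul_zero, zero_mul, add_zero, zero_add, mul_one, one_mul, st1_c_comm (hK i)]

theorem st1_D_comm {e : ε → Matrix ι ι ℝ} {G : Matrix ι ι ℝ} {i : ε} (hG : G * e i = e i * G) :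
    st1_D G * e3 e i = e3 e i * st1_D G := by
  unfold st1_D
  rw [e3_eq, blk3_mul, blk3_mul]
  simp only [mul_zero, zero_mul, add_zero, zero_add, mul_one, one_mul, hG]

theorem st1_D_T (G : Matrix ι ι ℝ) : (st1_D G)ᵀ = st1_D Gᵀ := by
  unfold st1_D
  rw [blk3_transpose]
  simp only [transpose_zero, transpose_one]

theorem st1_D_mul (G H : Matrix ι ι ℝ) : st1_D G * st1_D H = st1_D (G * H) := by
  unfold st1_D
  rw [blk3_mul]
  simp only [mul_zero, zero_mul, add_zero, zero_add, mul_one]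

theorem st1_D_one : st1_D (1 : Matrix ι ι ℝ) = 1 := blk3_one.symm

theorem st1_D_unit {G : Matrix ι ι ℝ} (hG : IsUnit G) : IsUnit (st1_D G) := by
  obtain ⟨u, rfl⟩ := hG
  refine ⟨⟨st1_D (u : Matrix ι ι ℝ), st1_D ((u⁻¹ : (Matrix ι ι ℝ)ˣ) : Matrix ι ι ℝ), ?_, ?_⟩, rfl⟩
  · rw [st1_D_mul, u.mul_inv, st1_D_one]
  · rw [st1_D_mul, u.inv_mul, st1_D_one]

theorem st1_S_mul (A B : Matrix ι ι ℝ) : st1_S A * st1_S B = st1_D (A * B) := by
  unfold st1_S st1_D
  rw [blk3_mul]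
  simp only [mul_zero, zero_mul, add_zero, zero_add, mul_one]

theorem st1_S_mem {e : ε → Matrix ι ι ℝ} {A : Matrix ι ι ℝ} (hA : A ∈ SymX e) :
    st1_S A ∈ SymX (e3 e) := by
  obtain ⟨⟨h1, h2⟩, u, hu⟩ := hA
  refine ⟨⟨?_, ?_⟩, ⟨⟨st1_S (u : Matrix ι ι ℝ),
    st1_S ((u⁻¹ : (Matrix ι ι ℝ)ˣ) : Matrix ι ι ℝ), ?_, ?_⟩, ?_⟩⟩
  · unfold st1_S
    rw [blk3_transpose, h1]
    simp only [transpose_zero, transpose_one]
  · intro i
    unfold st1_S
    rw [e3_eq, blk3_mul, blk3_mul, blk3_neg]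
    simp only [mul_zero, zero_mul, add_zero, zero_add, mul_one, one_mul, h2, neg_zero, neg_neg]
  · rw [st1_S_mul, u.mul_inv, st1_D_one]
  · rw [st1_S_mul, u.inv_mul, st1_D_one]
  · show st1_S (u : Matrix ι ι ℝ) = st1_S A
    rw [hu]

/-- conjugation -/
theorem st1_conj {E : ε → Matrix ι ι ℝ} {S P : Matrix ι ι ℝ} (hS : S ∈ SymX E) (hP : IsUnit P)
    (h1 : ∀ i, P * E i = E i * P) (h2 : ∀ i, Pᵀ * E i = E i * Pᵀ) : Pᵀ * S * P ∈ SymX E := by
  obtain ⟨⟨g1, g2⟩, g3⟩ := hS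
  refine ⟨⟨?_, ?_⟩, ?_⟩
  · rw [transpose_mul, transpose_mul, transpose_transpose, g1, mul_assoc]
  · intro i
    calc Pᵀ * S * P * E i = Pᵀ * S * (P * E i) := by rw [mul_assoc]
      _ = Pᵀ * (S * E i) * P := by rw [h1]; simp only [mul_assoc]
      _ = -(Pᵀ * E i * S * P) := by rw [g2]; simp only [mul_neg, neg_mul, mul_assoc]
      _ = -(E i * (Pᵀ * S * P)) := by rw [h2]; simp only [mul_assoc]
  · exact (((isUnit_transpose P).2 hP).mul g3).mul hP

theorem st1_Tcomm {E : ε → Matrix ι ι ℝ} {S G : Matrix ι ι ℝ} (hS : S ∈ SymX E) (hG : IsUnit G)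
    (h1 : ∀ i, G * E i = E i * G) (h2 : Gᵀ * S * G = S) (i : ε) : Gᵀ * E i = E i * Gᵀ := by
  obtain ⟨⟨g1, g2⟩, g3⟩ := hS
  have hu : IsUnit (S * G) := g3.mul hG
  refine hu.mul_right_cancel ?_
  calc Gᵀ * E i * (S * G) = Gᵀ * (E i * S) * G := by simp only [mul_assoc]
    _ = -(Gᵀ * (S * E i) * G) := by rw [g2]; simp only [mul_neg, neg_mul, neg_neg]
    _ = -(Gᵀ * S * G * E i) := by
        rw [mul_assoc (Gᵀ * S), h1]
        simp only [mul_assoc]
    _ = E i * Gᵀ * (S * G) := by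
        rw [h2, g2, neg_neg, mul_assoc (E i), ← mul_assoc Gᵀ, h2]

theorem st1_gp [TopologicalSpace Y] (e : ε → Matrix ι ι ℝ) (c : Matrix ι ι ℝ)
    (A : I × Y → Matrix ι ι ℝ) (hA : Continuous A) (hodd : OddF e A) (h0 : ∀ y, A (0, y) = c)
    (P : I × (I × Y) → Matrix (ι ⊕ (ι ⊕ ι)) (ι ⊕ (ι ⊕ ι)) ℝ) (hPc : Continuous P)
    (hPu : ∀ p, IsUnit (P p)) (hP1 : ∀ p i, P p * e3 e i = e3 e i * P p)
    (hP2 : ∀ p i, (P p)ᵀ * e3 e i = e3 e i * (P p)ᵀ)
    (g0 : ∀ u y, P (u, (0, y)) = 1) (g1 : ∀ u y, P (u, (1, y)) = blk3 1 0 0 0 1 0 0 0 (-1)) :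
    HP (fun B : I × Y → Matrix (ι ⊕ (ι ⊕ ι)) (ι ⊕ (ι ⊕ ι)) ℝ =>
        OddF (e3 e) B ∧ ∀ y, B (0, y) = fromBlocks c 0 0 (fromBlocks 0 1 1 0))
      (fun p => (P (0, p))ᵀ * st1_S (A p) * P (0, p))
      (fun p => (P (1, p))ᵀ * st1_S (A p) * P (1, p)) := by
  have hSc : Continuous fun p : I × (I × Y) => st1_S (A p.2) := by
    unfold st1_S
    exact continuous_blk3 (hA.comp continuous_snd) continuous_const continuous_const
      continuous_const continuous_const continuous_const continuous_const continuous_const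
      continuous_const
  refine ⟨fun p => (P p)ᵀ * st1_S (A p.2) * P p,
    ((hPc.matrix_transpose).matrix_mul hSc).matrix_mul hPc, ?_, fun _ => rfl, fun _ => rfl⟩
  intro u
  have e0 : ∀ y, (P (u, (0, y)))ᵀ * st1_S (A (0, y)) * P (u, (0, y)) = st1_S c := by
    intro y
    rw [g0, h0, transpose_one, one_mul, mul_one]
  refine ⟨⟨fun p => st1_conj (st1_S_mem (hodd.1 p)) (hPu _) (hP1 _) (hP2 _), fun y => ?_⟩,
    fun y => ?_⟩
  · show (P (u, (1, y)))ᵀ * st1_S (A (1, y)) * P (u, (1, y)) =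
      -((P (u, (0, y)))ᵀ * st1_S (A (0, y)) * P (u, (0, y)))
    rw [e0, g1, hodd.2, h0]
    unfold st1_S
    rw [blk3_transpose, blk3_mul, blk3_mul, blk3_neg]
    simp only [mul_zero, zero_mul, add_zero, zero_add, mul_one, one_mul, transpose_one,
      transpose_zero, neg_zero, mul_neg, neg_mul, transpose_neg]
  · show (P (u, (0, y)))ᵀ * st1_S (A (0, y)) * P (u, (0, y)) = _
    rw [e0, fromBlocks_blk3]
    rfl

theorem st1_R_e {K : Matrix ι ι ℝ} {x z w : ℝ} (hx : x = 1) (hz : z = 0) (hw : w = 0) :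
    st1_R K x z w = 1 := by
  unfold st1_R
  rw [hx, hz, hw, neg_zero, st1_c_one, st1_c_zero, blk3_one]

theorem st1_R_e1 {K : Matrix ι ι ℝ} {x z w : ℝ} (hx : x = -1) (hz : z = 0) (hw : w = 0) :
    st1_D (-1) * st1_R K x z w = blk3 1 0 0 0 1 0 0 0 (-1) := by
  unfold st1_R st1_D
  have h1 : st1_c K (-1) 0 = -1 := by
    rw [← st1_c_one K, st1_c_neg, neg_zero]
  rw [hx, hz, hw, neg_zero, h1, st1_c_zero, blk3_mul]
  simp only [mul_zero, zero_mul, add_zero, zero_add, mul_one, one_mul, mul_neg, neg_mul, neg_neg,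
    neg_zero]

theorem st1_lin (K : Matrix ι ι ℝ) (t : ℝ) :
    lin 1 K t = st1_c K (Real.cos (Real.pi * t)) (Real.sin (Real.pi * t)) := rfl

theorem st1_cc (K : Matrix ι ι ℝ) {x z x' z' : ℝ} (h1 : x = x') (h2 : z = z') :
    st1_c K x z = st1_c K x' z' := by
  rw [h1, h2]

end aux

theorem st1 {ε ι Y : Type} [Fintype ι] [DecidableEq ι] [TopologicalSpace Y] [CompactSpace Y]
    (e : ε → Matrix ι ι ℝ) (c K : Matrix ι ι ℝ) (A : I × Y → Matrix ι ι ℝ)
    (hA : Continuous A) (hodd : OddF e A) (h0 : ∀ y, A (0, y) = c) (hc : c ∈ Grad e)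
    (hK : Cpx e c K) :
    HP (fun B : I × Y → Matrix (ι ⊕ (ι ⊕ ι)) (ι ⊕ (ι ⊕ ι)) ℝ =>
        OddF (e3 e) B ∧ ∀ y, B (0, y) = fromBlocks c 0 0 (fromBlocks 0 1 1 0))
      (fun p => fromBlocks (A p) 0 0 (hyp K (p.1 : ℝ)))
      (fun p => StF (A p) (p.1 : ℝ)) := by
  obtain ⟨hKT, hK2, hKc, hKe⟩ := hK
  obtain ⟨g, hgc, hg0, hgu, hge, hgS, -⟩ := transport_form e A hA hodd.1
  obtain ⟨E, hE⟩ : ∃ E : ℝ → Matrix ι ι ℝ, E = fun t =>
    st1_c K (Real.cos (Real.pi * t)) (Real.sin (Real.pi * t)) := ⟨_, rfl⟩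
  have hEt : ∀ t, E t = st1_c K (Real.cos (Real.pi * t)) (Real.sin (Real.pi * t)) := by
    intro t
    rw [hE]
  have hEc : Continuous E := by
    rw [hE]
    unfold st1_c
    fun_prop
  have hET : ∀ t, (E t)ᵀ * E t = 1 := by
    intro t
    rw [hEt, st1_c_T hKT, st1_c_mul hK2, ← st1_c_one K]
    refine st1_cc K ?_ (by ring)
    have := Real.sin_sq_add_cos_sq (Real.pi * t)
    linarith
  have hET2 : ∀ t, E t * (E t)ᵀ = 1 := by
    intro t
    rw [hEt, st1_c_T hKT, st1_c_mul hK2, ← st1_c_one K]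
    refine st1_cc K ?_ (by ring)
    have := Real.sin_sq_add_cos_sq (Real.pi * t)
    linarith
  have hEu : ∀ t, IsUnit (E t) := fun t => ⟨⟨E t, (E t)ᵀ, hET2 t, hET t⟩, rfl⟩
  have hE0 : E 0 = 1 := by
    rw [hEt, mul_zero, Real.cos_zero, Real.sin_zero, st1_c_one]
  have hE1 : E 1 = -1 := by
    rw [hEt, mul_one, Real.cos_pi, Real.sin_pi, ← st1_c_one K, st1_c_neg, neg_zero]
  have hEe : ∀ t i, E t * e i = e i * E t := by
    intro t i
    rw [hEt]
    exact st1_c_comm (hKe i) _ _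
  have hETe : ∀ t i, (E t)ᵀ * e i = e i * (E t)ᵀ := by
    intro t i
    rw [hEt, st1_c_T hKT]
    exact st1_c_comm (hKe i) _ _
  have hEc' : ∀ t, (E t)ᵀ * c * E t = c := by
    intro t
    have h1 : (E t)ᵀ * c = c * (E t)ᵀ := by
      rw [hEt, st1_c_T hKT]
      exact st1_c_comm hKc _ _
    rw [h1, mul_assoc, hET, mul_one]
  -- the conjugated family
  have hginv : ∀ p, g p * (g p)⁻¹ = 1 := fun p => Matrix.mul_nonsing_inv _
    ((Matrix.isUnit_iff_isUnit_det _).1 (hgu p))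
  have hginv2 : ∀ p, (g p)⁻¹ * g p = 1 := fun p => Matrix.nonsing_inv_mul _
    ((Matrix.isUnit_iff_isUnit_det _).1 (hgu p))
  have hgic : Continuous fun p => (g p)⁻¹ := by
    have h1 : (fun p => (g p)⁻¹) = fun p => Ring.inverse (g p).det • (g p).adjugate := by
      funext p
      rw [Matrix.inv_def]
    rw [h1]
    have h2 : Continuous fun p => (g p).det := hgc.matrix_det
    have h3 : Continuous fun p => Ring.inverse (g p).det := by
      have h4 : (fun p => Ring.inverse (g p).det) = fun p => ((g p).det)⁻¹ := by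
        funext p
        rw [Ring.inverse_eq_inv']
      rw [h4]
      refine h2.inv₀ fun p => ?_
      exact ((Matrix.isUnit_iff_isUnit_det _).1 (hgu p)).ne_zero
    exact h3.smul hgc.matrix_adjugate
  have hgie : ∀ p i, (g p)⁻¹ * e i = e i * (g p)⁻¹ := by
    intro p i
    calc (g p)⁻¹ * e i = (g p)⁻¹ * (e i * g p) * (g p)⁻¹ := by
          rw [mul_assoc, mul_assoc, hginv, mul_one]
      _ = (g p)⁻¹ * g p * e i * (g p)⁻¹ := by rw [← hge]; simp only [mul_assoc]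
      _ = _ := by rw [hginv2, one_mul]
  obtain ⟨G, hG⟩ : ∃ G : I × Y → ℝ → Matrix ι ι ℝ, G = fun q t => g q * E t * (g q)⁻¹ := ⟨_, rfl⟩
  have hGq : ∀ q t, G q t = g q * E t * (g q)⁻¹ := by
    intro q t
    rw [hG]
  have hGu : ∀ q t, IsUnit (G q t) := by
    intro q t
    rw [hGq]
    exact ((hgu q).mul (hEu t)).mul ⟨⟨(g q)⁻¹, g q, hginv2 q, hginv q⟩, rfl⟩
  have hGe : ∀ q t i, G q t * e i = e i * G q t := by
    intro q t i
    rw [hGq, mul_assoc, hgie, ← mul_assoc, mul_assoc (g q), hEe, ← mul_assoc (g q), hge]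
    simp only [mul_assoc]
  have hGA : ∀ q t, (G q t)ᵀ * A q * G q t = A q := by
    intro q t
    obtain ⟨u, y⟩ := q
    have h1 := hgS u y
    rw [h0] at h1
    have h2 : A (u, y) = ((g (u, y))⁻¹)ᵀ * c * (g (u, y))⁻¹ := by
      rw [← h1]
      calc A (u, y) = (g (u, y) * (g (u, y))⁻¹)ᵀ * A (u, y) * (g (u, y) * (g (u, y))⁻¹) := by
            rw [hginv, transpose_one, one_mul, mul_one]
        _ = _ := by rw [transpose_mul]; simp only [mul_assoc]
    calc (G (u, y) t)ᵀ * A (u, y) * G (u, y) t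
        = ((g (u, y))⁻¹)ᵀ * ((E t)ᵀ * ((g (u, y))ᵀ * A (u, y) * g (u, y)) * E t) *
          (g (u, y))⁻¹ := by
          rw [hGq, transpose_mul, transpose_mul]
          simp only [mul_assoc]
      _ = ((g (u, y))⁻¹)ᵀ * c * (g (u, y))⁻¹ := by rw [h1, hEc']
      _ = A (u, y) := h2.symm
  have hGTe : ∀ q t i, (G q t)ᵀ * e i = e i * (G q t)ᵀ := fun q t i =>
    st1_Tcomm (hodd.1 q) (hGu q t) (hGe q t) (hGA q t) i
  have hG0 : ∀ y t, G (0, y) t = E t := by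
    intro y t
    rw [hGq, hg0, inv_one, one_mul, mul_one]
  -- first family
  obtain ⟨P1, hP1⟩ : ∃ P : I × (I × Y) → Matrix (ι ⊕ (ι ⊕ ι)) (ι ⊕ (ι ⊕ ι)) ℝ,
    P = fun p => st1_D (G (p.1 * p.2.1, p.2.2) (p.2.1 : ℝ)) *
      st1_R K (Real.cos (Real.pi * (p.2.1 : ℝ))) 0 (Real.sin (Real.pi * (p.2.1 : ℝ))) := ⟨_, rfl⟩
  obtain ⟨P2, hP2⟩ : ∃ P : I × (I × Y) → Matrix (ι ⊕ (ι ⊕ ι)) (ι ⊕ (ι ⊕ ι)) ℝ,
    P = fun p => st1_D (E (p.2.1 : ℝ)) *
      st1_R K (Real.cos (Real.pi * (p.2.1 : ℝ)))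
        (Real.sin (Real.pi * (p.2.1 : ℝ)) * Real.sin (Real.pi / 2 * (p.1 : ℝ)))
        (Real.sin (Real.pi * (p.2.1 : ℝ)) * Real.cos (Real.pi / 2 * (p.1 : ℝ))) := ⟨_, rfl⟩
  have hu1 : ∀ t : ℝ, Real.cos (Real.pi * t) ^ 2 + 0 ^ 2 + Real.sin (Real.pi * t) ^ 2 = 1 := by
    intro t
    have := Real.sin_sq_add_cos_sq (Real.pi * t)
    linarith
  have hu2 : ∀ t v : ℝ, Real.cos (Real.pi * t) ^ 2 +
      (Real.sin (Real.pi * t) * Real.sin (Real.pi / 2 * v)) ^ 2 +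
      (Real.sin (Real.pi * t) * Real.cos (Real.pi / 2 * v)) ^ 2 = 1 := by
    intro t v
    have h1 := Real.sin_sq_add_cos_sq (Real.pi * t)
    have h2 := Real.sin_sq_add_cos_sq (Real.pi / 2 * v)
    calc _ = Real.cos (Real.pi * t) ^ 2 + Real.sin (Real.pi * t) ^ 2 *
          (Real.sin (Real.pi / 2 * v) ^ 2 + Real.cos (Real.pi / 2 * v) ^ 2) := by ring
      _ = 1 := by rw [h2]; linarith
  have hRu : ∀ x z w : ℝ, x ^ 2 + z ^ 2 + w ^ 2 = 1 → IsUnit (st1_R K x z w) := by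
    intro x z w h
    have h1 := st1_R_unit hK2 h
    have h2 := st1_R_unit hK2 (x := x) (z := -z) (w := -w) (by rw [neg_sq, neg_sq]; exact h)
    rw [neg_neg, neg_neg] at h2
    exact ⟨⟨st1_R K x z w, st1_R K x (-z) (-w), h1, h2⟩, rfl⟩
  have hcomm : ∀ (D : Matrix ι ι ℝ) (x z w : ℝ), (∀ i, D * e i = e i * D) →
      (∀ i, Dᵀ * e i = e i * Dᵀ) →
      (∀ i, (st1_D D * st1_R K x z w) * e3 e i = e3 e i * (st1_D D * st1_R K x z w)) ∧
      ∀ i, (st1_D D * st1_R K x z w)ᵀ * e3 e i = e3 e i * (st1_D D * st1_R K x z w)ᵀ := by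
    intro D x z w h1 h2
    constructor
    · intro i
      rw [mul_assoc, st1_R_comm hKe, ← mul_assoc, st1_D_comm (h1 i), mul_assoc]
    · intro i
      rw [transpose_mul, st1_R_T hKT, st1_D_T, mul_assoc, st1_D_comm (h2 i), ← mul_assoc,
        st1_R_comm hKe, mul_assoc]
  have hRc : ∀ {X : Type} [TopologicalSpace X] (a b d : X → ℝ), Continuous a → Continuous b →
      Continuous d → Continuous fun x => st1_R K (a x) (b x) (d x) := by
    intro X _ a b d ha hb hd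
    unfold st1_R st1_c
    exact continuous_blk3 (by fun_prop) continuous_const (by fun_prop) continuous_const
      continuous_const continuous_const (by fun_prop) continuous_const (by fun_prop)
  have hDc : ∀ {X : Type} [TopologicalSpace X] (a : X → Matrix ι ι ℝ), Continuous a →
      Continuous fun x => st1_D (a x) := by
    intro X _ a ha
    unfold st1_D
    exact continuous_blk3 ha continuous_const continuous_const continuous_const
      continuous_const continuous_const continuous_const continuous_const continuous_const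
  have k1 := st1_gp e c A hA hodd h0 P1 (by
      rw [hP1]
      refine Continuous.matrix_mul (hDc _ ?_) (hRc _ _ _ (by fun_prop) (by fun_prop)
        (by fun_prop))
      rw [hG]
      have h1 : Continuous fun p : I × (I × Y) => ((p.1 * p.2.1, p.2.2) : I × Y) := by fun_prop
      exact ((hgc.comp h1).matrix_mul (hEc.comp (by fun_prop))).matrix_mul (hgic.comp h1))
    (by
      intro p
      rw [hP1]
      exact (st1_D_unit (hGu _ _)).mul (hRu _ _ _ (hu1 _)))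
    (by
      intro p i
      rw [hP1]
      exact (hcomm _ _ _ _ (hGe _ _) (hGTe _ _)).1 i)
    (by
      intro p i
      rw [hP1]
      exact (hcomm _ _ _ _ (hGe _ _) (hGTe _ _)).2 i)
    (by
      intro u y
      rw [hP1]
      show st1_D (G (u * 0, y) ((0 : I) : ℝ)) * st1_R K (Real.cos (Real.pi * ((0 : I) : ℝ))) 0
        (Real.sin (Real.pi * ((0 : I) : ℝ))) = 1
      rw [st1_R_e (by simp) rfl (by simp), mul_one, mul_zero, hG0, Set.Icc.coe_zero, hE0,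
        st1_D_one])
    (by
      intro u y
      rw [hP1]
      show st1_D (G (u * 1, y) ((1 : I) : ℝ)) * st1_R K (Real.cos (Real.pi * ((1 : I) : ℝ))) 0
        (Real.sin (Real.pi * ((1 : I) : ℝ))) = _
      have h1 : G (u * 1, y) ((1 : I) : ℝ) = -1 := by
        rw [hGq, Set.Icc.coe_one, hE1, mul_neg, mul_one, neg_mul, hginv]
      rw [h1]
      exact st1_R_e1 (by simp) rfl (by simp))
  have k2 := st1_gp e c A hA hodd h0 P2 (by
      rw [hP2]
      refine Continuous.matrix_mul (hDc _ (hEc.comp (by fun_prop))) (hRc _ _ _ (by fun_prop)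
        (by fun_prop) (by fun_prop)))
    (by
      intro p
      rw [hP2]
      exact (st1_D_unit (hEu _)).mul (hRu _ _ _ (hu2 _ _)))
    (by
      intro p i
      rw [hP2]
      exact (hcomm _ _ _ _ (hEe _) (hETe _)).1 i)
    (by
      intro p i
      rw [hP2]
      exact (hcomm _ _ _ _ (hEe _) (hETe _)).2 i)
    (by
      intro u y
      rw [hP2]
      show st1_D (E ((0 : I) : ℝ)) * st1_R K (Real.cos (Real.pi * ((0 : I) : ℝ)))
        (Real.sin (Real.pi * ((0 : I) : ℝ)) * Real.sin (Real.pi / 2 * (u : ℝ)))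
        (Real.sin (Real.pi * ((0 : I) : ℝ)) * Real.cos (Real.pi / 2 * (u : ℝ))) = 1
      rw [st1_R_e (by simp) (by simp) (by simp), mul_one, Set.Icc.coe_zero, hE0,
        st1_D_one])
    (by
      intro u y
      rw [hP2]
      show st1_D (E ((1 : I) : ℝ)) * st1_R K (Real.cos (Real.pi * ((1 : I) : ℝ)))
        (Real.sin (Real.pi * ((1 : I) : ℝ)) * Real.sin (Real.pi / 2 * (u : ℝ)))
        (Real.sin (Real.pi * ((1 : I) : ℝ)) * Real.cos (Real.pi / 2 * (u : ℝ))) = _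
      rw [Set.Icc.coe_one, hE1]
      exact st1_R_e1 (by simp) (by simp) (by simp))
  have e0 : (fun p : I × Y => (P1 (0, p))ᵀ * st1_S (A p) * P1 (0, p)) =
      fun p => (P2 (0, p))ᵀ * st1_S (A p) * P2 (0, p) := by
    funext p
    have h1 : P1 (0, p) = P2 (0, p) := by
      rw [hP1, hP2]
      show st1_D (G (0 * p.1, p.2) (p.1 : ℝ)) * _ = st1_D (E (p.1 : ℝ)) * _
      rw [zero_mul, hG0]
      congr 2
      · simp
      · simp
    rw [h1]
  have e1 : (fun p : I × Y => (P2 (1, p))ᵀ * st1_S (A p) * P2 (1, p)) =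
      fun p => fromBlocks (A p) 0 0 (hyp K (p.1 : ℝ)) := by
    funext p
    have h1 : P2 (1, p) = blk3 1 0 0 0 1 0 0 0 (E (p.1 : ℝ)) := by
      rw [hP2]
      show st1_D (E (p.1 : ℝ)) * st1_R K (Real.cos (Real.pi * (p.1 : ℝ)))
        (Real.sin (Real.pi * (p.1 : ℝ)) * Real.sin (Real.pi / 2 * ((1 : I) : ℝ)))
        (Real.sin (Real.pi * (p.1 : ℝ)) * Real.cos (Real.pi / 2 * ((1 : I) : ℝ))) = _
      have h2 : st1_R K (Real.cos (Real.pi * (p.1 : ℝ)))
        (Real.sin (Real.pi * (p.1 : ℝ)) * Real.sin (Real.pi / 2 * ((1 : I) : ℝ)))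
        (Real.sin (Real.pi * (p.1 : ℝ)) * Real.cos (Real.pi / 2 * ((1 : I) : ℝ))) =
          blk3 (E (p.1 : ℝ))ᵀ 0 0 0 1 0 0 0 (E (p.1 : ℝ)) := by
        rw [Set.Icc.coe_one, mul_one, Real.sin_pi_div_two, Real.cos_pi_div_two, mul_one,
          mul_zero, hEt, st1_c_T hKT]
        unfold st1_R
        rw [neg_zero, st1_c_zero]
      rw [h2]
      unfold st1_D
      rw [blk3_mul]
      simp only [mul_zero, zero_mul, add_zero, zero_add, mul_one, one_mul, hET2]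
    rw [h1]
    unfold hyp
    rw [fromBlocks_blk3, st1_lin, ← hEt]
    unfold st1_S
    rw [blk3_transpose, blk3_mul, blk3_mul]
    simp only [mul_zero, zero_mul, add_zero, zero_add, mul_one, one_mul, transpose_one,
      transpose_zero]
  have e2 : (fun p : I × Y => (P1 (1, p))ᵀ * st1_S (A p) * P1 (1, p)) =
      fun p => StF (A p) (p.1 : ℝ) := by
    funext p
    have h1 : P1 (1, p) = st1_D (G p (p.1 : ℝ)) *
      st1_R K (Real.cos (Real.pi * (p.1 : ℝ))) 0 (Real.sin (Real.pi * (p.1 : ℝ))) := by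
      rw [hP1]
      show st1_D (G (1 * p.1, p.2) (p.1 : ℝ)) * _ = _
      rw [one_mul]
    have h2 : (P1 (1, p))ᵀ * st1_S (A p) * P1 (1, p) =
        (st1_R K (Real.cos (Real.pi * (p.1 : ℝ))) 0 (Real.sin (Real.pi * (p.1 : ℝ))))ᵀ *
          ((st1_D (G p (p.1 : ℝ)))ᵀ * st1_S (A p) * st1_D (G p (p.1 : ℝ))) *
        st1_R K (Real.cos (Real.pi * (p.1 : ℝ))) 0 (Real.sin (Real.pi * (p.1 : ℝ))) := by
      rw [h1, transpose_mul]
      simp only [mul_assoc]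
    have h3 : (st1_D (G p (p.1 : ℝ)))ᵀ * st1_S (A p) * st1_D (G p (p.1 : ℝ)) = st1_S (A p) := by
      rw [st1_D_T]
      unfold st1_D st1_S
      rw [blk3_mul, blk3_mul]
      simp only [mul_zero, zero_mul, add_zero, zero_add, mul_one, one_mul, hGA]
    rw [h2, h3, st1_R_T hKT]
    unfold st1_R st1_S StF st1_c
    rw [blk3_mul, blk3_mul]
    simp only [mul_zero, zero_mul, add_zero, zero_add, mul_one, one_mul, neg_zero, zero_smul,
      smul_mul_assoc, mul_smul_comm, smul_smul, neg_neg, neg_smul, neg_mul, mul_neg, smul_zero]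
    congr 1
    · rw [sq]
    · rw [mul_comm]
    · rw [sq]
  rw [e0] at k1
  rw [e1] at k2
  rw [e2] at k1
  exact k2.symm.trans k1

end DT
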