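import Pool.Agent.H78.DT.Sm

/-!
# The tangent bundle of the sphere, smooth isotopies (definitions)
-/

open Set
open scoped ContDiff

noncomputable section

namespace DT

/-- The tangent bundle of the unit sphere of `E`, as a subset of `E × E`. -/
def TS (E : Type) [NormedAddCommGroup E] [InnerProductSpace ℝ E] : Set (E × E) :=
  {p | ‖p.1‖ = 1 ∧ inner ℝ p.1 p.2 = 0}

variable {E : Type} [NormedAddCommGroup E] [InnerProductSpace ℝ E]

/-- `f` is a diffeomorphism of `TS E`, with inverse `f'`. -/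
def Dff (f f' : E × E → E × E) : Prop :=
  SmOn (TS E) f ∧ SmOn (TS E) f' ∧
    ∀ p ∈ TS E, f p ∈ TS E ∧ f' p ∈ TS E ∧ f' (f p) = p ∧ f (f' p) = p

/-- `F` is a smooth path of diffeomorphisms of `TS E` from `f` to `g`; `G` is the path of the
inverses. -/
def IsIso (F G : ℝ × (E × E) → E × E) (f g : E × E → E × E) : Prop :=
  SmOn (Icc (0 : ℝ) 1 ×ˢ TS E) F ∧ SmOn (Icc (0 : ℝ) 1 ×ˢ TS E) G ∧
    (∀ t ∈ Icc (0 : ℝ) 1, ∀ p ∈ TS E,
      F (t, p) ∈ TS E ∧ G (t, p) ∈ TS E ∧ G (t, F (t, p)) = p ∧ F (t, G (t, p)) = p) ∧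
    (∀ p ∈ TS E, F (0, p) = f p) ∧ ∀ p ∈ TS E, F (1, p) = g p

/-- `f` and `g` are smoothly isotopic diffeomorphisms of `TS E`. -/
def DIso (f g : E × E → E × E) : Prop := ∃ F G, IsIso F G f g

/-- `f` and `g` are smoothly isotopic through diffeomorphisms of `TS E` supported in a fixed
compact set. -/
def CSIso (f g : E × E → E × E) : Prop :=
  ∃ F G, IsIso F G f g ∧ ∃ R : ℝ, ∀ t ∈ Icc (0 : ℝ) 1, ∀ p ∈ TS E, R ≤ ‖p.2‖ → F (t, p) = p

/-- The profile functions of the model Dehn twist: smooth, `r t + r (-t) = 2π`, and `r t = 0` for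
large `t`. -/
def IsProfile (r : ℝ → ℝ) : Prop :=
  ContDiff ℝ ∞ r ∧ (∀ t, r t + r (-t) = 2 * Real.pi) ∧ ∃ ε > 0, ∀ t ≥ ε, r t = 0

/-- The normalised geodesic flow for the time `t`, at `(x, v)`, `v ≠ 0`:
`(cos t x + sin t v/|v|, |v| (-sin t x + cos t v/|v|))`. -/
def gflow (t : ℝ) (p : E × E) : E × E :=
  (Real.cos t • p.1 + (Real.sin t * ‖p.2‖⁻¹) • p.2,
    -(Real.sin t * ‖p.2‖) • p.1 + Real.cos t • p.2)

/-- The model Dehn twist with the profile `r`. -/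
def tau (r : ℝ → ℝ) (p : E × E) : E × E :=
  open Classical in if p.2 = 0 then (-p.1, 0) else gflow (r ‖p.2‖) p

end DT
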