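import Pool.Agent.H78.DT.SDf
import Pool.Agent.H78.DT.Par

/-!
# The model Dehn twist (job DT-TAU)

`s t = π - r t` is smooth and odd: `s (-t) = π - r (-t) = π - 2π + r t = -s t`.  `c = cos ∘ s` is smooth
and even, `sin ∘ s` is smooth and odd, so `sin (s t) = t h t`, `h` smooth even (`odd_quot`).
`cos (r t) = -cos (s t)`, `sin (r t) = sin (s t)`.  So for `v ≠ 0`
`tau r (x, v) = (-c(‖v‖) x + h(‖v‖) v, -(‖v‖² h(‖v‖)) x - c(‖v‖) v)` and this also holds for `v = 0`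
(`c 0 = 1` since `s 0 = 0`).  So `tau r` is smooth on `E × E` (`even_smooth`,
`‖v‖² = ⟪v,v⟫`).  Inverse: `(x, v) ↦ (-c x - h v, ‖v‖² h x - c v)` with `c, h` at `‖v‖`;
`c² + ‖v‖² h² = 1` (`cos² + sin²`), both maps preserve `‖v‖` and `TS E`:
`‖-c x + h v‖² = c² + h² ‖v‖² = 1`, `⟪-c x + h v, -‖v‖²h x - c v⟫ = c h ‖v‖² - h c ‖v‖² = 0`,
`‖-‖v‖²h x - c v‖² = ‖v‖⁴h² + c²‖v‖² = ‖v‖²`.
Support: for `‖v‖ ≥ ε`, `r ‖v‖ = 0`, `v ≠ 0`: `gflow 0 p = p`.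
`tau_isoAct`: `A` is linear and preserves the norm.
-/

open Set
open scoped ContDiff

noncomputable section

namespace DT

variable {E : Type} [NormedAddCommGroup E] [InnerProductSpace ℝ E]

private def tauT (c h : ℝ) (p : E × E) : E × E :=
  ((-c) • p.1 + h • p.2, (-(‖p.2‖ ^ 2 * h)) • p.1 + (-c) • p.2)

private def tauS (c h : ℝ) (p : E × E) : E × E :=
  ((-c) • p.1 + (-h) • p.2, (‖p.2‖ ^ 2 * h) • p.1 + (-c) • p.2)

private theorem tau_norm_sq (a b : ℝ) {p : E × E} (hp : p ∈ TS E) :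
    ‖a • p.1 + b • p.2‖ ^ 2 = a ^ 2 + b ^ 2 * ‖p.2‖ ^ 2 := by
  obtain ⟨h1, h2⟩ := hp
  rw [norm_add_sq_real, norm_smul, norm_smul, inner_smul_left, inner_smul_right, h2, mul_pow,
    mul_pow, h1, Real.norm_eq_abs, Real.norm_eq_abs, sq_abs, sq_abs]
  simp

private theorem tau_inner (a b a' b' : ℝ) {p : E × E} (hp : p ∈ TS E) :
    inner ℝ (a • p.1 + b • p.2) (a' • p.1 + b' • p.2) = a * a' + b * b' * ‖p.2‖ ^ 2 := by
  obtain ⟨h1, h2⟩ := hp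
  have h3 : inner ℝ p.2 p.1 = (0 : ℝ) := by rw [real_inner_comm]; exact h2
  rw [inner_add_left, inner_add_right, inner_add_right]
  simp only [inner_smul_left, inner_smul_right, h2, h3, real_inner_self_eq_norm_sq, h1]
  simp
  ring

private theorem tauT_snd {c h : ℝ} {p : E × E} (hp : p ∈ TS E) (hc : c ^ 2 + ‖p.2‖ ^ 2 * h ^ 2 = 1) :
    ‖(tauT c h p).2‖ = ‖p.2‖ := by
  have h1 := tau_norm_sq (-(‖p.2‖ ^ 2 * h)) (-c) hp
  have h2 : ‖(tauT c h p).2‖ ^ 2 = ‖p.2‖ ^ 2 := by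
    refine h1.trans ?_
    linear_combination ‖p.2‖ ^ 2 * hc
  exact (sq_eq_sq₀ (norm_nonneg _) (norm_nonneg _)).1 h2

private theorem tauS_snd {c h : ℝ} {p : E × E} (hp : p ∈ TS E) (hc : c ^ 2 + ‖p.2‖ ^ 2 * h ^ 2 = 1) :
    ‖(tauS c h p).2‖ = ‖p.2‖ := by
  have h1 := tau_norm_sq (‖p.2‖ ^ 2 * h) (-c) hp
  have h2 : ‖(tauS c h p).2‖ ^ 2 = ‖p.2‖ ^ 2 := by
    refine h1.trans ?_
    linear_combination ‖p.2‖ ^ 2 * hc
  exact (sq_eq_sq₀ (norm_nonneg _) (norm_nonneg _)).1 h2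

private theorem tauT_mem {c h : ℝ} {p : E × E} (hp : p ∈ TS E) (hc : c ^ 2 + ‖p.2‖ ^ 2 * h ^ 2 = 1) :
    tauT c h p ∈ TS E := by
  refine ⟨?_, ?_⟩
  · have h1 := tau_norm_sq (-c) h hp
    have h2 : ‖(tauT c h p).1‖ ^ 2 = 1 ^ 2 := by
      refine h1.trans ?_
      linear_combination hc
    exact (sq_eq_sq₀ (norm_nonneg _) zero_le_one).1 h2
  · refine (tau_inner (-c) h (-(‖p.2‖ ^ 2 * h)) (-c) hp).trans ?_
    ring

private theorem tauS_mem {c h : ℝ} {p : E × E} (hp : p ∈ TS E) (hc : c ^ 2 + ‖p.2‖ ^ 2 * h ^ 2 = 1) :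
    tauS c h p ∈ TS E := by
  refine ⟨?_, ?_⟩
  · have h1 := tau_norm_sq (-c) (-h) hp
    have h2 : ‖(tauS c h p).1‖ ^ 2 = 1 ^ 2 := by
      refine h1.trans ?_
      linear_combination hc
    exact (sq_eq_sq₀ (norm_nonneg _) zero_le_one).1 h2
  · refine (tau_inner (-c) (-h) (‖p.2‖ ^ 2 * h) (-c) hp).trans ?_
    ring

private theorem tau_ST {c h : ℝ} {p : E × E} (hp : p ∈ TS E) (hc : c ^ 2 + ‖p.2‖ ^ 2 * h ^ 2 = 1) :
    tauS c h (tauT c h p) = p := by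
  have h1 := tauT_snd hp hc
  refine Prod.ext ?_ ?_
  · show (-c) • ((-c) • p.1 + h • p.2) + (-h) • ((-(‖p.2‖ ^ 2 * h)) • p.1 + (-c) • p.2) = p.1
    calc _ = (c ^ 2 + ‖p.2‖ ^ 2 * h ^ 2) • p.1 := by module
      _ = p.1 := by rw [hc, one_smul]
  · show (‖(tauT c h p).2‖ ^ 2 * h) • ((-c) • p.1 + h • p.2) +
      (-c) • ((-(‖p.2‖ ^ 2 * h)) • p.1 + (-c) • p.2) = p.2
    rw [h1]
    calc _ = (c ^ 2 + ‖p.2‖ ^ 2 * h ^ 2) • p.2 := by module
      _ = p.2 := by rw [hc, one_smul]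

private theorem tau_TS {c h : ℝ} {p : E × E} (hp : p ∈ TS E) (hc : c ^ 2 + ‖p.2‖ ^ 2 * h ^ 2 = 1) :
    tauT c h (tauS c h p) = p := by
  have h1 := tauS_snd hp hc
  refine Prod.ext ?_ ?_
  · show (-c) • ((-c) • p.1 + (-h) • p.2) + h • ((‖p.2‖ ^ 2 * h) • p.1 + (-c) • p.2) = p.1
    calc _ = (c ^ 2 + ‖p.2‖ ^ 2 * h ^ 2) • p.1 := by module
      _ = p.1 := by rw [hc, one_smul]
  · show (-(‖(tauS c h p).2‖ ^ 2 * h)) • ((-c) • p.1 + (-h) • p.2) +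
      (-c) • ((‖p.2‖ ^ 2 * h) • p.1 + (-c) • p.2) = p.2
    rw [h1]
    calc _ = (c ^ 2 + ‖p.2‖ ^ 2 * h ^ 2) • p.2 := by module
      _ = p.2 := by rw [hc, one_smul]

theorem tau_dff {r : ℝ → ℝ} (hr : IsProfile r) : ∃ τ' : E × E → E × E, Dff (tau r) τ' := by
  obtain ⟨hr1, hr2, -⟩ := hr
  have hs1 : ContDiff ℝ ∞ fun t => Real.pi - r t := contDiff_const.sub hr1
  have hs2 : ∀ t, Real.pi - r (-t) = -(Real.pi - r t) := by
    intro t
    have := hr2 t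
    linarith
  have hs0 : Real.pi - r 0 = 0 := by
    have := hs2 0
    rw [neg_zero] at this
    linarith
  have hc1 : ContDiff ℝ ∞ fun t => Real.cos (Real.pi - r t) := Real.contDiff_cos.comp hs1
  have hc2 : ∀ t, Real.cos (Real.pi - r (-t)) = Real.cos (Real.pi - r t) := by
    intro t
    rw [hs2, Real.cos_neg]
  obtain ⟨h, hh1, hh2, hh3⟩ := odd_quot (fun t => Real.sin (Real.pi - r t))
    (Real.contDiff_sin.comp hs1) (fun t => by
      show Real.sin (Real.pi - r (-t)) = -Real.sin (Real.pi - r t)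
      rw [hs2, Real.sin_neg])
  have hc3 : ContDiff ℝ ∞ fun v : E => Real.cos (Real.pi - r ‖v‖) :=
    even_smooth (fun t => Real.cos (Real.pi - r t)) hc1 hc2
  have hh4 : ContDiff ℝ ∞ fun v : E => h ‖v‖ := even_smooth h hh1 hh2
  have hc4 : ContDiff ℝ ∞ fun p : E × E => Real.cos (Real.pi - r ‖p.2‖) := hc3.comp contDiff_snd
  have hh5 : ContDiff ℝ ∞ fun p : E × E => h ‖p.2‖ := hh4.comp contDiff_snd
  have hn : ContDiff ℝ ∞ fun p : E × E => ‖p.2‖ ^ 2 := (contDiff_norm_sq ℝ).comp contDiff_snd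
  have htr : ∀ n, Real.cos (Real.pi - r n) ^ 2 + n ^ 2 * h n ^ 2 = 1 := by
    intro n
    have h1 : Real.sin (Real.pi - r n) = n * h n := hh3 n
    have h2 := Real.sin_sq_add_cos_sq (Real.pi - r n)
    rw [h1] at h2
    linear_combination h2
  have htau : ∀ p : E × E, tau r p = tauT (Real.cos (Real.pi - r ‖p.2‖)) (h ‖p.2‖) p := by
    intro p
    have h1 : Real.sin (r ‖p.2‖) = ‖p.2‖ * h ‖p.2‖ := by
      rw [← Real.sin_pi_sub]
      exact hh3 ‖p.2‖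
    have h2 : Real.cos (r ‖p.2‖) = -Real.cos (Real.pi - r ‖p.2‖) := by
      rw [Real.cos_pi_sub, neg_neg]
    unfold tau
    by_cases hv : p.2 = 0
    · rw [if_pos hv]
      refine Prod.ext ?_ ?_
      · show -p.1 = (-Real.cos (Real.pi - r ‖p.2‖)) • p.1 + h ‖p.2‖ • p.2
        rw [hv, norm_zero, hs0, Real.cos_zero, smul_zero, add_zero, neg_smul, one_smul]
      · show (0 : E) = (-(‖p.2‖ ^ 2 * h ‖p.2‖)) • p.1 + (-Real.cos (Real.pi - r ‖p.2‖)) • p.2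
        rw [hv, norm_zero]
        simp
    · rw [if_neg hv]
      have hv' : ‖p.2‖ ≠ 0 := norm_ne_zero_iff.2 hv
      refine Prod.ext ?_ ?_
      · show Real.cos (r ‖p.2‖) • p.1 + (Real.sin (r ‖p.2‖) * ‖p.2‖⁻¹) • p.2 =
          (-Real.cos (Real.pi - r ‖p.2‖)) • p.1 + h ‖p.2‖ • p.2
        rw [h1, h2, mul_comm ‖p.2‖, mul_assoc, mul_inv_cancel₀ hv', mul_one]
      · show -(Real.sin (r ‖p.2‖) * ‖p.2‖) • p.1 + Real.cos (r ‖p.2‖) • p.2 =
          (-(‖p.2‖ ^ 2 * h ‖p.2‖)) • p.1 + (-Real.cos (Real.pi - r ‖p.2‖)) • p.2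
        rw [h1, h2]
        congr 2
        ring
  refine ⟨fun p => tauS (Real.cos (Real.pi - r ‖p.2‖)) (h ‖p.2‖) p, ?_, ?_, ?_⟩
  · have h1 : tau r = fun p : E × E => tauT (Real.cos (Real.pi - r ‖p.2‖)) (h ‖p.2‖) p :=
      funext htau
    rw [h1]
    refine SmOn.of_contDiff ?_
    exact ((hc4.neg.smul contDiff_fst).add (hh5.smul contDiff_snd)).prodMk
      (((hn.mul hh5).neg.smul contDiff_fst).add (hc4.neg.smul contDiff_snd))
  · refine SmOn.of_contDiff ?_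
    exact ((hc4.neg.smul contDiff_fst).add (hh5.neg.smul contDiff_snd)).prodMk
      (((hn.mul hh5).smul contDiff_fst).add (hc4.neg.smul contDiff_snd))
  · intro p hp
    have hc := htr ‖p.2‖
    refine ⟨?_, ?_, ?_, ?_⟩
    · rw [htau]
      exact tauT_mem hp hc
    · exact tauS_mem hp hc
    · rw [htau]
      simp only
      rw [tauT_snd hp hc]
      exact tau_ST hp hc
    · rw [htau]
      simp only
      rw [tauS_snd hp hc]
      exact tau_TS hp hc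

theorem tau_supp {r : ℝ → ℝ} (hr : IsProfile r) :
    ∃ R : ℝ, ∀ p ∈ TS E, R ≤ ‖p.2‖ → tau r p = p := by
  obtain ⟨-, -, ε, hε, hr3⟩ := hr
  refine ⟨ε, fun p _ hp => ?_⟩
  have hv : p.2 ≠ 0 := norm_ne_zero_iff.1 (hε.trans_le hp).ne'
  unfold tau
  rw [if_neg hv, hr3 _ hp]
  unfold gflow
  simp

theorem tau_isoAct (r : ℝ → ℝ) (A : E ≃ₗᵢ[ℝ] E) (p : E × E) :
    tau r (isoAct A p) = isoAct A (tau r p) := by
  unfold tau isoAct
  by_cases hv : p.2 = 0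
  · have h1 : A p.2 = 0 := by rw [hv, map_zero]
    rw [if_pos hv, if_pos h1]
    simp
  · have h1 : A p.2 ≠ 0 := fun h => hv (by simpa using h)
    rw [if_neg hv, if_neg h1]
    unfold gflow
    simp

end DT
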