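import Pool.Agent.H78.DT.Rad

/-!
# The action of a diffeomorphism of the sphere on the cotangent bundle (definitions)

`E` is a Euclidean space of dimension `n + 1`.  `T^*S^n` is identified with
`TS^n = {(x, v) ∈ E × E | ‖x‖ = 1, ⟪x, v⟫ = 0}` by the round metric.
-/

open Set Metric
open scoped ContDiff Manifold

noncomputable section

namespace DT

variable {E : Type} [NormedAddCommGroup E] [InnerProductSpace ℝ E]

/-- `φ` is a smooth diffeomorphism of the unit sphere of `E` (a smooth manifold modelled on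
`ℝⁿ`), with inverse `φ'`. -/
def IsDiffS (n : ℕ) [Fact (Module.finrank ℝ E = n + 1)]
    (φ φ' : sphere (0 : E) 1 → sphere (0 : E) 1) : Prop :=
  ContMDiff (𝓡 n) (𝓡 n) ∞ φ ∧ ContMDiff (𝓡 n) (𝓡 n) ∞ φ' ∧ (∀ x, φ' (φ x) = x) ∧
    ∀ x, φ (φ' x) = x

/-- The pull-back of covectors `φ^*`, as a map of `TS^n`: `(y, v) ↦ (x, (dφ_x)^T v)`, `x = φ' y`,
where `φ'` is the inverse of `φ`.
Here `rad φ z = ‖z‖ φ (z/‖z‖)`; its derivative at a point `x` of the sphere maps `x` to `φ x` and
restricts to `dφ_x` on the tangent space of the sphere. -/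
def pullb [CompleteSpace E] (φ φ' : sphere (0 : E) 1 → sphere (0 : E) 1) (p : E × E) : E × E :=
  (rad φ' p.1, ContinuousLinearMap.adjoint (fderiv ℝ (rad φ) (rad φ' p.1)) p.2)

/-- The homogeneous extension of a diffeomorphism. -/
def toSD' {n : ℕ} [Fact (Module.finrank ℝ E = n + 1)]
    {φ φ' : sphere (0 : E) 1 → sphere (0 : E) 1} (h : IsDiffS n φ φ') : SDiff E where
  f := rad φ
  g := rad φ'
  f_smooth := rad_smooth φ h.1
  g_smooth := rad_smooth φ' h.2.1
  f_hom := rad_hom φ
  g_hom := rad_hom φ'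
  f_norm := rad_norm φ
  g_norm := rad_norm φ'
  gf := fun z => by
    rw [rad_comp, show (fun x => φ' (φ x)) = fun x => x from funext h.2.2.1]
    exact rad_id z
  fg := fun z => by
    rw [rad_comp, show (fun x => φ (φ' x)) = fun x => x from funext h.2.2.2]
    exact rad_id z

end DT
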