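import Pool.Agent.H78.DT.AcMap

/-!
# The vertical derivative of `Θ = (ς a_{c'})⁻¹ Θ₁` (job DT-VDER)

Notation: `D = fderiv ℝ ψ.f x`, `y = ψ x`, `m = ⟪y, x⟫`, `1 + m ≠ 0`, `R = mrot y x`.
Claim: the derivative at `s = 0` of `s ↦ (aci ψ (sig (th1 ψ (x, s v)))).2` is
`Cm ψ x (Cm ψ x v)`, for `(x, v) ∈ TS E`.
PROOF. `th1 ψ (x, s v) = (y, u(s))`, `u (s) = s D v + cx ψ x ⊥ y` (in `TS`); by `sig_eq`
`sig (y, u) = (q, Sti q y)`, `q (s) = St y (u s)`, `q (0) = -x` (`St_Sti`), and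
`(aci ψ (q, w)).2 = w - cp ψ (-q) = w - Sti q (ψ (-q))`.  So the function is
`Z (s) = Sti (q s) y - Sti (q s) (ψ (-q s))`.
(a) derivative of `St`: for `u ⊥ y`, `w ⊥ y`, `N = ‖u‖²+1`, `q = St y u`:
the derivative of `s ↦ St y (u + s w)` at `0` is
`(2⟪u,w⟫ y + 2 w)/N - (2⟪u,w⟫/N) q = (2/N) (w + ⟪u,w⟫ (y - q))`.  With `⟪q, w⟫ = 2⟪u,w⟫/N` and
`2/N = 1 - ⟪y,q⟫` this is `(1 - ⟪y,q⟫) w + ⟪q,w⟫ (y - q)`.  At `u = cx ψ x`, `q = -x`, `w = D v ⊥ y`: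
`q' = (1 + m) w - ⟪x,w⟫ (y + x) = (1 + m) mrot y x w` (`mrot_apply` with `⟪y,w⟫ = 0`).
So `q'(0) = (1+m) R (D v) = (1+m) Cm ψ x v =: (1+m) v₁`, `v₁ ⊥ x`.
(b) `-q (0) = x`, so `z (s) = ψ (-q s)` has `z (0) = y` and `z'(0) = -D q'(0) = -(1+m) D v₁`
(`SDiff.hasDerivAt`).
(c) `Sti q y' = (1 - ⟪q,y'⟫)⁻¹ (y' - ⟪q,y'⟫ q)` is a smooth function of `(q, y')` near `(-x, y)` (`1 - ⟪-x,y⟫ = 1 + m ≠ 0`);
so `Z'(0)` is `∂₁ q' - (∂₁ q' + ∂₂ z') = -∂₂ Sti (-x, y) (z')`.  (Alternatively compute directly: with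
`A (s) = ⟪q, y⟫`, `B (s) = ⟪q, z⟫`, `Z = (y - A q)/(1 - A) - (z - B q)/(1 - B)`; `HasDerivAt` of
quotients; at `s = 0` `A = B = -m`, `z = y`; the difference of the derivatives depends only on
`z'` and `B' - A' = ⟪q, z'⟫ = -⟪x, z'⟫`.)
`∂₂ Sti (-x, y) (w) = (w - ⟪x,w⟫ x)/(1+m) - ⟪x,w⟫ (y - m x)/(1+m)² = (w - (⟪x,w⟫/(1+m)) (x + y))/(1+m)
= mrot y x w/(1+m)` for `w ⊥ y` (`x (1+m) + y - m x = x + y`).
So `Z'(0) = mrot y x (D v₁) = R D v₁ = Cm ψ x v₁ = Cm ψ x (Cm ψ x v)`; `D v₁ ⊥ y` since `v₁ ⊥ x`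
(`SDiff.adj`, `Cm_inner`).
-/

open Set Metric
open scoped ContDiff

noncomputable section

namespace DT

variable {E : Type} [NormedAddCommGroup E] [InnerProductSpace ℝ E] [FiniteDimensional ℝ E]

omit [FiniteDimensional ℝ E] in
/-- The derivative of the inverse stereographic projection along a line. -/
theorem VDer_q {x y w : E} (hx : ‖x‖ = 1) (hy : ‖y‖ = 1) (hk : (1 + inner ℝ y x : ℝ) ≠ 0)
    (hw : (inner ℝ y w : ℝ) = 0) {u : ℝ → E} (hu : HasDerivAt u w 0)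
    (hu0 : u 0 = Sti y (-x)) :
    HasDerivAt (fun s => St y (u s)) ((1 + inner ℝ y x : ℝ) • mrot y x w) 0 := by
  have hxx : (inner ℝ x x : ℝ) = 1 := by rw [real_inner_self_eq_norm_sq, hx]; norm_num
  have hyy : (inner ℝ y y : ℝ) = 1 := by rw [real_inner_self_eq_norm_sq, hy]; norm_num
  have hu1 : u 0 = (1 + inner ℝ y x : ℝ)⁻¹ • ((inner ℝ y x : ℝ) • y - x) := by
    rw [hu0]
    unfold Sti
    rw [inner_neg_right]
    module
  have hn0 : ‖u 0‖ ^ 2 = 2 / (1 + inner ℝ y x : ℝ) - 1 := by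
    rw [← real_inner_self_eq_norm_sq, hu1]
    simp only [inner_smul_left, inner_smul_right, inner_sub_left, inner_sub_right, hxx, hyy,
      real_inner_comm y x, RCLike.conj_to_real]
    generalize (inner ℝ y x : ℝ) = m at *
    field_simp
    ring
  have hi : (inner ℝ (u 0) w : ℝ) = -((1 + inner ℝ y x : ℝ)⁻¹ * inner ℝ x w) := by
    rw [hu1, inner_smul_left, inner_sub_left, inner_smul_left, hw]
    simp only [RCLike.conj_to_real]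
    ring
  have hn := hu.norm_sq
  have h1 := ((hn.add_const (1 : ℝ)).fun_inv (by positivity)).fun_smul
    (((hn.sub_const (1 : ℝ)).smul_const y).fun_add (hu.const_smul (2 : ℝ)))
  refine h1.congr_deriv ?_
  have e1 : ‖u 0‖ ^ 2 + 1 = 2 / (1 + inner ℝ y x : ℝ) := by rw [hn0]; ring
  have e2 : ‖u 0‖ ^ 2 - 1 = 2 / (1 + inner ℝ y x : ℝ) - 2 := by rw [hn0]; ring
  rw [mrot_apply, hw, e1, e2, hi, Pi.smul_apply, hu1, inner_add_left, hw]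
  generalize (inner ℝ y x : ℝ) = m at *
  generalize (inner ℝ x w : ℝ) = a at *
  match_scalars <;> field_simp <;> ring

theorem vder (ψ : SDiff E) (hne : ∀ x : E, ‖x‖ = 1 → ψ.f x ≠ -x) (p : E × E) (hp : p ∈ TS E) :
    HasDerivAt (fun s : ℝ => (aci ψ (sig (th1 ψ (p.1, s • p.2)))).2)
      (Cm ψ p.1 (Cm ψ p.1 p.2)) 0 := by
  obtain ⟨x, v⟩ := p
  obtain ⟨hx, hxv⟩ := hp
  change ‖x‖ = 1 at hx
  change inner ℝ x v = 0 at hxv
  have hx0 := CmP_ne hx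
  have hy : ‖ψ.f x‖ = 1 := (ψ.f_norm x).trans hx
  have hm := inner_ne_of_ne hy hx (hne x hx)
  have hk := MRot_ne hm
  have hw : inner ℝ (ψ.f x) (fderiv ℝ ψ.f x v) = (0 : ℝ) := (ψ.adj hx0 v).trans hxv
  have hyx : ψ.f x ≠ -x := hne x hx
  -- the function `u`
  have hu : HasDerivAt (fun s : ℝ => fderiv ℝ ψ.f x (s • v) + cx ψ x) (fderiv ℝ ψ.f x v) 0 := by
    have h1 : HasDerivAt (fun s : ℝ => s • v) v 0 := by
      simpa using (hasDerivAt_id (0 : ℝ)).smul_const v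
    have h2 := (fderiv ℝ ψ.f x).hasFDerivAt.comp_hasDerivAt (0 : ℝ) h1
    exact h2.add_const _
  have hu0 : (fun s : ℝ => fderiv ℝ ψ.f x (s • v) + cx ψ x) 0 = Sti (ψ.f x) (-x) := by
    simp [cx]
  have hus : ∀ s : ℝ, (inner ℝ (ψ.f x) (fderiv ℝ ψ.f x (s • v) + cx ψ x) : ℝ) = 0 := by
    intro s
    rw [inner_add_right, map_smul, inner_smul_right, hw, cx, Sti_inner hy]
    simp
  obtain ⟨U, hU⟩ : ∃ U : ℝ → E, (fun s : ℝ => fderiv ℝ ψ.f x (s • v) + cx ψ x) = U := ⟨_, rfl⟩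
  rw [hU] at hu hu0
  have hq := VDer_q hx hy hk hw hu hu0
  have hUs : ∀ s, (inner ℝ (ψ.f x) (U s) : ℝ) = 0 := fun s => by rw [← hU]; exact hus s
  have hfun : (fun s : ℝ => (aci ψ (sig (th1 ψ (x, s • v)))).2) = fun s =>
      Sti (St (ψ.f x) (U s)) (ψ.f x) - Sti (St (ψ.f x) (U s)) (ψ.f (-St (ψ.f x) (U s))) := by
    funext s
    have h1 : th1 ψ (x, s • v) = (ψ.f x, U s) := by
      rw [← hU]
      rfl
    have h2 : (ψ.f x, U s) ∈ TS E := ⟨hy, hUs s⟩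
    rw [h1, sig_eq h2]
    show Sti (St (ψ.f x) (U s)) (ψ.f x) - Sti (- -St (ψ.f x) (U s)) (ψ.f (-St (ψ.f x) (U s))) = _
    rw [neg_neg]
  have hxy : -x ≠ ψ.f x := fun h => hyx h.symm
  have hq0 : St (ψ.f x) (U 0) = -x := by
    rw [hu0]
    exact St_Sti hy (by rw [norm_neg]; exact hx) hxy
  change HasDerivAt (fun s : ℝ => (aci ψ (sig (th1 ψ (x, s • v)))).2) _ 0
  rw [hfun]
  have hCm : mrot (ψ.f x) x (fderiv ℝ ψ.f x v) = Cm ψ x v := rfl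
  rw [hCm] at hq
  obtain ⟨Q, hQ⟩ : ∃ Q : ℝ → E, (fun s => St (ψ.f x) (U s)) = Q := ⟨_, rfl⟩
  rw [hQ] at hq
  have hQs : ∀ s, St (ψ.f x) (U s) = Q s := fun s => by rw [← hQ]
  simp only [hQs] at hq0 ⊢
  -- the function `z`
  have hz := ψ.hasDerivAt (c := fun s => -Q s) hq.fun_neg (by simp only [hq0, neg_neg]; exact hx0)
  simp only [hq0, neg_neg] at hz
  have hA := hq.inner ℝ (hasDerivAt_const (0 : ℝ) (ψ.f x))
  have hB := hq.inner ℝ hz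
  simp only [hq0, neg_neg] at hA hB
  have hyx' : (inner ℝ x (ψ.f x) : ℝ) = inner ℝ (ψ.f x) x := real_inner_comm _ _
  have hA0 : (1 : ℝ) - inner ℝ (Q 0) (ψ.f x) = 1 + inner ℝ (ψ.f x) x := by
    rw [hq0, inner_neg_left, hyx']
    ring
  have hB0 : (1 : ℝ) - inner ℝ (Q 0) (ψ.f (-Q 0)) = 1 + inner ℝ (ψ.f x) x := by
    rw [hq0, neg_neg, inner_neg_left, hyx']
    ring
  have h1 := ((hA.const_sub 1).fun_inv (by rw [hA0]; exact hk)).fun_smul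
    ((hasDerivAt_const (0 : ℝ) (ψ.f x)).fun_sub (hA.fun_smul hq))
  have h2 := ((hB.const_sub 1).fun_inv (by rw [hB0]; exact hk)).fun_smul
    (hz.fun_sub (hB.fun_smul hq))
  have h3 := h1.fun_sub h2
  refine h3.congr_deriv ?_
  have hv1 : (inner ℝ x (Cm ψ x v) : ℝ) = 0 := (Cm_inner ψ hne hx v).trans hxv
  have hw1 : (inner ℝ (ψ.f x) (fderiv ℝ ψ.f x (Cm ψ x v)) : ℝ) = 0 :=
    (ψ.adj hx0 _).trans hv1
  have hR : Cm ψ x (Cm ψ x v) = mrot (ψ.f x) x (fderiv ℝ ψ.f x (Cm ψ x v)) := rfl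
  rw [hR, mrot_apply, hw1, inner_add_left, hw1]
  simp only [hq0, neg_neg, inner_neg_left, hyx', inner_zero_right, inner_smul_left,
    map_neg, map_smul, inner_neg_right, inner_smul_right, RCLike.conj_to_real, sub_neg_eq_add]
  clear h1 h2 h3 hA hB hz hq hR hw1 hv1 hfun hus hUs hQs hu0 hu hU hQ
  generalize (inner ℝ (ψ.f x) x : ℝ) = m at *
  generalize fderiv ℝ ψ.f x (Cm ψ x v) = d at *
  generalize Cm ψ x v = v1 at *
  generalize (inner ℝ x d : ℝ) = a at *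
  generalize (inner ℝ v1 (ψ.f x) : ℝ) = b at *
  generalize ψ.f x = y at *
  match_scalars <;> field_simp <;> ring

end DT
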